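import Mathlib

-- part Pool.Agent.Lib.MP_f4f7c0_an.Calc
section

/-! Calculus for absolutely continuous functions along an extremal. -/

namespace Pool.Agent.Lib.MP_f4f7c0_an

open Set Filter Topology MeasureTheory Asymptotics

abbrev AC := @AbsolutelyContinuousOnInterval ℝ _

theorem AC.comp {F g : ℝ → ℝ} {a b : ℝ} (hF : AC F a b) {U : Set ℝ}
    (hg : ContDiffOn ℝ 1 g U) (hmem : ∀ t ∈ uIcc a b, F t ∈ U) :
    AC (fun t => g (F t)) a b := by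
  have hc := hF.continuousOn
  have hK : IsCompact (F '' uIcc a b) := isCompact_uIcc.image_of_continuousOn hc
  have hconv : Convex ℝ (F '' uIcc a b) :=
    (isPreconnected_uIcc.image F hc).ordConnected.convex
  obtain ⟨K, hK⟩ := (hg.mono (by rintro _ ⟨t, ht, rfl⟩; exact hmem t ht)).exists_lipschitzOnWith
    one_ne_zero hconv hK
  unfold AC AbsolutelyContinuousOnInterval at *
  refine squeeze_zero' (Eventually.of_forall fun E => Finset.sum_nonneg fun _ _ => dist_nonneg)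
    ?_ (by simpa using hF.const_mul (K : ℝ))
  filter_upwards [mem_inf_of_right (mem_principal_self _)] with E hE
  rw [Finset.mul_sum]
  refine Finset.sum_le_sum fun i hi => ?_
  exact hK.dist_le_mul _ (mem_image_of_mem _ (hE.1 i hi).1) _ (mem_image_of_mem _ (hE.1 i hi).2)

theorem AC.le_of_ae {F F' : ℝ → ℝ} {s t : ℝ} (hst : s ≤ t) (hF : AC F s t)
    (h : ∀ᵐ τ, τ ∈ Ioo s t → HasDerivAt F (F' τ) τ ∧ F' τ ≤ 0) : F t ≤ F s := by
  have h1 := hF.integral_deriv_eq_sub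
  have h2 : ∫ x in s..t, deriv F x ≤ 0 := by
    rw [← neg_nonneg, ← intervalIntegral.integral_neg]
    apply intervalIntegral.integral_nonneg_of_ae_restrict hst
    rw [← Measure.restrict_congr_set Ioo_ae_eq_Icc]
    refine (ae_restrict_iff' measurableSet_Ioo).2 ?_
    filter_upwards [h] with τ hτ hm
    have := hτ hm
    simp only [Pi.zero_apply, neg_nonneg]
    rw [this.1.deriv]
    exact this.2
  linarith

theorem AC.hasDerivAt {F F' : ℝ → ℝ} {s t : ℝ} (hF : AC F s t) (hc : ContinuousOn F' (Icc s t))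
    (h : ∀ᵐ τ, τ ∈ Ioo s t → HasDerivAt F (F' τ) τ) {τ : ℝ} (hτ : τ ∈ Ioo s t) :
    HasDerivAt F (F' τ) τ := by
  have hst : s ≤ t := (hτ.1.trans hτ.2).le
  have h1 : ∀ y ∈ Ioo s t, F y = F s + ∫ x in s..y, F' x := by
    intro y hy
    have h2 := (hF.mono (c := s) (d := y) (by
      rw [uIcc_of_le hst, uIcc_of_le hy.1.le]; exact Icc_subset_Icc_right hy.2.le)).integral_deriv_eq_sub
    have h3 : ∫ x in s..y, deriv F x = ∫ x in s..y, F' x := by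
      apply intervalIntegral.integral_congr_ae
      have : ∀ᵐ x : ℝ, x ≠ y := by simp [ae_iff, measure_singleton]
      filter_upwards [h, this] with x hx hxy hm
      rw [uIoc_of_le hy.1.le] at hm
      exact (hx ⟨hm.1, (lt_of_le_of_ne hm.2 hxy).trans hy.2⟩).deriv
    linarith
  have h4 : HasDerivAt (fun y => F s + ∫ x in s..y, F' x) (F' τ) τ := by
    refine HasDerivAt.const_add _ (intervalIntegral.integral_hasDerivAt_right ?_ ?_ ?_)
    · exact (hc.mono (by rw [uIcc_of_le hτ.1.le]; exact Icc_subset_Icc_right hτ.2.le)).intervalIntegrable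
    · exact (hc.mono Ioo_subset_Icc_self).stronglyMeasurableAtFilter isOpen_Ioo _ hτ
    · exact hc.continuousAt (Icc_mem_nhds hτ.1 hτ.2)
  exact h4.congr_of_eventuallyEq (by filter_upwards [Ioo_mem_nhds hτ.1 hτ.2] with y hy using h1 y hy)

/-- Derivative along a control `m` with values in the unit interval. -/
def DD (m F Fp Fm : ℝ → ℝ) (s t : ℝ) : Prop :=
  AC F s t ∧ ∀ᵐ τ, τ ∈ Ioo s t → HasDerivAt F (m τ * Fp τ + (1 - m τ) * Fm τ) τ

namespace DD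
variable {m F Fp Fm G Gp Gm : ℝ → ℝ} {s t : ℝ}

theorem mono (h : DD m F Fp Fm s t) {a b : ℝ} (hsa : s ≤ a) (hab : a ≤ b) (hbt : b ≤ t) :
    DD m F Fp Fm a b :=
  ⟨h.1.mono (by
    rw [uIcc_of_le hab, uIcc_of_le (hsa.trans (hab.trans hbt))]; exact Icc_subset_Icc hsa hbt), by
    filter_upwards [h.2] with τ hτ hm using hτ ⟨hsa.trans_lt hm.1, hm.2.trans_le hbt⟩⟩

theorem cont (h : DD m F Fp Fm s t) (hst : s ≤ t) : ContinuousOn F (Icc s t) :=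
  uIcc_of_le hst ▸ h.1.continuousOn

theorem congr (h : DD m F Fp Fm s t) (hp : ∀ τ ∈ Ioo s t, Gp τ = Fp τ)
    (hm : ∀ τ ∈ Ioo s t, Gm τ = Fm τ) : DD m F Gp Gm s t :=
  ⟨h.1, by filter_upwards [h.2] with τ hτ h' using by rw [hp τ h', hm τ h']; exact hτ h'⟩

theorem const (c : ℝ) : DD m (fun _ => c) (fun _ => 0) (fun _ => 0) s t :=
  ⟨contDiffOn_const.absolutelyContinuousOnInterval, Eventually.of_forall fun τ _ => by
    simpa using hasDerivAt_const τ c⟩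

theorem id : DD m (fun τ => τ) (fun _ => 1) (fun _ => 1) s t :=
  ⟨contDiffOn_id.absolutelyContinuousOnInterval, Eventually.of_forall fun τ _ => by
    exact (hasDerivAt_id' τ).congr_deriv (by ring)⟩

theorem add (h : DD m F Fp Fm s t) (g : DD m G Gp Gm s t) :
    DD m (fun τ => F τ + G τ) (fun τ => Fp τ + Gp τ) (fun τ => Fm τ + Gm τ) s t :=
  ⟨h.1.add g.1, by
    filter_upwards [h.2, g.2] with τ h1 h2 hm
    exact ((h1 hm).fun_add (h2 hm)).congr_deriv (by ring)⟩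

theorem sub (h : DD m F Fp Fm s t) (g : DD m G Gp Gm s t) :
    DD m (fun τ => F τ - G τ) (fun τ => Fp τ - Gp τ) (fun τ => Fm τ - Gm τ) s t :=
  ⟨h.1.sub g.1, by
    filter_upwards [h.2, g.2] with τ h1 h2 hm
    exact ((h1 hm).fun_sub (h2 hm)).congr_deriv (by ring)⟩

theorem neg (h : DD m F Fp Fm s t) :
    DD m (fun τ => -F τ) (fun τ => -Fp τ) (fun τ => -Fm τ) s t :=
  ⟨h.1.neg, by
    filter_upwards [h.2] with τ h1 hm
    exact (h1 hm).fun_neg.congr_deriv (by ring)⟩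

theorem mul (h : DD m F Fp Fm s t) (g : DD m G Gp Gm s t) :
    DD m (fun τ => F τ * G τ) (fun τ => Fp τ * G τ + F τ * Gp τ)
      (fun τ => Fm τ * G τ + F τ * Gm τ) s t :=
  ⟨h.1.mul g.1, by
    filter_upwards [h.2, g.2] with τ h1 h2 hm
    exact ((h1 hm).fun_mul (h2 hm)).congr_deriv (by ring)⟩

theorem cmul (c : ℝ) (h : DD m F Fp Fm s t) :
    DD m (fun τ => c * F τ) (fun τ => c * Fp τ) (fun τ => c * Fm τ) s t :=
  ((const c).mul h).congr (fun _ _ => by ring) fun _ _ => by ring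

theorem comp (h : DD m F Fp Fm s t) (hst : s ≤ t) {g g' : ℝ → ℝ} {U : Set ℝ}
    (hg : ContDiffOn ℝ 1 g U) (hg' : ∀ y ∈ U, HasDerivAt g (g' y) y)
    (hmem : ∀ τ ∈ Icc s t, F τ ∈ U) :
    DD m (fun τ => g (F τ)) (fun τ => g' (F τ) * Fp τ) (fun τ => g' (F τ) * Fm τ) s t :=
  ⟨h.1.comp hg (by rwa [uIcc_of_le hst]), by
    filter_upwards [h.2] with τ h1 hm
    exact ((hg' _ (hmem τ (Ioo_subset_Icc_self hm))).comp τ (h1 hm)).congr_deriv (by ring)⟩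

theorem pow (h : DD m F Fp Fm s t) (hst : s ≤ t) (n : ℕ) :
    DD m (fun τ => F τ ^ n) (fun τ => n * F τ ^ (n - 1) * Fp τ)
      (fun τ => n * F τ ^ (n - 1) * Fm τ) s t :=
  h.comp hst (g := fun y => y ^ n) (U := univ) (by fun_prop)
    (fun y _ => hasDerivAt_pow n y) fun _ _ => mem_univ _

theorem div (h : DD m F Fp Fm s t) (g : DD m G Gp Gm s t) (hst : s ≤ t)
    (hpos : ∀ τ ∈ Icc s t, 0 < G τ) :
    DD m (fun τ => F τ / G τ) (fun τ => (Fp τ * G τ - F τ * Gp τ) / G τ ^ 2)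
      (fun τ => (Fm τ * G τ - F τ * Gm τ) / G τ ^ 2) s t := by
  have h1 := g.comp hst (g := fun y => y⁻¹) (U := Ioi 0)
    (contDiffOn_id.inv fun y hy => ne_of_gt hy) (fun y hy => hasDerivAt_inv (ne_of_gt hy)) hpos
  simp only [div_eq_mul_inv]
  refine (h.mul h1).congr (fun τ hτ => ?_) fun τ hτ => ?_ <;>
  · have := (hpos τ (Ioo_subset_Icc_self hτ)).ne'
    field_simp
    ring

theorem sqrt (h : DD m F Fp Fm s t) (hst : s ≤ t) (hpos : ∀ τ ∈ Icc s t, 0 < F τ) :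
    DD m (fun τ => √(F τ)) (fun τ => Fp τ / (2 * √(F τ))) (fun τ => Fm τ / (2 * √(F τ))) s t :=
  (h.comp hst (g := fun y => √y) (U := Ioi 0)
    (contDiffOn_id.sqrt fun y hy => ne_of_gt hy) (fun y hy => Real.hasDerivAt_sqrt (ne_of_gt hy))
    hpos).congr (fun _ _ => by ring) fun _ _ => by ring

theorem log (hs : 0 < s) (hst : s ≤ t) :
    DD m Real.log (fun τ => τ⁻¹) (fun τ => τ⁻¹) s t :=
  ((id (m := m)).comp hst (g := Real.log) (U := Ioi 0)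
    (contDiffOn_id.log fun y hy => ne_of_gt hy) (fun y hy => Real.hasDerivAt_log (ne_of_gt hy))
    fun τ hτ => hs.trans_le hτ.1).congr (fun _ _ => by ring) fun _ _ => by ring

theorem swap (h : DD m F Fp Fm s t) : DD (fun τ => 1 - m τ) F Fm Fp s t :=
  ⟨h.1, by
    filter_upwards [h.2] with τ h1 hm
    exact (h1 hm).congr_deriv (by ring)⟩

theorem integral (hst : s ≤ t) (hc : ContinuousOn F (Icc s t)) :
    DD m (fun τ => ∫ y in s..τ, F y) F F s t := by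
  have hi : IntervalIntegrable F volume s t := (uIcc_of_le hst ▸ hc).intervalIntegrable
  refine ⟨hi.absolutelyContinuousOnInterval_intervalIntegral left_mem_uIcc, ?_⟩
  filter_upwards [hi.ae_hasDerivAt_integral] with τ hτ hm
  exact (hτ (by rw [uIcc_of_le hst]; exact Ioo_subset_Icc_self hm) s left_mem_uIcc).congr_deriv
    (by ring)

end DD

end Pool.Agent.Lib.MP_f4f7c0_an
end

-- part Pool.Agent.Lib.MP_f4f7c0_an.Ext
section

/-! Abstract data along an extremal, arcs and integration of asymptotic bounds. -/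

namespace Pool.Agent.Lib.MP_f4f7c0_an

open Set Filter Topology MeasureTheory Asymptotics

/-- Switching function `φ` and bracket functions `h w` along an extremal. -/
structure Ext where
  δ : ℝ
  m : ℝ → ℝ
  φ : ℝ → ℝ
  x : ℝ → ℝ
  h : List Bool → ℝ → ℝ
  δpos : 0 < δ
  m0 : ∀ t, 0 ≤ m t
  m1 : ∀ t, m t ≤ 1
  dφ : DD m φ (h []) (h []) 0 δ
  dh : ∀ w, DD m (h w) (h (true :: w)) (h (false :: w)) 0 δ
  dx : DD m x (fun _ => 1) (fun _ => 0) 0 δ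
  x0 : x 0 = 0
  pos : ∀ᵐ t, t ∈ Ioo 0 δ → 0 < φ t → m t = 1
  neg : ∀ᵐ t, t ∈ Ioo 0 δ → φ t < 0 → m t = 0
  sym : ∀ w, h (w ++ [true, false]) = h (w ++ [false, true])

/-- The filter of small positive times. -/
abbrev l0 : Filter ℝ := 𝓝[>] 0

namespace Ext
variable (e : Ext)

def z (t : ℝ) : ℝ := t - e.x t
abbrev W : ℝ → ℝ := e.h []
abbrev a : ℝ → ℝ := e.h [true]
abbrev b : ℝ → ℝ := e.h [false]
noncomputable def P (t : ℝ) : ℝ := max (e.φ t) 0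
noncomputable def N (t : ℝ) : ℝ := max (-e.φ t) 0
noncomputable def Pd (t : ℝ) : ℝ := if 0 < e.φ t then e.W t else 0
noncomputable def Nd (t : ℝ) : ℝ := if e.φ t < 0 then -e.W t else 0
def Acc : Prop := ∃ᶠ τ in l0, e.φ τ = 0
def Sing : Prop := ∀ᶠ τ in l0, e.φ τ = 0 ∧ (e.a τ ≠ 0 ∨ e.b τ ≠ 0)

theorem dz : DD e.m e.z (fun _ => 0) (fun _ => 1) 0 e.δ :=
  (DD.id.sub e.dx).congr (fun _ _ => by ring) fun _ _ => by ring

theorem z0 : e.z 0 = 0 := by simp [z, e.x0]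
theorem xz (t : ℝ) : e.x t + e.z t = t := by simp [z]

def swap : Ext where
  δ := e.δ
  m := fun τ => 1 - e.m τ
  φ := fun τ => -e.φ τ
  x := e.z
  h := fun w τ => -e.h (w.map not) τ
  δpos := e.δpos
  m0 := fun t => by linarith [e.m1 t]
  m1 := fun t => by linarith [e.m0 t]
  dφ := e.dφ.neg.swap
  dh := fun w => (e.dh (w.map not)).neg.swap
  dx := e.dz.swap
  x0 := e.z0
  pos := by filter_upwards [e.neg] with t h ht h' using by rw [h ht (by linarith)]; ring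
  neg := by filter_upwards [e.pos] with t h ht h' using by rw [h ht (by linarith)]; ring
  sym := fun w => by
    funext τ
    simp [e.sym]

@[simp] theorem swap_z : e.swap.z = e.x := by funext t; simp [swap, z]
@[simp] theorem swap_x : e.swap.x = e.z := rfl
@[simp] theorem swap_δ : e.swap.δ = e.δ := rfl
@[simp] theorem swap_m (τ : ℝ) : e.swap.m τ = 1 - e.m τ := rfl
@[simp] theorem swap_φ (τ : ℝ) : e.swap.φ τ = -e.φ τ := rfl
@[simp] theorem swap_W (τ : ℝ) : e.swap.W τ = -e.W τ := rfl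
@[simp] theorem swap_a (τ : ℝ) : e.swap.a τ = -e.b τ := rfl
@[simp] theorem swap_b (τ : ℝ) : e.swap.b τ = -e.a τ := rfl
theorem swap_h (w : List Bool) (τ : ℝ) : e.swap.h w τ = -e.h (w.map not) τ := rfl

theorem Acc.swap {e : Ext} (h : e.Acc) : e.swap.Acc := h.mono fun τ hτ => by simpa using hτ

theorem Sing.of_swap {e : Ext} (h : e.swap.Sing) : e.Sing :=
  h.mono fun τ hτ => by simpa [or_comm] using hτ

theorem conth (w : List Bool) : ContinuousOn (e.h w) (Icc 0 e.δ) := (e.dh w).cont e.δpos.le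
theorem contφ : ContinuousOn e.φ (Icc 0 e.δ) := e.dφ.cont e.δpos.le

theorem hasDeriv {τ : ℝ} (hτ : τ ∈ Ioo 0 e.δ) : HasDerivAt e.φ (e.W τ) τ :=
  e.dφ.1.hasDerivAt (e.conth []) (by
    filter_upwards [e.dφ.2] with τ h hm using (h hm).congr_deriv (by ring)) hτ

theorem tri : ∀ᵐ τ, τ ∈ Ioo 0 e.δ → (0 < e.φ τ ∧ e.m τ = 1) ∨ (e.φ τ < 0 ∧ e.m τ = 0) ∨
    (e.φ τ = 0 ∧ e.W τ = 0) := by
  have hc := countable_setOfPred_isolated_right_within (s := {τ | e.φ τ = 0})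
  filter_upwards [e.pos, e.neg, hc.ae_notMem volume] with τ h1 h2 h3 hm
  rcases lt_trichotomy (e.φ τ) 0 with h | h | h
  · exact Or.inr (Or.inl ⟨h, h2 hm h⟩)
  · refine Or.inr (Or.inr ⟨h, ?_⟩)
    by_contra hW
    refine h3 ⟨h, ?_⟩
    have := (e.hasDeriv hm).eventually_ne (c := 0) hW
    rw [← empty_mem_iff_bot]
    filter_upwards [self_mem_nhdsWithin, nhdsWithin_mono τ (fun y (hy : y ∈ {τ | e.φ τ = 0} ∩ Ioi τ) =>
      (ne_of_gt hy.2 : y ∈ ({τ}ᶜ : Set ℝ))) this] with y hy hy' using hy' hy.1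
  · exact Or.inl ⟨h, h1 hm h⟩

variable {e} {F Fp Fm G Gp Gm : ℝ → ℝ} {s t : ℝ}

theorem anti (h : DD e.m F Fp Fm s t) (h0 : 0 ≤ s) (hst : s ≤ t) (ht : t ≤ e.δ)
    (hp : ∀ τ ∈ Ioo s t, 0 ≤ e.φ τ → (e.φ τ = 0 → e.W τ = 0) → Fp τ ≤ 0)
    (hm : ∀ τ ∈ Ioo s t, e.φ τ ≤ 0 → (e.φ τ = 0 → e.W τ = 0) → Fm τ ≤ 0) : F t ≤ F s := by
  refine h.1.le_of_ae hst (F' := fun τ => e.m τ * Fp τ + (1 - e.m τ) * Fm τ) ?_
  filter_upwards [h.2, e.tri] with τ h1 h2 hτ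
  refine ⟨h1 hτ, ?_⟩
  rcases h2 ⟨h0.trans_lt hτ.1, hτ.2.trans_le ht⟩ with ⟨h3, h4⟩ | ⟨h3, h4⟩ | ⟨h3, h4⟩
  · simpa [h4] using hp τ hτ h3.le fun h => absurd h h3.ne'
  · simpa [h4] using hm τ hτ h3.le fun h => absurd h h3.ne
  · have h5 := hp τ hτ h3.ge fun _ => h4
    have h6 := hm τ hτ h3.le fun _ => h4
    nlinarith [e.m0 τ, e.m1 τ]

theorem anti' (h : DD e.m F Fp Fm s t) (h0 : 0 ≤ s) (hst : s ≤ t) (ht : t ≤ e.δ)
    (hp : ∀ τ ∈ Ioo s t, Fp τ ≤ 0) (hm : ∀ τ ∈ Ioo s t, Fm τ ≤ 0) : F t ≤ F s :=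
  anti h h0 hst ht (fun τ hτ _ _ => hp τ hτ) fun τ hτ _ _ => hm τ hτ

theorem mono' (h : DD e.m F Fp Fm s t) (h0 : 0 ≤ s) (hst : s ≤ t) (ht : t ≤ e.δ)
    (hp : ∀ τ ∈ Ioo s t, 0 ≤ Fp τ) (hm : ∀ τ ∈ Ioo s t, 0 ≤ Fm τ) : F s ≤ F t :=
  by
  have := anti' h.neg h0 hst ht (fun τ hτ => neg_nonpos.2 (hp τ hτ))
    fun τ hτ => neg_nonpos.2 (hm τ hτ)
  simpa using this

theorem anti_pos (h : DD e.m F Fp Fm s t) (h0 : 0 ≤ s) (hst : s ≤ t) (ht : t ≤ e.δ)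
    (hφ : ∀ τ ∈ Ioo s t, 0 < e.φ τ) (hp : ∀ τ ∈ Ioo s t, Fp τ ≤ 0) : F t ≤ F s :=
  anti h h0 hst ht (fun τ hτ _ _ => hp τ hτ) fun τ hτ h _ => absurd h (hφ τ hτ).not_ge

theorem anti_neg (h : DD e.m F Fp Fm s t) (h0 : 0 ≤ s) (hst : s ≤ t) (ht : t ≤ e.δ)
    (hφ : ∀ τ ∈ Ioo s t, e.φ τ < 0) (hm : ∀ τ ∈ Ioo s t, Fm τ ≤ 0) : F t ≤ F s :=
  anti h h0 hst ht (fun τ hτ h _ => absurd h (hφ τ hτ).not_ge) fun τ hτ _ _ => hm τ hτ

theorem mono_pos (h : DD e.m F Fp Fm s t) (h0 : 0 ≤ s) (hst : s ≤ t) (ht : t ≤ e.δ)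
    (hφ : ∀ τ ∈ Ioo s t, 0 < e.φ τ) (hp : ∀ τ ∈ Ioo s t, 0 ≤ Fp τ) : F s ≤ F t :=
  by simpa using anti_pos h.neg h0 hst ht hφ fun τ hτ => neg_nonpos.2 (hp τ hτ)

theorem mono_neg (h : DD e.m F Fp Fm s t) (h0 : 0 ≤ s) (hst : s ≤ t) (ht : t ≤ e.δ)
    (hφ : ∀ τ ∈ Ioo s t, e.φ τ < 0) (hm : ∀ τ ∈ Ioo s t, 0 ≤ Fm τ) : F s ≤ F t :=
  by simpa using anti_neg h.neg h0 hst ht hφ fun τ hτ => neg_nonpos.2 (hm τ hτ)

variable (e)

theorem dP : DD e.m e.P e.Pd e.Pd 0 e.δ := by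
  have hl : LipschitzWith 1 fun y : ℝ => max y 0 := LipschitzWith.id.max_const 0
  refine ⟨?_, ?_⟩
  · have h1 := e.dφ.1
    unfold AC AbsolutelyContinuousOnInterval at *
    refine squeeze_zero (fun E => Finset.sum_nonneg fun _ _ => dist_nonneg) (fun E => ?_) h1
    exact Finset.sum_le_sum fun i _ => by simpa [P] using hl.dist_le_mul _ _
  · filter_upwards [e.tri] with τ h hm
    have hd := e.hasDeriv hm
    refine HasDerivAt.congr_deriv (f' := e.Pd τ) ?_ (by ring)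
    rcases h hm with ⟨h3, -⟩ | ⟨h3, -⟩ | ⟨h3, h4⟩
    · rw [Pd, if_pos h3]
      refine hd.congr_of_eventuallyEq ?_
      filter_upwards [hd.continuousAt.eventually (lt_mem_nhds h3)] with y hy using max_eq_left hy.le
    · rw [Pd, if_neg h3.not_gt]
      refine (hasDerivAt_const τ (0 : ℝ)).congr_of_eventuallyEq ?_
      filter_upwards [hd.continuousAt.eventually (gt_mem_nhds h3)] with y hy using max_eq_right hy.le
    · rw [Pd, if_neg h3.not_gt]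
      rw [h4, hasDerivAt_iff_isLittleO] at hd
      rw [hasDerivAt_iff_isLittleO]
      refine IsBigO.trans_isLittleO (IsBigO.of_bound' (Eventually.of_forall fun y => ?_)) hd
      simp only [P, h3, max_self, smul_zero, sub_zero, Real.norm_eq_abs]
      rcases le_total (e.φ y) 0 with h | h
      · simp [max_eq_right h]
      · simp [max_eq_left h]

theorem dN : DD e.m e.N e.Nd e.Nd 0 e.δ := by
  have := e.swap.dP.swap
  simp only [swap_m, sub_sub_cancel] at this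
  refine this.congr (fun τ _ => ?_) fun τ _ => ?_ <;> simp [Nd, Pd]

theorem x_nonneg {t : ℝ} (ht : t ∈ Icc 0 e.δ) : 0 ≤ e.x t :=
  e.x0 ▸ mono' (e.dx.mono le_rfl ht.1 ht.2) le_rfl ht.1 ht.2 (fun _ _ => zero_le_one)
    fun _ _ => le_rfl

theorem z_nonneg {t : ℝ} (ht : t ∈ Icc 0 e.δ) : 0 ≤ e.z t := e.swap.x_nonneg ht

theorem ev_mem : ∀ᶠ τ in l0, τ ∈ Ioo 0 e.δ := Ioo_mem_nhdsGT e.δpos

theorem ev_xz : ∀ᶠ τ in l0, 0 < τ ∧ 0 ≤ e.x τ ∧ 0 ≤ e.z τ ∧ e.x τ ≤ τ ∧ e.z τ ≤ τ := by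
  filter_upwards [e.ev_mem] with τ h
  have h1 := e.x_nonneg (Ioo_subset_Icc_self h)
  have h2 := e.z_nonneg (Ioo_subset_Icc_self h)
  exact ⟨h.1, h1, h2, by linarith [e.xz τ], by linarith [e.xz τ]⟩

theorem tendh (w : List Bool) : Tendsto (e.h w) l0 (𝓝 (e.h w 0)) :=
  ((e.conth w 0 ⟨le_rfl, e.δpos.le⟩).tendsto).mono_left
    (nhdsWithin_le_iff.2 (mem_of_superset e.ev_mem Ioo_subset_Icc_self))

variable {e}

/-- A zero of the switching function below which a given eventual property holds. -/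
theorem Acc.exists_zero (hA : e.Acc) {p : ℝ → Prop} (hp : ∀ᶠ τ in l0, p τ) :
    ∃ t₁, 0 < t₁ ∧ t₁ < e.δ ∧ e.φ t₁ = 0 ∧ ∀ τ ∈ Ioc 0 t₁, p τ := by
  obtain ⟨u, hu, hsub⟩ := mem_nhdsGT_iff_exists_Ioo_subset.1 (hp.and e.ev_mem)
  obtain ⟨t, h1, h2⟩ := (hA.and_eventually (Ioo_mem_nhdsGT hu)).exists
  exact ⟨t, h2.1, (hsub h2).2.2, h1, fun τ hτ => (hsub ⟨hτ.1, hτ.2.trans_lt h2.2⟩).1⟩

theorem Acc.zero_lt (hA : e.Acc) {t : ℝ} (ht : 0 < t) : ∃ s, 0 < s ∧ s < t ∧ e.φ s = 0 := by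
  obtain ⟨s, h1, h2⟩ := (hA.and_eventually (Ioo_mem_nhdsGT ht)).exists
  exact ⟨s, h2.1, h2.2, h1⟩

theorem Acc.φ0 (hA : e.Acc) : e.φ 0 = 0 := by
  have h1 : Tendsto e.φ l0 (𝓝 (e.φ 0)) := ((e.contφ 0 ⟨le_rfl, e.δpos.le⟩).tendsto).mono_left
    (nhdsWithin_le_iff.2 (mem_of_superset e.ev_mem Ioo_subset_Icc_self))
  exact tendsto_nhds_unique_of_frequently_eq h1 tendsto_const_nhds hA

theorem Acc.freqW (hA : e.Acc) : ∃ᶠ τ in l0, e.W τ = 0 := by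
  intro h
  obtain ⟨t, h1, h2, h3, h4⟩ := hA.exists_zero h
  obtain ⟨c, hc, hc'⟩ := exists_hasDerivAt_eq_zero h1
    (e.contφ.mono (Icc_subset_Icc_right h2.le)) (hA.φ0.trans h3.symm)
    fun y hy => e.hasDeriv ⟨hy.1, hy.2.trans h2⟩
  exact h4 c (Ioo_subset_Ioc_self hc) hc'

theorem Acc.W0 (hA : e.Acc) : e.W 0 = 0 :=
  tendsto_nhds_unique_of_frequently_eq (e.tendh []) tendsto_const_nhds hA.freqW

theorem W_nonneg_of_right {a : ℝ} (ha : a ∈ Ioo 0 e.δ) (h0 : e.φ a = 0)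
    (h : ∃ᶠ τ in 𝓝[>] a, 0 ≤ e.φ τ) : 0 ≤ e.W a := by
  by_contra hW
  have h1 := (hasDerivAt_iff_tendsto_slope_left_right.1 (e.hasDeriv ha)).2
  obtain ⟨τ, h2, h3, h4⟩ := (h.and_eventually
    ((h1.eventually (gt_mem_nhds (not_le.1 hW))).and self_mem_nhdsWithin)).exists
  rw [slope_def_field, h0, sub_zero] at h3
  exact absurd h3 (not_lt.2 (div_nonneg h2 (sub_nonneg.2 (le_of_lt h4))))

theorem W_nonpos_of_left {a : ℝ} (ha : a ∈ Ioo 0 e.δ) (h0 : e.φ a = 0)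
    (h : ∃ᶠ τ in 𝓝[<] a, 0 ≤ e.φ τ) : e.W a ≤ 0 := by
  by_contra hW
  have h1 := (hasDerivAt_iff_tendsto_slope_left_right.1 (e.hasDeriv ha)).1
  obtain ⟨τ, h2, h3, h4⟩ := (h.and_eventually
    ((h1.eventually (lt_mem_nhds (not_le.1 hW))).and self_mem_nhdsWithin)).exists
  rw [slope_def_field, h0, sub_zero] at h3
  exact absurd h3 (not_lt.2 (div_nonpos_of_nonneg_of_nonpos h2 (sub_nonpos.2 (le_of_lt h4))))

/-- The arc of positivity around a time between two zeros. -/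
theorem arc_pos {s t τ : ℝ} (hs : 0 < s) (ht : t < e.δ) (hs0 : e.φ s = 0) (ht0 : e.φ t = 0)
    (hτ : τ ∈ Icc s t) (hφ : 0 < e.φ τ) :
    ∃ a b, s ≤ a ∧ a < τ ∧ τ < b ∧ b ≤ t ∧ e.φ a = 0 ∧ e.φ b = 0 ∧ (∀ y ∈ Ioo a b, 0 < e.φ y) ∧
      0 ≤ e.W a ∧ e.W b ≤ 0 := by
  have hc : ContinuousOn e.φ (Icc s t) := e.contφ.mono (Icc_subset_Icc hs.le ht.le)
  have hA : IsCompact (Icc s τ ∩ e.φ ⁻¹' {0}) :=
    isCompact_Icc.of_isClosed_subset ((hc.mono (Icc_subset_Icc_right hτ.2)).preimage_isClosed_of_isClosed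
      isClosed_Icc isClosed_singleton) inter_subset_left
  have hB : IsCompact (Icc τ t ∩ e.φ ⁻¹' {0}) :=
    isCompact_Icc.of_isClosed_subset ((hc.mono (Icc_subset_Icc_left hτ.1)).preimage_isClosed_of_isClosed
      isClosed_Icc isClosed_singleton) inter_subset_left
  obtain ⟨a, ⟨ha, ha0⟩, hamax⟩ := hA.exists_isGreatest ⟨s, ⟨le_rfl, hτ.1⟩, hs0⟩
  obtain ⟨b, ⟨hb, hb0⟩, hbmin⟩ := hB.exists_isLeast ⟨t, ⟨hτ.2, le_rfl⟩, ht0⟩
  have ha0' : e.φ a = 0 := ha0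
  have hb0' : e.φ b = 0 := hb0
  have haτ : a < τ := lt_of_le_of_ne ha.2 fun h => by rw [h] at ha0'; linarith
  have hτb : τ < b := lt_of_le_of_ne hb.1 fun h => by rw [← h] at hb0'; linarith
  have hpos : ∀ y ∈ Ioo a b, 0 < e.φ y := by
    intro y hy
    by_contra hn
    rcases le_total y τ with h | h
    · obtain ⟨c, hc1, hc2⟩ := intermediate_value_Icc h
        (hc.mono (Icc_subset_Icc (ha.1.trans hy.1.le) hτ.2)) ⟨not_lt.1 hn, hφ.le⟩
      have := hamax ⟨⟨ha.1.trans (hy.1.le.trans hc1.1), hc1.2⟩, hc2⟩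
      linarith [hy.1, hc1.1]
    · obtain ⟨c, hc1, hc2⟩ := intermediate_value_Icc' h
        (hc.mono (Icc_subset_Icc hτ.1 (hy.2.le.trans hb.2))) ⟨not_lt.1 hn, hφ.le⟩
      have := hbmin ⟨⟨hc1.1, hc1.2.trans (hy.2.le.trans hb.2)⟩, hc2⟩
      linarith [hy.2, hc1.2]
  have hab := haτ.trans hτb
  refine ⟨a, b, ha.1, haτ, hτb, hb.2, ha0, hb0, hpos, ?_, ?_⟩
  · exact W_nonneg_of_right ⟨hs.trans_le ha.1, hab.trans (hb.2.trans_lt ht)⟩ ha0
      (Eventually.frequently (mem_of_superset (Ioo_mem_nhdsGT hab) fun y hy => (hpos y hy).le))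
  · exact W_nonpos_of_left ⟨(hs.trans_le ha.1).trans hab, hb.2.trans_lt ht⟩ hb0
      (Eventually.frequently (mem_of_superset (Ioo_mem_nhdsLT hab) fun y hy => (hpos y hy).le))

theorem arc_neg {s t τ : ℝ} (hs : 0 < s) (ht : t < e.δ) (hs0 : e.φ s = 0) (ht0 : e.φ t = 0)
    (hτ : τ ∈ Icc s t) (hφ : e.φ τ < 0) :
    ∃ a b, s ≤ a ∧ a < τ ∧ τ < b ∧ b ≤ t ∧ e.φ a = 0 ∧ e.φ b = 0 ∧ (∀ y ∈ Ioo a b, e.φ y < 0) ∧
      e.W a ≤ 0 ∧ 0 ≤ e.W b := by
  simpa using arc_pos (e := e.swap) hs ht (by simpa using hs0)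
    (by simpa using ht0) hτ (by simpa using hφ)

/-- The arc starting at a zero with positive derivative. -/
theorem next_pos {s t : ℝ} (hs : 0 < s) (hst : s < t) (ht : t < e.δ) (hs0 : e.φ s = 0)
    (ht0 : e.φ t = 0) (hW : 0 < e.W s) :
    ∃ b, s < b ∧ b ≤ t ∧ e.φ b = 0 ∧ (∀ y ∈ Ioo s b, 0 < e.φ y) ∧ e.W b ≤ 0 := by
  have h1 := (hasDerivAt_iff_tendsto_slope_left_right.1 (e.hasDeriv ⟨hs, hst.trans ht⟩)).2
  obtain ⟨u, hu, hsub⟩ := mem_nhdsGT_iff_exists_Ioo_subset.1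
    ((h1.eventually (lt_mem_nhds hW)).and (Ioo_mem_nhdsGT hst))
  have hpos : ∀ y ∈ Ioo s u, 0 < e.φ y := fun y hy => by
    have := (hsub hy).1
    rw [slope_def_field, hs0, sub_zero] at this
    exact (div_pos_iff_of_pos_right (sub_pos.2 hy.1)).1 this
  obtain ⟨τ, hτ1, hτ2⟩ := exists_between (show s < u from hu)
  obtain ⟨a, b, h1, h2, h3, h4, h5, h6, h7, -, h9⟩ :=
    arc_pos hs ht hs0 ht0 (Ioo_subset_Icc_self (hsub ⟨hτ1, hτ2⟩).2) (hpos τ ⟨hτ1, hτ2⟩)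
  have : a = s := by
    by_contra hne
    exact (hpos a ⟨lt_of_le_of_ne h1 (Ne.symm hne), h2.trans hτ2⟩).ne' h5
  subst this
  exact ⟨b, h2.trans h3, h4, h6, h7, h9⟩

theorem next_neg {s t : ℝ} (hs : 0 < s) (hst : s < t) (ht : t < e.δ) (hs0 : e.φ s = 0)
    (ht0 : e.φ t = 0) (hW : e.W s < 0) :
    ∃ b, s < b ∧ b ≤ t ∧ e.φ b = 0 ∧ (∀ y ∈ Ioo s b, e.φ y < 0) ∧ 0 ≤ e.W b := by
  simpa using next_pos (e := e.swap) hs hst ht (by simpa using hs0)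
    (by simpa using ht0) (by simpa using hW)

/-- A closed inequality valid where `φ < 0` holds at a zero with positive derivative. -/
theorem le_of_left {s : ℝ} (hs : s ∈ Ioo 0 e.δ) (hs0 : e.φ s = 0) (hW : 0 < e.W s)
    (hF : ContinuousWithinAt F (Iio s) s) (h : ∀ᶠ y in 𝓝[<] s, e.φ y < 0 → F y ≤ 0) : F s ≤ 0 := by
  refine le_of_tendsto hF.tendsto ?_
  have h1 := (hasDerivAt_iff_tendsto_slope_left_right.1 (e.hasDeriv hs)).1
  filter_upwards [h, h1.eventually (lt_mem_nhds hW), self_mem_nhdsWithin] with y h2 h3 h4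
  rw [slope_def_field, hs0, sub_zero] at h3
  refine h2 ?_
  by_contra hn
  exact absurd h3 (not_lt.2 (div_nonpos_of_nonneg_of_nonpos (not_lt.1 hn) (sub_nonpos.2 (le_of_lt h4))))

theorem abs_le_of (hF : DD e.m F Fp Fm 0 e.δ) (hG : DD e.m G Gp Gm 0 e.δ) (F0 : F 0 = 0)
    (G0 : G 0 = 0) {c : ℝ} (hp : ∀ᶠ τ in l0, |Fp τ| ≤ c * Gp τ) (hm : ∀ᶠ τ in l0, |Fm τ| ≤ c * Gm τ) :
    ∀ᶠ τ in l0, |F τ| ≤ c * G τ := by
  obtain ⟨u, hu, hsub⟩ := mem_nhdsGT_iff_exists_Ioo_subset.1 (hp.and (hm.and e.ev_mem))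
  filter_upwards [Ioo_mem_nhdsGT hu] with τ hτ
  have hδ := (hsub hτ).2.2.2.le
  have h1 := anti' ((hF.sub (hG.cmul c)).mono le_rfl hτ.1.le hδ) le_rfl hτ.1.le hδ
    (fun y hy => by linarith [(abs_le.1 (hsub ⟨hy.1, hy.2.trans hτ.2⟩).1).2])
    fun y hy => by linarith [(abs_le.1 (hsub ⟨hy.1, hy.2.trans hτ.2⟩).2.1).2]
  have h2 := mono' ((hF.add (hG.cmul c)).mono le_rfl hτ.1.le hδ) le_rfl hτ.1.le hδ
    (fun y hy => by linarith [(abs_le.1 (hsub ⟨hy.1, hy.2.trans hτ.2⟩).1).1])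
    fun y hy => by linarith [(abs_le.1 (hsub ⟨hy.1, hy.2.trans hτ.2⟩).2.1).1]
  simp only [F0, G0] at h1 h2
  exact abs_le.2 ⟨by linarith, by linarith⟩

theorem bigO_int (hF : DD e.m F Fp Fm 0 e.δ) (hG : DD e.m G Gp Gm 0 e.δ) (F0 : F 0 = 0)
    (G0 : G 0 = 0) (gp : ∀ᶠ τ in l0, 0 ≤ Gp τ) (gm : ∀ᶠ τ in l0, 0 ≤ Gm τ)
    (hp : Fp =O[l0] Gp) (hm : Fm =O[l0] Gm) : F =O[l0] G := by
  obtain ⟨c, hc0, hc⟩ := hp.exists_pos
  obtain ⟨d, hd0, hd⟩ := hm.exists_pos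
  have := abs_le_of hF hG F0 G0 (c := c + d)
    (by filter_upwards [hc.bound, gp] with τ h1 h2
        rw [Real.norm_eq_abs, Real.norm_of_nonneg h2] at h1
        nlinarith)
    (by filter_upwards [hd.bound, gm] with τ h1 h2
        rw [Real.norm_eq_abs, Real.norm_of_nonneg h2] at h1
        nlinarith)
  refine IsBigO.of_bound (c + d) (this.mono fun τ h => h.trans ?_)
  exact mul_le_mul_of_nonneg_left (le_abs_self _) (by positivity)

theorem dpow (k : ℕ) : DD e.m (fun τ => τ ^ (k + 1)) (fun τ => (k + 1) * τ ^ k)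
    (fun τ => (k + 1) * τ ^ k) 0 e.δ :=
  (DD.id.pow e.δpos.le (k + 1)).congr (fun _ _ => by simp) fun _ _ => by simp

theorem ev_pos : ∀ᶠ τ in l0, 0 < τ := self_mem_nhdsWithin

theorem bigO_pow (hF : DD e.m F Fp Fm 0 e.δ) (F0 : F 0 = 0) {k : ℕ}
    (hp : Fp =O[l0] fun τ => τ ^ k) (hm : Fm =O[l0] fun τ => τ ^ k) :
    F =O[l0] fun τ => τ ^ (k + 1) :=
  bigO_int hF (dpow k) F0 (by simp) (ev_pos.mono fun τ h => by positivity)
    (ev_pos.mono fun τ h => by positivity) (hp.const_mul_right (by positivity))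
    (hm.const_mul_right (by positivity))

theorem littleO_pow (hF : DD e.m F Fp Fm 0 e.δ) (F0 : F 0 = 0) {k : ℕ}
    (hp : Fp =o[l0] fun τ => τ ^ k) (hm : Fm =o[l0] fun τ => τ ^ k) :
    F =o[l0] fun τ => τ ^ (k + 1) := by
  rw [isLittleO_iff]
  intro c hc
  have key : ∀ H : ℝ → ℝ, (H =o[l0] fun τ => τ ^ k) →
      ∀ᶠ τ in l0, |H τ| ≤ c * ((k + 1) * τ ^ k) := fun H hH => by
    filter_upwards [isLittleO_iff.1 hH hc, ev_pos] with τ h1 h2
    rw [Real.norm_eq_abs, Real.norm_of_nonneg (by positivity)] at h1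
    have : 0 ≤ c * (k * τ ^ k) := by positivity
    linarith
  filter_upwards [abs_le_of hF (dpow k) F0 (by simp) (key _ hp) (key _ hm), ev_pos] with τ h1 h2
  rwa [Real.norm_eq_abs, Real.norm_of_nonneg (by positivity)]

end Ext

end Pool.Agent.Lib.MP_f4f7c0_an
end

-- part Pool.Agent.Lib.MP_f4f7c0_an.Tools
section

/-! Lyapunov type tools: absence of arcs, escape, energy with a weight. -/

namespace Pool.Agent.Lib.MP_f4f7c0_an

open Set Filter Topology MeasureTheory Asymptotics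

namespace Ext
variable {e : Ext} {F Fp Fm G Gp Gm : ℝ → ℝ}

/-- An affine function of the times spent with each control. -/
def M (e : Ext) (l μ ν t : ℝ) : ℝ := l + μ * e.x t + ν * e.z t

theorem dM (e : Ext) (l μ ν : ℝ) : DD e.m (e.M l μ ν) (fun _ => μ) (fun _ => ν) 0 e.δ :=
  (((DD.const l).add (e.dx.cmul μ)).add (e.dz.cmul ν)).congr (fun _ _ => by ring)
    fun _ _ => by ring

theorem swap_M (e : Ext) (l μ ν t : ℝ) : e.swap.M l μ ν t = e.M l ν μ t := by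
  simp only [M, swap_x, swap_z]; ring

theorem Acc.ev_of_zero (hA : e.Acc) {p q : ℝ → Prop} (hp : ∀ᶠ τ in l0, p τ)
    (h : ∀ t₁, 0 < t₁ → t₁ < e.δ → e.φ t₁ = 0 → (∀ τ ∈ Ioc 0 t₁, p τ) → ∀ τ ∈ Ioo 0 t₁, q τ) :
    ∀ᶠ τ in l0, q τ := by
  obtain ⟨t, h1, h2, h3, h4⟩ := hA.exists_zero hp
  exact mem_of_superset (Ioo_mem_nhdsGT h1) (h t h1 h2 h3 h4)

theorem Acc.arc_pos (hA : e.Acc) {t τ : ℝ} (ht : t < e.δ) (ht0 : e.φ t = 0) (hτ : τ ∈ Ioc 0 t)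
    (hφ : 0 < e.φ τ) : ∃ a b, 0 < a ∧ a < τ ∧ τ < b ∧ b ≤ t ∧ e.φ a = 0 ∧ e.φ b = 0 ∧
      (∀ y ∈ Ioo a b, 0 < e.φ y) ∧ 0 ≤ e.W a ∧ e.W b ≤ 0 := by
  obtain ⟨s, h1, h2, h3⟩ := hA.zero_lt hτ.1
  obtain ⟨a, b, h4, h5⟩ := Ext.arc_pos h1 ht h3 ht0 ⟨h2.le, hτ.2⟩ hφ
  exact ⟨a, b, h1.trans_le h4, h5⟩

theorem Acc.arc_neg (hA : e.Acc) {t τ : ℝ} (ht : t < e.δ) (ht0 : e.φ t = 0) (hτ : τ ∈ Ioc 0 t)
    (hφ : e.φ τ < 0) : ∃ a b, 0 < a ∧ a < τ ∧ τ < b ∧ b ≤ t ∧ e.φ a = 0 ∧ e.φ b = 0 ∧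
      (∀ y ∈ Ioo a b, e.φ y < 0) ∧ e.W a ≤ 0 ∧ 0 ≤ e.W b := by
  obtain ⟨s, h1, h2, h3⟩ := hA.zero_lt hτ.1
  obtain ⟨a, b, h4, h5⟩ := Ext.arc_neg h1 ht h3 ht0 ⟨h2.le, hτ.2⟩ hφ
  exact ⟨a, b, h1.trans_le h4, h5⟩

/-- No arc of positivity when `W / M` increases along such arcs. -/
theorem Acc.ev_nonpos (hA : e.Acc) (l μ ν : ℝ) (h : ∀ᶠ τ in l0, 0 < e.M l μ ν τ ∧
    (0 < e.φ τ → 0 ≤ e.a τ * e.M l μ ν τ - e.W τ * μ)) : ∀ᶠ τ in l0, e.φ τ ≤ 0 := by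
  refine hA.ev_of_zero h fun t h1 h2 h3 h4 τ hτ => not_lt.1 fun hφ => ?_
  obtain ⟨a, b, ha, haτ, hτb, hb, ha0, hb0, hpos, hWa, hWb⟩ :=
    hA.arc_pos h2 h3 (Ioo_subset_Ioc_self hτ) hφ
  have hM : ∀ y ∈ Icc a b, 0 < e.M l μ ν y := fun y hy => (h4 y ⟨ha.trans_le hy.1, hy.2.trans hb⟩).1
  have key : ∀ y ∈ Ioo τ b, 0 ≤ e.W y := fun y hy => by
    have hay := (haτ.trans hy.1).le
    have hyδ := (hy.2.trans_le (hb.trans h2.le)).le
    have := mono_pos (((e.dh []).mono ha.le hay hyδ).div ((e.dM l μ ν).mono ha.le hay hyδ) hay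
      fun w hw => hM w ⟨hw.1, hw.2.trans hy.2.le⟩) ha.le hay hyδ
      (fun w hw => hpos w ⟨hw.1, hw.2.trans hy.2⟩) fun w hw =>
        div_nonneg ((h4 w ⟨ha.trans hw.1, (hw.2.trans hy.2).le.trans hb⟩).2
          (hpos w ⟨hw.1, hw.2.trans hy.2⟩)) (sq_nonneg _)
    have h5 := (div_nonneg hWa (hM a ⟨le_rfl, (haτ.trans hτb).le⟩).le).trans this
    exact (div_nonneg_iff.1 h5).elim (·.1) fun h => absurd h.2 (hM y ⟨hay, hy.2.le⟩).not_ge
  have := mono' (e.dφ.mono hτ.1.le hτb.le (hb.trans h2.le)) hτ.1.le hτb.le (hb.trans h2.le) key key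
  linarith

theorem Acc.ev_nonneg (hA : e.Acc) (l μ ν : ℝ) (h : ∀ᶠ τ in l0, 0 < e.M l μ ν τ ∧
    (e.φ τ < 0 → e.b τ * e.M l μ ν τ - e.W τ * ν ≤ 0)) : ∀ᶠ τ in l0, 0 ≤ e.φ τ := by
  simpa using hA.swap.ev_nonpos l ν μ (h.mono fun τ hτ => by
    simp only [swap_M, swap_φ, swap_a, swap_W]
    exact ⟨hτ.1, fun h => by linarith [hτ.2 (by linarith)]⟩)

theorem W_eq_zero {t τ : ℝ} (ht : t < e.δ) (hτ : τ ∈ Ioo 0 t) (h0 : e.φ τ = 0)
    (h : ∀ y ∈ Ioo 0 t, 0 ≤ e.φ y) : e.W τ = 0 :=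
  IsLocalMin.hasDerivAt_eq_zero (by
    filter_upwards [Ioo_mem_nhds hτ.1 hτ.2] with y hy using h0 ▸ h y hy)
    (e.hasDeriv ⟨hτ.1, hτ.2.trans ht⟩)

theorem deriv_pos (w : List Bool) {a b : ℝ} (ha : 0 ≤ a) (hb : b ≤ e.δ)
    (hpos : ∀ y ∈ Ioo a b, 0 < e.φ y) {τ : ℝ} (hτ : τ ∈ Ioo a b) :
    HasDerivAt (e.h w) (e.h (true :: w) τ) τ := by
  have hab := (hτ.1.trans hτ.2).le
  have := (e.dh w).mono ha hab hb
  refine this.1.hasDerivAt ((e.conth _).mono (Icc_subset_Icc ha hb)) ?_ hτ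
  filter_upwards [this.2, e.pos] with y h1 h2 hy
  simpa [h2 ⟨ha.trans_lt hy.1, hy.2.trans_le hb⟩ (hpos y hy)] using h1 hy

/-- On an arc with double zeros at both ends the third derivative vanishes somewhere, and the
second derivative is nonnegative at some point. -/
theorem rolle {a b : ℝ} (ha : 0 < a) (hab : a < b) (hb : b < e.δ) (ha0 : e.φ a = 0)
    (hb0 : e.φ b = 0) (hpos : ∀ y ∈ Ioo a b, 0 < e.φ y) (hWa : e.W a = 0) (hWb : e.W b = 0) :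
    ∃ c ∈ Ioo a b, ∃ d ∈ Ioo c b, e.a c = 0 ∧ e.h [true, true] d = 0 := by
  have hc : ∀ w, ContinuousOn (e.h w) (Icc a b) := fun w =>
    (e.conth w).mono (Icc_subset_Icc ha.le hb.le)
  obtain ⟨c, hc1, hc2⟩ := exists_hasDerivAt_eq_zero hab (e.contφ.mono (Icc_subset_Icc ha.le hb.le))
    (ha0.trans hb0.symm) fun y hy => e.hasDeriv ⟨ha.trans hy.1, hy.2.trans hb⟩
  obtain ⟨c1, h1, h2⟩ := exists_hasDerivAt_eq_zero hc1.1 ((hc []).mono (Icc_subset_Icc_right hc1.2.le))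
    (hWa.trans hc2.symm) fun y hy => deriv_pos [] ha.le hb.le hpos ⟨hy.1, hy.2.trans hc1.2⟩
  obtain ⟨c2, h3, h4⟩ := exists_hasDerivAt_eq_zero hc1.2 ((hc []).mono (Icc_subset_Icc_left hc1.1.le))
    (hc2.trans hWb.symm) fun y hy => deriv_pos [] ha.le hb.le hpos ⟨hc1.1.trans hy.1, hy.2⟩
  obtain ⟨d, h5, h6⟩ := exists_hasDerivAt_eq_zero (h1.2.trans h3.1)
    ((hc [true]).mono (Icc_subset_Icc h1.1.le h3.2.le)) (h2.trans h4.symm)
    fun y hy => deriv_pos [true] ha.le hb.le hpos ⟨h1.1.trans hy.1, hy.2.trans h3.2⟩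
  exact ⟨c1, ⟨h1.1, h1.2.trans hc1.2⟩, d, ⟨h5.1, h5.2.trans h3.2⟩, h2, h6⟩

/-- Escape lemma. -/
theorem Acc.escape (hA : e.Acc) (hF : DD e.m F Fp Fm 0 e.δ)
    (h : ∀ᶠ τ in l0, 0 ≤ Fp τ ∧ Fm τ ≤ 0 ∧ (0 ≤ F τ → 0 < e.W τ)) : ∀ᶠ τ in l0, F τ < 0 := by
  refine hA.ev_of_zero h fun t h1 h2 h3 h4 τ hτ => not_le.1 fun hB => ?_
  have key : ∀ b, τ < b → b ≤ t → (∀ y ∈ Ioo τ b, 0 < e.φ y) → e.W b ≤ 0 → False := by
    intro b hτb hb hpos hW
    have := mono_pos (hF.mono hτ.1.le hτb.le (hb.trans h2.le)) hτ.1.le hτb.le (hb.trans h2.le) hpos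
      fun y hy => (h4 y ⟨hτ.1.trans hy.1, hy.2.le.trans hb⟩).1
    linarith [(h4 b ⟨hτ.1.trans hτb, hb⟩).2.2 (hB.trans this)]
  rcases lt_trichotomy (e.φ τ) 0 with hφ | hφ | hφ
  · obtain ⟨a, b, ha, haτ, hτb, hb, -, -, hneg, hWa, -⟩ :=
      hA.arc_neg h2 h3 (Ioo_subset_Ioc_self hτ) hφ
    have hδ := (hτ.2.trans h2).le
    have := anti_neg (hF.mono ha.le haτ.le hδ) ha.le haτ.le hδ
      (fun y hy => hneg y ⟨hy.1, hy.2.trans hτb⟩)
      fun y hy => (h4 y ⟨ha.trans hy.1, (hy.2.trans hτ.2).le⟩).2.1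
    linarith [(h4 a ⟨ha, (haτ.trans hτ.2).le⟩).2.2 (hB.trans this)]
  · obtain ⟨b, h5, h6, -, h7, h8⟩ := next_pos hτ.1 hτ.2 h2 hφ h3
      ((h4 τ (Ioo_subset_Ioc_self hτ)).2.2 hB)
    exact key b h5 h6 h7 h8
  · obtain ⟨a, b, ha, haτ, hτb, hb, -, -, hpos, -, hWb⟩ :=
      hA.arc_pos h2 h3 (Ioo_subset_Ioc_self hτ) hφ
    exact key b hτb hb (fun y hy => hpos y ⟨haτ.trans hy.1, hy.2⟩) hWb

theorem P_nonneg (τ : ℝ) : 0 ≤ e.P τ := le_max_right _ _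
theorem N_nonneg (τ : ℝ) : 0 ≤ e.N τ := le_max_right _ _

theorem PN_pos {τ : ℝ} (h : 0 ≤ e.φ τ) (h' : e.φ τ = 0 → e.W τ = 0) :
    e.P τ = e.φ τ ∧ e.N τ = 0 ∧ e.Pd τ = e.W τ ∧ e.Nd τ = 0 := by
  refine ⟨max_eq_left h, max_eq_right (by linarith), ?_, if_neg h.not_gt⟩
  rcases h.eq_or_lt with h | h
  · simp [Pd, ← h, h' h.symm]
  · exact if_pos h

theorem PN_neg {τ : ℝ} (h : e.φ τ ≤ 0) (h' : e.φ τ = 0 → e.W τ = 0) :
    e.P τ = 0 ∧ e.N τ = -e.φ τ ∧ e.Pd τ = 0 ∧ e.Nd τ = -e.W τ := by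
  refine ⟨max_eq_right h, max_eq_left (by linarith), if_neg h.not_gt, ?_⟩
  rcases h.eq_or_lt with h | h
  · simp [Nd, h, h' h]
  · exact if_pos h

/-- The conditions under which the weighted energy decreases. -/
structure EC (e : Ext) (l μ ν : ℝ) (ρ ρp ρm : ℝ → ℝ) (τ : ℝ) : Prop where
  M : 0 < e.M l μ ν τ
  ρ0 : 0 < ρ τ
  ρp0 : 0 ≤ ρp τ
  ρm0 : 0 ≤ ρm τ
  kp : 0 < e.φ τ → e.a τ * e.M l μ ν τ - μ * e.W τ < 0
  km : e.φ τ < 0 → 0 < e.b τ * e.M l μ ν τ - ν * e.W τ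
  cp : 0 < e.φ τ → ρ τ * (-e.h [true, true] τ * e.M l μ ν τ ^ 2 + 3 * μ * e.a τ * e.M l μ ν τ
    - 3 * μ ^ 2 * e.W τ) ≤ -ρp τ * e.M l μ ν τ * (e.a τ * e.M l μ ν τ - μ * e.W τ)
  cm : e.φ τ < 0 → ρ τ * (e.h [false, false] τ * e.M l μ ν τ ^ 2 - 3 * ν * e.b τ * e.M l μ ν τ
    + 3 * ν ^ 2 * e.W τ) ≤ ρm τ * e.M l μ ν τ * (e.b τ * e.M l μ ν τ - ν * e.W τ)

/-- The energy. -/
noncomputable def En (e : Ext) (l μ ν τ : ℝ) : ℝ :=
  e.W τ ^ 2 / e.M l μ ν τ ^ 2 - 2 * ((e.a τ * e.M l μ ν τ - μ * e.W τ) / e.M l μ ν τ ^ 3) * e.P τ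
    + 2 * ((e.b τ * e.M l μ ν τ - ν * e.W τ) / e.M l μ ν τ ^ 3) * e.N τ

theorem energy {l μ ν : ℝ} {ρ ρp ρm : ℝ → ℝ} (hρ : DD e.m ρ ρp ρm 0 e.δ) {s t : ℝ} (hs : 0 ≤ s)
    (hst : s ≤ t) (ht : t ≤ e.δ) (h : ∀ τ ∈ Icc s t, e.EC l μ ν ρ ρp ρm τ) :
    e.En l μ ν t / ρ t ≤ e.En l μ ν s / ρ s := by
  have dW := (e.dh []).mono hs hst ht
  have dM := (e.dM l μ ν).mono hs hst ht
  have hM : ∀ n : ℕ, ∀ τ ∈ Icc s t, 0 < e.M l μ ν τ ^ n := fun n τ hτ => pow_pos (h τ hτ).M n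
  have d1 := (dW.pow hst 2).div (dM.pow hst 2) hst (hM 2)
  have d2 := ((((((e.dh [true]).mono hs hst ht).mul dM).sub (dW.cmul μ)).div (dM.pow hst 3) hst
    (hM 3)).cmul 2).mul (e.dP.mono hs hst ht)
  have d3 := ((((((e.dh [false]).mono hs hst ht).mul dM).sub (dW.cmul ν)).div (dM.pow hst 3) hst
    (hM 3)).cmul 2).mul (e.dN.mono hs hst ht)
  refine anti (((d1.sub d2).add d3).div (hρ.mono hs hst ht) hst fun τ hτ => (h τ hτ).ρ0) hs hst ht
    (fun τ hτ h1 h2 => ?_) fun τ hτ h1 h2 => ?_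
  · obtain ⟨e1, e2, e3, e4⟩ := PN_pos h1 h2
    have H := h τ (Ioo_subset_Icc_self hτ)
    have hM := H.M
    refine div_nonpos_of_nonpos_of_nonneg ?_ (sq_nonneg _)
    simp only [e1, e2, e3, e4]
    have h3 : e.φ τ * (ρ τ * (-e.h [true, true] τ * e.M l μ ν τ ^ 2 + 3 * μ * e.a τ * e.M l μ ν τ
        - 3 * μ ^ 2 * e.W τ) + ρp τ * e.M l μ ν τ * (e.a τ * e.M l μ ν τ - μ * e.W τ)) ≤ 0 := by
      rcases h1.eq_or_lt with h1 | h1
      · simp [← h1]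
      · exact mul_nonpos_of_nonneg_of_nonpos h1.le (by linarith [H.cp h1])
    have h4 := mul_nonneg H.ρp0 (sq_nonneg (e.W τ / e.M l μ ν τ))
    have h5 := div_nonpos_of_nonpos_of_nonneg h3 (pow_pos hM 4).le
    refine le_of_eq_of_le ?_ (sub_nonpos.2 ((mul_nonpos_of_nonneg_of_nonpos two_pos.le h5).trans h4))
    field_simp
    push_cast
    ring
  · obtain ⟨e1, e2, e3, e4⟩ := PN_neg h1 h2
    have H := h τ (Ioo_subset_Icc_self hτ)
    have hM := H.M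
    refine div_nonpos_of_nonpos_of_nonneg ?_ (sq_nonneg _)
    simp only [e1, e2, e3, e4]
    have h3 : -e.φ τ * (ρ τ * (e.h [false, false] τ * e.M l μ ν τ ^ 2 - 3 * ν * e.b τ * e.M l μ ν τ
        + 3 * ν ^ 2 * e.W τ) - ρm τ * e.M l μ ν τ * (e.b τ * e.M l μ ν τ - ν * e.W τ)) ≤ 0 := by
      rcases h1.eq_or_lt with h1 | h1
      · simp [h1]
      · exact mul_nonpos_of_nonneg_of_nonpos (by linarith) (by linarith [H.cm h1])
    have h4 := mul_nonneg H.ρm0 (sq_nonneg (e.W τ / e.M l μ ν τ))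
    have h5 := div_nonpos_of_nonpos_of_nonneg h3 (pow_pos hM 4).le
    refine le_of_eq_of_le ?_ (sub_nonpos.2 ((mul_nonpos_of_nonneg_of_nonpos two_pos.le h5).trans h4))
    field_simp
    push_cast
    ring

theorem EC.le_En {l μ ν : ℝ} {ρ ρp ρm : ℝ → ℝ} {τ : ℝ} (H : e.EC l μ ν ρ ρp ρm τ) :
    e.W τ ^ 2 / e.M l μ ν τ ^ 2 ≤ e.En l μ ν τ ∧ (e.En l μ ν τ ≤ 0 → e.φ τ = 0) := by
  have hM := pow_pos H.M 3
  have h0 : 0 ≤ e.W τ ^ 2 / e.M l μ ν τ ^ 2 := by positivity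
  rcases lt_trichotomy (e.φ τ) 0 with h | h | h
  · obtain ⟨e1, e2, -⟩ := PN_neg h.le fun h' => absurd h' h.ne
    have := mul_pos (div_pos (H.km h) hM) (neg_pos.2 h)
    simp only [En, e1, e2]
    exact ⟨by linarith, fun h' => by linarith⟩
  · simp [En, P, N, h]
  · obtain ⟨e1, e2, -⟩ := PN_pos h.le fun h' => absurd h' h.ne'
    have := mul_neg_of_neg_of_pos (div_neg_of_neg_of_pos (H.kp h) hM) h
    simp only [En, e1, e2]
    exact ⟨by linarith, fun h' => by linarith⟩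

theorem ev_Ioc {p : ℝ → Prop} (h : ∀ᶠ τ in l0, p τ) : ∀ᶠ t in l0, ∀ τ ∈ Ioc 0 t, p τ := by
  obtain ⟨u, hu, hsub⟩ := mem_nhdsGT_iff_exists_Ioo_subset.1 h
  filter_upwards [Ioo_mem_nhdsGT hu] with t ht τ hτ using hsub ⟨hτ.1, hτ.2.trans_lt ht.2⟩

/-- The energy method inside a region `r ≤ 0` that is preserved by a bootstrap. -/
theorem energy_boot {l μ ν : ℝ} {ρ ρp ρm r : ℝ → ℝ} (hρ : DD e.m ρ ρp ρm 0 e.δ)
    (hr : ContinuousOn r (Icc 0 e.δ)) {S : ℝ → Prop} (hS : ∃ᶠ s in l0, S s)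
    (h1 : ∀ᶠ τ in l0, r τ ≤ 0 → e.EC l μ ν ρ ρp ρm τ)
    (h2 : ∀ᶠ s in l0, S s → e.φ s = 0 ∧ r s ≤ 0)
    (h3 : ∀ᶠ τ in l0, ∀ s ∈ Ioc 0 τ, S s → r τ ≤ 0 → e.W τ ^ 2 / e.M l μ ν τ ^ 2 / ρ τ ≤
      e.W s ^ 2 / e.M l μ ν s ^ 2 / ρ s → r τ < 0)
    (h4 : ∀ η > 0, ∀ᶠ s in l0, S s → e.W s ^ 2 / e.M l μ ν s ^ 2 / ρ s ≤ η) :
    ∀ᶠ τ in l0, e.φ τ = 0 := by
  filter_upwards [ev_Ioc (h1.and (h2.and (h3.and e.ev_mem))), ev_pos] with t ht ht0
  have hδ := (ht t ⟨ht0, le_rfl⟩).2.2.2.2.le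
  have key : ∀ s ∈ Ioc 0 t, S s → r t ≤ 0 ∧
      e.En l μ ν t / ρ t ≤ e.W s ^ 2 / e.M l μ ν s ^ 2 / ρ s := by
    intro s hs hSs
    obtain ⟨hφ, hrs⟩ := (ht s hs).2.1 hSs
    have hE : e.En l μ ν s = e.W s ^ 2 / e.M l μ ν s ^ 2 := by simp [En, P, N, hφ]
    have hen : ∀ y ∈ Icc s t, Icc s y ⊆ {τ | r τ ≤ 0} →
        e.En l μ ν y / ρ y ≤ e.W s ^ 2 / e.M l μ ν s ^ 2 / ρ s := fun y hy hsub =>
      hE ▸ energy hρ hs.1.le hy.1 (hy.2.trans hδ) fun τ hτ =>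
        (ht τ ⟨hs.1.trans_le hτ.1, hτ.2.trans hy.2⟩).1 (hsub hτ)
    have hc := hr.mono (Icc_subset_Icc hs.1.le hδ)
    have hsub : Icc s t ⊆ {τ | r τ ≤ 0} := by
      refine IsClosed.Icc_subset_of_forall_mem_nhdsGT_of_Icc_subset ?_ hrs fun y hy hsub => ?_
      · rw [inter_comm]
        exact hc.preimage_isClosed_of_isClosed isClosed_Icc isClosed_Iic
      · have hy0 : y ∈ Ioc 0 t := ⟨hs.1.trans_le hy.1, hy.2.le⟩
        have hry := hsub ⟨hy.1, le_rfl⟩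
        have H := (ht y hy0).1 hry
        have hlt := (ht y hy0).2.2.1 s ⟨hs.1, hy.1⟩ hSs hry
          ((div_le_div_of_nonneg_right H.le_En.1 H.ρ0.le).trans (hen y (Ico_subset_Icc_self hy) hsub))
        have := ((hc y (Ico_subset_Icc_self hy)).mono_of_mem_nhdsWithin
          (Icc_mem_nhdsGT_of_mem hy)).eventually (gt_mem_nhds hlt)
        exact this.mono fun _ h => le_of_lt h
    exact ⟨hsub ⟨hs.2, le_rfl⟩, hen t ⟨hs.2, le_rfl⟩ hsub⟩
  obtain ⟨s, hs1, hs2⟩ := (hS.and_eventually (Ioc_mem_nhdsGT ht0)).exists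
  have H := (ht t ⟨ht0, le_rfl⟩).1 (key s hs2 hs1).1
  refine H.le_En.2 ((div_nonpos_iff.1 (le_of_forall_pos_le_add fun η hη => ?_)).elim
    (fun h => absurd h.2 H.ρ0.not_ge) (·.1))
  obtain ⟨s, hs1, hs2, hs3⟩ := (hS.and_eventually ((h4 η hη).and (Ioc_mem_nhdsGT ht0))).exists
  linarith [(key s hs3 hs1).2, hs2 hs1]

theorem Acc.energy_zero (hA : e.Acc) {l μ ν : ℝ} {ρ ρp ρm : ℝ → ℝ} (hρ : DD e.m ρ ρp ρm 0 e.δ)
    (h1 : ∀ᶠ τ in l0, e.EC l μ ν ρ ρp ρm τ)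
    (h4 : Tendsto (fun s => e.W s ^ 2 / e.M l μ ν s ^ 2 / ρ s) l0 (𝓝 0)) :
    ∀ᶠ τ in l0, e.φ τ = 0 :=
  energy_boot hρ (r := fun _ => -1) continuousOn_const hA (h1.mono fun _ h _ => h)
    (Eventually.of_forall fun _ h => ⟨h, by norm_num⟩)
    (Eventually.of_forall fun _ _ _ _ _ _ => by norm_num)
    fun η hη => (h4.eventually (gt_mem_nhds hη)).mono fun _ h _ => h.le

end Ext

end Pool.Agent.Lib.MP_f4f7c0_an
end

-- part Pool.Agent.Lib.MP_f4f7c0_an.Asym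
section

/-! Asymptotic expansions along an extremal. -/

namespace Pool.Agent.Lib.MP_f4f7c0_an

open Set Filter Topology MeasureTheory Asymptotics

theorem ev_ultra {p : ℝ → Prop} {l : Filter ℝ}
    (h : ∀ U : Ultrafilter ℝ, ↑U ≤ l → ∀ᶠ τ in U, p τ) : ∀ᶠ τ in l, p τ :=
  mem_iff_ultrafilter.2 h

theorem ev_ultra' {p r : ℝ → Prop} {l : Filter ℝ}
    (h : ∀ U : Ultrafilter ℝ, ↑U ≤ l → (∀ᶠ τ in U, r τ) → ∀ᶠ τ in U, p τ) :
    ∀ᶠ τ in l, r τ → p τ :=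
  eventually_inf_principal.1 (ev_ultra fun U hU =>
    h U (hU.trans inf_le_left) (le_principal_iff.1 (hU.trans inf_le_right)))

theorem ultra_lim (U : Ultrafilter ℝ) {F : ℝ → ℝ} {a b : ℝ} (h : ∀ᶠ τ in U, F τ ∈ Icc a b) :
    ∃ p ∈ Icc a b, Tendsto F U (𝓝 p) :=
  isCompact_Icc.ultrafilter_le_nhds (U.map F) (le_principal_iff.2 h)

theorem tendsto_id0 : Tendsto (fun τ : ℝ => τ) l0 (𝓝 0) := tendsto_id'.2 nhdsWithin_le_nhds

namespace Ext
variable {e : Ext} {F Fp Fm G Gp Gm : ℝ → ℝ}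

theorem sub_o (w : List Bool) : (fun τ => e.h w τ - e.h w 0) =o[l0] fun τ => τ ^ 0 := by
  simp only [pow_zero]
  exact (isLittleO_one_iff ℝ).2 (tendsto_sub_nhds_zero_iff.2 (e.tendh w))

theorem lin (w : List Bool) : (fun τ => e.h w τ - e.h w 0 -
    (e.h (true :: w) 0 * e.x τ + e.h (false :: w) 0 * e.z τ)) =o[l0] fun τ => τ ^ 1 :=
  littleO_pow (((e.dh w).sub (DD.const _)).sub ((e.dx.cmul _).add (e.dz.cmul _)))
    (by simp [e.x0, e.z0]) (by simpa using e.sub_o (true :: w)) (by simpa using e.sub_o (false :: w))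

theorem sym0 (τ : ℝ) : e.h [false, true] τ = e.h [true, false] τ := congrFun (e.sym []).symm τ

theorem quad (hW : e.W 0 = 0) (ha : e.a 0 = 0) (hb : e.b 0 = 0) :
    (fun τ => e.W τ - (e.h [true, true] 0 * (e.x τ * e.x τ) + 2 * e.h [true, false] 0 * (e.x τ * e.z τ)
      + e.h [false, false] 0 * (e.z τ * e.z τ)) / 2) =o[l0] fun τ => τ ^ 2 := by
  have := littleO_pow (k := 1) ((e.dh []).sub (((((e.dx.mul e.dx).cmul (e.h [true, true] 0)).add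
    ((e.dx.mul e.dz).cmul (2 * e.h [true, false] 0))).add
    ((e.dz.mul e.dz).cmul (e.h [false, false] 0))).cmul (1 / 2))) (by simp [e.x0, e.z0, hW])
    ((e.lin [true]).congr_left fun τ => by rw [show e.h [true] 0 = 0 from ha, sym0]; ring)
    ((e.lin [false]).congr_left fun τ => by rw [show e.h [false] 0 = 0 from hb]; ring)
  exact this.congr_left fun τ => by ring

theorem exists_lim (e : Ext) (U : Ultrafilter ℝ) (hU : ↑U ≤ l0) :
    ∃ p ∈ Icc (0 : ℝ) 1, Tendsto (fun τ => e.x τ / τ) U (𝓝 p) :=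
  ultra_lim U (hU (e.ev_xz.mono fun _ h => ⟨div_nonneg h.2.1 h.1.le, (div_le_one h.1).2 h.2.2.2.1⟩))

variable {l : Filter ℝ} {p : ℝ}

theorem tend_z (hl : l ≤ l0) (hx : Tendsto (fun τ => e.x τ / τ) l (𝓝 p)) :
    Tendsto (fun τ => e.z τ / τ) l (𝓝 (1 - p)) :=
  (hx.const_sub 1).congr' (hl (ev_pos.mono fun τ h => by
    simp only [z]; field_simp))

theorem tend_lin (hl : l ≤ l0) (hx : Tendsto (fun τ => e.x τ / τ) l (𝓝 p)) (w : List Bool) :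
    Tendsto (fun τ => (e.h w τ - e.h w 0) / τ) l
      (𝓝 (e.h (true :: w) 0 * p + e.h (false :: w) 0 * (1 - p))) := by
  have := ((e.lin w).tendsto_div_nhds_zero.mono_left hl).add
    ((hx.const_mul (e.h (true :: w) 0)).add ((tend_z hl hx).const_mul (e.h (false :: w) 0)))
  rw [zero_add] at this
  exact this.congr fun τ => by ring

/-- First order limits along a filter when the first brackets vanish. -/
structure Lim (e : Ext) (l : Filter ℝ) (p α β γ : ℝ) : Prop where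
  pos : ∀ᶠ τ in l, 0 < τ
  t : Tendsto (fun τ : ℝ => τ) l (𝓝 0)
  h : ∀ w, Tendsto (e.h w) l (𝓝 (e.h w 0))
  x : Tendsto (fun τ => e.x τ / τ) l (𝓝 p)
  z : Tendsto (fun τ => e.z τ / τ) l (𝓝 (1 - p))
  a : Tendsto (fun τ => e.a τ / τ) l (𝓝 (α * p + β * (1 - p)))
  b : Tendsto (fun τ => e.b τ / τ) l (𝓝 (β * p + γ * (1 - p)))
  W : Tendsto (fun τ => e.W τ / τ ^ 2) l
    (𝓝 ((α * p ^ 2 + 2 * β * p * (1 - p) + γ * (1 - p) ^ 2) / 2))
  tt : Tendsto (e.h [true, true]) l (𝓝 α)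
  tf : Tendsto (e.h [true, false]) l (𝓝 β)
  ft : Tendsto (e.h [false, true]) l (𝓝 β)
  ff : Tendsto (e.h [false, false]) l (𝓝 γ)

/-- The case where the brackets of order at most one vanish. -/
structure Deg (e : Ext) (α β γ : ℝ) : Prop where
  acc : e.Acc
  a0 : e.a 0 = 0
  b0 : e.b 0 = 0
  tt : e.h [true, true] 0 = α
  tf : e.h [true, false] 0 = β
  ff : e.h [false, false] 0 = γ

variable {α β γ : ℝ}

theorem Deg.swap (h : e.Deg α β γ) : e.swap.Deg (-γ) (-β) (-α) :=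
  ⟨h.acc.swap, by simp [h.b0], by simp [h.a0], by simp [swap_h, h.ff],
    by simp [swap_h, sym0, h.tf], by simp [swap_h, h.tt]⟩

theorem Deg.lim (h : e.Deg α β γ) (hl : l ≤ l0) (hx : Tendsto (fun τ => e.x τ / τ) l (𝓝 p)) :
    e.Lim l p α β γ := by
  have hh := fun w => (e.tendh w).mono_left hl
  refine ⟨hl ev_pos, tendsto_id0.mono_left hl, hh, hx, tend_z hl hx, ?_, ?_, ?_, h.tt ▸ hh _,
    h.tf ▸ hh _, by simpa [sym0, h.tf] using hh [false, true], h.ff ▸ hh _⟩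
  · simpa [h.a0, h.tt, sym0, h.tf] using tend_lin hl hx [true]
  · simpa [h.b0, h.tf, h.ff] using tend_lin hl hx [false]
  · have hz := tend_z hl hx
    have := ((quad h.acc.W0 h.a0 h.b0).tendsto_div_nhds_zero.mono_left hl).add
      (((((hx.mul hx).const_mul α).add ((hx.mul hz).const_mul (2 * β))).add
        ((hz.mul hz).const_mul γ)).div_const 2)
    rw [h.tt, h.tf, h.ff] at this
    convert this using 2
    · ring
    · ring

theorem Deg.ev (h : e.Deg α β γ) {q r : ℝ → Prop} (H : ∀ (U : Ultrafilter ℝ) (p : ℝ), 0 ≤ p →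
    p ≤ 1 → e.Lim U p α β γ → (∀ᶠ τ in U, r τ) → ∀ᶠ τ in U, q τ) : ∀ᶠ τ in l0, r τ → q τ :=
  ev_ultra' fun U hU hr => by
    obtain ⟨p, hp, hx⟩ := e.exists_lim U hU
    exact H U p hp.1 hp.2 (h.lim hU hx) hr

theorem Deg.ev' (h : e.Deg α β γ) {q : ℝ → Prop} (H : ∀ (U : Ultrafilter ℝ) (p : ℝ), 0 ≤ p →
    p ≤ 1 → e.Lim U p α β γ → ∀ᶠ τ in U, q τ) : ∀ᶠ τ in l0, q τ :=
  (h.ev (r := fun _ => True) fun U p h0 h1 L _ => H U p h0 h1 L).mono fun _ h => h trivial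

/-- Integration of asymptotics when the proportion of time spent with each control converges. -/
theorem int_asym (hx : Tendsto (fun τ => e.x τ / τ) l0 (𝓝 p)) (hF : DD e.m F Fp Fm 0 e.δ)
    (F0 : F 0 = 0) {k : ℕ} {gp gm : ℝ} (hp : Tendsto (fun τ => Fp τ / τ ^ k) l0 (𝓝 gp))
    (hm : Tendsto (fun τ => Fm τ / τ ^ k) l0 (𝓝 gm)) :
    Tendsto (fun τ => F τ / τ ^ (k + 1)) l0 (𝓝 ((p * gp + (1 - p) * gm) / (k + 1))) := by
  have o : ∀ {H : ℝ → ℝ} {c : ℝ} {j : ℕ}, Tendsto (fun τ => H τ / τ ^ j) l0 (𝓝 c) →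
      (fun τ => H τ - c * τ ^ j) =o[l0] fun τ => τ ^ j := fun {H c j} h => by
    refine (isLittleO_iff_tendsto' (ev_pos.mono fun τ h h' => absurd h' (by positivity))).2 ?_
    refine (tendsto_sub_nhds_zero_iff.2 h).congr' (ev_pos.mono fun τ h => ?_)
    field_simp
  have hc : ContinuousOn (fun τ => k * τ ^ (k - 1) * (e.x τ - p * τ)) (Icc 0 e.δ) :=
    ContinuousOn.mul (by fun_prop) ((e.dx.cont e.δpos.le).sub (by fun_prop))
  have dI := DD.integral (m := e.m) e.δpos.le hc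
  have hxo : (fun τ => e.x τ - p * τ) =o[l0] fun τ => τ ^ 1 := by
    simpa using o (H := e.x) (j := 1) (by simpa using hx)
  have h1 : (fun τ => k * τ ^ (k - 1) * (e.x τ - p * τ)) =o[l0] fun τ => τ ^ k := by
    rcases k with _ | k
    · simp
    · have := ((isBigO_refl (fun τ : ℝ => τ ^ k) l0).const_mul_left ((k + 1 : ℕ) : ℝ)).mul_isLittleO hxo
      simpa [pow_succ] using this
  have hI := littleO_pow dI (by simp) h1 h1
  have d2 := ((DD.id.pow e.δpos.le k).mul (e.dx.sub (DD.id.cmul p))).sub dI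
  have h2 := littleO_pow ((hF.sub ((dpow k).cmul ((p * gp + (1 - p) * gm) / (k + 1)))).sub
    (d2.cmul (gp - gm))) (by simp [F0, e.x0])
    ((o hp).congr_left fun τ => by field_simp; ring) ((o hm).congr_left fun τ => by field_simp; ring)
  have h3 : (fun τ => τ ^ k * (e.x τ - p * τ)) =o[l0] fun τ => τ ^ (k + 1) := by
    simpa [pow_succ] using (isBigO_refl (fun τ : ℝ => τ ^ k) l0).mul_isLittleO hxo
  have h4 := (h2.add ((h3.sub hI).const_mul_left (gp - gm))).tendsto_div_nhds_zero.add_const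
    ((p * gp + (1 - p) * gm) / (k + 1))
  rw [zero_add] at h4
  refine h4.congr' (ev_pos.mono fun τ h => ?_)
  field_simp
  ring

/-- Small compared with `τ ^ k` up to a multiple of the time spent with the second control. -/
def Sm (e : Ext) (F : ℝ → ℝ) (k : ℕ) : Prop :=
  ∀ ε > 0, ∃ C ≥ 0, ∀ᶠ τ in l0, |F τ| ≤ ε * τ ^ k + C * e.z τ

theorem Sm.int (hF : DD e.m F Fp Fm 0 e.δ) (F0 : F 0 = 0) {k : ℕ} (hp : e.Sm Fp k) {c : ℝ}
    (hm : Tendsto Fm l0 (𝓝 c)) : e.Sm F (k + 1) := by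
  intro ε hε
  obtain ⟨C, hC, h⟩ := hp ε hε
  have := abs_le_of hF ((((dpow k).cmul ε).add ((DD.id.mul e.dz).cmul C)).add (e.dz.cmul (|c| + 1)))
    F0 (by simp [e.z0]) (c := 1)
    (by
      filter_upwards [h, ev_pos] with τ h1 h2
      have : 0 ≤ ε * (k * τ ^ k) := by positivity
      linarith)
    (by
      filter_upwards [hm.abs.eventually (gt_mem_nhds (lt_add_one _)), e.ev_xz] with τ h1 h2
      have h3 := h2.1
      have h4 := h2.2.2.1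
      have : 0 ≤ ε * ((k + 1) * τ ^ k) + C * (1 * e.z τ + τ * 1) := by positivity
      linarith)
  refine ⟨C + (|c| + 1), by positivity, ?_⟩
  filter_upwards [this, e.ev_xz, tendsto_id0.eventually (gt_mem_nhds one_pos)] with τ h1 h2 h3
  have := mul_le_mul_of_nonneg_left (mul_le_of_le_one_left h2.2.2.1 h3.le) hC
  linarith

theorem Sm.littleO {k : ℕ} (h : e.Sm F k) (hl : l ≤ l0) (hz : e.z =o[l] fun τ => τ ^ k) :
    F =o[l] fun τ => τ ^ k := by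
  refine isLittleO_iff.2 fun ε hε => ?_
  obtain ⟨C, hC, h⟩ := h (ε / 2) (by positivity)
  filter_upwards [hl h, isLittleO_iff.1 (hz.const_mul_left C) (show 0 < ε / 2 by positivity),
    hl ev_pos] with τ h1 h2 h3
  rw [Real.norm_eq_abs, Real.norm_of_nonneg (pow_pos h3 k).le] at *
  linarith [le_abs_self (C * e.z τ)]

theorem Sm.of_tendsto (h : Tendsto F l0 (𝓝 0)) : e.Sm F 0 := fun ε hε =>
  ⟨0, le_rfl, by
    filter_upwards [(by simpa using h.abs : Tendsto (fun τ => |F τ|) l0 (𝓝 0)).eventually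
      (gt_mem_nhds hε)] with τ h using by simpa using h.le⟩

end Ext

end Pool.Agent.Lib.MP_f4f7c0_an
end

-- part Pool.Agent.Lib.MP_f4f7c0_an.CaseA
section

/-! The case where one of the first order brackets does not vanish. -/

namespace Pool.Agent.Lib.MP_f4f7c0_an

open Set Filter Topology MeasureTheory Asymptotics List

namespace Ext
variable {e : Ext}

theorem Acc.nonneg_of (hA : e.Acc) (h : ∀ᶠ τ in l0, 0 ≤ e.a τ ∧ 0 ≤ e.b τ) :
    ∀ᶠ τ in l0, 0 ≤ e.φ τ := by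
  filter_upwards [ev_Ioc (h.and e.ev_mem), ev_pos] with t ht ht0
  have hδ := (ht t ⟨ht0, le_rfl⟩).2.2.le
  have key : ∀ y ∈ Ioo 0 t, 0 ≤ e.W y := fun y hy =>
    hA.W0 ▸ mono' ((e.dh []).mono le_rfl hy.1.le (hy.2.le.trans hδ)) le_rfl hy.1.le
      (hy.2.le.trans hδ) (fun w hw => (ht w ⟨hw.1, (hw.2.trans hy.2).le⟩).1.1)
      fun w hw => (ht w ⟨hw.1, (hw.2.trans hy.2).le⟩).1.2
  exact hA.φ0 ▸ mono' (e.dφ.mono le_rfl ht0.le hδ) le_rfl ht0.le hδ key key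

theorem Acc.nonpos_of (hA : e.Acc) (h : ∀ᶠ τ in l0, e.a τ ≤ 0 ∧ e.b τ ≤ 0) :
    ∀ᶠ τ in l0, e.φ τ ≤ 0 := by
  simpa using hA.swap.nonneg_of (by simpa [and_comm] using h)

theorem sm_rep {k : ℕ} (h0 : ∀ j < k, e.h (replicate (j + 1) true) 0 = 0) (i j : ℕ)
    (hij : i + j = k) : e.Sm (fun τ => e.h (replicate (j + 1) true) τ -
      e.h (replicate (k + 1) true) 0 / i.factorial * τ ^ i) i := by
  induction i generalizing j with
  | zero =>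
    obtain rfl : j = k := by omega
    exact Sm.of_tendsto (by simpa using tendsto_sub_nhds_zero_iff.2 (e.tendh _))
  | succ i ih =>
    have hi : ∀ c τ : ℝ, c / i.factorial * τ ^ i = c / (i + 1).factorial * ((i + 1) * τ ^ i) :=
      fun c τ => by rw [Nat.factorial_succ]; push_cast; field_simp
    exact Sm.int ((e.dh _).sub ((dpow i).cmul _)) (by simp [h0 j (by omega)])
      (by simpa only [hi, replicate_succ] using ih (j + 1) (by omega))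
      ((e.tendh _).sub (((tendsto_id0.pow i).const_mul _).const_mul _))

theorem Acc.W_le (hA : e.Acc) {J Jp Jm : ℝ → ℝ} (hJ : DD e.m J Jp Jm 0 e.δ) (J0 : J 0 = 0) {c : ℝ}
    (hc : 0 < c) (h : ∀ᶠ τ in l0, |e.a τ| ≤ Jp τ ∧ 0 ≤ Jm τ ∧ (e.φ τ < 0 → c ≤ e.b τ)) :
    ∀ᶠ τ in l0, |e.W τ| ≤ 2 * J τ := by
  set C := (|e.h [false, false] 0| + 1) / c with hC
  have hC0 : 0 < C := by positivity
  filter_upwards [ev_Ioc (h.and (e.ev_mem.and
    (((e.tendh [false, false]).abs.eventually (gt_mem_nhds (lt_add_one _))).and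
    ((tendsto_id0.const_mul C).eventually (gt_mem_nhds (show C * 0 < 1 / 2 by simp)))))), ev_pos]
    with t ht ht0
  have hδ := (ht t ⟨ht0, le_rfl⟩).2.1.2.le
  have hN : ∀ τ ∈ Icc 0 t, c * e.N τ ≤ e.b τ * e.N τ := fun τ hτ => by
    rcases le_or_gt 0 (e.φ τ) with h1 | h1
    · simp [N, h1]
    · rcases hτ.1.eq_or_lt with rfl | h2
      · exact absurd hA.φ0 h1.ne
      · exact mul_le_mul_of_nonneg_right ((ht τ ⟨h2, hτ.2⟩).1.2.2 h1) (N_nonneg τ)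
  refine le_of_forall_pos_le_add fun η hη => ?_
  have hS : ∀ τ ∈ Icc 0 t, 0 < e.W τ * e.W τ + 2 * (e.b τ * e.N τ) + (η / 2) ^ 2 := fun τ hτ => by
    have := (mul_nonneg hc.le (N_nonneg τ)).trans (hN τ hτ)
    have := mul_self_nonneg (e.W τ)
    positivity
  have hW : ∀ τ ∈ Icc 0 t, |e.W τ| ≤ √(e.W τ * e.W τ + 2 * (e.b τ * e.N τ) + (η / 2) ^ 2) :=
    fun τ hτ => Real.abs_le_sqrt (by
      nlinarith [(mul_nonneg hc.le (N_nonneg τ)).trans (hN τ hτ), sq_nonneg (η / 2)])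
  have dS := ((((((e.dh []).mul (e.dh [])).add (((e.dh [false]).mul e.dN).cmul 2)).add
    (DD.const ((η / 2) ^ 2))).mono le_rfl ht0.le hδ).sqrt ht0.le hS)
  have := anti ((dS.mul ((DD.const 1).sub (DD.id.cmul C))).sub (hJ.mono le_rfl ht0.le hδ)) le_rfl
    ht0.le hδ (fun τ hτ h1 h2 => ?_) fun τ hτ h1 h2 => ?_
  · have h3 := (ht t ⟨ht0, le_rfl⟩).2.2.2
    have h4 := hW t ⟨ht0.le, le_rfl⟩
    simp only [J0, hA.W0, N, hA.φ0, neg_zero, max_self, mul_zero, zero_add, sub_zero, mul_one,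
      Real.sqrt_sq (half_pos hη).le] at this
    simp only [N] at h4
    nlinarith [abs_nonneg (e.W t)]
  · obtain ⟨-, e2, -, e4⟩ := PN_pos h1 h2
    have H := ht τ (Ioo_subset_Ioc_self hτ)
    have h3 := hW τ (Ioo_subset_Icc_self hτ)
    have h4 := Real.sqrt_pos.2 (hS τ (Ioo_subset_Icc_self hτ))
    generalize √(e.W τ * e.W τ + 2 * (e.b τ * e.N τ) + (η / 2) ^ 2) = S at *
    have h5 : (e.a τ * e.W τ + e.W τ * e.a τ + 2 * (e.h [true, false] τ * e.N τ + e.b τ * e.Nd τ) + 0)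
        / (2 * S) ≤ |e.a τ| := by
      rw [e2, e4, div_le_iff₀ (by positivity)]
      have := le_abs_self (e.a τ * e.W τ)
      rw [abs_mul] at this
      nlinarith [abs_nonneg (e.a τ)]
    have h6 := mul_pos hC0 hτ.1
    nlinarith [H.1.1, H.2.2.2, abs_nonneg (e.a τ), mul_pos h4 hC0]
  · obtain ⟨-, e2, -, e4⟩ := PN_neg h1 h2
    have H := ht τ (Ioo_subset_Ioc_self hτ)
    have h3 := Real.sq_sqrt (hS τ (Ioo_subset_Icc_self hτ)).le
    have h4 := Real.sqrt_pos.2 (hS τ (Ioo_subset_Icc_self hτ))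
    generalize √(e.W τ * e.W τ + 2 * (e.b τ * e.N τ) + (η / 2) ^ 2) = S at *
    have h5 : (e.b τ * e.W τ + e.W τ * e.b τ + 2 * (e.h [false, false] τ * e.N τ + e.b τ * e.Nd τ) + 0)
        / (2 * S) ≤ C * S := by
      rw [e4, div_le_iff₀ (by positivity)]
      have h6 : e.h [false, false] τ * e.N τ ≤ C * (c * e.N τ) := by
        rw [← mul_assoc, hC, div_mul_cancel₀ _ hc.ne']
        exact mul_le_mul_of_nonneg_right ((le_abs_self _).trans H.2.2.1.le) (N_nonneg τ)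
      have h7 : c * e.N τ ≤ S ^ 2 := by
        nlinarith [hN τ (Ioo_subset_Icc_self hτ), mul_nonneg hc.le (e.N_nonneg τ),
          mul_self_nonneg (e.W τ), sq_nonneg (η / 2)]
      nlinarith
    have h6 := mul_pos hC0 hτ.1
    nlinarith [H.1.2.1, H.2.2.2, mul_pos h4 hC0]

theorem Acc.z_bigO (hA : e.Acc) (hb : e.b 0 ≠ 0) {k : ℕ} {C₁ C : ℝ} (hC₁ : 0 ≤ C₁) (hC : 0 ≤ C)
    (h : ∀ᶠ τ in l0, |e.a τ| ≤ C₁ * τ ^ k + C * e.z τ) :
    (e.z =O[l0] fun τ => τ ^ (k + 1)) ∧ e.W =O[l0] fun τ => τ ^ (k + 1) := by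
  obtain ⟨s, hs1, hs⟩ : ∃ s : ℝ, |s| = 1 ∧ 0 < s * e.b 0 ∧ (e.b 0 < 0 ∨ s = 1) := by
    rcases hb.lt_or_gt with h | h
    · exact ⟨-1, by simp, by linarith, Or.inl h⟩
    · exact ⟨1, by simp, by linarith, Or.inr rfl⟩
  set c := s * e.b 0 / 2 with hc
  have hc0 : 0 < c := half_pos hs.1
  have hb1 : ∀ᶠ τ in l0, c < s * e.b τ :=
    ((e.tendh [false]).const_mul s).eventually (lt_mem_nhds (half_lt_self hs.1))
  have dJ := ((dpow (e := e) k).cmul C₁).add ((DD.id.mul e.dz).cmul C)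
  have hJ : ∀ᶠ τ in l0, |e.a τ| ≤ C₁ * ((k + 1) * τ ^ k) + C * (1 * e.z τ + τ * 0) ∧
      0 ≤ C₁ * ((k + 1) * τ ^ k) + C * (1 * e.z τ + τ * 1) := by
    filter_upwards [h, e.ev_xz] with τ h1 h2
    have h3 := h2.1
    have h4 := h2.2.2.1
    have : 0 ≤ C₁ * (k * τ ^ k) := by positivity
    exact ⟨by linarith, by positivity⟩
  have hW := hA.W_le dJ (by simp) hc0 (by
    rcases hs.2 with h | rfl
    · filter_upwards [hJ, hA.ev_nonneg 1 0 0 (((e.tendh [false]).eventually (gt_mem_nhds h)).mono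
        fun τ h => by simpa [M] using fun _ => h.le)] with τ h1 h2
      exact ⟨h1.1, h1.2, fun h => absurd h2 h.not_ge⟩
    · filter_upwards [hJ, hb1] with τ h1 h2
      exact ⟨h1.1, h1.2, fun _ => by linarith⟩)
  have hz : ∀ᶠ τ in l0, c * e.z τ ≤ 3 * (C₁ * τ ^ (k + 1) + C * (τ * e.z τ)) := by
    filter_upwards [ev_Ioc (hJ.and (hb1.and e.ev_mem)), ev_pos, hW] with t ht ht0 h1
    have hδ := (ht t ⟨ht0, le_rfl⟩).2.2.2.le
    have := mono' (((((e.dh []).cmul s).sub (e.dz.cmul c)).add dJ).mono le_rfl ht0.le hδ) le_rfl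
      ht0.le hδ (fun τ hτ => ?_) fun τ hτ => ?_
    · have h2 := le_abs_self (s * e.W t)
      rw [abs_mul, hs1] at h2
      simp only [hA.W0, e.z0] at this
      simp only [W] at *
      norm_num at this
      linarith
    · have h2 := neg_abs_le (s * e.a τ)
      rw [abs_mul, hs1] at h2
      linarith [(ht τ (Ioo_subset_Ioc_self hτ)).1.1]
    · linarith [(ht τ (Ioo_subset_Ioc_self hτ)).1.2, (ht τ (Ioo_subset_Ioc_self hτ)).2.1]
  have hz' : e.z =O[l0] fun τ => τ ^ (k + 1) := by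
    refine IsBigO.of_bound (6 * C₁ / c) ?_
    filter_upwards [hz, e.ev_xz, (tendsto_id0.const_mul (6 * C)).eventually
      (gt_mem_nhds (show 6 * C * 0 < c by simpa))] with τ h1 h2 h3
    rw [Real.norm_of_nonneg h2.2.2.1, Real.norm_of_nonneg (pow_pos h2.1 _).le, div_mul_eq_mul_div,
      le_div_iff₀ hc0]
    nlinarith [h2.2.2.1]
  refine ⟨hz', IsBigO.trans (g := fun τ => 2 * (C₁ * τ ^ (k + 1) + C * (τ * e.z τ)))
    (IsBigO.of_bound' (hW.mono fun τ h => h.trans (le_abs_self _))) ?_⟩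
  refine (((isBigO_refl _ _).const_mul_left _).add (IsBigO.const_mul_left ?_ _)).const_mul_left _
  simpa using (tendsto_id0.isBigO_one ℝ).mul hz'

theorem pow_succ_o (k : ℕ) : (fun τ : ℝ => τ ^ (k + 1)) =o[l0] fun τ => τ ^ k :=
  (isLittleO_pow_pow (Nat.lt_succ_self k)).mono nhdsWithin_le_nhds

theorem tendsto_of_o {l : Filter ℝ} (hl : l ≤ l0) {F : ℝ → ℝ} {c : ℝ} {k : ℕ}
    (h : (fun τ => F τ - c * τ ^ k) =o[l] fun τ => τ ^ k) : Tendsto (fun τ => F τ / τ ^ k) l (𝓝 c) := by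
  have := h.tendsto_div_nhds_zero.add_const c
  rw [zero_add] at this
  refine this.congr' (hl (ev_pos.mono fun τ h => ?_))
  field_simp
  ring

theorem Acc.caseA (hA : e.Acc) (hb : e.b 0 ≠ 0) {k : ℕ}
    (h0 : ∀ j < k, e.h (replicate (j + 1) true) 0 = 0) (hc : e.h (replicate (k + 1) true) 0 ≠ 0) :
    ∀ᶠ τ in l0, e.φ τ = 0 := by
  set c := e.h (replicate (k + 1) true) 0 / k.factorial with hcdef
  have hc0 : c ≠ 0 := by positivity
  have h1 : e.Sm (fun τ => e.a τ - c * τ ^ k) k := sm_rep h0 k 0 rfl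
  obtain ⟨C, hC, h2⟩ := h1 1 one_pos
  obtain ⟨hz, hW⟩ := hA.z_bigO hb (k := k) (C₁ := |c| + 1) (by positivity) hC (by
    filter_upwards [h2, ev_pos] with τ h3 h4
    have := abs_add_le (e.a τ - c * τ ^ k) (c * τ ^ k)
    rw [abs_mul, abs_of_pos (pow_pos h4 k), sub_add_cancel] at this
    linarith)
  have hzo := hz.trans_isLittleO (pow_succ_o k)
  have ha := tendsto_of_o le_rfl (h1.littleO le_rfl hzo)
  have sgn : ∀ s : ℝ, 0 < s * c → ∀ᶠ τ in l0, 0 < s * e.a τ := fun s hs => by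
    filter_upwards [(ha.const_mul s).eventually (lt_mem_nhds hs), ev_pos] with τ h3 h4
    rwa [← mul_div_assoc, div_pos_iff_of_pos_right (pow_pos h4 k)] at h3
  have nn : e.b 0 < 0 → ∀ᶠ τ in l0, 0 ≤ e.φ τ := fun h =>
    hA.ev_nonneg 1 0 0 (((e.tendh [false]).eventually (gt_mem_nhds h)).mono
      fun τ h => by simpa [M] using fun _ => h.le)
  rcases hc0.lt_or_gt with hc1 | hc1
  · have h3 := sgn (-1) (by linarith)
    rcases hb.lt_or_gt with hb1 | hb1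
    · filter_upwards [nn hb1, hA.nonpos_of ((h3.and ((e.tendh [false]).eventually
        (gt_mem_nhds hb1))).mono fun τ h => ⟨by linarith [h.1], h.2.le⟩)] with τ h4 h5
      exact le_antisymm h5 h4
    · have h4 : Tendsto (fun τ => τ * e.h [true, true] τ / τ ^ k) l0 (𝓝 (k * c)) := by
        rcases k with _ | k
        · simpa using tendsto_id0.mul (e.tendh [true, true])
        · have := tendsto_of_o le_rfl ((sm_rep h0 k 1 rfl).littleO le_rfl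
            (hzo.trans (pow_succ_o k)))
          convert this.congr' (ev_pos.mono fun τ h => ?_) using 2
          · rw [hcdef, Nat.factorial_succ]; push_cast; field_simp
          · simp only [replicate]; field_simp; ring
      refine hA.energy_zero (l := 1) (μ := 0) (ν := 0) (dpow k) ?_ ?_
      · filter_upwards [ev_pos, h3, (e.tendh [false]).eventually (lt_mem_nhds hb1),
          (h4.sub (ha.const_mul (k + 1 : ℝ))).eventually (lt_mem_nhds (show 0 < _ by linarith)),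
          (((e.tendh [false]).const_mul (k + 1 : ℝ)).sub (tendsto_id0.mul (e.tendh [false, false]))).eventually
            (lt_mem_nhds (show 0 < _ by simp; positivity))] with τ h5 h6 h7 h8 h9
        have hp := pow_pos h5 k
        refine ⟨by simp [M], by positivity, by positivity, by positivity,
          fun _ => by simp [M]; linarith, fun _ => by simpa [M] using h7, fun _ => ?_, fun _ => ?_⟩
        · rw [← mul_div_assoc, ← sub_div, div_pos_iff_of_pos_right hp] at h8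
          simp only [M, pow_succ]
          nlinarith
        · simp only [M, pow_succ]
          nlinarith
      · have := ((hW.pow 2).trans_isLittleO (k := fun τ => τ ^ (k + 1)) (by
          simpa [← pow_mul] using (isLittleO_pow_pow (show k + 1 < (k + 1) * 2 by omega)).mono
            nhdsWithin_le_nhds)).tendsto_div_nhds_zero
        simpa [M] using this
  · have h3 := sgn 1 (by linarith)
    have h4 := hA.ev_nonpos 1 0 0 (h3.mono fun τ h => by simp [M]; exact fun _ => by linarith)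
    rcases hb.lt_or_gt with hb1 | hb1
    · filter_upwards [nn hb1, h4] with τ h5 h6 using le_antisymm h6 h5
    · filter_upwards [h4, hA.nonneg_of ((h3.and ((e.tendh [false]).eventually
        (lt_mem_nhds hb1))).mono fun τ h => ⟨by linarith [h.1], h.2.le⟩)] with τ h4 h5
      exact le_antisymm h4 h5

end Ext

end Pool.Agent.Lib.MP_f4f7c0_an
end
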