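import Mathlib

/-! Definitions used in the statement: vector fields on a 3-manifold, the Whitney topology,
admissible and time-optimal trajectories. -/

namespace Pool.Agent.Lib.MP_f4f7c0_an

open Set Filter Topology MeasureTheory
open scoped Manifold ContDiff

/-- The model space. -/
abbrev E3 := EuclideanSpace ℝ (Fin 3)

variable (M : Type*) [TopologicalSpace M] [ChartedSpace E3 M] [IsManifold (𝓡 3) ∞ M]

/-- Smooth vector fields on `M`. -/
abbrev VF := ContMDiffSection (𝓡 3) E3 ∞ (TangentSpace (𝓡 3) : M → Type)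

variable {M}

/-- The expression of a vector field in the chart at `x₀`. -/
noncomputable def chartRep (x₀ : M) (X : VF M) (y : E3) : E3 :=
  mfderiv (𝓡 3) (𝓡 3) (extChartAt (𝓡 3) x₀) ((extChartAt (𝓡 3) x₀).symm y)
    (X ((extChartAt (𝓡 3) x₀).symm y))

/-- Basic neighbourhood of `X` in the strong `C^k` topology. -/
def whitneyNbhd (X : VF M) (k : ℕ) (c : ℕ → M) (K : ℕ → Set M) (ε : ℕ → ℝ) : Set (VF M) :=
  {Y | ∀ i, ∀ x ∈ K i, ∀ j ≤ k,
    ‖iteratedFDeriv ℝ j (chartRep (c i) Y - chartRep (c i) X) (extChartAt (𝓡 3) (c i) x)‖ < ε i}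

variable (M) in
/-- The Whitney (strong) `C^∞` topology on smooth vector fields. -/
@[reducible] def whitneyTop : TopologicalSpace (VF M) :=
  TopologicalSpace.generateFrom {U | ∃ X k c K ε, (∀ i, IsCompact (K i)) ∧
    (∀ i, K i ⊆ (chartAt E3 (c i)).source) ∧ LocallyFinite K ∧ (∀ i, 0 < ε i) ∧
    U = whitneyNbhd X k c K ε}

/-- `q` is an admissible trajectory on `[0, T]` of `q' = f + u g` for the control `u`. -/
structure Admissible (f g : VF M) (u : ℝ → ℝ) (q : ℝ → M) (T : ℝ) : Prop where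
  nonneg : 0 ≤ T
  meas : Measurable u
  bound : ∀ t, |u t| ≤ 1
  cont : ContinuousOn q (Icc 0 T)
  lip : ∀ t ∈ Icc 0 T, ∃ C, ∃ s ∈ 𝓝[Icc 0 T] t,
    LipschitzOnWith C (extChartAt (𝓡 3) (q t) ∘ q) s
  ode : ∀ᵐ t, t ∈ Ioo 0 T → HasMFDerivAt 𝓘(ℝ, ℝ) (𝓡 3) q t
    (ContinuousLinearMap.toSpanSingleton ℝ (f (q t) + u t • g (q t)))

/-- `q` is a time-optimal trajectory on `[0, T]`. -/
def TimeOptimal (f g : VF M) (q : ℝ → M) (T : ℝ) : Prop :=
  (∃ u, Admissible f g u q T) ∧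
    ∀ u' q' T', Admissible f g u' q' T' → q' 0 = q 0 → q' T' = q T → T ≤ T'

/-- The times at which the curve `q` on `[0, T]` is not smooth. -/
def switchingTimes (q : ℝ → M) (T : ℝ) : Set ℝ :=
  {t ∈ Icc 0 T | ¬ ∃ s ∈ 𝓝[Icc 0 T] t, ContMDiffOn 𝓘(ℝ, ℝ) (𝓡 3) ∞ q s}

end Pool.Agent.Lib.MP_f4f7c0_an
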