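import Pool.Agent.Lib.MP_f4f7c0_an.Final

/-! For a generic pair of vector fields on a 3-manifold, every time-optimal trajectory has
finitely many switching points. -/

namespace Pool.Agent.Variant.MP_f4f7c0_an.FiniteSwitching

open Pool.Agent.Lib.MP_f4f7c0_an.St
open scoped Manifold ContDiff

theorem result (M : Type*) [TopologicalSpace M] [T2Space M] [SecondCountableTopology M]
    [ChartedSpace (EuclideanSpace ℝ (Fin 3)) M] [IsManifold (𝓡 3) ∞ M] :
    ∀ᶠ fg in @residual (VF (EuclideanSpace ℝ (Fin 3)) M × VF (EuclideanSpace ℝ (Fin 3)) M)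
        (@instTopologicalSpaceProd _ _ (whitneyTop _ M) (whitneyTop _ M)),
      ∀ (q : ℝ → M) (T : ℝ), TimeOptimal fg.1 fg.2 q T →
        (switchingTimes (EuclideanSpace ℝ (Fin 3)) q T).Finite :=
  (Pool.Agent.Lib.MP_f4f7c0_an.final (M := M)).mono fun _ h q T ho =>
    h q T (Pool.Agent.Lib.MP_f4f7c0_an.st_opt ho)

end Pool.Agent.Variant.MP_f4f7c0_an.FiniteSwitching
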