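import Pool.Agent.Lib.MP_f4f7c0_an.GlueAdm

-- part Pool.Agent.Lib.MP_f4f7c0_an.WhitChart
section

/-! Chart level openness of the generic condition with respect to five derivatives. -/

namespace Pool.Agent.Lib.MP_f4f7c0_an

namespace Whit

open Set Filter Topology Asymptotics VectorField
open scoped ContDiff

variable {α : Type*} {l : Filter α} {y : α → E3} {k : ℕ} {u u' : α → ℝ}

/-- The derivatives up to order `k` of `V a` at the point `y a` are of order `u a`. -/
structure Ord (l : Filter α) (y : α → E3) (k : ℕ) {F : Type} [NormedAddCommGroup F]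
    [NormedSpace ℝ F] (V : α → E3 → F) (u : α → ℝ) : Prop where
  sm : ∀ᶠ a in l, ContDiffAt ℝ ∞ (V a) (y a)
  bd : ∀ j ≤ k, (fun a => iteratedFDeriv ℝ j (V a) (y a)) =O[l] u

theorem le_infty (j : ℕ) : (j : ℕ∞ω) ≤ ∞ := by exact_mod_cast le_top

section
variable {F : Type} [NormedAddCommGroup F] [NormedSpace ℝ F] {V W : α → E3 → F}

theorem Ord.mono (h : Ord l y k V u) {k' : ℕ} (hk : k' ≤ k) : Ord l y k' V u :=
  ⟨h.sm, fun j hj => h.bd j (hj.trans hk)⟩

theorem Ord.trans (h : Ord l y k V u) (hu : u =O[l] u') : Ord l y k V u' :=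
  ⟨h.sm, fun j hj => (h.bd j hj).trans hu⟩

theorem Ord.congr (h : Ord l y k V u) (e : ∀ᶠ a in l, V a =ᶠ[𝓝 (y a)] W a) : Ord l y k W u :=
  ⟨(h.sm.and e).mono fun _ h => h.1.congr_of_eventuallyEq h.2.symm, fun j hj =>
    (h.bd j hj).congr' (e.mono fun _ h => (h.iteratedFDeriv ℝ j).eq_of_nhds) EventuallyEq.rfl⟩

theorem Ord.add (h : Ord l y k V u) (h' : Ord l y k W u) : Ord l y k (fun a => V a + W a) u :=
  ⟨(h.sm.and h'.sm).mono fun _ h => h.1.add h.2, fun j hj =>
    ((h.bd j hj).add (h'.bd j hj)).congr' ((h.sm.and h'.sm).mono fun _ h =>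
      (iteratedFDeriv_add_apply (h.1.of_le (le_infty j)) (h.2.of_le (le_infty j))).symm)
      EventuallyEq.rfl⟩

theorem Ord.sub (h : Ord l y k V u) (h' : Ord l y k W u) : Ord l y k (fun a => V a - W a) u :=
  ⟨(h.sm.and h'.sm).mono fun _ h => h.1.sub h.2, fun j hj =>
    ((h.bd j hj).sub (h'.bd j hj)).congr' ((h.sm.and h'.sm).mono fun _ h =>
      (iteratedFDeriv_sub_apply (h.1.of_le (le_infty j)) (h.2.of_le (le_infty j))).symm)
      EventuallyEq.rfl⟩

theorem Ord.fderiv (h : Ord l y (k + 1) V u) : Ord l y k (fun a => fderiv ℝ (V a)) u :=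
  ⟨h.sm.mono fun _ h => h.fderiv_right le_rfl, fun j hj => by
    rw [← isBigO_norm_left]
    simp only [norm_iteratedFDeriv_fderiv]
    exact (h.bd (j + 1) (by omega)).norm_left⟩

theorem Ord.app {A : α → E3 → E3 →L[ℝ] F} {W : α → E3 → E3} (h : Ord l y k A u)
    (h' : Ord l y k W u') : Ord l y k (fun a z => A a z (W a z)) fun a => u a * u' a := by
  refine ⟨(h.sm.and h'.sm).mono fun _ h => h.1.clm_apply h.2, fun j hj => ?_⟩
  have h1 : (fun a => ∑ i ∈ Finset.range (j + 1), (j.choose i : ℝ) *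
      ‖iteratedFDeriv ℝ i (A a) (y a)‖ * ‖iteratedFDeriv ℝ (j - i) (W a) (y a)‖) =O[l]
      fun a => u a * u' a := IsBigO.fun_sum fun i hi =>
    ((h.bd i (by have := Finset.mem_range.1 hi; omega)).norm_left.const_mul_left _).mul
      (h'.bd (j - i) (by omega)).norm_left
  refine (IsBigO.of_bound' ((h.sm.and h'.sm).mono fun a ha => ?_)).trans h1
  obtain ⟨s, hs, h2⟩ := (ha.1.of_le (le_infty j)).contDiffOn le_rfl (by simp)
  obtain ⟨t, ht, h3⟩ := (ha.2.of_le (le_infty j)).contDiffOn le_rfl (by simp)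
  obtain ⟨o, ho, ho', hy⟩ := mem_nhds_iff.1 (inter_mem hs ht)
  have h4 := norm_iteratedFDerivWithin_clm_apply (h2.mono (ho.trans inter_subset_left))
    (h3.mono (ho.trans inter_subset_right)) ho'.uniqueDiffOn hy le_rfl
  simp only [iteratedFDerivWithin_of_isOpen _ ho' hy] at h4
  exact h4.trans (le_abs_self _)

theorem Ord.tendsto (h : Ord l y k V u) (hu : Tendsto u l (𝓝 0)) :
    Tendsto (fun a => V a (y a)) l (𝓝 0) := by
  have h1 := ((h.bd 0 k.zero_le).norm_left).trans_tendsto hu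
  simp only [norm_iteratedFDeriv_zero] at h1
  exact tendsto_zero_iff_norm_tendsto_zero.2 h1

theorem ord_const {X : E3 → F} {y₀ : E3} (hy : Tendsto y l (𝓝 y₀)) (h₀ : ContDiffAt ℝ ∞ X y₀)
    (h : ∀ᶠ a in l, ContDiffAt ℝ ∞ X (y a)) : Ord l y k (fun _ => X) fun _ => 1 :=
  ⟨h, fun j _ => ((h₀.continuousAt_iteratedFDeriv (le_infty j)).tendsto.comp hy).isBigO_one ℝ⟩

end

variable {X X' Y Y' V W : α → E3 → E3}

theorem Ord.bracket (h : Ord l y (k + 1) V u) (h' : Ord l y (k + 1) W u') :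
    Ord l y k (fun a => lieBracket ℝ (V a) (W a)) fun a => u a * u' a :=
  ((h'.fderiv.app (h.mono k.le_succ)).trans (isBigO_refl _ _ |>.congr_right fun _ =>
    mul_comm _ _)).sub (h.fderiv.app (h'.mono k.le_succ))

theorem Ord.of_sub (hX : Ord l y k X fun _ => 1) (h : Ord l y k (fun a => Y a - X a) u)
    (hu : u =O[l] fun _ => (1 : ℝ)) : Ord l y k Y fun _ => 1 := by
  simpa using hX.add (h.trans hu)

theorem Ord.bracket_sub (hX : Ord l y (k + 1) X fun _ => 1) (hV : Ord l y (k + 1) V fun _ => 1)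
    (h : Ord l y (k + 1) (fun a => Y a - X a) u) (h' : Ord l y (k + 1) (fun a => W a - V a) u)
    (hu : u =O[l] fun _ => (1 : ℝ)) :
    Ord l y k (fun a => lieBracket ℝ (Y a) (W a) - lieBracket ℝ (X a) (V a)) u := by
  have hY := hX.of_sub h hu
  have hW := hV.of_sub h' hu
  have h1 := h.bracket hW
  have h2 := hX.bracket h'
  simp only [mul_one, one_mul] at h1 h2
  have e : ∀ {Z : E3 → E3} {z : E3}, ContDiffAt ℝ ∞ Z z → ∀ᶠ x in 𝓝 z, DifferentiableAt ℝ Z x :=
    fun h => ((h.of_le (le_infty 1)).eventually (by simp)).mono fun _ h =>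
      h.differentiableAt (by simp)
  refine (h1.add h2).congr ?_
  filter_upwards [hX.sm, hV.sm, hY.sm, hW.sm] with a a1 a2 a3 a4
  filter_upwards [e a1, e a2, e a3, e a4] with z b1 b2 b3 b4
  simp only [lieBracket, Pi.add_apply, Pi.sub_apply, fderiv_sub b3 b1, fderiv_sub b4 b2, map_sub,
    sub_apply]
  abel

theorem ord_br {n : ℕ} (hX : Ord l y n X fun _ => 1) (hX' : Ord l y n X' fun _ => 1)
    (h : Ord l y n (fun a => Y a - X a) u) (h' : Ord l y n (fun a => Y' a - X' a) u)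
    (hu : u =O[l] fun _ => (1 : ℝ)) (w : List Bool) : ∀ k, k + w.length + 1 ≤ n →
    Ord l y k (fun a => br (X a) (X' a) w) (fun _ => 1) ∧
      Ord l y k (fun a => br (Y a) (Y' a) w - br (X a) (X' a) w) u := by
  induction w with
  | nil =>
    intro k hk
    exact ⟨by simpa [br] using (hX'.mono hk).bracket (hX.mono hk),
      (hX'.mono hk).bracket_sub (hX.mono hk) (h'.mono hk) (h.mono hk) hu⟩
  | cons i w ih =>
    intro k hk
    rw [List.length_cons] at hk
    obtain ⟨h1, h2⟩ := ih (k + 1) (by omega)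
    have hk' : k + 1 ≤ n := by omega
    cases i
    · exact ⟨by simpa [br] using (hX'.mono hk').bracket h1,
        (hX'.mono hk').bracket_sub h1 (h'.mono hk') h2 hu⟩
    · exact ⟨by simpa [br] using (hX.mono hk').bracket h1,
        (hX.mono hk').bracket_sub h1 (h.mono hk') h2 hu⟩

/-- The generic condition on the values of the fields and brackets. -/
def G0 (d : E3 × (List Bool → E3)) : Prop :=
  ∀ p : E3 →L[ℝ] ℝ, p ≠ 0 → p d.1 = 0 → p (d.2 []) = 0 → Gen fun w => p (d.2 w)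

theorem isOpen_G0 : IsOpen {d | G0 d} := by
  refine isOpen_iff_eventually.2 fun d hd => ?_
  have h1 := (isCompact_sphere (0 : E3 →L[ℝ] ℝ) 1).eventually_forall_of_forall_eventually
    (x₀ := d) (P := fun d p => p d.1 = 0 → p (d.2 []) = 0 → Gen fun w => p (d.2 w)) fun p hp => by
      by_cases h1 : p d.1 = 0
      · by_cases h2 : p (d.2 []) = 0
        · have h3 : Continuous fun z : (E3 × (List Bool → E3)) × (E3 →L[ℝ] ℝ) =>
              fun w => z.2 (z.1.2 w) := by fun_prop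
          exact Eventually.mono ((isOpen_gen.preimage h3).mem_nhds (hd p (by
            rintro rfl; simp at hp) h1 h2)) fun _ h _ _ => h
        · exact Eventually.mono ((isOpen_ne_fun (f := fun z : (E3 × (List Bool → E3)) ×
            (E3 →L[ℝ] ℝ) => z.2 (z.1.2 [])) (by fun_prop) continuous_const).mem_nhds h2)
            fun _ h _ h' => absurd h' h
      · exact Eventually.mono ((isOpen_ne_fun (f := fun z : (E3 × (List Bool → E3)) ×
          (E3 →L[ℝ] ℝ) => z.2 z.1.1) (by fun_prop) continuous_const).mem_nhds h1)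
          fun _ h h' => absurd h' h
  refine h1.mono fun d h p hp h1 h2 => ?_
  have hn : ‖p‖ ≠ 0 := norm_ne_zero_iff.2 hp
  exact (h (‖p‖⁻¹ • p) (by simp [norm_smul, hn]) (by simp [h1]) (by simp [h2])).congr
    (d := 1) hn one_ne_zero fun w _ => by simp [hn]

theorem good_iff {X X' : E3 → E3} {q : E3} : Good X X' q ↔
    G0 (X q - X' q, fun w => if w.length ≤ 4 then br X X' w q else 0) :=
  forall₄_congr fun _ _ _ _ =>
    ⟨fun h => h.congr (d := 1) one_ne_zero one_ne_zero fun w hw => by simp [hw],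
      fun h => h.congr (d := 1) one_ne_zero one_ne_zero fun w hw => by simp [hw]⟩

theorem good_eventually {X X' : E3 → E3} {y₀ : E3} (hy : Tendsto y l (𝓝 y₀))
    (h₀ : ContDiffAt ℝ ∞ X y₀) (h₀' : ContDiffAt ℝ ∞ X' y₀)
    (hX : ∀ᶠ a in l, ContDiffAt ℝ ∞ X (y a)) (hX' : ∀ᶠ a in l, ContDiffAt ℝ ∞ X' (y a))
    (h : Ord l y 5 (fun a => Y a - X) u) (h' : Ord l y 5 (fun a => Y' a - X') u)
    (hu : Tendsto u l (𝓝 0)) (hg : Good X X' y₀) : ∀ᶠ a in l, Good (Y a) (Y' a) (y a) := by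
  have key : ∀ {Z : α → E3 → E3} {Z₀ : E3 → E3} {k : ℕ}, ContDiffAt ℝ ∞ Z₀ y₀ →
      Ord l y k (fun a => Z a - Z₀) u → Tendsto (fun a => Z a (y a)) l (𝓝 (Z₀ y₀)) :=
    fun h1 h2 => by simpa using (h2.tendsto hu).add (h1.continuousAt.tendsto.comp hy)
  have hbr : ∀ w, ContDiffAt ℝ ∞ (br X X' w) y₀ := fun w => by
    induction w with
    | nil => exact h₀'.lieBracket_vectorField h₀ le_rfl
    | cons i w ih => cases i <;> exact ContDiffAt.lieBracket_vectorField ‹_› ih le_rfl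
  simp only [good_iff] at hg ⊢
  refine Tendsto.eventually (f := fun a => (Y a (y a) - Y' a (y a),
    fun w : List Bool => if w.length ≤ 4 then br (Y a) (Y' a) w (y a) else 0))
    (((key h₀ h).sub (key h₀' h')).prodMk_nhds (tendsto_pi_nhds.2 fun w => ?_))
    (isOpen_G0.mem_nhds hg)
  split_ifs with hw
  · exact key (hbr w) (ord_br (ord_const hy h₀ hX) (ord_const hy h₀' hX') h h' (hu.isBigO_one ℝ)
      w 0 (by omega)).2
  · exact tendsto_const_nhds

theorem exists_ord (sV : ∀ᶠ a in l, ContDiffAt ℝ ∞ (V a) (y a))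
    (sW : ∀ᶠ a in l, ContDiffAt ℝ ∞ (W a) (y a))
    (hV : ∀ j ≤ k, Tendsto (fun a => ‖iteratedFDeriv ℝ j (V a) (y a)‖) l (𝓝 0))
    (hW : ∀ j ≤ k, Tendsto (fun a => ‖iteratedFDeriv ℝ j (W a) (y a)‖) l (𝓝 0)) :
    ∃ u, Tendsto u l (𝓝 0) ∧ Ord l y k V u ∧ Ord l y k W u := by
  have key : ∀ j ≤ k, ∀ a, ‖iteratedFDeriv ℝ j (V a) (y a)‖ + ‖iteratedFDeriv ℝ j (W a) (y a)‖ ≤
      ‖∑ j ∈ Finset.range (k + 1),
        (‖iteratedFDeriv ℝ j (V a) (y a)‖ + ‖iteratedFDeriv ℝ j (W a) (y a)‖)‖ := fun j hj a =>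
    (Finset.single_le_sum (f := fun j => ‖iteratedFDeriv ℝ j (V a) (y a)‖ +
      ‖iteratedFDeriv ℝ j (W a) (y a)‖) (fun _ _ => by positivity)
      (Finset.mem_range.2 (by omega))).trans (le_abs_self _)
  refine ⟨fun a => ∑ j ∈ Finset.range (k + 1),
    (‖iteratedFDeriv ℝ j (V a) (y a)‖ + ‖iteratedFDeriv ℝ j (W a) (y a)‖), ?_,
    ⟨sV, fun j hj => IsBigO.of_bound' (Eventually.of_forall fun a =>
      (le_add_of_nonneg_right (norm_nonneg _)).trans (key j hj a))⟩,
    ⟨sW, fun j hj => IsBigO.of_bound' (Eventually.of_forall fun a =>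
      (le_add_of_nonneg_left (norm_nonneg _)).trans (key j hj a))⟩⟩
  simpa using tendsto_finsetSum (Finset.range (k + 1)) fun j hj =>
    (hV j (by have := Finset.mem_range.1 hj; omega)).add
      (hW j (by have := Finset.mem_range.1 hj; omega))

end Whit

end Pool.Agent.Lib.MP_f4f7c0_an
end

-- part Pool.Agent.Lib.MP_f4f7c0_an.Whitney
section

/-! The good pairs of vector fields are residual in the Whitney topology. -/

namespace Pool.Agent.Lib.MP_f4f7c0_an

open Set Filter Topology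
open scoped Manifold ContDiff

variable {M : Type*} [TopologicalSpace M] [ChartedSpace E3 M] [IsManifold (𝓡 3) ∞ M]

namespace Whit

theorem rep_add (c : M) (X Y : VF M) : chartRep c (X + Y) = chartRep c X + chartRep c Y :=
  funext fun _ => map_add (mfderiv (𝓡 3) (𝓡 3) (extChartAt (𝓡 3) c) _) _ _

theorem rep_sub (c : M) (X Y : VF M) : chartRep c (X - Y) = chartRep c X - chartRep c Y :=
  funext fun _ => map_sub (mfderiv (𝓡 3) (𝓡 3) (extChartAt (𝓡 3) c) _) _ _

theorem rep_smul (c : M) (t : ℝ) (X : VF M) : chartRep c (t • X) = t • chartRep c X :=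
  funext fun y => (mfderiv (𝓡 3) (𝓡 3) (extChartAt (𝓡 3) c) _).map_smul t
    (X ((extChartAt (𝓡 3) c).symm y))

/-- The expression in a chart as a linear map. -/
noncomputable def repL (c : M) : VF M →ₗ[ℝ] E3 → E3 :=
  ⟨⟨chartRep c, rep_add c⟩, rep_smul c⟩

theorem rep_sum (c : M) {ι : Type*} [Fintype ι] (f : VF M) (θ : ι → ℝ) (L : ι → VF M) :
    chartRep c (f + ∑ i, θ i • L i) = chartRep c f + ∑ i, θ i • chartRep c (L i) := by
  change repL c _ = repL c f + ∑ i, θ i • repL c (L i)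
  simp only [map_add, map_sum, map_smul]

theorem rep_eq {c x : M} (hx : x ∈ (chartAt E3 c).source) (X : VF M) :
    chartRep c X (extChartAt (𝓡 3) c x) =
      (trivializationAt E3 (TangentSpace (𝓡 3)) c ⟨x, X x⟩).2 := by
  have h : (extChartAt (𝓡 3) c).symm (extChartAt (𝓡 3) c x) = x :=
    (extChartAt (𝓡 3) c).left_inv (by simpa using hx)
  unfold chartRep
  rw [h, ← TangentBundle.continuousLinearMapAt_trivializationAt hx]
  exact (trivializationAt E3 (TangentSpace (𝓡 3)) c).continuousLinearMapAt_apply_of_mem ℝ hx _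

theorem contDiffAt_rep' {c : M} {y : E3} (hy : y ∈ (extChartAt (𝓡 3) c).target) (X : VF M) :
    ContDiffAt ℝ ∞ (chartRep c X) y := by
  have h1 := (trivializationAt E3 (TangentSpace (𝓡 3)) c).contMDiffOn_section_baseSet_iff.1
    X.contMDiff.contMDiffOn
  have h0 : ∀ z ∈ (extChartAt (𝓡 3) c).target,
      (extChartAt (𝓡 3) c).symm z ∈ (chartAt E3 c).source := fun z hz => by
    simpa using (extChartAt (𝓡 3) c).map_target hz
  have h2 := (h1.comp (contMDiffOn_extChartAt_symm c) h0).contDiffOn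
  refine (h2.congr fun z hz => ?_).contDiffAt ((isOpen_extChartAt_target c).mem_nhds hy)
  conv_lhs => rw [← (extChartAt (𝓡 3) c).right_inv hz]
  exact rep_eq (h0 z hz) X

theorem contDiffAt_rep {c x : M} (hx : x ∈ (chartAt E3 c).source) (X : VF M) :
    ContDiffAt ℝ ∞ (chartRep c X) (extChartAt (𝓡 3) c x) :=
  contDiffAt_rep' ((extChartAt (𝓡 3) c).map_source (by simpa using hx)) X

/-- The derivative of order `j` in a chart as a linear map. -/
noncomputable def jetL {c x : M} (hx : x ∈ (chartAt E3 c).source) (j : ℕ) :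
    VF M →ₗ[ℝ] (E3 [×j]→L[ℝ] E3) where
  toFun X := iteratedFDeriv ℝ j (chartRep c X) (extChartAt (𝓡 3) c x)
  map_add' X Y := by
    rw [rep_add, iteratedFDeriv_add_apply ((contDiffAt_rep hx X).of_le (le_infty j))
      ((contDiffAt_rep hx Y).of_le (le_infty j))]
  map_smul' t X := by
    rw [rep_smul, iteratedFDeriv_const_smul_apply ((contDiffAt_rep hx X).of_le (le_infty j))]
    rfl

omit [IsManifold (𝓡 3) ∞ M] in
/-- transport of an eventual property through a chart -/
theorem eventually_chart {c x : M} (hx : x ∈ (chartAt E3 c).source) {P : E3 → Prop}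
    (h : ∀ᶠ z in 𝓝 x, P (extChartAt (𝓡 3) c z)) : ∀ᶠ y in 𝓝 (extChartAt (𝓡 3) c x), P y := by
  have h1 := map_extChartAt_nhds' (I := 𝓡 3) (x := c) (y := x) (by simpa using hx)
  rw [ModelWithCorners.range_eq_univ, nhdsWithin_univ] at h1
  rw [← h1]
  exact h

theorem exists_K [T2Space M] (c : M) : ∃ K S : Set M, IsCompact K ∧ K ∈ 𝓝 c ∧
    K ⊆ (chartAt E3 c).source ∧ IsCompact S ∧
    (∀ A : E3 → E3, ContDiff ℝ ∞ A → ∃ L : VF M, (∀ x ∉ S, L x = 0) ∧
      ∀ x ∈ K, chartRep c L =ᶠ[𝓝 (extChartAt (𝓡 3) c x)] A) ∧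
    ∀ X : VF M, ∃ A, ContDiff ℝ ∞ A ∧ ∀ x ∈ K, chartRep c X =ᶠ[𝓝 (extChartAt (𝓡 3) c x)] A := by
  obtain ⟨χ⟩ : Nonempty (SmoothBumpFunction (𝓡 3) c) := inferInstance
  have : LocallyCompactSpace M := Manifold.locallyCompact_of_finiteDimensional (𝓡 3)
  obtain ⟨K, hK, hKs, hKc⟩ := local_compact_nhds (inter_mem (chart_source_mem_nhds E3 c)
    ((continuousAt_extChartAt (I := 𝓡 3) c).preimage_mem_nhds (Metric.ball_mem_nhds _ χ.rIn_pos)))
  refine ⟨K, tsupport χ, hKc, hK, fun x hx => (hKs hx).1, χ.hasCompactSupport, fun A hA => ?_,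
    fun X => ⟨fun y => χ.toContDiffBump y • chartRep c X y, ?_, fun x hx => ?_⟩⟩
  · let e := trivializationAt E3 (TangentSpace (𝓡 3) : M → Type) c
    have h1 : ContMDiffOn (𝓡 3) ((𝓡 3).prod 𝓘(ℝ, E3)) ∞ (fun x => Bundle.TotalSpace.mk' E3 x
        (e.symm x (A (extChartAt (𝓡 3) c x)))) e.baseSet :=
      e.contMDiffOn_section_baseSet_iff.2 ((hA.contMDiff.comp_contMDiffOn
        contMDiffOn_extChartAt).congr fun x hx => congrArg Prod.snd (e.apply_mk_symm hx _))
    refine ⟨⟨_, χ.contMDiff.contMDiffOn.smul_section_of_tsupport e.open_baseSet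
      χ.tsupport_subset_chartAt_source h1⟩, fun x hx => ?_, fun x hx => ?_⟩
    · change χ x • e.symm x (A (extChartAt (𝓡 3) c x)) = _
      rw [image_eq_zero_of_notMem_tsupport hx, zero_smul]
    · refine eventually_chart (hKs hx).1 ?_
      filter_upwards [χ.eventuallyEq_one_of_dist_lt (hKs hx).1 (hKs hx).2,
        (chartAt E3 c).open_source.mem_nhds (hKs hx).1] with z h2 hz
      rw [rep_eq hz]
      change (e ⟨z, χ z • e.symm z (A (extChartAt (𝓡 3) c z))⟩).2 = _
      rw [h2, Pi.one_apply, one_smul]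
      exact congrArg Prod.snd (e.apply_mk_symm hz _)
  · refine contDiff_iff_contDiffAt.2 fun y => ?_
    by_cases hy : y ∈ tsupport χ.toContDiffBump
    · rw [ContDiffBump.tsupport_eq] at hy
      exact χ.toContDiffBump.contDiff.contDiffAt.smul
        (contDiffAt_rep' (χ.closedBall_subset ⟨hy, mem_range_self y⟩) X)
    · refine (contDiffAt_const (c := 0)).congr_of_eventuallyEq ?_
      filter_upwards [notMem_tsupport_iff_eventuallyEq.1 hy] with z hz
      rw [hz, Pi.zero_apply, zero_smul]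
  · filter_upwards [χ.toContDiffBump.eventuallyEq_one_of_mem_ball (hKs hx).2] with z hz
    rw [hz, Pi.one_apply, one_smul]

theorem eventually_close (X : VF M) (k : ℕ) {c : M} {K : Set M} (hK : IsCompact K)
    (hs : K ⊆ (chartAt E3 c).source) {ε : ℝ} (hε : 0 < ε) :
    letI := whitneyTop M
    ∀ᶠ Y in 𝓝 X, ∀ x ∈ K, ∀ j ≤ k,
      ‖iteratedFDeriv ℝ j (chartRep c Y - chartRep c X) (extChartAt (𝓡 3) c x)‖ < ε := by
  let _ := whitneyTop M
  have h : IsOpen (whitneyNbhd X k (fun _ => c) (fun i => if i = 0 then K else ∅) fun _ => ε) := by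
    refine TopologicalSpace.isOpen_generateFrom_of_mem ⟨X, k, _, _, _, fun i => ?_, fun i => ?_,
      fun x => ⟨univ, univ_mem, (finite_singleton 0).subset fun i hi => ?_⟩, fun _ => hε, rfl⟩
    · split_ifs
      exacts [hK, isCompact_empty]
    · split_ifs
      exacts [hs, empty_subset _]
    · by_contra h
      simp [show i ≠ 0 from h] at hi
  refine Eventually.mono (h.mem_nhds fun i x _ j _ => ?_) fun Y hY x hx => hY 0 x hx
  rw [sub_self]
  simpa using hε

theorem isOpen_good {c : M} {K : Set M} (hK : IsCompact K) (hs : K ⊆ (chartAt E3 c).source) :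
    letI := whitneyTop M
    IsOpen {fg : VF M × VF M | ∀ x ∈ K,
      Good (chartRep c (fg.1 + fg.2)) (chartRep c (fg.1 - fg.2)) (extChartAt (𝓡 3) c x)} := by
  let _ := whitneyTop M
  refine isOpen_iff_eventually.2 fun fg hfg => ?_
  refine (hK.eventually_forall_of_forall_eventually (P := fun (fg : VF M × VF M) x => x ∈ K →
    Good (chartRep c (fg.1 + fg.2)) (chartRep c (fg.1 - fg.2)) (extChartAt (𝓡 3) c x))
    fun x hx => eventually_inf_principal.1 ?_).mono fun _ h x hx => h x hx hx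
  have hl : ∀ᶠ a in 𝓝 (fg, x) ⊓ 𝓟 {a : (VF M × VF M) × M | a.2 ∈ K},
      a.2 ∈ (chartAt E3 c).source := eventually_inf_principal.2 (.of_forall fun _ h => hs h)
  have key : ∀ π : VF M × VF M → VF M, Continuous π → ∀ j ≤ 5,
      Tendsto (fun a : (VF M × VF M) × M => ‖iteratedFDeriv ℝ j
        (chartRep c (π a.1) - chartRep c (π fg)) (extChartAt (𝓡 3) c a.2)‖)
        (𝓝 (fg, x) ⊓ 𝓟 {a | a.2 ∈ K}) (𝓝 0) := fun π hπ j hj =>
    tendsto_order.2 ⟨fun _ h => .of_forall fun _ => h.trans_le (norm_nonneg _), fun ε hε =>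
      eventually_inf_principal.2 (((hπ.comp continuous_fst).tendsto (fg, x)).eventually
        (eventually_close (π fg) 5 hK hs hε) |>.mono fun a h ha => h _ ha j hj)⟩
  obtain ⟨u, hu, h1, h2⟩ := exists_ord
    (hl.mono fun a ha => (contDiffAt_rep ha _).sub (contDiffAt_rep ha _))
    (hl.mono fun a ha => (contDiffAt_rep ha _).sub (contDiffAt_rep ha _))
    (key _ continuous_fst) (key _ continuous_snd)
  refine good_eventually (((continuousAt_extChartAt' (by simpa using hs hx)).tendsto.comp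
    continuousAt_snd).mono_left inf_le_left) (contDiffAt_rep (hs hx) _) (contDiffAt_rep (hs hx) _)
    (hl.mono fun a ha => contDiffAt_rep ha _) (hl.mono fun a ha => contDiffAt_rep ha _)
    ?_ ?_ hu (hfg x hx)
  · simp only [rep_add, add_sub_add_comm]
    exact h1.add h2
  · simp only [rep_sub, sub_sub_sub_comm (chartRep c _) (chartRep c _) (chartRep c fg.1)]
    exact h1.sub h2

theorem continuous_family [T2Space M] {ι : Type} [Fintype ι] (f : VF M) (L : ι → VF M) {S : Set M}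
    (hS : IsCompact S) (hL : ∀ i, ∀ x ∉ S, L i x = 0) :
    letI := whitneyTop M
    Continuous fun θ : ι → ℝ => f + ∑ i, θ i • L i := by
  refine continuous_generateFrom_iff.2 ?_
  rintro _ ⟨X, k, c, K, ε, hK, hs, hlf, -, rfl⟩
  have e : ∀ (θ : ι → ℝ) (c x : M), x ∈ (chartAt E3 c).source → ∀ j, iteratedFDeriv ℝ j
      (chartRep c (f + ∑ i, θ i • L i) - chartRep c X) (extChartAt (𝓡 3) c x) =
      iteratedFDeriv ℝ j (chartRep c (f - X)) (extChartAt (𝓡 3) c x) +
        ∑ i, θ i • iteratedFDeriv ℝ j (chartRep c (L i)) (extChartAt (𝓡 3) c x) := by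
    intro θ c x hx j
    rw [← rep_sub, add_sub_right_comm]
    change jetL hx j _ = jetL hx j _ + ∑ i, θ i • jetL hx j _
    simp only [map_add, map_sum, map_smul]
  refine isOpen_iff_eventually.2 fun θ hθ => ?_
  have h1 : ∀ᶠ θ' in 𝓝 θ, ∀ n ∈ {n | (K n ∩ S).Nonempty}, ∀ x ∈ K n, ∀ j ∈ Iic k,
      ‖iteratedFDeriv ℝ j (chartRep (c n) (f - X)) (extChartAt (𝓡 3) (c n) x) + ∑ i, θ' i •
        iteratedFDeriv ℝ j (chartRep (c n) (L i)) (extChartAt (𝓡 3) (c n) x)‖ < ε n := by
    refine (eventually_all_finite (hlf.finite_nonempty_inter_compact hS)).2 fun n _ =>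
      (hK n).eventually_forall_of_forall_eventually fun x hx =>
        (eventually_all_finite (finite_Iic k)).2 fun j hj => ?_
    have h2 : ∀ Y : VF M, ContinuousAt (fun z : (ι → ℝ) × M => iteratedFDeriv ℝ j
        (chartRep (c n) Y) (extChartAt (𝓡 3) (c n) z.2)) (θ, x) := fun Y =>
      ContinuousAt.comp (x := (θ, x)) ((contDiffAt_rep (hs n hx) Y).continuousAt_iteratedFDeriv
        (le_infty j)) (ContinuousAt.comp (x := (θ, x))
          (continuousAt_extChartAt' (by simpa using hs n hx)) continuousAt_snd)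
    have h3 := hθ n x hx j hj
    rw [e θ _ _ (hs n hx)] at h3
    exact (((h2 (f - X)).tendsto.add (tendsto_finsetSum Finset.univ fun i _ =>
      (((continuous_apply i).comp continuous_fst).tendsto (θ, x)).smul
        (h2 (L i)).tendsto)).norm).eventually_lt_const h3
  refine h1.mono fun θ' h n x hx j hj => ?_
  rw [e θ' _ _ (hs n hx)]
  by_cases hx' : x ∈ S
  · exact h n ⟨x, hx, hx'⟩ x hx j hj
  · have h2 : ∀ i, iteratedFDeriv ℝ j (chartRep (c n) (L i)) (extChartAt (𝓡 3) (c n) x) = 0 := by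
      intro i
      have h3 : chartRep (c n) (L i) =ᶠ[𝓝 (extChartAt (𝓡 3) (c n) x)] fun _ => 0 := by
        refine eventually_chart (hs n hx) ?_
        filter_upwards [hS.isClosed.isOpen_compl.mem_nhds hx',
          (chartAt E3 (c n)).open_source.mem_nhds (hs n hx)] with z h4 hz
        unfold chartRep
        rw [(extChartAt (𝓡 3) (c n)).left_inv (by simpa using hz), hL i z h4, map_zero]
        rfl
      rw [(h3.iteratedFDeriv ℝ j).eq_of_nhds]
      simp
    have h3 := hθ n x hx j hj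
    rw [e θ _ _ (hs n hx)] at h3
    simpa only [h2, smul_zero] using h3

end Whit

open Whit in
theorem residual_goodM [T2Space M] [SecondCountableTopology M] (H : DenseGood) :
    letI := whitneyTop M
    ∀ᶠ fg in residual (VF M × VF M), GoodM fg.1 fg.2 := by
  let _ := whitneyTop M
  obtain ⟨ι, _, A, A', hA, H⟩ := H
  choose K S hK hn hs hS hL hX using exists_K (M := M)
  obtain ⟨T, hT, hTK⟩ := TopologicalSpace.countable_cover_nhds hn
  refine Eventually.mono ((eventually_countable_ball hT).2 fun c _ =>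
    residual_of_dense_open (isOpen_good (hK c) (hs c)) fun fg => ?_) fun fg h x => ?_
  · choose U hU hU' using fun i => hL c (A i) (hA i).1
    choose U' hV hV' using fun i => hL c (A' i) (hA i).2
    obtain ⟨X, hX1, hX2⟩ := hX c (fg.1 + fg.2)
    obtain ⟨X', hX1', hX2'⟩ := hX c (fg.1 - fg.2)
    have h1 := (continuous_family fg.1 (fun i => (1 / 2 : ℝ) • (U i + U' i)) (hS c)
      fun i x hx => by simp [hU i x hx, hV i x hx]).prodMk
      (continuous_family fg.2 (fun i => (1 / 2 : ℝ) • (U i - U' i)) (hS c)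
        fun i x hx => by simp [hU i x hx, hV i x hx])
    have h2 := map_mem_closure h1 (H X X' hX1 hX1' 0) (t := {fg : VF M × VF M | ∀ x ∈ K c,
      Good (chartRep c (fg.1 + fg.2)) (chartRep c (fg.1 - fg.2)) (extChartAt (𝓡 3) c x)})
      fun θ hθ x hx => (hθ _).congr ?_ ?_
    · simpa using h2
    · have e : (fg.1 + ∑ i, θ i • (1 / 2 : ℝ) • (U i + U' i)) +
          (fg.2 + ∑ i, θ i • (1 / 2 : ℝ) • (U i - U' i)) = fg.1 + fg.2 + ∑ i, θ i • U i := by
        rw [add_add_add_comm, ← Finset.sum_add_distrib]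
        congr 1
        exact Finset.sum_congr rfl fun i _ => by module
      simp only [e, rep_sum]
      filter_upwards [hX2 x hx, eventually_all.2 fun i => hU' i x hx] with z h3 h4
      simp [h3, h4]
    · have e : (fg.1 + ∑ i, θ i • (1 / 2 : ℝ) • (U i + U' i)) -
          (fg.2 + ∑ i, θ i • (1 / 2 : ℝ) • (U i - U' i)) = fg.1 - fg.2 + ∑ i, θ i • U' i := by
        rw [add_sub_add_comm, ← Finset.sum_sub_distrib]
        congr 1
        exact Finset.sum_congr rfl fun i _ => by module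
      simp only [e, rep_sum]
      filter_upwards [hX2' x hx, eventually_all.2 fun i => hV' i x hx] with z h3 h4
      simp [h3, h4]
  · obtain ⟨c, hc, hx⟩ := mem_iUnion₂.1 (hTK.ge (mem_univ x))
    exact ⟨c, hs c hx, h c hc x hx⟩

end Pool.Agent.Lib.MP_f4f7c0_an
end

-- part Pool.Agent.Lib.MP_f4f7c0_an.Glue
section

/-! From local smoothness in charts to finitely many switching times. -/

namespace Pool.Agent.Lib.MP_f4f7c0_an

open Set Filter Topology MeasureTheory
open scoped Manifold ContDiff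

variable {M : Type*} [TopologicalSpace M] [ChartedSpace E3 M] [IsManifold (𝓡 3) ∞ M]

namespace Glue

theorem contDiffOn_chartRep (c : M) (X : VF M) :
    ContDiffOn ℝ ∞ (chartRep c X) (extChartAt (𝓡 3) c).target := by
  have h1 := ((trivializationAt E3 (TangentSpace (𝓡 3)) c).contMDiffOn_section_baseSet_iff
    (IB := 𝓡 3) (n := ∞) (s := X)).1 X.contMDiff.contMDiffOn
  have hm : MapsTo (extChartAt (𝓡 3) c).symm (extChartAt (𝓡 3) c).target (chartAt E3 c).source :=
    fun y hy => by simpa only [extChartAt_source] using (extChartAt (𝓡 3) c).map_target hy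
  have h2 := h1.comp (contMDiffOn_extChartAt_symm (I := 𝓡 3) (n := ∞) c) hm
  refine contMDiffOn_iff_contDiffOn.1 (h2.congr fun y hy => ?_)
  rw [chartRep, ← TangentBundle.continuousLinearMapAt_trivializationAt (hm hy)]
  exact Bundle.Trivialization.continuousLinearMapAt_apply_of_mem _ _ (hm hy) _

theorem contDiffAt_change (c d : M) {x : M} (hc : x ∈ (chartAt E3 c).source)
    (hd : x ∈ (chartAt E3 d).source) :
    ContDiffAt ℝ 1 (extChartAt (𝓡 3) d ∘ (extChartAt (𝓡 3) c).symm) (extChartAt (𝓡 3) c x) := by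
  have hc' : x ∈ (extChartAt (𝓡 3) c).source := by rwa [extChartAt_source]
  have h1 := (contMDiffOn_extChartAt_symm (I := 𝓡 3) (n := 1) c).contMDiffAt
    ((isOpen_extChartAt_target c).mem_nhds ((extChartAt (𝓡 3) c).map_source hc'))
  have h2 : ContMDiffAt (𝓡 3) (𝓡 3) 1 (extChartAt (𝓡 3) d)
      ((extChartAt (𝓡 3) c).symm (extChartAt (𝓡 3) c x)) :=
    contMDiffAt_extChartAt' (by rwa [(extChartAt (𝓡 3) c).left_inv hc'])
  exact contMDiffAt_iff_contDiffAt.1 (h2.comp _ h1)

theorem HD.chart {q : ℝ → M} {t : ℝ} {v : E3} (h : HD q t v) {c : M}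
    (hc : q t ∈ (chartAt E3 c).source) :
    HasDerivAt (fun τ => extChartAt (𝓡 3) c (q τ))
      (mfderiv (𝓡 3) (𝓡 3) (extChartAt (𝓡 3) c) (q t) v) t := by
  have h1 := HasMFDerivAt.comp t (mdifferentiableAt_extChartAt (I := 𝓡 3) hc).hasMFDerivAt h
  have h2 : HasFDerivAt (𝕜 := ℝ) (E := ℝ) (F := E3) _ _ _ := hasMFDerivAt_iff_hasFDerivAt.1 h1
  refine h2.hasDerivAt.congr_deriv ?_
  exact congrArg (mfderiv (𝓡 3) (𝓡 3) (extChartAt (𝓡 3) c) (q t))
    (by simp : ContinuousLinearMap.toSpanSingleton ℝ v 1 = v)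

theorem HD.lift {Q : ℝ → E3} {t : ℝ} {v : E3} {c : M} (hc : Q t ∈ (extChartAt (𝓡 3) c).target)
    (h : HasDerivAt Q (mfderiv (𝓡 3) (𝓡 3) (extChartAt (𝓡 3) c)
      ((extChartAt (𝓡 3) c).symm (Q t)) v) t) :
    HD (fun τ => (extChartAt (𝓡 3) c).symm (Q τ)) t v := by
  have h1 := ((contMDiffOn_extChartAt_symm (I := 𝓡 3) (n := 1) c).contMDiffAt
    ((isOpen_extChartAt_target c).mem_nhds hc)).mdifferentiableAt one_ne_zero
  have h2 := HasMFDerivAt.comp t h1.hasMFDerivAt h.hasFDerivAt.hasMFDerivAt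
  refine h2.congr_mfderiv ?_
  have h3 := mfderivWithin_extChartAt_symm_comp_mfderiv_extChartAt (I := 𝓡 3) hc
  rw [ModelWithCorners.Boundaryless.range_eq_univ, mfderivWithin_univ] at h3
  ext
  have h4 := congrArg (fun L => L v) h3
  have h5 : ∀ w : E3, ContinuousLinearMap.toSpanSingleton ℝ w 1 = w := fun w => by simp
  exact (congrArg _ (h5 _)).trans (h4.trans (h5 v).symm)

theorem rep_vel (f g : VF M) (c : M) (m : ℝ) (y : E3) :
    m • chartRep c (f + g) y + (1 - m) • chartRep c (f - g) y =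
      mfderiv (𝓡 3) (𝓡 3) (extChartAt (𝓡 3) c) ((extChartAt (𝓡 3) c).symm y)
        (vel f g (2 * m - 1) ((extChartAt (𝓡 3) c).symm y)) := by
  have : ∀ (L : E3 →L[ℝ] E3) (a b : E3),
      m • L (a + b) + (1 - m) • L (a - b) = L (a + (2 * m - 1) • b) := fun L a b => by
    simp only [map_add, map_sub, map_smul]
    module
  exact this _ _ _

variable {f g : VF M} {q : ℝ → M} {T : ℝ}

theorem goodM_neg (hg : GoodM f g) : GoodM (-f) (-g) := by
  intro x
  obtain ⟨c, hc, h⟩ := hg x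
  have e : ∀ X Y : VF M, Y = -X → chartRep c Y = -chartRep c X := by
    rintro X _ rfl
    funext y
    exact map_neg _ _
  exact ⟨c, hc, by
    rw [e (f + g) (-f + -g) (by abel), e (f - g) (-f - -g) (by abel)]; exact h.neg⟩

theorem contDiff_cut {y₀ : E3} (χ : ContDiffBump y₀) {V : E3 → E3} {O : Set E3} (hO : IsOpen O)
    (hV : ContDiffOn ℝ ∞ V O) (hsub : Metric.closedBall y₀ χ.rOut ⊆ O) :
    ContDiff ℝ ∞ fun y => χ y • V y := by
  refine contDiff_iff_contDiffAt.2 fun y => ?_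
  by_cases hy : y ∈ O
  · exact χ.contDiffAt.smul (hV.contDiffAt (hO.mem_nhds hy))
  · refine (contDiffAt_const (c := (0 : E3))).congr_of_eventuallyEq ?_
    filter_upwards [Metric.isClosed_closedBall.isOpen_compl.mem_nhds fun h => hy (hsub h)] with z hz
    rw [χ.zero_of_le_dist (le_of_lt (by simpa using hz)), zero_smul]

theorem right_smooth (H : LocalSmooth) (hg : GoodM f g) (h : TimeOptimal f g q T) (hT : 0 < T) :
    ∃ ε > 0, ContMDiffOn 𝓘(ℝ, ℝ) (𝓡 3) ∞ q (Ioo 0 ε) := by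
  obtain ⟨u, hu⟩ := h.1
  obtain ⟨c, hc, hgood⟩ := hg (q 0)
  set φ := extChartAt (𝓡 3) c with hφ
  have hsrc : φ.source = (chartAt E3 c).source := extChartAt_source _ _
  have hop : IsOpen φ.target := isOpen_extChartAt_target c
  obtain ⟨r, hr, hball⟩ := Metric.nhds_basis_closedBall.mem_iff.1
    (hop.mem_nhds (φ.map_source (hsrc ▸ hc)))
  let χ : ContDiffBump (φ (q 0)) := ⟨r / 2, r, by linarith, by linarith⟩
  set U := Metric.ball (φ (q 0)) (r / 2) with hU
  have hUn : U ∈ 𝓝 (φ (q 0)) := Metric.ball_mem_nhds _ (by linarith)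
  have hUt : U ⊆ φ.target :=
    (Metric.ball_subset_closedBall.trans (Metric.closedBall_subset_closedBall (by linarith))).trans
      hball
  have hχ : ∀ y ∈ U, χ y = 1 := fun y hy => χ.one_of_mem_closedBall (Metric.ball_subset_closedBall hy)
  set X : E3 → E3 := fun y => χ y • chartRep c (f + g) y with hX
  set X' : E3 → E3 := fun y => χ y • chartRep c (f - g) y with hX'
  have hv : ∀ y ∈ U, ∀ m : ℝ, m • X y + (1 - m) • X' y =
      mfderiv (𝓡 3) (𝓡 3) φ (φ.symm y) (vel f g (2 * m - 1) (φ.symm y)) := fun y hy m => by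
    simp only [hX, hX', hχ y hy, one_smul]
    exact rep_vel f g c m y
  have h0 : (0 : ℝ) ∈ Icc 0 T := left_mem_Icc.2 hT.le
  have hq0 : ContinuousWithinAt q (Icc 0 T) 0 := hu.cont 0 h0
  obtain ⟨C, s, hs, hC⟩ := hu.lip 0 h0
  obtain ⟨K, V, hV, hK⟩ := (contDiffAt_change (q 0) c (mem_chart_source E3 _) hc).exists_lipschitzOnWith
  have ev : ∀ᶠ t in 𝓝[Icc 0 T] 0, t ∈ s ∧ q t ∈ φ.source ∧ φ (q t) ∈ U ∧
      q t ∈ (extChartAt (𝓡 3) (q 0)).source ∧ extChartAt (𝓡 3) (q 0) (q t) ∈ V := by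
    filter_upwards [hs, hq0 ((isOpen_extChartAt_source c).mem_nhds (hsrc ▸ hc)),
      ((continuousAt_extChartAt' (hsrc ▸ hc)).comp_continuousWithinAt hq0) hUn,
      hq0 (extChartAt_source_mem_nhds (I := 𝓡 3) (q 0)),
      ((continuousAt_extChartAt (I := 𝓡 3) (q 0)).comp_continuousWithinAt hq0) hV]
      with t a1 a2 a3 a4 a5 using ⟨a1, a2, a3, a4, a5⟩
  rw [nhdsWithin_Icc_eq_nhdsGE hT] at ev
  obtain ⟨δ, hδ, hsub⟩ := mem_nhdsGE_iff_exists_Icc_subset.1 (ev.and (Icc_mem_nhdsGE hT))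
  have hδT : δ ≤ T := (hsub (right_mem_Icc.2 hδ.le)).2.2
  have htraj : Traj X X' (fun t => (1 + u t) / 2) (fun t => φ (q t)) δ := by
    refine ⟨hδ.le, (measurable_const.add hu.meas).div_const _,
      fun t => by linarith [(abs_le.1 (hu.bound t)).1],
      fun t => by linarith [(abs_le.1 (hu.bound t)).2], ⟨K * C, fun x hx y hy => ?_⟩, ?_⟩
    · have := (hK.comp (hC.mono (t := s) (s := Icc 0 δ) fun t ht => (hsub ht).1.1)
        fun t ht => (hsub ht).1.2.2.2.2) hx hy
      simpa only [Function.comp, (extChartAt (𝓡 3) (q 0)).left_inv (hsub hx).1.2.2.2.1,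
        (extChartAt (𝓡 3) (q 0)).left_inv (hsub hy).1.2.2.2.1] using this
    · filter_upwards [hu.ode] with t h1 ht
      have h2 := (hsub (Ioo_subset_Icc_self ht)).1
      have h3 : HD q t (vel f g (u t) (q t)) := h1 ⟨ht.1, ht.2.trans_le hδT⟩
      rw [hv _ h2.2.2.1, φ.left_inv h2.2.1, show 2 * ((1 + u t) / 2) - 1 = u t by ring]
      exact h3.chart (hsrc ▸ h2.2.1)
  have hopt : LocOpt X X' U (fun t => φ (q t)) δ := by
    intro s hs m' Q T' h' hQ e0 e1
    obtain ⟨D, hD⟩ := h'.lip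
    refine (opt_init h ⟨hs.1, hs.2.trans hδT⟩).2 (fun t => 2 * m' t - 1)
      (fun t => φ.symm (Q t)) T' ⟨h'.nonneg, (h'.meas.const_mul _).sub_const _,
        fun t => abs_le.2 ⟨by linarith [h'.m0 t], by linarith [h'.m1 t]⟩,
        (continuousOn_extChartAt_symm c).comp hD.continuousOn (hQ.mono_right hUt),
        fun t ht => ?_, ?_⟩ ?_ ?_
    · have h1 := hUt (hQ ht)
      have h2 := contDiffAt_change c (φ.symm (Q t)) (hsrc ▸ φ.map_target h1) (mem_chart_source E3 _)
      rw [φ.right_inv h1] at h2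
      obtain ⟨L, W, hW, hL⟩ := h2.exists_lipschitzOnWith
      exact ⟨L * D, Icc 0 T' ∩ Q ⁻¹' W, inter_mem self_mem_nhdsWithin (hD.continuousOn t ht hW),
        hL.comp (hD.mono inter_subset_left) fun _ h => h.2⟩
    · filter_upwards [h'.ode] with t h1 ht
      have h2 := hQ (Ioo_subset_Icc_self ht)
      exact HD.lift (hUt h2) (hv _ h2 _ ▸ h1 ht)
    · simp only [e0]
      exact φ.left_inv (hsrc ▸ hc)
    · simp only [e1]
      exact φ.left_inv (hsub hs).1.2.1
  obtain ⟨ε, hε, hsm⟩ := H X X' (contDiff_cut χ hop (contDiffOn_chartRep c _) hball)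
    (contDiff_cut χ hop (contDiffOn_chartRep c _) hball) _ _ δ hδ htraj U hUn hopt
    (hgood.congr (by filter_upwards [hUn] with y hy using by simp [hX, hχ y hy])
      (by filter_upwards [hUn] with y hy using by simp [hX', hχ y hy]))
  have hsub' : Ioo 0 (min ε δ) ⊆ Icc 0 δ :=
    Ioo_subset_Icc_self.trans (Icc_subset_Icc_right (min_le_right _ _))
  refine ⟨min ε δ, lt_min hε hδ, ?_⟩
  refine ((contMDiffOn_extChartAt_symm (I := 𝓡 3) (n := ∞) c).comp
    (hsm.mono (Ioo_subset_Ioo_right (min_le_left _ _))).contMDiffOn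
    fun t ht => hUt (hsub (hsub' ht)).1.2.2.1).congr fun t ht => ?_
  exact (φ.left_inv (hsub (hsub' ht)).1.2.1).symm

omit [IsManifold (𝓡 3) ∞ M] in
theorem not_switch {a b : ℝ} (h : ContMDiffOn 𝓘(ℝ, ℝ) (𝓡 3) ∞ q (Ioo a b)) {t : ℝ}
    (ht : t ∈ Ioo a b) : t ∉ switchingTimes q T := fun h' =>
  h'.2 ⟨_, mem_nhdsWithin_of_mem_nhds (Ioo_mem_nhds ht.1 ht.2), h⟩

end Glue

open Glue in
/-- A time-optimal trajectory of a good pair has finitely many switching times. -/
theorem finite_switching (H : LocalSmooth) {f g : VF M} (hg : GoodM f g) {q : ℝ → M} {T : ℝ}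
    (h : TimeOptimal f g q T) : (switchingTimes q T).Finite := by
  have key : ∀ t ∈ Icc 0 T, ∀ᶠ τ in 𝓝 t, τ ∈ switchingTimes q T → τ = t := by
    intro t ht
    have hr : ∀ᶠ τ in 𝓝[>] t, τ ∉ switchingTimes q T := by
      rcases ht.2.eq_or_lt with rfl | h1
      · filter_upwards [self_mem_nhdsWithin] with τ hτ h' using absurd h'.1.2 (not_le.2 hτ)
      · obtain ⟨ε, hε, h2⟩ := right_smooth H hg (opt_shift h ht) (sub_pos.2 h1)
        have h3 : ContMDiffOn 𝓘(ℝ, ℝ) (𝓡 3) ∞ q (Ioo t (t + ε)) :=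
          (h2.comp (f := fun τ => τ - t) (contDiff_id.sub contDiff_const).contMDiff.contMDiffOn
            fun τ hτ => ⟨by linarith [hτ.1], by linarith [hτ.2]⟩).congr fun τ _ => by simp
        filter_upwards [Ioo_mem_nhdsGT (lt_add_of_pos_right t hε)] with τ hτ using not_switch h3 hτ
    have hl : ∀ᶠ τ in 𝓝[<] t, τ ∉ switchingTimes q T := by
      rcases ht.1.eq_or_lt with rfl | h1
      · filter_upwards [self_mem_nhdsWithin] with τ hτ h' using absurd h'.1.1 (not_le.2 hτ)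
      · obtain ⟨ε, hε, h2⟩ := right_smooth H (goodM_neg hg) (opt_rev (opt_init h ht)) h1
        have h3 : ContMDiffOn 𝓘(ℝ, ℝ) (𝓡 3) ∞ q (Ioo (t - ε) t) :=
          (h2.comp (f := fun τ => t - τ) (contDiff_const.sub contDiff_id).contMDiff.contMDiffOn
            fun τ hτ => ⟨by linarith [hτ.2], by linarith [hτ.1]⟩).congr fun τ _ => by simp
        filter_upwards [Ioo_mem_nhdsLT (sub_lt_self t hε)] with τ hτ using not_switch h3 hτ
    have h4 : ∀ᶠ τ in 𝓝[≠] t, τ ∉ switchingTimes q T := by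
      rw [← nhdsLT_sup_nhdsGT]
      exact ⟨hl, hr⟩
    filter_upwards [eventually_nhdsWithin_iff.1 h4] with τ h5 h6
    by_contra h7
    exact h5 h7 h6
  choose! U hU using fun t (ht : t ∈ Icc 0 T) => (⟨_, key t ht, fun _ h => h⟩ :
    ∃ U ∈ 𝓝 t, ∀ τ ∈ U, τ ∈ switchingTimes q T → τ = t)
  obtain ⟨S, hS, hcov⟩ := isCompact_Icc.elim_nhds_subcover U fun t ht => (hU t ht).1
  refine S.finite_toSet.subset fun τ hτ => ?_
  obtain ⟨t, ht, h1⟩ := mem_iUnion₂.1 (hcov hτ.1)
  rw [(hU t (hS t ht)).2 τ h1 hτ]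
  exact ht

end Pool.Agent.Lib.MP_f4f7c0_an
end
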