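import Mathlib
import Pool.Agent.Lib.MP_f4f7c0_an.Defs

-- part Pool.Agent.Lib.MP_f4f7c0_an.HIneq
section

/-! Pointwise inequalities for the Lyapunov function. -/

namespace Pool.Agent.Lib.MP_f4f7c0_an

theorem ineqP {α Y π κ σ r ε w η s1 s2 s4 U : ℝ} (hα : 0 < α) (Y0 : 0 ≤ Y) (Y5 : Y ≤ 5) (π0 : 0 ≤ π)
    (hπ : α ^ 2 * π ≤ 2 * Y ^ 2) (κ0 : α / 2 ≤ κ) (κ1 : κ ≤ 2 * α) (hσ : α / 2 ≤ σ) (hr : 0 < r)
    (hε : 0 < ε) (w0 : 0 ≤ w) (w1 : 25 * w ≤ 1) (h1 : |s1| ≤ η * r) (h2 : |s2| ≤ η * r)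
    (h4 : |s4| ≤ η * r) (hη : η * (150 + 96 / α + 5 * ε) ≤ ε * α / 2)
    (hU : U = (Y - 2) ^ 2 * (Y + 1) + 6 * α * (κ * π)) :
    (-s1 * (3 * Y * (2 - Y) ^ 2 + 18 * α * κ * π) + 6 * α * s2 * π) * (1 + w * Y ^ 2)
      + ε * U * (s4 * Y ^ 2 - 2 * r * Y * σ) ≤ -(ε * α / 2) * (r * Y * U) := by
  have κp : 0 < κ := by linarith
  have k0 : 0 ≤ 6 * α * (κ * π) := by positivity
  have g0 : (2 - Y) ^ 2 ≤ (Y - 2) ^ 2 * (Y + 1) := by nlinarith [mul_nonneg (sq_nonneg (Y - 2)) Y0]
  have U0 : 0 ≤ U := by nlinarith [sq_nonneg (2 - Y)]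
  have YU : 0 ≤ Y * U := by positivity
  have e1 : 3 * Y * (2 - Y) ^ 2 ≤ 3 * (Y * U) := by nlinarith
  have e2 : 6 * α * (κ * π) ≤ 24 * (Y * U) := by
    rcases le_total 1 Y with h | h
    · nlinarith [sq_nonneg (2 - Y)]
    · have : 1 ≤ U := by nlinarith
      nlinarith [mul_le_mul_of_nonneg_right κ1 (mul_nonneg hα.le π0)]
  have e3 : 6 * α * π ≤ 48 / α * (Y * U) := by
    rw [div_mul_eq_mul_div, le_div_iff₀ hα]
    nlinarith [mul_le_mul_of_nonneg_right κ0 (mul_nonneg hα.le π0)]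
  have ηr : 0 ≤ η * r := (abs_nonneg _).trans h1
  have e4 : -s1 * (3 * Y * (2 - Y) ^ 2 + 18 * α * κ * π) + 6 * α * s2 * π ≤
      η * r * ((75 + 48 / α) * (Y * U)) := by
    have a1 := mul_le_mul ((neg_le_abs s1).trans h1)
      (show 3 * Y * (2 - Y) ^ 2 + 18 * α * κ * π ≤ 75 * (Y * U) by linarith) (by positivity) ηr
    have a2 := mul_le_mul ((le_abs_self s2).trans h2) e3 (by positivity) ηr
    linarith
  have e5 : 1 + w * Y ^ 2 ≤ 2 := by nlinarith [mul_le_mul_of_nonneg_left (show Y ^ 2 ≤ 25 by nlinarith) w0]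
  have e6 := (mul_le_mul_of_nonneg_right e4 (show 0 ≤ 1 + w * Y ^ 2 by positivity)).trans
    (mul_le_mul_of_nonneg_left e5 (by positivity))
  have e7 : s4 * Y ^ 2 - 2 * r * Y * σ ≤ η * r * (5 * Y) - r * Y * α := by
    have a1 := mul_le_mul ((le_abs_self s4).trans h4) (show Y ^ 2 ≤ 5 * Y by nlinarith)
      (by positivity) ηr
    nlinarith [mul_le_mul_of_nonneg_left hσ (mul_nonneg hr.le Y0)]
  have e8 := mul_le_mul_of_nonneg_left e7 (mul_nonneg hε.le U0)
  have e9 := mul_le_mul_of_nonneg_right hη (mul_nonneg hr.le YU)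
  have : (96 : ℝ) / α = 2 * (48 / α) := by ring
  rw [this] at e9
  nlinarith

theorem ineqM {α Y ν κ κ₀ σ S r ε w η s3 s5 U : ℝ} (hα : 0 < α) (Y0 : 0 ≤ Y) (Y5 : Y ≤ 5)
    (ν0 : 0 ≤ ν) (hκ₀ : 0 < κ₀) (κ0 : κ₀ ≤ κ) (hσ : |σ| ≤ S) (hr : 0 < r)
    (hε : 0 < ε) (w0 : 0 ≤ w) (h3 : |s3| ≤ η * r) (h5 : |s5| ≤ η * r) (hη : η ≤ κ₀)
    (hε' : ε * (5 * η + 2 * S) ≤ 1 / 8) (hU : U = (Y - 2) ^ 2 * (Y + 1) + 6 * α * (κ * ν)) :
    (-r * (3 * Y * (2 - Y) ^ 2 + 18 * α * κ * ν) - 6 * α * s3 * ν) * (1 + w * Y ^ 2)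
      + ε * U * (s5 * Y ^ 2 + 2 * r * Y * σ) ≤ -(1 / 8) * (r * Y * U) := by
  have κp : 0 < κ := by linarith
  have k0 : 0 ≤ 6 * α * (κ * ν) := by positivity
  have U0 : 0 ≤ U := by rw [hU]; positivity
  have g0 : 0 ≤ Y * (2 - Y) ^ 2 := by positivity
  have ηr : 0 ≤ η * r := (abs_nonneg _).trans h3
  have e1 : Y * U ≤ 6 * (Y * (2 - Y) ^ 2) + 5 * (6 * α * (κ * ν)) := by
    rw [hU]
    nlinarith [mul_le_mul_of_nonneg_left Y5 g0, mul_le_mul_of_nonneg_left Y5 k0]
  have e2 : -(6 * α * s3 * ν) ≤ r * (6 * α * (κ * ν)) := by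
    have := mul_le_mul_of_nonneg_right (((neg_le_abs s3).trans h3).trans
      (mul_le_mul_of_nonneg_right (hη.trans κ0) hr.le)) (show 0 ≤ 6 * α * ν by positivity)
    linarith
  have e3 : -r * (3 * Y * (2 - Y) ^ 2 + 18 * α * κ * ν) - 6 * α * s3 * ν ≤ -(1 / 4) * (r * Y * U) := by
    nlinarith [mul_le_mul_of_nonneg_left e1 hr.le, mul_nonneg hr.le g0, mul_nonneg hr.le k0]
  have rYU : 0 ≤ r * Y * U := by positivity
  have e4 := mul_le_mul_of_nonneg_right e3 (show 0 ≤ 1 + w * Y ^ 2 by positivity)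
  have e7 : s5 * Y ^ 2 + 2 * r * Y * σ ≤ r * Y * (5 * η + 2 * S) := by
    have a1 := mul_le_mul ((le_abs_self s5).trans h5) (show Y ^ 2 ≤ 5 * Y by nlinarith)
      (by positivity) ηr
    nlinarith [mul_le_mul_of_nonneg_left ((le_abs_self σ).trans hσ) (mul_nonneg hr.le Y0)]
  have e8 := mul_le_mul_of_nonneg_left e7 (mul_nonneg hε.le U0)
  nlinarith [mul_le_mul_of_nonneg_left hε' rYU, mul_nonneg rYU (mul_nonneg w0 (sq_nonneg Y))]

theorem abs_le_15 {Y s b : ℝ} (Y0 : 0 ≤ Y) (Y5 : Y ≤ 5) (h : |s| ≤ b) : |s * (Y * (2 - Y))| ≤ 15 * b := by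
  rw [abs_mul, mul_comm]
  exact mul_le_mul (abs_le.2 ⟨by nlinarith, by nlinarith⟩) h (abs_nonneg _) (by norm_num)

theorem ineqP' {α Y σ r ε η s4 c₃ μ : ℝ} (Y0 : 0 ≤ Y) (Y5 : Y ≤ 5) (hσ : α / 2 ≤ σ)
    (hσ' : σ ≤ 2 * α) (hr : 0 < r) (hε : 0 < ε) (h4 : |s4| ≤ η * r) (hη : 30 * η ≤ μ) (hμ : μ ≤ α)
    (hc : 4 * α * ε ≤ c₃) :
    -c₃ * (r * Y) + ε * (s4 * (Y * (2 - Y)) - r * (2 - 2 * Y) * σ) + ε * μ / 2 * r ≤ 0 := by
  have e1 := (le_abs_self _).trans (abs_le_15 Y0 Y5 h4)
  have rY := mul_nonneg hr.le Y0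
  have e2 : s4 * (Y * (2 - Y)) - r * (2 - 2 * Y) * σ ≤ -(μ / 2 * r) + 4 * α * (r * Y) := by
    nlinarith [mul_le_mul_of_nonneg_left hσ hr.le, mul_le_mul_of_nonneg_left hσ' rY,
      mul_le_mul_of_nonneg_right hη hr.le, mul_le_mul_of_nonneg_right hμ hr.le]
  nlinarith [mul_le_mul_of_nonneg_left e2 hε.le, mul_le_mul_of_nonneg_right hc rY]

theorem ineqM' {Y σ S r ε η s5 c₃ μ : ℝ} (Y0 : 0 ≤ Y) (Y5 : Y ≤ 5) (hσ : |σ| ≤ S)
    (hσ' : Y ≤ 1 → μ / 2 ≤ σ) (hr : 0 < r) (hε : 0 < ε) (h5 : |s5| ≤ η * r) (hη : 30 * η ≤ μ)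
    (hμ : μ ≤ 2 * S) (hc : 4 * S * ε ≤ c₃) :
    -c₃ * (r * Y) - ε * (s5 * (Y * (2 - Y)) + r * (2 - 2 * Y) * σ) + ε * μ / 2 * r ≤ 0 := by
  have e1 := (neg_le_abs _).trans (abs_le_15 Y0 Y5 h5)
  have rY := mul_nonneg hr.le Y0
  rw [abs_le] at hσ
  have e2 : -(s5 * (Y * (2 - Y)) + r * (2 - 2 * Y) * σ) ≤ -(μ / 2 * r) + 4 * S * (r * Y) := by
    rcases le_total Y 1 with h | h
    · nlinarith [mul_le_mul_of_nonneg_left (hσ' h) hr.le, mul_le_mul_of_nonneg_left hσ.2 rY,
        mul_le_mul_of_nonneg_right hη hr.le, mul_nonneg rY (show 0 ≤ S by linarith)]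
    · nlinarith [mul_le_mul_of_nonneg_left hσ.2 (mul_nonneg hr.le (sub_nonneg.2 h)),
        mul_le_mul_of_nonneg_right hη hr.le, mul_le_mul_of_nonneg_right hμ hr.le,
        mul_nonneg (mul_nonneg hr.le (sub_nonneg.2 h)) (show 0 ≤ S by linarith),
        mul_nonneg hr.le (show 0 ≤ S by linarith)]
  nlinarith [mul_le_mul_of_nonneg_left e2 hε.le, mul_le_mul_of_nonneg_right hc rY]

end Pool.Agent.Lib.MP_f4f7c0_an
end

-- part Pool.Agent.Lib.MP_f4f7c0_an.Good
section

/-! Chart level notions: iterated brackets, the generic condition, trajectories in a chart. -/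

namespace Pool.Agent.Lib.MP_f4f7c0_an

open Set Filter Topology MeasureTheory
open scoped ContDiff

/-- Iterated brackets: the empty word gives `[X', X]`, the letter `true` applies `ad X` and the
letter `false` applies `ad X'`. -/
noncomputable def br (X X' : E3 → E3) : List Bool → E3 → E3
  | [] => VectorField.lieBracket ℝ X' X
  | i :: w => VectorField.lieBracket ℝ (bif i then X else X') (br X X' w)

/-- The cubic form of third order brackets. -/
def cub (h : List Bool → ℝ) (P A : ℝ) : ℝ :=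
  P ^ 3 * h [true, true, true]
    + P ^ 2 * A * (h [true, true, false] + h [true, false, true] + h [false, true, true])
    + P * A ^ 2 * (h [true, false, false] + h [false, true, false] + h [false, false, true])
    + A ^ 3 * h [false, false, false]

/-- The generic condition on the values `h w` of a covector on the brackets. -/
structure Gen (h : List Bool → ℝ) : Prop where
  g1 : ∀ i, ∃ j ≤ 3, h (List.replicate (j + 1) i) ≠ 0
  g2 : h [true] = 0 → h [false] = 0 → h [true, true] = 0 → h [false, false] ≠ 0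
  g3 : ∀ i, h [true] = 0 → h [false] = 0 → h [i, i] = 0 → h [true, false] ≠ 0
  g4 : ∀ i, h [true] = 0 → h [false] = 0 → h [i, i] = 0 → h [i, i, i] ≠ 0
  g5 : h [true] = 0 → h [false] = 0 → ∀ P ∈ Icc (0 : ℝ) 1,
    P * h [true, true] + (1 - P) * h [true, false] = 0 →
    P * h [true, false] + (1 - P) * h [false, false] = 0 → cub h P (1 - P) ≠ 0

/-- The generic condition only depends on words of length at most four, up to nonzero factors
`c * d ^ length`. -/
theorem Gen.congr {h h' : List Bool → ℝ} (hg : Gen h) {c d : ℝ} (hc : c ≠ 0) (hd : d ≠ 0)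
    (hh : ∀ w : List Bool, w.length ≤ 4 → h' w = c * d ^ w.length * h w) : Gen h' := by
  have k : ∀ w : List Bool, w.length ≤ 4 → (h' w = 0 ↔ h w = 0) := fun w hw => by
    simp [hh w hw, hc, hd]
  refine ⟨fun i => ?_, ?_, fun i => ?_, fun i => ?_, ?_⟩
  · obtain ⟨j, hj, h1⟩ := hg.g1 i
    exact ⟨j, hj, by rwa [Ne, k _ (by simp; omega)]⟩
  · rw [k, k, k, Ne, k] <;> first | exact hg.g2 | simp
  · rw [k, k, k, Ne, k] <;> first | exact hg.g3 i | simp
  · rw [k, k, k, Ne, k] <;> first | exact hg.g4 i | simp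
  · rw [k _ (by simp), k _ (by simp)]
    intro h1 h2 P hP h3 h4
    have h5 : cub h' P (1 - P) = c * d ^ 3 * cub h P (1 - P) := by
      simp (disch := simp) only [cub, hh, List.length_cons, List.length_nil]
      ring
    rw [h5]
    simp (disch := simp) only [hh, List.length_cons, List.length_nil] at h3 h4
    have hcd : c * d ^ 2 ≠ 0 := by positivity
    exact mul_ne_zero (by positivity) (hg.g5 h1 h2 P hP
      (mul_left_cancel₀ hcd (by linear_combination h3))
      (mul_left_cancel₀ hcd (by linear_combination h4)))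

theorem isOpen_gen : IsOpen {h : List Bool → ℝ | Gen h} := by
  have c : ∀ w : List Bool, IsOpen {h : List Bool → ℝ | h w ≠ 0} := fun w =>
    isOpen_ne_fun (continuous_apply w) continuous_const
  have h5 : IsClosed (Prod.snd '' {z : Icc (0 : ℝ) 1 × (List Bool → ℝ) |
      z.2 [true] = 0 ∧ z.2 [false] = 0 ∧
      z.1 * z.2 [true, true] + (1 - z.1) * z.2 [true, false] = 0 ∧
      z.1 * z.2 [true, false] + (1 - z.1) * z.2 [false, false] = 0 ∧
      cub z.2 z.1 (1 - z.1) = 0}) := by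
    refine isClosedMap_snd_of_compactSpace _ ?_
    simp only [ofPred_and, cub]
    refine IsClosed.inter ?_ (IsClosed.inter ?_ (IsClosed.inter ?_ (IsClosed.inter ?_ ?_))) <;>
      exact isClosed_eq (by fun_prop) continuous_const
  refine isOpen_iff_eventually.2 fun h hg => ?_
  have e1 : ∀ᶠ h' in 𝓝 h, ∀ i, ∃ j ≤ 3, h' (List.replicate (j + 1) i) ≠ 0 :=
    eventually_all.2 fun i => by
      obtain ⟨j, hj, h1⟩ := hg.g1 i
      exact Eventually.mono ((c _).mem_nhds h1) fun h' h2 => ⟨j, hj, h2⟩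
  have e2 : ∀ w1 w2 w3 w4 : List Bool, (h w1 = 0 → h w2 = 0 → h w3 = 0 → h w4 ≠ 0) →
      ∀ᶠ h' in 𝓝 h, h' w1 = 0 → h' w2 = 0 → h' w3 = 0 → h' w4 ≠ 0 := fun w1 w2 w3 w4 H => by
    by_cases h1 : h w1 = 0
    · by_cases h2 : h w2 = 0
      · by_cases h3 : h w3 = 0
        · exact Eventually.mono ((c _).mem_nhds (H h1 h2 h3)) fun _ h _ _ _ => h
        · exact Eventually.mono ((c _).mem_nhds h3) fun _ h _ _ h' => absurd h' h
      · exact Eventually.mono ((c _).mem_nhds h2) fun _ h _ h' => absurd h' h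
    · exact Eventually.mono ((c _).mem_nhds h1) fun _ h h' => absurd h' h
  filter_upwards [e1, e2 _ _ _ _ hg.g2, eventually_all.2 fun i => e2 _ _ _ _ (hg.g3 i),
    eventually_all.2 fun i => e2 _ _ _ _ (hg.g4 i), h5.isOpen_compl.mem_nhds (x := h) (by
      rintro ⟨⟨P, _⟩, ⟨h1, h2, h3, h4, h5⟩, rfl⟩
      exact hg.g5 h1 h2 P P.2 h3 h4 h5)] with h' a1 a2 a3 a4 a5
  exact ⟨a1, a2, a3, a4, fun h1 h2 P hP h3 h4 h5 => a5 ⟨(⟨P, hP⟩, h'), ⟨h1, h2, h3, h4, h5⟩, rfl⟩⟩

theorem cub_not {h : List Bool → ℝ} (P A : ℝ) :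
    cub (fun w => h (w.map not)) P A = cub h A P := by
  simp only [cub, List.map_cons, List.map_nil, Bool.not_true, Bool.not_false]
  ring

/-- Exchanging the two letters. -/
theorem Gen.swap {h : List Bool → ℝ} (hg : Gen h) (hs : h [true, false] = h [false, true]) :
    Gen fun w => h (w.map not) := by
  refine ⟨fun i => ?_, fun h1 h2 h3 h4 => hg.g2 h2 h1 h4 h3, fun i h1 h2 h3 => ?_,
    fun i h1 h2 h3 => hg.g4 (!i) h2 h1 h3, fun h1 h2 P hP h3 h4 => ?_⟩
  · simpa using hg.g1 (!i)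
  · simpa [← hs] using hg.g3 (!i) h2 h1 h3
  · rw [cub_not]
    simp only [List.map_cons, List.map_nil, Bool.not_true, Bool.not_false, ← hs] at h3 h4
    have := hg.g5 h2 h1 (1 - P) ⟨by linarith [hP.2], by linarith [hP.1]⟩
      (by linear_combination h4) (by linear_combination h3)
    simpa using this

/-- The pair of fields is good at `q`. -/
def Good (X X' : E3 → E3) (q : E3) : Prop :=
  ∀ p : E3 →L[ℝ] ℝ, p ≠ 0 → p (X q - X' q) = 0 → p (br X X' [] q) = 0 →
    Gen fun w => p (br X X' w q)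

section br
variable {X X' Y Y' : E3 → E3} {q : E3}

theorem contDiff_br (hX : ContDiff ℝ ∞ X) (hX' : ContDiff ℝ ∞ X') (w : List Bool) :
    ContDiff ℝ ∞ (br X X' w) := by
  induction w with
  | nil => exact hX'.lieBracket_vectorField hX le_rfl
  | cons i w ih => cases i <;> exact ContDiff.lieBracket_vectorField ‹_› ih le_rfl

theorem br_congr (h : X =ᶠ[𝓝 q] Y) (h' : X' =ᶠ[𝓝 q] Y') (w : List Bool) :
    br X X' w =ᶠ[𝓝 q] br Y Y' w := by
  induction w with
  | nil => exact h'.lieBracket_vectorField h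
  | cons i w ih => cases i <;> exact EventuallyEq.lieBracket_vectorField ‹_› ih

theorem lieBracket_neg_left (V W : E3 → E3) :
    VectorField.lieBracket ℝ (-V) W = -VectorField.lieBracket ℝ V W := by
  funext y
  simp [VectorField.lieBracket, fderiv_neg]
  abel

theorem lieBracket_neg_right (V W : E3 → E3) :
    VectorField.lieBracket ℝ V (-W) = -VectorField.lieBracket ℝ V W := by
  funext y
  simp [VectorField.lieBracket, fderiv_neg]
  abel

theorem br_neg (w : List Bool) : br (-X) (-X') w = (-1 : ℝ) ^ w.length • br X X' w := by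
  induction w with
  | nil => simp [br, lieBracket_neg_left, lieBracket_neg_right]
  | cons i w ih =>
    rcases neg_one_pow_eq_or ℝ w.length with h | h <;> cases i <;>
      simp [br, ih, pow_succ, h, lieBracket_neg_left, lieBracket_neg_right]

theorem br_swap (w : List Bool) : br X' X w = -br X X' (w.map not) := by
  induction w with
  | nil => funext y; exact VectorField.lieBracket_swap
  | cons i w ih => cases i <;> simp [br, ih, lieBracket_neg_right]

theorem br_sym (hX : ContDiff ℝ ∞ X) (hX' : ContDiff ℝ ∞ X') (w : List Bool) :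
    br X X' (w ++ [true, false]) = br X X' (w ++ [false, true]) := by
  induction w with
  | nil =>
    funext y
    have := VectorField.leibniz_identity_lieBracket (𝕜 := ℝ) (n := ∞)
      (by simpa using WithTop.coe_le_coe.2 (le_top : (2 : ℕ∞) ≤ ⊤)) (x := y)
      hX.contDiffAt hX'.contDiffAt (contDiff_br hX hX' []).contDiffAt
    have h2 : VectorField.lieBracket ℝ X X' = -br X X' [] := by
      funext y; exact VectorField.lieBracket_swap
    rw [h2, lieBracket_neg_left] at this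
    simpa [br] using this
  | cons i w ih => simp [br, ih]

theorem Good.congr (hg : Good X X' q) (h : X =ᶠ[𝓝 q] Y) (h' : X' =ᶠ[𝓝 q] Y') : Good Y Y' q := by
  intro p hp h1 h2
  simp only [← (br_congr h h' _).eq_of_nhds, ← h.eq_of_nhds, ← h'.eq_of_nhds] at h1 h2 ⊢
  exact hg p hp h1 h2

theorem Good.neg (hg : Good X X' q) : Good (-X) (-X') q := by
  intro p hp h1 h2
  refine (hg p hp ?_ (by simpa [br_neg] using h2)).congr (d := -1) one_ne_zero (by norm_num)
    fun w _ => by simp [br_neg]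
  simp only [Pi.neg_apply, map_sub, map_neg] at h1 ⊢
  linarith

theorem Good.swap (hX : ContDiff ℝ ∞ X) (hX' : ContDiff ℝ ∞ X') (hg : Good X X' q) :
    Good X' X q := by
  intro p hp h1 h2
  refine ((hg p hp ?_ (by simpa [br_swap (X := X)] using h2)).swap
    (by simpa using congrArg (fun V => p (V q)) (br_sym hX hX' []))).congr (c := -1) (d := 1)
    (by norm_num) one_ne_zero fun w _ => by simp [br_swap (X := X)]
  simp only [map_sub] at h1 ⊢
  linarith

end br

/-- A trajectory of `q' = m X + (1 - m) X'` on `[0, T]`. -/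
structure Traj (X X' : E3 → E3) (m : ℝ → ℝ) (q : ℝ → E3) (T : ℝ) : Prop where
  nonneg : 0 ≤ T
  meas : Measurable m
  m0 : ∀ t, 0 ≤ m t
  m1 : ∀ t, m t ≤ 1
  lip : ∃ C, LipschitzOnWith C q (Icc 0 T)
  ode : ∀ᵐ t, t ∈ Ioo 0 T → HasDerivAt q (m t • X (q t) + (1 - m t) • X' (q t)) t

/-- Every initial piece of `q` is time-optimal among the trajectories that stay in `U`. -/
def LocOpt (X X' : E3 → E3) (U : Set E3) (q : ℝ → E3) (T : ℝ) : Prop :=
  ∀ s ∈ Icc 0 T, ∀ m' q' T', Traj X X' m' q' T' → MapsTo q' (Icc 0 T') U → q' 0 = q 0 →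
    q' T' = q s → s ≤ T'

/-- An adjoint covector as in the maximum principle. -/
structure Adjoint (X X' : E3 → E3) (m : ℝ → ℝ) (q : ℝ → E3) (p : ℝ → E3 →L[ℝ] ℝ) (δ : ℝ) :
    Prop where
  lip : ∃ C, LipschitzOnWith C p (Icc 0 δ)
  ne : p 0 ≠ 0
  ode : ∀ᵐ t, t ∈ Ioo 0 δ → HasDerivAt p
    (-(p t).comp (m t • fderiv ℝ X (q t) + (1 - m t) • fderiv ℝ X' (q t))) t
  pos : ∀ᵐ t, t ∈ Ioo 0 δ → 0 < p t (X (q t) - X' (q t)) → m t = 1
  neg : ∀ᵐ t, t ∈ Ioo 0 δ → p t (X (q t) - X' (q t)) < 0 → m t = 0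

open scoped Manifold in
/-- Good at every point of the manifold, in some chart. -/
def GoodM {M : Type*} [TopologicalSpace M] [ChartedSpace E3 M] [IsManifold (𝓡 3) ∞ M]
    (f g : VF M) : Prop :=
  ∀ x : M, ∃ c : M, x ∈ (chartAt E3 c).source ∧
    Good (chartRep c (f + g)) (chartRep c (f - g)) (extChartAt (𝓡 3) c x)

/-- Density of good perturbations in a finite dimensional family. -/
def DenseGood : Prop := ∃ (ι : Type) (_ : Fintype ι) (A A' : ι → E3 → E3),
    (∀ i, ContDiff ℝ ∞ (A i) ∧ ContDiff ℝ ∞ (A' i)) ∧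
    ∀ X X' : E3 → E3, ContDiff ℝ ∞ X → ContDiff ℝ ∞ X' →
      Dense {θ : ι → ℝ | ∀ q, Good (fun y => X y + ∑ i, θ i • A i y)
        (fun y => X' y + ∑ i, θ i • A' i y) q}

/-- Locally optimal trajectories are smooth just after a good point. -/
def LocalSmooth : Prop := ∀ X X' : E3 → E3, ContDiff ℝ ∞ X → ContDiff ℝ ∞ X' →
  ∀ (m : ℝ → ℝ) (q : ℝ → E3) (T : ℝ), 0 < T → Traj X X' m q T → ∀ U ∈ 𝓝 (q 0),
    LocOpt X X' U q T → Good X X' (q 0) → ∃ ε > 0, ContDiffOn ℝ ∞ q (Ioo 0 ε)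

end Pool.Agent.Lib.MP_f4f7c0_an
end

-- part Pool.Agent.Lib.MP_f4f7c0_an.GenNull
section

/-! Parametric transversality: overdetermined triangular systems have no solution for almost
every value of the parameter. -/

namespace Pool.Agent.Lib.MP_f4f7c0_an.GenB

open Set Filter Topology MeasureTheory Module

theorem range_eq_top_of_tri {Z : Type*} [AddCommGroup Z] [Module ℝ Z] {N : ℕ}
    (L : Z →ₗ[ℝ] (Fin N → ℝ)) (t : Fin N → Z) (h0 : ∀ i j, i < j → L (t j) i = 0)
    (h1 : ∀ j, L (t j) j ≠ 0) : LinearMap.range L = ⊤ := by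
  let M : Matrix (Fin N) (Fin N) ℝ := Matrix.of fun i j => L (t j) i
  have hd : M.det ≠ 0 := by
    rw [Matrix.det_of_isLowerTriangular M fun i j h => h0 i j h]
    exact Finset.prod_ne_zero_iff.2 fun j _ => h1 j
  have hs : Function.Surjective M.mulVec :=
    Matrix.mulVec_surjective_iff_isUnit.2 ((Matrix.isUnit_iff_isUnit_det M).2 hd.isUnit)
  refine LinearMap.range_eq_top.2 fun y => ?_
  obtain ⟨x, rfl⟩ := hs y
  refine ⟨∑ j, x j • t j, ?_⟩
  funext i
  simp [M, Matrix.mulVec, dotProduct, mul_comm]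

theorem null_of_onto {ι U F : Type*} [Fintype ι] [NormedAddCommGroup U] [NormedSpace ℝ U]
    [FiniteDimensional ℝ U] [NormedAddCommGroup F] [NormedSpace ℝ F] [FiniteDimensional ℝ F]
    (hN : finrank ℝ U < finrank ℝ F) {G : (ι → ℝ) × U → F} (hG : ContDiff ℝ 1 G) :
    volume (Prod.fst '' {z | G z = 0 ∧ (fderiv ℝ G z).range = ⊤}) = 0 := by
  have := FiniteDimensional.complete ℝ U
  set S := {z | G z = 0 ∧ (fderiv ℝ G z).range = ⊤} with hS
  have key : ∀ z ∈ S, ∃ t ∈ 𝓝[S] z, volume (Prod.fst '' t) = 0 := by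
    rintro z ⟨h0, h1⟩
    have hf : HasStrictFDerivAt G (fderiv ℝ G z) z :=
      hG.contDiffAt.hasStrictFDerivAt one_ne_zero
    obtain ⟨K, s, hs, hK⟩ := (hf.to_implicitFunction h1).exists_lipschitzOnWith
    have c : ContinuousAt (fun x => (hf.implicitToOpenPartialHomeomorph _ _ h1 x).2) z :=
      continuous_snd.continuousAt.comp ((hf.implicitToOpenPartialHomeomorph _ _ h1).continuousAt
        (hf.mem_implicitToOpenPartialHomeomorph_source h1))
    have e2 : ∀ᶠ x in 𝓝 z, (hf.implicitToOpenPartialHomeomorph _ _ h1 x).2 ∈ s :=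
      c.eventually_mem (by simpa using hs)
    refine ⟨hf.implicitFunction _ _ h1 (G z) '' s, ?_, ?_⟩
    · filter_upwards [self_mem_nhdsWithin, nhdsWithin_le_nhds e2,
        nhdsWithin_le_nhds (hf.eq_implicitFunction h1)] with x hx h2 h3
      exact ⟨_, h2, by rw [h0, ← hx.1]; exact h3⟩
    · rw [← hausdorffMeasure_pi_real]
      refine hausdorffMeasure_of_dimH_lt (d := (Fintype.card ι : NNReal)) ?_
      have d1 := (LipschitzWith.prod_fst.lipschitzOnWith
        (s := hf.implicitFunction _ _ h1 (G z) '' s)).dimH_image_le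
      have d2 := (hK.dimH_image_le.trans (dimH_mono (subset_univ s))).trans_eq
        (Real.dimH_univ_eq_finrank _)
      have d3 := LinearMap.finrank_range_add_finrank_ker
        (fderiv ℝ G z : (ι → ℝ) × U →ₗ[ℝ] F)
      rw [h1, finrank_top, finrank_prod, finrank_fintype_fun_eq_card] at d3
      refine (d1.trans d2).trans_lt ?_
      have : finrank ℝ (fderiv ℝ G z).ker < Fintype.card ι := by omega
      exact_mod_cast this
  choose! f hf hf0 using key
  obtain ⟨T, hT, hc, hcov⟩ := TopologicalSpace.countable_cover_nhdsWithin hf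
  refine measure_mono_null (image_mono hcov) ?_
  rw [image_iUnion₂]
  exact (measure_biUnion_null_iff hc).2 fun z hz => hf0 z (hT hz)

/-- For almost every parameter a system of more equations than unknowns has no solution at which
the equations can be moved one after the other. -/
theorem ae_not_tri {ι U : Type*} [Fintype ι] [NormedAddCommGroup U] [NormedSpace ℝ U]
    [FiniteDimensional ℝ U] {N : ℕ} (hN : finrank ℝ U < N) {G : Fin N → (ι → ℝ) × U → ℝ}
    (hG : ∀ i, ContDiff ℝ 1 (G i)) :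
    ∀ᵐ θ : ι → ℝ, ∀ (u : U) (t : Fin N → (ι → ℝ) × U) (k : Fin N → ℝ), (∀ j, k j ≠ 0) →
      (∀ j i, i < j → ∀ s : ℝ, G i ((θ, u) + s • t j) = 0) →
      (∀ j (s : ℝ), G j ((θ, u) + s • t j) = s * k j) → False := by
  have hH : ContDiff ℝ 1 fun z i => G i z := contDiff_pi.2 hG
  have := null_of_onto (ι := ι) (U := U) (F := Fin N → ℝ) (by simpa using hN) hH
  filter_upwards [measure_eq_zero_iff_ae_notMem.1 this] with θ hθ u t k hk h0 h1
  refine hθ ⟨(θ, u), ⟨funext fun j => by simpa using h1 j 0, ?_⟩, rfl⟩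
  have d : ∀ i j, HasDerivAt (fun s : ℝ => G i ((θ, u) + s • t j))
      (fderiv ℝ (fun z i => G i z) (θ, u) (t j) i) 0 := fun i j => by
    have a : HasDerivAt (fun s : ℝ => (θ, u) + s • t j) (t j) 0 := by
      simpa using ((hasDerivAt_id (0 : ℝ)).smul_const (t j)).const_add (θ, u)
    have b : HasFDerivAt (fun z i => G i z) (fderiv ℝ (fun z i => G i z) (θ, u))
        ((θ, u) + (0 : ℝ) • t j) := by
      simpa using (hH.differentiable one_ne_zero (θ, u)).hasFDerivAt
    exact hasDerivAt_pi.1 (b.comp_hasDerivAt 0 a) i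
  refine range_eq_top_of_tri _ t (fun i j h => ?_) fun j => ?_
  · exact (d i j).unique (by simpa only [h0 j i h] using hasDerivAt_const (0 : ℝ) (0 : ℝ))
  · have := (d j j).unique (by simpa only [h1 j] using (hasDerivAt_id' (0 : ℝ)).mul_const (k j))
    simpa [this] using hk j

end Pool.Agent.Lib.MP_f4f7c0_an.GenB
end

-- part Pool.Agent.Lib.MP_f4f7c0_an.GenVan
section

/-! Orders of vanishing, and the effect of a monomial perturbation on iterated brackets. -/

namespace Pool.Agent.Lib.MP_f4f7c0_an.GenB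

open Set Filter Topology VectorField
open scoped ContDiff

/-- Covectors. -/
abbrev Cov := E3 →L[ℝ] ℝ

/-- A smooth map which vanishes to order `k` at `q`. -/
def Van {F : Type*} [NormedAddCommGroup F] [NormedSpace ℝ F] (q : E3) (k : ℕ) (V : E3 → F) :
    Prop :=
  ContDiff ℝ ∞ V ∧ ∀ j < k, iteratedFDeriv ℝ j V q = 0

theorem le_inf' (j : ℕ) : (j : WithTop ℕ∞) ≤ ∞ := by exact_mod_cast le_top

section
variable {F G H : Type*} [NormedAddCommGroup F] [NormedSpace ℝ F] [NormedAddCommGroup G]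
  [NormedSpace ℝ G] [NormedAddCommGroup H] [NormedSpace ℝ H] {q : E3} {j k : ℕ} {V W : E3 → F}

theorem Van.zero (h : ContDiff ℝ ∞ V) : Van q 0 V := ⟨h, fun _ h => by omega⟩

theorem Van.one (h : ContDiff ℝ ∞ V) (h0 : V q = 0) : Van q 1 V :=
  ⟨h, fun j hj => by
    obtain rfl : j = 0 := by omega
    ext; simp [h0]⟩

theorem Van.mono (h : Van q k V) (hj : j ≤ k) : Van q j V := ⟨h.1, fun i hi => h.2 i (by omega)⟩

theorem Van.eq_zero (h : Van q k V) (hk : 1 ≤ k) : V q = 0 := by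
  simpa using congrArg (fun f => f 0) (h.2 0 hk)

theorem Van.add (h : Van q k V) (h' : Van q k W) : Van q k fun y => V y + W y :=
  ⟨h.1.add h'.1, fun i hi => by
    rw [fun_iteratedFDeriv_add_apply (h.1.of_le (le_inf' i)).contDiffAt
      (h'.1.of_le (le_inf' i)).contDiffAt, h.2 i hi, h'.2 i hi, add_zero]⟩

theorem Van.bilin (B : F →L[ℝ] G →L[ℝ] H) {U : E3 → G} (h : Van q j V) (h' : Van q k U) :
    Van q (j + k) fun y => B (V y) (U y) :=
  ⟨(B.contDiff.comp h.1).clm_apply h'.1, fun n hn => by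
    refine norm_le_zero_iff.1 ((B.norm_iteratedFDeriv_le_of_bilinear h.1 h'.1 q
      (le_inf' n)).trans_eq ?_)
    rw [Finset.sum_eq_zero, mul_zero]
    intro i hi
    by_cases hij : i < j
    · simp [h.2 i hij]
    · simp [h'.2 (n - i) (by have := Finset.mem_range.1 hi; omega)]⟩

theorem Van.smul {f : E3 → ℝ} (h : Van q j f) (h' : Van q k V) :
    Van q (j + k) fun y => f y • V y := h.bilin (ContinuousLinearMap.lsmul ℝ ℝ) h'

theorem Van.app {A : E3 → F →L[ℝ] G} (h : Van q j A) (h' : Van q k V) :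
    Van q (j + k) fun y => A y (V y) := h.bilin (ContinuousLinearMap.id ℝ (F →L[ℝ] G)) h'

theorem Van.cmul (c : ℝ) (h : c ≠ 0 → Van q k V) :
    Van q k fun y => c • V y := by
  by_cases hc : c = 0
  · subst hc
    exact ⟨by simpa using contDiff_const, fun i _ => by simp⟩
  · simpa using (Van.zero (q := q) (contDiff_const (c := c))).smul (h hc)

theorem Van.sub (h : Van q k V) (h' : Van q k W) : Van q k fun y => V y - W y := by
  simpa [sub_eq_add_neg] using h.add (Van.cmul (-1) fun _ => h')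

theorem Van.fderiv (h : Van q k V) : Van q (k - 1) (fderiv ℝ V) :=
  ⟨h.1.fderiv_right le_rfl, fun i hi => by
    rw [← norm_eq_zero, norm_iteratedFDeriv_fderiv, h.2 _ (by omega), norm_zero]⟩

end

variable {q e : E3} {α β : Cov} {j k a b : ℕ} {V W X X' Y : E3 → E3}

theorem Van.lie (hY : ContDiff ℝ ∞ Y) (h : Van q k V) : Van q (k - 1) (lieBracket ℝ Y V) := by
  have h1 := h.fderiv.app (Van.zero hY)
  have h2 := (Van.zero (q := q) hY).fderiv.app h
  exact (h1.mono (by omega)).sub (h2.mono (by omega))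

theorem Van.lie' (hY : ContDiff ℝ ∞ Y) (h : Van q k V) : Van q (k - 1) (lieBracket ℝ V Y) := by
  have h1 := h.fderiv.app (Van.zero hY)
  have h2 := (Van.zero (q := q) hY).fderiv.app h
  exact (h2.mono (by omega)).sub (h1.mono (by omega))

/-- Monomials in two affine functions vanishing at `q`. -/
def mon (α β : Cov) (q : E3) (a b : ℕ) (y : E3) : ℝ := α (y - q) ^ a * β (y - q) ^ b

/-- Monomial vector fields. -/
def mvf (α β : Cov) (q : E3) (a b : ℕ) (e : E3) (y : E3) : E3 := mon α β q a b y • e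

theorem van_pow (α : Cov) (q : E3) (a : ℕ) : Van q a fun y => α (y - q) ^ a := by
  induction a with
  | zero => exact Van.zero (by simpa using contDiff_const)
  | succ a ih =>
    simpa [pow_succ] using ih.smul (Van.one (V := fun y => α (y - q)) (by fun_prop) (by simp))

theorem van_mon : Van q (a + b) (mon α β q a b) := (van_pow α q a).smul (van_pow β q b)

theorem van_mvf : Van q (a + b) (mvf α β q a b e) := van_mon.smul (Van.zero contDiff_const)

theorem fderiv_mvf (y v : E3) : fderiv ℝ (mvf α β q a b e) y v =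
    (a * mon α β q (a - 1) b y * α v + b * mon α β q a (b - 1) y * β v) • e := by
  have h : ∀ γ : Cov, HasFDerivAt (fun y => γ (y - q)) γ y := fun γ =>
    γ.hasFDerivAt.comp y ((hasFDerivAt_id y).sub_const q)
  have : HasFDerivAt (mvf α β q a b e) _ y := (((h α).pow a).mul ((h β).pow b)).smul_const e
  rw [this.fderiv]
  simp only [mon, ContinuousLinearMap.smulRight_apply, add_apply,
    smul_apply, smul_eq_mul, nsmul_eq_mul]
  congr 1
  ring

theorem van_step (hY : ContDiff ℝ ∞ Y) : Van q (a + b) fun y =>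
    lieBracket ℝ Y (mvf α β q a b e) y - (a * α (Y q)) • mvf α β q (a - 1) b e y -
      (b * β (Y q)) • mvf α β q a (b - 1) e y := by
  have h : ∀ γ : Cov, Van q 1 fun y => γ (Y y) - γ (Y q) := fun γ =>
    Van.one (by fun_prop) (by simp)
  have h1 : Van q (a + b) fun y => (a : ℝ) • (α (Y y) - α (Y q)) • mvf α β q (a - 1) b e y :=
    Van.cmul _ fun ha => ((h α).smul van_mvf).mono (by
      have : a ≠ 0 := by simpa using ha
      omega)
  have h2 : Van q (a + b) fun y => (b : ℝ) • (β (Y y) - β (Y q)) • mvf α β q a (b - 1) e y :=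
    Van.cmul _ fun hb => ((h β).smul van_mvf).mono (by
      have : b ≠ 0 := by simpa using hb
      omega)
  have h3 := (Van.zero (q := q) hY).fderiv.app (van_mvf (α := α) (β := β) (a := a) (b := b) (e := e))
  convert (h1.add h2).sub (h3.mono (by omega)) using 2 with y
  rw [lieBracket, fderiv_mvf]
  simp only [mvf]
  module

theorem lie_add_smul (hV : ContDiff ℝ ∞ V) (hW : ContDiff ℝ ∞ W) (c : ℝ) (y : E3) :
    lieBracket ℝ Y (fun y => V y + c • W y) y = lieBracket ℝ Y V y + c • lieBracket ℝ Y W y := by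
  have h1 := hV.differentiable (by simp) y
  have h2 := hW.differentiable (by simp) y
  rw [← lieBracket_const_smul_right h2, ← lieBracket_add_right h1 (h2.const_smul c)]
  rfl

theorem lie_add_smul' (hV : ContDiff ℝ ∞ V) (hW : ContDiff ℝ ∞ W) (c : ℝ) (y : E3) :
    lieBracket ℝ (V + c • W) Y y = lieBracket ℝ V Y y + c • lieBracket ℝ W Y y := by
  have h1 := hV.differentiable (by simp) y
  have h2 := hW.differentiable (by simp) y
  rw [← lieBracket_const_smul_left h2, ← lieBracket_add_left h1 (h2.const_smul c)]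

theorem van_br (hX : ContDiff ℝ ∞ X) (hX' : ContDiff ℝ ∞ X') (s : ℝ) (h1 : α (X q) = 1)
    (h2 : β (X q) = 0) (w : List Bool) (h3 : false ∈ w → α (X' q) = 0 ∧ β (X' q) = 1) :
    Van q (a + b - w.length) fun y => br X (X' + s • mvf α β q a b e) w y - br X X' w y +
      (s * (a.descFactorial (w.count true + 1) * b.descFactorial (w.count false) : ℕ)) •
        mvf α β q (a - (w.count true + 1)) (b - w.count false) e y := by
  have hV : ∀ a b, ContDiff ℝ ∞ (mvf α β q a b e) := fun _ _ => van_mvf.1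
  have hY' : ContDiff ℝ ∞ (X' + s • mvf α β q a b e) := hX'.add ((hV a b).const_smul s)
  induction w with
  | nil =>
    have := van_step (α := α) (β := β) (a := a) (b := b) (q := q) (e := e) hX
    convert Van.cmul (-s) fun _ => this using 2 with y
    · simp
    simp only [br]
    rw [lie_add_smul' hX' (hV a b), lieBracket_swap (V := mvf α β q a b e)]
    simp [h1, h2]
    module
  | cons i w ih =>
    have ih := ih fun h => h3 (List.mem_cons_of_mem _ h)
    set c : ℕ := a.descFactorial (w.count true + 1) * b.descFactorial (w.count false) with hc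
    have hl : w.count true + w.count false = w.length := List.count_true_add_count_false w
    have hY : ContDiff ℝ ∞ (bif i then X else X') := by cases i <;> assumption
    have s1 := (ih.lie hY).mono (j := a + b - (i :: w).length) (by simp; omega)
    have s2 := van_step (α := α) (β := β) (a := a - (w.count true + 1)) (b := b - w.count false)
      (q := q) (e := e) hY
    have s3 := Van.cmul (k := a + b - (i :: w).length) (s * c) fun h => s2.mono (by
      have h : c ≠ 0 := by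
        rintro h'
        simp [h'] at h
      have h4 := Nat.descFactorial_pos.1 (Nat.pos_of_ne_zero (mul_ne_zero_iff.1 h).1)
      have h5 := Nat.descFactorial_pos.1 (Nat.pos_of_ne_zero (mul_ne_zero_iff.1 h).2)
      simp; omega)
    have s4 := ((van_mvf (α := α) (β := β) (a := a) (b := b) (e := e) (q := q)).lie'
      (contDiff_br hX hY' w)).mono (j := a + b - (i :: w).length) (by simp; omega)
    have s5 : ∀ y, lieBracket ℝ (bif i then X else X') (fun y =>
        br X (X' + s • mvf α β q a b e) w y - br X X' w y +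
        (s * c) • mvf α β q (a - (w.count true + 1)) (b - w.count false) e y) y =
        lieBracket ℝ (bif i then X else X') (br X (X' + s • mvf α β q a b e) w) y -
          lieBracket ℝ (bif i then X else X') (br X X' w) y + (s * c) •
          lieBracket ℝ (bif i then X else X')
            (mvf α β q (a - (w.count true + 1)) (b - w.count false) e) y := fun y => by
      rw [lie_add_smul ((contDiff_br hX hY' w).sub (contDiff_br hX hX' w)) (hV _ _)]
      have := lie_add_smul (Y := bif i then X else X') (contDiff_br hX hY' w)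
        (contDiff_br hX hX' w) (-1) y
      simp only [neg_one_smul, ← sub_eq_add_neg] at this
      rw [this]
    cases i
    · obtain ⟨h4, h5⟩ := h3 (by simp)
      convert (s1.sub s3).add (Van.cmul s fun _ => s4) using 2 with y
      rw [s5]
      simp only [br, cond_false, lie_add_smul' hX' (hV a b), h4, h5, hc]
      simp [Nat.descFactorial_succ, Nat.sub_sub]
      module
    · convert s1.sub s3 using 2 with y
      rw [s5]
      simp only [br, cond_true, h1, h2, hc]
      simp [Nat.sub_sub]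
      module

/-- The difference of the fields and the iterated brackets, at `q`. -/
noncomputable def item (X X' : E3 → E3) (q : E3) : Option (List Bool) → E3
  | none => X q - X' q
  | some w => br X X' w q

/-- The exponents of the monomial that moves an item. -/
def cnt : Option (List Bool) → ℕ × ℕ
  | none => (0, 0)
  | some w => (w.count true + 1, w.count false)

/-- The response of an item to a monomial. -/
def kap (a b : ℕ) (o : Option (List Bool)) : ℕ :=
  a.descFactorial (cnt o).1 * b.descFactorial (cnt o).2 * (0 ^ (a - (cnt o).1) * 0 ^ (b - (cnt o).2))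

theorem mon_self : mon α β q a b q = 0 ^ a * 0 ^ b := by simp [mon]

theorem item_mvf (hX : ContDiff ℝ ∞ X) (hX' : ContDiff ℝ ∞ X') (s : ℝ) (h1 : α (X q) = 1)
    (h2 : β (X q) = 0) (o : Option (List Bool))
    (h3 : (cnt o).2 ≠ 0 → α (X' q) = 0 ∧ β (X' q) = 1) (h4 : (cnt o).1 + (cnt o).2 ≤ a + b) :
    item X (X' + s • mvf α β q a b e) q o = item X X' q o - (s * kap a b o) • e := by
  cases o with
  | none =>
    simp [item, kap, cnt, mvf, mon_self]
    module
  | some w =>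
    have hl : w.count true + w.count false = w.length := List.count_true_add_count_false w
    simp only [cnt] at h3 h4
    have := (van_br (a := a) (b := b) (e := e) hX hX' s h1 h2 w fun h =>
      h3 (List.count_pos_iff.2 h).ne').eq_zero (by omega)
    simp only [mvf, mon_self] at this
    simp only [item, kap, cnt]
    push_cast at this ⊢
    linear_combination (norm := module) this

end Pool.Agent.Lib.MP_f4f7c0_an.GenB
end

-- part Pool.Agent.Lib.MP_f4f7c0_an.GenFree
section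

/-! The equations of the strata, and pairs of fields that solve no triangular system of eight of
these equations. -/

namespace Pool.Agent.Lib.MP_f4f7c0_an.GenB

open Set Filter Topology VectorField MeasureTheory
open scoped ContDiff

/-- The standard basis. -/
noncomputable abbrev bv (j : Fin 3) : E3 := EuclideanSpace.single j 1

/-- Names of the equations. -/
inductive Eqn : Type
  | pz (j : Fin 3) (k : ℕ)
  | cst (k : ℕ)
  | v1 (j : Fin 3)
  | v2 (j : Fin 3)
  | zc (j : Fin 3)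
  | eig (j : Fin 3)
  | pv
  | pL
  | pLL
  | it (o : Option (List Bool))
  | s1
  | s2
  | s3

/-- A code for the names. -/
def Eqn.code : Eqn → ℕ × Fin 3 × ℕ × Option (List Bool)
  | pz j k => (0, j, k, none)
  | cst k => (1, 0, k, none)
  | v1 j => (2, j, 0, none)
  | v2 j => (3, j, 0, none)
  | zc j => (4, j, 0, none)
  | eig j => (5, j, 0, none)
  | pv => (6, 0, 0, none)
  | pL => (7, 0, 0, none)
  | pLL => (8, 0, 0, none)
  | it o => (9, 0, 0, o)
  | s1 => (10, 0, 0, none)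
  | s2 => (11, 0, 0, none)
  | s3 => (12, 0, 0, none)

instance : Countable Eqn :=
  Function.Injective.countable (f := Eqn.code) fun a b => by
    cases a <;> cases b <;> simp [Eqn.code]

/-- The equations, in terms of the jets of the fields, a covector and a number. -/
noncomputable def ev (v v' : E3) (D D' : E3 →L[ℝ] E3) (b : Option (List Bool) → E3) (p : Cov)
    (c : ℝ) : Eqn → ℝ
  | .pz j k => p (bv j) - k
  | .cst k => c - k
  | .v1 j => v j
  | .v2 j => v' j
  | .zc j => v' j - c * v j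
  | .eig j => D' v j - c * D v j - p (bv 0) * v j
  | .pv => p v
  | .pL => p (D' v - c • D v)
  | .pLL => p (D' (D' v - c • D v) - c • D (D' v - c • D v))
  | .it o => p (b o)
  | .s1 => c * p (b (some [true, false])) + (1 - c) * p (b (some [false, false]))
  | .s2 => c * p (b (some [true, true])) + (1 - c) * p (b (some [true, false]))
  | .s3 => cub (fun w => p (b (some w))) c (1 - c)

theorem contDiff_ev {Z : Type*} [NormedAddCommGroup Z] [NormedSpace ℝ Z] {v v' : Z → E3}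
    {D D' : Z → E3 →L[ℝ] E3} {b : Option (List Bool) → Z → E3} {p : Z → Cov} {c : Z → ℝ}
    (hv : ContDiff ℝ ∞ v) (hv' : ContDiff ℝ ∞ v') (hD : ContDiff ℝ ∞ D) (hD' : ContDiff ℝ ∞ D')
    (hb : ∀ o, ContDiff ℝ ∞ (b o)) (hp : ContDiff ℝ ∞ p) (hc : ContDiff ℝ ∞ c) (e : Eqn) :
    ContDiff ℝ ∞ fun z => ev (v z) (v' z) (D z) (D' z) (fun o => b o z) (p z) (c z) e := by
  cases e <;> simp only [ev, cub] <;> fun_prop

/-- The equations for a pair of fields at a point. -/
noncomputable def evs (Y Y' : E3 → E3) (q : E3) (p : Cov) (c : ℝ) : Eqn → ℝ :=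
  ev (Y q) (Y' q) (fderiv ℝ Y q) (fderiv ℝ Y' q) (item Y Y' q) p c

/-- A direction of perturbation. -/
structure Mv : Type where
  α : Cov
  β : Cov
  a : ℕ
  b : ℕ
  e : E3
  e' : E3
  dp : Cov
  dc : ℝ

/-- The equations after a perturbation. -/
noncomputable def evm (Y Y' : E3 → E3) (q : E3) (p : Cov) (c : ℝ) (m : Mv) (s : ℝ) : Eqn → ℝ :=
  evs (Y + s • mvf m.α m.β q m.a m.b m.e) (Y' + s • mvf m.α m.β q m.a m.b m.e') q (p + s • m.dp)
    (c + s * m.dc)

/-- The equations `σ` can be moved one after the other. -/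
structure Tri (Y Y' : E3 → E3) (q : E3) (p : Cov) (c : ℝ) {N : ℕ} (σ : Fin N → Eqn)
    (m : Fin N → Mv) (k : Fin N → ℝ) : Prop where
  deg : ∀ j, (m j).a + (m j).b ≤ 5
  ne : ∀ j, k j ≠ 0
  lt : ∀ j i, i < j → ∀ s, evm Y Y' q p c (m j) s (σ i) = evs Y Y' q p c (σ i)
  eq : ∀ j s, evm Y Y' q p c (m j) s (σ j) = evs Y Y' q p c (σ j) + s * k j

/-- No triangular system of eight equations has a solution. -/
def Free (Y Y' : E3 → E3) : Prop :=
  ∀ (σ : Fin 8 → Eqn) q p c m k, Tri Y Y' q p c σ m k → ∃ i, evs Y Y' q p c (σ i) ≠ 0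

theorem Tri.comp {Y Y' : E3 → E3} {q : E3} {p : Cov} {c : ℝ} {N M : ℕ} {σ : Fin N → Eqn}
    {m : Fin N → Mv} {k : Fin N → ℝ} (h : Tri Y Y' q p c σ m k) {f : Fin M → Fin N}
    (hf : StrictMono f) : Tri Y Y' q p c (σ ∘ f) (m ∘ f) (k ∘ f) :=
  ⟨fun _ => h.deg _, fun _ => h.ne _, fun _ _ hij => h.lt _ _ (hf hij), fun _ => h.eq _⟩

section
variable {P : Type*} [NormedAddCommGroup P] [NormedSpace ℝ P] {F G : P → E3 → E3}

theorem joint_fderiv (hF : ContDiff ℝ ∞ fun z : P × E3 => F z.1 z.2) :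
    ContDiff ℝ ∞ fun z : P × E3 => fderiv ℝ (F z.1) z.2 :=
  ContDiff.fderiv (m := ∞) (f := fun z : P × E3 => F z.1)
    (hF.comp (contDiff_fst.fst.prodMk contDiff_snd)) contDiff_snd le_rfl

theorem joint_item (hF : ContDiff ℝ ∞ fun z : P × E3 => F z.1 z.2)
    (hG : ContDiff ℝ ∞ fun z : P × E3 => G z.1 z.2) (o : Option (List Bool)) :
    ContDiff ℝ ∞ fun z : P × E3 => item (F z.1) (G z.1) z.2 o := by
  cases o with
  | none => exact hF.sub hG
  | some w =>
    induction w with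
    | nil => exact ((joint_fderiv hF).clm_apply hG).sub ((joint_fderiv hG).clm_apply hF)
    | cons i w ih =>
      have h := joint_fderiv (F := fun θ => br (F θ) (G θ) w) ih
      cases i
      · exact (h.clm_apply hG).sub ((joint_fderiv hG).clm_apply ih)
      · exact (h.clm_apply hF).sub ((joint_fderiv hF).clm_apply ih)

theorem joint_evs (hF : ContDiff ℝ ∞ fun z : P × E3 => F z.1 z.2)
    (hG : ContDiff ℝ ∞ fun z : P × E3 => G z.1 z.2) (e : Eqn) :
    ContDiff ℝ 1 fun z : P × E3 × Cov × ℝ =>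
      evs (F z.1) (G z.1) z.2.1 z.2.2.1 z.2.2.2 e := by
  have hπ : ContDiff ℝ ∞ fun z : P × E3 × Cov × ℝ => (z.1, z.2.1) := by fun_prop
  exact (contDiff_ev (v := fun z : P × E3 × Cov × ℝ => F z.1 z.2.1) (v' := fun z => G z.1 z.2.1)
    (D := fun z => fderiv ℝ (F z.1) z.2.1) (D' := fun z => fderiv ℝ (G z.1) z.2.1)
    (b := fun o z => item (F z.1) (G z.1) z.2.1 o) (p := fun z => z.2.2.1)
    (c := fun z => z.2.2.2) (hF.comp hπ) (hG.comp hπ) ((joint_fderiv hF).comp hπ)
    ((joint_fderiv hG).comp hπ) (fun o => (joint_item hF hG o).comp hπ)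
    (by fun_prop) (by fun_prop) e).of_le (le_inf' 1)

end

/-- The perturbed field. -/
noncomputable def pert {ι : Type} [Fintype ι] (X : E3 → E3) (A : ι → E3 → E3) (θ : ι → ℝ) :
    E3 → E3 := fun y => X y + ∑ i, θ i • A i y

theorem joint_pert {ι : Type} [Fintype ι] {A : ι → E3 → E3} {X : E3 → E3}
    (hA : ∀ i, ContDiff ℝ ∞ (A i)) (hX : ContDiff ℝ ∞ X) :
    ContDiff ℝ ∞ fun z : (ι → ℝ) × E3 => pert X A z.1 z.2 := by
  unfold pert
  fun_prop

theorem pert_add {ι : Type} [Fintype ι] {A : ι → E3 → E3} {X V : E3 → E3} {θ t : ι → ℝ}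
    (h : ∀ y, ∑ i, t i • A i y = V y) (s : ℝ) : pert X A (θ + s • t) = pert X A θ + s • V := by
  funext y
  simp [pert, ← h, add_smul, mul_smul, Finset.sum_add_distrib, Finset.smul_sum, add_assoc]

theorem ae_free {ι : Type} [Fintype ι] {A A' : ι → E3 → E3} {X X' : E3 → E3}
    (hA : ∀ i, ContDiff ℝ ∞ (A i)) (hA' : ∀ i, ContDiff ℝ ∞ (A' i)) (hX : ContDiff ℝ ∞ X)
    (hX' : ContDiff ℝ ∞ X')
    (rich : ∀ α β q a b e e', a + b ≤ 5 → ∃ θ : ι → ℝ,
      (∀ y, ∑ i, θ i • A i y = mvf α β q a b e y) ∧ ∀ y, ∑ i, θ i • A' i y = mvf α β q a b e' y) :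
    ∀ᵐ θ : ι → ℝ, Free (pert X A θ) (pert X' A' θ) := by
  refine ae_all_iff.2 fun σ => ?_
  have hS := fun i => joint_evs (joint_pert hA hX) (joint_pert hA' hX') (σ i)
  have hN : Module.finrank ℝ (E3 × Cov × ℝ) < 8 := by
    simp [Module.finrank_prod, ← (LinearMap.toContinuousLinearMap (𝕜 := ℝ) (E := E3)
      (F' := ℝ)).finrank_eq]
  filter_upwards [ae_not_tri hN hS] with θ hθ q p c m k h
  by_contra! h0
  choose t ht ht' using fun j => rich (m j).α (m j).β q _ _ (m j).e (m j).e' (h.deg j)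
  refine hθ (q, p, c) (fun j => (t j, 0, (m j).dp, (m j).dc)) k h.ne (fun j i hij s => ?_)
    fun j s => ?_
  · simpa [h0, evm, pert_add (ht j), pert_add (ht' j)] using h.lt j i hij s
  · simpa [h0, evm, pert_add (ht j), pert_add (ht' j)] using h.eq j s

end Pool.Agent.Lib.MP_f4f7c0_an.GenB
end

-- part Pool.Agent.Lib.MP_f4f7c0_an.GenStrata
section

/-! The strata of bad points are empty for a free pair of fields. -/

namespace Pool.Agent.Lib.MP_f4f7c0_an.GenB

open Set Filter Topology VectorField MeasureTheory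
open scoped ContDiff

variable {Y Y' : E3 → E3} {q e : E3} {p α β ξ η : Cov} {c : ℝ} {a b : ℕ}

theorem mvf_zero : mvf α β q a b 0 = 0 := by
  funext y
  simp [mvf]

theorem mvf_self : mvf α β q a b e q = (0 ^ a * 0 ^ b : ℝ) • e := by simp [mvf, mon_self]

theorem fderiv_add_mvf (hY : ContDiff ℝ ∞ Y) (s : ℝ) (v : E3) :
    fderiv ℝ (Y + s • mvf α β q a b e) q v = fderiv ℝ Y q v +
      (s * (a * (0 ^ (a - 1) * 0 ^ b) * α v + b * (0 ^ a * 0 ^ (b - 1)) * β v)) • e := by
  have h : DifferentiableAt ℝ (mvf α β q a b e) q := van_mvf.1.differentiable (by simp) q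
  rw [fderiv_add (hY.differentiable (by simp) q) (h.const_smul s), fderiv_const_smul h]
  simp [fderiv_mvf, mon_self, smul_smul]

/-- Move the covector. -/
def mP (p : Cov) : Mv := ⟨0, 0, 0, 0, 0, 0, p, 0⟩

/-- Move the number. -/
def mC : Mv := ⟨0, 0, 0, 0, 0, 0, 0, 1⟩

/-- Move the fields. -/
def mV (α β : Cov) (a b : ℕ) (e e' : E3) : Mv := ⟨α, β, a, b, e, e', 0, 0⟩

theorem evm_mP (p' : Cov) (s : ℝ) : evm Y Y' q p c (mP p') s = evs Y Y' q (p + s • p') c := by
  simp [evm, mP, mvf_zero]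

theorem evm_mC (s : ℝ) : evm Y Y' q p c mC s = evs Y Y' q p (c + s) := by
  simp [evm, mC, mvf_zero]

theorem evm_mV (e e' : E3) (s : ℝ) : evm Y Y' q p c (mV α β a b e e') s =
    evs (Y + s • mvf α β q a b e) (Y' + s • mvf α β q a b e') q p c := by
  simp [evm, mV]

theorem t0 (F : Free Y Y') (h : Y q = 0) (h' : Y' q = 0) : False := by
  obtain ⟨i, hi⟩ := F ![.cst 0, .pz 0 0, .v1 0, .v1 1, .v1 2, .v2 0, .v2 1, .v2 2] q 0 0
    ![mC, mP (EuclideanSpace.proj 0), mV 0 0 0 0 (bv 0) 0, mV 0 0 0 0 (bv 1) 0,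
      mV 0 0 0 0 (bv 2) 0, mV 0 0 0 0 0 (bv 0), mV 0 0 0 0 0 (bv 1), mV 0 0 0 0 0 (bv 2)]
    (fun _ => 1) ⟨by simp [Fin.forall_fin_succ, mC, mP, mV], by simp,
      by simp [Fin.forall_fin_succ, evm_mC, evm_mP, evm_mV, evs, ev, mvf_self],
      by simp [Fin.forall_fin_succ, evm_mC, evm_mP, evm_mV, evs, ev, mvf_self]⟩
  revert i
  simp [Fin.forall_fin_succ, evs, ev, h, h']

theorem t1 (F : Free Y Y') (hY' : ContDiff ℝ ∞ Y') (hξ : ξ (Y q) = 1) (h : Y' q = c • Y q)
    (c' : ℝ) : fderiv ℝ Y' q (Y q) - c • fderiv ℝ Y q (Y q) ≠ c' • Y q := fun h' => by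
  obtain ⟨i, hi⟩ := F ![.pz 1 0, .pz 2 0, .zc 0, .zc 1, .zc 2, .eig 0, .eig 1, .eig 2] q
    (c' • EuclideanSpace.proj 0) c
    ![mP (EuclideanSpace.proj 1), mP (EuclideanSpace.proj 2), mV 0 0 0 0 0 (bv 0),
      mV 0 0 0 0 0 (bv 1), mV 0 0 0 0 0 (bv 2), mV ξ 0 1 0 0 (bv 0), mV ξ 0 1 0 0 (bv 1),
      mV ξ 0 1 0 0 (bv 2)]
    (fun _ => 1) ⟨by simp [Fin.forall_fin_succ, mP, mV], by simp,
      by simp [Fin.forall_fin_succ, evm_mP, evm_mV, evs, ev, mvf_self, mvf_zero,
        fderiv_add_mvf hY', hξ],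
      by
        simp [Fin.forall_fin_succ, evm_mP, evm_mV, evs, ev, mvf_self, mvf_zero,
          fderiv_add_mvf hY', hξ]
        refine ⟨?_, ?_, ?_, ?_, ?_, ?_⟩ <;> intro s <;> ring⟩
  revert i
  simp [Fin.forall_fin_succ, evs, ev, h, sub_eq_iff_eq_add.1 h']

theorem t56 (F : Free Y Y') (hY : ContDiff ℝ ∞ Y) (hY' : ContDiff ℝ ∞ Y') {n : Fin 3}
    (hp : p (bv n) = 1) (h1 : α (Y q) = 1) (h2 : β (Y q) = 0) (o : Fin 6 → Option (List Bool))
    (h3 : (∀ i, (cnt (o i)).2 = 0) ∨ (α (Y' q) = 0 ∧ β (Y' q) = 1))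
    (h4 : ∀ j, (cnt (o j)).1 + (cnt (o j)).2 ≤ 5 ∧ kap (cnt (o j)).1 (cnt (o j)).2 (o j) ≠ 0 ∧
      ∀ i < j, (cnt (o i)).1 + (cnt (o i)).2 ≤ (cnt (o j)).1 + (cnt (o j)).2 ∧
        kap (cnt (o j)).1 (cnt (o j)).2 (o i) = 0) : ∃ i, p (item Y Y' q (o i)) ≠ 0 := by
  have key : ∀ i a b (s : ℝ), (cnt (o i)).1 + (cnt (o i)).2 ≤ a + b →
      p (item Y (Y' + s • mvf α β q a b (bv n)) q (o i)) =
        p (item Y Y' q (o i)) - s * kap a b (o i) := fun i a b s h => by
    rw [item_mvf hY hY' s h1 h2 _ (fun h => h3.resolve_left fun h' => h (h' i)) h]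
    simp [hp]
  obtain ⟨i, hi⟩ := F (Fin.cons (.pz n 1) (Fin.cons (.cst 0) fun i => .it (o i))) q p 0
    (Fin.cons (mP p) (Fin.cons mC fun j => mV α β (cnt (o j)).1 (cnt (o j)).2 0 (bv n)))
    (Fin.cons 1 (Fin.cons 1 fun j => -kap (cnt (o j)).1 (cnt (o j)).2 (o j)))
    ⟨Fin.cases (by simp [mP]) (Fin.cases (by simp [mC]) fun j => (h4 j).1),
      Fin.cases (by simp) (Fin.cases (by simp) fun j => by simpa using (h4 j).2.1),
      Fin.cases (by simp) (Fin.cases (by simp [evm_mC, evs, ev]) fun j =>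
        Fin.cases (by simp [evm_mV, evs, ev]) (Fin.cases (by simp [evm_mV, evs, ev])
          fun i hij s => by
            have := (h4 j).2.2 i (by simpa using hij)
            simp [evm_mV, evs, ev, mvf_zero, key i _ _ s this.1, this.2])),
      Fin.cases (by simp [evm_mP, evs, ev, hp]) (Fin.cases (by simp [evm_mC, evs, ev])
        fun j s => by simp [evm_mV, evs, ev, mvf_zero, key j _ _ s le_rfl, sub_eq_add_neg])⟩
  revert i
  exact Fin.cases (by simp [evs, ev, hp]) (Fin.cases (by simp [evs, ev]) fun i hi => ⟨i, hi⟩)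

theorem t7 (F : Free Y Y') (hY : ContDiff ℝ ∞ Y) (hY' : ContDiff ℝ ∞ Y') {n : Fin 3}
    (hp : p (bv n) = 1) (h1 : α (Y q) = 1) (h2 : β (Y q) = 0) (h3 : α (Y' q) = 0)
    (h4 : β (Y' q) = 1) (hc : c ≠ 0) (e0 : p (Y q - Y' q) = 0) (e1 : p (br Y Y' [] q) = 0)
    (e2 : p (br Y Y' [true] q) = 0) (e3 : p (br Y Y' [false] q) = 0)
    (e4 : c * p (br Y Y' [true, true] q) + (1 - c) * p (br Y Y' [true, false] q) = 0)
    (e5 : c * p (br Y Y' [true, false] q) + (1 - c) * p (br Y Y' [false, false] q) = 0) :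
    cub (fun w => p (br Y Y' w q)) c (1 - c) ≠ 0 := by
  have key : ∀ o a b (s : ℝ), (cnt o).1 + (cnt o).2 ≤ a + b →
      p (item Y (Y' + s • mvf α β q a b (bv n)) q o) = p (item Y Y' q o) - s * kap a b o :=
    fun o a b s h => by
      rw [item_mvf hY hY' s h1 h2 _ (fun _ => ⟨h3, h4⟩) h]
      simp [hp]
  obtain ⟨i, hi⟩ := F ![.pz n 1, .it none, .it (some []), .it (some [true]), .it (some [false]),
      .s1, .s2, .s3] q p c
    ![mP p, mV α β 0 0 0 (bv n), mV α β 1 0 0 (bv n), mV α β 2 0 0 (bv n), mV α β 1 1 0 (bv n),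
      mV α β 2 1 0 (bv n), mV α β 3 0 0 (bv n), mV α β 4 0 0 (bv n)]
    ![1, -1, -1, -2, -1, -2 * c, -6 * c, -24 * c ^ 3]
    ⟨by simp [Fin.forall_fin_succ, mP, mV], by simp [Fin.forall_fin_succ, hc],
      by simp (disch := decide) [Fin.forall_fin_succ, evm_mV, evs, ev, mvf_zero, key, kap, cnt],
      by
        simp (disch := decide) [Fin.forall_fin_succ, evm_mP, evm_mV, evs, ev, mvf_zero, key, kap,
          cnt, cub, hp]
        refine ⟨?_, ?_, ?_, ?_, ?_, ?_, ?_⟩ <;> intro s <;> ring⟩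
  revert i
  simp [Fin.forall_fin_succ, evs, ev, item, hp, e0, e1, e2, e3, e4, e5, -map_sub]

theorem t234 (F : Free Y Y') (hY : ContDiff ℝ ∞ Y) (hY' : ContDiff ℝ ∞ Y') {n : Fin 3}
    (hp : p (bv n) = 1) (hξ : ξ (Y q) = 1) (h1 : η (Y q) = 0)
    (h2 : η (fderiv ℝ Y' q (Y q) - c • fderiv ℝ Y q (Y q)) = 1) (k : ℕ) (r : Fin 9) :
    ∃ i ≠ r, evs Y Y' q p c
      (![.pz n 1, .cst k, .zc 0, .zc 1, .zc 2, .pv, .pL, .pLL, .it (some [true])] i) ≠ 0 := by
  have key : ∀ s : ℝ, p (item Y (Y' + s • mvf ξ 0 q 2 0 (bv n)) q (some [true])) =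
      p (item Y Y' q (some [true])) - s * 2 := fun s => by
    rw [item_mvf hY hY' s hξ (by simp) _ (by simp [cnt]) (by simp [cnt])]
    simp [hp, kap, cnt]
  have hs : ∀ (x y : E3) (s : ℝ), p (x + s • bv n - y) = p (x - y) + s := fun x y s => by
    simp [hp]
    ring
  have T : Tri Y Y' q p c
      ![.pz n 1, .cst k, .zc 0, .zc 1, .zc 2, .pv, .pL, .pLL, .it (some [true])]
      ![mP p, mC, mV 0 0 0 0 0 (bv 0), mV 0 0 0 0 0 (bv 1), mV 0 0 0 0 0 (bv 2),
        mV 0 0 0 0 (bv n) (c • bv n), mV ξ 0 1 0 0 (bv n), mV η 0 1 0 0 (bv n),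
        mV ξ 0 2 0 0 (bv n)] ![1, 1, 1, 1, 1, 1, 1, 1, -2] :=
    ⟨by simp [Fin.forall_fin_succ, mP, mC, mV], by simp [Fin.forall_fin_succ],
      by
        simp [Fin.forall_fin_succ, evm_mC, evm_mV, evs, ev, mvf_self, mvf_zero,
          fderiv_add_mvf hY', h1, -PiLp.single_apply]
        refine ⟨?_, ?_, ?_⟩ <;> intro s <;> ring,
      by
        simp [Fin.forall_fin_succ, evm_mP, evm_mC, evm_mV, evs, ev, mvf_self, mvf_zero,
          fderiv_add_mvf hY', hξ, h1, h2, hp, key, hs, -map_sub]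
        refine ⟨?_, ?_, ?_, ?_, ?_⟩ <;> intro s <;> ring⟩
  obtain ⟨i, hi⟩ := F _ _ _ _ _ _ (T.comp (Fin.strictMono_succAbove r))
  exact ⟨_, Fin.succAbove_ne r i, hi⟩

end Pool.Agent.Lib.MP_f4f7c0_an.GenB
end

-- part Pool.Agent.Lib.MP_f4f7c0_an.Generic
section

/-! Genericity in a chart: good perturbations are dense in a finite dimensional family. -/

namespace Pool.Agent.Lib.MP_f4f7c0_an

open Set Filter Topology VectorField MeasureTheory
open scoped ContDiff

namespace GenB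

variable {Y Y' : E3 → E3} {q : E3} {p : Cov} {c : ℝ}

theorem exists_cov {v w : E3} (h : ∀ c : ℝ, w ≠ c • v) : ∃ β : Cov, β v = 0 ∧ β w = 1 := by
  obtain ⟨f, h1, h2⟩ := Submodule.exists_le_ker_of_notMem (p := Submodule.span ℝ {v}) (v := w)
    fun hw => by
      obtain ⟨c, hc⟩ := Submodule.mem_span_singleton.1 hw
      exact h c hc.symm
  have h3 : f v = 0 := h2 (Submodule.mem_span_singleton_self v)
  exact ⟨(f w)⁻¹ • LinearMap.toContinuousLinearMap f, by simp [h3], by simp [h1]⟩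

theorem good_of_norm (h : ∀ (p : Cov) (n : Fin 3), p (bv n) = 1 → p (Y q - Y' q) = 0 →
    p (br Y Y' [] q) = 0 → Gen fun w => p (br Y Y' w q)) : Good Y Y' q := by
  intro p hp h1 h2
  obtain ⟨n, hn⟩ : ∃ n, p (bv n) ≠ 0 := by
    by_contra! h0
    refine hp (ContinuousLinearMap.ext fun v => ?_)
    rw [← (EuclideanSpace.basisFun (Fin 3) ℝ).sum_repr v]
    simp [h0]
  exact (h ((p (bv n))⁻¹ • p) n (by simp [hn]) (by simp [h1, -map_sub]) (by simp [h2])).congr
    (d := 1) hn one_ne_zero fun w _ => by simp [hn]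

theorem g1_true (F : Free Y Y') (hY : ContDiff ℝ ∞ Y) (hY' : ContDiff ℝ ∞ Y') {n : Fin 3}
    (hp : p (bv n) = 1) (hv : Y q ≠ 0) (e0 : p (Y q - Y' q) = 0) (e1 : p (br Y Y' [] q) = 0) :
    ∃ j ≤ 3, p (br Y Y' (List.replicate (j + 1) true) q) ≠ 0 := by
  obtain ⟨α, -, hα⟩ := exists_cov (v := 0) (w := Y q) (by simpa using hv)
  by_contra! h
  obtain ⟨i, hi⟩ := t56 (β := 0) F hY hY' hp hα rfl ![none, some [], some [true],
    some [true, true], some [true, true, true], some [true, true, true, true]]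
    (Or.inl (by decide)) (by decide)
  fin_cases i
  exacts [hi e0, hi e1, hi (h 0 (by simp)), hi (h 1 (by simp)), hi (h 2 (by simp)),
    hi (h 3 (by simp))]

theorem g1_false (F : Free Y' Y) (hY : ContDiff ℝ ∞ Y) (hY' : ContDiff ℝ ∞ Y') {n : Fin 3}
    (hp : p (bv n) = 1) (hv : Y' q ≠ 0) (e0 : p (Y q - Y' q) = 0) (e1 : p (br Y Y' [] q) = 0) :
    ∃ j ≤ 3, p (br Y Y' (List.replicate (j + 1) false) q) ≠ 0 := by
  simpa [br_swap (X := Y)] using g1_true F hY' hY hp hv (by rw [← neg_sub, map_neg, e0, neg_zero])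
    (by simpa [br_swap (X := Y)] using e1)

theorem good_ind (F : Free Y Y') (F' : Free Y' Y) (hY : ContDiff ℝ ∞ Y) (hY' : ContDiff ℝ ∞ Y')
    (h : ∀ c : ℝ, Y' q ≠ c • Y q) (h' : ∀ c : ℝ, Y q ≠ c • Y' q) : Good Y Y' q := by
  obtain ⟨α, a2, a1⟩ := exists_cov h'
  obtain ⟨β, b1, b2⟩ := exists_cov h
  refine good_of_norm fun p n hp e0 e1 => ?_
  have t6 : ∀ w1 w2 : List Bool, (w1, w2) ∈ [([true, true], [false, false]),
      ([true, true], [true, false]), ([false, false], [true, false]),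
      ([true, true], [true, true, true]), ([false, false], [false, false, false])] →
      p (br Y Y' [true] q) = 0 → p (br Y Y' [false] q) = 0 → p (br Y Y' w1 q) = 0 →
      p (br Y Y' w2 q) ≠ 0 := fun w1 w2 hw e2 e3 e4 e5 => by
    obtain ⟨i, hi⟩ := t56 F hY hY' hp a1 b1 ![none, some [], some [true], some [false],
      some w1, some w2] (Or.inr ⟨a2, b2⟩) (by
        simp only [List.mem_cons, Prod.mk.injEq, List.not_mem_nil, or_false] at hw
        rcases hw with ⟨rfl, rfl⟩ | ⟨rfl, rfl⟩ | ⟨rfl, rfl⟩ | ⟨rfl, rfl⟩ | ⟨rfl, rfl⟩ <;> decide)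
    fin_cases i
    exacts [hi e0, hi e1, hi e2, hi e3, hi e4, hi e5]
  refine ⟨fun i => ?_, t6 _ _ (by simp), fun i => t6 _ _ (by cases i <;> simp),
    fun i => t6 _ _ (by cases i <;> simp), fun e2 e3 P _ e4 e5 => ?_⟩
  · cases i
    · exact g1_false F' hY hY' hp (by simpa using (h 0)) e0 e1
    · exact g1_true F hY hY' hp (by simpa using (h' 0)) e0 e1
  · by_cases hP : P = 0
    · subst hP
      simpa [cub] using t6 [false, false] [false, false, false] (by simp) e2 e3 (by simpa using e5)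
    · exact t7 F hY hY' hp a1 b1 a2 b2 hP e0 e1 e2 e3 e4 e5

theorem good_dep (F : Free Y Y') (F' : Free Y' Y) (hY : ContDiff ℝ ∞ Y) (hY' : ContDiff ℝ ∞ Y')
    (h : Y' q = c • Y q) : Good Y Y' q := by
  have hv : Y q ≠ 0 := fun h0 => t0 F h0 (by simp [h, h0])
  obtain ⟨ξ, -, hξ⟩ := exists_cov (v := 0) (w := Y q) (by simpa using hv)
  obtain ⟨η, h1, h2⟩ := exists_cov (t1 F hY' hξ h)
  refine good_of_norm fun p n hp e0 e1 => ?_
  have b0 : br Y Y' [] q = -(fderiv ℝ Y' q (Y q) - c • fderiv ℝ Y q (Y q)) := by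
    simp [br, lieBracket, h]
  set u := fderiv ℝ Y' q (Y q) - c • fderiv ℝ Y q (Y q) with hu
  have b1 : p (fderiv ℝ Y' q u - c • fderiv ℝ Y q u) =
      p (br Y Y' [false] q) - c * p (br Y Y' [true] q) := by
    have : fderiv ℝ Y' q u - c • fderiv ℝ Y q u = br Y Y' [false] q - c • br Y Y' [true] q := by
      simp only [br, cond_true, cond_false] at b0 ⊢
      rw [lieBracket, lieBracket.eq_1 ℝ Y, b0, h]
      simp only [map_neg, map_smul]
      module
    simp [this]
  have e2 : p u = 0 := by simpa [b0] using e1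
  have e3 : (1 - c) * p (Y q) = 0 := by
    rw [h, map_sub, map_smul, smul_eq_mul] at e0
    linear_combination e0
  have T := fun k r => t234 F hY hY' hp hξ h1 h2 k r
  simp only [ne_eq, Fin.exists_fin_succ, evs, ev, item, ← hu, hp, h, b1, e2, Matrix.cons_val_zero,
    Matrix.cons_val_succ] at T
  have key : p (br Y Y' [true] q) = 0 → p (br Y Y' [false] q) = 0 → False := fun e4 e5 => by
    by_cases hc : c = 1
    · simpa [hc, e4, e5] using T 1 5
    · simpa [e4, e5, (mul_eq_zero.1 e3).resolve_left (sub_ne_zero.2 (Ne.symm hc))] using T 0 1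
  refine ⟨fun i => ?_, fun a b => (key a b).elim, fun _ a b => (key a b).elim,
    fun _ a b => (key a b).elim, fun a b => (key a b).elim⟩
  cases i
  · by_cases hc : c = 0
    · refine ⟨0, by simp, fun e5 => ?_⟩
      have e5 : p (br Y Y' [false] q) = 0 := e5
      simpa [hc, e5, show p (Y q) = 0 by simpa [hc] using e3] using T 0 8
    · exact g1_false F' hY hY' hp (by simp [h, hc, hv]) e0 e1
  · exact g1_true F hY hY' hp hv e0 e1

theorem good_of_free (F : Free Y Y') (F' : Free Y' Y) (hY : ContDiff ℝ ∞ Y)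
    (hY' : ContDiff ℝ ∞ Y') (q : E3) : Good Y Y' q := by
  by_cases h : ∃ c : ℝ, Y' q = c • Y q
  · exact good_dep F F' hY hY' h.choose_spec
  by_cases h' : ∃ c : ℝ, Y q = c • Y' q
  · exact (good_dep F' F hY' hY h'.choose_spec).swap hY' hY
  exact good_ind F F' hY hY' (not_exists.1 h) (not_exists.1 h')

/-- Affine functions. -/
noncomputable def aff : ℝ × Cov →ₗ[ℝ] E3 → ℝ where
  toFun z y := z.1 + z.2 y
  map_add' a b := by funext y; simp; ring
  map_smul' a b := by funext y; simp; ring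

/-- A function times a vector. -/
noncomputable def fv : (E3 → ℝ) →ₗ[ℝ] E3 →ₗ[ℝ] E3 → E3 :=
  LinearMap.mk₂ ℝ (fun f v y => f y • v) (fun _ _ _ => by funext y; simp [add_smul])
    (fun _ _ _ => by funext y; simp [mul_smul]) (fun _ _ _ => by funext y; simp)
    fun c _ _ => by funext y; exact smul_comm _ c _

theorem exists_family : ∃ (n : ℕ) (g : Fin n → E3 → E3), (∀ i, ContDiff ℝ ∞ (g i)) ∧
    ∀ α β q a b e, a + b ≤ 5 → ∃ θ : Fin n → ℝ, ∀ y, ∑ i, θ i • g i y = mvf α β q a b e y := by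
  have hA : (LinearMap.range aff).FG := by
    rw [LinearMap.range_eq_map]
    exact Module.Finite.fg_top.map _
  obtain ⟨n, g, hg⟩ := Submodule.fg_iff_exists_fin_generating_family.1
    (Submodule.FG.map₂ fv (hA.pow 5) Module.Finite.fg_top)
  have h1 : ∀ k, ∀ f ∈ LinearMap.range aff ^ k, ContDiff ℝ ∞ f := fun k f hf => by
    induction hf using Submodule.pow_induction_on_left' with
    | algebraMap r => exact contDiff_const
    | add x y i _ _ hx hy => exact hx.add hy
    | mem_mul m hm i x _ hx =>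
      obtain ⟨z, rfl⟩ := hm
      exact (contDiff_const.add z.2.contDiff).mul hx
  have h2 : ∀ V ∈ Submodule.map₂ fv (LinearMap.range aff ^ 5) ⊤, ContDiff ℝ ∞ V := fun V hV => by
    rw [Submodule.map₂_eq_span_image2] at hV
    induction hV using Submodule.span_induction with
    | mem x h =>
      obtain ⟨f, hf, v, -, rfl⟩ := h
      exact (h1 5 f hf).smul (contDiff_const (c := v))
    | zero => exact contDiff_const
    | add x y _ _ hx hy => exact hx.add hy
    | smul c x _ hx => exact hx.const_smul c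
  refine ⟨n, g, fun i => h2 _ (hg ▸ Submodule.subset_span ⟨i, rfl⟩), fun α β q a b e hab => ?_⟩
  have h3 : ∀ γ : Cov, (fun y => γ (y - q)) ∈ LinearMap.range aff := fun γ =>
    ⟨(-γ q, γ), by funext y; simp [aff]; ring⟩
  have h4 : (1 : E3 → ℝ) ∈ LinearMap.range aff := ⟨(1, 0), by funext y; simp [aff]⟩
  have h5 := Submodule.mul_mem_mul (Submodule.mul_mem_mul (Submodule.pow_mem_pow _ (h3 α) a)
    (Submodule.pow_mem_pow _ (h3 β) b)) (Submodule.pow_mem_pow _ h4 (5 - (a + b)))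
  rw [← pow_add, ← pow_add, Nat.add_sub_cancel' hab, one_pow, mul_one] at h5
  have h6 := Submodule.apply_mem_map₂ fv h5 (Submodule.mem_top (x := e))
  rw [← hg] at h6
  obtain ⟨θ, hθ⟩ := (Submodule.mem_span_range_iff_exists_fun ℝ).1 h6
  exact ⟨θ, fun y => by simpa [fv, mvf, mon] using congrFun hθ y⟩

end GenB

open GenB in
theorem dense_good : DenseGood := by
  obtain ⟨n, g, hg, rich⟩ := exists_family
  have hA : ∀ i, ContDiff ℝ ∞ (Sum.elim g (fun _ : Fin n => (0 : E3 → E3)) i) := by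
    rintro (i | i)
    exacts [hg i, contDiff_const]
  have hA' : ∀ i, ContDiff ℝ ∞ (Sum.elim (fun _ : Fin n => (0 : E3 → E3)) g i) := by
    rintro (i | i)
    exacts [contDiff_const, hg i]
  refine ⟨Fin n ⊕ Fin n, inferInstance, _, _, fun i => ⟨hA i, hA' i⟩, fun X X' hX hX' => ?_⟩
  have R : ∀ α β q a b e e', a + b ≤ 5 → ∃ θ : Fin n ⊕ Fin n → ℝ,
      (∀ y, ∑ i, θ i • Sum.elim g (fun _ : Fin n => (0 : E3 → E3)) i y = mvf α β q a b e y) ∧
      ∀ y, ∑ i, θ i • Sum.elim (fun _ : Fin n => (0 : E3 → E3)) g i y = mvf α β q a b e' y :=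
    fun α β q a b e e' h => by
      obtain ⟨θ, h1⟩ := rich α β q a b e h
      obtain ⟨θ', h2⟩ := rich α β q a b e' h
      exact ⟨Sum.elim θ θ', by simpa using h1, by simpa using h2⟩
  refine Measure.dense_of_ae (μ := volume) ?_
  filter_upwards [ae_free hA hA' hX hX' R, ae_free hA' hA hX' hX fun α β q a b e e' h =>
    (R α β q a b e' e h).imp fun _ h => h.symm] with θ F F' q
  exact good_of_free F F' ((joint_pert hA hX).comp (contDiff_const.prodMk contDiff_id))
    ((joint_pert hA' hX').comp (contDiff_const.prodMk contDiff_id)) q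

end Pool.Agent.Lib.MP_f4f7c0_an
end

-- part Pool.Agent.Lib.MP_f4f7c0_an.GlueAdm
section

/-! Admissible trajectories: reversal, restriction, shift and concatenation. -/

namespace Pool.Agent.Lib.MP_f4f7c0_an

open Set Filter Topology MeasureTheory
open scoped Manifold ContDiff

variable {M : Type*} [TopologicalSpace M] [ChartedSpace E3 M] [IsManifold (𝓡 3) ∞ M]

namespace Glue

/-- The curve `q` has velocity `v` at time `t`. -/
def HD (q : ℝ → M) (t : ℝ) (v : E3) : Prop :=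
  HasMFDerivAt 𝓘(ℝ, ℝ) (𝓡 3) q t (ContinuousLinearMap.toSpanSingleton ℝ v)

/-- The controlled velocity. -/
noncomputable def vel (f g : VF M) (u : ℝ) (x : M) : E3 := f x + u • g x

omit [IsManifold (𝓡 3) ∞ M] in
theorem HD.congr {q q' : ℝ → M} {t : ℝ} {v : E3} (h : HD q t v) (hq : q' =ᶠ[𝓝 t] q) :
    HD q' t v := HasMFDerivAt.congr_of_eventuallyEq (f := q) h hq

omit [IsManifold (𝓡 3) ∞ M] in
theorem HD.comp {q : ℝ → M} {t c : ℝ} {v : E3} {σ : ℝ → ℝ} (h : HD q (σ t) v)
    (hσ : HasDerivAt σ c t) : HD (fun τ => q (σ τ)) t (c • v) := by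
  have := HasMFDerivAt.comp t h hσ.hasFDerivAt.hasMFDerivAt
  refine this.congr_mfderiv ?_
  ext
  exact (by simp : ContinuousLinearMap.toSpanSingleton ℝ v
    (ContinuousLinearMap.toSpanSingleton ℝ c 1) = ContinuousLinearMap.toSpanSingleton ℝ (c • v) 1)

theorem lip_union {F : ℝ → E3} {C D : NNReal} {A B : Set ℝ} {c : ℝ} (hA : LipschitzOnWith C F A)
    (hB : LipschitzOnWith D F B) (h1 : A ⊆ Iic c) (h2 : B ⊆ Ici c) (hcA : c ∈ A) (hcB : c ∈ B) :
    LipschitzOnWith (max C D) F (A ∪ B) := by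
  have hA' := hA.weaken (le_max_left C D)
  have hB' := hB.weaken (le_max_right C D)
  have key : ∀ x ∈ A, ∀ y ∈ B, dist (F x) (F y) ≤ (max C D : NNReal) * dist x y := by
    intro x hx y hy
    have e1 := hA'.dist_le_mul x hx c hcA
    have e2 := hB'.dist_le_mul c hcB y hy
    have e3 : dist x y = dist x c + dist c y := by
      have := h1 hx
      have := h2 hy
      simp only [Real.dist_eq, mem_Iic, mem_Ici] at *
      rw [abs_of_nonpos (by linarith), abs_of_nonpos (by linarith), abs_of_nonpos (by linarith)]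
      ring
    rw [e3, mul_add]
    linarith [dist_triangle (F x) (F c) (F y)]
  refine LipschitzOnWith.of_dist_le_mul ?_
  rintro x (hx | hx) y (hy | hy)
  · exact hA'.dist_le_mul x hx y hy
  · exact key x hx y hy
  · rw [dist_comm, dist_comm x]; exact key y hy x hx
  · exact hB'.dist_le_mul x hx y hy

variable {f g : VF M} {u u' : ℝ → ℝ} {q q' : ℝ → M} {T T' s : ℝ}

theorem adm_rev (h : Admissible f g u q T) :
    Admissible (-f) (-g) (fun t => u (T - t)) (fun t => q (T - t)) T := by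
  have hm : MapsTo (fun t => T - t) (Icc 0 T) (Icc 0 T) := fun t ht =>
    ⟨by linarith [ht.2], by linarith [ht.1]⟩
  have hc : Continuous fun t : ℝ => T - t := by fun_prop
  refine ⟨h.nonneg, h.meas.comp hc.measurable, fun t => h.bound _,
    h.cont.comp hc.continuousOn hm, fun t ht => ?_, ?_⟩
  · obtain ⟨C, s, hs, hC⟩ := h.lip (T - t) (hm ht)
    have hl : LipschitzWith 1 fun t : ℝ => T - t :=
      LipschitzWith.of_dist_le_mul fun x y => by rw [dist_sub_left]; simp
    exact ⟨_, _, hc.continuousWithinAt.tendsto_nhdsWithin hm hs,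
      hC.comp hl.lipschitzOnWith fun _ h => h⟩
  · filter_upwards [(Measure.measurePreserving_sub_left volume T).quasiMeasurePreserving.ae h.ode]
      with t h1 ht
    have h2 : HD q (T - t) (vel f g (u (T - t)) (q (T - t))) :=
      h1 ⟨by linarith [ht.2], by linarith [ht.1]⟩
    have h3 := h2.comp (σ := fun t => T - t) ((hasDerivAt_id' t).const_sub T)
    have h4 : (-1 : ℝ) • vel f g (u (T - t)) (q (T - t)) =
        vel (-f) (-g) (u (T - t)) (q (T - t)) := by
      have : ∀ (a b : E3) (c : ℝ), (-1 : ℝ) • (a + c • b) = -a + c • -b := fun a b c => by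
        module
      exact this _ _ _
    rw [h4] at h3
    exact h3

theorem adm_init (h : Admissible f g u q T) (hs : s ∈ Icc 0 T) : Admissible f g u q s := by
  have hsub : Icc 0 s ⊆ Icc 0 T := Icc_subset_Icc_right hs.2
  refine ⟨hs.1, h.meas, h.bound, h.cont.mono hsub, fun t ht => ?_, ?_⟩
  · obtain ⟨C, s, hs, hC⟩ := h.lip t (hsub ht)
    exact ⟨C, s, nhdsWithin_mono _ hsub hs, hC⟩
  · filter_upwards [h.ode] with t h1 ht using h1 ⟨ht.1, ht.2.trans_le hs.2⟩

theorem adm_shift (h : Admissible f g u q T) (hs : s ∈ Icc 0 T) :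
    Admissible f g (fun t => u (s + t)) (fun t => q (s + t)) (T - s) := by
  have := adm_rev (adm_init (adm_rev h) (s := T - s) ⟨by linarith [hs.2], by linarith [hs.1]⟩)
  have e : ∀ t, T - (T - s - t) = s + t := fun t => by ring
  simpa only [neg_neg, e] using this

theorem adm_concat (h : Admissible f g u q T) (h' : Admissible f g u' q' T') (e : q T = q' 0) :
    Admissible f g (fun t => if t ≤ T then u t else u' (t - T))
      (fun t => if t ≤ T then q t else q' (t - T)) (T + T') := by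
  set Q : ℝ → M := fun t => if t ≤ T then q t else q' (t - T) with hQ
  have hT := h.nonneg
  have hT' := h'.nonneg
  have e1 : ∀ t, t ≤ T → Q t = q t := fun t ht => if_pos ht
  have e2 : ∀ t, T ≤ t → Q t = q' (t - T) := fun t ht => by
    rcases ht.eq_or_lt with rfl | ht
    · rw [e1 _ le_rfl, e, sub_self]
    · exact if_neg ht.not_ge
  have hm : MapsTo (fun t => t - T) (Icc T (T + T')) (Icc 0 T') := fun t ht =>
    ⟨by linarith [ht.1], by linarith [ht.2]⟩
  have hc : Continuous fun t : ℝ => t - T := by fun_prop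
  have hun : Icc 0 (T + T') = Icc 0 T ∪ Icc T (T + T') :=
    (Icc_union_Icc_eq_Icc hT (by linarith)).symm
  have l1 : ∀ t ∈ Icc 0 T, ∃ C, ∃ s ∈ 𝓝[Icc 0 T] t, s ⊆ Icc 0 T ∧
      LipschitzOnWith C (extChartAt (𝓡 3) (Q t) ∘ Q) s := fun t ht => by
    obtain ⟨C, s, hs, hC⟩ := h.lip t ht
    refine ⟨C, s ∩ Icc 0 T, inter_mem hs self_mem_nhdsWithin, inter_subset_right, ?_⟩
    intro x hx y hy
    simp only [Function.comp, e1 _ hx.2.2, e1 _ hy.2.2, e1 _ ht.2]
    exact hC hx.1 hy.1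
  have l2 : ∀ t ∈ Icc T (T + T'), ∃ C, ∃ s ∈ 𝓝[Icc T (T + T')] t, s ⊆ Icc T (T + T') ∧
      LipschitzOnWith C (extChartAt (𝓡 3) (Q t) ∘ Q) s := fun t ht => by
    obtain ⟨C, s, hs, hC⟩ := h'.lip (t - T) (hm ht)
    refine ⟨C, (fun t => t - T) ⁻¹' s ∩ Icc T (T + T'), inter_mem
      (hc.continuousWithinAt.tendsto_nhdsWithin hm hs) self_mem_nhdsWithin, inter_subset_right, ?_⟩
    intro x hx y hy
    simp only [Function.comp, e2 _ hx.2.1, e2 _ hy.2.1, e2 _ ht.1]
    simpa using hC hx.1 hy.1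
  refine ⟨by linarith, Measurable.ite measurableSet_Iic h.meas (h'.meas.comp hc.measurable),
    fun t => ?_, ?_, fun t ht => ?_, ?_⟩
  · split_ifs
    exacts [h.bound _, h'.bound _]
  · rw [hun]
    exact ContinuousOn.union_of_isClosed (h.cont.congr fun t ht => e1 t ht.2)
      ((h'.cont.comp hc.continuousOn hm).congr fun t ht => e2 t ht.1) isClosed_Icc isClosed_Icc
  · rw [hun, nhdsWithin_union]
    rcases lt_trichotomy t T with h1 | rfl | h1
    · obtain ⟨C, s, hs, -, hC⟩ := l1 t ⟨ht.1, h1.le⟩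
      refine ⟨C, s, ⟨hs, ?_⟩, hC⟩
      exact mem_nhdsWithin.2 ⟨Iio T, isOpen_Iio, h1, fun x hx => absurd hx.1 (not_lt.2 hx.2.1)⟩
    · obtain ⟨C, s, hs, hs', hC⟩ := l1 t ⟨ht.1, le_rfl⟩
      obtain ⟨D, r, hr, hr', hD⟩ := l2 t ⟨le_rfl, ht.2⟩
      exact ⟨_, s ∪ r, ⟨mem_of_superset hs subset_union_left, mem_of_superset hr subset_union_right⟩,
        lip_union hC hD (hs'.trans Icc_subset_Iic_self) (hr'.trans Icc_subset_Ici_self)
          (mem_of_mem_nhdsWithin (right_mem_Icc.2 ht.1) hs)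
          (mem_of_mem_nhdsWithin (left_mem_Icc.2 ht.2) hr)⟩
    · obtain ⟨C, s, hs, -, hC⟩ := l2 t ⟨h1.le, ht.2⟩
      refine ⟨C, s, ⟨?_, hs⟩, hC⟩
      exact mem_nhdsWithin.2 ⟨Ioi T, isOpen_Ioi, h1, fun x hx => absurd hx.1 (not_lt.2 hx.2.2)⟩
  · have hne : ∀ᵐ t : ℝ, t ≠ T := by simp [ae_iff, measure_singleton]
    filter_upwards [h.ode, (measurePreserving_sub_right volume T).quasiMeasurePreserving.ae h'.ode,
      hne] with t h1 h2 h3 ht
    change HD Q t (vel f g _ (Q t))
    rcases lt_or_gt_of_ne h3 with h4 | h4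
    · rw [if_pos h4.le, e1 t h4.le]
      exact HD.congr (h1 ⟨ht.1, h4⟩) (by
        filter_upwards [Iio_mem_nhds h4] with x hx using e1 x (le_of_lt hx))
    · rw [if_neg h4.not_ge, e2 t h4.le]
      have h5 : HD q' (t - T) (vel f g (u' (t - T)) (q' (t - T))) :=
        h2 ⟨by linarith, by linarith [ht.2]⟩
      have h6 := h5.comp (σ := fun t => t - T) ((hasDerivAt_id' t).sub_const T)
      rw [one_smul] at h6
      exact h6.congr (by filter_upwards [Ioi_mem_nhds h4] with x hx using e2 x (le_of_lt hx))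

theorem opt_rev (h : TimeOptimal f g q T) : TimeOptimal (-f) (-g) (fun t => q (T - t)) T := by
  obtain ⟨⟨u, hu⟩, ho⟩ := h
  refine ⟨⟨_, adm_rev hu⟩, fun u' q' T' h' e0 e1 => ?_⟩
  have := adm_rev h'
  simp only [neg_neg] at this
  exact ho _ _ _ this (by simpa using e1) (by simpa using e0)

theorem opt_init (h : TimeOptimal f g q T) (hs : s ∈ Icc 0 T) : TimeOptimal f g q s := by
  obtain ⟨⟨u, hu⟩, ho⟩ := h
  refine ⟨⟨_, adm_init hu hs⟩, fun u' q' T' h' e0 e1 => ?_⟩
  have := ho _ _ _ (adm_concat h' (adm_shift hu hs) (by simpa using e1))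
    (by simp [h'.nonneg, e0]) (by
      split_ifs with h1
      · have : s = T := le_antisymm hs.2 (by linarith)
        subst this
        simpa using e1
      · congr 1
        ring)
  linarith

theorem opt_shift (h : TimeOptimal f g q T) (hs : s ∈ Icc 0 T) :
    TimeOptimal f g (fun t => q (s + t)) (T - s) := by
  have := opt_rev (opt_init (opt_rev h) (s := T - s) ⟨by linarith [hs.2], by linarith [hs.1]⟩)
  have e : ∀ t, T - (T - s - t) = s + t := fun t => by ring
  simpa only [neg_neg, e] using this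

end Glue

end Pool.Agent.Lib.MP_f4f7c0_an
end
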