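import Pool.Agent.Lib.MP_f4f7c0_an.CaseA
import Pool.Agent.Lib.MP_f4f7c0_an.GlueAdm

-- part Pool.Agent.Lib.MP_f4f7c0_an.CaseP
section

/-! The degenerate case: definite forms, one zero line. -/

namespace Pool.Agent.Lib.MP_f4f7c0_an

open Set Filter Topology MeasureTheory Asymptotics

theorem ev_scaled {l : Filter ℝ} (k : ℕ) (hl : ∀ᶠ τ in l, 0 < τ) {F G : ℝ → ℝ} {c : ℝ}
    (hG : Tendsto G l (𝓝 c)) (hc : 0 < c) (h : ∀ τ, 0 < τ → F τ = τ ^ k * G τ) :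
    ∀ᶠ τ in l, 0 < F τ := by
  filter_upwards [hl, hG.eventually (lt_mem_nhds hc)] with τ h1 h2
  rw [h τ h1]
  positivity

namespace Ext
variable {e : Ext} {α β γ p : ℝ} {l : Filter ℝ}

theorem Deg.not_def (h : e.Deg α β γ)
    (H : ∀ p, 0 ≤ p → p ≤ 1 → 0 < α * p ^ 2 + 2 * β * p * (1 - p) + γ * (1 - p) ^ 2) : False :=
  h.acc.freqW (h.ev' fun _ p h0 h1 L => (ev_scaled 2 L.pos L.W (half_pos (H p h0 h1))
    fun τ _ => by field_simp).mono fun _ h => h.ne')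

theorem Deg.sing (h : e.Deg α β γ) (hΔ : β ^ 2 ≠ α * γ) (h0 : ∀ᶠ τ in l0, e.φ τ = 0) : e.Sing := by
  refine h0.and (h.ev' fun U p _ _ L => ?_)
  by_cases h1 : α * p + β * (1 - p) = 0
  · have h2 : β * p + γ * (1 - p) ≠ 0 := fun h2 => hΔ (by
      linear_combination (β - γ) * h1 + (β - α) * h2)
    exact (L.b.eventually_ne h2).mono fun τ h => Or.inr fun h' => h (by simp [h'])
  · exact (L.a.eventually_ne h1).mono fun τ h => Or.inl fun h' => h (by simp [h'])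

theorem Lim.tM (L : e.Lim l p α β γ) (μ ν : ℝ) :
    Tendsto (fun τ => e.M 0 μ ν τ / τ) l (𝓝 (μ * p + ν * (1 - p))) :=
  ((L.x.const_mul μ).add (L.z.const_mul ν)).congr fun τ => by simp only [M]; ring

variable {μ ν μ' ν' : ℝ}

theorem Lim.kp (L : e.Lim l p (2 * μ * μ') (μ * ν' + ν * μ') (2 * ν * ν')) :
    Tendsto (fun τ => e.a τ / τ * (e.M 0 μ ν τ / τ) - μ * (e.W τ / τ ^ 2)) l
      (𝓝 ((μ * p + ν * (1 - p)) ^ 2 * μ')) := by
  convert (L.a.mul (L.tM μ ν)).sub (L.W.const_mul μ) using 2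
  ring

theorem Lim.km (L : e.Lim l p (2 * μ * μ') (μ * ν' + ν * μ') (2 * ν * ν')) :
    Tendsto (fun τ => e.b τ / τ * (e.M 0 μ ν τ / τ) - ν * (e.W τ / τ ^ 2)) l
      (𝓝 ((μ * p + ν * (1 - p)) ^ 2 * ν')) := by
  convert (L.b.mul (L.tM μ ν)).sub (L.W.const_mul ν) using 2
  ring

theorem Lim.ec (L : e.Lim l p (2 * μ * μ') (μ * ν' + ν * μ') (2 * ν * ν')) (hμ : 0 ≤ μ) (hν : 0 ≤ ν)
    (hμ' : μ' < 0) (hν' : 0 < ν') (hM : 0 < μ * p + ν * (1 - p)) :
    ∀ᶠ τ in l, e.EC 0 μ ν (fun τ => τ) (fun _ => 1) (fun _ => 1) τ := by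
  have tM := L.tM μ ν
  have h1 := neg_pos.2 hμ'
  filter_upwards [L.pos, ev_scaled 1 L.pos tM hM (F := e.M 0 μ ν) fun τ _ => by field_simp,
    ev_scaled 2 L.pos L.kp.neg (by rw [← mul_neg]; positivity)
      (F := fun τ => -(e.a τ * e.M 0 μ ν τ - μ * e.W τ)) fun τ _ => by field_simp,
    ev_scaled 2 L.pos L.km (by positivity)
      (F := fun τ => e.b τ * e.M 0 μ ν τ - ν * e.W τ) fun τ _ => by field_simp,
    ev_scaled 3 L.pos (((tM.mul L.kp).neg.add (L.tt.mul (tM.pow 2))).sub (L.kp.const_mul (3 * μ)))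
      (lt_of_lt_of_eq (b := (μ * p + ν * (1 - p)) ^ 2 * ((μ * p + ν * (1 - p) + μ) * -μ'))
        (by positivity) (by ring))
      (F := fun τ => -1 * e.M 0 μ ν τ * (e.a τ * e.M 0 μ ν τ - μ * e.W τ) - τ *
        (-e.h [true, true] τ * e.M 0 μ ν τ ^ 2 + 3 * μ * e.a τ * e.M 0 μ ν τ - 3 * μ ^ 2 * e.W τ))
      fun τ _ => by field_simp; ring,
    ev_scaled 3 L.pos (((tM.mul L.km).sub (L.ff.mul (tM.pow 2))).add (L.km.const_mul (3 * ν)))
      (lt_of_lt_of_eq (b := (μ * p + ν * (1 - p)) ^ 2 * ((μ * p + ν * (1 - p) + ν) * ν'))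
        (by positivity) (by ring))
      (F := fun τ => 1 * e.M 0 μ ν τ * (e.b τ * e.M 0 μ ν τ - ν * e.W τ) - τ *
        (e.h [false, false] τ * e.M 0 μ ν τ ^ 2 - 3 * ν * e.b τ * e.M 0 μ ν τ + 3 * ν ^ 2 * e.W τ))
      fun τ _ => by field_simp; ring] with τ h1 h2 h3 h4 h5 h6
  exact ⟨h2, h1, zero_le_one, zero_le_one, fun _ => by linarith, fun _ => h4, fun _ => by linarith,
    fun _ => by linarith⟩

theorem Lim.tQ (L : e.Lim l p (2 * μ * μ') (μ * ν' + ν * μ') (2 * ν * ν'))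
    (hM : 0 < μ * p + ν * (1 - p)) :
    Tendsto (fun τ => e.W τ ^ 2 / e.M 0 μ ν τ ^ 2 / τ / τ) l (𝓝 ((μ' * p + ν' * (1 - p)) ^ 2)) := by
  convert ((L.W.div (L.tM μ ν) hM.ne').pow 2).congr' (L.pos.mono fun τ h => ?_) using 2
  · congr 1
    rw [eq_div_iff hM.ne']
    ring
  · simp only [Pi.div_apply]
    field_simp

theorem exists_root (h : α * γ < 0) : ∃ ν ν', 0 < ν ∧ β = ν' + ν * (α / 2) ∧ γ = 2 * ν * ν' := by
  have hΔ : 0 < β ^ 2 - α * γ := by nlinarith [sq_nonneg β]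
  have h1 := Real.sq_sqrt hΔ.le
  have h2 := Real.sqrt_pos.2 hΔ
  generalize √(β ^ 2 - α * γ) = d at h1 h2
  have hα : α ≠ 0 := by rintro rfl; simp at h
  have h3 : |β| < d := abs_lt_of_sq_lt_sq (by linarith) h2.le
  rw [abs_lt] at h3
  rcases hα.lt_or_gt with hα' | hα'
  · refine ⟨(β - d) / α, (β + d) / 2, div_pos_of_neg_of_neg (by linarith) hα', ?_, ?_⟩ <;> field_simp
    · ring
    · linarith
  · refine ⟨(β + d) / α, (β - d) / 2, div_pos (by linarith) hα', ?_, ?_⟩ <;> field_simp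
    · ring
    · linarith

theorem Deg.caseP (h : e.Deg α β γ) (hαγ : α * γ < 0) : ∀ᶠ τ in l0, e.φ τ = 0 := by
  obtain ⟨ν, ν', hν, hβ, hγ⟩ := exists_root (β := β) hαγ
  have h' : e.Deg (2 * 1 * (α / 2)) (1 * ν' + ν * (α / 2)) (2 * ν * ν') := by
    convert h using 1
    · ring
    · rw [hβ]; ring
    · exact hγ.symm
  have hM : ∀ p : ℝ, 0 ≤ p → p ≤ 1 → 0 < 1 * p + ν * (1 - p) := fun p h0 h1 => by
    rcases h1.eq_or_lt with rfl | h1
    · simp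
    · nlinarith [mul_pos hν (sub_pos.2 h1)]
  have hs : α * ν' < 0 := by
    rw [hγ] at hαγ
    nlinarith
  rcases lt_trichotomy α 0 with hα | rfl | hα
  · refine h.acc.energy_zero DD.id (h'.ev' fun U p h0 h1 L => L.ec zero_le_one hν.le (by linarith)
      (by nlinarith) (hM p h0 h1)) ((tendsto_iff_ultrafilter _ _ _).2 fun U hU => ?_)
    obtain ⟨p, hp, hx⟩ := e.exists_lim U hU
    have L := h'.lim hU hx
    convert ((L.tQ (hM p hp.1 hp.2)).mul L.t).congr' (L.pos.mono fun τ h => ?_) using 2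
    · simp
    · field_simp
  · simp at hs
  · have hν' : 0 < -ν' := by nlinarith
    refine ((h.acc.ev_nonpos 0 1 ν (h'.ev' fun U p h0 h1 L => ?_)).and
      (h.acc.ev_nonneg 0 1 ν (h'.ev' fun U p h0 h1 L => ?_))).mono fun τ h => le_antisymm h.1 h.2
    · have := hM p h0 h1
      filter_upwards [ev_scaled 1 L.pos (L.tM 1 ν) this (F := e.M 0 1 ν) fun τ _ => by field_simp,
        ev_scaled 2 L.pos L.kp (by positivity) (F := fun τ => e.a τ * e.M 0 1 ν τ - e.W τ * 1)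
          fun τ _ => by field_simp] with τ h1 h2 using ⟨h1, fun _ => h2.le⟩
    · have := hM p h0 h1
      filter_upwards [ev_scaled 1 L.pos (L.tM 1 ν) this (F := e.M 0 1 ν) fun τ _ => by field_simp,
        ev_scaled 2 L.pos L.km.neg (by rw [← mul_neg]; positivity)
          (F := fun τ => -(e.b τ * e.M 0 1 ν τ - e.W τ * ν))
          fun τ _ => by field_simp] with τ h1 h2 using ⟨h1, fun _ => by linarith⟩

end Ext

end Pool.Agent.Lib.MP_f4f7c0_an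
end

-- part Pool.Agent.Lib.MP_f4f7c0_an.CaseC
section

/-! The degenerate case with a zero line along an axis. -/

namespace Pool.Agent.Lib.MP_f4f7c0_an

open Set Filter Topology MeasureTheory Asymptotics

theorem o_of_eps {l : Filter ℝ} {F G H g : ℝ → ℝ} (h : ∀ ε > 0, ∀ᶠ τ in l, |F τ| ≤ ε * G τ + H τ)
    (hG : G =O[l] g) (hH : H =o[l] g) : F =o[l] g := by
  obtain ⟨c, hc, hG⟩ := hG.exists_pos
  refine isLittleO_iff.2 fun ε hε => ?_
  filter_upwards [h (ε / 2 / c) (by positivity), hG.bound, isLittleO_iff.1 hH (half_pos hε)]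
    with τ h1 h2 h3
  have h4 : ε / 2 / c * G τ ≤ ε / 2 / c * (c * ‖g τ‖) :=
    mul_le_mul_of_nonneg_left ((le_abs_self _).trans h2) (by positivity)
  rw [← mul_assoc, div_mul_cancel₀ _ hc.ne'] at h4
  rw [Real.norm_eq_abs] at h3 ⊢
  linarith [le_abs_self (H τ)]

namespace Ext
variable {e : Ext} {β γ : ℝ} {l : Filter ℝ}

theorem ev_near (w : List Bool) {ε : ℝ} (hε : 0 < ε) : ∀ᶠ τ in l0, |e.h w τ - e.h w 0| ≤ ε :=
  ((Metric.tendsto_nhds.1 (e.tendh w)) ε hε).mono fun _ h => le_of_lt h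

theorem Deg.exp0 (h : e.Deg 0 β γ) : ∃ C ≥ 0, ∀ ε > 0, ∀ᶠ τ in l0,
    |e.h [true, true] τ - e.h [true, true, true] 0 * e.x τ| ≤ ε * τ + C * e.z τ ∧
    |e.a τ - (β * e.z τ + e.h [true, true, true] 0 / 2 * (e.x τ * e.x τ))| ≤
      ε * (τ * τ + e.z τ) + C * (τ * e.z τ) ∧
    |e.W τ - (β * (e.x τ * e.z τ) + e.h [true, true, true] 0 / 6 * (e.x τ * e.x τ * e.x τ))| ≤
      ε * (τ * τ * τ + τ * e.z τ) + C * (τ * τ * e.z τ + e.z τ * e.z τ) := by
  set C := |e.h [false, true, true] 0| + 1 + |γ| with hC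
  have hC0 : 0 ≤ C := by positivity
  refine ⟨C, hC0, fun ε hε => ?_⟩
  have h1 := abs_le_of ((e.dh [true, true]).sub (e.dx.cmul (e.h [true, true, true] 0)))
    ((DD.id.cmul ε).add (e.dz.cmul C)) (by simp [h.tt, e.x0]) (by simp [e.z0]) (c := 1)
    (by simpa using ev_near _ hε) (by
      filter_upwards [(e.tendh [false, true, true]).abs.eventually (gt_mem_nhds (lt_add_one _))]
        with τ h1
      simp only [mul_zero, sub_zero]
      linarith [abs_nonneg γ])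
  have h2 := abs_le_of ((e.dh [true]).sub ((e.dz.cmul β).add ((e.dx.mul e.dx).cmul
    (e.h [true, true, true] 0 / 2)))) ((((DD.id.mul DD.id).add e.dz).cmul ε).add
    ((DD.id.mul e.dz).cmul C)) (by simp [h.a0, e.x0, e.z0]) (by simp [e.z0]) (c := 1)
    (by
      filter_upwards [h1, ev_pos] with τ h1 h2
      refine (le_of_eq (by congr 1; ring)).trans (h1.trans ?_)
      nlinarith)
    (by
      filter_upwards [ev_near (e := e) [false, true] hε, e.ev_xz] with τ h1 h2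
      rw [sym0 0, h.tf] at h1
      refine (le_of_eq (by congr 1; ring)).trans (h1.trans ?_)
      have h3 := h2.1
      have h4 := h2.2.2.1
      have : 0 ≤ ε * (1 * τ + τ * 1) + C * (1 * e.z τ + τ * 1) := by positivity
      linarith)
  have h3 := abs_le_of ((e.dh []).sub (((e.dx.mul e.dz).cmul β).add (((e.dx.mul e.dx).mul e.dx).cmul
    (e.h [true, true, true] 0 / 6)))) (((((DD.id.mul DD.id).mul DD.id).add (DD.id.mul e.dz)).cmul ε).add
    ((((DD.id.mul DD.id).mul e.dz).add (e.dz.mul e.dz)).cmul C)) (by simp [h.acc.W0, e.x0])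
    (by simp [e.z0]) (c := 1)
    (by
      filter_upwards [h2, e.ev_xz] with τ h1 h2
      refine (le_of_eq (by congr 1; ring)).trans (h1.trans ?_)
      have h3 := h2.1
      have h4 := h2.2.2.1
      have : 0 ≤ ε * (τ * τ) + C * (τ * e.z τ) := by positivity
      nlinarith)
    (by
      filter_upwards [isLittleO_iff.1 (e.lin [false]) hε, e.ev_xz] with τ h1 h2
      have h3 := h2.1
      have h4 := h2.2.2.1
      rw [Real.norm_eq_abs, Real.norm_of_nonneg (by positivity), h.tf, h.ff,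
        show e.h [false] 0 = 0 from h.b0] at h1
      have h5 := abs_add_le (e.h [false] τ - 0 - (β * e.x τ + γ * e.z τ)) (γ * e.z τ)
      rw [abs_mul, abs_of_nonneg h4] at h5
      refine (le_of_eq (by congr 1; ring)).trans (h5.trans ?_)
      have : 0 ≤ ε * (3 * τ * τ + e.z τ) + C * (2 * τ * e.z τ + τ * τ) +
        (2 * |e.h [false, true, true] 0| + 2 + |γ|) * e.z τ := by positivity
      nlinarith)
  filter_upwards [h1, h2, h3] with τ h1 h2 h3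
  exact ⟨by linarith, by linarith, by linarith⟩

/-- Second order limits near the axis. -/
structure Lim2 (e : Ext) (l : Filter ℝ) (ζ β γ A : ℝ) : Prop extends e.Lim l 1 0 β γ where
  z2 : Tendsto (fun τ => e.z τ / τ ^ 2) l (𝓝 ζ)
  tt2 : Tendsto (fun τ => e.h [true, true] τ / τ) l (𝓝 A)
  a2 : Tendsto (fun τ => e.a τ / τ ^ 2) l (𝓝 (β * ζ + A / 2))
  W2 : Tendsto (fun τ => e.W τ / τ ^ 3) l (𝓝 (β * ζ + A / 6))

theorem Deg.lim2 (h : e.Deg 0 β γ) (hl : l ≤ l0) {ζ : ℝ}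
    (hz : Tendsto (fun τ => e.z τ / τ ^ 2) l (𝓝 ζ)) : e.Lim2 l ζ β γ (e.h [true, true, true] 0) := by
  have hp : ∀ᶠ τ in l, 0 < τ := hl ev_pos
  have ht := tendsto_id0.mono_left hl
  have hx : Tendsto (fun τ => e.x τ / τ) l (𝓝 1) := by
    have := (hz.mul ht).const_sub 1
    rw [mul_zero, sub_zero] at this
    exact this.congr' (hp.mono fun τ h => by simp only [z]; field_simp; ring)
  have o : ∀ {F : ℝ → ℝ} (k : ℕ), Tendsto (fun τ => F τ / τ ^ k) l (𝓝 0) → F =o[l] fun τ => τ ^ k :=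
    fun k h => (isLittleO_iff_tendsto' (hp.mono fun τ h h' => absurd h' (by positivity))).2 h
  have O : ∀ {F : ℝ → ℝ} (k : ℕ) {c : ℝ}, Tendsto (fun τ => F τ / τ ^ k) l (𝓝 c) →
      F =O[l] fun τ => τ ^ k := fun k c h =>
    isBigO_of_div_tendsto_nhds (hp.mono fun τ h h' => absurd h' (by positivity)) c h
  obtain ⟨C, -, hC⟩ := h.exp0
  set A := e.h [true, true, true] 0
  refine ⟨h.lim hl hx, hz, ?_, ?_, ?_⟩
  · have := (o_of_eps (fun ε hε => hl ((hC ε hε).mono fun _ h => h.1)) (g := fun τ => τ ^ 1)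
      (by simpa using isBigO_refl _ _) (o 1 (by
        convert ((hz.mul ht).const_mul C).congr' (hp.mono fun τ h => ?_) using 2
        · simp
        · field_simp))).tendsto_div_nhds_zero.add (hx.const_mul A)
    convert this using 2
    · ring
    · ring
  · have := (o_of_eps (fun ε hε => hl ((hC ε hε).mono fun _ h => h.2.1)) (g := fun τ => τ ^ 2)
      (O 2 ((hz.const_add 1).congr' (hp.mono fun τ h => by field_simp))) (o 2 (by
        convert ((hz.mul ht).const_mul C).congr' (hp.mono fun τ h => ?_) using 2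
        · simp
        · field_simp))).tendsto_div_nhds_zero.add ((hz.const_mul β).add ((hx.mul hx).const_mul (A / 2)))
    convert this using 2
    · ring
    · ring
  · have := (o_of_eps (fun ε hε => hl ((hC ε hε).mono fun _ h => h.2.2)) (g := fun τ => τ ^ 3)
      (O 3 ((hz.const_add 1).congr' (hp.mono fun τ h => by field_simp))) (o 3 (by
        convert (((hz.add (hz.mul hz)).mul ht).const_mul C).congr' (hp.mono fun τ h => ?_) using 2
        · simp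
        · field_simp))).tendsto_div_nhds_zero.add (((hx.mul hz).const_mul β).add
          (((hx.mul hx).mul hx).const_mul (A / 6)))
    convert this using 2
    · ring
    · ring

theorem Deg.ev2 (h : e.Deg 0 β γ) {q r : ℝ → Prop} {K : ℝ} (H : ∀ (U : Ultrafilter ℝ) (ζ : ℝ),
    0 ≤ ζ → ζ ≤ K → e.Lim2 U ζ β γ (e.h [true, true, true] 0) → (∀ᶠ τ in U, r τ) → ∀ᶠ τ in U, q τ) :
    ∀ᶠ τ in l0, e.z τ ≤ K * τ ^ 2 → r τ → q τ := by
  refine (ev_ultra' (r := fun τ => e.z τ ≤ K * τ ^ 2 ∧ r τ) fun U hU hr => ?_).mono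
    fun τ h h1 h2 => h ⟨h1, h2⟩
  obtain ⟨ζ, hζ, hz⟩ := ultra_lim U (F := fun τ => e.z τ / τ ^ 2) (a := 0) (b := K) (by
    filter_upwards [hr, hU e.ev_xz] with τ h1 h2
    have := h2.1
    exact ⟨div_nonneg h2.2.2.1 (by positivity), (div_le_iff₀ (by positivity)).2 h1.1⟩)
  exact H U ζ hζ.1 hζ.2 (h.lim2 hU hz) (hr.mono fun _ h => h.2)

theorem Deg.z_le (h : e.Deg 0 β γ) (hβ : β ≠ 0) (hA : e.h [true, true, true] 0 ≠ 0) :
    ∀ᶠ τ in l0, β * e.a τ ≤ 0 → e.z τ ≤ |e.h [true, true, true] 0| / |β| * τ ^ 2 := by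
  obtain ⟨C, hC0, hC⟩ := h.exp0
  set A := e.h [true, true, true] 0
  have h1 := abs_pos.2 hβ
  have h2 := abs_pos.2 hA
  filter_upwards [hC (min (|β| / 8) (|A| / 4)) (by positivity), e.ev_xz,
    (tendsto_id0.const_mul C).eventually (gt_mem_nhds (show C * 0 < |β| / 8 by simpa))]
    with τ h3 h4 h5 h6
  obtain ⟨-, h3, -⟩ := h3
  have h7 := min_le_left (|β| / 8) (|A| / 4)
  have h8 := min_le_right (|β| / 8) (|A| / 4)
  generalize min (|β| / 8) (|A| / 4) = ε at *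
  obtain ⟨t0, x0, z0, xt, -⟩ := h4
  rw [div_mul_eq_mul_div, le_div_iff₀ h1]
  have h9 : |A / 2 * (e.x τ * e.x τ)| ≤ |A| / 2 * τ ^ 2 := by
    rw [abs_mul, abs_div, abs_two, abs_of_nonneg (mul_self_nonneg (e.x τ))]
    exact mul_le_mul_of_nonneg_left (by nlinarith) (by positivity)
  have h10 : |β| * e.z τ ≤ |e.a τ - β * e.z τ| := by
    rcases hβ.lt_or_gt with h | h
    · have : 0 ≤ e.a τ := by nlinarith
      rw [abs_of_neg h]
      linarith [le_abs_self (e.a τ - β * e.z τ)]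
    · have : e.a τ ≤ 0 := by nlinarith
      rw [abs_of_pos h]
      linarith [neg_abs_le (e.a τ - β * e.z τ)]
  have h11 := abs_add_le (e.a τ - (β * e.z τ + A / 2 * (e.x τ * e.x τ))) (A / 2 * (e.x τ * e.x τ))
  rw [show e.a τ - (β * e.z τ + A / 2 * (e.x τ * e.x τ)) + A / 2 * (e.x τ * e.x τ) =
    e.a τ - β * e.z τ by ring] at h11
  nlinarith [mul_le_mul_of_nonneg_right h7 z0, mul_le_mul_of_nonneg_right h8 (mul_self_nonneg τ),
    mul_le_mul_of_nonneg_right h5.le z0]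

theorem z_mono {s t : ℝ} (hs : 0 ≤ s) (hst : s ≤ t) (ht : t ≤ e.δ) : e.z s ≤ e.z t :=
  mono' (e.dz.mono hs hst ht) hs hst ht (fun _ _ => le_rfl) fun _ _ => zero_le_one

theorem z_const {s t : ℝ} (hs : 0 ≤ s) (hst : s ≤ t) (ht : t ≤ e.δ)
    (h : ∀ y ∈ Ioo s t, 0 < e.φ y) : e.z t ≤ e.z s :=
  anti_pos (e.dz.mono hs hst ht) hs hst ht h fun _ _ => le_rfl

theorem Acc.zero_of_nonneg (hA : e.Acc) (h0 : ∀ᶠ τ in l0, 0 ≤ e.φ τ)
    (h1 : ∀ᶠ t in l0, ∀ c ∈ Ioo 0 t, e.a c = 0 → e.z t ≤ e.z c → e.h [true, true] t ≠ 0) :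
    ∀ᶠ τ in l0, e.φ τ = 0 := by
  have hW : ∀ᶠ τ in l0, e.φ τ = 0 → e.W τ = 0 := by
    obtain ⟨u, hu, hsub⟩ := mem_nhdsGT_iff_exists_Ioo_subset.1 (h0.and e.ev_mem)
    obtain ⟨v, hv1, hv2⟩ := exists_between (show 0 < u from hu)
    filter_upwards [Ioo_mem_nhdsGT hv1] with τ hτ h
    exact W_eq_zero (hsub ⟨hv1, hv2⟩).2.2 hτ h fun y hy => (hsub ⟨hy.1, hy.2.trans hv2⟩).1
  refine hA.ev_of_zero (h0.and (h1.and hW)) fun t h1 h2 h3 h4 τ hτ => ?_
  refine ((h4 τ (Ioo_subset_Ioc_self hτ)).1.eq_or_lt.resolve_right fun hφ => ?_).symm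
  obtain ⟨a, b, ha, haτ, hτb, hb, ha0, hb0, hpos, -⟩ := hA.arc_pos h2 h3 (Ioo_subset_Ioc_self hτ) hφ
  have hab := haτ.trans hτb
  obtain ⟨c, hc, d, hd, h5, h6⟩ := rolle ha hab (hb.trans_lt h2) ha0 hb0 hpos
    ((h4 a ⟨ha, hab.le.trans hb⟩).2.2 ha0) ((h4 b ⟨ha.trans hab, hb⟩).2.2 hb0)
  have hc0 := ha.trans hc.1
  exact (h4 d ⟨hc0.trans hd.1, hd.2.le.trans hb⟩).2.1 c ⟨hc0, hd.1⟩ h5
    (z_const hc0.le hd.1.le (hd.2.le.trans (hb.trans h2.le))
      fun y hy => hpos y ⟨hc.1.trans hy.1, hy.2.trans hd.2⟩) h6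

/-- The arcs ending at a zero where the second derivative was nonpositive at some time. -/
theorem Acc.freq_end (hA : e.Acc) (hf : ∃ᶠ τ in l0, 0 < e.φ τ) {q : ℝ → Prop}
    (hq : ∀ᶠ τ in l0, e.a τ ≤ 0 → q τ) :
    ∃ᶠ s in l0, e.φ s = 0 ∧ e.W s ≤ 0 ∧ ∃ c ∈ Ioo 0 s, q c ∧ e.z s ≤ e.z c := by
  intro hn
  obtain ⟨t, h1, h2, h3, h4⟩ := hA.exists_zero (hn.and hq)
  obtain ⟨τ, h5, h6⟩ := (hf.and_eventually (Ioc_mem_nhdsGT h1)).exists
  obtain ⟨a, b, ha, haτ, hτb, hb, -, hb0, hpos, hWa, hWb⟩ := hA.arc_pos h2 h3 h6 h5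
  have hab := haτ.trans hτb
  have hδ := hb.trans h2.le
  obtain ⟨c, hc1, hc2⟩ := exists_hasDerivAt_eq_slope e.W e.a hab
    ((e.conth []).mono (Icc_subset_Icc ha.le hδ)) fun y hy => deriv_pos [] ha.le hδ hpos hy
  refine (h4 b ⟨ha.trans hab, hb⟩).1 ⟨hb0, hWb, c, ⟨ha.trans hc1.1, hc1.2⟩,
    (h4 c ⟨ha.trans hc1.1, hc1.2.le.trans hb⟩).2 ?_, z_const (ha.trans hc1.1).le hc1.2.le hδ
      fun y hy => hpos y ⟨hc1.1.trans hy.1, hy.2⟩⟩
  exact hc2 ▸ div_nonpos_of_nonpos_of_nonneg (by linarith) (by linarith)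

theorem Deg.near_axis (h : e.Deg 0 β γ) (hβ : 0 < β) (hA : e.h [true, true, true] 0 ≠ 0)
    (hf : ∃ᶠ τ in l0, 0 < e.φ τ) : ∀ᶠ τ in l0, e.φ τ = 0 := by
  have hz := h.z_le hβ.ne' hA
  rw [abs_of_pos hβ] at hz
  set A := e.h [true, true, true] 0
  have hS := h.acc.freq_end hf (q := fun τ => e.a τ ≤ 0 ∧ e.z τ ≤ |A| / β * τ ^ 2)
    (hz.mono fun τ h1 h2 => ⟨h2, h1 (mul_nonpos_of_nonneg_of_nonpos hβ.le h2)⟩)
  have hA' : A < 0 := by
    refine hA.lt_or_gt.resolve_right fun hA' => hS ?_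
    filter_upwards [ev_Ioc (h.ev2 (K := |A| / β) (r := fun _ => True) (q := fun τ => 0 < e.a τ)
      fun U ζ h0 _ L _ => ev_scaled 2 L.pos L.a2 (by positivity) fun τ _ => by field_simp)]
      with s hs ⟨_, _, c, hc, h1, _⟩
    exact (hs c (Ioo_subset_Ioc_self hc) h1.2 trivial).not_ge h1.1
  rw [abs_of_neg hA'] at hS
  have hA1 := neg_pos.2 hA'
  set C := |γ| / β
  have hC : 0 ≤ C := by positivity
  have tM : ∀ {U : Filter ℝ} {ζ : ℝ}, e.Lim2 U ζ β γ A →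
      Tendsto (fun τ => e.M 0 1 0 τ / τ) U (𝓝 1) := fun L => by simpa using L.toLim.tM 1 0
  have tρ : ∀ {U : Filter ℝ} {ζ : ℝ}, e.Lim2 U ζ β γ A →
      Tendsto (fun τ => (τ + C * e.z τ) / τ) U (𝓝 1) := fun L => by
    convert ((L.z.const_mul C).const_add 1).congr' (L.pos.mono fun τ h => ?_) using 2
    · simp
    · field_simp
  have tQ : ∀ {U : Filter ℝ} {ζ : ℝ}, e.Lim2 U ζ β γ A → Tendsto
      (fun τ => e.W τ ^ 2 / e.M 0 1 0 τ ^ 2 / (τ + C * e.z τ) / τ ^ 3) U (𝓝 ((β * ζ + A / 6) ^ 2)) :=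
    fun L => by
      convert (((L.W2.div (tM L) one_ne_zero).pow 2).div (tρ L) one_ne_zero).congr'
        (L.pos.mono fun τ h => ?_) using 2
      · simp
      · simp only [Pi.div_apply]
        field_simp
  have hst : ∀ᶠ s in l0, e.z s ≤ -A / β * s ^ 2 → e.W s ≤ 0 →
      e.W s ^ 2 / e.M 0 1 0 s ^ 2 / (s + C * e.z s) ≤ A ^ 2 / 25 * s ^ 3 :=
    h.ev2 fun U ζ h0 _ L hr => by
      have h1 : β * ζ + A / 6 ≤ 0 := le_of_tendsto L.W2 (by
        filter_upwards [hr, L.pos] with τ h1 h2 using div_nonpos_of_nonpos_of_nonneg h1 (by positivity))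
      filter_upwards [(tQ L).eventually (gt_mem_nhds (show _ < A ^ 2 / 25 by
        nlinarith [mul_nonneg hβ.le h0])), L.pos] with τ h1 h2
      exact ((div_lt_iff₀ (by positivity)).1 h1).le
  refine energy_boot (l := 0) (μ := 1) (ν := 0) (DD.id.add (e.dz.cmul C))
    (r := fun τ => e.z τ - -A / β * τ ^ 2) ((e.dz.cont e.δpos.le).sub (by fun_prop))
    (S := fun s => e.φ s = 0 ∧ e.W s ≤ 0 ∧ e.z s ≤ -A / β * s ^ 2) (hS.mono ?_) ?_
    (Eventually.of_forall fun s h => ⟨h.1, sub_nonpos.2 h.2.2⟩) ?_ fun η hη => ?_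
  · rintro s ⟨h1, h2, c, hc, h3, h4⟩
    refine ⟨h1, h2, h4.trans (h3.2.trans ?_)⟩
    have := hc.1
    gcongr
    exact hc.2.le
  · refine (h.ev2 (K := -A / β) (r := fun _ => True) fun U ζ h0 _ L _ => ?_).mono
      fun τ h h' => h (sub_nonpos.1 h') trivial
    have hb : Tendsto (fun τ => e.b τ / τ) U (𝓝 β) := by simpa using L.b
    have kp := (L.a2.mul (tM L)).sub L.W2
    filter_upwards [ev_scaled 1 L.pos (tM L) one_pos (F := e.M 0 1 0) fun τ _ => by field_simp,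
      ev_scaled 1 L.pos (tρ L) one_pos (F := fun τ => τ + C * e.z τ) fun τ _ => by field_simp,
      ev_scaled 3 L.pos kp.neg (by linarith) (F := fun τ => -(e.a τ * e.M 0 1 0 τ - 1 * e.W τ))
        fun τ _ => by field_simp,
      ev_scaled 2 L.pos (hb.mul (tM L)) (by linarith) (F := fun τ => e.b τ * e.M 0 1 0 τ - 0 * e.W τ)
        fun τ _ => by field_simp; ring,
      ev_scaled 4 L.pos (((tM L).mul kp).neg.add ((tρ L).mul ((L.tt2.mul ((tM L).pow 2)).sub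
        (kp.const_mul 3)))) (by linarith)
        (F := fun τ => -(1 + C * 0) * e.M 0 1 0 τ * (e.a τ * e.M 0 1 0 τ - 1 * e.W τ) -
          (τ + C * e.z τ) * (-e.h [true, true] τ * e.M 0 1 0 τ ^ 2 + 3 * 1 * e.a τ * e.M 0 1 0 τ
            - 3 * 1 ^ 2 * e.W τ)) fun τ _ => by field_simp; ring,
      ev_scaled 3 L.pos ((((hb.mul ((tM L).pow 2)).const_mul (1 + C))).sub
        ((tρ L).mul (L.ff.mul ((tM L).pow 2)))) (by
          have : C * β = |γ| := div_mul_cancel₀ _ hβ.ne'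
          nlinarith [le_abs_self γ])
        (F := fun τ => (1 + C * 1) * e.M 0 1 0 τ * (e.b τ * e.M 0 1 0 τ - 0 * e.W τ) -
          (τ + C * e.z τ) * (e.h [false, false] τ * e.M 0 1 0 τ ^ 2 - 3 * 0 * e.b τ * e.M 0 1 0 τ
            + 3 * 0 ^ 2 * e.W τ)) fun τ _ => by field_simp; ring] with τ h1 h2 h3 h4 h5 h6
    exact ⟨h1, h2, by linarith, by linarith, fun _ => by linarith, fun _ => h4, fun _ => by linarith,
      fun _ => by linarith⟩
  · have key := h.ev2 (K := -A / β) (q := fun τ => e.z τ < -A / β * τ ^ 2)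
        (r := fun τ => e.W τ ^ 2 / e.M 0 1 0 τ ^ 2 / (τ + C * e.z τ) ≤ A ^ 2 / 25 * τ ^ 3)
        fun U ζ h0 _ L hr => by
      have h1 : (β * ζ + A / 6) ^ 2 ≤ A ^ 2 / 25 := le_of_tendsto (tQ L) (by
        filter_upwards [hr, L.pos] with τ h1 h2 using (div_le_iff₀ (by positivity)).2 h1)
      have h2 : ζ < -A / β := by
        rw [lt_div_iff₀ hβ]
        nlinarith
      filter_upwards [L.z2.eventually (gt_mem_nhds h2), L.pos] with τ h1 h2
      exact (div_lt_iff₀ (by positivity)).1 h1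
    filter_upwards [ev_Ioc hst, key] with τ h1 h2 s hs hS hr hQ
    refine sub_neg.2 (h2 (sub_nonpos.1 hr) (hQ.trans ((h1 s hs hS.2.2 hS.2.1).trans ?_)))
    have := hs.1
    gcongr
    exact hs.2
  · filter_upwards [hst, ((tendsto_id0.pow 3).const_mul (A ^ 2 / 25)).eventually
      (gt_mem_nhds (show _ < η by simpa))] with s h1 h2 hS
    exact (h1 hS.2.2 hS.2.1).trans h2.le

theorem Deg.off_axis (h : e.Deg 0 β γ) (hβ : β < 0) (hγ : γ ≠ 0)
    (hf : ∃ᶠ τ in l0, e.φ τ < 0) : ∀ᶠ τ in l0, e.φ τ = 0 := by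
  have hγ' : 0 < γ := by
    refine hγ.lt_or_gt.resolve_left fun hγ' => hf ?_
    refine (h.acc.ev_nonneg 1 0 0 (h.ev' fun U p h0 h1 L => ?_)).mono fun _ h => h.not_gt
    filter_upwards [ev_scaled 1 L.pos L.b.neg (by
      rcases h1.eq_or_lt with rfl | h1
      · linarith
      · nlinarith) (F := fun τ => -e.b τ) fun τ _ => by field_simp] with τ h1
    simpa [M] using fun _ => by linarith
  obtain ⟨κ, hκ, rfl⟩ : ∃ κ, 0 < κ ∧ γ = κ * -β :=
    ⟨γ / -β, div_pos hγ' (neg_pos.2 hβ), (div_mul_cancel₀ _ (neg_pos.2 hβ).ne').symm⟩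
  have h' : e.Deg (2 * 0 * β) (0 * (κ * -β / 2) + 1 * β) (2 * 1 * (κ * -β / 2)) := by
    convert h using 1 <;> ring
  set K := (κ + 1) ^ 2 with hK
  have hK0 : 0 < K := by positivity
  have lim : ∀ {U : Ultrafilter ℝ} {p α β γ : ℝ}, e.Lim U p α β γ → (∀ᶠ τ in U, e.x τ ≤ K * e.z τ) →
      p ≤ K * (1 - p) := fun L hr => le_of_tendsto_of_tendsto L.x (L.z.const_mul K) (by
    filter_upwards [hr, L.pos] with τ h1 h2
    rw [← mul_div_assoc]
    gcongr)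
  have unl : ∀ {U : Filter ℝ} {p α β γ : ℝ}, e.Lim U p α β γ → p < K * (1 - p) →
      ∀ᶠ τ in U, e.x τ < K * e.z τ := fun L hp => (ev_scaled 1 L.pos ((L.z.const_mul K).sub L.x)
    (sub_pos.2 hp) (F := fun τ => K * e.z τ - e.x τ) fun τ _ => by field_simp).mono
      fun _ h => sub_pos.1 h
  have hq : ∀ {p : ℝ}, p ≤ 1 → p ≤ K * (1 - p) → 0 < 1 - p := fun h1 h2 => by
    rcases h1.eq_or_lt with rfl | h1
    · linarith
    · linarith
  have hS := h.acc.swap.freq_end (by simpa using hf) (q := fun τ => e.x τ < K * e.z τ)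
    (h.ev fun U p h0 h1 L hr => unl L (by
      have h2 : 0 ≤ β * p + κ * -β * (1 - p) := ge_of_tendsto L.b (by
        filter_upwards [hr, L.pos] with τ h1 h2 using div_nonneg (by simpa using h1) h2.le)
      have h3 : p ≤ κ * (1 - p) := by nlinarith
      rcases h1.eq_or_lt with rfl | h1
      · linarith
      · nlinarith [mul_pos (show 0 < κ ^ 2 + κ + 1 by positivity) (sub_pos.2 h1)]))
  have hst : ∀ᶠ s in l0, e.x s ≤ K * e.z s ∧ 0 ≤ e.W s →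
      e.W s ^ 2 / e.M 0 0 1 s ^ 2 / s ≤ (κ * β) ^ 2 * e.z s :=
    h'.ev fun U p h0 h1 L hr => by
      have h2 := hq h1 (lim L (hr.mono fun _ h => h.1))
      have h3 := ge_of_tendsto L.W (by
        filter_upwards [hr, L.pos] with τ h1 h2 using div_nonneg h1.2 (by positivity))
      have h4 : 0 ≤ β * p + κ * -β / 2 * (1 - p) := by nlinarith
      have h5 := mul_pos hγ' h2
      refine (ev_scaled 1 L.pos ((L.z.const_mul ((κ * β) ^ 2)).sub (L.tQ (by linarith))) ?_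
        (F := fun s => (κ * β) ^ 2 * e.z s - e.W s ^ 2 / e.M 0 0 1 s ^ 2 / s)
        fun τ _ => by field_simp).mono fun _ h => (sub_pos.1 h).le
      have h6 : (β * p + κ * -β / 2 * (1 - p)) ^ 2 ≤ (κ * -β * (1 - p) / 2) ^ 2 :=
        pow_le_pow_left₀ h4 (by nlinarith) 2
      nlinarith [mul_nonneg (mul_pos (mul_pos hγ' hγ') h2).le h0, mul_pos (mul_pos hγ' hγ') h2]
  refine energy_boot (l := 0) (μ := 0) (ν := 1) DD.id (r := fun τ => e.x τ - K * e.z τ)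
    ((e.dx.sub (e.dz.cmul K)).cont e.δpos.le)
    (S := fun s => e.φ s = 0 ∧ e.x s ≤ K * e.z s ∧ 0 ≤ e.W s) ((hS.and_eventually e.ev_mem).mono ?_)
    (h'.ev fun U p h0 h1 L hr => L.ec le_rfl zero_le_one hβ (half_pos hγ') (by
      linarith [hq h1 (lim L (hr.mono fun _ h => sub_nonpos.1 h))]))
    (Eventually.of_forall fun s h => ⟨h.1, sub_nonpos.2 h.2.1⟩) ?_ fun η hη => ?_
  · rintro s ⟨⟨h1, h2, c, hc, h3, h4⟩, hs⟩
    refine ⟨by simpa using h1, ?_, by simpa using h2⟩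
    rw [swap_z] at h4
    nlinarith [z_mono (e := e) hc.1.le hc.2.le hs.2.le]
  · have key := h'.ev (q := fun τ => e.x τ < K * e.z τ)
        (r := fun τ => e.x τ ≤ K * e.z τ ∧ e.W τ ^ 2 / e.M 0 0 1 τ ^ 2 / τ ≤ (κ * β) ^ 2 * e.z τ)
        fun U p h0 h1 L hr => by
      have h2 := lim L (hr.mono fun _ h => h.1)
      have h3 := hq h1 h2
      refine unl L (h2.lt_of_ne fun h4 => ?_)
      have h5 := le_of_tendsto_of_tendsto (L.tQ (by linarith)) (L.z.const_mul ((κ * β) ^ 2)) (by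
        filter_upwards [hr, L.pos] with τ h1 h2
        rw [← mul_div_assoc]
        exact div_le_div_of_nonneg_right h1.2 h2.le)
      obtain ⟨q, hq⟩ : ∃ q, q = 1 - p := ⟨_, rfl⟩
      rw [← hq] at h3 h4 h5
      have h6 : (K + 1) * q = 1 := by linarith
      have h7 : β ^ 2 * q ^ 2 * ((K - κ / 2) ^ 2 - κ ^ 2 * (K + 1)) ≤ 0 := by
        rw [h4] at h5
        linear_combination h5 - (κ * β) ^ 2 * q * h6
      have h8 : 0 < (K - κ / 2) ^ 2 - κ ^ 2 * (K + 1) := by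
        rw [hK]; ring_nf; positivity
      have := neg_pos.2 hβ
      have : 0 < β ^ 2 := by nlinarith
      exact h7.not_gt (by positivity)
    filter_upwards [ev_Ioc hst, e.ev_mem, key] with τ h1 hτ h2 s hs hS hr hQ
    refine sub_neg.2 (h2 ⟨sub_nonpos.1 hr, hQ.trans ((h1 s hs hS.2).trans ?_)⟩)
    exact mul_le_mul_of_nonneg_left (z_mono hs.1.le hs.2 hτ.2.le) (sq_nonneg _)
  · filter_upwards [hst, e.ev_xz, (tendsto_id0.const_mul ((κ * β) ^ 2)).eventually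
      (gt_mem_nhds (show _ < η by simpa))] with s h1 h2 h3 hS
    exact (h1 hS.2).trans ((mul_le_mul_of_nonneg_left h2.2.2.2.2 (sq_nonneg _)).trans h3.le)

theorem Deg.caseC (h : e.Deg 0 β γ) (hβ : β ≠ 0) (hγ : γ ≠ 0) (hA : e.h [true, true, true] 0 ≠ 0) :
    ∀ᶠ τ in l0, e.φ τ = 0 := by
  by_cases h1 : ∃ᶠ τ in l0, e.φ τ < 0
  · by_cases h2 : ∃ᶠ τ in l0, 0 < e.φ τ
    · rcases hβ.lt_or_gt with h3 | h3
      · exact h.off_axis h3 hγ h1
      · exact h.near_axis h3 hA h2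
    · simpa using h.acc.swap.zero_of_nonneg (by simpa using h2)
        (((e.tendh [false, false]).eventually_ne (h.ff ▸ hγ)).mono fun τ h _ _ _ _ => by
          simpa [swap_h] using h)
  · refine h.acc.zero_of_nonneg (by simpa using h1) ?_
    filter_upwards [ev_Ioc (h.z_le hβ hA), h.ev2 (K := |e.h [true, true, true] 0| / |β|)
      (r := fun _ => True) (q := fun τ => e.h [true, true] τ ≠ 0) fun U ζ _ _ L _ =>
        (L.tt2.eventually_ne hA).mono fun τ h h' => h (by simp [h'])] with t h1 h2 c hc h3 h4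
    refine h2 (h4.trans ((h1 c (Ioo_subset_Ioc_self hc) (by simp [h3])).trans ?_)) trivial
    have := hc.1
    gcongr
    exact hc.2.le

end Ext

end Pool.Agent.Lib.MP_f4f7c0_an
end

-- part Pool.Agent.Lib.MP_f4f7c0_an.HBase
section

/-! Local calculus away from the initial time and a priori bounds for the case of two lines. -/

namespace Pool.Agent.Lib.MP_f4f7c0_an

open Set Filter Topology MeasureTheory Asymptotics

namespace Ext
variable {e : Ext} {F Fp Fm G Gp Gm : ℝ → ℝ}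

/-- Derivative along the extremal on compact subintervals of small positive times. -/
def LD (e : Ext) (F Fp Fm : ℝ → ℝ) : Prop :=
  ∀ᶠ t in l0, ∀ s, 0 < s → ∀ u, s ≤ u → u ≤ t → DD e.m F Fp Fm s u

theorem ld (h : DD e.m F Fp Fm 0 e.δ) : e.LD F Fp Fm :=
  e.ev_mem.mono fun _ ht _ hs _ hu hut => h.mono hs.le hu (hut.trans ht.2.le)

theorem ldh (e : Ext) (w : List Bool) : e.LD (e.h w) (e.h (true :: w)) (e.h (false :: w)) :=
  ld (e.dh w)

namespace LD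

theorem add (h : e.LD F Fp Fm) (g : e.LD G Gp Gm) :
    e.LD (fun τ => F τ + G τ) (fun τ => Fp τ + Gp τ) (fun τ => Fm τ + Gm τ) := by
  filter_upwards [h, g] with t h g s hs u h1 h2 using (h s hs u h1 h2).add (g s hs u h1 h2)

theorem sub (h : e.LD F Fp Fm) (g : e.LD G Gp Gm) :
    e.LD (fun τ => F τ - G τ) (fun τ => Fp τ - Gp τ) (fun τ => Fm τ - Gm τ) := by
  filter_upwards [h, g] with t h g s hs u h1 h2 using (h s hs u h1 h2).sub (g s hs u h1 h2)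

theorem mul (h : e.LD F Fp Fm) (g : e.LD G Gp Gm) :
    e.LD (fun τ => F τ * G τ) (fun τ => Fp τ * G τ + F τ * Gp τ)
      (fun τ => Fm τ * G τ + F τ * Gm τ) := by
  filter_upwards [h, g] with t h g s hs u h1 h2 using (h s hs u h1 h2).mul (g s hs u h1 h2)

theorem cmul (c : ℝ) (h : e.LD F Fp Fm) :
    e.LD (fun τ => c * F τ) (fun τ => c * Fp τ) (fun τ => c * Fm τ) := by
  filter_upwards [h] with t h s hs u h1 h2 using (h s hs u h1 h2).cmul c

theorem const (c : ℝ) : e.LD (fun _ => c) (fun _ => 0) (fun _ => 0) := ld (DD.const c)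

theorem pow (h : e.LD F Fp Fm) (n : ℕ) : e.LD (fun τ => F τ ^ n)
    (fun τ => n * F τ ^ (n - 1) * Fp τ) (fun τ => n * F τ ^ (n - 1) * Fm τ) := by
  filter_upwards [h] with t h s hs u h1 h2 using (h s hs u h1 h2).pow h1 n

theorem div (h : e.LD F Fp Fm) (g : e.LD G Gp Gm) (hpos : ∀ᶠ τ in l0, 0 < G τ) :
    e.LD (fun τ => F τ / G τ) (fun τ => (Fp τ * G τ - F τ * Gp τ) / G τ ^ 2)
      (fun τ => (Fm τ * G τ - F τ * Gm τ) / G τ ^ 2) := by
  filter_upwards [h, g, ev_Ioc hpos] with t h g hp s hs u h1 h2 using (h s hs u h1 h2).div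
    (g s hs u h1 h2) h1 fun τ hτ => hp τ ⟨hs.trans_le hτ.1, hτ.2.trans h2⟩

theorem sqrt (h : e.LD F Fp Fm) (hpos : ∀ᶠ τ in l0, 0 < F τ) :
    e.LD (fun τ => √(F τ)) (fun τ => Fp τ / (2 * √(F τ))) (fun τ => Fm τ / (2 * √(F τ))) := by
  filter_upwards [h, ev_Ioc hpos] with t h hp s hs u h1 h2 using (h s hs u h1 h2).sqrt
    h1 fun τ hτ => hp τ ⟨hs.trans_le hτ.1, hτ.2.trans h2⟩

theorem log : e.LD Real.log (fun τ => τ⁻¹) (fun τ => τ⁻¹) :=
  Eventually.of_forall fun _ _ hs _ h1 _ => DD.log hs h1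

theorem congr (h : e.LD F Fp Fm)
    (hp : ∀ᶠ τ in l0, 0 ≤ e.φ τ → (e.φ τ = 0 → e.W τ = 0) → Gp τ = Fp τ)
    (hm : ∀ᶠ τ in l0, e.φ τ ≤ 0 → (e.φ τ = 0 → e.W τ = 0) → Gm τ = Fm τ) : e.LD F Gp Gm := by
  filter_upwards [h, ev_Ioc (hp.and (hm.and e.ev_mem))] with t h H s hs u h1 h2
  refine ⟨(h s hs u h1 h2).1, ?_⟩
  filter_upwards [(h s hs u h1 h2).2, e.tri] with τ h3 h4 hτ
  obtain ⟨h5, h6, h7⟩ := H τ ⟨hs.trans hτ.1, hτ.2.le.trans h2⟩
  refine (h3 hτ).congr_deriv ?_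
  rcases h4 h7 with ⟨h8, h9⟩ | ⟨h8, h9⟩ | ⟨h8, h9⟩
  · simp [h9, h5 h8.le fun h => absurd h h8.ne']
  · simp [h9, h6 h8.le fun h => absurd h h8.ne]
  · rw [h5 h8.ge fun _ => h9, h6 h8.le fun _ => h9]

/-- Monotonicity along arcs of positivity. -/
theorem mono_pos (h : e.LD F Fp Fm) (hp : ∀ᶠ τ in l0, 0 < e.φ τ → 0 ≤ Fp τ) :
    ∀ᶠ t in l0, ∀ s ∈ Ioc 0 t, (∀ y ∈ Ioo s t, 0 < e.φ y) → F s ≤ F t := by
  filter_upwards [h, ev_Ioc hp, e.ev_mem] with t h hp ht s hs hφ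
  exact Ext.mono_pos (h s hs.1 t hs.2 le_rfl) hs.1.le hs.2 ht.2.le hφ
    fun y hy => hp y ⟨hs.1.trans hy.1, hy.2.le⟩ (hφ y hy)

theorem mono_neg (h : e.LD F Fp Fm) (hm : ∀ᶠ τ in l0, e.φ τ < 0 → 0 ≤ Fm τ) :
    ∀ᶠ t in l0, ∀ s ∈ Ioc 0 t, (∀ y ∈ Ioo s t, e.φ y < 0) → F s ≤ F t := by
  filter_upwards [h, ev_Ioc hm, e.ev_mem] with t h hp ht s hs hφ
  exact Ext.mono_neg (h s hs.1 t hs.2 le_rfl) hs.1.le hs.2 ht.2.le hφ
    fun y hy => hp y ⟨hs.1.trans hy.1, hy.2.le⟩ (hφ y hy)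

theorem cont (h : e.LD F Fp Fm) : ∀ᶠ t in l0, ∀ s ∈ Ioc 0 t, ContinuousOn F (Icc s t) :=
  h.mono fun t h s hs => (h s hs.1 t hs.2 le_rfl).cont hs.2

end LD

/-- Data for the case of two zero lines (possibly equal). -/
structure HD (e : Ext) (α β ω c : ℝ) (R wp wm wpp wpm wmp wmm : ℝ → ℝ) : Prop where
  acc : e.Acc
  α0 : 0 < α
  β0 : β < 0
  ω0 : ω < -β
  c0 : 0 < c
  tt : e.h [true, true] 0 = α
  ft : e.h [false, true] 0 = β
  dR : e.LD R wp wm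
  dp : e.LD wp wpp wpm
  dm : e.LD wm wmp wmm
  R0 : ∀ᶠ τ in l0, 0 < R τ
  sq : ∀ᶠ τ in l0, R τ ^ 2 = e.a τ ^ 2 - 2 * α * e.W τ
  r : ∀ᶠ τ in l0, c ≤ τ * (wm τ / R τ)
  tm : Tendsto wm l0 (𝓝 ω)
  tp : Tendsto wp l0 (𝓝 0)
  t1 : Tendsto (fun τ => τ * (wp τ / R τ)) l0 (𝓝 0)
  t2 : Tendsto (fun τ => τ * wpp τ) l0 (𝓝 0)
  t3 : Tendsto (fun τ => τ * wmp τ) l0 (𝓝 0)
  t4 : Tendsto (fun τ => τ * wmm τ) l0 (𝓝 0)

namespace HD
variable {α β ω c : ℝ} {R wp wm wpp wpm wmp wmm : ℝ → ℝ}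
  (H : e.HD α β ω c R wp wm wpp wpm wmp wmm)
include H

theorem wm_pos : ∀ᶠ τ in l0, 0 < wm τ := by
  filter_upwards [H.r, H.R0, ev_pos] with τ h1 h2 h3
  exact (div_pos_iff_of_pos_right h2).1 ((mul_pos_iff_of_pos_left h3).1 (H.c0.trans_le h1))

theorem small : ∀ᶠ τ in l0, |e.h [true, true] τ - α| ≤ α / 100 ∧ |wp τ| ≤ α / 100 := by
  have h : 0 < α / 100 := by linarith [H.α0]
  filter_upwards [ev_near (e := e) [true, true] h, H.tp.abs.eventually (gt_mem_nhds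
    (show |0| < α / 100 by simpa using H.α0))] with τ h1 h2 using ⟨H.tt ▸ h1, h2.le⟩

theorem of_W : ∀ᶠ τ in l0, e.W τ ≤ 0 → -R τ ≤ e.a τ ∧ e.a τ ≤ R τ := by
  filter_upwards [H.R0, H.sq] with τ h1 h2 h3
  exact abs_le.1 (abs_le_of_sq_le_sq (by nlinarith [H.α0]) h1.le)

/-- A property of the end points of arcs of positivity. -/
theorem ends {q : ℝ → Prop} (h : ∀ᶠ t in l0, ∀ s ∈ Ioc 0 t, (∀ y ∈ Ioo s t, 0 < e.φ y) →
    0 ≤ e.φ s → e.φ t = 0 → e.W t ≤ 0 → q s) : ∀ᶠ τ in l0, 0 ≤ e.φ τ → q τ := by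
  refine H.acc.ev_of_zero h fun t h1 h2 h3 h4 τ hτ hφ => ?_
  rcases hφ.eq_or_lt with h5 | h5
  · rcases le_or_gt (e.W τ) 0 with hW | hW
    · exact h4 τ (Ioo_subset_Ioc_self hτ) τ ⟨hτ.1, le_rfl⟩ (by simp) hφ h5.symm hW
    · obtain ⟨b, h6, h7, h8, h9, h10⟩ := next_pos hτ.1 hτ.2 h2 h5.symm h3 hW
      exact h4 b ⟨hτ.1.trans h6, h7⟩ τ ⟨hτ.1, h6.le⟩ h9 hφ h8 h10
  · obtain ⟨a, b, -, haτ, hτb, hb, -, hb0, hpos, -, hWb⟩ :=
      H.acc.arc_pos h2 h3 (Ioo_subset_Ioc_self hτ) h5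
    exact h4 b ⟨hτ.1.trans hτb, hb⟩ τ ⟨hτ.1, hτb.le⟩ (fun y hy => hpos y ⟨haτ.trans hy.1, hy.2⟩)
      hφ hb0 hWb

theorem a_le : ∀ᶠ τ in l0, e.a τ ≤ R τ := by
  have h1 : ∀ᶠ τ in l0, 0 ≤ e.φ τ → e.a τ ≤ R τ := H.ends (by
    filter_upwards [((e.ldh [true]).sub H.dR).mono_pos (H.small.mono fun τ h _ => by
      linarith [abs_le.1 h.1, abs_le.1 h.2, H.α0]), H.of_W] with t h1 h2 s hs hφ _ _ hW
    linarith [h1 s hs hφ, (h2 hW).2])
  have h2 := (H.dR.sub (e.ldh [true])).mono_neg (by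
    filter_upwards [H.wm_pos, (e.tendh [false, true]).eventually (gt_mem_nhds (H.ft ▸ H.β0))]
      with τ h1 h2 _ using by linarith)
  refine H.acc.ev_of_zero (h1.and (h2.and H.of_W)) fun t h1 h2 h3 h4 τ hτ => ?_
  have hτ' := Ioo_subset_Ioc_self hτ
  refine (le_or_gt 0 (e.φ τ)).elim (h4 τ hτ').1 fun hφ => ?_
  obtain ⟨a, b, ha, haτ, hτb, -, -, -, hneg, hWa, -⟩ := H.acc.arc_neg h2 h3 hτ' hφ
  linarith [(h4 τ hτ').2.1 a ⟨ha, haτ.le⟩ fun y hy => hneg y ⟨hy.1, hy.2.trans hτb⟩,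
    ((h4 a ⟨ha, (haτ.trans hτ.2).le⟩).2.2 hWa).2]

theorem le_four : ∀ᶠ τ in l0, 0 ≤ e.φ τ → 0 ≤ e.a τ + 3 * R τ := by
  have hα := H.α0
  have d1 := (e.ldh [true]).add (H.dR.cmul 3)
  have du := H.dR.sub (e.ldh [true])
  have d2 := ((ld e.dφ).cmul (2 * α ^ 2)).add (du.mul ((((du.mul du).cmul (1 / 3)).sub
    (du.mul H.dR)).sub ((H.dR.mul H.dR).cmul (1 / 2))))
  refine H.ends ?_
  filter_upwards [ev_Ioc (d1.mono_pos (H.small.mono fun τ h _ => by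
    linarith [abs_le.1 h.1, abs_le.1 h.2])), d1.cont, d2, H.of_W, e.ev_mem,
    ev_Ioc (H.R0.and (H.sq.and (H.small.and H.a_le)))] with t h1 h2 h3 h4 h5 h6 s hs hφ hs0 ht0 hW
  by_contra hn
  have hRt := (h6 t ⟨h5.1, le_rfl⟩).1
  obtain ⟨u, hu, hu0⟩ := intermediate_value_Icc hs.2 (h2 s hs)
    (show (0 : ℝ) ∈ _ from ⟨(not_le.1 hn).le, by linarith [(h4 hW).1]⟩)
  have hu1 := hs.1.trans_le hu.1
  have hφ' : ∀ y ∈ Ioo u t, 0 < e.φ y := fun y hy => hφ y ⟨lt_of_le_of_lt hu.1 hy.1, hy.2⟩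
  have := Ext.mono_pos (h3 u hu1 t hu.2 le_rfl) hu1.le hu.2 h5.2.le hφ' fun y hy => ?_
  · have h7 : 0 ≤ e.φ u := by
      rcases hu.1.eq_or_lt with rfl | h7
      · exact hs0
      · exact hu.2.eq_or_lt.elim (fun h => by rw [h, ht0]) fun h => (hφ u ⟨h7, h⟩).le
    have h8 := (h6 u ⟨hu1, hu.2⟩).1
    have h9 : e.h [true] u = -3 * R u := by linarith
    obtain ⟨h10, h11⟩ := h4 hW
    rw [ht0, h9] at this
    have h12 : (R t - e.a t) * (1 / 3 * ((R t - e.a t) * (R t - e.a t)) - (R t - e.a t) * R t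
        - 1 / 2 * (R t * R t)) ≤ 0 := mul_nonpos_of_nonneg_of_nonpos (by linarith) (by nlinarith)
    nlinarith [pow_pos h8 3, mul_nonneg (sq_nonneg α) h7]
  · have hy0 : y ∈ Ioc 0 t := ⟨hu1.trans hy.1, hy.2.le⟩
    obtain ⟨h7, h8, ⟨h9, h10⟩, h11⟩ := h6 y hy0
    have h12 := h1 y hy0 u ⟨hu1, hy.1.le⟩ fun w hw => hφ' w ⟨hw.1, hw.2.trans hy.2⟩
    have hW : 2 * α ^ 2 * e.h [] y = α * ((R y - e.a y) * (R y - e.a y) - 2 * (R y - e.a y) * R y) := by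
      linear_combination α * h8
    rw [hW]
    obtain ⟨v, hv⟩ : ∃ v, v = R y - e.a y := ⟨_, rfl⟩
    rw [← hv]
    have v0 : 0 ≤ v := by linarith
    have v1 : v ≤ 4 * R y := by linarith
    have e1 := abs_le.1 (show |v * v - 2 * v * R y| ≤ 8 * R y ^ 2 from abs_le.2 ⟨by nlinarith, by nlinarith⟩)
    have e2 : v * v + v * R y ≤ 20 * R y ^ 2 := by nlinarith
    have e3 : 0 ≤ v * v + v * R y := by positivity
    rw [abs_le] at h9 h10
    have e4 : -(α / 50 * (8 * R y ^ 2)) ≤ (α - e.h [true, true] y + wp y) * (v * v - 2 * v * R y) :=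
      neg_le_of_abs_le (by
        rw [abs_mul]
        exact mul_le_mul (abs_le.2 ⟨by linarith, by linarith⟩) (abs_le.2 e1) (abs_nonneg _)
          (by positivity))
    have e5 : wp y * (v * v + v * R y) ≤ α / 100 * (20 * R y ^ 2) :=
      (mul_le_mul_of_nonneg_right h10.2 e3).trans (mul_le_mul_of_nonneg_left e2 (by positivity))
    have e6 : α / 100 * 98 * R y ^ 2 ≤ (e.h [true, true] y - wp y) * R y ^ 2 :=
      mul_le_mul_of_nonneg_right (by linarith) (sq_nonneg _)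
    nlinarith [mul_nonneg hα.le (sq_nonneg (R y))]

theorem le_five : ∀ᶠ τ in l0, 0 ≤ e.a τ + 4 * R τ := by
  have tf := H.ft ▸ e.tendh [false, true]
  rcases lt_or_ge 0 (β + 4 * ω) with h | h
  · have h2 := ((e.ldh [true]).add (H.dR.cmul 4)).mono_neg
      (((tf.add (H.tm.const_mul 4)).eventually (lt_mem_nhds h)).mono fun _ h _ => h.le)
    refine H.acc.ev_of_zero (H.le_four.and (h2.and (H.of_W.and H.R0))) fun t h1 h2 h3 h4 τ hτ => ?_
    have hτ' := Ioo_subset_Ioc_self hτ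
    refine (le_or_gt 0 (e.φ τ)).elim (fun h => by linarith [(h4 τ hτ').1 h, (h4 τ hτ').2.2.2])
      fun hφ => ?_
    obtain ⟨a, b, ha, haτ, hτb, -, -, -, hneg, hWa, -⟩ := H.acc.arc_neg h2 h3 hτ' hφ
    have := h4 a ⟨ha, (haτ.trans hτ.2).le⟩
    linarith [(h4 τ hτ').2.1 a ⟨ha, haτ.le⟩ fun y hy => hneg y ⟨hy.1, hy.2.trans hτb⟩,
      (this.2.2.1 hWa).1, this.2.2.2]
  · have h2 := (((e.ldh [true]).add (H.dR.cmul 3)).cmul (-1)).mono_neg
      ((((tf.add (H.tm.const_mul 3)).const_mul (-1)).eventually (lt_mem_nhds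
        (show 0 < _ by linarith [H.β0]))).mono fun _ h _ => h.le)
    refine H.acc.ev_of_zero (H.le_four.and (h2.and H.R0)) fun t h1 h2 h3 h4 τ hτ => ?_
    have hτ' := Ioo_subset_Ioc_self hτ
    refine (le_or_gt 0 (e.φ τ)).elim (fun h => by linarith [(h4 τ hτ').1 h, (h4 τ hτ').2.2])
      fun hφ => ?_
    obtain ⟨a, b, ha, haτ, hτb, hb, -, hb0, hneg, -⟩ := H.acc.arc_neg h2 h3 hτ' hφ
    have := h4 b ⟨hτ.1.trans hτb, hb⟩
    linarith [this.2.1 τ ⟨hτ.1, hτb.le⟩ fun y hy => hneg y ⟨haτ.trans hy.1, hy.2⟩,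
      this.1 hb0.ge, (h4 τ hτ').2.2]

theorem φ_le : ∀ᶠ τ in l0, 0 ≤ e.φ τ → α ^ 2 * e.φ τ ≤ 2 * (R τ * (R τ - e.a τ) ^ 2) := by
  have hα := H.α0
  have d := ((ld e.dφ).cmul (α ^ 2)).sub ((H.dR.mul ((H.dR.sub (e.ldh [true])).pow 2)).cmul 2)
  refine H.ends ?_
  filter_upwards [d.mono_pos (by
    filter_upwards [H.R0, H.sq, H.small, H.a_le, H.le_five] with y h7 h8 ⟨h9, h10⟩ h11 h12 _
    have hW : α ^ 2 * e.h [] y = α / 2 * ((R y - e.a y) * (R y - e.a y) - 2 * (R y - e.a y) * R y) := by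
      linear_combination α / 2 * h8
    rw [hW]
    obtain ⟨v, hv⟩ : ∃ v, v = R y - e.a y := ⟨_, rfl⟩
    rw [← hv]
    have v0 : 0 ≤ v := by linarith
    have v1 : v ≤ 5 * R y := by linarith
    rw [abs_le] at h9 h10
    have e5 : wp y * v ^ 2 ≤ α / 100 * (v * (5 * R y)) :=
      (mul_le_mul_of_nonneg_right h10.2 (sq_nonneg _)).trans
        (mul_le_mul_of_nonneg_left (by nlinarith) (by positivity))
    have e6 : α / 100 * 98 * (R y * v) ≤ (e.h [true, true] y - wp y) * (R y * v) :=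
      mul_le_mul_of_nonneg_right (by linarith) (by positivity)
    norm_num
    nlinarith [mul_nonneg hα.le (mul_nonneg h7.le v0), mul_nonneg hα.le (mul_nonneg v0 v0)]),
    H.R0] with t h1 h2 s hs hφ _ ht0 _
  have := h1 s hs hφ
  rw [ht0] at this
  nlinarith [mul_nonneg h2.le (sq_nonneg (R t - e.a t))]

end HD

end Ext

end Pool.Agent.Lib.MP_f4f7c0_an
end

-- part Pool.Agent.Lib.MP_f4f7c0_an.HMain
section

/-! The scale invariant Lyapunov function for the case of two lines. -/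

namespace Pool.Agent.Lib.MP_f4f7c0_an

open Set Filter Topology MeasureTheory Asymptotics

namespace Ext

noncomputable def hY (e : Ext) (R : ℝ → ℝ) (τ : ℝ) : ℝ := 1 - e.a τ / R τ
noncomputable def hσp (e : Ext) (R wp : ℝ → ℝ) (τ : ℝ) : ℝ :=
  e.h [true, true] τ - wp τ * (1 - e.hY R τ)
noncomputable def hσm (e : Ext) (R wm : ℝ → ℝ) (τ : ℝ) : ℝ :=
  -e.h [false, true] τ + wm τ * (1 - e.hY R τ)
noncomputable def hU (e : Ext) (α : ℝ) (R wp wm : ℝ → ℝ) (τ : ℝ) : ℝ :=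
  (e.hY R τ - 2) ^ 2 * (e.hY R τ + 1) + 6 * α * ((e.h [true, true] τ + wp τ) * (e.P τ / R τ ^ 3))
    + 6 * α * ((-1 * (e.h [false, true] τ + wm τ)) * (e.N τ / R τ ^ 3))

namespace HD
variable {e : Ext} {α β ω c : ℝ} {R wp wm wpp wpm wmp wmm : ℝ → ℝ}
  (H : e.HD α β ω c R wp wm wpp wpm wmp wmm)
include H

theorem dY : e.LD (e.hY R) (fun τ => -e.hσp R wp τ / R τ) (fun τ => e.hσm R wm τ / R τ) := by
  refine ((LD.const 1).sub ((e.ldh [true]).div H.dR H.R0)).congr ?_ ?_ <;>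
  · filter_upwards [H.R0] with τ h _ _
    simp only [hσp, hσm, hY]
    field_simp
    ring

theorem hW : ∀ᶠ τ in l0, 2 * α * e.W τ = R τ ^ 2 * (e.hY R τ * (e.hY R τ - 2)) := by
  filter_upwards [H.R0, H.sq] with τ h1 h2
  simp only [hY]
  field_simp
  linarith

theorem dU : e.LD (e.hU α R wp wm)
    (fun τ => -(wp τ / R τ) * (3 * e.hY R τ * (2 - e.hY R τ) ^ 2 + 18 * α *
      (e.h [true, true] τ + wp τ) * (e.P τ / R τ ^ 3)) +
      6 * α * (e.h [true, true, true] τ + wpp τ) * (e.P τ / R τ ^ 3))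
    (fun τ => -(wm τ / R τ) * (3 * e.hY R τ * (2 - e.hY R τ) ^ 2 + 18 * α *
      (-1 * (e.h [false, true] τ + wm τ)) * (e.N τ / R τ ^ 3)) -
      6 * α * (e.h [false, false, true] τ + wmm τ) * (e.N τ / R τ ^ 3)) := by
  have R3 := H.R0.mono fun τ h => pow_pos h 3
  refine (((((H.dY.sub (LD.const 2)).pow 2).mul (H.dY.add (LD.const 1))).add
    ((((e.ldh [true, true]).add H.dp).mul ((ld e.dP).div (H.dR.pow 3) R3)).cmul (6 * α))).add
    (((((e.ldh [false, true]).add H.dm).cmul (-1)).mul ((ld e.dN).div (H.dR.pow 3) R3)).cmul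
      (6 * α))).congr ?_ ?_
  · filter_upwards [H.R0, H.hW] with τ h hW h1 h2
    obtain ⟨-, e2, e3, e4⟩ := PN_pos h1 h2
    simp only [e2, e3, e4, hσp]
    field_simp
    push_cast
    linear_combination -3 * R τ ^ 3 * (e.h [true, true] τ + wp τ) * hW
  · filter_upwards [H.R0, H.hW] with τ h hW h1 h2
    obtain ⟨e2, -, e3, e4⟩ := PN_neg h1 h2
    simp only [e2, e3, e4, hσm]
    field_simp
    push_cast
    linear_combination -3 * R τ ^ 3 * (e.h [false, true] τ + wm τ) * hW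

theorem bY : ∀ᶠ τ in l0, 0 ≤ e.hY R τ ∧ e.hY R τ ≤ 5 ∧
    α ^ 2 * (e.P τ / R τ ^ 3) ≤ 2 * e.hY R τ ^ 2 := by
  filter_upwards [H.R0, H.a_le, H.le_five, H.φ_le] with τ h1 h2 h3 h4
  refine ⟨sub_nonneg.2 ((div_le_one h1).2 h2), ?_, ?_⟩
  · have : -4 ≤ e.a τ / R τ := (le_div_iff₀ h1).2 (by linarith)
    simp only [hY]
    linarith
  · rcases le_total 0 (e.φ τ) with h | h
    · rw [P, max_eq_left h, ← mul_div_assoc, div_le_iff₀ (pow_pos h1 3)]
      refine (h4 h).trans_eq ?_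
      simp only [hY]
      field_simp
    · simp only [P, max_eq_right h, zero_div, mul_zero]
      positivity

theorem small_r {s : ℝ → ℝ} (h : Tendsto (fun τ => τ * s τ) l0 (𝓝 0)) {η : ℝ} (hη : 0 < η) :
    ∀ᶠ τ in l0, |s τ| ≤ η * (wm τ / R τ) := by
  filter_upwards [h.abs.eventually (gt_mem_nhds (show |0| < η * c by simpa using mul_pos hη H.c0)),
    H.r, ev_pos] with τ h1 h2 h3
  rw [abs_mul, abs_of_pos h3] at h1
  refine le_of_mul_le_mul_left ?_ h3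
  nlinarith

theorem bσ : ∀ᶠ τ in l0, α / 2 ≤ e.hσp R wp τ ∧ e.hσp R wp τ ≤ 2 * α ∧
    α / 2 ≤ e.h [true, true] τ + wp τ ∧ e.h [true, true] τ + wp τ ≤ 2 * α ∧
    (-β - ω) / 2 ≤ -1 * (e.h [false, true] τ + wm τ) ∧ |e.hσm R wm τ| ≤ 5 * (1 - β) ∧
    (e.hY R τ ≤ 1 → -β / 2 ≤ e.hσm R wm τ) ∧ 0 < wm τ ∧ wm τ ≤ 1 - β := by
  have tf := H.ft ▸ e.tendh [false, true]
  have := H.β0
  have := H.ω0
  filter_upwards [H.bY, H.small, H.wm_pos, H.tm.eventually (gt_mem_nhds (show ω < 1 - β by linarith)),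
    tf.eventually (gt_mem_nhds (show β < β / 2 by linarith)),
    tf.eventually (lt_mem_nhds (show β - 1 < β by linarith)),
    (tf.add H.tm).eventually (gt_mem_nhds (show β + ω < (β + ω) / 2 by linarith))]
    with τ ⟨y0, y5, _⟩ ⟨h1, h2⟩ h3 h4 h5 h6 h7
  have h8 : |wp τ * (1 - e.hY R τ)| ≤ α / 100 * 4 := by
    rw [abs_mul]
    exact mul_le_mul h2 (abs_le.2 ⟨by linarith, by linarith⟩) (abs_nonneg _) (by linarith [H.α0])
  rw [abs_le] at h1 h2 h8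
  have := H.α0
  simp only [hσp, hσm]
  refine ⟨by linarith, by linarith, by linarith, by linarith, by linarith,
    abs_le.2 ⟨by nlinarith, by nlinarith⟩, fun h => by nlinarith, h3, h4.le⟩

theorem lyap : ∃ c₁ > 0, ∃ V Vp Vm : ℝ → ℝ, e.LD V Vp Vm ∧ ∀ᶠ τ in l0,
    0 ≤ e.hU α R wp wm τ ∧ e.hU α R wp wm τ ≤ V τ ∧ V τ ≤ 2 * e.hU α R wp wm τ ∧
    (e.hY R τ = 0 → V τ = e.hU α R wp wm τ) ∧
    (e.hU α R wp wm τ = 0 → e.φ τ = 0 ∧ e.hY R τ = 2) ∧
    (0 ≤ e.φ τ → Vp τ ≤ -c₁ * (wm τ / R τ * e.hY R τ * e.hU α R wp wm τ)) ∧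
    (e.φ τ ≤ 0 → Vm τ ≤ -c₁ * (wm τ / R τ * e.hY R τ * e.hU α R wp wm τ)) := by
  have hα := H.α0
  have hB : 0 < 1 - β := by linarith [H.β0]
  have hκ : 0 < (-β - ω) / 2 := by linarith [H.ω0]
  set ε := 1 / (200 * (1 - β)) with hε
  have ε0 : 0 < ε := by positivity
  have hεB : ε * (1 - β) = 1 / 200 := by rw [hε]; field_simp
  set η := min (min 1 ((-β - ω) / 2)) (ε * α / 2 / (150 + 96 / α + 5 * ε)) with hη
  have η0 : 0 < η := by positivity
  have η1 : η ≤ 1 := (min_le_left _ _).trans (min_le_left _ _)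
  have η2 : η ≤ (-β - ω) / 2 := (min_le_left _ _).trans (min_le_right _ _)
  have η3 : η * (150 + 96 / α + 5 * ε) ≤ ε * α / 2 := (le_div_iff₀ (by positivity)).1 (min_le_right _ _)
  have t3 := fun w => tendsto_id0.mul (e.tendh w)
  refine ⟨min (ε * α / 2) (1 / 8), by positivity, _, _, _,
    H.dU.mul ((LD.const 1).add ((H.dm.cmul ε).mul (H.dY.pow 2))), ?_⟩
  filter_upwards [H.bY, H.bσ, H.R0, H.small_r H.t1 η0, H.small_r H.t3 η0, H.small_r H.t4 η0,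
    H.small_r (s := fun τ => e.h [true, true, true] τ + wpp τ)
      (by simpa [mul_add] using (t3 [true, true, true]).add H.t2) η0,
    H.small_r (s := fun τ => e.h [false, false, true] τ + wmm τ)
      (by simpa [mul_add] using (t3 [false, false, true]).add H.t4) η0]
    with τ ⟨y0, y5, hπ⟩ ⟨b1, b2, b3, b4, b5, b6, _, b8, b9⟩ R0 s1 s4 s5 s2 s3
  have π0 : 0 ≤ e.P τ / R τ ^ 3 := div_nonneg (P_nonneg τ) (pow_pos R0 3).le
  have ν0 : 0 ≤ e.N τ / R τ ^ 3 := div_nonneg (N_nonneg τ) (pow_pos R0 3).le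
  have k1 : 0 < 6 * α * (e.h [true, true] τ + wp τ) := mul_pos (by positivity) (by linarith)
  have k2 : 0 < 6 * α * (-1 * (e.h [false, true] τ + wm τ)) := mul_pos (by positivity) (by linarith)
  have k3 : 0 ≤ (e.hY R τ - 2) ^ 2 * (e.hY R τ + 1) := by positivity
  have k4 := mul_nonneg k1.le π0
  have k5 := mul_nonneg k2.le ν0
  have U0 : 0 ≤ e.hU α R wp wm τ := by simp only [hU]; linarith
  have w0 : 0 ≤ ε * wm τ := by positivity
  have w1 : 25 * (ε * wm τ) ≤ 1 := by nlinarith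
  have w2 : ε * wm τ * e.hY R τ ^ 2 ≤ 1 := by
    nlinarith [mul_le_mul_of_nonneg_left (show e.hY R τ ^ 2 ≤ 25 by nlinarith) w0]
  have r0 := div_pos b8 R0
  have rYU : 0 ≤ wm τ / R τ * e.hY R τ * e.hU α R wp wm τ := by positivity
  refine ⟨U0, by nlinarith [mul_nonneg U0 (mul_nonneg w0 (sq_nonneg (e.hY R τ)))], by nlinarith,
    fun h => by simp [h], fun h => ?_, fun h => ?_, fun h => ?_⟩
  · simp only [hU] at h
    have a1 : (e.hY R τ - 2) ^ 2 * (e.hY R τ + 1) = 0 := by linarith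
    have a2 : e.P τ = 0 := by
      have : 6 * α * (e.h [true, true] τ + wp τ) * (e.P τ / R τ ^ 3) = 0 := by linarith
      simpa [k1.ne', R0.ne'] using this
    have a3 : e.N τ = 0 := by
      have : 6 * α * (-1 * (e.h [false, true] τ + wm τ)) * (e.N τ / R τ ^ 3) = 0 := by linarith
      exact (div_eq_zero_iff.1 ((mul_eq_zero.1 this).resolve_left k2.ne')).resolve_right
        (pow_pos R0 3).ne'
    refine ⟨le_antisymm (a2 ▸ le_max_left _ _) (neg_nonpos.1 (a3 ▸ le_max_left _ _)), ?_⟩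
    have := (mul_eq_zero.1 a1).resolve_right (by linarith)
    linarith [pow_eq_zero_iff two_ne_zero |>.1 this]
  · have := ineqP hα y0 y5 π0 hπ b3 b4 b1 r0 ε0 w0 w1 s1 s2 s4 η3 (U := e.hU α R wp wm τ)
      (by simp [hU, N, h])
    refine le_trans (le_of_eq ?_) (this.trans ?_)
    · field_simp
      push_cast
      ring
    · nlinarith [min_le_left (ε * α / 2) (1 / 8)]
  · have := ineqM hα y0 y5 ν0 hκ b5 b6 r0 ε0 w0 s3 s5 η2 (by nlinarith [H.β0])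
      (U := e.hU α R wp wm τ) (by simp [hU, P, h])
    refine le_trans (le_of_eq ?_) (this.trans ?_)
    · field_simp
      push_cast
      ring
    · nlinarith [min_le_right (ε * α / 2) (1 / 8)]

omit H in
theorem sing_of {y : ℝ} (hy : y ≠ 1) (h : ∀ᶠ τ in l0, e.φ τ = 0 ∧ e.hY R τ = y) : e.Sing := by
  filter_upwards [h] with τ h1
  refine ⟨h1.1, Or.inl fun h2 => hy ?_⟩
  simp [← h1.2, hY, h2]

theorem sing : e.Sing := by
  obtain ⟨c₁, hc₁, V, Vp, Vm, dV, hV⟩ := H.lyap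
  have hα := H.α0
  have hβ := neg_pos.2 H.β0
  set Y := e.hY R
  set U := e.hU α R wp wm
  have hz : ∀ τ, e.φ τ = 0 → U τ = (Y τ - 2) ^ 2 * (Y τ + 1) := fun τ h => by simp [U, Y, hU, P, N, h]
  have dI := ((H.dm.div H.dR H.R0).mul H.dY).mul H.dU
  have hη : 0 < min α (-β) / 30 := by positivity
  have dΘ := H.dm.mul (H.dY.mul ((LD.const 2).sub H.dY))
  obtain ⟨t, t0, tδ, tφ, ht⟩ := H.acc.exists_zero (hV.and (dV.and (dI.cont.and (H.bY.and (H.bσ.and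
    (H.R0.and (H.hW.and (H.r.and (dΘ.and ((H.small_r H.t3 hη).and (H.small_r H.t4 hη)))))))))))
  have dV' := (ht t ⟨t0, le_rfl⟩).2.1
  have nn : ∀ τ ∈ Ioc 0 t, 0 ≤ wm τ / R τ * Y τ * U τ := fun τ hτ => by
    obtain ⟨⟨h1, -⟩, -, -, ⟨h2, -⟩, ⟨-, -, -, -, -, -, -, h3, -⟩, h4, -⟩ := ht τ hτ
    positivity
  have anti1 : ∀ s u, 0 < s → s ≤ u → u ≤ t → V u ≤ V s := fun s u h1 h2 h3 =>
    anti (dV' s h1 u h2 h3) h1.le h2 (h3.trans tδ.le)
      (fun τ hτ h _ => ((ht τ ⟨h1.trans hτ.1, hτ.2.le.trans h3⟩).1.2.2.2.2.2.1 h).trans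
        (by nlinarith [nn τ ⟨h1.trans hτ.1, hτ.2.le.trans h3⟩]))
      fun τ hτ h _ => ((ht τ ⟨h1.trans hτ.1, hτ.2.le.trans h3⟩).1.2.2.2.2.2.2 h).trans
        (by nlinarith [nn τ ⟨h1.trans hτ.1, hτ.2.le.trans h3⟩])
  by_cases h1 : ∃ᶠ τ in l0, e.φ τ = 0 ∧ Y τ = 0
  · have V4 : ∀ τ ∈ Ioc 0 t, e.φ τ = 0 ∧ Y τ = 0 → V τ = 4 := fun τ hτ h => by
      rw [(ht τ hτ).1.2.2.2.1 h.2, hz τ h.1, h.2]; norm_num
    obtain ⟨u, hu1, hu⟩ := (h1.and_eventually (Ioc_mem_nhdsGT t0)).exists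
    have hY : ∀ τ ∈ Ioo 0 u, Y τ = 0 := fun τ hτ => by
      obtain ⟨s, hs1, hs⟩ := (h1.and_eventually (Ioo_mem_nhdsGT hτ.1)).exists
      have hsu := hs.2.trans hτ.2
      have hc := (ht u hu).2.2.1 s ⟨hs.1, hsu.le⟩
      have sub : ∀ y ∈ Icc s u, y ∈ Ioc 0 t := fun y hy => ⟨hs.1.trans_le hy.1, hy.2.trans hu.2⟩
      have := anti ((dV' s hs.1 u hsu.le hu.2).add ((DD.integral hsu.le hc).cmul c₁)) hs.1.le hsu.le
        (hu.2.trans tδ.le)
        (fun y hy h _ => by linarith [(ht y (sub y (Ioo_subset_Icc_self hy))).1.2.2.2.2.2.1 h])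
        fun y hy h _ => by linarith [(ht y (sub y (Ioo_subset_Icc_self hy))).1.2.2.2.2.2.2 h]
      rw [V4 u hu hu1, V4 s (sub s ⟨le_rfl, hsu.le⟩) hs1] at this
      by_contra hn
      have hτ' := sub τ ⟨hs.2.le, hτ.2.le⟩
      obtain ⟨⟨-, -, h2, -⟩, -, -, ⟨h3, -⟩, ⟨-, -, -, -, -, -, -, h4, -⟩, h5, -⟩ := ht τ hτ'
      have h6 := anti1 τ u hτ.1 hτ.2.le hu.2
      rw [V4 u hu hu1] at h6
      have h7 := intervalIntegral.integral_pos hsu hc (fun y hy => nn y (sub y (Ioc_subset_Icc_self hy)))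
        ⟨τ, ⟨hs.2.le, hτ.2.le⟩, mul_pos (mul_pos (div_pos h4 h5) (lt_of_le_of_ne h3 (Ne.symm hn)))
          (by linarith)⟩
      simp only [intervalIntegral.integral_same] at this
      nlinarith
    refine sing_of (R := R) zero_ne_one (mem_of_superset (Ioo_mem_nhdsGT hu.1) fun τ hτ => ⟨?_, hY τ hτ⟩)
    have hW : ∀ y ∈ Ioo τ u, e.W y = 0 := fun y hy => by
      have := (ht y ⟨hτ.1.trans hy.1, hy.2.le.trans hu.2⟩).2.2.2.2.2.2.1
      rw [show e.hY R y = 0 from hY y ⟨hτ.1.trans hy.1, hy.2⟩] at this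
      simpa [hα.ne'] using this
    have d := e.dφ.mono hτ.1.le hτ.2.le (hu.2.trans tδ.le)
    exact le_antisymm (hu1.1 ▸ mono' d hτ.1.le hτ.2.le (hu.2.trans tδ.le)
      (fun y hy => (hW y hy).ge) fun y hy => (hW y hy).ge) (hu1.1 ▸ anti' d hτ.1.le hτ.2.le
      (hu.2.trans tδ.le) (fun y hy => (hW y hy).le) fun y hy => (hW y hy).le)
  by_cases h2 : ∀ τ ∈ Ioc 0 t, V τ ≤ 0
  · refine sing_of (R := R) (y := 2) (by norm_num) (mem_of_superset (Ioc_mem_nhdsGT t0) fun τ hτ => ?_)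
    obtain ⟨h3, h4, -, -, h5, -⟩ := (ht τ hτ).1
    exact h5 (le_antisymm (h4.trans (h2 τ hτ)) h3)
  exfalso
  push Not at h2
  obtain ⟨v, hv, hv0⟩ := h2
  obtain ⟨u, u0, -, uφ, hu⟩ := H.acc.exists_zero ((not_frequently.1 h1).and (Ioc_mem_nhdsGT hv.1))
  have sub : ∀ τ ∈ Ioc 0 u, τ ∈ Ioc 0 t := fun τ hτ => ⟨hτ.1, (hu τ hτ).2.2.trans hv.2⟩
  have ut := (sub u ⟨u0, le_rfl⟩).2
  have hU : ∀ τ ∈ Ioc 0 u, V v / 2 ≤ U τ := fun τ hτ => by
    linarith [anti1 τ v hτ.1 (hu τ hτ).2.2 hv.2, (ht τ (sub τ hτ)).1.2.2.1]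
  set c₃ := c₁ * (V v / 2)
  have c₃0 : 0 < c₃ := by positivity
  set ε := min (c₃ / (4 * α)) (c₃ / (4 * (5 * (1 - β))))
  have hB : 0 < 1 - β := by linarith
  have ε0 : 0 < ε := by positivity
  have ε1 : 4 * α * ε ≤ c₃ := by
    rw [mul_comm]; exact (le_div_iff₀ (by positivity)).1 (min_le_left _ _)
  have ε2 : 4 * (5 * (1 - β)) * ε ≤ c₃ := by
    rw [mul_comm]; exact (le_div_iff₀ (by positivity)).1 (min_le_right _ _)
  set μ := min α (-β)
  set c₂ := ε * μ / 2 * c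
  have c₂0 : 0 < c₂ := by have := H.c0; positivity
  have hlog : ∀ τ ∈ Ioc 0 u, c₂ * τ⁻¹ ≤ ε * μ / 2 * (wm τ / R τ) := fun τ hτ => by
    rw [mul_assoc]
    refine mul_le_mul_of_nonneg_left ?_ (by positivity)
    rw [← div_eq_mul_inv, div_le_iff₀' hτ.1]
    exact (ht τ (sub τ hτ)).2.2.2.2.2.2.2.1
  have hVY : ∀ τ ∈ Ioc 0 u, -c₁ * (wm τ / R τ * Y τ * U τ) ≤ -c₃ * (wm τ / R τ * Y τ) :=
    fun τ hτ => by
      obtain ⟨-, -, -, ⟨h2, -⟩, ⟨-, -, -, -, -, -, -, h3, -⟩, h4, -⟩ := ht τ (sub τ hτ)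
      have := mul_le_mul_of_nonneg_left (hU τ hτ) (show 0 ≤ c₁ * (wm τ / R τ * Y τ) by positivity)
      simp only [c₃]
      linarith
  have hΘ : ∀ τ ∈ Ioc 0 u, (0 ≤ e.W τ → wm τ * (Y τ * (2 - Y τ)) ≤ 0) ∧
      (e.W τ ≤ 0 → 0 ≤ wm τ * (Y τ * (2 - Y τ))) := fun τ hτ => by
    obtain ⟨-, -, -, -, ⟨-, -, -, -, -, -, -, h3, -⟩, h4, h5, -⟩ := ht τ (sub τ hτ)
    have h6 := pow_pos h4 2
    exact ⟨fun h => mul_nonpos_of_nonneg_of_nonpos h3.le (by nlinarith [mul_nonneg hα.le h]),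
      fun h => mul_nonneg h3.le (by nlinarith [mul_nonpos_of_nonneg_of_nonpos hα.le h])⟩
  have dΘ' := (ht t ⟨t0, le_rfl⟩).2.2.2.2.2.2.2.2.1
  have key : ∀ s ∈ Ioc 0 u, e.φ s = 0 → V u + c₂ * Real.log u ≤ V s + c₂ * Real.log s := by
    intro s hs hs0
    have hc := ((dV' s hs.1 u hs.2 ut).add ((DD.log hs.1 hs.2).cmul c₂)).cont hs.2
    refine (IsClosed.mem_of_ge_of_forall_exists_gt (s := {τ | e.φ τ = 0 ∧
      V τ + c₂ * Real.log τ ≤ V s + c₂ * Real.log s}) ?_ ⟨hs0, le_rfl⟩ hs.2 ?_).2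
    · rw [inter_comm]
      exact ((e.contφ.mono (Icc_subset_Icc hs.1.le (ut.trans tδ.le))).prodMk hc).preimage_isClosed_of_isClosed
        isClosed_Icc (isClosed_singleton.prod isClosed_Iic)
    · rintro x ⟨⟨hx0, hx1⟩, hx⟩
      have x0 := hs.1.trans_le hx.1
      have hx' : x ∈ Ioc 0 u := ⟨x0, hx.2.le⟩
      rcases lt_trichotomy (e.W x) 0 with hW | hW | hW
      · obtain ⟨b, b1, b2, b3, b4, b5⟩ := next_neg x0 hx.2 (ut.trans_lt tδ) hx0 uφ hW
        refine ⟨b, ⟨b3, le_trans ?_ hx1⟩, b1, b2⟩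
        have := anti_neg (((dV' x x0 b b1.le (b2.trans ut)).sub ((dΘ' x x0 b b1.le
          (b2.trans ut)).cmul ε)).add ((DD.log x0 b1.le).cmul c₂)) x0.le b1.le
          (b2.trans (ut.trans tδ.le)) b4 fun y hy => ?_
        · nlinarith [(hΘ x hx').2 hW.le, (hΘ b ⟨x0.trans b1, b2⟩).1 b5]
        · have hy' : y ∈ Ioc 0 u := ⟨x0.trans hy.1, hy.2.le.trans b2⟩
          obtain ⟨⟨-, -, -, -, -, -, a1⟩, -, -, ⟨a2, a3, -⟩, ⟨-, -, -, -, -, a4, a5, a6, -⟩, a7, -, -, -,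
            -, a8⟩ := ht y (sub y hy')
          have := ineqM' a2 a3 a4 (μ := μ) (fun h => by linarith [a5 h, min_le_right α (-β)])
            (div_pos a6 a7) ε0 a8 (by linarith) (by linarith [min_le_right α (-β)]) ε2
          refine le_trans ?_ this
          have a9 := (a1 (b4 y hy).le).trans (hVY y hy')
          refine add_le_add (sub_le_sub a9 (le_of_eq ?_)) (hlog y hy')
          field_simp
          ring
      · have a1 := (ht x (sub x hx')).2.2.2.2.2.2.1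
        have a2 := (ht x (sub x hx')).2.2.2.2.2.1
        rw [hW, mul_zero] at a1
        rcases mul_eq_zero.1 ((mul_eq_zero.1 a1.symm).resolve_left (pow_pos a2 2).ne') with h | h
        · exact absurd ⟨hx0, h⟩ (hu x hx').1
        · have := hU x hx'
          rw [hz x hx0, show Y x - 2 = 0 from h] at this
          linarith
      · obtain ⟨b, b1, b2, b3, b4, b5⟩ := next_pos x0 hx.2 (ut.trans_lt tδ) hx0 uφ hW
        refine ⟨b, ⟨b3, le_trans ?_ hx1⟩, b1, b2⟩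
        have := anti_pos (((dV' x x0 b b1.le (b2.trans ut)).add ((dΘ' x x0 b b1.le
          (b2.trans ut)).cmul ε)).add ((DD.log x0 b1.le).cmul c₂)) x0.le b1.le
          (b2.trans (ut.trans tδ.le)) b4 fun y hy => ?_
        · nlinarith [(hΘ x hx').1 hW.le, (hΘ b ⟨x0.trans b1, b2⟩).2 b5]
        · have hy' : y ∈ Ioc 0 u := ⟨x0.trans hy.1, hy.2.le.trans b2⟩
          obtain ⟨⟨-, -, -, -, -, a1, -⟩, -, -, ⟨a2, a3, -⟩, ⟨a4, a5, -, -, -, -, -, a6, -⟩, a7, -, -, -,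
            a8, -⟩ := ht y (sub y hy')
          have := ineqP' a2 a3 a4 a5 (μ := μ) (div_pos a6 a7) ε0 a8 (by linarith) (min_le_left _ _) ε1
          refine le_trans ?_ this
          have a9 := (a1 (b4 y hy).le).trans (hVY y hy')
          refine add_le_add (add_le_add a9 (le_of_eq ?_)) (hlog y hy')
          field_simp
          ring
  obtain ⟨s, hs1, hs2, hs3⟩ := (H.acc.and_eventually (Eventually.and (Ioc_mem_nhdsGT u0)
    ((Real.tendsto_log_nhdsGT_zero.const_mul_atBot c₂0).eventually_lt_atBot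
      (V u + c₂ * Real.log u - 108)))).exists
  obtain ⟨⟨-, -, a1, -⟩, -, -, ⟨a2, a3, -⟩, -⟩ := ht s (sub s hs2)
  rw [hz s hs1] at a1
  nlinarith [key s hs2 hs1, mul_nonneg (sub_nonneg.2 a3) (sq_nonneg (Y s))]

end HD

end Ext

end Pool.Agent.Lib.MP_f4f7c0_an
end
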