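import Pool.Agent.Lib.MP_f4f7c0_an.CaseA
import Pool.Agent.Lib.MP_f4f7c0_an.GlueAdm
import Pool.Agent.Shared.Brouwer.Basic

-- part Pool.Agent.Lib.MP_f4f7c0_an.PmpOde
section

/-! Caratheodory type existence and estimates for Lipschitz curves. -/

namespace Pool.Agent.Lib.MP_f4f7c0_an.Pmp

open Set Filter Topology MeasureTheory

variable {V : Type*} [NormedAddCommGroup V] [NormedSpace ℝ V]

theorem mvt_le {y : ℝ → V} {a b B : ℝ} (hab : a ≤ b) (hy : ∃ C, LipschitzOnWith C y (Icc a b))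
    (h : ∀ᵐ t, t ∈ Ioo a b → ∃ y', HasDerivAt y y' t ∧ ‖y'‖ ≤ B) : ‖y b - y a‖ ≤ B * (b - a) := by
  obtain ⟨C, hC⟩ := hy
  obtain ⟨g, g1, g2⟩ := exists_dual_vector'' ℝ (y b - y a)
  have h1 : AC (fun t => g (y t) - B * t) a b := by
    refine AbsolutelyContinuousOnInterval.sub (f := fun t => g (y t)) (g := fun t => B * t)
      (LipschitzOnWith.absolutelyContinuousOnInterval (K := ‖g‖₊ * C) ?_)
      (ContDiffOn.absolutelyContinuousOnInterval (by fun_prop))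
    rw [uIcc_of_le hab]
    exact g.lipschitz.comp_lipschitzOnWith hC
  have h2 := AC.le_of_ae (F' := deriv fun t => g (y t) - B * t) hab h1 (by
    filter_upwards [h] with t ht hm
    obtain ⟨y', h3, h4⟩ := ht hm
    have h5 : HasDerivAt (fun t => g (y t) - B * t) (g y' - B * 1) t :=
      (g.hasFDerivAt.comp_hasDerivAt t h3).sub ((hasDerivAt_id t).const_mul B)
    refine ⟨h5.differentiableAt.hasDerivAt, ?_⟩
    rw [h5.deriv]
    have := (le_abs_self _).trans (g.le_opNorm y')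
    nlinarith [norm_nonneg y'])
  rw [map_sub] at g2
  simp only [RCLike.ofReal_real_eq_id, id_eq] at g2
  linarith

theorem mvt {y : ℝ → V} {δ B : ℝ} (hy : ∃ C, LipschitzOnWith C y (Icc 0 δ))
    (h : ∀ᵐ t, t ∈ Ioo 0 δ → ∃ y', HasDerivAt y y' t ∧ ‖y'‖ ≤ B) {s t : ℝ} (hs : s ∈ Icc 0 δ)
    (ht : t ∈ Icc 0 δ) : ‖y t - y s‖ ≤ B * |t - s| := by
  have key : ∀ s ∈ Icc 0 δ, ∀ t ∈ Icc 0 δ, s ≤ t → ‖y t - y s‖ ≤ B * (t - s) := by
    intro s hs t ht hst
    refine mvt_le hst (hy.imp fun C hC => hC.mono (Icc_subset_Icc hs.1 ht.2)) ?_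
    filter_upwards [h] with τ hτ hm using hτ ⟨hs.1.trans_lt hm.1, hm.2.trans_le ht.2⟩
  rcases le_total s t with hst | hst
  · rw [abs_of_nonneg (sub_nonneg.2 hst)]
    exact key s hs t ht hst
  · rw [abs_sub_comm, abs_of_nonneg (sub_nonneg.2 hst), norm_sub_rev]
    exact key t ht s hs hst

theorem abs_sub_le_of_mem {δ s t : ℝ} (hs : s ∈ Icc 0 δ) (ht : t ∈ Icc 0 δ) : |t - s| ≤ δ :=
  abs_le.2 ⟨by linarith [hs.2, ht.1], by linarith [hs.1, ht.2]⟩

theorem gron {w : ℝ → V} {δ a b t0 : ℝ} (ht0 : t0 ∈ Icc 0 δ) (h0 : w t0 = 0)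
    (hw : ∃ C, LipschitzOnWith C w (Icc 0 δ)) (ha : 0 ≤ a) (hb : 0 ≤ b) (haδ : a * δ ≤ 1 / 2)
    (h : ∀ᵐ t, t ∈ Ioo 0 δ → ∃ w', HasDerivAt w w' t ∧ ‖w'‖ ≤ a * ‖w t‖ + b) :
    ∀ t ∈ Icc 0 δ, ‖w t‖ ≤ 2 * b * δ := by
  obtain ⟨C, hC⟩ := id hw
  obtain ⟨t1, ht1, hm⟩ := isCompact_Icc.exists_isMaxOn ⟨t0, ht0⟩ hC.continuousOn.norm
  have h1 := mvt (B := a * ‖w t1‖ + b) hw (by
    filter_upwards [h] with t ht ht'
    obtain ⟨w', h2, h3⟩ := ht ht'
    exact ⟨w', h2, h3.trans (by gcongr; exact hm (Ioo_subset_Icc_self ht'))⟩) ht0 ht1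
  rw [h0, sub_zero] at h1
  have h2 := abs_sub_le_of_mem ht0 ht1
  have h3 : (a * ‖w t1‖ + b) * |t1 - t0| ≤ (a * ‖w t1‖ + b) * δ := by gcongr
  intro t ht
  have h4 : ‖w t‖ ≤ ‖w t1‖ := hm ht
  nlinarith [norm_nonneg (w t1)]

omit [NormedSpace ℝ V] in
theorem ii_of_bound {f : ℝ → V} {δ B : ℝ} (hf : AEStronglyMeasurable f volume)
    (hB : ∀ t ∈ Icc 0 δ, ‖f t‖ ≤ B) {s t : ℝ} (hs : s ∈ Icc 0 δ) (ht : t ∈ Icc 0 δ) :
    IntervalIntegrable f volume s t := by
  refine IntegrableOn.intervalIntegrable (IntegrableOn.mono_set ?_ (uIcc_subset_Icc hs ht))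
  refine Measure.integrableOn_of_bounded (M := B) measure_Icc_lt_top.ne hf ?_
  exact (ae_restrict_iff' measurableSet_Icc).2 (Eventually.of_forall hB)

theorem prim_lip {f : ℝ → V} {δ B t0 : ℝ} (hf : AEStronglyMeasurable f volume)
    (hB : ∀ t ∈ Icc 0 δ, ‖f t‖ ≤ B) (ht0 : t0 ∈ Icc 0 δ) {s t : ℝ} (hs : s ∈ Icc 0 δ)
    (ht : t ∈ Icc 0 δ) : ‖(∫ τ in t0..t, f τ) - ∫ τ in t0..s, f τ‖ ≤ B * |t - s| := by
  rw [intervalIntegral.integral_interval_sub_left (ii_of_bound hf hB ht0 ht)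
    (ii_of_bound hf hB ht0 hs)]
  exact intervalIntegral.norm_integral_le_of_norm_le_const fun x hx =>
    hB x (uIcc_subset_Icc hs ht (uIoc_subset_uIcc hx))

variable [CompleteSpace V]

theorem prim_deriv {f : ℝ → V} {δ B t0 : ℝ} (hf : AEStronglyMeasurable f volume)
    (hB : ∀ t ∈ Icc 0 δ, ‖f t‖ ≤ B) (ht0 : t0 ∈ Icc 0 δ) :
    ∀ᵐ t, t ∈ Ioo 0 δ → HasDerivAt (fun t => ∫ τ in t0..t, f τ) (f t) t := by
  have hδ : 0 ≤ δ := ht0.1.trans ht0.2
  filter_upwards [(ii_of_bound hf hB ⟨le_rfl, hδ⟩ ⟨hδ, le_rfl⟩).ae_hasDerivAt_integral] with t ht hm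
  rw [uIcc_of_le hδ] at ht
  exact ht (Ioo_subset_Icc_self hm) t0 ht0

theorem exists_sol {F : ℝ → V → V} {δ B L t0 : ℝ} (ht0 : t0 ∈ Icc 0 δ) (y0 : V) (hL : 0 ≤ L)
    (hLδ : L * δ ≤ 1 / 2)
    (hm : ∀ y : ℝ → V, Continuous y → AEStronglyMeasurable (fun t => F t (y t)) volume)
    (h0 : ∀ t ∈ Icc 0 δ, ‖F t 0‖ ≤ B)
    (hl : ∀ t ∈ Icc 0 δ, ∀ v w, ‖F t v - F t w‖ ≤ L * ‖v - w‖) :
    ∃ y : ℝ → V, (∃ C, LipschitzWith C y) ∧ y t0 = y0 ∧
      ∀ᵐ t, t ∈ Ioo 0 δ → HasDerivAt y (F t (y t)) t := by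
  have hδ : 0 ≤ δ := ht0.1.trans ht0.2
  let c : ℝ → ℝ := fun t => projIcc 0 δ hδ t
  have hc : ∀ t, c t ∈ Icc 0 δ := fun t => (projIcc 0 δ hδ t).2
  have hcl : ∀ s t, |c t - c s| ≤ |t - s| := fun s t => abs_projIcc_sub_projIcc hδ
  have hcm : ∀ t ∈ Icc 0 δ, c t = t := fun t ht => by simp only [c, projIcc_of_mem hδ ht]
  have hb : ∀ y : BoundedContinuousFunction ℝ V, ∀ t ∈ Icc 0 δ, ‖F t (y t)‖ ≤ B + L * ‖y‖ := by
    intro y t ht
    have h1 := hl t ht (y t) 0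
    have h2 := h0 t ht
    have h3 := norm_sub_norm_le (F t (y t)) (F t 0)
    have h4 : L * ‖y t - 0‖ ≤ L * ‖y‖ := by
      rw [sub_zero]
      gcongr
      exact y.norm_coe_le_norm t
    linarith
  have hB : ∀ y : BoundedContinuousFunction ℝ V, 0 ≤ B + L * ‖y‖ := fun y =>
    (norm_nonneg _).trans (hb y t0 ht0)
  have hlip : ∀ y : BoundedContinuousFunction ℝ V, LipschitzWith ⟨_, hB y⟩
      fun t => y0 + ∫ τ in t0..c t, F τ (y τ) := by
    intro y
    refine LipschitzWith.of_dist_le_mul fun t s => ?_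
    rw [dist_add_left, dist_eq_norm, Real.dist_eq]
    exact (prim_lip (hm y y.continuous) (hb y) ht0 (hc s) (hc t)).trans
      (mul_le_mul_of_nonneg_left (hcl s t) (hB y))
  let Φ : BoundedContinuousFunction ℝ V → BoundedContinuousFunction ℝ V := fun y =>
    BoundedContinuousFunction.ofNormedAddCommGroup (fun t => y0 + ∫ τ in t0..c t, F τ (y τ))
      (hlip y).continuous (‖y0‖ + (B + L * ‖y‖) * δ) fun t => by
        refine (norm_add_le _ _).trans ?_
        have := prim_lip (hm y y.continuous) (hb y) ht0 ht0 (hc t)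
        rw [intervalIntegral.integral_same, sub_zero] at this
        have h2 := mul_le_mul_of_nonneg_left (abs_sub_le_of_mem ht0 (hc t)) (hB y)
        linarith
  have hΦ : ContractingWith (1 / 2) Φ := by
    refine ⟨by norm_num, LipschitzWith.of_dist_le_mul fun y z => ?_⟩
    refine (BoundedContinuousFunction.dist_le (by positivity)).2 fun t => ?_
    change dist (y0 + _) (y0 + _) ≤ _
    rw [dist_add_left, dist_eq_norm, ← intervalIntegral.integral_sub
      (ii_of_bound (hm y y.continuous) (hb y) ht0 (hc t))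
      (ii_of_bound (hm z z.continuous) (hb z) ht0 (hc t))]
    refine (intervalIntegral.norm_integral_le_of_norm_le_const (C := L * dist y z)
      fun x hx => ?_).trans ?_
    · refine (hl x (uIcc_subset_Icc ht0 (hc t) (uIoc_subset_uIcc hx)) _ _).trans ?_
      rw [← dist_eq_norm]
      gcongr
      exact BoundedContinuousFunction.dist_coe_le_dist x
    · have h1 : L * dist y z * |c t - t0| ≤ L * dist y z * δ := by
        gcongr
        exact abs_sub_le_of_mem ht0 (hc t)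
      have h2 := dist_nonneg (x := y) (y := z)
      push_cast
      nlinarith
  obtain ⟨y, hy⟩ : ∃ y, Φ y = y := ⟨_, hΦ.fixedPoint_isFixedPt⟩
  have hy' : (y : ℝ → V) = fun t => y0 + ∫ τ in t0..c t, F τ (y τ) :=
    funext fun t => (DFunLike.congr_fun hy t).symm
  refine ⟨y, ⟨_, (congrArg (LipschitzWith _) hy').mpr (hlip y)⟩, ?_, ?_⟩
  · rw [congrFun hy' t0, hcm t0 ht0, intervalIntegral.integral_same, add_zero]
  · filter_upwards [prim_deriv (hm y y.continuous) (hb y) ht0] with t ht hm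
    refine ((ht hm).const_add y0).congr_of_eventuallyEq ?_
    filter_upwards [Icc_mem_nhds hm.1 hm.2] with s hs
    rw [congrFun hy' s, hcm s hs]

omit [CompleteSpace V] in
theorem lip_apply {W : Type*} [NormedAddCommGroup W] [NormedSpace ℝ W] {P : ℝ → V →L[ℝ] W}
    {w : ℝ → V} {s : Set ℝ} {a b : ℝ} (hP : ∃ C, LipschitzOnWith C P s)
    (hw : ∃ C, LipschitzOnWith C w s) (ha : ∀ t ∈ s, ‖P t‖ ≤ a) (hb : ∀ t ∈ s, ‖w t‖ ≤ b) :
    ∃ C, LipschitzOnWith C (fun t => P t (w t)) s := by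
  obtain ⟨C, hC⟩ := hP
  obtain ⟨D, hD⟩ := hw
  refine ⟨Real.toNNReal (a * D + C * b), LipschitzOnWith.of_dist_le' fun x hx y hy => ?_⟩
  have h1 := hC.dist_le_mul x hx y hy
  have h2 := hD.dist_le_mul x hx y hy
  rw [dist_eq_norm] at h1 h2
  have e : P x (w x) - P y (w y) = P x (w x - w y) + (P x - P y) (w y) := by simp
  rw [dist_eq_norm, e]
  have h3 : ‖P x (w x - w y)‖ ≤ a * (D * dist x y) :=
    (P x).le_of_opNorm_le_of_le (ha x hx) h2
  have h4 : ‖(P x - P y) (w y)‖ ≤ C * dist x y * b :=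
    (P x - P y).le_of_opNorm_le_of_le h1 (hb y hy)
  linarith [norm_add_le (P x (w x - w y)) ((P x - P y) (w y))]

theorem exists_sep {E : Type*} [NormedAddCommGroup E] [NormedSpace ℝ E] [FiniteDimensional ℝ E]
    {K : Set E} (hK : Convex ℝ K) (h0 : (0 : E) ∈ K) (h : (0 : E) ∉ interior K) :
    ∃ l : E →L[ℝ] ℝ, l ≠ 0 ∧ ∀ x ∈ K, l x ≤ 0 := by
  by_cases hi : (interior K).Nonempty
  · simpa using geometric_hahn_banach_of_nonempty_interior_point hK h hi
  · rw [hK.interior_nonempty_iff_affineSpan_eq_top] at hi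
    have h1 : Submodule.span ℝ K < ⊤ := by
      refine lt_top_iff_ne_top.2 fun h2 => hi ?_
      have h3 := affineSpan_insert_zero (k := ℝ) K
      rw [insert_eq_of_mem h0, h2] at h3
      exact SetLike.coe_injective h3
    obtain ⟨f, hf, hk⟩ := Submodule.exists_le_ker_of_lt_top _ h1
    refine ⟨LinearMap.toContinuousLinearMap f, fun h2 => hf ?_,
      fun x hx => le_of_eq (hk (Submodule.subset_span hx))⟩
    simpa using h2

end Pool.Agent.Lib.MP_f4f7c0_an.Pmp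
end

-- part Pool.Agent.Lib.MP_f4f7c0_an.Pmp
section

/-! The Pontryagin maximum principle on a short interval. -/

namespace Pool.Agent.Lib.MP_f4f7c0_an

open Set Filter Topology MeasureTheory Metric
open scoped ContDiff

namespace Pmp

/-- Global bounds on a vector field. -/
structure Nice (X : E3 → E3) (K : ℝ) : Prop where
  diff : Differentiable ℝ X
  b0 : ∀ y, ‖X y‖ ≤ K
  b1 : ∀ y, ‖fderiv ℝ X y‖ ≤ K
  b2 : ∀ x y, ‖fderiv ℝ X y - fderiv ℝ X x‖ ≤ K * ‖y - x‖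

variable {X X' : E3 → E3} {K δ : ℝ}

theorem Nice.nonneg (h : Nice X K) : 0 ≤ K := (norm_nonneg _).trans (h.b0 0)

theorem Nice.lip (h : Nice X K) (x y : E3) : ‖X y - X x‖ ≤ K * ‖y - x‖ :=
  convex_univ.norm_image_sub_le_of_norm_fderiv_le (fun z _ => h.diff z) (fun z _ => h.b1 z)
    (mem_univ x) (mem_univ y)

theorem Nice.taylor (h : Nice X K) (x y : E3) :
    ‖X y - X x - fderiv ℝ X x (y - x)‖ ≤ K * ‖y - x‖ * ‖y - x‖ :=
  (convex_closedBall x ‖y - x‖).norm_image_sub_le_of_norm_fderiv_le' (fun z _ => h.diff z)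
    (fun z hz => (h.b2 x z).trans (mul_le_mul_of_nonneg_left (mem_closedBall_iff_norm.1 hz)
      h.nonneg)) (mem_closedBall_self (norm_nonneg _)) (mem_closedBall_iff_norm.2 le_rfl)

theorem Nice.cont1 (h : Nice X K) : Continuous (fderiv ℝ X) :=
  (LipschitzWith.of_dist_le_mul (K := ⟨K, h.nonneg⟩) fun x y => by
    rw [dist_eq_norm, dist_eq_norm]
    exact h.b2 y x).continuous

theorem Nice.mono (h : Nice X K) {K' : ℝ} (hK : K ≤ K') : Nice X K' :=
  ⟨h.diff, fun y => (h.b0 y).trans hK, fun y => (h.b1 y).trans hK,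
    fun x y => (h.b2 x y).trans (mul_le_mul_of_nonneg_right hK (norm_nonneg _))⟩

theorem exists_nice (hX : ContDiff ℝ ∞ X) (hc : HasCompactSupport X) : ∃ K, Nice X K := by
  obtain ⟨C0, h0⟩ := hc.exists_bound_of_continuous hX.continuous
  have hD : ContDiff ℝ 1 (fderiv ℝ X) := hX.fderiv_right (by norm_cast)
  obtain ⟨C1, h1⟩ := (hc.fderiv ℝ).exists_bound_of_continuous hD.continuous
  obtain ⟨C2, h2⟩ := ContDiff.lipschitzWith_of_hasCompactSupport (hc.fderiv ℝ) hD one_ne_zero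
  refine ⟨max C0 (max C1 C2), hX.differentiable (by simp), fun y => (h0 y).trans (le_max_left _ _),
    fun y => (h1 y).trans ((le_max_left _ _).trans (le_max_right _ _)), fun x y => ?_⟩
  exact (h2.norm_sub_le y x).trans (mul_le_mul_of_nonneg_right
    ((le_max_right _ _).trans (le_max_right _ _)) (norm_nonneg _))

theorem norm_mix {V : Type*} [NormedAddCommGroup V] [NormedSpace ℝ V] {a B : ℝ} {u v : V}
    (h0 : 0 ≤ a) (h1 : a ≤ 1) (hu : ‖u‖ ≤ B) (hv : ‖v‖ ≤ B) : ‖a • u + (1 - a) • v‖ ≤ B := by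
  refine (norm_add_le _ _).trans ?_
  rw [norm_smul, norm_smul, Real.norm_of_nonneg h0, Real.norm_of_nonneg (sub_nonneg.2 h1)]
  nlinarith [mul_le_mul_of_nonneg_left hu h0, mul_le_mul_of_nonneg_left hv (sub_nonneg.2 h1)]

/-- Admissible controls. -/
def Adm (v : ℝ → ℝ) : Prop := Measurable v ∧ ∀ t, 0 ≤ v t ∧ v t ≤ 1

theorem Adm.abs_sub {v w : ℝ → ℝ} (hv : Adm v) (hw : Adm w) (t : ℝ) : |v t - w t| ≤ 1 :=
  abs_le.2 ⟨by linarith [(hv.2 t).1, (hw.2 t).2], by linarith [(hv.2 t).2, (hw.2 t).1]⟩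

theorem exists_traj (hX : Nice X K) (hX' : Nice X' K) (hδ : 0 ≤ δ) (hK : K * δ ≤ 1 / 4)
    {n : ℝ → ℝ} (hn : Adm n) (y0 : E3) : ∃ z, Traj X X' n z δ ∧ z 0 = y0 := by
  refine (exists_sol (F := fun t y => n t • X y + (1 - n t) • X' y)
    (B := K) (left_mem_Icc.2 hδ) y0 hX.nonneg (by linarith) (fun y hy => ?_)
    (fun t _ => norm_mix (hn.2 t).1 (hn.2 t).2 (hX.b0 _) (hX'.b0 _)) fun t _ v w => ?_).imp
    fun z h => ⟨⟨hδ, hn.1, fun t => (hn.2 t).1, fun t => (hn.2 t).2,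
      h.1.imp fun _ h => h.lipschitzOnWith, h.2.2⟩, h.2.1⟩
  · exact (hn.1.aestronglyMeasurable.smul (hX.diff.continuous.comp hy).aestronglyMeasurable).add
      ((measurable_const.sub hn.1).aestronglyMeasurable.smul
        (hX'.diff.continuous.comp hy).aestronglyMeasurable)
  · have := norm_mix (hn.2 t).1 (hn.2 t).2 (hX.lip w v) (hX'.lip w v)
    convert this using 2
    module

theorem speed (hX : Nice X K) (hX' : Nice X' K) {n : ℝ → ℝ} {z : ℝ → E3} (hz : Traj X X' n z δ)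
    {s t : ℝ} (hs : s ∈ Icc 0 δ) (ht : t ∈ Icc 0 δ) : ‖z t - z s‖ ≤ K * |t - s| :=
  mvt hz.lip (by
    filter_upwards [hz.ode] with τ hτ hm
    exact ⟨_, hτ hm, norm_mix (hz.m0 τ) (hz.m1 τ) (hX.b0 _) (hX'.b0 _)⟩) hs ht

theorem norm_diff (hX : Nice X K) (hX' : Nice X' K) (y : E3) : ‖X y - X' y‖ ≤ 2 * K := by
  linarith [norm_sub_le (X y) (X' y), hX.b0 y, hX'.b0 y]

theorem close (hX : Nice X K) (hX' : Nice X' K) (hK : K * δ ≤ 1 / 4) {n n' : ℝ → ℝ}
    {z z' : ℝ → E3} (hz : Traj X X' n z δ) (hz' : Traj X X' n' z' δ) (h0 : z 0 = z' 0) {ρ : ℝ}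
    (hρ : ∀ t, |n t - n' t| ≤ ρ) : ∀ t ∈ Icc 0 δ, ‖z t - z' t‖ ≤ ρ := by
  have hρ0 : 0 ≤ ρ := (abs_nonneg _).trans (hρ 0)
  have hK0 := hX.nonneg
  obtain ⟨C, hC⟩ := hz.lip
  obtain ⟨C', hC'⟩ := hz'.lip
  intro t ht
  refine (gron (w := fun t => z t - z' t) (b := ρ * (2 * K)) (left_mem_Icc.2 hz.nonneg)
    (sub_eq_zero.2 h0) ⟨_, hC.sub hC'⟩ hK0 (by positivity) (by linarith) ?_ t ht).trans
    (by nlinarith)
  filter_upwards [hz.ode, hz'.ode] with τ h1 h2 hm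
  refine ⟨_, (h1 hm).sub (h2 hm), ?_⟩
  have h3 := norm_mix (hz.m0 τ) (hz.m1 τ) (hX.lip (z' τ) (z τ)) (hX'.lip (z' τ) (z τ))
  have h4 : ‖(n τ - n' τ) • (X (z' τ) - X' (z' τ))‖ ≤ ρ * (2 * K) := by
    rw [norm_smul]
    exact mul_le_mul (hρ τ) (norm_diff hX hX' _) (norm_nonneg _) hρ0
  refine le_trans (le_of_eq ?_) ((norm_add_le _ _).trans (add_le_add h3 h4))
  congr 1
  module

/-- The data of the variational argument. -/
structure Data (X X' : E3 → E3) (K δ : ℝ) (m : ℝ → ℝ) (q : ℝ → E3) (P : ℝ → E3 →L[ℝ] E3) :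
    Prop where
  hX : Nice X K
  hX' : Nice X' K
  hK : K * δ ≤ 1 / 4
  traj : Traj X X' m q δ
  cont : Continuous q
  lip : ∃ C, LipschitzWith C P
  fin : P δ = ContinuousLinearMap.id ℝ E3
  ode : ∀ᵐ t, t ∈ Ioo 0 δ → HasDerivAt P
    (-(P t).comp (m t • fderiv ℝ X (q t) + (1 - m t) • fderiv ℝ X' (q t))) t

variable {m : ℝ → ℝ} {q : ℝ → E3} {P : ℝ → E3 →L[ℝ] E3}

theorem exists_data (hX : Nice X K) (hX' : Nice X' K) (hK : K * δ ≤ 1 / 4)
    (h : Traj X X' m q δ) (hq : Continuous q) : ∃ P, Data X X' K δ m q P := by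
  have hA : ∀ t, ‖m t • fderiv ℝ X (q t) + (1 - m t) • fderiv ℝ X' (q t)‖ ≤ K := fun t =>
    norm_mix (h.m0 t) (h.m1 t) (hX.b1 _) (hX'.b1 _)
  refine (exists_sol (F := fun t (P : E3 →L[ℝ] E3) =>
    -P.comp (m t • fderiv ℝ X (q t) + (1 - m t) • fderiv ℝ X' (q t)))
    (B := 0) (right_mem_Icc.2 h.nonneg) (ContinuousLinearMap.id ℝ E3) hX.nonneg (by linarith)
    (fun y hy => ?_) (fun t _ => by rw [ContinuousLinearMap.zero_comp, neg_zero, norm_zero])
    fun t _ v w => ?_).imp fun P g => ⟨hX, hX', hK, h, hq, g.1, g.2.1, g.2.2⟩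
  · refine AEStronglyMeasurable.neg ?_
    exact (ContinuousLinearMap.compL ℝ E3 E3 E3).aestronglyMeasurable_comp₂ hy.aestronglyMeasurable
      ((h.meas.aestronglyMeasurable.smul (hX.cont1.comp hq).aestronglyMeasurable).add
        ((measurable_const.sub h.meas).aestronglyMeasurable.smul
          (hX'.cont1.comp hq).aestronglyMeasurable))
  · rw [neg_sub_neg, ← ContinuousLinearMap.sub_comp, norm_sub_rev v, mul_comm]
    exact (ContinuousLinearMap.opNorm_comp_le _ _).trans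
      (mul_le_mul_of_nonneg_left (hA t) (norm_nonneg _))

namespace Data
variable (D : Data X X' K δ m q P)
include D

theorem adm : Adm m := ⟨D.traj.meas, fun t => ⟨D.traj.m0 t, D.traj.m1 t⟩⟩

theorem near : ∀ t ∈ Icc 0 δ, ‖P t - ContinuousLinearMap.id ℝ E3‖ ≤ 1 / 2 := by
  obtain ⟨C, hC⟩ := D.lip
  have hK0 := D.hX.nonneg
  intro t ht
  refine (gron (w := fun t => P t - ContinuousLinearMap.id ℝ E3) (b := K)
    (right_mem_Icc.2 D.traj.nonneg) (sub_eq_zero.2 D.fin)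
    ⟨_, (hC.sub (LipschitzWith.const _)).lipschitzOnWith⟩ hK0 hK0 (by linarith [D.hK]) ?_ t
      ht).trans (by linarith [D.hK])
  filter_upwards [D.ode] with τ h1 hm
  refine ⟨_, (h1 hm).sub_const _, ?_⟩
  have h2 := norm_mix (D.traj.m0 τ) (D.traj.m1 τ) (D.hX.b1 (q τ)) (D.hX'.b1 (q τ))
  have h3 := norm_sub_norm_le (P τ) (ContinuousLinearMap.id ℝ E3)
  have h4 := ContinuousLinearMap.norm_id_le (𝕜 := ℝ) (E := E3)
  rw [norm_neg]
  refine (ContinuousLinearMap.opNorm_comp_le _ _).trans ?_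
  nlinarith [mul_le_mul_of_nonneg_left h2 (norm_nonneg (P τ))]

theorem bound : ∀ t ∈ Icc 0 δ, ‖P t‖ ≤ 2 := fun t ht => by
  linarith [D.near t ht, norm_sub_norm_le (P t) (ContinuousLinearMap.id ℝ E3),
    ContinuousLinearMap.norm_id_le (𝕜 := ℝ) (E := E3)]

theorem contH : Continuous fun t => P t (X (q t) - X' (q t)) := by
  obtain ⟨C, hC⟩ := D.lip
  exact hC.continuous.clm_apply
    ((D.hX.diff.continuous.comp D.cont).sub (D.hX'.diff.continuous.comp D.cont))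

theorem measH {v : ℝ → ℝ} (hv : Adm v) :
    AEStronglyMeasurable (fun t => (v t - m t) • P t (X (q t) - X' (q t))) volume :=
  (hv.1.sub D.traj.meas).aestronglyMeasurable.smul D.contH.aestronglyMeasurable

theorem boundH {v : ℝ → ℝ} (hv : Adm v) :
    ∀ t ∈ Icc 0 δ, ‖(v t - m t) • P t (X (q t) - X' (q t))‖ ≤ 2 * (2 * K) := by
  intro t ht
  rw [norm_smul]
  exact (mul_le_of_le_one_left (norm_nonneg _) (hv.abs_sub D.adm t)).trans
    ((P t).le_of_opNorm_le_of_le (D.bound t ht) (norm_diff D.hX D.hX' _))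

theorem iiH {v : ℝ → ℝ} (hv : Adm v) :
    IntervalIntegrable (fun t => (v t - m t) • P t (X (q t) - X' (q t))) volume 0 δ :=
  ii_of_bound (D.measH hv) (D.boundH hv) (left_mem_Icc.2 D.traj.nonneg)
    (right_mem_Icc.2 D.traj.nonneg)

theorem expand {v : ℝ → ℝ} (hv : Adm v) {ρ : ℝ} (hρ : 0 ≤ ρ) {z : ℝ → E3}
    (hz : Traj X X' (fun t => m t + ρ * (v t - m t)) z δ) (h0 : z 0 = q 0) :
    ‖z δ - q δ - ρ • ∫ t in 0..δ, (v t - m t) • P t (X (q t) - X' (q t))‖ ≤ 2 * ρ ^ 2 := by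
  have hδ := D.traj.nonneg
  have hK0 := D.hX.nonneg
  have hc := close D.hX D.hX' D.hK hz D.traj h0 (ρ := ρ) fun t => by
    rw [add_sub_cancel_left, abs_mul, abs_of_nonneg hρ]
    exact mul_le_of_le_one_right hρ (hv.abs_sub D.adm t)
  obtain ⟨C, hC⟩ := hz.lip
  obtain ⟨C', hC'⟩ := D.traj.lip
  obtain ⟨C1, hC1⟩ := lip_apply (D.lip.imp fun _ h => h.lipschitzOnWith) ⟨_, hC.sub hC'⟩ D.bound hc
  have hC2 : LipschitzOnWith (Real.toNNReal (ρ * (2 * (2 * K))))
      (fun t => ρ • ∫ t in 0..t, (v t - m t) • P t (X (q t) - X' (q t))) (Icc 0 δ) := by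
    refine LipschitzOnWith.of_dist_le' fun x hx y hy => ?_
    rw [dist_eq_norm, ← smul_sub, norm_smul, Real.norm_of_nonneg hρ, mul_assoc, Real.dist_eq]
    exact mul_le_mul_of_nonneg_left
      (prim_lip (D.measH hv) (D.boundH hv) (left_mem_Icc.2 hδ) hy hx) hρ
  have key := mvt (B := 2 * (K * ρ * ρ + ρ * (2 * (K * ρ)))) ⟨_, hC1.sub hC2⟩ (by
    filter_upwards [hz.ode, D.traj.ode, D.ode,
      prim_deriv (D.measH hv) (D.boundH hv) (left_mem_Icc.2 hδ)] with t h1 h2 h3 h4 hm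
    refine ⟨_, ((h3 hm).clm_apply ((h1 hm).sub (h2 hm))).sub ((h4 hm).const_smul ρ), ?_⟩
    have ht := Ioo_subset_Icc_self hm
    have a0 := hc t ht
    have a1 : K * ‖z t - q t‖ * ‖z t - q t‖ ≤ K * ρ * ρ := by gcongr
    have a2 := norm_mix (D.traj.m0 t) (D.traj.m1 t) ((D.hX.taylor (q t) (z t)).trans a1)
      ((D.hX'.taylor (q t) (z t)).trans a1)
    have a3 : ‖(ρ * (v t - m t)) • ((X (z t) - X (q t)) - (X' (z t) - X' (q t)))‖ ≤
        ρ * (2 * (K * ρ)) := by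
      rw [norm_smul, Real.norm_eq_abs, abs_mul, abs_of_nonneg hρ]
      refine mul_le_mul (mul_le_of_le_one_right hρ (hv.abs_sub D.adm t)) ?_ (norm_nonneg _) hρ
      have a4 : K * ‖z t - q t‖ ≤ K * ρ := by gcongr
      linarith [norm_sub_le (X (z t) - X (q t)) (X' (z t) - X' (q t)), D.hX.lip (q t) (z t),
        D.hX'.lip (q t) (z t)]
    refine le_trans (le_of_eq ?_) ((P t).le_of_opNorm_le_of_le (D.bound t ht)
      ((norm_add_le _ _).trans (add_le_add a2 a3)))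
    congr 1
    simp only [Pi.sub_apply, neg_apply, ContinuousLinearMap.comp_apply,
      add_apply, smul_apply, map_add, map_sub, map_smul]
    module) (left_mem_Icc.2 hδ) (right_mem_Icc.2 hδ)
  simp only [D.fin, h0, sub_self, map_zero, intervalIntegral.integral_same, smul_zero,
    sub_zero, ContinuousLinearMap.id_apply, abs_of_nonneg hδ] at key
  nlinarith [mul_le_mul_of_nonneg_left D.hK (sq_nonneg ρ)]

theorem sum_int {ι : Type} [Fintype ι] {v : ι → ℝ → ℝ} (hv : ∀ i, Adm (v i)) {a : ι → ℝ}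
    (h0 : ∀ i, 0 ≤ a i) (h1 : ∑ i, a i = 1) : Adm (fun t => ∑ i, a i * v i t) ∧
    ∫ t in 0..δ, (∑ i, a i * v i t - m t) • P t (X (q t) - X' (q t)) =
      ∑ i, a i • ∫ t in 0..δ, (v i t - m t) • P t (X (q t) - X' (q t)) := by
  refine ⟨⟨Finset.measurable_sum _ fun i _ => measurable_const.mul (hv i).1, fun t =>
    ⟨Finset.sum_nonneg fun i _ => mul_nonneg (h0 i) ((hv i).2 t).1, h1 ▸ Finset.sum_le_sum
      fun i _ => mul_le_of_le_one_right (h0 i) ((hv i).2 t).2⟩⟩, ?_⟩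
  simp only [← intervalIntegral.integral_smul]
  refine Eq.trans ?_ (intervalIntegral.integral_finsetSum fun i _ => (D.iiH (hv i)).smul (a i))
  congr 1
  funext t
  simp only [smul_smul, ← Finset.sum_smul, mul_sub, Finset.sum_sub_distrib,
    ← Finset.sum_mul, h1, one_mul]

theorem not_interior (hδ : 0 < δ)
    (opt : ∀ n z T, T ≤ δ → Traj X X' n z T → z 0 = q 0 → z T = q δ → δ ≤ T) :
    (0 : E3) ∉ interior {x | ∃ v, Adm v ∧
      x = ∫ t in 0..δ, (v t - m t) • P t (X (q t) - X' (q t))} := by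
  intro hi
  obtain ⟨ε, hε, hb⟩ := Metric.nhds_basis_closedBall.mem_iff.1 (mem_interior_iff_mem_nhds.1 hi)
  have h1 : ∀ i : Fin 3 × Bool, ∃ v, Adm v ∧ EuclideanSpace.single i.1 (bif i.2 then ε else -ε) =
      ∫ t in 0..δ, (v t - m t) • P t (X (q t) - X' (q t)) := fun i =>
    hb (by rcases i with ⟨i, _ | _⟩ <;> simp [abs_of_pos hε])
  choose v hv hk using h1
  let a : E3 → Fin 3 × Bool → ℝ := fun s i => (1 + bif i.2 then s i.1 else -s i.1) / 6
  have a1 : ∀ s, ∑ i, a s i = 1 := fun s => by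
    simp only [a, Fintype.sum_prod_type, Fintype.sum_bool, Fin.sum_univ_three, cond_true,
      cond_false]
    ring
  have a0 : ∀ s ∈ closedBall (0 : E3) 1, ∀ i, 0 ≤ a s i := by
    rintro s hs ⟨i, b⟩
    have := abs_le.1 ((PiLp.norm_apply_le s i).trans (mem_closedBall_zero_iff.1 hs))
    cases b <;> simp only [a, cond_true, cond_false] <;> linarith [this.1, this.2]
  have a2 : ∀ s, ∑ i, a s i • EuclideanSpace.single i.1 (bif i.2 then ε else -ε) =
      (ε / 3) • s := fun s => by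
    ext j
    fin_cases j <;>
      simp [a, Fintype.sum_prod_type, Fin.sum_univ_three] <;> ring
  have a3 : ∀ s s' t, |∑ i, a s i * v i t - ∑ i, a s' i * v i t| ≤ ‖s - s'‖ := by
    intro s s' t
    rw [← Finset.sum_sub_distrib]
    refine (Finset.abs_sum_le_sum_abs _ _).trans ((Finset.sum_le_sum (g := fun _ => ‖s - s'‖ / 6)
      fun i _ => ?_).trans (by simp; linarith))
    rw [← sub_mul, abs_mul, abs_of_nonneg ((hv i).2 t).1]
    refine (mul_le_of_le_one_right (abs_nonneg _) ((hv i).2 t).2).trans ?_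
    have := abs_le.1 (PiLp.norm_apply_le (s - s') i.1)
    rw [PiLp.sub_apply] at this
    rcases i with ⟨i, _ | _⟩ <;> simp only [a, cond_true, cond_false] <;>
      exact abs_le.2 ⟨by linarith [this.1, this.2], by linarith [this.1, this.2]⟩
  have hK0 := D.hX.nonneg
  obtain ⟨ρ, hρ, hρ1, hρ2, hρ3⟩ : ∃ ρ > 0, ρ ≤ 1 ∧ ρ ≤ δ ∧ ρ ≤ ε / (3 * (K + 2)) :=
    ⟨min 1 (min δ (ε / (3 * (K + 2)))), by positivity, min_le_left _ _,
      (min_le_right _ _).trans (min_le_left _ _), (min_le_right _ _).trans (min_le_right _ _)⟩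
  have hT : δ - ρ ^ 2 ∈ Icc 0 δ := ⟨by nlinarith, by nlinarith⟩
  have h2 : ∀ s : E3, ∃ z, s ∈ closedBall (0 : E3) 1 →
      Traj X X' (fun t => m t + ρ * (∑ i, a s i * v i t - m t)) z δ ∧ z 0 = q 0 := by
    intro s
    by_cases hs : s ∈ closedBall (0 : E3) 1
    · have h3 := (D.sum_int hv (a0 s hs) (a1 s)).1
      refine (exists_traj D.hX D.hX' hδ.le D.hK (n := fun t => m t + ρ * (∑ i, a s i * v i t - m t))
        ⟨D.traj.meas.add (measurable_const.mul (h3.1.sub D.traj.meas)), fun t => ?_⟩ (q 0)).imp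
        fun z hz _ => hz
      have := h3.2 t
      have := D.adm.2 t
      constructor <;> nlinarith
    · exact ⟨0, fun h => absurd h hs⟩
  choose z hz using h2
  have hc : 0 < 3 / (ε * ρ) := by positivity
  obtain ⟨s, hs, hfix⟩ := Pool.Agent.Shared.Brouwer.brouwer one_pos
    (fun s => s - (3 / (ε * ρ)) • (z s (δ - ρ ^ 2) - q δ)) (by
      suffices H : LipschitzOnWith 1 (fun s => z s (δ - ρ ^ 2)) (closedBall 0 1) from
        continuousOn_id.sub ((H.continuousOn.sub continuousOn_const).const_smul (3 / (ε * ρ)))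
      refine LipschitzOnWith.of_dist_le_mul fun s hs s' hs' => ?_
      rw [dist_eq_norm, dist_eq_norm, NNReal.coe_one, one_mul]
      refine close D.hX D.hX' D.hK (hz s hs).1 (hz s' hs').1 ((hz s hs).2.trans (hz s' hs').2.symm)
        (fun t => ?_) _ hT
      rw [add_sub_add_left_eq_sub, ← mul_sub, sub_sub_sub_cancel_right, abs_mul, abs_of_pos hρ]
      exact (mul_le_of_le_one_left (abs_nonneg _) hρ1).trans (a3 s s' t)) (by
      intro s hs
      have h3 := D.sum_int hv (a0 s hs) (a1 s)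
      have h4 := D.expand h3.1 hρ.le (hz s hs).1 (hz s hs).2
      have h5 := speed D.hX D.hX' (hz s hs).1 hT (right_mem_Icc.2 hδ.le)
      rw [h3.2] at h4
      simp only [← hk, a2] at h4
      rw [sub_sub_cancel, abs_of_nonneg (sq_nonneg ρ)] at h5
      have e : s - (3 / (ε * ρ)) • (z s (δ - ρ ^ 2) - q δ) = (3 / (ε * ρ)) •
          ((z s δ - z s (δ - ρ ^ 2)) - (z s δ - q δ - ρ • (ε / 3) • s)) := by
        have : 3 / (ε * ρ) * (ρ * (ε / 3)) = 1 := by field_simp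
        rw [smul_smul, smul_sub _ (z s δ - z s (δ - ρ ^ 2)), smul_sub _ (z s δ - q δ), smul_smul,
          this]
        module
      beta_reduce
      rw [mem_closedBall_zero_iff, e, norm_smul, Real.norm_of_nonneg hc.le]
      have h6 := (norm_sub_le _ _).trans (add_le_add h5 h4)
      refine (mul_le_mul_of_nonneg_left h6 hc.le).trans ?_
      rw [le_div_iff₀ (by positivity)] at hρ3
      rw [div_mul_eq_mul_div, div_le_one (by positivity)]
      nlinarith)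
  have h7 : z s (δ - ρ ^ 2) = q δ := by
    have := sub_eq_self.1 hfix
    rwa [smul_eq_zero, or_iff_right hc.ne', sub_eq_zero] at this
  have h8 := (hz s hs).1
  have := opt _ _ _ hT.2 ⟨hT.1, h8.meas, h8.m0, h8.m1,
    h8.lip.imp fun _ h => h.mono (Icc_subset_Icc_right hT.2), by
      filter_upwards [h8.ode] with t ht hm using ht ⟨hm.1, hm.2.trans_le hT.2⟩⟩ (hz s hs).2 h7
  nlinarith

theorem adjoint (hδ : 0 < δ)
    (opt : ∀ n z T, T ≤ δ → Traj X X' n z T → z 0 = q 0 → z T = q δ → δ ≤ T) :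
    ∃ p, Adjoint X X' m q p δ := by
  obtain ⟨l, hl, hK⟩ := exists_sep (K := {x | ∃ v, Adm v ∧
      x = ∫ t in 0..δ, (v t - m t) • P t (X (q t) - X' (q t))}) (fun x hx y hy a b ha hb hab => by
    obtain ⟨v, hv, rfl⟩ := hx
    obtain ⟨w, hw, rfl⟩ := hy
    have := D.sum_int (v := fun i : Bool => bif i then v else w) (by rintro (_ | _) <;> assumption)
      (a := fun i : Bool => bif i then a else b) (by rintro (_ | _) <;> assumption)
      (by simpa using hab)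
    exact ⟨_, this.1, by simpa using this.2.symm⟩) ⟨m, D.adm, by simp⟩ (D.not_interior hδ opt)
  have hφ : Continuous fun t => l (P t (X (q t) - X' (q t))) := l.continuous.comp D.contH
  have hv : Adm fun t => if 0 < l (P t (X (q t) - X' (q t))) then 1 else 0 :=
    ⟨Measurable.ite (measurableSet_lt measurable_const hφ.measurable) measurable_const
      measurable_const, fun t => by beta_reduce; split_ifs <;> norm_num⟩
  have h1 := hK _ ⟨_, hv, rfl⟩
  rw [← l.intervalIntegral_comp_comm (D.iiH hv)] at h1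
  have h2 : ∀ t, 0 ≤ l (((if 0 < l (P t (X (q t) - X' (q t))) then 1 else 0) - m t) •
      P t (X (q t) - X' (q t))) := by
    intro t
    rw [map_smul, smul_eq_mul]
    have := D.adm.2 t
    split_ifs <;> nlinarith
  have h3 := (intervalIntegral.integral_eq_zero_iff_of_le_of_nonneg_ae hδ.le
    (Eventually.of_forall h2) ⟨l.integrable_comp (D.iiH hv).1, l.integrable_comp (D.iiH hv).2⟩).1
    (le_antisymm h1 (intervalIntegral.integral_nonneg hδ.le fun t _ => h2 t))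
  have h4 := (ae_restrict_iff' measurableSet_Ioc).1 h3
  obtain ⟨C, hC⟩ := D.lip
  refine ⟨fun t => l.comp (P t), ⟨_, ((ContinuousLinearMap.compL ℝ E3 E3 ℝ l).lipschitz.comp
    hC).lipschitzOnWith⟩, fun h => hl ?_, ?_, ?_, ?_⟩
  · have h5 : l = -l.comp (P 0 - ContinuousLinearMap.id ℝ E3) := by
      rw [ContinuousLinearMap.comp_sub, h]
      simp
    have h6 := congrArg norm h5
    rw [norm_neg] at h6
    have h7 := ContinuousLinearMap.opNorm_comp_le l (P 0 - ContinuousLinearMap.id ℝ E3)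
    have h8 := mul_le_mul_of_nonneg_left (D.near 0 (left_mem_Icc.2 hδ.le)) (norm_nonneg l)
    exact norm_le_zero_iff.1 (by linarith)
  · filter_upwards [D.ode] with t ht hm
    have := (ContinuousLinearMap.compL ℝ E3 E3 ℝ l).hasFDerivAt.comp_hasDerivAt t (ht hm)
    refine HasDerivAt.congr_deriv this ?_
    ext
    simp
  · filter_upwards [h4] with t ht hm hp
    have := ht (Ioo_subset_Ioc_self hm)
    rw [ContinuousLinearMap.comp_apply] at hp
    simp only [map_smul, smul_eq_mul, if_pos hp, Pi.zero_apply, mul_eq_zero, hp.ne', or_false]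
      at this
    linarith
  · filter_upwards [h4] with t ht hm hp
    have := ht (Ioo_subset_Ioc_self hm)
    rw [ContinuousLinearMap.comp_apply] at hp
    simp only [map_smul, smul_eq_mul, if_neg hp.not_gt, Pi.zero_apply, mul_eq_zero, hp.ne, or_false]
      at this
    linarith

end Data

end Pmp

open Pmp in
/-- The maximum principle on a short interval. -/
theorem pmp {X X' : E3 → E3} (hX : ContDiff ℝ ∞ X) (hX' : ContDiff ℝ ∞ X') {m : ℝ → ℝ}
    {q : ℝ → E3} {T : ℝ} (hT : 0 < T) (h : Traj X X' m q T) {U : Set E3} (hU : U ∈ 𝓝 (q 0))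
    (opt : LocOpt X X' U q T) : ∃ δ ∈ Ioc 0 T, ∃ p, Adjoint X X' m q p δ := by
  obtain ⟨r, hr, hrU⟩ := Metric.mem_nhds_iff.1 hU
  let χ : ContDiffBump (q 0) := ⟨r, 2 * r, hr, by linarith⟩
  obtain ⟨K1, h1⟩ := exists_nice (X := fun y => χ y • X y) (χ.contDiff.smul hX)
    χ.hasCompactSupport.smul_right
  obtain ⟨K2, h2⟩ := exists_nice (X := fun y => χ y • X' y) (χ.contDiff.smul hX')
    χ.hasCompactSupport.smul_right
  obtain ⟨C, hC⟩ := h.lip
  obtain ⟨K, k1, k2, k3⟩ : ∃ K, Nice (fun y => χ y • X y) K ∧ Nice (fun y => χ y • X' y) K ∧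
      (C : ℝ) ≤ K := ⟨max K1 (max K2 C), h1.mono (le_max_left _ _),
    h2.mono ((le_max_left _ _).trans (le_max_right _ _)),
    (le_max_right _ _).trans (le_max_right _ _)⟩
  have hK0 := k1.nonneg
  obtain ⟨δ, hδ, d1, d2, d3⟩ : ∃ δ > 0, δ ≤ T ∧ δ ≤ 1 / 4 / (K + 1) ∧ δ ≤ r / (K + 1) :=
    ⟨min T (min (1 / 4 / (K + 1)) (r / (K + 1))), by positivity, min_le_left _ _,
      (min_le_right _ _).trans (min_le_left _ _), (min_le_right _ _).trans (min_le_right _ _)⟩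
  rw [le_div_iff₀ (by positivity)] at d2 d3
  have hχ : ∀ y ∈ ball (q 0) r, χ y = 1 := fun y hy =>
    χ.one_of_mem_closedBall (ball_subset_closedBall hy)
  have hev : ∀ (Y : E3 → E3), ∀ y ∈ ball (q 0) r, fderiv ℝ (fun y => χ y • Y y) y = fderiv ℝ Y y :=
    fun Y y hy => EventuallyEq.fderiv_eq (by
      filter_upwards [isOpen_ball.mem_nhds hy] with x hx
      rw [hχ x hx, one_smul])
  have hq : ∀ t ∈ Icc 0 δ, q t ∈ ball (q 0) r := by
    intro t ht
    have := hC.dist_le_mul t ⟨ht.1, ht.2.trans d1⟩ 0 (left_mem_Icc.2 hT.le)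
    rw [Real.dist_eq, sub_zero, abs_of_nonneg ht.1] at this
    have h3 : (C : ℝ) * t ≤ K * δ := mul_le_mul k3 ht.2 ht.1 hK0
    exact mem_ball.2 (by nlinarith)
  let Q : ℝ → E3 := fun t => q (projIcc 0 δ hδ.le t)
  have hQ : ∀ t ∈ Icc 0 δ, Q t = q t := fun t ht => by simp only [Q, projIcc_of_mem hδ.le ht]
  have hC' := hC.mono (Icc_subset_Icc_right d1)
  have hQc : Continuous Q := hC'.continuousOn.comp_continuous
    (continuous_subtype_val.comp continuous_projIcc) fun t => (projIcc 0 δ hδ.le t).2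
  have hQt : Traj (fun y => χ y • X y) (fun y => χ y • X' y) m Q δ := by
    refine ⟨hδ.le, h.meas, h.m0, h.m1, ⟨C, fun x hx y hy => ?_⟩, ?_⟩
    · rw [hQ x hx, hQ y hy]
      exact hC' hx hy
    · filter_upwards [h.ode] with t ht hm
      have ht' := Ioo_subset_Icc_self hm
      rw [hQ t ht', hχ _ (hq t ht'), one_smul, one_smul]
      refine (ht ⟨hm.1, hm.2.trans_le d1⟩).congr_of_eventuallyEq ?_
      filter_upwards [Icc_mem_nhds hm.1 hm.2] with s hs using hQ s hs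
  obtain ⟨P, D⟩ := exists_data k1 k2 (by nlinarith) hQt hQc
  obtain ⟨p, hp⟩ := D.adjoint hδ fun n z T' hT' hz z0 z1 => by
    rw [hQ 0 (left_mem_Icc.2 hδ.le)] at z0
    rw [hQ δ (right_mem_Icc.2 hδ.le)] at z1
    have hb : ∀ t ∈ Icc 0 T', z t ∈ ball (q 0) r := by
      intro t ht
      have := speed k1 k2 hz (left_mem_Icc.2 hz.nonneg) ht
      rw [sub_zero, abs_of_nonneg ht.1, z0] at this
      have h3 : K * t ≤ K * δ := mul_le_mul_of_nonneg_left (ht.2.trans hT') hK0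
      exact mem_ball_iff_norm.2 (by nlinarith)
    refine opt δ ⟨hδ.le, d1⟩ n z T' ⟨hz.nonneg, hz.meas, hz.m0, hz.m1, hz.lip, ?_⟩
      (fun t ht => hrU (hb t ht)) z0 z1
    filter_upwards [hz.ode] with t ht hm
    simpa only [hχ _ (hb t (Ioo_subset_Icc_self hm)), one_smul] using ht hm
  refine ⟨δ, ⟨hδ, d1⟩, p, hp.lip, hp.ne, ?_, ?_, ?_⟩
  · filter_upwards [hp.ode] with t ht hm
    have ht' := Ioo_subset_Icc_self hm
    simpa only [hQ t ht', hev _ _ (hq t ht')] using ht hm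
  · filter_upwards [hp.pos] with t ht hm
    have ht' := Ioo_subset_Icc_self hm
    simpa only [hQ t ht', hχ _ (hq t ht'), one_smul] using ht hm
  · filter_upwards [hp.neg] with t ht hm
    have ht' := Ioo_subset_Icc_self hm
    simpa only [hQ t ht', hχ _ (hq t ht'), one_smul] using ht hm

end Pool.Agent.Lib.MP_f4f7c0_an
end

-- part Pool.Agent.Lib.MP_f4f7c0_an.Smooth
section

/-! Smoothness of an extremal just after a good point. -/

namespace Pool.Agent.Lib.MP_f4f7c0_an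

open Set Filter Topology MeasureTheory
open scoped Manifold ContDiff

namespace Smooth

section
variable {F G : Type*} [NormedAddCommGroup F] [NormedSpace ℝ F]
  [NormedAddCommGroup G] [NormedSpace ℝ G]

/-- A smooth function of a Lipschitz curve is Lipschitz. -/
theorem lip_comp {g : F → G} {y : ℝ → F} {s t : ℝ} {C : NNReal}
    (hy : LipschitzOnWith C y (Icc s t)) (hg : ∀ τ ∈ Icc s t, ContDiffAt ℝ 1 g (y τ)) :
    ∃ K, LipschitzOnWith K (fun τ => g (y τ)) (Icc s t) := by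
  refine LocallyLipschitzOn.exists_lipschitzOnWith_of_compact isCompact_Icc fun τ hτ => ?_
  obtain ⟨K, U, hU, hK⟩ := (hg τ hτ).exists_lipschitzOnWith
  refine ⟨K * C, Icc s t ∩ y ⁻¹' U, inter_mem self_mem_nhdsWithin
    (hy.continuousOn τ hτ hU), ?_⟩
  exact hK.comp (hy.mono inter_subset_left) fun _ h => h.2

/-- A Lipschitz curve whose almost everywhere derivative is continuous is differentiable. -/
theorem hasDerivAt_of_lip [CompleteSpace F] {y y' : ℝ → F} {s t : ℝ} {C : NNReal}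
    (hl : LipschitzOnWith C y (Icc s t)) (hc : ContinuousOn y' (Icc s t))
    (h : ∀ᵐ τ, τ ∈ Ioo s t → HasDerivAt y (y' τ) τ) {τ : ℝ} (hτ : τ ∈ Ioo s t) :
    HasDerivAt y (y' τ) τ := by
  have hst : s ≤ t := (hτ.1.trans hτ.2).le
  have hi : ∀ u ∈ Ioo s t, IntervalIntegrable y' volume s u := fun u hu =>
    (hc.mono (by rw [uIcc_of_le hu.1.le]; exact Icc_subset_Icc_right hu.2.le)).intervalIntegrable
  have h1 : ∀ u ∈ Ioo s t, y u = y s + ∫ x in s..u, y' x := by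
    intro u hu
    refine (SeparatingDual.eq_iff_forall_dual_eq (R := ℝ)).2 fun l => ?_
    have ha : AC (fun τ => l (y τ)) s t :=
      (l.lipschitz.comp_lipschitzOnWith (uIcc_of_le hst ▸ hl)).absolutelyContinuousOnInterval
    have hd : ∀ τ ∈ Ioo s t, HasDerivAt (fun τ => l (y τ)) (l (y' τ)) τ := fun τ hτ =>
      ha.hasDerivAt (F' := fun τ => l (y' τ)) (l.continuous.comp_continuousOn hc)
        (by filter_upwards [h] with τ h1 h2 using l.hasFDerivAt.comp_hasDerivAt τ (h1 h2)) hτ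
    have h2 := intervalIntegral.integral_eq_sub_of_hasDerivAt_of_le hu.1.le
      (f := fun τ => l (y τ)) (f' := fun τ => l (y' τ))
      ((l.continuous.comp_continuousOn hl.continuousOn).mono (Icc_subset_Icc_right hu.2.le))
      (fun τ hτ => hd τ ⟨hτ.1, hτ.2.trans hu.2⟩)
      (((l.continuous.comp_continuousOn hc).mono (by
        rw [uIcc_of_le hu.1.le]; exact Icc_subset_Icc_right hu.2.le)).intervalIntegrable)
    rw [map_add, ← l.intervalIntegral_comp_comm (hi u hu), h2]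
    ring
  have h4 : HasDerivAt (fun u => y s + ∫ x in s..u, y' x) (y' τ) τ := by
    refine HasDerivAt.const_add _ (intervalIntegral.integral_hasDerivAt_right (hi τ hτ) ?_ ?_)
    · exact (hc.mono Ioo_subset_Icc_self).stronglyMeasurableAtFilter isOpen_Ioo _ hτ
    · exact hc.continuousAt (Icc_mem_nhds hτ.1 hτ.2)
  exact h4.congr_of_eventuallyEq (by
    filter_upwards [Ioo_mem_nhds hτ.1 hτ.2] with y hy using h1 y hy)

/-- Lipschitz solutions of a smooth autonomous equation are smooth. -/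
theorem ode_smooth [CompleteSpace F] {V : F → F} {O : Set F} (hV : ContDiffOn ℝ ∞ V O)
    {y : ℝ → F} {s t : ℝ} {C : NNReal} (hl : LipschitzOnWith C y (Icc s t))
    (hO : MapsTo y (Ioo s t) O) (h : ∀ᵐ τ, τ ∈ Ioo s t → HasDerivAt y (V (y τ)) τ) :
    ContDiffOn ℝ ∞ y (Ioo s t) := by
  have hd : ∀ τ ∈ Ioo s t, HasDerivAt y (V (y τ)) τ := by
    intro τ hτ
    obtain ⟨a, ha1, ha2⟩ := exists_between hτ.1
    obtain ⟨b, hb1, hb2⟩ := exists_between hτ.2
    have hsub : Icc a b ⊆ Ioo s t := Icc_subset_Ioo ha1 hb2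
    have hl' := hl.mono (hsub.trans Ioo_subset_Icc_self)
    exact hasDerivAt_of_lip (y' := fun τ => V (y τ)) hl'
      (hV.continuousOn.comp hl'.continuousOn (hO.mono_left hsub))
      (by filter_upwards [h] with τ h1 h2 using h1 (hsub (Ioo_subset_Icc_self h2))) ⟨ha2, hb1⟩
  refine contDiffOn_infty.2 fun n => ?_
  induction n with
  | zero =>
    exact contDiffOn_zero.2 fun τ hτ => (hd τ hτ).continuousAt.continuousWithinAt
  | succ n ih =>
    rw [Nat.cast_succ, contDiffOn_succ_iff_deriv_of_isOpen isOpen_Ioo]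
    refine ⟨fun τ hτ => (hd τ hτ).differentiableAt.differentiableWithinAt, by simp, ?_⟩
    exact ((hV.of_le (by exact_mod_cast le_top)).comp ih hO).congr fun τ hτ => (hd τ hτ).deriv

end

variable {X X' : E3 → E3} {m : ℝ → ℝ} {q : ℝ → E3} {T δ : ℝ} {p : ℝ → E3 →L[ℝ] ℝ}

theorem lip_pair (h : Traj X X' m q T) (hδ : δ ∈ Ioc 0 T) (hp : Adjoint X X' m q p δ) :
    ∃ C, LipschitzOnWith C (fun t => (q t, p t)) (Icc 0 δ) := by
  obtain ⟨C, hC⟩ := h.lip
  obtain ⟨D, hD⟩ := hp.lip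
  exact ⟨_, (hC.mono (Icc_subset_Icc_right hδ.2)).prodMk hD⟩

/-- Derivative of the pairing of the adjoint covector with a smooth field. -/
theorem dd_pair (h : Traj X X' m q T) (hδ : δ ∈ Ioc 0 T) (hp : Adjoint X X' m q p δ)
    {Y : E3 → E3} (hY : ContDiff ℝ ∞ Y) :
    DD m (fun t => p t (Y (q t))) (fun t => p t (VectorField.lieBracket ℝ X Y (q t)))
      (fun t => p t (VectorField.lieBracket ℝ X' Y (q t))) 0 δ := by
  obtain ⟨C, hC⟩ := lip_pair h hδ hp
  have hY1 : ContDiff ℝ 1 Y := hY.of_le (by exact_mod_cast le_top)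
  obtain ⟨K, hK⟩ := lip_comp (g := fun z : E3 × (E3 →L[ℝ] ℝ) => z.2 (Y z.1)) hC fun τ _ =>
    (contDiff_snd.clm_apply (hY1.comp contDiff_fst)).contDiffAt
  refine ⟨LipschitzOnWith.absolutelyContinuousOnInterval (K := K)
    (by rwa [uIcc_of_le hδ.1.le]), ?_⟩
  filter_upwards [h.ode, hp.ode] with τ h1 h2 hτ
  have h3 := (hY1.differentiable one_ne_zero (q τ)).hasFDerivAt.comp_hasDerivAt τ
    (h1 ⟨hτ.1, hτ.2.trans_le hδ.2⟩)
  refine ((h2 hτ).clm_apply h3).congr_deriv ?_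
  simp [VectorField.lieBracket]
  ring

/-- The data along the extremal. -/
noncomputable def ext (hX : ContDiff ℝ ∞ X) (hX' : ContDiff ℝ ∞ X') (h : Traj X X' m q T)
    (hδ : δ ∈ Ioc 0 T) (hp : Adjoint X X' m q p δ) : Ext where
  δ := δ
  m := m
  φ := fun t => p t (X (q t) - X' (q t))
  x := fun t => ∫ τ in (0 : ℝ)..t, m τ
  h := fun w t => p t (br X X' w (q t))
  δpos := hδ.1
  m0 := h.m0
  m1 := h.m1
  dφ := by
    have d1 := fun y => (hX.differentiable (by simp) y)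
    have d2 := fun y => (hX'.differentiable (by simp) y)
    refine (dd_pair h hδ hp (hX.sub hX')).congr (fun τ _ => ?_) fun τ _ => ?_ <;>
    · congr 1
      simp only [br, VectorField.lieBracket, fderiv_fun_sub (d1 _) (d2 _),
        sub_apply, map_sub]
      abel
  dh := fun w => dd_pair h hδ hp (contDiff_br hX hX' w)
  dx := by
    have hi : IntervalIntegrable m volume 0 δ :=
      (intervalIntegrable_const (c := (1 : ℝ))).mono_fun' h.meas.aestronglyMeasurable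
        (Eventually.of_forall fun t => by
          simp only [Real.norm_eq_abs]; rw [abs_of_nonneg (h.m0 t)]; exact h.m1 t)
    refine ⟨hi.absolutelyContinuousOnInterval_intervalIntegral left_mem_uIcc, ?_⟩
    filter_upwards [hi.ae_hasDerivAt_integral] with τ hτ hm
    exact (hτ (by rw [uIcc_of_le hδ.1.le]; exact Ioo_subset_Icc_self hm) 0
      left_mem_uIcc).congr_deriv (by ring)
  x0 := by simp
  pos := hp.pos
  neg := hp.neg
  sym := fun w => by rw [br_sym hX hX' w]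

theorem bang (hX : ContDiff ℝ ∞ X) (hX' : ContDiff ℝ ∞ X') (h : Traj X X' m q T)
    {ε : ℝ} (hε : ε ≤ T) {c : ℝ} (hm : ∀ᵐ τ, τ ∈ Ioo 0 ε → m τ = c) :
    ContDiffOn ℝ ∞ q (Ioo 0 ε) := by
  obtain ⟨C, hC⟩ := h.lip
  refine ode_smooth (V := fun y => c • X y + (1 - c) • X' y) (O := univ)
    (((hX.const_smul c).add (hX'.const_smul (1 - c))).contDiffOn)
    (hC.mono (Icc_subset_Icc_right hε)) (mapsTo_univ _ _) ?_
  filter_upwards [h.ode, hm] with τ h1 h2 hτ
  rw [← h2 hτ]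
  exact h1 ⟨hτ.1, hτ.2.trans_le hε⟩

theorem sing_control {e : Ext} {ε : ℝ} (hε : ε ≤ e.δ)
    (h : ∀ τ ∈ Ioo 0 ε, e.φ τ = 0 ∧ (e.a τ ≠ 0 ∨ e.b τ ≠ 0)) :
    (∀ τ ∈ Ioo 0 ε, e.b τ - e.a τ ≠ 0) ∧
      ∀ᵐ τ, τ ∈ Ioo 0 ε → e.m τ = e.b τ / (e.b τ - e.a τ) := by
  have hsub : Ioo 0 ε ⊆ Ioo 0 e.δ := Ioo_subset_Ioo_right hε
  have hW : ∀ τ ∈ Ioo 0 ε, e.W τ = 0 := fun τ hτ =>
    (e.hasDeriv (hsub hτ)).unique ((hasDerivAt_const τ (0 : ℝ)).congr_of_eventuallyEq (by
      filter_upwards [Ioo_mem_nhds hτ.1 hτ.2] with y hy using (h y hy).1))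
  have h0 : ∀ᵐ τ, τ ∈ Ioo 0 ε → e.m τ * e.a τ + (1 - e.m τ) * e.b τ = 0 := by
    filter_upwards [(e.dh []).2] with τ h1 hτ
    exact (h1 (hsub hτ)).unique ((hasDerivAt_const τ (0 : ℝ)).congr_of_eventuallyEq (by
      filter_upwards [Ioo_mem_nhds hτ.1 hτ.2] with y hy using hW y hy))
  have hne : ∀ τ ∈ Ioo 0 ε, e.b τ - e.a τ ≠ 0 := by
    intro τ hτ hab
    have hab' : e.a τ = e.b τ := by linarith
    have hpos : 0 < e.a τ * e.b τ := by
      rw [hab']
      exact mul_self_pos.2 ((h τ hτ).2.elim (fun h => hab' ▸ h) id)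
    have hmem := Icc_mem_nhds (hsub hτ).1 (hsub hτ).2
    have hc : ContinuousAt (fun τ => e.a τ * e.b τ) τ :=
      ((e.conth [true]).continuousAt hmem).mul ((e.conth [false]).continuousAt hmem)
    obtain ⟨y, hy1, hy2, hy3⟩ := (Measure.dense_of_ae h0).inter_nhds_nonempty
      (inter_mem (hc.eventually (lt_mem_nhds hpos)) (Ioo_mem_nhds hτ.1 hτ.2))
    have h1 := hy1 hy3
    have h2 : 0 < e.a y * e.b y := hy2
    have := e.m0 y
    have := e.m1 y
    rcases pos_and_pos_or_neg_and_neg_of_mul_pos h2 with ⟨h3, h4⟩ | ⟨h3, h4⟩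
    · rcases le_total (e.a y) (e.b y) with h5 | h5 <;> nlinarith
    · rcases le_total (e.a y) (e.b y) with h5 | h5 <;> nlinarith
  refine ⟨hne, ?_⟩
  filter_upwards [h0] with τ h1 hτ
  rw [eq_div_iff (hne τ hτ)]
  linear_combination -h1 hτ

end Smooth

open Smooth in
/-- Smoothness of an extremal after a good point. -/
theorem smooth_of_adjoint (H : ∀ e : Ext, e.Acc → (Gen fun w => e.h w 0) → e.Sing)
    {X X' : E3 → E3} (hX : ContDiff ℝ ∞ X) (hX' : ContDiff ℝ ∞ X') {m : ℝ → ℝ}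
    {q : ℝ → E3} {T δ : ℝ} (h : Traj X X' m q T) (hδ : δ ∈ Ioc 0 T) {p : ℝ → E3 →L[ℝ] ℝ}
    (hp : Adjoint X X' m q p δ) (hg : Good X X' (q 0)) :
    ∃ ε > 0, ContDiffOn ℝ ∞ q (Ioo 0 ε) := by
  set e := ext hX hX' h hδ hp with he
  by_cases hA : e.Acc
  · have hS := H e hA (hg (p 0) hp.ne hA.φ0 hA.W0)
    obtain ⟨ε, hε, hsub⟩ := mem_nhdsGT_iff_exists_Ioc_subset.1 (hS.and e.ev_mem)
    have hεδ : ε ≤ δ := (hsub ⟨hε, le_rfl⟩).2.2.le
    obtain ⟨h1, h2⟩ := sing_control (e := e) hεδ fun τ hτ => (hsub (Ioo_subset_Ioc_self hτ)).1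
    obtain ⟨C, hC⟩ := lip_pair h hδ hp
    let a : E3 × (E3 →L[ℝ] ℝ) → ℝ := fun z => z.2 (br X X' [true] z.1)
    let b : E3 × (E3 →L[ℝ] ℝ) → ℝ := fun z => z.2 (br X X' [false] z.1)
    have ha : ContDiff ℝ ∞ a := contDiff_snd.clm_apply ((contDiff_br hX hX' _).comp contDiff_fst)
    have hb : ContDiff ℝ ∞ b := contDiff_snd.clm_apply ((contDiff_br hX hX' _).comp contDiff_fst)
    let μ : E3 × (E3 →L[ℝ] ℝ) → ℝ := fun z => b z / (b z - a z)
    have hμ : ContDiffOn ℝ ∞ μ {z | b z - a z ≠ 0} :=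
      hb.contDiffOn.div (hb.sub ha).contDiffOn fun _ hz => hz
    have hμ' : ContDiffOn ℝ ∞ (fun z => 1 - μ z) {z | b z - a z ≠ 0} := contDiffOn_const.sub hμ
    have d1 : ContDiff ℝ ∞ (fderiv ℝ X) := hX.fderiv_right le_rfl
    have d2 : ContDiff ℝ ∞ (fderiv ℝ X') := hX'.fderiv_right le_rfl
    have key := ode_smooth (O := {z | b z - a z ≠ 0})
      (V := fun z : E3 × (E3 →L[ℝ] ℝ) => (μ z • X z.1 + (1 - μ z) • X' z.1,
        -z.2.comp (μ z • fderiv ℝ X z.1 + (1 - μ z) • fderiv ℝ X' z.1)))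
      (((hμ.smul (hX.comp contDiff_fst).contDiffOn).add
        (hμ'.smul (hX'.comp contDiff_fst).contDiffOn)).prodMk
        (contDiffOn_snd.clm_comp ((hμ.smul (d1.comp contDiff_fst).contDiffOn).add
        (hμ'.smul (d2.comp contDiff_fst).contDiffOn))).neg)
      (hC.mono (Icc_subset_Icc_right hεδ)) (fun τ hτ => h1 τ hτ) (by
        filter_upwards [h2, h.ode, hp.ode] with τ h3 h4 h5 hτ
        have h6 : μ (q τ, p τ) = m τ := (h3 hτ).symm
        rw [h6]
        exact (h4 ⟨hτ.1, hτ.2.trans_le (hεδ.trans hδ.2)⟩).prodMk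
          (h5 ⟨hτ.1, hτ.2.trans_le hεδ⟩))
    exact ⟨ε, hε, key.fst⟩
  · obtain ⟨ε, hε, hsub⟩ := mem_nhdsGT_iff_exists_Ioc_subset.1
      ((not_frequently.1 hA).and e.ev_mem)
    have hεδ : ε ≤ δ := (hsub ⟨hε, le_rfl⟩).2.2.le
    have hc : ContinuousOn e.φ (Ioo 0 ε) :=
      e.contφ.mono (Ioo_subset_Icc_self.trans (Icc_subset_Icc_right hεδ))
    refine ⟨ε, hε, ?_⟩
    rcases isPreconnected_Ioo.mapsTo_Ioi_or_Iio hc
      (fun τ hτ => (hsub (Ioo_subset_Ioc_self hτ)).1) with h1 | h1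
    · refine bang hX hX' h (hεδ.trans hδ.2) (c := 1) ?_
      filter_upwards [hp.pos] with τ h2 hτ using h2 ⟨hτ.1, hτ.2.trans_le hεδ⟩ (h1 hτ)
    · refine bang hX hX' h (hεδ.trans hδ.2) (c := 0) ?_
      filter_upwards [hp.neg] with τ h2 hτ using h2 ⟨hτ.1, hτ.2.trans_le hεδ⟩ (h1 hτ)

end Pool.Agent.Lib.MP_f4f7c0_an
end
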