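import Mathlib

/-! Definitions used in the statement: vector fields on a manifold modelled on `E`, the Whitney
topology, admissible and time-optimal trajectories. -/

namespace Pool.Agent.Lib.MP_f4f7c0_an.St

open Set Filter Topology MeasureTheory
open scoped Manifold ContDiff

variable (E : Type) [NormedAddCommGroup E] [NormedSpace ℝ E]
  (M : Type*) [TopologicalSpace M] [ChartedSpace E M]

/-- Smooth vector fields on `M`. -/
abbrev VF [IsManifold 𝓘(ℝ, E) ∞ M] :=
  ContMDiffSection 𝓘(ℝ, E) E ∞ (TangentSpace 𝓘(ℝ, E) : M → Type)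

variable {M}

/-- The chart of the atlas at `c`. -/
noncomputable def chart (c : M) : M → E := extChartAt 𝓘(ℝ, E) c

/-- The inverse of the chart at `c`. -/
noncomputable def chartInv (c : M) : E → M := (extChartAt 𝓘(ℝ, E) c).symm

variable {E}

/-- The coordinates in the chart at `c` of a tangent vector at `x`. -/
noncomputable def coords (c x : M) (v : TangentSpace 𝓘(ℝ, E) x) : E :=
  mfderiv 𝓘(ℝ, E) 𝓘(ℝ, E) (chart E c) x v

/-- The curve `q` has velocity `v` at time `t`. -/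
def HasVelocity (q : ℝ → M) (t : ℝ) (v : TangentSpace 𝓘(ℝ, E) (q t)) : Prop :=
  HasMFDerivAt 𝓘(ℝ, ℝ) 𝓘(ℝ, E) q t (ContinuousLinearMap.toSpanSingleton ℝ v)

variable (E) in
/-- The times at which the curve `q` on `[0, T]` is not smooth. -/
def switchingTimes (q : ℝ → M) (T : ℝ) : Set ℝ :=
  {t ∈ Icc 0 T | ¬ ∃ s ∈ 𝓝[Icc 0 T] t, ContMDiffOn 𝓘(ℝ, ℝ) 𝓘(ℝ, E) ∞ q s}

variable [IsManifold 𝓘(ℝ, E) ∞ M]

/-- The expression of a vector field in the chart at `c`. -/
noncomputable def chartRep (c : M) (X : VF E M) (y : E) : E :=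
  coords c (chartInv E c y) (X (chartInv E c y))

/-- Basic neighbourhood of `X` in the strong `C^k` topology. -/
def whitneyNbhd (X : VF E M) (k : ℕ) (c : ℕ → M) (K : ℕ → Set M) (ε : ℕ → ℝ) : Set (VF E M) :=
  {Y | ∀ i, ∀ x ∈ K i, ∀ j ≤ k,
    ‖iteratedFDeriv ℝ j (chartRep (c i) Y - chartRep (c i) X) (chart E (c i) x)‖ < ε i}

variable (E M) in
/-- The Whitney (strong) `C^∞` topology on smooth vector fields. -/
@[reducible] def whitneyTop : TopologicalSpace (VF E M) :=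
  TopologicalSpace.generateFrom {U | ∃ X k c K ε, (∀ i, IsCompact (K i)) ∧
    (∀ i, K i ⊆ (chartAt E (c i)).source) ∧ LocallyFinite K ∧ (∀ i, 0 < ε i) ∧
    U = whitneyNbhd X k c K ε}

/-- The vector `f + a g` at `x`. -/
noncomputable def field (f g : VF E M) (a : ℝ) (x : M) : TangentSpace 𝓘(ℝ, E) x :=
  f x + a • g x

/-- `q` is an admissible trajectory on `[0, T]` of `q' = f + u g` for the control `u`. -/
def Admissible (f g : VF E M) (u : ℝ → ℝ) (q : ℝ → M) (T : ℝ) : Prop :=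
  0 ≤ T ∧ Measurable u ∧ (∀ t, |u t| ≤ 1) ∧ ContinuousOn q (Icc 0 T) ∧
  (∀ t ∈ Icc 0 T, ∃ C, ∃ s ∈ 𝓝[Icc 0 T] t, LipschitzOnWith C (chart E (q t) ∘ q) s) ∧
  ∀ᵐ t, t ∈ Ioo 0 T → HasVelocity q t (field f g (u t) (q t))

/-- `q` is a time-optimal trajectory on `[0, T]`. -/
def TimeOptimal (f g : VF E M) (q : ℝ → M) (T : ℝ) : Prop :=
  (∃ u, Admissible f g u q T) ∧
    ∀ u' q' T', Admissible f g u' q' T' → q' 0 = q 0 → q' T' = q T → T ≤ T'

end Pool.Agent.Lib.MP_f4f7c0_an.St
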