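import Pool.Agent.Lib.MP_f4f7c0_an.UGlue

-- part Pool.Agent.Lib.MP_f4f7c0_an.ULong2
section

/-! Extremals that stay near a zero of the first field. -/

namespace Pool.Agent.Lib.MP_f4f7c0_an

open Set Filter Topology MeasureTheory

/-- A square norm of the covector. -/
def Ext.nn (e : Ext) (t : ℝ) : ℝ := e.φ t ^ 2 + e.W t ^ 2 + e.a t ^ 2

namespace ULong2

/-- Homogeneous bounds in terms of the last coordinate. -/
def OO (d : ℕ) (f : (Fin 7 → ℝ) → ℝ) : Prop :=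
  ∃ C, 0 ≤ C ∧ ∀ x : Fin 7 → ℝ, (∀ i, |x i| ≤ x 6) → |f x| ≤ C * x 6 ^ d

variable {d d' : ℕ} {f g : (Fin 7 → ℝ) → ℝ}

theorem OO.co (i : Fin 7) : OO 1 fun x => x i := ⟨1, zero_le_one, fun x h => by simpa using h i⟩

theorem OO.add (h : OO d f) (h' : OO d g) : OO d fun x => f x + g x := by
  obtain ⟨C, hC, h⟩ := h
  obtain ⟨C', hC', h'⟩ := h'
  exact ⟨C + C', add_nonneg hC hC', fun x hx =>
    (abs_add_le _ _).trans (by linarith [h x hx, h' x hx])⟩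

theorem OO.cmul (c : ℝ) (h : OO d f) : OO d fun x => c * f x := by
  obtain ⟨C, hC, h⟩ := h
  exact ⟨|c| * C, by positivity, fun x hx => by
    rw [abs_mul, mul_assoc]
    exact mul_le_mul_of_nonneg_left (h x hx) (abs_nonneg c)⟩

theorem OO.sub (h : OO d f) (h' : OO d g) : OO d fun x => f x - g x := by
  simpa [sub_eq_add_neg] using h.add (h'.cmul (-1))

theorem OO.mul (h : OO d f) (h' : OO d' g) : OO (d + d') fun x => f x * g x := by
  obtain ⟨C, hC, h⟩ := h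
  obtain ⟨C', hC', h'⟩ := h'
  refine ⟨C * C', by positivity, fun x hx => ?_⟩
  have := (abs_nonneg _).trans (hx 0)
  rw [abs_mul, pow_add, mul_mul_mul_comm]
  exact mul_le_mul (h x hx) (h' x hx) (abs_nonneg _) (by positivity)

theorem OO.use (h : OO d f) : ∃ C, 0 ≤ C ∧ ∀ a b c p q r y : ℝ, |a| ≤ y → |b| ≤ y → |c| ≤ y →
    |p| ≤ y → |q| ≤ y → |r| ≤ y → |f ![a, b, c, p, q, r, y]| ≤ C * y ^ d := by
  obtain ⟨C, hC, h⟩ := h
  refine ⟨C, hC, fun a b c p q r y h0 h1 h2 h3 h4 h5 => h ![a, b, c, p, q, r, y] fun i => ?_⟩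
  have := (abs_nonneg _).trans h0
  fin_cases i
  exacts [h0, h1, h2, h3, h4, h5, (abs_of_nonneg this).le]

theorem root_pos (P r : ℝ) (hr : r < 0) : ∃ s, 0 < s ∧ s ^ 3 + P * s + r = 0 := by
  obtain ⟨M, hM⟩ : ∃ M, M = 1 + |P| + |r| := ⟨_, rfl⟩
  have h1 := abs_nonneg P
  have h2 := abs_nonneg r
  have h3 : 0 ≤ M ^ 3 + P * M + r := by
    have e1 : M ^ 2 ≤ M ^ 3 := pow_le_pow_right₀ (by linarith) (by norm_num)
    have e2 : -|P| * M ≤ P * M := mul_le_mul_of_nonneg_right (neg_abs_le P) (by linarith)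
    have e3 : 1 * (1 + |r|) ≤ M * (M - |P|) :=
      mul_le_mul (by linarith) (by linarith) (by linarith) (by linarith)
    nlinarith [neg_abs_le r]
  obtain ⟨s, hs, e⟩ := intermediate_value_Icc (show (0 : ℝ) ≤ M by linarith)
    (f := fun s => s ^ 3 + P * s + r) (by fun_prop) (show (0 : ℝ) ∈ Icc _ _ from
      ⟨by simpa using hr.le, h3⟩)
  refine ⟨s, hs.1.lt_of_ne ?_, e⟩
  rintro rfl
  simp at e
  linarith

theorem root {c₀ c₁ c₂ : ℝ} (hf : (c₂ / 3) ^ 3 - c₂ * (c₂ / 3) ^ 2 - c₁ * (c₂ / 3) - c₀ ≠ 0) :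
    ∃ μ : ℝ, μ ^ 3 - c₂ * μ ^ 2 - c₁ * μ - c₀ = 0 ∧ 0 < 3 * μ ^ 2 - 2 * c₂ * μ - c₁ ∧
      3 * μ - c₂ ≠ 0 := by
  rcases hf.lt_or_gt with h | h
  · obtain ⟨s, hs, e⟩ := root_pos (-c₁ - c₂ ^ 2 / 3) _ h
    refine ⟨s + c₂ / 3, by linarith, ?_, by linarith⟩
    refine pos_of_mul_pos_right (a := s) ?_ hs.le
    nlinarith [pow_pos hs 3]
  · obtain ⟨s, hs, e⟩ := root_pos (-c₁ - c₂ ^ 2 / 3) _ (neg_neg_of_pos h)
    refine ⟨-s + c₂ / 3, by linarith, ?_, by linarith⟩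
    refine pos_of_mul_pos_right (a := s) ?_ hs.le
    nlinarith [pow_pos hs 3]

/-- First linear form. -/
def U (μ x y : ℝ) : ℝ := y - μ * x

/-- Second linear form. -/
def V (μ x y z : ℝ) : ℝ := z - 2 * μ * y + μ ^ 2 * x

/-- Third linear form. -/
def Wf (s₀ s₁ x y z : ℝ) : ℝ := z - s₁ * y - s₀ * x

/-- The energy. -/
def Ef (A k u v : ℝ) : ℝ := A * (u * u) + k * (u * v) + v * v

/-- The derivative of the energy. -/
def Ed (A k u v u' v' : ℝ) : ℝ :=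
  A * (u' * u + u * u') + k * (u' * v + u * v') + (v' * v + v * v')

/-- The derivative of the quotient. -/
noncomputable def Dq (σ E P E' P' : ℝ) : ℝ :=
  (σ * (E' - P') * (E + P) - σ * (E - P) * (E' + P')) / (E + P) ^ 2

theorem OO.U (μ : ℝ) (h : OO d f) (h' : OO d g) : OO d fun x => U μ (f x) (g x) :=
  h'.sub (h.cmul μ)

theorem OO.V {l : (Fin 7 → ℝ) → ℝ} (μ : ℝ) (h : OO d f) (h' : OO d g) (h'' : OO d l) :
    OO d fun x => V μ (f x) (g x) (l x) :=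
  (h''.sub (h'.cmul (2 * μ))).add (h.cmul (μ ^ 2))

theorem OO.Wf {l : (Fin 7 → ℝ) → ℝ} (s₀ s₁ : ℝ) (h : OO d f) (h' : OO d g) (h'' : OO d l) :
    OO d fun x => Wf s₀ s₁ (f x) (g x) (l x) :=
  (h''.sub (h'.cmul s₁)).sub (h.cmul s₀)

theorem alg {μ s₀ s₁ k Q σ Λ : ℝ} (hQ : Q = μ ^ 2 - s₁ * μ - s₀) (hk : k = 2 * μ - s₁)
    (hQ0 : 0 < Q) (hσ : |σ| = 1) (hσk : 0 < σ * k) (hΛ : 0 ≤ Λ) :
    ∃ κ > 0, ∃ C ≥ 0, ∀ φ W a y E P : ℝ, |φ| ≤ y → |W| ≤ y → |a| ≤ y →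
      y ^ 2 = Λ * (φ ^ 2 + W ^ 2 + a ^ 2) → 0 < φ ^ 2 + W ^ 2 + a ^ 2 →
      E = Ef (Q + k ^ 2 / 2) k (U μ φ W) (V μ φ W a) → P = Wf s₀ s₁ φ W a * Wf s₀ s₁ φ W a →
      0 < E + P ∧
      (∀ p q r, |p| ≤ y → |q| ≤ y → |r| ≤ y →
        Dq σ E P (Ed (Q + k ^ 2 / 2) k (U μ φ W) (V μ φ W a) (U μ p q) (V μ p q r))
          (Wf s₀ s₁ p q r * Wf s₀ s₁ φ W a + Wf s₀ s₁ φ W a * Wf s₀ s₁ p q r) ≤ C) ∧
      (∀ α θ, |α - (s₁ + μ) * a - (s₀ - μ * s₁) * W - (-μ * s₀) * φ| ≤ θ * y →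
        |σ * (E - P) / (E + P)| ≤ 1 / 2 →
        Dq σ E P (Ed (Q + k ^ 2 / 2) k (U μ φ W) (V μ φ W a) (U μ W a) (V μ W a α))
          (Wf s₀ s₁ W a α * Wf s₀ s₁ φ W a + Wf s₀ s₁ φ W a * Wf s₀ s₁ W a α) ≤
            -2 * κ + C * θ) ∧
      ∀ ζ, φ = 0 → |W| ≤ ζ * y → |σ * (E - P) / (E + P)| ≤ C * ζ := by
  have ou := (OO.co 0).U μ (OO.co 1)
  have ov := (OO.co 0).V μ (OO.co 1) (OO.co 2)
  have ow := (OO.co 0).Wf s₀ s₁ (OO.co 1) (OO.co 2)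
  have ou' := (OO.co 3).U μ (OO.co 4)
  have ov' := (OO.co 3).V μ (OO.co 4) (OO.co 5)
  have ow' := (OO.co 3).Wf s₀ s₁ (OO.co 4) (OO.co 5)
  have oφ := (((OO.co 2).sub (OO.co 1)).sub ((OO.co 0).cmul (k / 2))).cmul Q⁻¹
  have oW := (OO.co 0).add (oφ.cmul μ)
  have oa := ((OO.co 2).add (oW.cmul s₁)).add (oφ.cmul s₀)
  obtain ⟨C1, hC1, b1⟩ := (((oφ.mul oφ).add (oW.mul oW)).add (oa.mul oa)).use
  obtain ⟨C2, hC2, b2⟩ := (((((ou'.mul ou).add (ou.mul ou')).cmul (Q + k ^ 2 / 2)).add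
    (((ou'.mul ov).add (ou.mul ov')).cmul k)).add ((ov'.mul ov).add (ov.mul ov'))).use
  obtain ⟨C3, hC3, b3⟩ := ((ow'.mul ow).add (ow.mul ow')).use
  obtain ⟨C4, hC4, b4⟩ := (ow.mul ((ow.mul ((ou.cmul k).add (ov.cmul 2))).sub
    (((((ou.mul ou).cmul (Q + k ^ 2 / 2)).add ((ou.mul ov).cmul k)).add
      (ov.mul ov)).cmul 2))).use
  obtain ⟨C5, hC5, b5⟩ := (((OO.co 1).cmul (Q + k ^ 2 / 2 - 2 * μ * k + 4 * μ ^ 2 - s₁ ^ 2)).add
    ((OO.co 2).cmul (k - 4 * μ + 2 * s₁))).use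
  simp only [Matrix.cons_val, Nat.reduceAdd] at b1 b2 b3 b4 b5
  obtain ⟨M, hM⟩ : ∃ M, M = Λ * (C1 * (1 + Q⁻¹)) := ⟨_, rfl⟩
  have hM0 : 0 ≤ M := by rw [hM]; positivity
  obtain ⟨c, hc⟩ : ∃ c, c = 2 + k ^ 2 / Q := ⟨_, rfl⟩
  have hc0 : 0 < c := by rw [hc]; positivity
  refine ⟨σ * k / (16 * c), by positivity, 2 * (C2 + C3) * M + 2 * C4 * M ^ 2 + C5 * M,
    by positivity, fun φ W a y E P h1 h2 h3 hy hn hE hP => ?_⟩
  have hy0 : 0 < y := by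
    refine ((abs_nonneg _).trans h1).lt_of_ne ?_
    rintro rfl
    rw [abs_nonpos_iff] at h1 h2 h3
    simp [h1, h2, h3] at hn
  obtain ⟨u, hu⟩ : ∃ u, u = U μ φ W := ⟨_, rfl⟩
  obtain ⟨v, hv⟩ : ∃ v, v = V μ φ W a := ⟨_, rfl⟩
  obtain ⟨w, hw⟩ : ∃ w, w = Wf s₀ s₁ φ W a := ⟨_, rfl⟩
  have hE1 : E = (Q + k ^ 2 / 4) * u ^ 2 + (v + k * u / 2) ^ 2 := by
    rw [hE, ← hu, ← hv, Ef]; ring
  have hP1 : P = w ^ 2 := by rw [hP, hw, sq]
  have hE0 : 0 ≤ E := by rw [hE1]; positivity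
  have hP0 : 0 ≤ P := by rw [hP1]; positivity
  have hn2 : φ ^ 2 + W ^ 2 + a ^ 2 ≤ C1 * (1 + Q⁻¹) * (E + P) := by
    have e0 : 0 ≤ Q⁻¹ * (E + P) := by positivity
    have e1 : ∀ x : ℝ, x ^ 2 ≤ (1 + Q⁻¹) * (E + P) → |x| ≤ √((1 + Q⁻¹) * (E + P)) :=
      fun x h => Real.abs_le_sqrt h
    have e2 : u ^ 2 ≤ Q⁻¹ * (E + P) := by
      rw [← div_eq_inv_mul, le_div_iff₀ hQ0]
      linarith [sq_nonneg (v + k * u / 2), sq_nonneg (k * u)]
    have e3 : 0 ≤ (Q + k ^ 2 / 4) * u ^ 2 := by positivity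
    have := b1 u (v + k * u / 2) w 0 0 0 _ (e1 _ (by linarith)) (e1 _ (by linarith))
      (e1 _ (by linarith)) (by simp) (by simp) (by simp)
    have e4 : Q⁻¹ * (w - (v + k * u / 2) - k / 2 * u) = φ := by
      rw [inv_mul_eq_iff_eq_mul₀ hQ0.ne', hu, hv, hw, hQ, hk, U, V, Wf]; ring
    have e5 : u + μ * φ = W := by rw [hu, U]; ring
    have e6 : w + s₁ * W + s₀ * φ = a := by rw [hw, Wf]; ring
    rw [e4, e5, e6, Real.sq_sqrt (by positivity)] at this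
    linarith [le_abs_self (φ * φ + W * W + a * a)]
  have hN : 0 < E + P := by
    by_contra h
    have : E + P = 0 := by linarith
    rw [this] at hn2
    linarith
  have hy2 : y ^ 2 ≤ M * (E + P) := by
    rw [hy, hM, mul_assoc]
    exact mul_le_mul_of_nonneg_left hn2 hΛ
  have hσ' : ∀ x, σ * x ≤ |x| := fun x => by
    have := le_abs_self (σ * x)
    rwa [abs_mul, hσ, one_mul] at this
  have p1 : 0 ≤ 2 * (C2 + C3) * M := by positivity
  have p2 : 0 ≤ 2 * C4 * M ^ 2 := by positivity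
  have p3 : 0 ≤ C5 * M := by positivity
  refine ⟨hN, fun p q r h4 h5 h6 => ?_, fun α θ hρ hΓ => ?_, fun ζ h0 hW => ?_⟩
  · have e1 := (b2 φ W a p q r y h1 h2 h3 h4 h5 h6).trans (mul_le_mul_of_nonneg_left hy2 hC2)
    have e2 := (b3 φ W a p q r y h1 h2 h3 h4 h5 h6).trans (mul_le_mul_of_nonneg_left hy2 hC3)
    change |Ed (Q + k ^ 2 / 2) k (U μ φ W) (V μ φ W a) (U μ p q) (V μ p q r)| ≤ _ at e1
    generalize Ed (Q + k ^ 2 / 2) k (U μ φ W) (V μ φ W a) (U μ p q) (V μ p q r) = E' at *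
    generalize Wf s₀ s₁ p q r * Wf s₀ s₁ φ W a + Wf s₀ s₁ φ W a * Wf s₀ s₁ p q r = P' at *
    rw [Dq, div_le_iff₀ (by positivity)]
    have e3 := hσ' (2 * (E' * P - E * P'))
    have e4 := abs_sub (E' * P) (E * P')
    rw [abs_mul, abs_mul, abs_of_nonneg hE0, abs_of_nonneg hP0] at e4
    rw [abs_mul, abs_two] at e3
    have e5 : |E'| * P ≤ C2 * (M * (E + P)) * (E + P) :=
      mul_le_mul e1 (by linarith) hP0 (by positivity)
    have e6 : E * |P'| ≤ (E + P) * (C3 * (M * (E + P))) :=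
      mul_le_mul (by linarith) e2 (abs_nonneg _) hN.le
    have e7 : 0 ≤ (2 * C4 * M ^ 2 + C5 * M) * (E + P) ^ 2 := by positivity
    linarith
  · obtain ⟨ρ, hρ'⟩ : ∃ ρ, ρ = α - (s₁ + μ) * a - (s₀ - μ * s₁) * W - (-μ * s₀) * φ := ⟨_, rfl⟩
    rw [← hρ'] at hρ
    have e1 := b4 φ W a 0 0 0 y h1 h2 h3 (by simpa using hy0.le) (by simpa using hy0.le)
      (by simpa using hy0.le)
    rw [← hu, ← hv, ← hw] at e1
    obtain ⟨T, hT⟩ : ∃ T, T = w * (w * (k * u + 2 * v) -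
      2 * ((Q + k ^ 2 / 2) * (u * u) + k * (u * v) + v * v)) := ⟨_, rfl⟩
    rw [← hT] at e1
    have d1 : U μ W a = μ * u + v := by rw [hu, hv, U, U, V]; ring
    have d2 : V μ W a α = μ * v - k * v - Q * u + ρ := by
      rw [hu, hv, hρ', hQ, hk, U, V, V]; ring
    have d3 : Wf s₀ s₁ W a α = μ * w + ρ := by rw [hw, hρ', Wf, Wf]; ring
    have e2 : σ * (Ed (Q + k ^ 2 / 2) k u v (μ * u + v) (μ * v - k * v - Q * u + ρ) -
        ((μ * w + ρ) * w + w * (μ * w + ρ))) * (E + P) - σ * (E - P) *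
        (Ed (Q + k ^ 2 / 2) k u v (μ * u + v) (μ * v - k * v - Q * u + ρ) +
        ((μ * w + ρ) * w + w * (μ * w + ρ))) =
        -2 * (σ * k * ((v ^ 2 + Q * u ^ 2) * P)) + σ * (2 * (ρ * T)) := by
      rw [hT, hE1, hP1, Ed]; ring
    rw [← hu, ← hv, ← hw, d1, d2, d3, Dq, div_le_iff₀ (by positivity), e2]
    rw [abs_div, abs_mul, hσ, one_mul, abs_of_pos hN, div_le_iff₀ hN, abs_le] at hΓ
    have e3 : E ≤ c * (v ^ 2 + Q * u ^ 2) := by
      have : k ^ 2 / Q * (Q * u ^ 2) = k ^ 2 * u ^ 2 := by field_simp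
      have h7 : 0 ≤ k ^ 2 / Q * v ^ 2 := by positivity
      have h8 : 0 ≤ Q * u ^ 2 := by positivity
      rw [hE1, hc]
      linarith [sq_nonneg (v - k * u), sq_nonneg v]
    have e4 : (E + P) / 4 * ((E + P) / 4) ≤ c * (v ^ 2 + Q * u ^ 2) * P :=
      mul_le_mul (by linarith) (by linarith) (by positivity) (by positivity)
    have e5 : σ * k / (16 * c) * (E + P) ^ 2 ≤ σ * k * ((v ^ 2 + Q * u ^ 2) * P) := by
      rw [div_mul_eq_mul_div, mul_div_assoc]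
      refine mul_le_mul_of_nonneg_left ?_ hσk.le
      rw [div_le_iff₀ (by positivity)]
      linarith
    have hθ : 0 ≤ θ * y := (abs_nonneg _).trans hρ
    have hθ0 : 0 ≤ θ := le_of_mul_le_mul_right (by rwa [zero_mul]) hy0
    have e6 := hσ' (2 * (ρ * T))
    rw [abs_mul, abs_two, abs_mul] at e6
    have e7 : |ρ| * |T| ≤ θ * y * (C4 * y ^ 3) := mul_le_mul hρ e1 (abs_nonneg _) hθ
    have e8 : θ * C4 * (y ^ 2) ^ 2 ≤ θ * C4 * (M * (E + P)) ^ 2 :=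
      mul_le_mul_of_nonneg_left (pow_le_pow_left₀ (by positivity) hy2 2) (by positivity)
    have e9 : 0 ≤ (2 * (C2 + C3) * M + C5 * M) * θ * (E + P) ^ 2 := by positivity
    linarith
  · have e1 := b5 φ W a 0 0 0 y h1 h2 h3 (by simpa using hy0.le) (by simpa using hy0.le)
      (by simpa using hy0.le)
    have e2 : E - P = W * ((Q + k ^ 2 / 2 - 2 * μ * k + 4 * μ ^ 2 - s₁ ^ 2) * W +
        (k - 4 * μ + 2 * s₁) * a) := by
      rw [hE, hP, h0, Ef, U, V, Wf]; ring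
    have hζ : 0 ≤ ζ * y := (abs_nonneg _).trans hW
    have hζ0 : 0 ≤ ζ := le_of_mul_le_mul_right (by rwa [zero_mul]) hy0
    rw [abs_div, abs_mul, hσ, one_mul, abs_of_pos hN, div_le_iff₀ hN, e2, abs_mul]
    have e3 := mul_le_mul hW e1 (abs_nonneg _) hζ
    have e4 : ζ * C5 * y ^ 2 ≤ ζ * C5 * (M * (E + P)) :=
      mul_le_mul_of_nonneg_left hy2 (by positivity)
    have e5 : 0 ≤ (2 * (C2 + C3) * M + 2 * C4 * M ^ 2) * ζ * (E + P) := by positivity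
    linarith

theorem small (Λ : ℝ) : ∃ L ≥ 0, ∀ e : Ext,
    (∀ t ∈ Icc 0 e.δ, 0 < e.nn t ∧ ∃ y, y ^ 2 = Λ * e.nn t ∧ |e.φ t| ≤ y ∧ |e.W t| ≤ y ∧
      |e.a t| ≤ y ∧ |e.b t| ≤ y ∧ |e.β t| ≤ y ∧ |e.α t| ≤ y) → ∀ η r t : ℝ, 0 < r → L * r ≤ η →
      r ≤ t → t + r ≤ e.δ → e.φ t = 0 → e.z t - e.z (t - r) < r → e.z (t + r) - e.z t < r →
      e.W t ^ 2 ≤ η * e.nn t := by
  have on := (((OO.co 0).mul (OO.co 0)).add ((OO.co 1).mul (OO.co 1))).add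
    ((OO.co 2).mul (OO.co 2))
  obtain ⟨C, hC, b⟩ := (((((OO.co 4).mul (OO.co 1)).cmul 2).mul on).sub
    (((OO.co 1).mul (OO.co 1)).mul ((((((OO.co 1).mul (OO.co 0)).add
      ((OO.co 4).mul (OO.co 1))).add ((OO.co 5).mul (OO.co 2)))).cmul 2))).use
  simp only [Matrix.cons_val, Nat.reduceAdd] at b
  refine ⟨C * Λ ^ 2, by positivity, fun e h η r t hr hL h1 h2 h0 z1 z2 => ?_⟩
  by_contra hW
  have dn : DD e.m e.nn (fun τ => 2 * (e.W τ * e.φ τ + e.a τ * e.W τ + e.α τ * e.a τ))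
      (fun τ => 2 * (e.W τ * e.φ τ + e.b τ * e.W τ + e.β τ * e.a τ)) 0 e.δ := by
    have := (((e.dφ.mul e.dφ).add ((e.dh []).mul (e.dh []))).add
      ((e.dh [true]).mul (e.dh [true]))).congr (Gp := fun τ => 2 * (e.W τ * e.φ τ +
        e.a τ * e.W τ + e.α τ * e.a τ)) (Gm := fun τ => 2 * (e.W τ * e.φ τ + e.b τ * e.W τ +
        e.β τ * e.a τ)) (fun τ _ => by ring) fun τ _ => by rw [e.sym0]; ring
    convert this using 2
    rw [Ext.nn]
    ring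
  have dq := ((e.dh []).mul (e.dh [])).div dn e.δpos.le fun τ hτ => (h τ hτ).1
  have key : ∀ τ ∈ Ioo 0 e.δ, ∀ q l : ℝ, (q = e.a τ ∧ l = e.α τ) ∨ (q = e.b τ ∧ l = e.β τ) →
      |((q * e.W τ + e.W τ * q) * e.nn τ - e.W τ * e.W τ *
        (2 * (e.W τ * e.φ τ + q * e.W τ + l * e.a τ))) / e.nn τ ^ 2| ≤ C * Λ ^ 2 := by
    intro τ hτ q l hq
    obtain ⟨n0, y, y0, y1, y2, y3, y4, y5, y6⟩ := h τ (Ioo_subset_Icc_self hτ)
    have := b _ _ _ _ q l y y1 y2 y3 y1 (by rcases hq with h | h <;> rwa [h.1])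
      (by rcases hq with h | h <;> rwa [h.2])
    rw [abs_div, abs_of_pos (pow_pos n0 2), div_le_iff₀ (pow_pos n0 2)]
    rw [show y ^ 4 = (y ^ 2) ^ 2 by ring, y0] at this
    refine le_of_eq_of_le (congrArg _ ?_) (this.trans_eq (by ring))
    rw [Ext.nn]
    ring
  have ne : ∀ τ ∈ Icc (t - r) (t + r), e.W τ ≠ 0 := by
    intro τ hτ h3
    have := dq.abs_le (B := C * Λ ^ 2) (Eventually.of_forall fun τ hτ => by
      have a1 := key τ hτ _ _ (Or.inl ⟨rfl, rfl⟩)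
      have a2 := key τ hτ _ _ (Or.inr ⟨rfl, rfl⟩)
      have m0 := e.m0 τ
      have m1 := sub_nonneg.2 (e.m1 τ)
      refine (abs_add_le _ _).trans ?_
      rw [abs_mul, abs_mul, abs_of_nonneg m0, abs_of_nonneg m1]
      linarith [mul_le_mul_of_nonneg_left a1 m0, mul_le_mul_of_nonneg_left a2 m1])
      (u := τ) (v := t) ⟨by linarith [hτ.1], by linarith [hτ.2]⟩ ⟨by linarith, by linarith⟩
    have n0 := (h t ⟨by linarith, by linarith⟩).1
    rw [show e.h [] τ = 0 from h3, mul_zero, zero_div, sub_zero] at this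
    have e1 : |t - τ| ≤ r := abs_le.2 ⟨by linarith [hτ.2], by linarith [hτ.1]⟩
    have e2 := (le_abs_self _).trans (this.trans
      ((mul_le_mul_of_nonneg_left e1 (by positivity)).trans hL))
    rw [div_le_iff₀ n0, ← sq] at e2
    exact hW e2
  have cW : ContinuousOn e.W (Icc (t - r) (t + r)) :=
    (e.conth []).mono (Icc_subset_Icc (by linarith) h2)
  have cφ : ContinuousOn e.φ (Icc (t - r) (t + r)) :=
    e.contφ.mono (Icc_subset_Icc (by linarith) h2)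
  have hd : ∀ τ ∈ interior (Icc (t - r) (t + r)), deriv e.φ τ = e.W τ := fun τ hτ => by
    rw [interior_Icc] at hτ
    exact (e.hasDeriv ⟨by linarith [hτ.1], by linarith [hτ.2]⟩).deriv
  have ht : t ∈ Icc (t - r) (t + r) := ⟨by linarith, by linarith⟩
  have zz : ∀ p q, 0 ≤ p → p ≤ q → q ≤ e.δ → (∀ τ ∈ Ioo p q, e.φ τ < 0) →
      q - p ≤ e.z q - e.z p := fun p q a1 a2 a3 a4 => by
    have := Ext.anti_neg ((DD.id.sub e.dz).mono a1 a2 a3) a1 a2 a3 a4 fun _ _ => by simp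
    linarith
  rcases isPreconnected_Icc.mapsTo_Ioi_or_Iio cW ne with s1 | s1
  · have mo := strictMonoOn_of_deriv_pos (convex_Icc _ _) cφ fun τ hτ => by
      rw [hd τ hτ]
      exact s1 (interior_subset hτ)
    have := zz (t - r) t (by linarith) (by linarith) (by linarith) fun τ hτ =>
      h0 ▸ mo ⟨hτ.1.le, by linarith [hτ.2]⟩ ht hτ.2
    linarith
  · have mo := strictAntiOn_of_deriv_neg (convex_Icc _ _) cφ fun τ hτ => by
      rw [hd τ hτ]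
      exact s1 (interior_subset hτ)
    have := zz t (t + r) (by linarith) (by linarith) h2 fun τ hτ =>
      h0 ▸ mo ht ⟨by linarith [hτ.1], hτ.2.le⟩ hτ.1
    linarith

theorem barrier {G : ℝ → ℝ} {s t η κ θ : ℝ} (hst : s ≤ t) (hc : ContinuousOn G (Icc s t))
    (hκ : 0 ≤ κ) (h : ∀ p q, s ≤ p → p ≤ q → q ≤ t → (∀ τ ∈ Ioo p q, |G τ| ≤ 1 / 2) →
      G q ≤ G p + θ - κ * (q - p)) (h1 : |G s| ≤ η) (h2 : |G t| ≤ η) (h3 : η + θ < 1 / 4)
    (h4 : 2 * η + θ < κ * (t - s)) : False := by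
  rw [abs_le] at h1 h2
  have key : ∀ p ∈ Icc s t, G p ≤ η → (∀ τ ∈ Ioo p t, -(1 / 2) ≤ G τ) →
      G t ≤ G p + θ - κ * (t - p) := by
    intro p hp a1 a2
    by_cases hZ : (Icc p t ∩ G ⁻¹' Ici (1 / 2)).Nonempty
    · obtain ⟨q, hq, hq'⟩ := (isCompact_Icc.of_isClosed_subset
        ((hc.mono (Icc_subset_Icc_left hp.1)).preimage_isClosed_of_isClosed isClosed_Icc
          isClosed_Ici) inter_subset_left).exists_isLeast hZ
      have := h p q hp.1 hq.1.1 hq.1.2 fun τ hτ => abs_le.2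
        ⟨a2 τ ⟨hτ.1, hτ.2.trans_le hq.1.2⟩, le_of_not_ge fun a =>
          (hq' ⟨⟨hτ.1.le, hτ.2.le.trans hq.1.2⟩, a⟩).not_gt hτ.2⟩
      have a3 : 1 / 2 ≤ G q := hq.2
      have := mul_nonneg hκ (sub_nonneg.2 hq.1.1)
      linarith
    · exact h p t hp.1 hp.2 le_rfl fun τ hτ => abs_le.2
        ⟨a2 τ hτ, le_of_not_ge fun a => hZ ⟨τ, Ioo_subset_Icc_self hτ, a⟩⟩
  by_cases hZ : (Icc s t ∩ G ⁻¹' Iic (-(1 / 4))).Nonempty
  · obtain ⟨q, hq, hq'⟩ := (isCompact_Icc.of_isClosed_subset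
      (hc.preimage_isClosed_of_isClosed isClosed_Icc isClosed_Iic)
        inter_subset_left).exists_isGreatest hZ
    have a3 : G q ≤ -(1 / 4) := hq.2
    have := key q hq.1 (by linarith) fun τ hτ => le_of_not_ge fun a =>
      (hq' ⟨⟨hq.1.1.trans hτ.1.le, hτ.2.le⟩, show G τ ≤ _ by linarith⟩).not_gt hτ.1
    have := mul_nonneg hκ (sub_nonneg.2 hq.1.2)
    linarith
  · have := key s ⟨le_rfl, hst⟩ h1.2 fun τ hτ => le_of_not_ge fun a =>
      hZ ⟨τ, Ioo_subset_Icc_self hτ, show G τ ≤ _ by linarith⟩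
    linarith

end ULong2

open ULong2 in
theorem long2 {K c₀ c₁ c₂ δ₁ : ℝ}
    (hf : (c₂ / 3) ^ 3 - c₂ * (c₂ / 3) ^ 2 - c₁ * (c₂ / 3) - c₀ ≠ 0) (hδ : 0 < δ₁) :
    ∃ ε > 0, ∀ e : Ext,
      (∀ t ∈ Icc 0 e.δ, 0 < e.nn t ∧ e.b t ^ 2 ≤ K * e.nn t ∧ e.β t ^ 2 ≤ K * e.nn t ∧
        (e.α t - c₂ * e.a t - c₁ * e.W t - c₀ * e.φ t) ^ 2 ≤ ε * e.nn t) →
      (∀ s t, 0 ≤ s → s ≤ t → t ≤ e.δ → e.z t - e.z s ≤ ε * (1 + (t - s))) →
      ∀ s t, δ₁ ≤ s → s + δ₁ ≤ t → t + δ₁ ≤ e.δ → e.φ s = 0 → e.φ t = 0 → False := by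
  obtain ⟨μ, hμ, hQ, hk⟩ := root hf
  obtain ⟨s₁, hs₁⟩ : ∃ s₁, s₁ = c₂ - μ := ⟨_, rfl⟩
  obtain ⟨s₀, hs₀⟩ : ∃ s₀, s₀ = c₁ + μ * s₁ := ⟨_, rfl⟩
  obtain rfl : c₂ = s₁ + μ := by linarith
  obtain rfl : c₁ = s₀ - μ * s₁ := by linarith
  obtain rfl : c₀ = -μ * s₀ := by linarith
  obtain ⟨k, hk'⟩ : ∃ k, k = 2 * μ - s₁ := ⟨_, rfl⟩
  obtain ⟨Q, hQ'⟩ : ∃ Q, Q = μ ^ 2 - s₁ * μ - s₀ := ⟨_, rfl⟩
  obtain ⟨σ, hσ, hσk⟩ : ∃ σ : ℝ, |σ| = 1 ∧ 0 < σ * k := by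
    rcases hk.lt_or_gt with h | h
    · exact ⟨-1, by simp, by linarith⟩
    · exact ⟨1, by simp, by linarith⟩
  obtain ⟨lam, hl⟩ : ∃ lam, lam = 2 + |K| + |s₁ + μ| + |s₀ - μ * s₁| + |-μ * s₀| := ⟨_, rfl⟩
  have hl1 : 1 + |K| ≤ lam := by
    linarith [abs_nonneg (s₁ + μ), abs_nonneg (s₀ - μ * s₁), abs_nonneg (-μ * s₀)]
  have hK := abs_nonneg K
  obtain ⟨κ, hκ, C, hC, hA⟩ := alg hQ' hk' (by linarith) hσ hσk (sq_nonneg lam)
  obtain ⟨L, hL, hS⟩ := small (lam ^ 2)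
  obtain ⟨ρ, hρ, hρ1, hρ2⟩ : ∃ ρ, 0 < ρ ∧ 2 * ρ ≤ 1 / 4 ∧ 3 * ρ ≤ κ / 2 * δ₁ :=
    ⟨min (1 / 8) (κ / 6 * δ₁), by positivity, by linarith [min_le_left (1 / 8) (κ / 6 * δ₁)],
      by linarith [min_le_right (1 / 8) (κ / 6 * δ₁)]⟩
  obtain ⟨ζ, hζ, hζ1⟩ := exists_pos_mul_lt hρ C
  obtain ⟨r₀, hr₀, hr1⟩ := exists_pos_mul_lt (pow_pos hζ 2) L
  obtain ⟨r, hr, hr2, hr3⟩ : ∃ r, 0 < r ∧ r ≤ δ₁ ∧ L * r ≤ ζ ^ 2 :=
    ⟨min r₀ δ₁, by positivity, min_le_right _ _,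
      (mul_le_mul_of_nonneg_left (min_le_left _ _) hL).trans hr1.le⟩
  obtain ⟨θ₀, hθ₀, hθ1⟩ := exists_pos_mul_lt hκ C
  obtain ⟨θ, hθ, hθ2, hθ3⟩ : ∃ θ, 0 < θ ∧ θ ≤ 1 ∧ C * θ ≤ κ :=
    ⟨min θ₀ 1, by positivity, min_le_right _ _,
      (mul_le_mul_of_nonneg_left (min_le_left _ _) hC).trans hθ1.le⟩
  obtain ⟨ε₁, hε₁, he1⟩ := exists_pos_mul_lt hr (1 + r)
  obtain ⟨ε₂, hε₂, he2⟩ := exists_pos_mul_lt (lt_min hρ (half_pos hκ)) (C + κ)
  obtain ⟨ε, hε, e1, e2, e3, e4⟩ : ∃ ε, 0 < ε ∧ ε ≤ θ ^ 2 ∧ ε * (1 + r) < r ∧ (C + κ) * ε < ρ ∧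
      (C + κ) * ε ≤ κ / 2 := by
    have a1 := min_le_right (θ ^ 2) (min ε₁ ε₂)
    have a2 := mul_le_mul_of_nonneg_left (a1.trans (min_le_left _ _)) (show 0 ≤ 1 + r by linarith)
    have a3 := mul_le_mul_of_nonneg_left (a1.trans (min_le_right _ _))
      (show 0 ≤ C + κ by linarith)
    rw [lt_min_iff] at he2
    exact ⟨min (θ ^ 2) (min ε₁ ε₂), by positivity, min_le_left _ _, by linarith,
      by linarith [he2.1], by linarith [he2.2]⟩
  refine ⟨ε, hε, fun e h hz s t hs hst ht h0 h1 => ?_⟩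
  have hy : ∀ τ ∈ Icc 0 e.δ, ∃ y, y ^ 2 = lam ^ 2 * e.nn τ ∧ |e.φ τ| ≤ y ∧ |e.W τ| ≤ y ∧
      |e.a τ| ≤ y ∧ |e.b τ| ≤ y ∧ |e.β τ| ≤ y ∧ |e.α τ| ≤ y ∧
      |e.α τ - (s₁ + μ) * e.a τ - (s₀ - μ * s₁) * e.W τ - -μ * s₀ * e.φ τ| ≤ θ * y ∧
      (e.W τ ^ 2 ≤ ζ ^ 2 * e.nn τ → |e.W τ| ≤ ζ * y) := by
    intro τ hτ
    obtain ⟨n0, a1, a2, a3⟩ := h τ hτ
    obtain ⟨n, hn, hn2⟩ : ∃ n, 0 ≤ n ∧ n ^ 2 = e.nn τ := ⟨_, Real.sqrt_nonneg _, Real.sq_sqrt n0.le⟩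
    have b0 : n ≤ lam * n := le_mul_of_one_le_left hn (by linarith)
    have b1 : ∀ x c : ℝ, 0 ≤ c → x ^ 2 ≤ c ^ 2 * e.nn τ → |x| ≤ c * n := fun x c hc hx =>
      abs_le_of_sq_le_sq (by rwa [mul_pow, hn2]) (by positivity)
    have b2 : K * e.nn τ ≤ lam ^ 2 * e.nn τ :=
      mul_le_mul_of_nonneg_right (by nlinarith [le_abs_self K]) n0.le
    have b3 := b1 (e.φ τ) 1 zero_le_one (by
      rw [Ext.nn]; linarith [sq_nonneg (e.W τ), sq_nonneg (e.a τ)])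
    have b4 := b1 (e.W τ) 1 zero_le_one (by
      rw [Ext.nn]; linarith [sq_nonneg (e.φ τ), sq_nonneg (e.a τ)])
    have b5 := b1 (e.a τ) 1 zero_le_one (by
      rw [Ext.nn]; linarith [sq_nonneg (e.φ τ), sq_nonneg (e.W τ)])
    have b6 := b1 _ θ hθ.le (a3.trans (mul_le_mul_of_nonneg_right e1 n0.le))
    rw [one_mul] at b3 b4 b5
    refine ⟨lam * n, by rw [mul_pow, hn2], b3.trans b0, b4.trans b0, b5.trans b0,
      b1 _ _ (by linarith) (a1.trans b2), b1 _ _ (by linarith) (a2.trans b2), ?_,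
      b6.trans (mul_le_mul_of_nonneg_left b0 hθ.le), fun hW =>
      (b1 _ _ hζ.le hW).trans (mul_le_mul_of_nonneg_left b0 hζ.le)⟩
    have c1 : ∀ c x : ℝ, |x| ≤ n → -(|c| * n) ≤ c * x ∧ c * x ≤ |c| * n := fun c x hx =>
      abs_le.1 (by rw [abs_mul]; exact mul_le_mul_of_nonneg_left hx (abs_nonneg c))
    have c2 := c1 (s₁ + μ) _ b5
    have c3 := c1 (s₀ - μ * s₁) _ b4
    have c4 := c1 (-μ * s₀) _ b3
    have c5 := abs_le.1 (b6.trans (mul_le_of_le_one_left hn hθ2))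
    have c6 := mul_nonneg hK hn
    rw [hl, abs_le]
    constructor <;> linarith [c2.1, c2.2, c3.1, c3.2, c4.1, c4.2, c5.1, c5.2]
  have hA' := fun τ (hτ : τ ∈ Icc 0 e.δ) y b0 b1 b2 b3 =>
    hA (e.φ τ) (e.W τ) (e.a τ) y _ _ b0 b1 b2 b3 (h τ hτ).1 rfl rfl
  have du := (e.dh []).sub (e.dφ.cmul μ)
  have dv := ((e.dh [true]).sub ((e.dh []).cmul (2 * μ))).add (e.dφ.cmul (μ ^ 2))
  have dw := ((e.dh [true]).sub ((e.dh []).cmul s₁)).sub (e.dφ.cmul s₀)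
  have dE := (((du.mul du).cmul (Q + k ^ 2 / 2)).add ((du.mul dv).cmul k)).add (dv.mul dv)
  have dG := ((dE.sub (dw.mul dw)).cmul σ).div (dE.add (dw.mul dw)) e.δpos.le fun τ hτ => by
    obtain ⟨y, y0, y1, y2, y3, -⟩ := hy τ hτ
    exact (hA' τ hτ y y1 y2 y3 y0).1
  have hz0 : ∀ τ, δ₁ ≤ τ → τ + δ₁ ≤ e.δ → e.φ τ = 0 → e.W τ ^ 2 ≤ ζ ^ 2 * e.nn τ :=
    fun τ a1 a2 a3 => hS e (fun τ hτ => ⟨(h τ hτ).1, by
        obtain ⟨y, y0, y1, y2, y3, y4, y5, y6, -⟩ := hy τ hτ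
        exact ⟨y, y0, y1, y2, y3, y4, y5, y6⟩⟩) _ r τ hr hr3 (by linarith) (by linarith) a3
      ((hz _ _ (by linarith) (by linarith) (by linarith)).trans_lt (by rwa [sub_sub_cancel]))
      ((hz _ _ (by linarith) (by linarith) (by linarith)).trans_lt (by rwa [add_sub_cancel_left]))
  refine barrier (s := s) (t := t) (η := C * ζ) (κ := κ / 2) (θ := (C + κ) * ε) (by linarith)
    ((dG.cont e.δpos.le).mono (Icc_subset_Icc (by linarith) (by linarith))) (by linarith)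
    (fun p q a1 a2 a3 a4 => ?_) ?_ ?_ (by linarith) ?_
  · have a5 : 0 ≤ p := by linarith
    have a6 : q ≤ e.δ := by linarith
    have := Ext.anti' (((dG.add (DD.id.cmul κ)).sub (e.dz.cmul (C + κ))).mono a5 a2 a6) a5 a2 a6
      (fun τ hτ => by
        have hτ' : τ ∈ Icc 0 e.δ := ⟨by linarith [hτ.1], by linarith [hτ.2]⟩
        obtain ⟨y, y0, y1, y2, y3, -, -, -, y7, -⟩ := hy τ hτ'
        have := (hA' τ hτ' y y1 y2 y3 y0).2.2.1 _ θ y7 (a4 τ hτ)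
        exact le_trans (sub_le_sub_right (add_le_add_left this _) _) (by linarith))
      fun τ hτ => by
        have hτ' : τ ∈ Icc 0 e.δ := ⟨by linarith [hτ.1], by linarith [hτ.2]⟩
        obtain ⟨y, y0, y1, y2, y3, y4, y5, -⟩ := hy τ hτ'
        have := (hA' τ hτ' y y1 y2 y3 y0).2.1 _ _ (e.h [false, true] τ) y2 y4 (by rwa [e.sym0])
        exact le_trans (sub_le_sub_right (add_le_add_left this _) _) (by linarith)
    have b1 := mul_le_mul_of_nonneg_left (hz p q a5 a2 a6) (show 0 ≤ C + κ by linarith)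
    have b2 := mul_le_mul_of_nonneg_right e4 (sub_nonneg.2 a2)
    beta_reduce at this ⊢
    linarith
  · have hs' : s ∈ Icc 0 e.δ := ⟨by linarith, by linarith⟩
    obtain ⟨y, y0, y1, y2, y3, -, -, -, -, y8⟩ := hy s hs'
    exact (hA' s hs' y y1 y2 y3 y0).2.2.2 ζ h0 (y8 (hz0 s hs (by linarith) h0))
  · have hs' : t ∈ Icc 0 e.δ := ⟨by linarith, by linarith⟩
    obtain ⟨y, y0, y1, y2, y3, -, -, -, -, y8⟩ := hy t hs'
    exact (hA' t hs' y y1 y2 y3 y0).2.2.2 ζ h1 (y8 (hz0 t (by linarith) ht h1))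
  · have := mul_le_mul_of_nonneg_left (show δ₁ ≤ t - s by linarith) (half_pos hκ).le
    linarith

end Pool.Agent.Lib.MP_f4f7c0_an
end

-- part Pool.Agent.Lib.MP_f4f7c0_an.UGen
section

/-! Genericity of the conditions for the uniform bound. -/

namespace Pool.Agent.Lib.MP_f4f7c0_an

open Set Filter Topology MeasureTheory
open scoped Manifold ContDiff

namespace UGen

open GenB Whit VectorField

section strata
variable {Y Y' : E3 → E3} {q : E3} {c : ℝ}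

theorem exists_norm {p : Cov} (hp : p ≠ 0) : ∃ n, p (bv n) ≠ 0 := by
  by_contra! h0
  refine hp (ContinuousLinearMap.ext fun v => ?_)
  rw [← (EuclideanSpace.basisFun (Fin 3) ℝ).sum_repr v]
  simp [h0]

theorem dep_zero (F : Free Y Y') (hY' : ContDiff ℝ ∞ Y') (h : Y q = Y' q) :
    br Y Y' [] q ≠ 0 := by
  have hv : Y q ≠ 0 := fun h0 => t0 F h0 (h ▸ h0)
  obtain ⟨ξ, -, hξ⟩ := exists_cov (v := 0) (w := Y q) (by simpa using hv)
  have h1 := t1 (c := 1) F hY' hξ (by simp [h]) 0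
  intro h2
  apply h1
  simp only [br, lieBracket, ← h] at h2
  rw [one_smul, zero_smul, ← neg_sub, h2, neg_zero]

theorem dep_norm (F : Free Y Y') (hY : ContDiff ℝ ∞ Y) (hY' : ContDiff ℝ ∞ Y')
    (h : Y' q = c • Y q) {p : Cov} {n : Fin 3} (hp : p (bv n) = 1) (e0 : p (Y q - Y' q) = 0)
    (e1 : p (br Y Y' [] q) = 0) (e5 : p (br Y Y' [false] q) = 0) :
    p (br Y Y' [true] q) ≠ 0 ∧ c ≠ 0 := by
  have hv : Y q ≠ 0 := fun h0 => t0 F h0 (by simp [h, h0])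
  obtain ⟨ξ, -, hξ⟩ := exists_cov (v := 0) (w := Y q) (by simpa using hv)
  obtain ⟨η, h1, h2⟩ := exists_cov (t1 F hY' hξ h)
  have b0 : br Y Y' [] q = -(fderiv ℝ Y' q (Y q) - c • fderiv ℝ Y q (Y q)) := by
    simp [br, lieBracket, h]
  set u := fderiv ℝ Y' q (Y q) - c • fderiv ℝ Y q (Y q) with hu
  have b1 : p (fderiv ℝ Y' q u - c • fderiv ℝ Y q u) =
      p (br Y Y' [false] q) - c * p (br Y Y' [true] q) := by
    have : fderiv ℝ Y' q u - c • fderiv ℝ Y q u = br Y Y' [false] q - c • br Y Y' [true] q := by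
      simp only [br, cond_true, cond_false] at b0 ⊢
      rw [lieBracket, lieBracket.eq_1 ℝ Y, b0, h]
      simp only [map_neg, map_smul]
      module
    simp [this]
  have e2 : p u = 0 := by simpa [b0] using e1
  have e3 : (1 - c) * p (Y q) = 0 := by
    rw [h, map_sub, map_smul, smul_eq_mul] at e0
    linear_combination e0
  have T := fun k r => t234 F hY hY' hp hξ h1 h2 k r
  simp only [ne_eq, Fin.exists_fin_succ, evs, ev, item, ← hu, hp, h, b1, e2, Matrix.cons_val_zero,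
    Matrix.cons_val_succ] at T
  refine ⟨fun e4 => ?_, fun hc => ?_⟩
  · by_cases hc : c = 1
    · simpa [hc, e4, e5] using T 1 5
    · simpa [e4, e5, (mul_eq_zero.1 e3).resolve_left (sub_ne_zero.2 (Ne.symm hc))] using T 0 1
  · simpa [hc, e5, show p (Y q) = 0 by simpa [hc] using e3] using T 0 8

theorem dep (F : Free Y Y') (hY : ContDiff ℝ ∞ Y) (hY' : ContDiff ℝ ∞ Y')
    (h : Y' q = c • Y q) {p : Cov} (hp : p ≠ 0) (e0 : p (Y q - Y' q) = 0)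
    (e1 : p (br Y Y' [] q) = 0) (e5 : p (br Y Y' [false] q) = 0) :
    p (br Y Y' [true] q) ≠ 0 ∧ c ≠ 0 := by
  obtain ⟨n, hn⟩ := exists_norm hp
  have := dep_norm F hY hY' h (p := (p (bv n))⁻¹ • p) (n := n) (by simp [hn])
    (by simp [e0, -map_sub]) (by simp [e1]) (by simp [e5])
  exact ⟨fun h0 => this.1 (by simp [h0]), this.2⟩

theorem dep' (F : Free Y' Y) (hY : ContDiff ℝ ∞ Y) (hY' : ContDiff ℝ ∞ Y')
    (h : Y q = c • Y' q) {p : Cov} (hp : p ≠ 0) (e0 : p (Y q - Y' q) = 0)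
    (e1 : p (br Y Y' [] q) = 0) (e5 : p (br Y Y' [true] q) = 0) :
    p (br Y Y' [false] q) ≠ 0 ∧ c ≠ 0 := by
  simpa [br_swap (X := Y)] using dep F hY' hY h hp (by rw [← neg_sub, map_neg, e0, neg_zero])
    (by simpa [br_swap (X := Y)] using e1) (by simpa [br_swap (X := Y)] using e5)

/-- No triple eigenvalue at a zero of the field. -/
def Eig (X : E3 → E3) : Prop :=
  ∀ q, X q = 0 → ∀ p : Cov, p ≠ 0 → p.comp (fderiv ℝ X q) ≠ (tr3 (fderiv ℝ X q) / 3) • p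

theorem zer_of_free (F : Free Y' Y) (hY : ContDiff ℝ ∞ Y) (hY' : ContDiff ℝ ∞ Y') (E : Eig Y)
    (q : E3) : Zer Y Y' q :=
  ⟨fun h _ hp e0 e1 e5 => (dep' (c := 0) F hY hY' (by simp [h]) hp e0 e1 e5).2 rfl, E q⟩

theorem good3_of_free (F : Free Y Y') (F' : Free Y' Y) (hY : ContDiff ℝ ∞ Y)
    (hY' : ContDiff ℝ ∞ Y') (E : Eig Y) (E' : Eig Y') (q : E3) : Good3 Y Y' q := by
  refine ⟨good_of_free F F' hY hY' q, dep_zero F hY', fun c _ h p hp e0 e1 => ?_,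
    zer_of_free F' hY hY' E q, zer_of_free F hY' hY E' q⟩
  by_contra! h0
  by_cases hc : c = 1
  · exact (dep' (c := 0) F' hY hY' (by simpa [hc] using h) hp e0 e1 h0.1).2 rfl
  · have hc' : 1 - c ≠ 0 := sub_ne_zero.2 (Ne.symm hc)
    refine (dep (c := -(c / (1 - c))) F hY hY' ?_ hp e0 e1 h0.2).1 h0.1
    have h1 : (1 - c) • Y' q = -(c • Y q) := eq_neg_of_add_eq_zero_right h
    have h2 := congrArg (fun v => (1 - c)⁻¹ • v) h1
    simp only [smul_smul, inv_mul_cancel₀ hc', one_smul, smul_neg] at h2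
    rw [h2, neg_smul, div_eq_inv_mul]

end strata

/-- The equations of a triple eigenvalue at a zero. -/
noncomputable def eg (n : Fin 3) (v : E3) (D : E3 →L[ℝ] E3) (p : Cov) (μ : ℝ) : Fin 8 → ℝ :=
  ![p (bv n) - 1, v 0, v 1, v 2, p (D (bv 0)) - μ * p (bv 0), p (D (bv 1)) - μ * p (bv 1),
    p (D (bv 2)) - μ * p (bv 2), tr3 D - 3 * μ]

theorem contDiff_eg {Z : Type*} [NormedAddCommGroup Z] [NormedSpace ℝ Z] {v : Z → E3}
    {D : Z → E3 →L[ℝ] E3} {p : Z → Cov} {c : Z → ℝ} (hv : ContDiff ℝ ∞ v) (hD : ContDiff ℝ ∞ D)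
    (hp : ContDiff ℝ ∞ p) (hc : ContDiff ℝ ∞ c) (n : Fin 3) :
    ∀ i, ContDiff ℝ ∞ fun z => eg n (v z) (D z) (p z) (c z) i := by
  simp only [Fin.forall_fin_succ, eg, tr3, Matrix.cons_val_zero, Matrix.cons_val_succ]
  refine ⟨?_, ?_, ?_, ?_, ?_, ?_, ?_, ?_, fun i => i.elim0⟩ <;> fun_prop

theorem ae_eig {ι : Type} [Fintype ι] {A : ι → E3 → E3} {X : E3 → E3}
    (hA : ∀ i, ContDiff ℝ ∞ (A i)) (hX : ContDiff ℝ ∞ X)
    (rich : ∀ α β q a b e, a + b ≤ 5 → ∃ θ : ι → ℝ, ∀ y, ∑ i, θ i • A i y = mvf α β q a b e y) :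
    ∀ᵐ θ : ι → ℝ, Eig (pert X A θ) := by
  have hN : Module.finrank ℝ (E3 × Cov × ℝ) < 8 := by
    simp [Module.finrank_prod, ← (LinearMap.toContinuousLinearMap (𝕜 := ℝ) (E := E3)
      (F' := ℝ)).finrank_eq]
  have hπ : ContDiff ℝ ∞ fun z : (ι → ℝ) × E3 × Cov × ℝ => (z.1, z.2.1) := by fun_prop
  have hv : ContDiff ℝ ∞ fun z : (ι → ℝ) × E3 × Cov × ℝ => pert X A z.1 z.2.1 :=
    (joint_pert hA hX).comp hπ
  have hD : ContDiff ℝ ∞ fun z : (ι → ℝ) × E3 × Cov × ℝ => fderiv ℝ (pert X A z.1) z.2.1 :=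
    (joint_fderiv (joint_pert hA hX)).comp hπ
  have hS : ∀ n i, ContDiff ℝ 1 fun z : (ι → ℝ) × E3 × Cov × ℝ =>
      eg n (pert X A z.1 z.2.1) (fderiv ℝ (pert X A z.1) z.2.1) z.2.2.1 z.2.2.2 i := fun n i =>
    (contDiff_eg hv hD (by fun_prop) (by fun_prop) n i).of_le (le_inf' 1)
  filter_upwards [ae_all_iff.2 fun n => ae_not_tri hN (hS n)] with θ hθ q h0 p hp h1
  obtain ⟨n, hn⟩ := exists_norm hp
  have hY : ContDiff ℝ ∞ (pert X A θ) :=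
    (joint_pert hA hX).comp (contDiff_const.prodMk contDiff_id)
  set μ := tr3 (fderiv ℝ (pert X A θ) q) / 3 with hμ
  set p' : Cov := (p (bv n))⁻¹ • p with hp'
  have h2 : p' (bv n) = 1 := by simp [hp', hn]
  have h3 : ∀ v, p' (fderiv ℝ (pert X A θ) q v) = μ * p' v := fun v => by
    have := congrArg (fun f : Cov => f v) h1
    simp only [ContinuousLinearMap.comp_apply, smul_apply, smul_eq_mul] at this
    simp only [hp', smul_apply, smul_eq_mul, this]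
    ring
  have h4 : tr3 (fderiv ℝ (pert X A θ) q) = 3 * μ := by rw [hμ]; ring
  clear_value μ p'
  choose t ht using fun j => rich 0 0 q 0 0 (bv j) (by norm_num)
  choose r hr using fun j => rich (EuclideanSpace.proj j) 0 q 1 0 (bv n) (by norm_num)
  obtain ⟨o, ho⟩ := rich (EuclideanSpace.proj (n + 1)) 0 q 1 0
    (bv (n + 1) - p' (bv (n + 1)) • bv n) (by norm_num)
  have h5 : p' (bv (n + 1) - p' (bv (n + 1)) • bv n) = 0 := by simp [h2]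
  have h6 : ∀ s : ℝ, tr3 (fderiv ℝ (pert X A θ + s • mvf (EuclideanSpace.proj (n + 1)) 0 q 1 0
      (bv (n + 1) - p' (bv (n + 1)) • bv n)) q) = 3 * μ + s := fun s => by
    rw [← h4]
    simp only [tr3, fderiv_add_mvf hY]
    fin_cases n <;> simp [Fin.sum_univ_three] <;> ring
  refine hθ n (q, p', μ) ![(0, 0, p', 0), (t 0, 0), (t 1, 0), (t 2, 0), (r 0, 0), (r 1, 0),
    (r 2, 0), (o, 0)] (fun _ => 1) (by simp) ?_ ?_
  · simp [Fin.forall_fin_succ, eg, pert_add (ht _), pert_add (hr _), pert_add ho, mvf_self, h0, h2,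
      h3, h5, fderiv_add_mvf hY, apply_ite p', -map_sub]
  · simp [Fin.forall_fin_succ, eg, pert_add (ht _), pert_add (hr _), pert_add ho, mvf_self, h0, h2,
      h3, h6, fderiv_add_mvf hY, -map_sub]

theorem dense_good3 : ∃ (ι : Type) (_ : Fintype ι) (A A' : ι → E3 → E3),
    (∀ i, ContDiff ℝ ∞ (A i) ∧ ContDiff ℝ ∞ (A' i)) ∧
    ∀ X X' : E3 → E3, ContDiff ℝ ∞ X → ContDiff ℝ ∞ X' →
      Dense {θ : ι → ℝ | ∀ q, Good3 (fun y => X y + ∑ i, θ i • A i y)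
        (fun y => X' y + ∑ i, θ i • A' i y) q} := by
  obtain ⟨n, g, hg, rich⟩ := exists_family
  have hA : ∀ i, ContDiff ℝ ∞ (Sum.elim g (fun _ : Fin n => (0 : E3 → E3)) i) := by
    rintro (i | i)
    exacts [hg i, contDiff_const]
  have hA' : ∀ i, ContDiff ℝ ∞ (Sum.elim (fun _ : Fin n => (0 : E3 → E3)) g i) := by
    rintro (i | i)
    exacts [contDiff_const, hg i]
  refine ⟨Fin n ⊕ Fin n, inferInstance, _, _, fun i => ⟨hA i, hA' i⟩, fun X X' hX hX' => ?_⟩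
  have R : ∀ α β q a b e e', a + b ≤ 5 → ∃ θ : Fin n ⊕ Fin n → ℝ,
      (∀ y, ∑ i, θ i • Sum.elim g (fun _ : Fin n => (0 : E3 → E3)) i y = mvf α β q a b e y) ∧
      ∀ y, ∑ i, θ i • Sum.elim (fun _ : Fin n => (0 : E3 → E3)) g i y = mvf α β q a b e' y :=
    fun α β q a b e e' h => by
      obtain ⟨θ, h1⟩ := rich α β q a b e h
      obtain ⟨θ', h2⟩ := rich α β q a b e' h
      exact ⟨Sum.elim θ θ', by simpa using h1, by simpa using h2⟩
  refine Measure.dense_of_ae (μ := volume) ?_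
  filter_upwards [ae_free hA hA' hX hX' R, ae_free hA' hA hX' hX fun α β q a b e e' h =>
    (R α β q a b e' e h).imp fun _ h => h.symm,
    ae_eig hA hX fun α β q a b e h => (R α β q a b e e h).imp fun _ h => h.1,
    ae_eig hA' hX' fun α β q a b e h => (R α β q a b e e h).imp fun _ h => h.2] with θ F F' E E' q
  exact good3_of_free F F' ((joint_pert hA hX).comp (contDiff_const.prodMk contDiff_id))
    ((joint_pert hA' hX').comp (contDiff_const.prodMk contDiff_id)) E E' q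

theorem isOpen_cov {Z : Type*} [TopologicalSpace Z] {B : Z → ℝ → Cov → Prop}
    (hB : IsClosed {w : Z × ℝ × Cov | B w.1 w.2.1 w.2.2})
    (hs : ∀ z c p (t : ℝ), B z c p → B z c (t • p)) :
    IsOpen {z | ∀ c ∈ Icc (0 : ℝ) 1, ∀ p ≠ 0, ¬B z c p} := by
  refine isOpen_iff_eventually.2 fun z hz => ?_
  have h1 := ((isCompact_Icc (a := (0 : ℝ)) (b := 1)).prod
    (isCompact_sphere (0 : Cov) 1)).eventually_forall_of_forall_eventually
    (x₀ := z) (P := fun z w => ¬B z w.1 w.2) fun w hw =>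
      hB.isOpen_compl.mem_nhds (hz w.1 hw.1 w.2 (by
        rintro h0
        simpa [h0] using hw.2))
  refine h1.mono fun d h c hc p hp h2 => ?_
  have hn : ‖p‖ ≠ 0 := norm_ne_zero_iff.2 hp
  exact h (c, ‖p‖⁻¹ • p) ⟨hc, by simp [norm_smul, hn]⟩ (hs _ _ _ _ h2)

section ev
variable {α : Type*} {l : Filter α} {y : α → E3} {u : α → ℝ} {Y Y' : α → E3 → E3}
  {X X' : E3 → E3} {y₀ : E3}

theorem conv (hy : Tendsto y l (𝓝 y₀))
    (h₀ : ContDiffAt ℝ ∞ X y₀) (h₀' : ContDiffAt ℝ ∞ X' y₀)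
    (hX : ∀ᶠ a in l, ContDiffAt ℝ ∞ X (y a)) (hX' : ∀ᶠ a in l, ContDiffAt ℝ ∞ X' (y a))
    (h : Ord l y 5 (fun a => Y a - X) u) (h' : Ord l y 5 (fun a => Y' a - X') u)
    (hu : Tendsto u l (𝓝 0)) :
    Tendsto (fun a => Y a (y a)) l (𝓝 (X y₀)) ∧
      Tendsto (fun a => fderiv ℝ (Y a) (y a)) l (𝓝 (fderiv ℝ X y₀)) ∧
      ∀ w : List Bool, w.length ≤ 4 →
        Tendsto (fun a => br (Y a) (Y' a) w (y a)) l (𝓝 (br X X' w y₀)) := by
  have key : ∀ {Z : α → E3 → E3} {Z₀ : E3 → E3} {k : ℕ}, ContDiffAt ℝ ∞ Z₀ y₀ →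
      Ord l y k (fun a => Z a - Z₀) u → Tendsto (fun a => Z a (y a)) l (𝓝 (Z₀ y₀)) :=
    fun h1 h2 => by simpa using (h2.tendsto hu).add (h1.continuousAt.tendsto.comp hy)
  have hbr : ∀ w, ContDiffAt ℝ ∞ (br X X' w) y₀ := fun w => by
    induction w with
    | nil => exact h₀'.lieBracket_vectorField h₀ le_rfl
    | cons i w ih => cases i <;> exact ContDiffAt.lieBracket_vectorField ‹_› ih le_rfl
  refine ⟨key h₀ h, ?_, fun w hw => key (hbr w) (ord_br (ord_const hy h₀ hX)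
    (ord_const hy h₀' hX') h h' (hu.isBigO_one ℝ) w 0 (by omega)).2⟩
  have h1 := (h.fderiv.tendsto hu).add
    ((h₀.fderiv_right (m := ∞) le_rfl).continuousAt.tendsto.comp hy)
  rw [zero_add] at h1
  refine h1.congr' ?_
  filter_upwards [h.sm, hX] with a a1 a2
  rw [Function.comp_apply, ← fderiv_add (a1.differentiableAt (by simp))
    (a2.differentiableAt (by simp)), sub_add_cancel]

theorem zer_eventually (hy : Tendsto y l (𝓝 y₀))
    (h₀ : ContDiffAt ℝ ∞ X y₀) (h₀' : ContDiffAt ℝ ∞ X' y₀)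
    (hX : ∀ᶠ a in l, ContDiffAt ℝ ∞ X (y a)) (hX' : ∀ᶠ a in l, ContDiffAt ℝ ∞ X' (y a))
    (h : Ord l y 5 (fun a => Y a - X) u) (h' : Ord l y 5 (fun a => Y' a - X') u)
    (hu : Tendsto u l (𝓝 0)) (hg : Zer X X' y₀) : ∀ᶠ a in l, Zer (Y a) (Y' a) (y a) := by
  obtain ⟨c1, c2, c3⟩ := conv hy h₀ h₀' hX hX' h h' hu
  have c4 := (conv hy h₀' h₀ hX' hX h' h hu).1
  have o1 := isOpen_cov (Z := E3 × E3 × E3 × E3) (B := fun z _ p =>
    z.1 = 0 ∧ p (z.1 - z.2.1) = 0 ∧ p z.2.2.1 = 0 ∧ p z.2.2.2 = 0) (by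
      simp only [ofPred_and]
      refine IsClosed.inter ?_ (IsClosed.inter ?_ (IsClosed.inter ?_ ?_)) <;>
        exact isClosed_eq (by fun_prop) continuous_const)
    fun z _ p t h => ⟨h.1, by simp [h.2.1, -map_sub], by simp [h.2.2.1], by simp [h.2.2.2]⟩
  have o2 := isOpen_cov (Z := E3 × (E3 →L[ℝ] E3)) (B := fun z _ p =>
    z.1 = 0 ∧ p.comp z.2 = (tr3 z.2 / 3) • p) (by
      simp only [ofPred_and, tr3]
      refine IsClosed.inter ?_ ?_ <;> exact isClosed_eq (by fun_prop) (by fun_prop))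
    fun z _ p t h => ⟨h.1, by rw [ContinuousLinearMap.smul_comp, h.2, smul_comm]⟩
  filter_upwards [(c1.prodMk_nhds (c4.prodMk_nhds ((c3 [] (by simp)).prodMk_nhds
      (c3 [true] (by simp))))).eventually (o1.mem_nhds fun _ _ p hp h =>
        hg.kal h.1 p hp h.2.1 h.2.2.1 h.2.2.2),
    (c1.prodMk_nhds c2).eventually (o2.mem_nhds fun _ _ p hp h => hg.eig h.1 p hp h.2)]
    with a a1 a2
  exact ⟨fun h1 p hp h2 h3 h4 => a1 0 (by simp) p hp ⟨h1, h2, h3, h4⟩,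
    fun h1 p hp h2 => a2 0 (by simp) p hp ⟨h1, h2⟩⟩

theorem good3_eventually (hy : Tendsto y l (𝓝 y₀))
    (h₀ : ContDiffAt ℝ ∞ X y₀) (h₀' : ContDiffAt ℝ ∞ X' y₀)
    (hX : ∀ᶠ a in l, ContDiffAt ℝ ∞ X (y a)) (hX' : ∀ᶠ a in l, ContDiffAt ℝ ∞ X' (y a))
    (h : Ord l y 5 (fun a => Y a - X) u) (h' : Ord l y 5 (fun a => Y' a - X') u)
    (hu : Tendsto u l (𝓝 0)) (hg : Good3 X X' y₀) : ∀ᶠ a in l, Good3 (Y a) (Y' a) (y a) := by
  obtain ⟨c1, -, c3⟩ := conv hy h₀ h₀' hX hX' h h' hu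
  have c4 := (conv hy h₀' h₀ hX' hX h' h hu).1
  have o1 : IsClosed {z : E3 × E3 × E3 | z.1 = z.2.1 ∧ z.2.2 = 0} := by
    simp only [ofPred_and]
    refine IsClosed.inter ?_ ?_ <;> exact isClosed_eq (by fun_prop) (by fun_prop)
  have o2 := isOpen_cov (Z := E3 × E3 × E3 × E3 × E3) (B := fun z c p =>
    c • z.1 + (1 - c) • z.2.1 = 0 ∧ p (z.1 - z.2.1) = 0 ∧ p z.2.2.1 = 0 ∧ p z.2.2.2.1 = 0 ∧
      p z.2.2.2.2 = 0) (by
      simp only [ofPred_and]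
      refine IsClosed.inter ?_ (IsClosed.inter ?_ (IsClosed.inter ?_ (IsClosed.inter ?_ ?_))) <;>
        exact isClosed_eq (by fun_prop) continuous_const)
    fun z _ p t h => ⟨h.1, by simp [h.2.1, -map_sub], by simp [h.2.2.1], by simp [h.2.2.2.1],
      by simp [h.2.2.2.2]⟩
  filter_upwards [good_eventually hy h₀ h₀' hX hX' h h' hu hg.good,
    (c1.prodMk_nhds (c4.prodMk_nhds (c3 [] (by simp)))).eventually
      (o1.isOpen_compl.mem_nhds fun h => hg.d1 h.1 h.2),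
    (c1.prodMk_nhds (c4.prodMk_nhds ((c3 [] (by simp)).prodMk_nhds
      ((c3 [true] (by simp)).prodMk_nhds (c3 [false] (by simp)))))).eventually
      (o2.mem_nhds fun c hc p hp h => (hg.d2 c hc h.1 p hp h.2.1 h.2.2.1).elim
        (fun h1 => h1 h.2.2.2.1) fun h1 => h1 h.2.2.2.2),
    zer_eventually hy h₀ h₀' hX hX' h h' hu hg.zx, zer_eventually hy h₀' h₀ hX' hX h' h hu hg.zy]
    with a a1 a2 a3 a4 a5
  refine ⟨a1, fun h1 h2 => a2 ⟨h1, h2⟩, fun c hc h1 p hp h2 h3 => ?_, a4, a5⟩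
  by_contra! h4
  exact a3 c hc p hp ⟨h1, h2, h3, h4.1, h4.2⟩

end ev

variable {M : Type*} [TopologicalSpace M] [ChartedSpace E3 M] [IsManifold (𝓡 3) ∞ M]

theorem isOpen_good3 {c : M} {K : Set M} (hK : IsCompact K) (hs : K ⊆ (chartAt E3 c).source) :
    letI := whitneyTop M
    IsOpen {fg : VF M × VF M | ∀ x ∈ K,
      Good3 (chartRep c (fg.1 + fg.2)) (chartRep c (fg.1 - fg.2)) (extChartAt (𝓡 3) c x)} := by
  let _ := whitneyTop M
  refine isOpen_iff_eventually.2 fun fg hfg => ?_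
  refine (hK.eventually_forall_of_forall_eventually (P := fun (fg : VF M × VF M) x => x ∈ K →
    Good3 (chartRep c (fg.1 + fg.2)) (chartRep c (fg.1 - fg.2)) (extChartAt (𝓡 3) c x))
    fun x hx => eventually_inf_principal.1 ?_).mono fun _ h x hx => h x hx hx
  have hl : ∀ᶠ a in 𝓝 (fg, x) ⊓ 𝓟 {a : (VF M × VF M) × M | a.2 ∈ K},
      a.2 ∈ (chartAt E3 c).source := eventually_inf_principal.2 (.of_forall fun _ h => hs h)
  have key : ∀ π : VF M × VF M → VF M, Continuous π → ∀ j ≤ 5,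
      Tendsto (fun a : (VF M × VF M) × M => ‖iteratedFDeriv ℝ j
        (chartRep c (π a.1) - chartRep c (π fg)) (extChartAt (𝓡 3) c a.2)‖)
        (𝓝 (fg, x) ⊓ 𝓟 {a | a.2 ∈ K}) (𝓝 0) := fun π hπ j hj =>
    tendsto_order.2 ⟨fun _ h => .of_forall fun _ => h.trans_le (norm_nonneg _), fun ε hε =>
      eventually_inf_principal.2 (((hπ.comp continuous_fst).tendsto (fg, x)).eventually
        (eventually_close (π fg) 5 hK hs hε) |>.mono fun a h ha => h _ ha j hj)⟩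
  obtain ⟨u, hu, h1, h2⟩ := exists_ord
    (hl.mono fun a ha => (contDiffAt_rep ha _).sub (contDiffAt_rep ha _))
    (hl.mono fun a ha => (contDiffAt_rep ha _).sub (contDiffAt_rep ha _))
    (key _ continuous_fst) (key _ continuous_snd)
  refine good3_eventually (((continuousAt_extChartAt' (by simpa using hs hx)).tendsto.comp
    continuousAt_snd).mono_left inf_le_left) (contDiffAt_rep (hs hx) _) (contDiffAt_rep (hs hx) _)
    (hl.mono fun a ha => contDiffAt_rep ha _) (hl.mono fun a ha => contDiffAt_rep ha _)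
    ?_ ?_ hu (hfg x hx)
  · simp only [rep_add, add_sub_add_comm]
    exact h1.add h2
  · simp only [rep_sub, sub_sub_sub_comm (chartRep c _) (chartRep c _) (chartRep c fg.1)]
    exact h1.sub h2

end UGen

variable {M : Type*} [TopologicalSpace M] [ChartedSpace E3 M] [IsManifold (𝓡 3) ∞ M]

open Whit UGen in
theorem residual_goodM3 [T2Space M] [SecondCountableTopology M] :
    letI := whitneyTop M
    ∀ᶠ fg in residual (VF M × VF M), GoodM3 fg.1 fg.2 := by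
  let _ := whitneyTop M
  obtain ⟨ι, _, A, A', hA, H⟩ := dense_good3
  choose K S hK hn hs hS hL hX using exists_K (M := M)
  obtain ⟨T, hT, hTK⟩ := TopologicalSpace.countable_cover_nhds hn
  refine Eventually.mono ((eventually_countable_ball hT).2 fun c _ =>
    residual_of_dense_open (isOpen_good3 (hK c) (hs c)) fun fg => ?_) fun fg h x => ?_
  · choose U hU hU' using fun i => hL c (A i) (hA i).1
    choose U' hV hV' using fun i => hL c (A' i) (hA i).2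
    obtain ⟨X, hX1, hX2⟩ := hX c (fg.1 + fg.2)
    obtain ⟨X', hX1', hX2'⟩ := hX c (fg.1 - fg.2)
    have h1 := (continuous_family fg.1 (fun i => (1 / 2 : ℝ) • (U i + U' i)) (hS c)
      fun i x hx => by simp [hU i x hx, hV i x hx]).prodMk
      (continuous_family fg.2 (fun i => (1 / 2 : ℝ) • (U i - U' i)) (hS c)
        fun i x hx => by simp [hU i x hx, hV i x hx])
    have h2 := map_mem_closure h1 (H X X' hX1 hX1' 0) (t := {fg : VF M × VF M | ∀ x ∈ K c,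
      Good3 (chartRep c (fg.1 + fg.2)) (chartRep c (fg.1 - fg.2)) (extChartAt (𝓡 3) c x)})
      fun θ hθ x hx => (hθ _).congr ?_ ?_
    · simpa using h2
    · have e : (fg.1 + ∑ i, θ i • (1 / 2 : ℝ) • (U i + U' i)) +
          (fg.2 + ∑ i, θ i • (1 / 2 : ℝ) • (U i - U' i)) = fg.1 + fg.2 + ∑ i, θ i • U i := by
        rw [add_add_add_comm, ← Finset.sum_add_distrib]
        congr 1
        exact Finset.sum_congr rfl fun i _ => by module
      simp only [e, rep_sum]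
      filter_upwards [hX2 x hx, eventually_all.2 fun i => hU' i x hx] with z h3 h4
      simp [h3, h4]
    · have e : (fg.1 + ∑ i, θ i • (1 / 2 : ℝ) • (U i + U' i)) -
          (fg.2 + ∑ i, θ i • (1 / 2 : ℝ) • (U i - U' i)) = fg.1 - fg.2 + ∑ i, θ i • U' i := by
        rw [add_sub_add_comm, ← Finset.sum_sub_distrib]
        congr 1
        exact Finset.sum_congr rfl fun i _ => by module
      simp only [e, rep_sum]
      filter_upwards [hX2' x hx, eventually_all.2 fun i => hV' i x hx] with z h3 h4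
      simp [h3, h4]
  · obtain ⟨c, hc, hx⟩ := mem_iUnion₂.1 (hTK.ge (mem_univ x))
    exact ⟨c, hs c hx, h c hc x hx⟩

end Pool.Agent.Lib.MP_f4f7c0_an
end
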