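import Pool.Agent.Lib.MP_f4f7c0_an.HMain
import Pool.Agent.Lib.MP_f4f7c0_an.GlueAdm
import Pool.Agent.Lib.MP_f4f7c0_an.Smooth
import Pool.Agent.Lib.MP_f4f7c0_an.Glue
import Pool.Agent.Lib.MP_f4f7c0_an.Stmt

-- part Pool.Agent.Lib.MP_f4f7c0_an.Final
section

-- part Pool.Agent.Lib.MP_f4f7c0_an.CaseH
section

/-! The cases of two zero lines and of a double zero line. -/

namespace Pool.Agent.Lib.MP_f4f7c0_an

open Set Filter Topology MeasureTheory Asymptotics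

namespace Ext
variable {e : Ext} {α β γ : ℝ}

def S (e : Ext) (α τ : ℝ) : ℝ := e.a τ * e.a τ - 2 * α * e.W τ
def Dp (e : Ext) (α τ : ℝ) : ℝ := e.a τ * (e.h [true, true] τ - α)
def Dm (e : Ext) (α τ : ℝ) : ℝ := e.a τ * e.h [false, true] τ - α * e.b τ
def Dpp (e : Ext) (α τ : ℝ) : ℝ :=
  e.h [true, true] τ * (e.h [true, true] τ - α) + e.a τ * e.h [true, true, true] τ
def Dmp (e : Ext) (α τ : ℝ) : ℝ := e.h [true, true] τ * e.h [false, true] τ +
  e.a τ * e.h [true, false, true] τ - α * e.h [true, false] τ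
def Dmm (e : Ext) (α τ : ℝ) : ℝ := e.h [false, true] τ * e.h [false, true] τ +
  e.a τ * e.h [false, false, true] τ - α * e.h [false, false] τ

theorem dS (e : Ext) (α : ℝ) : DD e.m (e.S α) (fun τ => 2 * e.Dp α τ) (fun τ => 2 * e.Dm α τ) 0 e.δ :=
  (((e.dh [true]).mul (e.dh [true])).sub ((e.dh []).cmul (2 * α))).congr
    (fun τ _ => by simp only [Dp]; ring) fun τ _ => by simp only [Dm]; ring

theorem Deg.sing_of_lim (h : e.Deg α β γ) (hα : 0 < α) (hβ : β < 0) {ω c : ℝ} (hω : ω < -β)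
    (hc : 0 < c) (hS : ∀ᶠ τ in l0, 0 < e.S α τ)
    (r : ∀ᶠ τ in l0, c ≤ τ * (e.Dm α τ / √(e.S α τ) / √(e.S α τ)))
    (tm : Tendsto (fun τ => e.Dm α τ / √(e.S α τ)) l0 (𝓝 ω))
    (tp : Tendsto (fun τ => e.Dp α τ / √(e.S α τ)) l0 (𝓝 0))
    (t1 : Tendsto (fun τ => τ * (e.Dp α τ / √(e.S α τ) / √(e.S α τ))) l0 (𝓝 0))
    (t2 : Tendsto (fun τ => τ * ((e.Dpp α τ * √(e.S α τ) - e.Dp α τ * (e.Dp α τ / √(e.S α τ))) /
      √(e.S α τ) ^ 2)) l0 (𝓝 0))
    (t3 : Tendsto (fun τ => τ * ((e.Dmp α τ * √(e.S α τ) - e.Dm α τ * (e.Dp α τ / √(e.S α τ))) /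
      √(e.S α τ) ^ 2)) l0 (𝓝 0))
    (t4 : Tendsto (fun τ => τ * ((e.Dmm α τ * √(e.S α τ) - e.Dm α τ * (e.Dm α τ / √(e.S α τ))) /
      √(e.S α τ) ^ 2)) l0 (𝓝 0)) : e.Sing := by
  have R0 := hS.mono fun τ h => Real.sqrt_pos.2 h
  have dR : e.LD (fun τ => √(e.S α τ)) (fun τ => e.Dp α τ / √(e.S α τ))
      (fun τ => e.Dm α τ / √(e.S α τ)) :=
    ((ld (e.dS α)).sqrt hS).congr (Eventually.of_forall fun τ _ _ => by ring)
      (Eventually.of_forall fun τ _ _ => by ring)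
  have dp := ((e.ldh [true]).mul ((e.ldh [true, true]).sub (LD.const α))).div dR R0
  have dm := (((e.ldh [true]).mul (e.ldh [false, true])).sub ((e.ldh [false]).cmul α)).div dR R0
  exact HD.sing ⟨h.acc, hα, hβ, hω, hc, h.tt, (sym0 0).trans h.tf, dR, dp, dm, R0,
    hS.mono fun τ h => by rw [Real.sq_sqrt h.le, S, sq], r, tm, tp, t1,
    by simp only [sub_zero]; exact t2, t3, t4⟩

theorem Lim.tS {l : Filter ℝ} {p : ℝ} (L : e.Lim l p α β γ) :
    Tendsto (fun τ => e.S α τ / τ ^ 2) l (𝓝 ((β ^ 2 - α * γ) * (1 - p) ^ 2)) := by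
  convert (L.a.mul L.a).sub (L.W.const_mul (2 * α)) using 2
  · simp only [S]; ring
  · ring

theorem Lim.tDm {l : Filter ℝ} {p : ℝ} (L : e.Lim l p α β γ) :
    Tendsto (fun τ => e.Dm α τ / τ) l (𝓝 ((β ^ 2 - α * γ) * (1 - p))) := by
  convert (L.a.mul L.ft).sub (L.b.const_mul α) using 2
  · simp only [Dm]; ring
  · ring

theorem Deg.two_lines (h : e.Deg α β γ) (hα : 0 < α) (hβ : β < 0) (hγ : 0 < γ)
    (hΔ : α * γ < β ^ 2) : e.Sing := by
  set K := -4 * β / α with hK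
  have hKα : K * α = -4 * β := div_mul_cancel₀ _ hα.ne'
  have hK0 : 0 < K := div_pos (by linarith) hα
  have esc := h.acc.escape (e.dM 0 1 (-K)) ((h.ev (r := fun τ => 0 ≤ e.M 0 1 (-K) τ)
    (q := fun τ => 0 < e.W τ) fun U p h0 h1 L hr => by
      have h2 := ge_of_tendsto (L.tM 1 (-K)) (by
        filter_upwards [hr, L.pos] with τ h1 h2 using div_nonneg h1 h2.le)
      refine ev_scaled 2 L.pos L.W (half_pos ?_) fun τ _ => by field_simp
      have h3 : 0 < p := by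
        rcases h0.eq_or_lt with rfl | h0
        · linarith
        · exact h0
      have h4 : -4 * β * (1 - p) ≤ α * p := by rw [← hKα]; nlinarith
      nlinarith [mul_pos hα (mul_pos h3 h3), mul_nonneg hγ.le (sq_nonneg (1 - p))]).mono
    fun τ h => ⟨zero_le_one, by linarith, h⟩)
  obtain ⟨d, hd0, hd⟩ : ∃ d, 0 < d ∧ β ^ 2 - α * γ = d ^ 2 :=
    ⟨√(β ^ 2 - α * γ), Real.sqrt_pos.2 (by linarith), (Real.sq_sqrt (by linarith)).symm⟩
  have key : ∀ U : Ultrafilter ℝ, ↑U ≤ l0 → ∃ p, 0 ≤ p ∧ 0 < 1 - p ∧ e.Lim U p α β γ ∧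
      Tendsto (fun τ => √(e.S α τ) / τ) U (𝓝 (d * (1 - p))) := fun U hU => by
    obtain ⟨p, hp, hx⟩ := e.exists_lim U hU
    have L := h.lim hU hx
    have h2 := le_of_tendsto (L.tM 1 (-K)) (by
      filter_upwards [hU esc, L.pos] with τ h1 h2 using div_nonpos_of_nonpos_of_nonneg h1.le h2.le)
    have h3 : 0 < 1 - p := by
      rcases hp.2.eq_or_lt with rfl | h1
      · linarith
      · linarith
    refine ⟨p, hp.1, h3, L, ?_⟩
    have := L.tS.sqrt
    rw [hd, ← mul_pow, Real.sqrt_sq (by positivity)] at this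
    exact this.congr' (L.pos.mono fun τ h => by
      simp only [Real.sqrt_div' _ (sq_nonneg τ), Real.sqrt_sq h.le])
  have tDp : ∀ {U : Filter ℝ} {p : ℝ}, e.Lim U p α β γ → Tendsto (fun τ => e.Dp α τ / τ) U (𝓝 0) :=
    fun L => by
      convert L.a.mul (L.tt.sub_const α) using 2
      · simp only [Dp]; ring
      · ring
  have a0 : ∀ {U : Filter ℝ} {p : ℝ}, e.Lim U p α β γ → Tendsto e.a U (𝓝 0) :=
    fun L => h.a0 ▸ L.h [true]
  refine h.sing_of_lim hα hβ (ω := d) (c := 1 / 2) (lt_of_pow_lt_pow_left₀ 2 (by linarith)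
    (by nlinarith)) (by norm_num) (ev_ultra fun U hU => ?_) (ev_ultra fun U hU => ?_)
    ((tendsto_iff_ultrafilter _ _ _).2 fun U hU => ?_)
    ((tendsto_iff_ultrafilter _ _ _).2 fun U hU => ?_)
    ((tendsto_iff_ultrafilter _ _ _).2 fun U hU => ?_)
    ((tendsto_iff_ultrafilter _ _ _).2 fun U hU => ?_)
    ((tendsto_iff_ultrafilter _ _ _).2 fun U hU => ?_)
    ((tendsto_iff_ultrafilter _ _ _).2 fun U hU => ?_) <;>
  obtain ⟨p, p0, q0, L, tR⟩ := key U hU <;>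
  have hq : d * (1 - p) ≠ 0 := by positivity
  · exact ev_scaled 2 L.pos L.tS (by rw [hd]; positivity) fun τ _ => by field_simp
  · refine (((L.tDm.div tR hq).div tR hq).eventually (lt_mem_nhds (show 1 / 2 < _ by
      rw [hd]; field_simp; linarith))).mp (L.pos.mono fun τ h h' => h'.le.trans_eq ?_)
    simp only [Pi.div_apply]
    field_simp
  · convert (L.tDm.div tR hq).congr' (L.pos.mono fun τ h => ?_) using 2
    · rw [hd]; field_simp
    · simp only [Pi.div_apply]; field_simp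
  · convert ((tDp L).div tR hq).congr' (L.pos.mono fun τ h => ?_) using 2
    · simp
    · simp only [Pi.div_apply]; field_simp
  · convert (((tDp L).div tR hq).div tR hq).congr' (L.pos.mono fun τ h => ?_) using 2
    · simp
    · simp only [Pi.div_apply]; field_simp
  · convert (((((L.tt.mul (L.tt.sub_const α)).add ((a0 L).mul (L.h [true, true, true]))).mul tR).sub
      ((tDp L).mul ((tDp L).div tR hq))).div (tR.pow 2) (pow_ne_zero 2 hq)).congr'
      (L.pos.mono fun τ h => ?_) using 2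
    · simp
    · simp only [Pi.div_apply, Dpp]; field_simp
  · convert ((((((L.tt.mul L.ft).add ((a0 L).mul (L.h [true, false, true]))).sub
      (L.tf.const_mul α)).mul tR).sub
      (L.tDm.mul ((tDp L).div tR hq))).div (tR.pow 2) (pow_ne_zero 2 hq)).congr'
      (L.pos.mono fun τ h => ?_) using 2
    · simp
    · simp only [Pi.div_apply, Dmp]; field_simp
  · convert ((((((L.ft.mul L.ft).add ((a0 L).mul (L.h [false, false, true]))).sub
      (L.ff.const_mul α)).mul tR).sub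
      (L.tDm.mul (L.tDm.div tR hq))).div (tR.pow 2) (pow_ne_zero 2 hq)).congr'
      (L.pos.mono fun τ h => ?_) using 2
    · rw [zero_mul, add_zero, ← sq, hd]; field_simp; ring
    · simp only [Pi.div_apply, Dmm]; field_simp

theorem Deg.x_lim (h : e.Deg α β γ) (hα : 0 < α) (hβ : β < 0) (hΔ : β ^ 2 = α * γ) :
    Tendsto (fun τ => e.x τ / τ) l0 (𝓝 (-β / (α - β))) := by
  have up : ∀ η, 0 < η → η < α → ∀ᶠ τ in l0, e.M 0 (α - η) (β - η) τ < 0 := fun η h0 h1 =>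
    h.acc.escape (e.dM 0 (α - η) (β - η)) ((h.ev (r := fun τ => 0 ≤ e.M 0 (α - η) (β - η) τ)
      (q := fun τ => 0 < e.W τ) fun U p _ _ L hr => by
        have h2 := ge_of_tendsto (L.tM (α - η) (β - η)) (by
          filter_upwards [hr, L.pos] with τ h1 h2 using div_nonneg h1 h2.le)
        refine ev_scaled 2 L.pos L.W (half_pos (pos_of_mul_pos_left (b := α) ?_ hα.le))
          fun τ _ => by field_simp
        have h3 : 0 < α * p + β * (1 - p) := by linarith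
        refine (pow_pos h3 2).trans_eq ?_
        linear_combination (1 - p) ^ 2 * hΔ).mono fun τ h => ⟨by linarith, by linarith, h⟩)
  have tS : Tendsto (fun τ => e.S α τ / τ ^ 2) l0 (𝓝 0) :=
    (tendsto_iff_ultrafilter _ _ _).2 fun U hU => by
      obtain ⟨p, -, hx⟩ := e.exists_lim U hU
      simpa [hΔ] using (h.lim hU hx).tS
  have low : ∀ η, 0 < η → ∀ᶠ τ in l0, -(e.a τ / τ) ^ 3 ≤ η := fun η hη => by
    have hB : 0 < 1 - β := by linarith
    filter_upwards [ev_Ioc ((tS.eventually (gt_mem_nhds (div_pos hη hB))).and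
      (((e.tendh [true, true]).eventually (lt_mem_nhds (h.tt ▸ hα))).and
      (((e.tendh [false, true]).eventually (lt_mem_nhds (show β - 1 < _ by
        rw [sym0, h.tf]; linarith))).and e.ev_mem))), ev_pos] with t ht t0
    have hδ := (ht t ⟨t0, le_rfl⟩).2.2.2.2.le
    have := anti ((((e.dN.cmul (6 * α * (1 - β))).sub ((e.dh [true]).pow e.δpos.le 3)).sub
      ((dpow 2).cmul η)).mono le_rfl t0.le hδ) le_rfl t0.le hδ (fun τ hτ h1 h2 => ?_)
      fun τ hτ h1 h2 => ?_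
    · simp only [N, h.acc.φ0, show e.h [true] 0 = 0 from h.a0] at this
      norm_num at this
      rw [div_pow, ← neg_div, div_le_iff₀ (by positivity)]
      nlinarith [mul_nonneg (show 0 ≤ 6 * α * (1 - β) by positivity) (le_max_right (-e.φ t) 0)]
    · rw [(PN_pos h1 h2).2.2.2]
      norm_num
      nlinarith [mul_nonneg (sq_nonneg (e.a τ)) (ht τ (Ioo_subset_Ioc_self hτ)).2.1.le,
        mul_nonneg hη.le (sq_nonneg τ)]
    · rw [(PN_neg h1 h2).2.2.2]
      obtain ⟨h3, -, h4, -⟩ := ht τ (Ioo_subset_Ioc_self hτ)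
      rw [div_lt_div_iff₀ (pow_pos hτ.1 2) hB, S] at h3
      norm_num
      nlinarith [mul_le_mul_of_nonneg_left h4.le (sq_nonneg (e.a τ))]
  refine (tendsto_iff_ultrafilter _ _ _).2 fun U hU => ?_
  obtain ⟨p, -, hx⟩ := e.exists_lim U hU
  have L := h.lim hU hx
  have h1 : α * p + β * (1 - p) ≤ 0 := le_of_forall_pos_le_add fun η hη => by
    have := le_of_tendsto (L.tM (α - min η (α / 2)) (β - min η (α / 2))) (by
      filter_upwards [hU (up (min η (α / 2)) (by positivity)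
        ((min_le_right _ _).trans_lt (half_lt_self hα))), L.pos]
        with τ h1 h2 using div_nonpos_of_nonpos_of_nonneg h1.le h2.le)
    linarith [min_le_left η (α / 2)]
  have h2 : -(α * p + β * (1 - p)) ^ 3 ≤ 0 := le_of_forall_pos_le_add fun η hη => by
    simpa using le_of_tendsto (L.a.pow 3).neg (hU (low η hη))
  have h3 : α * p + β * (1 - p) = 0 :=
    le_antisymm h1 ((Odd.pow_nonneg_iff (by decide)).1 (neg_nonpos.1 h2))
  convert hx using 2
  rw [div_eq_iff (by linarith)]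
  linarith

theorem Deg.double_line (h : e.Deg α β γ) (hα : 0 < α) (hβ : β < 0) (hΔ : β ^ 2 = α * γ)
    (hg : ∀ P ∈ Icc (0 : ℝ) 1, P * α + (1 - P) * β = 0 → P * β + (1 - P) * γ = 0 →
      cub (fun w => e.h w 0) P (1 - P) ≠ 0) : e.Sing := by
  have hx := h.x_lim hα hβ hΔ
  have hαβ : 0 < α - β := by linarith
  obtain ⟨p, hp⟩ : ∃ p, p = -β / (α - β) := ⟨_, rfl⟩
  rw [← hp] at hx
  have hp1 : p * α + (1 - p) * β = 0 := by rw [hp]; field_simp; ring
  have q0 : 0 < 1 - p := by rw [hp, sub_pos, div_lt_one hαβ]; linarith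
  have p0 : 0 ≤ p := hp ▸ div_nonneg (by linarith) hαβ.le
  have he := hg p ⟨p0, by linarith⟩ hp1 (mul_left_cancel₀ hα.ne' (by
    linear_combination β * hp1 - (1 - p) * hΔ))
  have L := h.lim le_rfl hx
  have T := tend_lin le_rfl hx
  have ta : Tendsto (fun τ => e.a τ / τ) l0 (𝓝 0) := by
    convert L.a using 2
    linarith
  have ft : e.h [false, true] 0 = β := (sym0 0).trans h.tf
  have d0 := int_asym hx (((e.dh [true]).cmul β).sub ((e.dh [false]).cmul α))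
    (by simp [h.a0, h.b0]) (k := 1)
    ((((T [true, true]).const_mul β).sub ((T [true, false]).const_mul α)).congr fun τ => by
      rw [h.tt, h.tf]; ring)
    ((((T [false, true]).const_mul β).sub ((T [false, false]).const_mul α)).congr fun τ => by
      rw [ft, h.ff]; linear_combination (-τ⁻¹) * hΔ)
  obtain ⟨d, hd, tDm⟩ : ∃ d, 2 * (1 - p) * d = -α * cub (fun w => e.h w 0) p (1 - p) ∧
      Tendsto (fun τ => e.Dm α τ / τ ^ 2) l0 (𝓝 d) := by
    refine ⟨_, ?_, ((ta.mul (T [false, true])).add d0).congr fun τ => by rw [ft, Dm]; ring⟩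
    simp only [cub]
    norm_num
    linear_combination (p * (e.h [true, true, true] 0 * p + e.h [false, true, true] 0 * (1 - p)) +
      (1 - p) * (e.h [true, false, true] 0 * p + e.h [false, false, true] 0 * (1 - p))) * hp1
  have tDp : Tendsto (fun τ => e.Dp α τ / τ ^ 2) l0 (𝓝 0) := by
    convert ta.mul (T [true, true]) using 2
    · rw [h.tt, Dp]; ring
    · simp
  have tS := int_asym hx (e.dS α) (by simp [S, h.a0, h.acc.W0]) (k := 2)
    ((tDp.const_mul 2).congr fun τ => by ring) ((tDm.const_mul 2).congr fun τ => by ring)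
  generalize hs : (p * (2 * 0) + (1 - p) * (2 * d)) / (((2 : ℕ) : ℝ) + 1) = s at tS
  have hs' : 3 * s = 2 * (1 - p) * d := by rw [← hs]; push_cast; ring
  have s0 : 0 < s := by
    refine lt_of_le_of_ne (not_lt.1 fun h1 => h.acc.freqW ?_) fun h1 => he (mul_left_cancel₀ hα.ne' ?_)
    · filter_upwards [ev_scaled 3 L.pos tS.neg (neg_pos.2 h1) (F := fun τ => -e.S α τ)
        fun τ _ => by field_simp] with τ h2 h3
      rw [S, h3] at h2
      nlinarith [mul_self_nonneg (e.a τ)]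
    · rw [← h1] at hs'
      linarith
  have d0 : 0 < d := by nlinarith
  have tu : Tendsto (fun τ => √τ) l0 (𝓝 0) := by simpa using tendsto_id0.sqrt
  have hρ := (Real.sqrt_pos.2 s0).ne'
  have hS := ev_scaled 3 L.pos tS s0 (F := e.S α) fun τ _ => by field_simp
  have sc : ∀ᶠ τ in l0, ∃ u ρ, 0 < u ∧ 0 < ρ ∧ √τ = u ∧ τ = u ^ 2 ∧ √(e.S α τ / τ ^ 3) = ρ ∧
      √(e.S α τ) = ρ * u ^ 3 := by
    filter_upwards [hS, L.pos] with τ h1 h2
    have h3 := Real.sqrt_pos.2 h2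
    refine ⟨_, _, h3, by positivity, rfl, (Real.sq_sqrt h2.le).symm, rfl, ?_⟩
    rw [Real.sqrt_div h1.le, show τ ^ 3 = (√τ ^ 3) ^ 2 by rw [← pow_mul, mul_comm, pow_mul,
      Real.sq_sqrt h2.le], Real.sqrt_sq (by positivity)]
    field_simp
  have tR := tS.sqrt
  have lim1 : ∀ {D : ℝ → ℝ} {c : ℝ}, Tendsto (fun τ => D τ / τ ^ 2) l0 (𝓝 c) →
      Tendsto (fun τ => D τ / √(e.S α τ)) l0 (𝓝 0) := fun hD => by
    convert ((hD.div tR hρ).mul tu).congr' (sc.mono ?_) using 2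
    · simp
    · rintro τ ⟨u, ρ, u0, ρ0, h1, h2, h3, h4⟩
      simp only [Pi.div_apply, h1, h3, h4]
      rw [h2]; field_simp
  have lim2 : ∀ {D : ℝ → ℝ} {c : ℝ}, Tendsto (fun τ => D τ / τ ^ 2) l0 (𝓝 c) →
      Tendsto (fun τ => τ * (D τ / √(e.S α τ) / √(e.S α τ))) l0 (𝓝 (c / √s / √s)) := fun hD => by
    refine ((hD.div tR hρ).div tR hρ).congr' (sc.mono ?_)
    rintro τ ⟨u, ρ, u0, ρ0, h1, h2, h3, h4⟩
    simp only [Pi.div_apply, h3, h4]
    rw [h2]; field_simp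
  have lim3 : ∀ {D D₁ D₂ : ℝ → ℝ} {c c₁ c₂ : ℝ}, Tendsto (fun τ => D τ / τ) l0 (𝓝 c) →
      Tendsto (fun τ => D₁ τ / τ ^ 2) l0 (𝓝 c₁) → Tendsto (fun τ => D₂ τ / τ ^ 2) l0 (𝓝 c₂) →
      Tendsto (fun τ => τ * ((D τ * √(e.S α τ) - D₁ τ * (D₂ τ / √(e.S α τ))) / √(e.S α τ) ^ 2)) l0
        (𝓝 0) := fun hD h₁ h₂ => by
    convert ((((hD.mul tR).sub (h₁.mul (h₂.div tR hρ))).div (tR.pow 2) (pow_ne_zero 2 hρ)).mul
      tu).congr' (sc.mono ?_) using 2
    · simp
    · rintro τ ⟨u, ρ, u0, ρ0, h1, h2, h3, h4⟩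
      simp only [Pi.div_apply, h1, h3, h4]
      rw [h2]; field_simp
  have hc : 0 < d / √s / √s := by positivity
  exact h.sing_of_lim hα hβ (neg_pos.2 hβ) (half_pos hc) hS
    (((lim2 tDm).eventually (lt_mem_nhds (half_lt_self hc))).mono fun _ h => h.le)
    (lim1 tDm) (lim1 tDp) (by simpa using lim2 tDp)
    (lim3 (((L.tt.mul (T [true, true])).add (ta.mul (L.h [true, true, true]))).congr fun τ => by
      rw [h.tt, Dpp]; ring) tDp tDp)
    (lim3 (((((L.tt.mul (T [false, true])).add ((T [true, true]).const_mul β)).add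
      (ta.mul (L.h [true, false, true]))).sub ((T [true, false]).const_mul α)).congr fun τ => by
      rw [h.tt, ft, h.tf, Dmp]; ring) tDm tDp)
    (lim3 (((((L.ft.add_const β).mul (T [false, true])).add
      (ta.mul (L.h [false, false, true]))).sub ((T [false, false]).const_mul α)).congr fun τ => by
      rw [ft, h.ff, Dmm]; linear_combination (-τ⁻¹) * hΔ) tDm tDm)

end Ext

end Pool.Agent.Lib.MP_f4f7c0_an
end

-- part Pool.Agent.Lib.MP_f4f7c0_an.Main
section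

/-! Accumulation of zeros of the switching function at a good point forces a singular arc. -/

namespace Pool.Agent.Lib.MP_f4f7c0_an

open Set Filter Topology MeasureTheory Asymptotics List

namespace Ext
variable {e : Ext}

theorem gen_swap (hg : Gen fun w => e.h w 0) : Gen fun w => e.swap.h w 0 :=
  (hg.swap (sym0 0).symm).congr (c := -1) (d := 1) (by norm_num) one_ne_zero
    fun w _ => by simp [swap_h]

theorem mainA (hA : e.Acc) (hg : Gen fun w => e.h w 0) (hb : e.b 0 ≠ 0) : e.Sing := by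
  classical
  have hex : ∃ k, e.h (replicate (k + 1) true) 0 ≠ 0 := (hg.g1 true).imp fun _ h => h.2
  exact (hA.caseA hb (fun j hj => not_not.1 (Nat.find_min hex hj)) (Nat.find_spec hex)).and
    (((e.tendh [false]).eventually_ne hb).mono fun _ h => Or.inr h)

theorem mainB {α β γ : ℝ} (h : e.Deg α β γ) (hg : Gen fun w => e.h w 0) (hα : 0 ≤ α)
    (hγ : γ = 0 → α = 0) : e.Sing := by
  rcases hα.eq_or_lt with rfl | hα
  · have hβ : β ≠ 0 := h.tf ▸ hg.g3 true h.a0 h.b0 h.tt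
    exact h.sing (by simpa using hβ) (h.caseC hβ (h.ff ▸ hg.g2 h.a0 h.b0 h.tt)
      (hg.g4 true h.a0 h.b0 h.tt))
  rcases lt_trichotomy γ 0 with hγ' | hγ' | hγ'
  · have := mul_neg_of_pos_of_neg hα hγ'
    exact h.sing (by nlinarith [sq_nonneg β]) (h.caseP this)
  · exact absurd (hγ hγ') hα.ne'
  rcases lt_or_ge β 0 with hβ | hβ
  · rcases lt_trichotomy (β ^ 2) (α * γ) with hΔ | hΔ | hΔ
    · refine (h.not_def fun p h0 h1 => pos_of_mul_pos_left (b := α) ?_ hα.le).elim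
      rcases h1.eq_or_lt with rfl | h1
      · nlinarith
      · nlinarith [sq_nonneg (α * p + β * (1 - p)), mul_pos (sub_pos.2 hΔ) (pow_pos (sub_pos.2 h1) 2)]
    · exact h.double_line hα hβ hΔ fun P hP h1 h2 => hg.g5 h.a0 h.b0 P hP
        (by rw [h.tt, h.tf]; exact h1) (by rw [h.tf, h.ff]; exact h2)
    · exact h.two_lines hα hβ hγ' hΔ
  · refine (h.not_def fun p h0 h1 => ?_).elim
    have := mul_nonneg hβ (mul_nonneg h0 (sub_nonneg.2 h1))
    rcases h1.eq_or_lt with rfl | h1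
    · nlinarith
    · nlinarith [mul_nonneg hα.le (sq_nonneg p), mul_pos hγ' (pow_pos (sub_pos.2 h1) 2)]

theorem main (e : Ext) (hA : e.Acc) (hg : Gen fun w => e.h w 0) : e.Sing := by
  by_cases hb : e.b 0 = 0
  · by_cases ha : e.a 0 = 0
    · have h : e.Deg _ _ _ := ⟨hA, ha, hb, rfl, rfl, rfl⟩
      by_cases hγ : e.h [false, false] 0 = 0
      · exact (mainB h.swap (gen_swap hg) (by simp [hγ]) (by simp [hγ])).of_swap
      rcases le_or_gt 0 (e.h [true, true] 0) with hα | hα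
      · exact mainB h hg hα fun h => absurd h hγ
      rcases lt_or_gt_of_ne hγ with hγ' | hγ'
      · exact (mainB h.swap (gen_swap hg) (by linarith) fun h => by linarith).of_swap
      · have := mul_neg_of_neg_of_pos hα hγ'
        exact h.sing (by nlinarith [sq_nonneg (e.h [true, false] 0)]) (h.caseP this)
    · exact (mainA hA.swap (gen_swap hg) (by simpa using ha)).of_swap
  · exact mainA hA hg hb

end Ext

end Pool.Agent.Lib.MP_f4f7c0_an
end

-- part Pool.Agent.Lib.MP_f4f7c0_an.Final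
section

/-! Assembly, and translation to the definitions of `Stmt`. -/

namespace Pool.Agent.Lib.MP_f4f7c0_an

open scoped Manifold ContDiff

variable {M : Type*} [TopologicalSpace M] [ChartedSpace E3 M] [IsManifold (𝓡 3) ∞ M]

theorem final [T2Space M] [SecondCountableTopology M] :
    ∀ᶠ fg in @residual (VF M × VF M) (@instTopologicalSpaceProd _ _ (whitneyTop M) (whitneyTop M)),
      ∀ (q : ℝ → M) (T : ℝ), TimeOptimal fg.1 fg.2 q T → (switchingTimes q T).Finite :=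
  (residual_goodM dense_good).mono fun _ h _ _ => finite_switching
    (fun _ _ hX hX' _ _ _ hT h _ hU opt hg => by
      obtain ⟨δ, hδ, p, hp⟩ := pmp hX hX' hT h hU opt
      exact smooth_of_adjoint Ext.main hX hX' h hδ hp hg) h

theorem st_adm {f g : VF M} {u : ℝ → ℝ} {q : ℝ → M} {T : ℝ} :
    St.Admissible (E := E3) f g u q T ↔ Admissible f g u q T :=
  ⟨fun ⟨a, b, c, d, e, o⟩ => ⟨a, b, c, d, e, o⟩, fun ⟨a, b, c, d, e, o⟩ => ⟨a, b, c, d, e, o⟩⟩

theorem st_opt {f g : VF M} {q : ℝ → M} {T : ℝ} (h : St.TimeOptimal (E := E3) f g q T) :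
    TimeOptimal f g q T :=
  ⟨h.1.imp fun _ => st_adm.1, fun u' q' T' h' => h.2 u' q' T' (st_adm.2 h')⟩

theorem st_top : St.whitneyTop E3 M = whitneyTop M := rfl

theorem st_sw (q : ℝ → M) (T : ℝ) : St.switchingTimes E3 q T = switchingTimes q T := rfl

end Pool.Agent.Lib.MP_f4f7c0_an
end
end

-- part Pool.Agent.Lib.MP_f4f7c0_an.UDefs
section

/-! Definitions for the uniform bound on the number of switching times. -/

namespace Pool.Agent.Lib.MP_f4f7c0_an

open Set Filter Topology MeasureTheory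
open scoped ContDiff

theorem AC.rev {F : ℝ → ℝ} {s t : ℝ} (h : AC F s t) (c : ℝ) :
    AC (fun τ => F (c - τ)) (c - t) (c - s) := by
  unfold AC at *
  rw [absolutelyContinuousOnInterval_iff] at *
  intro ε hε
  obtain ⟨δ, hδ, H⟩ := h ε hε
  refine ⟨δ, hδ, fun E hE hl => H (E.1, fun i => (c - (E.2 i).1, c - (E.2 i).2))
    ⟨fun i hi => ?_, fun i hi j hj hij => ?_⟩ (by simpa only [dist_sub_left] using hl)⟩
  · have := hE.1 i hi
    simp only [mem_uIcc] at this ⊢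
    constructor
    · rcases this.1 with h | h
      · exact Or.inl ⟨by linarith [h.2], by linarith [h.1]⟩
      · exact Or.inr ⟨by linarith [h.2], by linarith [h.1]⟩
    · rcases this.2 with h | h
      · exact Or.inl ⟨by linarith [h.2], by linarith [h.1]⟩
      · exact Or.inr ⟨by linarith [h.2], by linarith [h.1]⟩
  · have := hE.2 hi hj hij
    simp only [Function.onFun, uIoc, Ioc_disjoint_Ioc] at this ⊢
    simp only [max_sub_sub_left, min_sub_sub_left]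
    linarith

theorem ae_rev {p : ℝ → Prop} (h : ∀ᵐ τ, p τ) (c : ℝ) : ∀ᵐ τ, p (c - τ) :=
  (Measure.measurePreserving_sub_left volume c).quasiMeasurePreserving.ae h

theorem DD.rev {m F Fp Fm : ℝ → ℝ} {s t : ℝ} (h : DD m F Fp Fm s t) (c : ℝ) :
    DD (fun τ => m (c - τ)) (fun τ => F (c - τ)) (fun τ => -Fp (c - τ)) (fun τ => -Fm (c - τ))
      (c - t) (c - s) :=
  ⟨h.1.rev c, by
    filter_upwards [ae_rev h.2 c] with τ h1 hτ
    exact ((h1 ⟨by linarith [hτ.2], by linarith [hτ.1]⟩).comp τ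
      ((hasDerivAt_id τ).const_sub c)).congr_deriv (by ring)⟩

namespace Ext
variable (e : Ext)

/-- Time reversal. -/
def rev : Ext where
  δ := e.δ
  m := fun τ => e.m (e.δ - τ)
  φ := fun τ => e.φ (e.δ - τ)
  x := fun τ => e.x e.δ - e.x (e.δ - τ)
  h := fun w τ => (-1) ^ (w.length + 1) * e.h w (e.δ - τ)
  δpos := e.δpos
  m0 := fun _ => e.m0 _
  m1 := fun _ => e.m1 _
  dφ := by simpa using e.dφ.rev e.δ
  dh := fun w => by
    have := ((e.dh w).rev e.δ).cmul ((-1) ^ (w.length + 1))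
    rw [sub_self, sub_zero] at this
    exact this.congr (fun _ _ => by simp [pow_succ]) fun _ _ => by simp [pow_succ]
  dx := by
    have := (DD.const (e.x e.δ)).sub (e.dx.rev e.δ)
    rw [sub_self, sub_zero] at this
    exact this.congr (fun _ _ => by simp) fun _ _ => by simp
  x0 := by simp
  pos := by
    filter_upwards [ae_rev e.pos e.δ] with τ h hτ
    exact h ⟨by linarith [hτ.2], by linarith [hτ.1]⟩
  neg := by
    filter_upwards [ae_rev e.neg e.δ] with τ h hτ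
    exact h ⟨by linarith [hτ.2], by linarith [hτ.1]⟩
  sym := fun w => by
    funext τ
    simp [e.sym]

@[simp] theorem rev_δ : e.rev.δ = e.δ := rfl
@[simp] theorem rev_m (τ : ℝ) : e.rev.m τ = e.m (e.δ - τ) := rfl
@[simp] theorem rev_φ (τ : ℝ) : e.rev.φ τ = e.φ (e.δ - τ) := rfl
@[simp] theorem rev_x (τ : ℝ) : e.rev.x τ = e.x e.δ - e.x (e.δ - τ) := rfl
@[simp] theorem rev_z (τ : ℝ) : e.rev.z τ = e.z e.δ - e.z (e.δ - τ) := by simp [z]; ring
theorem rev_h (w : List Bool) (τ : ℝ) :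
    e.rev.h w τ = (-1) ^ (w.length + 1) * e.h w (e.δ - τ) := rfl
@[simp] theorem rev_W (τ : ℝ) : e.rev.W τ = -e.W (e.δ - τ) := by simp [rev_h]
@[simp] theorem rev_a (τ : ℝ) : e.rev.a τ = e.a (e.δ - τ) := by simp [rev_h]
@[simp] theorem rev_b (τ : ℝ) : e.rev.b τ = e.b (e.δ - τ) := by simp [rev_h]

/-- Restriction to an initial interval. -/
def init (s : ℝ) (hs : s ∈ Ioc 0 e.δ) : Ext where
  δ := s
  m := e.m
  φ := e.φ
  x := e.x
  h := e.h
  δpos := hs.1
  m0 := e.m0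
  m1 := e.m1
  dφ := e.dφ.mono le_rfl hs.1.le hs.2
  dh := fun w => (e.dh w).mono le_rfl hs.1.le hs.2
  dx := e.dx.mono le_rfl hs.1.le hs.2
  x0 := e.x0
  pos := by filter_upwards [e.pos] with τ h hτ using h ⟨hτ.1, hτ.2.trans_le hs.2⟩
  neg := by filter_upwards [e.neg] with τ h hτ using h ⟨hτ.1, hτ.2.trans_le hs.2⟩
  sym := e.sym

abbrev α : ℝ → ℝ := e.h [true, true]
abbrev β : ℝ → ℝ := e.h [true, false]
abbrev γ : ℝ → ℝ := e.h [false, false]

/-- The control is one on the interval. -/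
def IsX (s t : ℝ) : Prop := ∀ᵐ τ, τ ∈ Ioo s t → e.m τ = 1

/-- The control is zero on the interval. -/
def IsY (s t : ℝ) : Prop := ∀ᵐ τ, τ ∈ Ioo s t → e.m τ = 0

/-- A singular interval without junction. -/
def IsS (s t : ℝ) : Prop := ∀ τ ∈ Ioo s t, e.φ τ = 0 ∧ (e.a τ ≠ 0 ∨ e.b τ ≠ 0)

/-- Break points. -/
def Br : Set ℝ :=
  {t | t ∈ Ioo 0 e.δ ∧ ∀ s u, s < t → t < u → ¬e.IsX s u ∧ ¬e.IsY s u ∧ ¬e.IsS s u}

/-- Two consecutive break points. -/
structure Arc (s t : ℝ) : Prop where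
  lt : s < t
  left : s ∈ e.Br
  right : t ∈ e.Br
  mid : ∀ τ ∈ Ioo s t, τ ∉ e.Br

/-- The generic condition holds wherever it is needed. -/
def GenAll : Prop := ∀ t ∈ Icc 0 e.δ, e.φ t = 0 → e.W t = 0 → Gen fun w => e.h w t

/-- A short extremal with brackets close to given values. -/
def Near (h₀ : List Bool → ℝ) (ε : ℝ) : Prop :=
  e.δ ≤ ε ∧ ∀ w : List Bool, w.length ≤ 4 → ∀ t ∈ Icc 0 e.δ, |e.h w t - h₀ w| ≤ ε

/-- The primitive of `m b`. -/
noncomputable def IB (t : ℝ) : ℝ := ∫ τ in (0 : ℝ)..t, e.m τ * e.b τ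

/-- The second order condition with test functions. -/
def SO (C : ℝ) : Prop :=
  ∀ ψ : Fin 4 → ℝ → ℝ, (∀ i, ContDiff ℝ 1 (ψ i)) → (∀ i j, i ≠ j → ∀ y, ψ i y * ψ j y = 0) →
    (∀ i, ψ i 0 = 0 ∧ ψ i (e.z e.δ) = 0) →
    ∃ i, ∫ τ in (0 : ℝ)..e.δ, ψ i (e.z τ) ^ 2 * (e.m τ * e.b τ) ≤
      C * (∫ τ in (0 : ℝ)..e.δ, |ψ i (e.z τ)| * e.m τ) ^ 2

/-- The interval is a full preimage under `z`. -/
structure Sat (s t : ℝ) : Prop where
  pos : 0 < s
  le : s ≤ t
  lt : t < e.δ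
  left : ∀ τ ∈ Ico 0 s, e.z τ < e.z s
  right : ∀ τ ∈ Ioc t e.δ, e.z t < e.z τ

/-- The second order condition with intervals. -/
def SI (C : ℝ) : Prop :=
  ∀ s t : Fin 4 → ℝ, (∀ i, e.Sat (s i) (t i)) → (∀ i j, i < j → t i < s j) →
    ∃ i, e.IB (t i) - e.IB (s i) ≤ C * (e.x (t i) - e.x (s i)) ^ 2

/-- Both second order conditions. -/
def SI2 (C : ℝ) : Prop := e.SI C ∧ e.swap.SI C

/-- A totally singular extremal. -/
def Flat : Prop := ∀ t ∈ Icc 0 e.δ, e.φ t = 0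

/-- Left end points of the arcs with a given property. -/
def Cnt (P : ℝ → ℝ → Prop) : Set ℝ := {s | ∃ t, e.Arc s t ∧ P s t}

/-- An `X` arc that violates the second order inequality. -/
def BadX (C s t : ℝ) : Prop := e.IsX s t ∧ C * (t - s) ^ 2 < e.IB t - e.IB s

/-- A doubly tangential `X` arc. -/
def DT (s t : ℝ) : Prop := e.IsX s t ∧ e.W s = 0 ∧ e.W t = 0

end Ext

/-- A bound for the number of break points near given bracket values. -/
def Bdd (h₀ : List Bool → ℝ) : Prop :=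
  ∃ ε > 0, ∃ N : ℕ, ∀ e : Ext, e.Near h₀ ε → e.GenAll → e.SI2 ε → e.Br.encard ≤ N

/-- Time-optimality among the trajectories that stay in `U`. -/
def Opt (X Y : E3 → E3) (U : Set E3) (q : ℝ → E3) (T : ℝ) : Prop :=
  ∀ m' q' T', Traj X Y m' q' T' → MapsTo q' (Icc 0 T') U → q' 0 = q 0 → q' T' = q T → T ≤ T'

/-- Time-optimality of all pieces. -/
def Opt2 (X Y : E3 → E3) (U : Set E3) (q : ℝ → E3) (T : ℝ) : Prop :=
  ∀ s t, 0 ≤ s → s ≤ t → t ≤ T → Opt X Y U (fun τ => q (s + τ)) (t - s)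

/-- Smooth with compact support. -/
structure SC (X : E3 → E3) : Prop where
  sm : ContDiff ℝ ∞ X
  cs : HasCompactSupport X

/-- A first order variation with fixed end points and total time. -/
structure IsVar (X Y : E3 → E3) (m : ℝ → ℝ) (q : ℝ → E3) (T : ℝ) (u v : ℝ → ℝ) (r : ℝ → E3) :
    Prop where
  mu : Measurable u
  mv : Measurable v
  bd : ∃ B, ∀ t, |u t| ≤ B ∧ |v t| ≤ B
  lip : ∃ C, LipschitzOnWith C r (Icc 0 T)
  r0 : r 0 = 0
  rT : r T = 0
  ode : ∀ᵐ t, t ∈ Ioo 0 T → HasDerivAt r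
    ((m t • fderiv ℝ X (q t) + (1 - m t) • fderiv ℝ Y (q t)) (r t) +
      ((m t * u t) • X (q t) + ((1 - m t) * v t) • Y (q t))) t
  tot : ∫ t in (0 : ℝ)..T, (m t * u t + (1 - m t) * v t) = 0

/-- The integrand of the second variation. -/
noncomputable def secVec (X Y : E3 → E3) (m : ℝ → ℝ) (q : ℝ → E3) (u v : ℝ → ℝ) (r : ℝ → E3)
    (t : ℝ) : E3 :=
  (1 / 2 : ℝ) • (m t • fderiv ℝ (fderiv ℝ X) (q t) (r t) (r t) +
      (1 - m t) • fderiv ℝ (fderiv ℝ Y) (q t) (r t) (r t)) +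
    ((m t * u t) • fderiv ℝ X (q t) (r t) + ((1 - m t) * v t) • fderiv ℝ Y (q t) (r t))

/-- The second variation is nonpositive. -/
def Second (X Y : E3 → E3) (m : ℝ → ℝ) (q : ℝ → E3) (p : ℝ → E3 →L[ℝ] ℝ) (T : ℝ) : Prop :=
  ∀ u v r, IsVar X Y m q T u v r → ∫ t in (0 : ℝ)..T, p t (secVec X Y m q u v r t) ≤ 0

/-- The times at which a curve is not smooth. -/
def sw (q : ℝ → E3) (T : ℝ) : Set ℝ :=
  {t ∈ Icc 0 T | ¬ ∃ s ∈ 𝓝[Icc 0 T] t, ContDiffOn ℝ ∞ q s}

/-- The control is bang near `t`. -/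
def Bang (m : ℝ → ℝ) (t : ℝ) : Prop :=
  ∃ s u, s < t ∧ t < u ∧ ((∀ᵐ τ, τ ∈ Ioo s u → m τ = 1) ∨ ∀ᵐ τ, τ ∈ Ioo s u → m τ = 0)

/-- The trace. -/
noncomputable def tr3 (A : E3 →L[ℝ] E3) : ℝ := ∑ j, A (EuclideanSpace.single j 1) j

/-- Conditions at a zero of the first field. -/
structure Zer (X Y : E3 → E3) (q : E3) : Prop where
  kal : X q = 0 → ∀ p : E3 →L[ℝ] ℝ, p ≠ 0 → p (X q - Y q) = 0 → p (br X Y [] q) = 0 →
    p (br X Y [true] q) ≠ 0
  eig : X q = 0 → ∀ p : E3 →L[ℝ] ℝ, p ≠ 0 →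
    p.comp (fderiv ℝ X q) ≠ (tr3 (fderiv ℝ X q) / 3) • p

/-- The generic conditions for the uniform bound. -/
structure Good3 (X Y : E3 → E3) (q : E3) : Prop where
  good : Good X Y q
  d1 : X q = Y q → br X Y [] q ≠ 0
  d2 : ∀ c ∈ Icc (0 : ℝ) 1, c • X q + (1 - c) • Y q = 0 → ∀ p : E3 →L[ℝ] ℝ, p ≠ 0 →
    p (X q - Y q) = 0 → p (br X Y [] q) = 0 → p (br X Y [true] q) ≠ 0 ∨ p (br X Y [false] q) ≠ 0
  zx : Zer X Y q
  zy : Zer Y X q

open scoped Manifold in
/-- The conditions hold at every point of the manifold, in some chart. -/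
def GoodM3 {M : Type*} [TopologicalSpace M] [ChartedSpace E3 M] [IsManifold (𝓡 3) ∞ M]
    (f g : VF M) : Prop :=
  ∀ x : M, ∃ c : M, x ∈ (chartAt E3 c).source ∧
    Good3 (chartRep c (f + g)) (chartRep c (f - g)) (extChartAt (𝓡 3) c x)

/-- The uniform bound in a chart. -/
def LocalBound : Prop :=
  ∀ X Y : E3 → E3, SC X → SC Y → ∀ q₀, Good3 X Y q₀ → ∀ U, IsOpen U → q₀ ∈ U →
    ∃ U' ∈ 𝓝 q₀, ∃ k : ℕ, ∀ m q T, Traj X Y m q T → MapsTo q (Icc 0 T) U' → Opt2 X Y U q T →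
      (sw q T).encard ≤ k

theorem Zer.congr {X Y X' Y' : E3 → E3} {q : E3} (hg : Zer X Y q) (h : X =ᶠ[𝓝 q] X')
    (h' : Y =ᶠ[𝓝 q] Y') : Zer X' Y' q := by
  have := hg.kal
  have := hg.eig
  constructor <;>
    simp only [← (br_congr h h' _).eq_of_nhds, ← h.eq_of_nhds, ← h'.eq_of_nhds, ← h.fderiv_eq] <;>
    assumption

theorem Good3.congr {X Y X' Y' : E3 → E3} {q : E3} (hg : Good3 X Y q) (h : X =ᶠ[𝓝 q] X')
    (h' : Y =ᶠ[𝓝 q] Y') : Good3 X' Y' q := by
  have := hg.d1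
  have := hg.d2
  refine ⟨hg.good.congr h h', ?_, ?_, hg.zx.congr h h', hg.zy.congr h' h⟩ <;>
    simp only [← (br_congr h h' _).eq_of_nhds, ← h.eq_of_nhds, ← h'.eq_of_nhds] <;>
    assumption

end Pool.Agent.Lib.MP_f4f7c0_an
end

-- part Pool.Agent.Lib.MP_f4f7c0_an.UBase
section

/-! Symmetries of extremals, calculus on bang intervals, second order conditions, counting. -/

namespace Pool.Agent.Lib.MP_f4f7c0_an

open Set Filter Topology MeasureTheory

theorem DD.le_of_ae {m F Fp Fm : ℝ → ℝ} {s t : ℝ} (h : DD m F Fp Fm s t) (hst : s ≤ t)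
    (hB : ∀ᵐ τ, τ ∈ Ioo s t → m τ * Fp τ + (1 - m τ) * Fm τ ≤ 0) : F t ≤ F s :=
  h.1.le_of_ae hst (by filter_upwards [h.2, hB] with τ h1 h2 hτ using ⟨h1 hτ, h2 hτ⟩)

theorem DD.abs_le {m F Fp Fm : ℝ → ℝ} {s t B : ℝ} (h : DD m F Fp Fm s t)
    (hB : ∀ᵐ τ, τ ∈ Ioo s t → |m τ * Fp τ + (1 - m τ) * Fm τ| ≤ B) {u v : ℝ} (hu : u ∈ Icc s t)
    (hv : v ∈ Icc s t) : |F v - F u| ≤ B * |v - u| := by
  wlog huv : u ≤ v generalizing u v
  · rw [abs_sub_comm, abs_sub_comm v]; exact this hv hu (le_of_not_ge huv)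
  have h1 := h.mono hu.1 huv hv.2
  have h2 := (h1.sub (DD.id.cmul B)).le_of_ae huv (by
    filter_upwards [hB] with τ h2 hτ
    linarith [(_root_.abs_le.1 (h2 ⟨hu.1.trans_lt hτ.1, hτ.2.trans_le hv.2⟩)).2])
  have h3 := (h1.neg.sub (DD.id.cmul B)).le_of_ae huv (by
    filter_upwards [hB] with τ h2 hτ
    linarith [(_root_.abs_le.1 (h2 ⟨hu.1.trans_lt hτ.1, hτ.2.trans_le hv.2⟩)).1])
  rw [abs_of_nonneg (sub_nonneg.2 huv), _root_.abs_le]
  constructor <;> linarith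

/-- Uniform closeness of the short words is enough for an open condition. -/
theorem exists_eps {h₀ : List Bool → ℝ} {Q : (List Bool → ℝ) → Prop} (hQ : ∀ᶠ h in 𝓝 h₀, Q h) :
    ∃ ε > 0, ∀ h : List Bool → ℝ, (∀ w : List Bool, w.length ≤ 4 → |h w - h₀ w| ≤ ε) →
      Q fun w => if w.length ≤ 4 then h w else h₀ w := by
  rw [nhds_pi] at hQ
  obtain ⟨I, hI, t, ht, h1⟩ := Filter.mem_pi.1 hQ
  have := (eventually_all_finite hI).2 fun i _ => eventually_closedBall_subset (ht i)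
  obtain ⟨ε, h2, h3⟩ := ((this.filter_mono (nhdsWithin_le_nhds (s := Ioi 0))).and
    self_mem_nhdsWithin).exists
  refine ⟨ε, h3, fun h hh => h1 fun w hw => h2 w hw ?_⟩
  rw [Metric.mem_closedBall, Real.dist_eq]
  split_ifs with h4
  exacts [hh w h4, by simpa using h3.le]

namespace Ext
variable {e : Ext} {s t u s' t' C C' ε : ℝ} {h₀ : List Bool → ℝ} {F Fp Fm G Gm H : ℝ → ℝ}

theorem exists_genAll (hg : Gen h₀) : ∃ ε > 0, ∀ e : Ext, e.Near h₀ ε → e.GenAll := by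
  obtain ⟨ε, h1, h2⟩ := exists_eps (isOpen_gen.mem_nhds hg)
  exact ⟨ε, h1, fun e he t ht _ _ => (h2 _ fun w hw => he.2 w hw t ht).congr one_ne_zero
    one_ne_zero fun w hw => by simp [hw]⟩

theorem Near.mono (h : e.Near h₀ ε) {ε' : ℝ} (hε : ε ≤ ε') : e.Near h₀ ε' :=
  ⟨h.1.trans hε, fun w hw t ht => (h.2 w hw t ht).trans hε⟩


theorem int_m (e : Ext) (hG : ContinuousOn G (Icc 0 e.δ)) :
    IntervalIntegrable (fun τ => e.m τ * G τ) volume 0 e.δ := by
  refine IntervalIntegrable.mul_continuousOn (e.dx.1.intervalIntegrable_deriv.congr_ae ?_)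
    (by rwa [uIcc_of_le e.δpos.le])
  rw [uIoc_of_le e.δpos.le, ← Measure.restrict_congr_set Ioo_ae_eq_Ioc]
  refine (ae_restrict_iff' measurableSet_Ioo).2 ?_
  filter_upwards [e.dx.2] with τ h hτ using by simpa using (h hτ).deriv

theorem dInt (e : Ext) (hG : ContinuousOn G (Icc 0 e.δ)) :
    DD e.m (fun t => ∫ τ in (0 : ℝ)..t, e.m τ * G τ) G (fun _ => 0) 0 e.δ :=
  ⟨(e.int_m hG).absolutelyContinuousOnInterval_intervalIntegral left_mem_uIcc, by
    filter_upwards [(e.int_m hG).ae_hasDerivAt_integral] with τ h hτ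
    simpa using h (Icc_subset_uIcc (Ioo_subset_Icc_self hτ)) 0 left_mem_uIcc⟩

theorem dIB (e : Ext) : DD e.m e.IB e.b (fun _ => 0) 0 e.δ := e.dInt (e.conth _)

theorem ae_sing (e : Ext) : ∀ᵐ τ, τ ∈ Ioo 0 e.δ → e.φ τ = 0 →
    e.W τ = 0 ∧ e.m τ * e.a τ + (1 - e.m τ) * e.b τ = 0 := by
  have hc := countable_setOfPred_isolated_right_within (s := {τ | e.W τ = 0})
  filter_upwards [e.tri, (e.dh []).2, hc.ae_notMem volume] with τ h1 h2 h3 hm h
  have hW : e.W τ = 0 := by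
    rcases h1 hm with h4 | h4 | h4
    exacts [absurd h h4.1.ne', absurd h h4.1.ne, h4.2]
  refine ⟨hW, by_contra fun hn => h3 ⟨hW, ?_⟩⟩
  have := (h2 hm).eventually_ne (c := 0) hn
  rw [← empty_mem_iff_bot]
  filter_upwards [self_mem_nhdsWithin, nhdsWithin_mono τ (fun y (hy : y ∈ {τ | e.W τ = 0} ∩ Ioi τ) =>
    (ne_of_gt hy.2 : y ∈ ({τ}ᶜ : Set ℝ))) this] with y hy hy' using hy' hy.1

theorem x_mono (hs : 0 ≤ s) (hst : s ≤ t) (ht : t ≤ e.δ) : e.x s ≤ e.x t :=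
  mono' (e.dx.mono hs hst ht) hs hst ht (fun _ _ => zero_le_one) fun _ _ => le_rfl

/-! Exchange of the two fields. -/


theorem ext5 {e e' : Ext} (h1 : e.δ = e'.δ) (h2 : e.m = e'.m) (h3 : e.φ = e'.φ) (h4 : e.x = e'.x)
    (h5 : e.h = e'.h) : e = e' := by
  cases e; cases e'; congr

@[simp] theorem swap_swap (e : Ext) : e.swap.swap = e :=
  ext5 rfl (by funext; simp) (by funext; simp) (by simp) (by
    funext w τ; simp [swap_h, Function.comp_def])
@[simp] theorem swap_α (τ : ℝ) : e.swap.α τ = -e.γ τ := rfl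
@[simp] theorem swap_β (τ : ℝ) : e.swap.β τ = -e.β τ := congrArg Neg.neg (sym0 τ)
@[simp] theorem swap_γ (τ : ℝ) : e.swap.γ τ = -e.α τ := rfl
@[simp] theorem swap_isX : e.swap.IsX s t ↔ e.IsY s t := by simp [IsX, IsY]
@[simp] theorem swap_isY : e.swap.IsY s t ↔ e.IsX s t := by
  simp only [IsX, IsY, swap_m, sub_eq_zero, @eq_comm ℝ 1]
@[simp] theorem swap_isS : e.swap.IsS s t ↔ e.IsS s t := by simp [IsS, or_comm]
@[simp] theorem swap_Br : e.swap.Br = e.Br := by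
  ext t; simp [Br, and_left_comm]
@[simp] theorem swap_arc : e.swap.Arc s t ↔ e.Arc s t :=
  ⟨fun h => ⟨h.lt, swap_Br ▸ h.left, swap_Br ▸ h.right, swap_Br ▸ h.mid⟩,
    fun h => ⟨h.lt, swap_Br.symm ▸ h.left, swap_Br.symm ▸ h.right, swap_Br.symm ▸ h.mid⟩⟩
@[simp] theorem swap_flat : e.swap.Flat ↔ e.Flat := by simp [Flat]
theorem swap_cnt (P : ℝ → ℝ → Prop) : e.swap.Cnt P = e.Cnt P := by simp [Cnt]
theorem GenAll.swap (h : e.GenAll) : e.swap.GenAll := fun t ht h1 h2 =>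
  ((h t ht (by simpa using h1) (by simpa using h2)).swap (sym0 t).symm).congr (c := -1) (d := 1)
    (by norm_num) one_ne_zero fun w _ => by simp [swap_h]
theorem Near.swap (h : e.Near h₀ ε) : e.swap.Near (fun w => -h₀ (w.map not)) ε :=
  ⟨h.1, fun w hw t ht => by
    rw [swap_h, neg_sub_neg, abs_sub_comm]; exact h.2 _ (by simpa using hw) t ht⟩
theorem SI2.swap (h : e.SI2 C) : e.swap.SI2 C := ⟨h.2, by rw [swap_swap]; exact h.1⟩

/-! Time reversal. -/

theorem rev_ae {p : ℝ → Prop} {c : ℝ} :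
    (∀ᵐ τ, τ ∈ Ioo s t → p (c - τ)) ↔ ∀ᵐ τ, τ ∈ Ioo (c - t) (c - s) → p τ :=
  ⟨fun h => by
    filter_upwards [ae_rev h c] with τ h1 hτ
    simpa using h1 ⟨by linarith [hτ.2], by linarith [hτ.1]⟩, fun h => by
    filter_upwards [ae_rev h c] with τ h1 hτ using h1 ⟨by linarith [hτ.2], by linarith [hτ.1]⟩⟩


theorem rev_isX : e.rev.IsX s t ↔ e.IsX (e.δ - t) (e.δ - s) := rev_ae (p := fun τ => e.m τ = 1)
theorem rev_isY : e.rev.IsY s t ↔ e.IsY (e.δ - t) (e.δ - s) := rev_ae (p := fun τ => e.m τ = 0)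
theorem rev_isS : e.rev.IsS s t ↔ e.IsS (e.δ - t) (e.δ - s) :=
  ⟨fun h τ hτ => by simpa using h (e.δ - τ) ⟨by linarith [hτ.2], by linarith [hτ.1]⟩,
    fun h τ hτ => by simpa using h (e.δ - τ) ⟨by linarith [hτ.2], by linarith [hτ.1]⟩⟩
theorem mem_rev_Br : t ∈ e.rev.Br ↔ e.δ - t ∈ e.Br := by
  simp only [Br, mem_ofPred_eq, rev_isX, rev_isY, rev_isS, rev_δ]
  exact ⟨fun h => ⟨⟨by linarith [h.1.2], by linarith [h.1.1]⟩, fun s u hs hu => by
      simpa using h.2 (e.δ - u) (e.δ - s) (by linarith) (by linarith)⟩,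
    fun h => ⟨⟨by linarith [h.1.2], by linarith [h.1.1]⟩, fun s u hs hu =>
      h.2 _ _ (by linarith) (by linarith)⟩⟩
theorem encard_rev : e.rev.Br.encard = e.Br.encard := by
  rw [← encard_preimage_of_injective_subset_range (f := fun τ => e.δ - τ) (t := e.Br)
    sub_right_injective fun τ _ => ⟨e.δ - τ, by simp⟩]
  congr 1
  ext t
  exact mem_rev_Br
theorem GenAll.rev (h : e.GenAll) : e.rev.GenAll := fun t ht h1 h2 =>
  (h (e.δ - t) ⟨sub_nonneg.2 ht.2, sub_le_self _ ht.1⟩ h1 (by simpa using h2)).congr (c := -1)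
    (d := -1) (by norm_num) (by norm_num) fun w _ => by rw [rev_h, pow_succ']
theorem Near.rev (h : e.Near h₀ ε) : e.rev.Near (fun w => (-1) ^ (w.length + 1) * h₀ w) ε :=
  ⟨h.1, fun w hw t ht => by
    rw [rev_h, ← mul_sub, abs_mul, abs_neg_one_pow, one_mul]
    exact h.2 w hw _ ⟨sub_nonneg.2 ht.2, sub_le_self _ ht.1⟩⟩

theorem rev_swap : e.swap.rev = e.rev.swap :=
  ext5 rfl rfl rfl (by funext; simp) (by funext w τ; simp [rev_h, swap_h])

theorem rev_IB (ht : t ∈ Icc 0 e.δ) : e.rev.IB t = e.IB e.δ - e.IB (e.δ - t) := by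
  have h1 := e.dIB.rev e.δ
  rw [sub_self, sub_zero] at h1
  have := (e.rev.dIB.add h1).abs_le (B := 0) (.of_forall fun τ _ => by simp)
    (left_mem_Icc.2 e.δpos.le) ht
  simp only [zero_mul, abs_nonpos_iff, IB, intervalIntegral.integral_same, sub_zero] at this ⊢
  linarith

theorem SI.rev (h : e.SI C) : e.rev.SI C := fun s t h1 h2 => by
  obtain ⟨i, hi⟩ := h (fun i => e.δ - t i.rev) (fun i => e.δ - s i.rev) (fun i => by
    have H := h1 i.rev
    refine ⟨sub_pos.2 H.lt, sub_le_sub_left H.le _, sub_lt_self _ H.pos, fun τ hτ => ?_,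
      fun τ hτ => ?_⟩
    · simpa using H.right (e.δ - τ) ⟨by linarith [hτ.2], sub_le_self _ hτ.1⟩
    · simpa using H.left (e.δ - τ) ⟨sub_nonneg.2 hτ.2, by linarith [hτ.1]⟩)
    fun i j hij => sub_lt_sub_left (h2 _ _ (Fin.rev_lt_rev.2 hij)) _
  have H := h1 i.rev
  refine ⟨i.rev, ?_⟩
  rw [rev_IB (e := e) ⟨H.pos.le.trans H.le, H.lt.le⟩,
    rev_IB (e := e) ⟨H.pos.le, H.le.trans H.lt.le⟩, rev_x, rev_x]
  convert hi using 1 <;> ring

theorem SI2.rev (h : e.SI2 C) : e.rev.SI2 C := ⟨h.1.rev, rev_swap ▸ h.2.rev⟩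

/-! Bang intervals. -/

theorem IsX.mono (h : e.IsX s t) (hs : s ≤ s') (ht : t' ≤ t) : e.IsX s' t' := by
  filter_upwards [h] with τ h1 hτ using h1 (Ioo_subset_Ioo hs ht hτ)
theorem IsY.mono (h : e.IsY s t) (hs : s ≤ s') (ht : t' ≤ t) : e.IsY s' t' := by
  filter_upwards [h] with τ h1 hτ using h1 (Ioo_subset_Ioo hs ht hτ)
theorem IsS.mono (h : e.IsS s t) (hs : s ≤ s') (ht : t' ≤ t) : e.IsS s' t' :=
  fun τ hτ => h τ (Ioo_subset_Ioo hs ht hτ)
theorem IsX.append (h : e.IsX s t) (h' : e.IsX t u) : e.IsX s u := by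
  filter_upwards [h, h', Measure.ae_ne volume t] with τ h1 h2 h3 hτ
  rcases h3.lt_or_gt with h4 | h4
  exacts [h1 ⟨hτ.1, h4⟩, h2 ⟨h4, hτ.2⟩]
theorem not_isX_isY (hst : s < t) (h : e.IsX s t) (h' : e.IsY s t) : False := by
  have : ∀ᵐ τ, τ ∉ Ioo s t := by
    filter_upwards [h, h'] with τ h1 h2 hτ using zero_ne_one ((h2 hτ).symm.trans (h1 hτ))
  rw [← measure_eq_zero_iff_ae_notMem, Real.volume_Ioo, ENNReal.ofReal_eq_zero] at this
  linarith

theorem isX_iff (hs : 0 ≤ s) (hst : s ≤ t) (ht : t ≤ e.δ) : e.IsX s t ↔ e.z s = e.z t := by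
  have hz := e.dz.mono hs hst ht
  refine ⟨fun h => (z_mono hs hst ht).antisymm (hz.le_of_ae hst ?_), fun h => ?_⟩
  · filter_upwards [h] with τ h1 hτ using by simp [h1 hτ]
  · filter_upwards [hz.2] with τ h1 hτ
    have := (h1 hτ).unique ((hasDerivAt_const τ (e.z s)).congr_of_eventuallyEq (by
      filter_upwards [Icc_mem_nhds hτ.1 hτ.2] with y hy
      exact (h ▸ z_mono (hs.trans hy.1) hy.2 ht).antisymm (z_mono hs hy.1 (hy.2.trans ht))))
    linarith

theorem z_lt (hs : 0 ≤ s) (hst : s ≤ t) (ht : t ≤ e.δ) (h : ¬e.IsX s t) : e.z s < e.z t :=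
  (z_mono hs hst ht).lt_of_ne (mt (isX_iff hs hst ht).2 h)
theorem x_lt (hs : 0 ≤ s) (hst : s ≤ t) (ht : t ≤ e.δ) (h : ¬e.IsY s t) : e.x s < e.x t := by
  simpa using z_lt (e := e.swap) hs hst ht (mt swap_isX.1 h)

theorem isX_of_pos (hs : 0 ≤ s) (ht : t ≤ e.δ) (h : ∀ τ ∈ Ioo s t, 0 < e.φ τ) : e.IsX s t := by
  filter_upwards [e.pos] with τ h1 hτ using h1 (Ioo_subset_Ioo hs ht hτ) (h τ hτ)

/-- Where the switching function does not vanish the control is bang. -/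
theorem bang_of_ne (hs : 0 ≤ s) (ht : t ≤ e.δ) (h : ∀ τ ∈ Ioo s t, e.φ τ ≠ 0) :
    e.IsX s t ∨ e.IsY s t := by
  by_cases h1 : ∀ τ ∈ Ioo s t, 0 < e.φ τ
  · exact .inl (isX_of_pos hs ht h1)
  push Not at h1
  obtain ⟨τ, h1, h2⟩ := h1
  refine .inr (swap_isX.1 (isX_of_pos hs ht fun y hy => neg_pos.2 (not_le.1 fun h3 => ?_)))
  obtain ⟨c, h4, h5⟩ := isPreconnected_Ioo.intermediate_value h1 hy
    (e.contφ.mono (Ioo_subset_Icc_self.trans (Icc_subset_Icc hs ht))) ⟨h2, h3⟩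
  exact h c h4 h5

theorem IsX.x_sub (h : e.IsX s t) (hs : 0 ≤ s) (hst : s ≤ t) (ht : t ≤ e.δ) :
    e.x t - e.x s = t - s := by
  have := (isX_iff hs hst ht).1 h
  simp only [z] at this
  linarith

theorem IsX.φ_nonneg (h : e.IsX s t) (hs : 0 ≤ s) (hst : s < t) (ht : t ≤ e.δ) :
    ∀ τ ∈ Icc s t, 0 ≤ e.φ τ := by
  have hc := e.contφ.mono (Icc_subset_Icc hs ht)
  rw [← closure_Ioo hst.ne] at hc ⊢
  refine fun τ hτ => le_on_closure (fun y hy => not_lt.1 fun h1 => ?_) continuousOn_const hc hτ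
  rw [closure_Ioo hst.ne] at hc
  obtain ⟨a, b, h2, h3⟩ := mem_nhds_iff_exists_Ioo_subset.1
    (((hc.continuousAt (Icc_mem_nhds hy.1 hy.2)).eventually_lt continuousAt_const h1).and
      (Ioo_mem_nhds hy.1 hy.2))
  refine not_isX_isY (e := e) (h2.1.trans h2.2) ?_ ?_
  · filter_upwards [h] with τ h4 h5 using h4 (h3 h5).2
  · filter_upwards [e.neg] with τ h4 h5 using h4 (Ioo_subset_Ioo hs ht (h3 h5).2) (h3 h5).1

theorem IsX.anti (h : e.IsX s t) (hF : DD e.m F Fp Fm s t) (hst : s ≤ t)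
    (hp : ∀ τ ∈ Ioo s t, Fp τ ≤ 0) : F t ≤ F s :=
  hF.le_of_ae hst (by filter_upwards [h] with τ h1 hτ using by simpa [h1 hτ] using hp τ hτ)

theorem IsX.hasDerivAt (h : e.IsX s t) (hs : 0 ≤ s) (ht : t ≤ e.δ) (w : List Bool) {τ : ℝ}
    (hτ : τ ∈ Ioo s t) : HasDerivAt (e.h w) (e.h (true :: w) τ) τ := by
  have := (e.dh w).mono hs (hτ.1.trans hτ.2).le ht
  refine this.1.hasDerivAt ((e.conth _).mono (Icc_subset_Icc hs ht)) ?_ hτ
  filter_upwards [h, this.2] with y h1 h2 hy using by simpa [h1 hy] using h2 hy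

theorem IsX.taylor_up (h : e.IsX s t) (hst : s ≤ t) (hF : DD e.m F G Fm s t)
    (hG : DD e.m G H Gm s t) {r : ℝ} (hH : ∀ τ ∈ Ioo s t, H τ ≤ r) :
    F t - F s ≤ G s * (t - s) + r * (t - s) ^ 2 / 2 ∧
      G t * (t - s) - r * (t - s) ^ 2 / 2 ≤ F t - F s := by
  have h1 : ∀ a b, s ≤ a → a ≤ b → b ≤ t → G b - r * b ≤ G a - r * a := fun a b ha hab hb =>
    (h.mono ha hb).anti ((hG.mono ha hab hb).sub (DD.id.cmul r)) hab fun τ hτ => by
      linarith [hH τ (Ioo_subset_Ioo ha hb hτ)]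
  have h2 := h.anti ((hF.sub (DD.id.cmul (G s - r * s))).sub ((DD.id.mul DD.id).cmul (r / 2))) hst
    fun τ hτ => by linarith [h1 s τ le_rfl hτ.1.le hτ.2.le]
  have h3 := h.anti ((hF.neg.add (DD.id.cmul (G t - r * t))).add ((DD.id.mul DD.id).cmul (r / 2)))
    hst fun τ hτ => by linarith [h1 τ t hτ.1.le hτ.2.le le_rfl]
  constructor <;> linarith


/-- Taylor bounds of order two at both ends of an `X` interval. -/
theorem IsX.taylor (h : e.IsX s t) (hst : s ≤ t) (hF : DD e.m F G Fm s t) (hG : DD e.m G H Gm s t)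
    {l r : ℝ} (hH : ∀ τ ∈ Ioo s t, l ≤ H τ ∧ H τ ≤ r) :
    (G s * (t - s) + l * (t - s) ^ 2 / 2 ≤ F t - F s ∧
      F t - F s ≤ G s * (t - s) + r * (t - s) ^ 2 / 2) ∧
    G t * (t - s) - r * (t - s) ^ 2 / 2 ≤ F t - F s ∧
      F t - F s ≤ G t * (t - s) - l * (t - s) ^ 2 / 2 := by
  have h1 := h.taylor_up hst hF hG fun τ hτ => (hH τ hτ).2
  have h2 := h.taylor_up hst hF.neg hG.neg (r := -l) fun τ hτ => neg_le_neg (hH τ hτ).1
  refine ⟨⟨?_, h1.1⟩, h1.2, ?_⟩ <;> linarith [h2.1, h2.2]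

/-- The sum of the slopes at the ends of a complete `X` interval. -/
theorem IsX.slopes (h : e.IsX s t) (hs : 0 ≤ s) (hst : s < t) (ht : t ≤ e.δ) (h0 : e.φ s = 0)
    (h1 : e.φ t = 0) {l r : ℝ} (hα : ∀ τ ∈ Ioo s t, l ≤ e.α τ ∧ e.α τ ≤ r) :
    l * (t - s) ^ 2 / 6 ≤ e.W s + e.W t ∧ e.W s + e.W t ≤ r * (t - s) ^ 2 / 6 := by
  have d := fun w => (e.dh w).mono hs hst.le ht
  have p := (DD.id (m := e.m) (s := s) (t := t)).sub (DD.const s)
  have q := (DD.const (m := e.m) (s := s) (t := t) t).sub DD.id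
  have hF := (((p.mul q).mul (d [true])).sub ((q.sub p).mul (d []))).sub
    ((e.dφ.mono hs hst.le ht).cmul 2)
  have hK := ((p.mul p).cmul ((t - s) / 2)).sub (((p.mul p).mul p).cmul (1 / 3))
  have h2 := h.anti (hF.sub (hK.cmul r)) hst.le fun τ hτ => by
    nlinarith [mul_nonneg (mul_pos (sub_pos.2 hτ.1) (sub_pos.2 hτ.2)).le (sub_nonneg.2 (hα τ hτ).2)]
  have h3 := h.anti ((hK.cmul l).sub hF) hst.le fun τ hτ => by
    nlinarith [mul_nonneg (mul_pos (sub_pos.2 hτ.1) (sub_pos.2 hτ.2)).le (sub_nonneg.2 (hα τ hτ).1)]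
  simp only [h0, h1] at h2 h3
  exact ⟨le_of_mul_le_mul_left (by linarith) (sub_pos.2 hst),
    le_of_mul_le_mul_left (by linarith) (sub_pos.2 hst)⟩

/-- Concavity on the negative part. -/
theorem cvx (hs : 0 < s) (ht : t < e.δ) (h0 : e.φ s = 0) (h1 : e.φ t = 0)
    (hb : ∀ τ ∈ Ioo s t, e.b τ < 0) : ∀ τ ∈ Icc s t, 0 ≤ e.φ τ := fun τ hτ => not_lt.1 fun h => by
  obtain ⟨a, b, h2, h3, h4, h5, h6, -, h7, -, h8⟩ := arc_neg hs ht h0 h1 hτ h
  have ha := hs.le.trans h2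
  have hb' := h5.trans ht.le
  have h9 : ∀ y ∈ Ioo a τ, 0 ≤ e.W y := fun y hy => h8.trans (anti_neg
    ((e.dh []).mono (ha.trans hy.1.le) (hy.2.trans h4).le hb') (ha.trans hy.1.le)
    (hy.2.trans h4).le hb' (fun c hc => h7 c ⟨hy.1.trans hc.1, hc.2⟩)
    fun c hc => (hb c ⟨(h2.trans_lt hy.1).trans hc.1, hc.2.trans_le h5⟩).le)
  linarith [mono' (e.dφ.mono ha h3.le (h4.le.trans hb')) ha h3.le (h4.le.trans hb') h9 h9]

/-! Second order conditions. -/

theorem SI.mono (h : e.SI C) (hC : C ≤ C') : e.SI C' := fun s t h1 h2 =>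
  (h s t h1 h2).imp fun _ h => h.trans (mul_le_mul_of_nonneg_right hC (sq_nonneg _))
theorem SI2.mono (h : e.SI2 C) (hC : C ≤ C') : e.SI2 C' := ⟨h.1.mono hC, h.2.mono hC⟩

/-- A smooth approximation of the indicator function of an interval. -/
noncomputable def bump (A B : ℝ) (k : ℕ) (y : ℝ) : ℝ :=
  Real.smoothTransition (k * (y - A) + 1) * Real.smoothTransition (k * (B - y) + 1)

theorem bump_mem (A B : ℝ) (k : ℕ) (y : ℝ) : bump A B k y ∈ Icc (0 : ℝ) 1 :=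
  ⟨mul_nonneg (Real.smoothTransition.nonneg _) (Real.smoothTransition.nonneg _),
    mul_le_one₀ (Real.smoothTransition.le_one _) (Real.smoothTransition.nonneg _)
      (Real.smoothTransition.le_one _)⟩

theorem bump_zero {A B y : ℝ} {k : ℕ} (h : k * (y - A) + 1 ≤ 0 ∨ k * (B - y) + 1 ≤ 0) :
    bump A B k y = 0 := by
  rcases h with h | h <;> simp [bump, Real.smoothTransition.zero_of_nonpos h]

theorem Sat.tendsto (h : e.Sat s t) (n : ℕ) (hn : n ≠ 0) (hG : ContinuousOn G (Icc 0 e.δ)) :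
    Tendsto (fun k : ℕ => ∫ τ in (0 : ℝ)..e.δ, bump (e.z s) (e.z t) k (e.z τ) ^ n * (e.m τ * G τ))
      atTop (𝓝 ((∫ τ in (0 : ℝ)..t, e.m τ * G τ) - ∫ τ in (0 : ℝ)..s, e.m τ * G τ)) := by
  have hi := e.int_m hG
  have ht := h.pos.le.trans h.le
  have hδ := e.δpos.le
  have e1 : (∫ τ in (0 : ℝ)..t, e.m τ * G τ) - ∫ τ in (0 : ℝ)..s, e.m τ * G τ =
      ∫ τ in (0 : ℝ)..e.δ, (Icc s t).indicator (fun τ => e.m τ * G τ) τ := by
    rw [intervalIntegral.integral_interval_sub_left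
      (hi.mono_set (uIcc_subset_uIcc_left (Icc_subset_uIcc ⟨ht, h.lt.le⟩)))
      (hi.mono_set (uIcc_subset_uIcc_left (Icc_subset_uIcc ⟨h.pos.le, h.le.trans h.lt.le⟩))),
      intervalIntegral.integral_of_le hδ, intervalIntegral.integral_of_le h.le,
      setIntegral_indicator measurableSet_Icc, inter_eq_self_of_subset_right
        (Icc_subset_Ioc_iff h.le |>.2 ⟨h.pos, h.lt.le⟩), integral_Icc_eq_integral_Ioc]
  rw [e1]
  refine intervalIntegral.tendsto_integral_filter_of_dominated_convergence _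
    (.of_forall fun k => ?_) (.of_forall fun k => .of_forall fun τ _ => ?_) hi.norm
    (.of_forall fun τ hτ => ?_)
  · refine (hi.continuousOn_mul (g := fun τ => bump (e.z s) (e.z t) k (e.z τ) ^ n) ?_).def'.1
    have := e.dz.1.continuousOn
    unfold bump
    fun_prop
  · rw [norm_mul, norm_pow, Real.norm_of_nonneg (bump_mem _ _ _ _).1]
    exact mul_le_of_le_one_left (norm_nonneg _) (pow_le_one₀ (bump_mem _ _ _ _).1 (bump_mem _ _ _ _).2)
  · rw [uIoc_of_le hδ] at hτ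
    have big : ∀ a b : ℝ, a < b → ∀ᶠ k : ℕ in atTop, k * (a - b) + 1 ≤ 0 := fun a b hab =>
      ((tendsto_natCast_atTop_atTop.atTop_mul_const (sub_pos.2 hab)).eventually_ge_atTop 1).mono
        fun k hk => by linarith
    refine tendsto_const_nhds.congr' ?_
    by_cases h1 : τ ∈ Icc s t
    · refine .of_forall fun k => ?_
      have h2 := mul_nonneg k.cast_nonneg (sub_nonneg.2 (z_mono h.pos.le h1.1 hτ.2))
      have h3 := mul_nonneg k.cast_nonneg (sub_nonneg.2 (z_mono hτ.1.le h1.2 h.lt.le))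
      simp [bump, h1, Real.smoothTransition.one_of_one_le (le_add_of_nonneg_left h2),
        Real.smoothTransition.one_of_one_le (le_add_of_nonneg_left h3)]
    · have : ∀ᶠ k : ℕ in atTop, bump (e.z s) (e.z t) k (e.z τ) = 0 := by
        rcases not_and_or.1 h1 with h2 | h2
        · exact (big _ _ (h.left τ ⟨hτ.1.le, not_le.1 h2⟩)).mono fun k hk => bump_zero (.inl hk)
        · exact (big _ _ (h.right τ ⟨not_le.1 h2, hτ.2⟩)).mono fun k hk => bump_zero (.inr hk)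
      filter_upwards [this] with k hk
      simp [hk, h1, hn]

theorem SO.si (h : e.SO C) : e.SI C := fun s t h1 h2 => by
  by_contra hn
  push Not at hn
  let ψ : ℕ → Fin 4 → ℝ → ℝ := fun k i => bump (e.z (s i)) (e.z (t i)) k
  have l1 := fun i => (h1 i).tendsto 2 (by norm_num) (e.conth [false])
  have l2 := fun i => (((h1 i).tendsto 1 one_ne_zero continuousOn_const (G := fun _ => 1)).pow
    2).const_mul C
  have e1 : ∀ᶠ k : ℕ in atTop, ∀ i, C * (∫ τ in (0 : ℝ)..e.δ, |ψ k i (e.z τ)| * e.m τ) ^ 2 <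
      ∫ τ in (0 : ℝ)..e.δ, ψ k i (e.z τ) ^ 2 * (e.m τ * e.b τ) := eventually_all.2 fun i => by
    have H := h1 i
    have := (e.dx.sub (e.dInt (G := fun _ => 1) continuousOn_const)).abs_le (B := 0)
      (.of_forall fun τ _ => by simp) ⟨H.pos.le, H.le.trans H.lt.le⟩ ⟨H.pos.le.trans H.le, H.lt.le⟩
    rw [zero_mul, abs_nonpos_iff] at this
    have h3 := hn i
    rw [show e.x (t i) - e.x (s i) = (∫ τ in (0 : ℝ)..t i, e.m τ * 1) - ∫ τ in (0 : ℝ)..s i, e.m τ * 1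
      by linarith] at h3
    simpa only [pow_one, mul_one, ψ, abs_of_nonneg (bump_mem _ _ _ _).1] using
      (l2 i).eventually_lt (l1 i) h3
  have big : ∀ a b : ℝ, a < b → ∀ᶠ k : ℕ in atTop, 2 ≤ k * (b - a) := fun a b hab =>
    (tendsto_natCast_atTop_atTop.atTop_mul_const (sub_pos.2 hab)).eventually_ge_atTop 2
  have e2 : ∀ᶠ k : ℕ in atTop, ∀ i j, i < j → 2 ≤ k * (e.z (s j) - e.z (t i)) :=
    eventually_all.2 fun i => eventually_all.2 fun j => eventually_imp_distrib_left.2 fun hij =>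
      big _ _ ((h1 j).left _ ⟨(h1 i).pos.le.trans (h1 i).le, h2 i j hij⟩)
  have e3 : ∀ᶠ k : ℕ in atTop, ∀ i, 2 ≤ k * (e.z (s i) - e.z 0) ∧ 2 ≤ k * (e.z e.δ - e.z (t i)) :=
    eventually_all.2 fun i => (big _ _ ((h1 i).left _ ⟨le_rfl, (h1 i).pos⟩)).and
      (big _ _ ((h1 i).right _ ⟨(h1 i).lt, le_rfl⟩))
  obtain ⟨k, h3, h4, h5⟩ := (e1.and (e2.and e3)).exists
  have h6 : ∀ i j, i < j → ∀ y, ψ k i y * ψ k j y = 0 := fun i j hij y => by
    rcases le_total (k * (e.z (t i) - y) + 1) 0 with h6 | h6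
    · exact mul_eq_zero_of_left (bump_zero (.inr h6)) _
    · exact mul_eq_zero_of_right _ (bump_zero (.inl (by linarith [h4 i j hij])))
  obtain ⟨i, hi⟩ := h (ψ k) (fun i => by unfold ψ bump; fun_prop) (fun i j hij y => by
    rcases hij.lt_or_gt with h7 | h7
    exacts [h6 i j h7 y, (mul_comm _ _).trans (h6 j i h7 y)]) fun i =>
      ⟨bump_zero (.inl (by linarith [(h5 i).1, congrArg ((k : ℝ) * ·) e.z0])),
        bump_zero (.inr (by linarith [(h5 i).2]))⟩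
  exact (h3 i).not_ge hi

theorem exists_sat {a b w : ℝ} (ha : 0 ≤ a) (h1 : a ≤ u) (h2 : u ≤ w) (h3 : w ≤ b) (hb : b ≤ e.δ)
    (h4 : e.z a < e.z u) (h5 : e.z w < e.z b) : ∃ s t, e.Sat s t ∧ a < s ∧ s ≤ u ∧ w ≤ t ∧ t < b ∧
      e.z s = e.z u ∧ e.z t = e.z w := by
  have K : ∀ c, IsCompact (Icc 0 e.δ ∩ e.z ⁻¹' {c}) := fun c => isCompact_Icc.of_isClosed_subset
    ((e.dz.cont e.δpos.le).preimage_isClosed_of_isClosed isClosed_Icc isClosed_singleton)
    inter_subset_left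
  obtain ⟨s, ⟨s1, s2 : e.z s = _⟩, s3⟩ := (K (e.z u)).exists_isLeast
    ⟨u, ⟨by linarith, by linarith⟩, rfl⟩
  obtain ⟨t, ⟨t1, t2 : e.z t = _⟩, t3⟩ := (K (e.z w)).exists_isGreatest
    ⟨w, ⟨by linarith, by linarith⟩, rfl⟩
  have s4 : s ≤ u := s3 ⟨⟨by linarith, by linarith⟩, rfl⟩
  have t4 : w ≤ t := t3 ⟨⟨by linarith, by linarith⟩, rfl⟩
  have s5 : a < s := not_le.1 fun h => by linarith [z_mono s1.1 h (by linarith)]
  have t5 : t < b := not_le.1 fun h => by linarith [z_mono (by linarith) h t1.2]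
  exact ⟨s, t, ⟨by linarith, by linarith, by linarith,
    fun τ hτ => (z_mono hτ.1 hτ.2.le s1.2).lt_of_ne fun h =>
      hτ.2.not_ge (s3 ⟨⟨hτ.1, hτ.2.le.trans s1.2⟩, h.trans s2⟩),
    fun τ hτ => (z_mono t1.1 hτ.1.le hτ.2).lt_of_ne fun h =>
      hτ.1.not_ge (t3 ⟨⟨t1.1.trans hτ.1.le, hτ.2⟩, h.symm.trans t2⟩)⟩, s5, s4, t4, t5, s2, t2⟩


/-- Alternation is impossible where `b` is positive. -/
theorem SI.sa (h : e.SI C) (hC : 0 ≤ C) {v : ℕ → ℝ} {c : ℝ} (h0 : 0 ≤ v 0) (h9 : v 9 ≤ e.δ)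
    (hv : ∀ i < 9, v i < v (i + 1) ∧ ¬e.IsX (v i) (v (i + 1)) ∧ ¬e.IsY (v i) (v (i + 1)))
    (hb : ∀ τ ∈ Icc (v 0) (v 9), c ≤ e.b τ) (hc : C * (v 9 - v 0) < c) : False := by
  have vm : ∀ i j, i ≤ j → j ≤ 9 → v i ≤ v j := fun i j hij hj => by
    induction j, hij using Nat.le_induction with
    | base => exact le_rfl
    | succ j _ ih => exact (ih (by omega)).trans (hv j (by omega)).1.le
  have v0 : ∀ i ≤ 9, 0 ≤ v i := fun i hi => h0.trans (vm 0 i i.zero_le hi)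
  have v9 : ∀ i ≤ 9, v i ≤ e.δ := fun i hi => (vm i 9 hi le_rfl).trans h9
  have vz : ∀ i < 9, e.z (v i) < e.z (v (i + 1)) := fun i hi =>
    z_lt (v0 i hi.le) (hv i hi).1.le (v9 _ hi) (hv i hi).2.1
  choose s t h1 h2 h3 h4 h5 h6 h7 using fun i : Fin 4 => exists_sat (v0 (2 * i) (by omega))
    (hv (2 * i) (by omega)).1.le (hv (2 * i + 1) (by omega)).1.le (hv (2 * i + 1 + 1) (by omega)).1.le
    (v9 _ (by omega)) (vz _ (by omega)) (vz _ (by omega))
  obtain ⟨i, hi⟩ := h s t h1 fun i j hij => not_le.1 fun h8 => by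
    have h10 := z_mono (h1 j).pos.le h8 (h1 i).lt.le
    have h11 := z_mono (v0 (2 * i + 1 + 1 + 1) (by omega)) (vm _ (2 * j + 1) (by omega) (by omega))
      (v9 _ (by omega))
    linarith [h6 j, h7 i, vz (2 * i + 1 + 1) (by omega)]
  have H := h1 i
  have a1 := (vm 0 _ (Nat.zero_le _) (by omega)).trans (h2 i).le
  have a2 := (h5 i).le.trans (vm _ 9 (by omega) le_rfl)
  have a3 := z_mono H.pos.le H.le H.lt.le
  have a4 := x_mono H.pos.le (h3 i) (v9 _ (by omega))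
  have a5 := x_mono (v0 _ (by omega)) (h4 i) H.lt.le
  have a6 := x_lt (v0 _ (by omega)) (hv (2 * i + 1) (by omega)).1.le (v9 _ (by omega))
    (hv (2 * i + 1) (by omega)).2.2
  have a7 := mono' ((e.dIB.sub (e.dx.cmul c)).mono H.pos.le H.le H.lt.le) H.pos.le H.le H.lt.le
    (fun τ hτ => by linarith [hb τ ⟨a1.trans hτ.1.le, hτ.2.le.trans a2⟩]) fun τ _ => by simp
  simp only [z] at a3
  have a8 : C * (e.x (t i) - e.x (s i)) ≤ C * (v 9 - v 0) :=
    mul_le_mul_of_nonneg_left (by linarith) hC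
  nlinarith

/-! Counting. -/

theorem Arc.le (h : e.Arc s t) (h' : e.Arc s' t') (hs : s < s') : t ≤ s' :=
  not_lt.1 fun ht => h.mid s' ⟨hs, ht⟩ h'.left


theorem enum {S : Set ℝ} (hf : S.Finite) {n : ℕ} (h : S.encard = n) : ∃ τ : ℕ → ℝ,
    (∀ i < n, τ i ∈ S) ∧ (∀ y ∈ S, ∃ i < n, τ i = y) ∧ ∀ i < n, ∀ j < n, τ i < τ j ↔ i < j := by
  have hc : hf.toFinset.card = n := by
    rw [hf.encard_eq_coe_toFinset_card] at h; exact_mod_cast h
  let f := hf.toFinset.orderEmbOfFin hc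
  refine ⟨fun i => if h : i < n then f ⟨i, h⟩ else 0, fun i hi => ?_, fun y hy => ?_,
    fun i hi j hj => by simp [hi, hj]⟩
  · simpa only [dif_pos hi] using hf.mem_toFinset.1 (hf.toFinset.orderEmbOfFin_mem hc ⟨i, hi⟩)
  · obtain ⟨i, hi⟩ : y ∈ range f := by
      rw [Finset.range_orderEmbOfFin]; simpa using hy
    exact ⟨i, i.2, by simpa using hi⟩

theorem seq_of_encard {S : Set ℝ} {n : ℕ} (h : ¬S.encard ≤ n) :
    ∃ τ : ℕ → ℝ, (∀ i ≤ n, τ i ∈ S) ∧ ∀ i < n, τ i < τ (i + 1) := by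
  obtain ⟨T, h1, h2⟩ := exists_subset_encard_eq (k := (n + 1 : ℕ))
    (Order.add_one_le_of_lt (not_le.1 h))
  obtain ⟨τ, h3, -, h4⟩ := enum (finite_of_encard_eq_coe h2) h2
  exact ⟨τ, fun i hi => h1 (h3 i (by omega)), fun i hi => (h4 _ (by omega) _ (by omega)).2 i.lt_succ_self⟩

theorem few {P : ℝ → ℝ → Prop} (h : ∀ s t : ℕ → ℝ,
    (∀ i < 4, e.Arc (s i) (t i) ∧ P (s i) (t i)) → (∀ i < 3, t i ≤ s (i + 1)) → False) :
    (e.Cnt P).encard ≤ 3 := by
  by_contra hn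
  obtain ⟨s, h1, h2⟩ := seq_of_encard (n := 3) hn
  choose! t h3 h4 using h1
  exact h s t (fun i hi => ⟨h3 i (by omega), h4 i (by omega)⟩) fun i hi =>
    (h3 i hi.le).le (h3 _ hi) (h2 i hi)

theorem count (hf : e.Br.Finite) {B : Set ℝ} {n k : ℕ} (hB : B.encard ≤ n)
    (h : ∀ τ : ℕ → ℝ, (∀ i < k, e.Arc (τ i) (τ (i + 1)) ∧ τ i ∉ B) → False) :
    e.Br.encard ≤ ((n + 1) * k : ℕ) := by
  obtain ⟨N, hN⟩ := hf.exists_encard_eq_coe
  obtain ⟨τ, h1, h2, h3⟩ := enum hf hN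
  rw [hN, Nat.cast_le]
  by_contra hn
  have lt : ∀ j ≤ n, ∀ i < k, j * k + (i + 1) < N := fun j hj i hi => by
    nlinarith [Nat.mul_le_mul_right k hj]
  have : ∀ j ≤ n, ∃ i < k, τ (j * k + i) ∈ B := fun j hj => by
    by_contra! hc
    refine h (fun i => τ (j * k + i)) fun i hi => ⟨?_, hc i hi⟩
    have h4 := lt j hj i hi
    refine ⟨(h3 _ (by omega) _ h4).2 (by omega), h1 _ (by omega), h1 _ h4, fun y hy hb => ?_⟩
    obtain ⟨l, h5, rfl⟩ := h2 y hb
    have := (h3 _ (by omega) _ h5).1 hy.1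
    have := (h3 _ h5 _ h4).1 hy.2
    omega
  choose! c h4 h5 using this
  have := (encard_le_encard_of_injOn (s := Iic n) (f := fun j => τ (j * k + c j)) h5
    (StrictMonoOn.injOn fun i hi j hj hij => (h3 _ (by have := lt i hi _ (h4 i hi); omega) _
      (by have := lt j hj _ (h4 j hj); omega)).2 (by
        nlinarith [h4 i hi, Nat.mul_le_mul_right k (Nat.succ_le_of_lt hij)]))).trans hB
  rw [← Finset.coe_Iic, encard_coe_eq_coe_finsetCard, Nat.card_Iic, Nat.cast_le] at this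
  omega

/-- Many break points give a long increasing sequence. -/
theorem exists_seq {n : ℕ} (h : ¬e.Br.encard ≤ n) :
    ∃ τ : ℕ → ℝ, (∀ i ≤ n, τ i ∈ e.Br) ∧ ∀ i < n, τ i < τ (i + 1) := seq_of_encard h

end Ext

theorem Bdd.of_swap {h₀ : List Bool → ℝ} (h : Bdd fun w => -h₀ (w.map not)) : Bdd h₀ := by
  obtain ⟨ε, h1, N, h2⟩ := h
  exact ⟨ε, h1, N, fun e a b c => Ext.swap_Br ▸ h2 e.swap a.swap b.swap c.swap⟩

theorem Bdd.of_rev {h₀ : List Bool → ℝ} (h : Bdd fun w => (-1) ^ (w.length + 1) * h₀ w) :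
    Bdd h₀ := by
  obtain ⟨ε, h1, N, h2⟩ := h
  exact ⟨ε, h1, N, fun e a b c => Ext.encard_rev ▸ h2 e.rev a.rev b.rev c.rev⟩

end Pool.Agent.Lib.MP_f4f7c0_an
end

-- part Pool.Agent.Lib.MP_f4f7c0_an.UGlue
section

/-! From the bound in a chart to the bound on the manifold. -/

namespace Pool.Agent.Lib.MP_f4f7c0_an

open Set Filter Topology MeasureTheory
open scoped Manifold ContDiff

variable {M : Type*} [TopologicalSpace M] [ChartedSpace E3 M] [IsManifold (𝓡 3) ∞ M]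

theorem uniform_switching (H : LocalBound) {f g : VF M} (hg : GoodM3 f g) (q₀ : M) :
    ∃ U ∈ 𝓝 q₀, ∃ k : ℕ, ∀ (q : ℝ → M) (T : ℝ), TimeOptimal f g q T → MapsTo q (Icc 0 T) U →
      (switchingTimes q T).encard ≤ k := by
  obtain ⟨c, hc, hgood⟩ := hg q₀
  set φ := extChartAt (𝓡 3) c with hφ
  have hsrc : φ.source = (chartAt E3 c).source := extChartAt_source _ _
  have hop : IsOpen φ.target := isOpen_extChartAt_target c
  obtain ⟨r, hr, hball⟩ := Metric.nhds_basis_closedBall.mem_iff.1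
    (hop.mem_nhds (φ.map_source (hsrc ▸ hc)))
  let χ : ContDiffBump (φ q₀) := ⟨r / 2, r, by linarith, by linarith⟩
  set U := Metric.ball (φ q₀) (r / 2) with hU
  have hUn : U ∈ 𝓝 (φ q₀) := Metric.ball_mem_nhds _ (by linarith)
  have hUt : U ⊆ φ.target :=
    (Metric.ball_subset_closedBall.trans (Metric.closedBall_subset_closedBall (by linarith))).trans
      hball
  have hχ : ∀ y ∈ U, χ y = 1 := fun y hy => χ.one_of_mem_closedBall (Metric.ball_subset_closedBall hy)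
  set X : E3 → E3 := fun y => χ y • chartRep c (f + g) y with hX
  set X' : E3 → E3 := fun y => χ y • chartRep c (f - g) y with hX'
  have hv : ∀ y ∈ U, ∀ m : ℝ, m • X y + (1 - m) • X' y =
      mfderiv (𝓡 3) (𝓡 3) φ (φ.symm y) (Glue.vel f g (2 * m - 1) (φ.symm y)) := fun y hy m => by
    simp only [hX, hX', hχ y hy, one_smul]
    exact Glue.rep_vel f g c m y
  obtain ⟨U', hU', k, Hk⟩ := H X X'
    ⟨Glue.contDiff_cut χ hop (Glue.contDiffOn_chartRep c _) hball, χ.hasCompactSupport.smul_right⟩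
    ⟨Glue.contDiff_cut χ hop (Glue.contDiffOn_chartRep c _) hball, χ.hasCompactSupport.smul_right⟩
    (φ q₀)
    (hgood.congr (by filter_upwards [hUn] with y hy using by simp [hX, hχ y hy])
      (by filter_upwards [hUn] with y hy using by simp [hX', hχ y hy]))
    U Metric.isOpen_ball (mem_of_mem_nhds hUn)
  refine ⟨φ.source ∩ φ ⁻¹' (U' ∩ U),
    inter_mem ((isOpen_extChartAt_source c).mem_nhds (hsrc ▸ hc))
      (continuousAt_extChartAt' (hsrc ▸ hc) (inter_mem hU' hUn)), k, fun q T h hq => ?_⟩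
  obtain ⟨u, hu⟩ := h.1
  have hlip : LocallyLipschitzOn (Icc 0 T) fun t => φ (q t) := by
    intro t ht
    have hqt : ContinuousWithinAt q (Icc 0 T) t := hu.cont t ht
    obtain ⟨C, s, hs, hC⟩ := hu.lip t ht
    obtain ⟨K, V, hV, hK⟩ := (Glue.contDiffAt_change (q t) c (mem_chart_source E3 _)
      (hsrc ▸ (hq ht).1)).exists_lipschitzOnWith
    refine ⟨K * C, s ∩ {τ | q τ ∈ (extChartAt (𝓡 3) (q t)).source ∧
      extChartAt (𝓡 3) (q t) (q τ) ∈ V}, inter_mem hs ?_, fun x hx y hy => ?_⟩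
    · filter_upwards [hqt (extChartAt_source_mem_nhds (I := 𝓡 3) (q t)),
        ((continuousAt_extChartAt (I := 𝓡 3) (q t)).comp_continuousWithinAt hqt) hV]
        with τ a1 a2 using ⟨a1, a2⟩
    · have := (hK.comp (hC.mono inter_subset_left) fun τ hτ => hτ.2.2) hx hy
      simpa only [Function.comp, (extChartAt (𝓡 3) (q t)).left_inv hx.2.1,
        (extChartAt (𝓡 3) (q t)).left_inv hy.2.1] using this
  have htraj : Traj X X' (fun t => (1 + u t) / 2) (fun t => φ (q t)) T := by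
    refine ⟨hu.nonneg, (measurable_const.add hu.meas).div_const _,
      fun t => by linarith [(abs_le.1 (hu.bound t)).1],
      fun t => by linarith [(abs_le.1 (hu.bound t)).2],
      hlip.exists_lipschitzOnWith_of_compact isCompact_Icc, ?_⟩
    filter_upwards [hu.ode] with t h1 ht
    have h2 := hq (Ioo_subset_Icc_self ht)
    have h3 : Glue.HD q t (Glue.vel f g (u t) (q t)) := h1 ht
    rw [hv _ h2.2.2, φ.left_inv h2.1, show 2 * ((1 + u t) / 2) - 1 = u t by ring]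
    exact h3.chart (hsrc ▸ h2.1)
  have hopt : Opt2 X X' U (fun t => φ (q t)) T := by
    intro s t hs hst htT m' Q T' h' hQ e0 e1
    obtain ⟨D, hD⟩ := h'.lip
    refine (Glue.opt_shift (Glue.opt_init h ⟨hs.trans hst, htT⟩) ⟨hs, hst⟩).2
      (fun t => 2 * m' t - 1)
      (fun t => φ.symm (Q t)) T' ⟨h'.nonneg, (h'.meas.const_mul _).sub_const _,
        fun t => abs_le.2 ⟨by linarith [h'.m0 t], by linarith [h'.m1 t]⟩,
        (continuousOn_extChartAt_symm c).comp hD.continuousOn (hQ.mono_right hUt),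
        fun t ht => ?_, ?_⟩ ?_ ?_
    · have h1 := hUt (hQ ht)
      have h2 := Glue.contDiffAt_change c (φ.symm (Q t)) (hsrc ▸ φ.map_target h1)
        (mem_chart_source E3 _)
      rw [φ.right_inv h1] at h2
      obtain ⟨L, W, hW, hL⟩ := h2.exists_lipschitzOnWith
      exact ⟨L * D, Icc 0 T' ∩ Q ⁻¹' W, inter_mem self_mem_nhdsWithin (hD.continuousOn t ht hW),
        hL.comp (hD.mono inter_subset_left) fun _ h => h.2⟩
    · filter_upwards [h'.ode] with t h1 ht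
      have h2 := hQ (Ioo_subset_Icc_self ht)
      exact Glue.HD.lift (hUt h2) (hv _ h2 _ ▸ h1 ht)
    · simp only [e0]
      exact φ.left_inv (hq ⟨by linarith, by linarith⟩).1
    · simp only [e1]
      exact φ.left_inv (hq ⟨by linarith, by linarith⟩).1
  have hsub : switchingTimes q T ⊆ sw (fun t => φ (q t)) T := by
    rintro t ⟨ht1, ht2⟩
    refine ⟨ht1, ?_⟩
    rintro ⟨s, hs, hsm⟩
    refine ht2 ⟨s ∩ Icc 0 T, inter_mem hs self_mem_nhdsWithin, ?_⟩
    refine ((contMDiffOn_extChartAt_symm (I := 𝓡 3) (n := ∞) c).comp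
      (hsm.mono inter_subset_left).contMDiffOn fun τ hτ => hUt (hq hτ.2).2.2).congr fun τ hτ => ?_
    exact (φ.left_inv (hq hτ.2).1).symm
  exact (encard_le_encard hsub).trans (Hk _ _ T htraj (fun t ht => (hq ht).2.1) hopt)

end Pool.Agent.Lib.MP_f4f7c0_an
end
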