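import Pool.Agent.Lib.MP_f4f7c0_an.UGlue

-- part Pool.Agent.Lib.MP_f4f7c0_an.UArc
section

/-! The arcs of an extremal. -/

namespace Pool.Agent.Lib.MP_f4f7c0_an

open Set Filter Topology MeasureTheory

namespace UArc

/-- A closed inequality that holds almost everywhere holds everywhere. -/
theorem le_of_ae {f : ℝ → ℝ} {s t : ℝ} (hst : s < t) (hc : ContinuousOn f (Icc s t))
    (h : ∀ᵐ τ, τ ∈ Ioo s t → f τ ≤ 0) : ∀ τ ∈ Icc s t, f τ ≤ 0 := by
  have hd : Dense {τ | τ ∈ Ioo s t → f τ ≤ 0} := Measure.dense_of_ae h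
  have h1 : Icc s t ⊆ closure (Ioo s t ∩ {τ | τ ∈ Ioo s t → f τ ≤ 0}) := by
    rw [← closure_Ioo hst.ne]
    exact closure_minimal (hd.open_subset_closure_inter isOpen_Ioo) isClosed_closure
  have h2 : closure (Ioo s t ∩ {τ | τ ∈ Ioo s t → f τ ≤ 0}) ⊆ Icc s t :=
    closure_minimal (inter_subset_left.trans Ioo_subset_Icc_self) isClosed_Icc
  exact fun τ hτ => le_on_closure (g := fun _ => 0) (fun y hy => hy.2 hy.1) (hc.mono h2)
    continuousOn_const (h1 hτ)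

theorem eq_of_ae {f : ℝ → ℝ} {s t : ℝ} (hst : s < t) (hc : ContinuousOn f (Icc s t))
    (h : ∀ᵐ τ, τ ∈ Ioo s t → f τ = 0) : ∀ τ ∈ Icc s t, f τ = 0 := fun τ hτ =>
  le_antisymm (le_of_ae hst hc (h.mono fun _ h1 h2 => (h1 h2).le) τ hτ)
    (neg_nonpos.1 (le_of_ae hst hc.neg (h.mono fun _ h1 h2 => by simp [h1 h2]) τ hτ))

/-- A small interval around an interior point on which an eventual property holds. -/
theorem exists_Ioo {p : ℝ → Prop} {a b t : ℝ} (ht : t ∈ Ioo a b) (h : ∀ᶠ τ in 𝓝 t, p τ) :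
    ∃ s u, a < s ∧ s < t ∧ t < u ∧ u < b ∧ ∀ τ ∈ Icc s u, p τ := by
  obtain ⟨l, r, hlr, hsub⟩ := mem_nhds_iff_exists_Ioo_subset.1 (h.and (Ioo_mem_nhds ht.1 ht.2))
  obtain ⟨s, hs1, hs2⟩ := exists_between hlr.1
  obtain ⟨u, hu1, hu2⟩ := exists_between hlr.2
  exact ⟨s, u, (hsub ⟨hs1, hs2.trans hlr.2⟩).2.1, hs2, hu1, (hsub ⟨hlr.1.trans hu1, hu2⟩).2.2,
    fun τ hτ => (hsub ⟨hs1.trans_le hτ.1, hτ.2.trans_lt hu2⟩).1⟩

/-- A property that holds almost everywhere near every point holds almost everywhere. -/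
theorem ae_of_local {p : ℝ → Prop} {s t : ℝ}
    (h : ∀ τ ∈ Ioo s t, ∃ l r, l < τ ∧ τ < r ∧ ∀ᵐ y, y ∈ Ioo l r → p y) :
    ∀ᵐ y, y ∈ Ioo s t → p y := by
  rw [ae_iff]
  refine measure_null_of_locally_null _ fun τ hτ => ?_
  simp only [mem_ofPred_eq, Classical.not_imp] at hτ
  obtain ⟨l, r, h1, h2, h3⟩ := h τ hτ.1
  refine ⟨_, inter_mem_nhdsWithin _ (Ioo_mem_nhds h1 h2), measure_mono_null ?_ (ae_iff.1 h3)⟩
  rintro y ⟨h4, h5⟩
  simp only [mem_ofPred_eq, Classical.not_imp] at h4 ⊢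
  exact ⟨h5, h4.2⟩

theorem isOpen_loc (P : ℝ → ℝ → Prop) (a b : ℝ) :
    IsOpen {τ | τ ∈ Ioo a b ∧ ∃ l r, l < τ ∧ τ < r ∧ P l r} := by
  refine isOpen_iff_mem_nhds.2 ?_
  rintro τ ⟨h0, l, r, h1, h2, h3⟩
  filter_upwards [Ioo_mem_nhds h0.1 h0.2, Ioo_mem_nhds h1 h2] with y h4 h5
  exact ⟨h4, l, r, h5.1, h5.2, h3⟩

end UArc

open UArc

namespace Ext
variable {e : Ext} {s t u s' t' C : ℝ}

theorem Br.φ0 (h : t ∈ e.Br) : e.φ t = 0 := by
  by_contra hne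
  obtain ⟨s, u, h1, h2, h3, h4, h5⟩ := exists_Ioo h.1
    ((e.hasDeriv h.1).continuousAt.eventually_ne hne)
  rcases bang_of_ne h1.le h4.le fun τ hτ => h5 τ (Ioo_subset_Icc_self hτ) with h6 | h6
  · exact (h.2 s u h2 h3).1 h6
  · exact (h.2 s u h2 h3).2.1 h6

theorem Arc.pos (h : e.Arc s t) : 0 < s := h.left.1.1
theorem Arc.lt_δ (h : e.Arc s t) : t < e.δ := h.right.1.2

theorem flat_W (hs : 0 ≤ s) (hst : s < t) (ht : t ≤ e.δ) (h : ∀ τ ∈ Ioo s t, e.φ τ = 0) :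
    (∀ τ ∈ Icc s t, e.φ τ = 0 ∧ e.W τ = 0 ∧ e.a τ * e.b τ ≤ 0) ∧
      ∀ᵐ τ, τ ∈ Ioo s t → e.m τ * e.a τ + (1 - e.m τ) * e.b τ = 0 := by
  have hsub : Icc s t ⊆ Icc 0 e.δ := Icc_subset_Icc hs ht
  have h1 : ∀ᵐ τ, τ ∈ Ioo s t → e.W τ = 0 ∧ e.m τ * e.a τ + (1 - e.m τ) * e.b τ = 0 := by
    filter_upwards [e.ae_sing] with τ h1 hτ
    exact h1 ⟨hs.trans_lt hτ.1, hτ.2.trans_le ht⟩ (h τ hτ)
  refine ⟨fun τ hτ => ⟨eq_of_ae hst (e.contφ.mono hsub) (Eventually.of_forall h) τ hτ,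
    eq_of_ae hst ((e.conth []).mono hsub) (h1.mono fun _ h2 h3 => (h2 h3).1) τ hτ,
    le_of_ae (f := fun τ => e.a τ * e.b τ) hst
      (((e.conth [true]).mono hsub).mul ((e.conth [false]).mono hsub))
      (h1.mono fun y h2 h3 => ?_) τ hτ⟩, h1.mono fun _ h2 h3 => (h2 h3).2⟩
  have h4 := (h2 h3).2
  have h5 := mul_nonneg (e.m0 y) (sq_nonneg (e.a y))
  have h6 := mul_nonneg (sub_nonneg.2 (e.m1 y)) (sq_nonneg (e.b y))
  have h7 : e.m y * e.a y ^ 2 + (1 - e.m y) * e.b y ^ 2 + e.a y * e.b y = 0 := by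
    linear_combination (e.a y + e.b y) * h4
  linarith

theorem IsS.control (h : e.IsS s t) (hs : 0 ≤ s) (ht : t ≤ e.δ) :
    (∀ τ ∈ Ioo s t, e.b τ - e.a τ ≠ 0) ∧
      ∀ᵐ τ, τ ∈ Ioo s t → e.m τ = e.b τ / (e.b τ - e.a τ) := by
  rcases le_or_gt t s with hts | hst
  · exact ⟨fun τ hτ => absurd (hτ.1.trans hτ.2) hts.not_gt,
      Eventually.of_forall fun τ hτ => absurd (hτ.1.trans hτ.2) hts.not_gt⟩
  obtain ⟨h1, h2⟩ := flat_W hs hst ht fun τ hτ => (h τ hτ).1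
  have h3 : ∀ τ ∈ Ioo s t, e.b τ - e.a τ ≠ 0 := fun τ hτ h4 => by
    have h5 := (h1 τ (Ioo_subset_Icc_self hτ)).2.2
    have h6 : e.b τ = e.a τ := sub_eq_zero.1 h4
    rw [h6] at h5
    have h7 : e.a τ = 0 := mul_self_eq_zero.1 (le_antisymm h5 (mul_self_nonneg _))
    rcases (h τ hτ).2 with h8 | h8
    · exact h8 h7
    · exact h8 (h6.trans h7)
  refine ⟨h3, h2.mono fun τ h4 hτ => ?_⟩
  rw [eq_div_iff (h3 τ hτ)]
  linear_combination -h4 hτ

theorem GenAll.not_flat_X (hG : e.GenAll) (hs : 0 ≤ s) (hst : s < t) (ht : t ≤ e.δ)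
    (h : e.IsX s t) (h' : ∀ τ ∈ Ioo s t, e.φ τ = 0) : False := by
  have h1 := (flat_W hs hst ht h').1
  have h2 : ∀ j, ∀ τ ∈ Ioo s t, e.h (List.replicate j true) τ = 0 := by
    intro j
    induction j with
    | zero => exact fun τ hτ => (h1 τ (Ioo_subset_Icc_self hτ)).2.1
    | succ j ih =>
      intro τ hτ
      refine (h.hasDerivAt hs ht (List.replicate j true) hτ).unique
        ((hasDerivAt_const τ (0 : ℝ)).congr_of_eventuallyEq ?_)
      filter_upwards [Ioo_mem_nhds hτ.1 hτ.2] with y hy using ih y hy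
  obtain ⟨τ, hτ⟩ := nonempty_Ioo.2 hst
  obtain ⟨j, -, hj⟩ := (hG τ ⟨hs.trans hτ.1.le, hτ.2.le.trans ht⟩ (h' τ hτ) (h2 0 τ hτ)).g1 true
  exact hj (h2 _ τ hτ)

theorem GenAll.not_flat_Y (hG : e.GenAll) (hs : 0 ≤ s) (hst : s < t) (ht : t ≤ e.δ)
    (h : e.IsY s t) (h' : ∀ τ ∈ Ioo s t, e.φ τ = 0) : False :=
  hG.swap.not_flat_X hs hst ht (swap_isX.2 h) fun τ hτ => by simp [h' τ hτ]

end Ext

namespace UArc
open Ext
variable {e : Ext} {t : ℝ}

theorem start (hG : e.GenAll) : ∃ u > 0, e.IsX 0 u ∨ e.IsY 0 u ∨ e.IsS 0 u := by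
  by_cases hA : e.Acc
  · obtain ⟨u, hu, hsub⟩ := mem_nhdsGT_iff_exists_Ioo_subset.1
      (e.main hA (hG 0 ⟨le_rfl, e.δpos.le⟩ hA.φ0 hA.W0))
    exact ⟨u, hu, Or.inr (Or.inr fun τ hτ => hsub hτ)⟩
  · rw [Ext.Acc, not_frequently] at hA
    obtain ⟨u, hu, hsub⟩ := mem_nhdsGT_iff_exists_Ioo_subset.1 (hA.and e.ev_mem)
    obtain ⟨v, hv1, hv2⟩ := exists_between (show 0 < u from hu)
    refine ⟨v, hv1, ?_⟩
    rcases bang_of_ne le_rfl (hsub ⟨hv1, hv2⟩).2.2.le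
      fun τ hτ => (hsub ⟨hτ.1, hτ.2.trans hv2⟩).1 with h | h
    · exact Or.inl h
    · exact Or.inr (Or.inl h)

theorem left (hG : e.GenAll) (ht : t ∈ Ioc 0 e.δ) :
    ∃ s < t, e.IsX s t ∨ e.IsY s t ∨ e.IsS s t := by
  have hG' : (e.init t ht).GenAll := fun τ hτ => hG τ ⟨hτ.1, hτ.2.trans ht.2⟩
  obtain ⟨u, hu, h⟩ := start hG'.rev
  rw [rev_isX, rev_isY, rev_isS, sub_zero] at h
  exact ⟨t - u, sub_lt_self _ hu, h⟩

theorem right (hG : e.GenAll) (ht : t ∈ Ico 0 e.δ) :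
    ∃ u > t, e.IsX t u ∨ e.IsY t u ∨ e.IsS t u := by
  obtain ⟨s, hs, h⟩ := left (t := e.δ - t) hG.rev ⟨sub_pos.2 ht.2, sub_le_self _ ht.1⟩
  rw [rev_isX, rev_isY, rev_isS, sub_sub_cancel] at h
  exact ⟨e.δ - s, by linarith, h⟩

theorem not_mem {s u : ℝ} (h : e.IsX s u ∨ e.IsY s u ∨ e.IsS s u) (ht : t ∈ Ioo s u) :
    t ∉ e.Br := fun hb => by
  obtain ⟨h1, h2, h3⟩ := hb.2 s u ht.1 ht.2
  exact h.elim h1 fun h => h.elim h2 h3

theorem isolated (hG : e.GenAll) (ht : t ∈ Icc 0 e.δ) : ∀ᶠ τ in 𝓝 t, τ ∈ e.Br → τ = t := by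
  have h1 : ∀ᶠ τ in 𝓝[<] t, τ ∉ e.Br := by
    rcases ht.1.eq_or_lt with h0 | h0
    · filter_upwards [self_mem_nhdsWithin] with τ hτ hb
      exact lt_asymm hb.1.1 (h0 ▸ hτ)
    · obtain ⟨s, hs, h⟩ := left hG ⟨h0, ht.2⟩
      filter_upwards [Ioo_mem_nhdsLT hs] with τ hτ using not_mem h hτ
  have h2 : ∀ᶠ τ in 𝓝[>] t, τ ∉ e.Br := by
    rcases ht.2.eq_or_lt with h0 | h0
    · filter_upwards [self_mem_nhdsWithin] with τ hτ hb
      exact lt_asymm hb.1.2 (h0 ▸ hτ)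
    · obtain ⟨u, hu, h⟩ := right hG ⟨ht.1, h0⟩
      filter_upwards [Ioo_mem_nhdsGT hu] with τ hτ using not_mem h hτ
  rw [eventually_nhdsWithin_iff] at h1 h2
  filter_upwards [h1, h2] with τ h3 h4 hb
  rcases lt_trichotomy τ t with h | h | h
  · exact absurd hb (h3 h)
  · exact h
  · exact absurd hb (h4 h)

end UArc

namespace Ext
variable {e : Ext} {s t u s' t' C : ℝ}

theorem GenAll.br_finite (hG : e.GenAll) : e.Br.Finite := by
  obtain ⟨T, -, hT⟩ := (isCompact_Icc (a := 0) (b := e.δ)).elim_nhds_subcover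
    (fun t => {τ | τ ∈ e.Br → τ = t}) fun t ht => isolated hG ht
  refine T.finite_toSet.subset fun τ hτ => ?_
  obtain ⟨t, ht, h⟩ := mem_iUnion₂.1 (hT (Ioo_subset_Icc_self hτ.1))
  rwa [h hτ]

theorem Arc.type (hG : e.GenAll) (h : e.Arc s t) : e.IsX s t ∨ e.IsY s t ∨ e.IsS s t := by
  have hcov : ∀ τ ∈ Ioo s t, τ ∈ Ioo 0 e.δ ∧
      ∃ l r, l < τ ∧ τ < r ∧ (e.IsX l r ∨ e.IsY l r ∨ e.IsS l r) := fun τ hτ => by
    have h0 : τ ∈ Ioo 0 e.δ := ⟨h.pos.trans hτ.1, hτ.2.trans h.lt_δ⟩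
    refine ⟨h0, ?_⟩
    by_contra hn
    refine h.mid τ hτ ⟨h0, fun l r h1 h2 => ⟨fun h3 => hn ⟨l, r, h1, h2, Or.inl h3⟩,
      fun h3 => hn ⟨l, r, h1, h2, Or.inr (Or.inl h3)⟩,
      fun h3 => hn ⟨l, r, h1, h2, Or.inr (Or.inr h3)⟩⟩⟩
  have hsm : ∀ {τ l r l' r' : ℝ}, τ ∈ Ioo 0 e.δ → l < τ → τ < r → l' < τ → τ < r' →
      ∃ a b, 0 ≤ a ∧ a < b ∧ b ≤ e.δ ∧ l ≤ a ∧ b ≤ r ∧ l' ≤ a ∧ b ≤ r' :=
    fun {τ l r l' r'} h0 h1 h2 h3 h4 => ⟨max 0 (max l l'), min e.δ (min r r'), le_max_left _ _,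
      (max_lt h0.1 (max_lt h1 h3)).trans (lt_min h0.2 (lt_min h2 h4)), min_le_left _ _,
      (le_max_left _ _).trans (le_max_right _ _), (min_le_right _ _).trans (min_le_left _ _),
      (le_max_right _ _).trans (le_max_right _ _), (min_le_right _ _).trans (min_le_right _ _)⟩
  rcases isPreconnected_Ioo.subset_or_subset (isOpen_loc e.IsX 0 e.δ)
    (isOpen_loc (fun l r => e.IsY l r ∨ e.IsS l r) 0 e.δ) (disjoint_left.2 (by
      rintro τ ⟨h0, l, r, h1, h2, h3⟩ ⟨-, l', r', h4, h5, h6⟩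
      obtain ⟨a, b, k0, k1, k2, k3, k4, k5, k6⟩ := hsm h0 h1 h2 h4 h5
      rcases h6 with h6 | h6
      · exact not_isX_isY k1 (h3.mono k3 k4) (h6.mono k5 k6)
      · exact hG.not_flat_X k0 k1 k2 (h3.mono k3 k4) fun y hy => (h6.mono k5 k6 y hy).1))
    (s := Ioo s t) (fun τ hτ => by
      obtain ⟨h0, l, r, h1, h2, h3⟩ := hcov τ hτ
      rcases h3 with h3 | h3
      · exact Or.inl ⟨h0, l, r, h1, h2, h3⟩
      · exact Or.inr ⟨h0, l, r, h1, h2, h3⟩) with hX | hX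
  · exact Or.inl (ae_of_local fun τ hτ => (hX hτ).2)
  rcases isPreconnected_Ioo.subset_or_subset (isOpen_loc e.IsY 0 e.δ)
    (isOpen_loc e.IsS 0 e.δ) (disjoint_left.2 (by
      rintro τ ⟨h0, l, r, h1, h2, h3⟩ ⟨-, l', r', h4, h5, h6⟩
      obtain ⟨a, b, k0, k1, k2, k3, k4, k5, k6⟩ := hsm h0 h1 h2 h4 h5
      exact hG.not_flat_Y k0 k1 k2 (h3.mono k3 k4) fun y hy => (h6.mono k5 k6 y hy).1))
    (s := Ioo s t) (fun τ hτ => by
      obtain ⟨h0, l, r, h1, h2, h3⟩ := hX hτ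
      rcases h3 with h3 | h3
      · exact Or.inl ⟨h0, l, r, h1, h2, h3⟩
      · exact Or.inr ⟨h0, l, r, h1, h2, h3⟩) with hY | hS
  · exact Or.inr (Or.inl (ae_of_local fun τ hτ => (hY hτ).2))
  · refine Or.inr (Or.inr fun τ hτ => ?_)
    obtain ⟨-, l, r, h1, h2, h3⟩ := hS hτ
    exact h3 τ ⟨h1, h2⟩

theorem Arc.not_XX (h : e.Arc s t) (h' : e.Arc t u) (h1 : e.IsX s t) (h2 : e.IsX t u) : False :=
  (h.right.2 s u h.lt h'.lt).1 (h1.append h2)

theorem Arc.not_YY (h : e.Arc s t) (h' : e.Arc t u) (h1 : e.IsY s t) (h2 : e.IsY t u) : False :=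
  (swap_arc.2 h).not_XX (swap_arc.2 h') (swap_isX.2 h1) (swap_isX.2 h2)

theorem Arc.junction (h : e.Arc s t) (h' : e.Arc t u) (h1 : e.IsS s t) (h2 : e.IsS t u) :
    e.a t = 0 ∧ e.b t = 0 := by
  by_contra hn
  refine (h.right.2 s u h.lt h'.lt).2.2 fun τ hτ => ?_
  rcases lt_trichotomy τ t with h3 | rfl | h3
  · exact h1 τ ⟨hτ.1, h3⟩
  · exact ⟨Br.φ0 h.right, not_and_or.1 hn⟩
  · exact h2 τ ⟨h3, hτ.2⟩

theorem Arc.W_sign (h : e.Arc s t) (h1 : e.IsX s t) : 0 ≤ e.W s ∧ e.W t ≤ 0 := by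
  have h2 := h1.φ_nonneg h.pos.le h.lt h.lt_δ.le
  exact ⟨W_nonneg_of_right h.left.1 (Br.φ0 h.left) (Eventually.frequently
      (mem_of_superset (Ioo_mem_nhdsGT h.lt) fun y hy => h2 y (Ioo_subset_Icc_self hy))),
    W_nonpos_of_left h.right.1 (Br.φ0 h.right) (Eventually.frequently
      (mem_of_superset (Ioo_mem_nhdsLT h.lt) fun y hy => h2 y (Ioo_subset_Icc_self hy)))⟩

theorem Arc.sat (h : e.Arc s t) (h1 : e.IsX s t) : e.Sat s t :=
  ⟨h.pos, h.lt.le, h.lt_δ,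
    fun τ hτ => z_lt hτ.1 hτ.2.le h.left.1.2.le fun h2 =>
      (h.left.2 τ t hτ.2 h.lt).1 (h2.append h1),
    fun τ hτ => z_lt h.right.1.1.le hτ.1.le hτ.2 fun h2 =>
      (h.right.2 s τ h.lt hτ.1).1 (h1.append h2)⟩

theorem Arc.dt (h : e.Arc s t) (h' : e.Arc t u) (h'' : e.Arc u s') (h1 : e.IsS s t)
    (h2 : e.IsX t u) (h3 : e.IsS u s') : e.DT t u :=
  ⟨h2, ((flat_W h.pos.le h.lt h'.left.1.2.le fun τ hτ => (h1 τ hτ).1).1 t
      (right_mem_Icc.2 h.lt.le)).2.1,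
    ((flat_W h''.pos.le h''.lt h''.lt_δ.le fun τ hτ => (h3 τ hτ).1).1 u
      (left_mem_Icc.2 h''.lt.le)).2.1⟩

theorem Flat.junction (h : e.Flat) (ht : t ∈ e.Br) : e.a t = 0 ∧ e.b t = 0 := by
  by_contra hn
  have hc : ∀ w, ContinuousAt (e.h w) t := fun w =>
    (e.conth w).continuousAt (Icc_mem_nhds ht.1.1 ht.1.2)
  have h1 : ∀ᶠ τ in 𝓝 t, e.a τ ≠ 0 ∨ e.b τ ≠ 0 := by
    rcases not_and_or.1 hn with h2 | h2
    · exact ((hc _).eventually_ne h2).mono fun _ => Or.inl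
    · exact ((hc _).eventually_ne h2).mono fun _ => Or.inr
  obtain ⟨s, u, h2, h3, h4, h5, h6⟩ := exists_Ioo ht.1 h1
  exact (ht.2 s u h3 h4).2.2 fun τ hτ =>
    ⟨h τ ⟨(h2.trans hτ.1).le, (hτ.2.trans h5).le⟩, h6 τ (Ioo_subset_Icc_self hτ)⟩

end Ext

namespace UArc
open Ext
variable {e : Ext} {s t C : ℝ}

theorem legendre_b (hG : e.GenAll) (hS : e.SI C) (hC : 0 ≤ C) (hs : 0 ≤ s) (hst : s < t)
    (ht : t ≤ e.δ) (h : e.IsS s t) : ∀ τ ∈ Icc s t, e.b τ ≤ 0 := by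
  refine le_of_ae hst ((e.conth [false]).mono (Icc_subset_Icc hs ht))
    (Eventually.of_forall fun τ hτ => not_lt.1 fun hb => ?_)
  have hc : ContinuousAt e.b τ :=
    (e.conth _).continuousAt (Icc_mem_nhds (hs.trans_lt hτ.1) (hτ.2.trans_le ht))
  have hc' : ContinuousAt (fun y => C * (y - τ)) τ := by fun_prop
  obtain ⟨l, r, h1, h2, h3, h4, h5⟩ := exists_Ioo hτ
    ((hc.eventually (lt_mem_nhds (half_lt_self hb))).and
      (hc'.eventually (gt_mem_nhds (show C * (τ - τ) < e.b τ / 2 by simpa using hb))))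
  have hη : 0 < (r - τ) / 9 := by linarith
  have h9 : τ + ((9 : ℕ) : ℝ) * ((r - τ) / 9) = r := by push_cast; ring
  have h0 : τ + ((0 : ℕ) : ℝ) * ((r - τ) / 9) = τ := by simp
  refine hS.sa hC (v := fun i => τ + i * ((r - τ) / 9)) (c := e.b τ / 2) ?_ ?_ ?_ ?_ ?_
  · rw [h0]; exact hs.trans hτ.1.le
  · rw [h9]; exact h4.le.trans ht
  · intro i hi
    have k0 : (0 : ℝ) ≤ i := Nat.cast_nonneg i
    have k1 : (i : ℝ) + 1 ≤ 9 := by exact_mod_cast hi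
    have k2 : τ + i * ((r - τ) / 9) < τ + ((i + 1 : ℕ) : ℝ) * ((r - τ) / 9) := by
      push_cast; nlinarith
    have k3 : s ≤ τ + i * ((r - τ) / 9) := by nlinarith [hτ.1]
    have k4 : τ + ((i + 1 : ℕ) : ℝ) * ((r - τ) / 9) ≤ t := by push_cast; nlinarith
    exact ⟨k2, fun k => hG.not_flat_X (hs.trans k3) k2 (k4.trans ht) k
        fun y hy => (h.mono k3 k4 y hy).1,
      fun k => hG.not_flat_Y (hs.trans k3) k2 (k4.trans ht) k fun y hy => (h.mono k3 k4 y hy).1⟩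
  · rw [h0, h9]
    exact fun y hy => (h5 y ⟨h2.le.trans hy.1, hy.2⟩).1.le
  · rw [h0, h9]
    exact (h5 r ⟨(h2.trans h3).le, le_rfl⟩).2

end UArc

namespace Ext
variable {e : Ext} {s t u s' t' C : ℝ}

theorem legendre (hG : e.GenAll) (hS : e.SI2 C) (hC : 0 ≤ C) (hs : 0 ≤ s) (hst : s < t)
    (ht : t ≤ e.δ) (h : e.IsS s t) : ∀ τ ∈ Icc s t, 0 ≤ e.a τ ∧ e.b τ ≤ 0 := fun τ hτ =>
  ⟨by simpa using legendre_b hG.swap hS.2 hC hs hst ht (swap_isS.2 h) τ hτ,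
    legendre_b hG hS.1 hC hs hst ht h τ hτ⟩

theorem few_badX (hS : e.SI C) : (e.Cnt (e.BadX C)).encard ≤ 3 := by
  refine few fun s t h1 h2 => ?_
  have h3 : ∀ i < 3, t i < s (i + 1) := fun i hi => lt_of_le_of_ne (h2 i hi) fun h => by
    have k1 := h1 i (by omega)
    have k2 := h1 (i + 1) (by omega)
    rw [← h] at k2
    exact k1.1.not_XX k2.1 k1.2.1 k2.2.1
  have h4 : ∀ j < 4, ∀ i < j, t i < s j := by
    intro j
    induction j with
    | zero => exact fun _ i hi => absurd hi (Nat.not_lt_zero i)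
    | succ j ih =>
      intro hj i hi
      rcases (Nat.lt_succ_iff.1 hi).eq_or_lt with rfl | hi'
      · exact h3 i (by omega)
      · exact (ih (by omega) i hi').trans ((h1 j (by omega)).1.lt.trans (h3 j (by omega)))
  obtain ⟨i, hi⟩ := hS (fun i => s i) (fun i => t i) (fun i => (h1 i i.2).1.sat (h1 i i.2).2.1)
    fun i j hij => h4 j j.2 i hij
  obtain ⟨k1, k2, k3⟩ := h1 i i.2
  rw [k2.x_sub k1.pos.le k1.lt.le k1.lt_δ.le] at hi
  exact absurd k3 hi.not_gt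

/-- Two zeros of `a` and a zero of `α` between them on a doubly tangential arc. -/
theorem DT.zeros (h : e.Arc s t) (hd : e.DT s t) : ∃ r ρ r', s < r ∧ r < ρ ∧ ρ < r' ∧ r' < t ∧
    e.a r = 0 ∧ e.α ρ = 0 ∧ e.a r' = 0 := by
  have hsub : ∀ {l r : ℝ}, s ≤ l → r ≤ t → Icc l r ⊆ Icc 0 e.δ := fun h1 h2 =>
    Icc_subset_Icc (h.pos.le.trans h1) (h2.trans h.lt_δ.le)
  have hr : ∀ (w : List Bool) {l r : ℝ}, s ≤ l → l < r → r ≤ t → e.h w l = 0 → e.h w r = 0 →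
      ∃ c ∈ Ioo l r, e.h (true :: w) c = 0 := fun w l r h1 h2 h3 h4 h5 =>
    exists_hasDerivAt_eq_zero h2 ((e.conth w).mono (hsub h1 h3)) (h4.trans h5.symm)
      fun y hy => hd.1.hasDerivAt h.pos.le h.lt_δ.le w ⟨h1.trans_lt hy.1, hy.2.trans_le h3⟩
  obtain ⟨c, hc, hc0⟩ := exists_hasDerivAt_eq_zero h.lt (e.contφ.mono (hsub le_rfl le_rfl))
    ((Br.φ0 h.left).trans (Br.φ0 h.right).symm)
    fun y hy => e.hasDeriv ⟨h.pos.trans hy.1, hy.2.trans h.lt_δ⟩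
  obtain ⟨r, h1, h2⟩ := hr [] le_rfl hc.1 hc.2.le hd.2.1 hc0
  obtain ⟨r', h3, h4⟩ := hr [] hc.1.le hc.2 le_rfl hc0 hd.2.2
  obtain ⟨ρ, h5, h6⟩ := hr [true] h1.1.le (h1.2.trans h3.1) h3.2.le h2 h4
  exact ⟨r, ρ, r', h1.1, h5.1, h5.2, h3.2, h2, h6, h4⟩

/-- Two doubly tangential arcs on which the third bracket has a sign. -/
theorem DT.pair (h : e.Arc s t) (hd : e.DT s t) (h' : e.Arc s' t') (hd' : e.DT s' t') (hts : t ≤ s')
    {σ : ℝ} (hσ : ∀ τ ∈ Ioo s t', 0 < σ * e.h [true, true, true] τ) :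
    ∃ r r', s < r ∧ r < r' ∧ r' < t' ∧ e.a r = 0 ∧ e.a r' = 0 ∧ 0 ≤ σ * e.α r ∧ σ * e.α r' ≤ 0 := by
  obtain ⟨r₁, ρ₁, r, a1, a2, a3, a4, -, a6, a7⟩ := DT.zeros h hd
  obtain ⟨r', ρ₂, r₂, b1, b2, b3, b4, b5, b6, -⟩ := DT.zeros h' hd'
  have hm : ∀ {l r : ℝ}, e.IsX l r → s ≤ l → l ≤ r → r ≤ t' → σ * e.α l ≤ σ * e.α r :=
    fun {l r} hX h1 h2 h3 => by
      have := hX.anti (((e.dh [true, true]).cmul (-σ)).mono (h.pos.le.trans h1) h2
        (h3.trans h'.lt_δ.le)) h2 fun τ hτ => by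
          linarith [hσ τ ⟨h1.trans_lt hτ.1, hτ.2.trans_le h3⟩]
      linarith
  have k1 := hm (hd.1.mono (a1.trans a2).le a4.le) (a1.trans a2).le a3.le
    (a4.le.trans (hts.trans h'.lt.le))
  have k2 := hm (hd'.1.mono b1.le (b3.trans b4).le) (h.lt.le.trans (hts.trans b1.le)) b2.le
    (b3.trans b4).le
  rw [a6, mul_zero] at k1
  rw [b6, mul_zero] at k2
  exact ⟨r, r', a1.trans (a2.trans a3), a4.trans_le (hts.trans b1.le), b2.trans (b3.trans b4),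
    a7, b5, k1, k2⟩

end Ext

end Pool.Agent.Lib.MP_f4f7c0_an
end

-- part Pool.Agent.Lib.MP_f4f7c0_an.UCaseB
section

/-! Doubly tangential arcs, and the case `b < 0`. -/

namespace Pool.Agent.Lib.MP_f4f7c0_an

open Set Filter Topology MeasureTheory

variable {h₀ : List Bool → ℝ}

namespace UCaseB

theorem nb {e : Ext} {ε t : ℝ} (h : e.Near h₀ ε) (w : List Bool) (hw : w.length ≤ 4)
    (h0 : 0 ≤ t) (h1 : t ≤ e.δ) : |e.h w t - h₀ w| ≤ ε := h.2 w hw t ⟨h0, h1⟩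

theorem nb_abs {e : Ext} {ε t : ℝ} (h : e.Near h₀ ε) (w : List Bool) (hw : w.length ≤ 4)
    (h0 : 0 ≤ t) (h1 : t ≤ e.δ) : |e.h w t| ≤ |h₀ w| + ε := by
  have := nb h w hw h0 h1
  have h2 := abs_sub_abs_le_abs_sub (e.h w t) (h₀ w)
  linarith

theorem nb_sign {e : Ext} {ε t σ : ℝ} (h : e.Near h₀ ε) (w : List Bool) (hw : w.length ≤ 4)
    (h0 : 0 ≤ t) (h1 : t ≤ e.δ) (hσ : |σ| = 1) (hs : σ * h₀ w = |h₀ w|) :
    |h₀ w| - ε ≤ σ * e.h w t := by
  have := nb h w hw h0 h1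
  have h2 : |σ * (e.h w t - h₀ w)| ≤ ε := by rwa [abs_mul, hσ, one_mul]
  have h3 := (abs_le.1 h2).1
  linarith [mul_sub σ (e.h w t) (h₀ w)]

theorem exists_sign (x : ℝ) : ∃ σ : ℝ, |σ| = 1 ∧ σ * x = |x| := by
  rcases le_total 0 x with h | h
  · exact ⟨1, abs_one, by rw [one_mul, abs_of_nonneg h]⟩
  · exact ⟨-1, by simp, by rw [abs_of_nonpos h]; ring⟩

theorem sign_le {σ x K : ℝ} (hσ : |σ| = 1) (hx : |x| ≤ K) : -K ≤ σ * x ∧ σ * x ≤ K :=
  abs_le.1 (by rwa [abs_mul, hσ, one_mul])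

theorem conv_le {m x y K : ℝ} (h0 : 0 ≤ m) (h1 : m ≤ 1) (hx : |x| ≤ K) (hy : |y| ≤ K) :
    |m * x + (1 - m) * y| ≤ K := by
  obtain ⟨a, b⟩ := abs_le.1 hx
  obtain ⟨c, d⟩ := abs_le.1 hy
  rw [abs_le]
  constructor <;> nlinarith

theorem cnt_empty {e : Ext} {P : ℝ → ℝ → Prop} (h : ∀ s t, e.Arc s t → ¬P s t) :
    (e.Cnt P).encard ≤ 3 := by
  have : e.Cnt P = ∅ := eq_empty_of_forall_notMem fun s ⟨t, h1, h2⟩ => h s t h1 h2
  simp [this]

/-- A Lipschitz function that changes sign in the right order is small. -/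
theorem small_of_sign {m F Fp Fm : ℝ → ℝ} {r r' B σ : ℝ} (h : DD m F Fp Fm r r') (hr : r ≤ r')
    (hB : ∀ᵐ τ, τ ∈ Ioo r r' → |m τ * Fp τ + (1 - m τ) * Fm τ| ≤ B) (hB0 : 0 ≤ B)
    (hσ : |σ| = 1) (h1 : 0 ≤ σ * F r) (h2 : σ * F r' ≤ 0) {τ : ℝ} (hτ : τ ∈ Icc r r') :
    |F τ| ≤ B * (r' - r) := by
  have a1 := h.abs_le hB (left_mem_Icc.2 hr) hτ
  have a2 := h.abs_le hB (right_mem_Icc.2 hr) hτ
  rw [abs_of_nonneg (by linarith [hτ.1] : 0 ≤ τ - r)] at a1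
  rw [abs_of_nonpos (by linarith [hτ.2] : τ - r' ≤ 0)] at a2
  have b1 := (sign_le hσ a1).1
  have b2 := (sign_le hσ a2).2
  have c1 : B * (τ - r) ≤ B * (r' - r) := mul_le_mul_of_nonneg_left (by linarith [hτ.2]) hB0
  have c2 : B * -(τ - r') ≤ B * (r' - r) := mul_le_mul_of_nonneg_left (by linarith [hτ.1]) hB0
  have : |σ * F τ| ≤ B * (r' - r) := by
    rw [abs_le]
    constructor <;> linarith [mul_sub σ (F τ) (F r), mul_sub σ (F τ) (F r')]
  rwa [abs_mul, hσ, one_mul] at this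

/-- The key estimate between two zeros of `a`. -/
theorem core {e : Ext} {σ r r' K M κ : ℝ} {Φ φ : ℝ → ℝ} (hσ : |σ| = 1) (h0 : 0 ≤ r)
    (hr : r < r') (h1 : r' ≤ e.δ) (hK : 0 ≤ K)
    (hm : ∀ᵐ τ, τ ∈ Ioo r r' →
      |(1 - e.m τ) * (e.h [false, true] τ - e.α τ)| ≤ K * |e.a τ| ∧
      |(1 - e.m τ) * (e.h [false, true, true] τ - e.h [true, true, true] τ)| ≤ K * |e.a τ|)
    (hM0 : 0 < M) (hM : ∀ τ ∈ Icc r r', |e.h [true, true, true] τ| ≤ M)
    (hΦ : DD e.m Φ φ φ r r') (hφ : ∀ τ ∈ Ioo r r', φ τ ≤ σ * e.h [true, true, true] τ)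
    (hκ : κ * (r' - r) * M ≤ Φ r' - Φ r) (ha : e.a r = 0) (hα : 0 ≤ σ * e.α r)
    (hα' : σ * e.α r' ≤ 0) (hL1 : K * (r' - r) ≤ 1 / 2) (hL2 : r' - r ≤ 1 / 2)
    (hL3 : 2 * (r' - r) < κ) : False := by
  obtain ⟨τ0, hτ0, hmax⟩ := isCompact_Icc.exists_isMaxOn (nonempty_Icc.2 hr.le)
    (((e.conth [true]).mono (Icc_subset_Icc h0 h1)).abs)
  set M1 := |e.a τ0| with hM1
  have hM1b : ∀ τ ∈ Icc r r', |e.a τ| ≤ M1 := fun τ hτ => hmax hτ
  have hM10 : 0 ≤ M1 := abs_nonneg _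
  set L := r' - r with hL
  have hL0 : 0 < L := by linarith
  have d2 := (e.dh [true, true]).mono h0 hr.le h1
  have d1 := (e.dh [true]).mono h0 hr.le h1
  have hα2 : ∀ τ ∈ Icc r r', |e.α τ| ≤ (M + K * M1) * L := by
    intro τ hτ
    refine small_of_sign d2 hr.le ?_ (by positivity) hσ hα hα' hτ
    filter_upwards [hm] with u hu hu'
    have a1 := (hu hu').2
    have a2 := hM u (Ioo_subset_Icc_self hu')
    have a3 := mul_le_mul_of_nonneg_left (hM1b u (Ioo_subset_Icc_self hu')) hK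
    have a4 := abs_add_le (e.h [true, true, true] u)
      ((1 - e.m u) * (e.h [false, true, true] u - e.h [true, true, true] u))
    rw [show e.m u * e.h [true, true, true] u + (1 - e.m u) * e.h [false, true, true] u =
      e.h [true, true, true] u +
        (1 - e.m u) * (e.h [false, true, true] u - e.h [true, true, true] u) by ring]
    linarith
  have hb1 : M1 ≤ ((M + K * M1) * L + K * M1) * L := by
    have := d1.abs_le (B := (M + K * M1) * L + K * M1) (by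
      filter_upwards [hm] with u hu hu'
      have a1 := (hu hu').1
      have a2 := hα2 u (Ioo_subset_Icc_self hu')
      have a3 := mul_le_mul_of_nonneg_left (hM1b u (Ioo_subset_Icc_self hu')) hK
      have a4 := abs_add_le (e.α u) ((1 - e.m u) * (e.h [false, true] u - e.α u))
      rw [show e.m u * e.h [true, true] u + (1 - e.m u) * e.h [false, true] u =
        e.α u + (1 - e.m u) * (e.h [false, true] u - e.α u) by ring]
      linarith) (left_mem_Icc.2 hr.le) hτ0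
    have h2 : e.h [true] r = 0 := ha
    rw [h2, sub_zero, abs_of_nonneg (by linarith [hτ0.1] : 0 ≤ τ0 - r)] at this
    exact this.trans (mul_le_mul_of_nonneg_left (by linarith [hτ0.2]) (by positivity))
  have hb2 : M1 ≤ 4 * (L * L * M) := by
    have a1 : K * L * M1 ≤ 1 / 2 * M1 := mul_le_mul_of_nonneg_right hL1 hM10
    have a2 : K * L * M1 * L ≤ 1 / 2 * M1 * (1 / 2) :=
      mul_le_mul a1 hL2 hL0.le (by positivity)
    nlinarith
  have key := ((hΦ.sub (d2.cmul σ)).sub (DD.id.cmul (K * M1))).le_of_ae hr.le (by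
    filter_upwards [hm] with u hu hu'
    have a1 := (sign_le hσ (hu hu').2).1
    have a3 := mul_le_mul_of_nonneg_left (hM1b u (Ioo_subset_Icc_self hu')) hK
    have a4 := hφ u hu'
    nlinarith)
  have a1 : κ * L * M ≤ K * M1 * L := by
    have : K * M1 * L = K * M1 * r' - K * M1 * r := by rw [hL]; ring
    have b1 : σ * e.h [true, true] r' ≤ 0 := hα'
    have b2 : 0 ≤ σ * e.h [true, true] r := hα
    linarith
  have a2 : K * L * M1 ≤ 1 / 2 * (4 * (L * L * M)) :=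
    mul_le_mul hL1 hb2 hM10 (by norm_num)
  have a3 : 2 * L * (L * M) < κ * (L * M) := mul_lt_mul_of_pos_right hL3 (by positivity)
  nlinarith

/-- Between two break points the control is close to one. -/
theorem ae_small {e : Ext} {s t c : ℝ} (hs : s ∈ e.Br) (ht : t ∈ e.Br)
    (hb : ∀ τ ∈ Icc 0 e.δ, e.b τ ≤ -c) (hc : 0 < c) :
    ∀ᵐ τ, τ ∈ Ioo s t → (1 - e.m τ) * c ≤ |e.a τ| := by
  have hφ := Ext.cvx hs.1.1 ht.1.2 (Ext.Br.φ0 hs) (Ext.Br.φ0 ht) fun τ hτ => by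
    linarith [hb τ ⟨by linarith [hs.1.1, hτ.1], by linarith [ht.1.2, hτ.2]⟩]
  filter_upwards [e.pos, e.ae_sing] with τ h1 h2 hτ
  have h3 : τ ∈ Ioo 0 e.δ := ⟨hs.1.1.trans hτ.1, hτ.2.trans ht.1.2⟩
  rcases (hφ τ (Ioo_subset_Icc_self hτ)).eq_or_lt with h | h
  · have h4 := (h2 h3 h.symm).2
    have h5 := hb τ (Ioo_subset_Icc_self h3)
    have h6 := e.m0 τ
    have h7 := e.m1 τ
    have h8 := le_abs_self (e.a τ)
    have h9 := abs_nonneg (e.a τ)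
    nlinarith
  · rw [h1 h3 h]
    simp

theorem abs_small {m c a x y K : ℝ} (hm : m ≤ 1) (hc : 0 < c) (h : (1 - m) * c ≤ |a|)
    (hx : |x| ≤ K) (hy : |y| ≤ K) : |(1 - m) * (x - y)| ≤ 2 * K / c * |a| := by
  have hK : 0 ≤ K := (abs_nonneg _).trans hx
  have h1 : |x - y| ≤ 2 * K := by linarith [abs_sub x y]
  have h2 : 1 - m ≤ |a| / c := by rwa [le_div_iff₀ hc]
  rw [abs_mul, abs_of_nonneg (by linarith : 0 ≤ 1 - m)]
  calc (1 - m) * |x - y| ≤ |a| / c * (2 * K) := mul_le_mul h2 h1 (abs_nonneg _) (by positivity)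
    _ = _ := by ring

theorem exists_bound (h₀ : List Bool → ℝ) : ∃ K : ℝ, 1 ≤ K ∧ ∀ (e : Ext) (ε : ℝ), ε ≤ 1 →
    e.Near h₀ ε → ∀ w : List Bool, w.length ≤ 4 → ∀ t, 0 ≤ t → t ≤ e.δ → |e.h w t| ≤ K := by
  obtain ⟨B, hB⟩ := ((List.finite_length_le Bool 4).image fun w => |h₀ w|).bddAbove
  have h1 : ∀ w : List Bool, w.length ≤ 4 → |h₀ w| ≤ B := fun w hw => hB ⟨w, hw, rfl⟩
  refine ⟨B + 1, by linarith [h1 [] (by simp), abs_nonneg (h₀ [])], ?_⟩
  intro e ε hε h w hw t h0 ht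
  linarith [nb_abs h w hw h0 ht, h1 w hw]

theorem exists_small {a b c : ℝ} (ha : 0 < a) (hb : 0 < b) (hc : 0 < c) :
    ∃ ε > 0, ε ≤ 1 / 2 ∧ ε ≤ a ∧ ε ≤ b ∧ ε ≤ c :=
  ⟨min (min (1 / 2) a) (min b c), by positivity, (min_le_left _ _).trans (min_le_left _ _),
    (min_le_left _ _).trans (min_le_right _ _), (min_le_right _ _).trans (min_le_left _ _),
    (min_le_right _ _).trans (min_le_right _ _)⟩

theorem few_three (hb : h₀ [false] < 0) (h3 : h₀ [true, true, true] ≠ 0) :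
    ∃ ε > 0, ∀ e : Ext, e.Near h₀ ε → (e.Cnt e.DT).encard ≤ 3 := by
  obtain ⟨K, hK, hKb⟩ := exists_bound h₀
  obtain ⟨σ, hσ, hσ'⟩ := exists_sign (h₀ [true, true, true])
  set c := -h₀ [false] / 2 with hc
  have hc0 : 0 < c := by linarith
  set c' := |h₀ [true, true, true]| / 2 with hc'
  have hc'0 : 0 < c' := by positivity
  obtain ⟨ε, hε, e1, e2, e3, e4⟩ := exists_small (lt_min hc0 hc'0) (a := min c c')
    (b := c / (4 * K)) (c := c' / (4 * K)) (by positivity) (by positivity)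
  refine ⟨ε, hε, fun e he => Ext.few fun s t hst hlt => ?_⟩
  obtain ⟨a0, d0⟩ := hst 0 (by norm_num)
  obtain ⟨a1, d1⟩ := hst 1 (by norm_num)
  have hsg : ∀ τ, 0 ≤ τ → τ ≤ e.δ → c' ≤ σ * e.h [true, true, true] τ := fun τ x y => by
    linarith [nb_sign he _ (by simp) x y hσ hσ', min_le_right c c']
  obtain ⟨r, r', b1, b2, b3, b4, -, b6, b7⟩ := Ext.DT.pair a0 d0 a1 d1 (hlt 0 (by norm_num))
    (σ := σ) fun τ hτ => hc'0.trans_le
      (hsg τ (by linarith [a0.pos, hτ.1]) (by linarith [a1.lt_δ, hτ.2]))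
  have r0 : 0 ≤ r := by linarith [a0.pos]
  have r1 : r' ≤ e.δ := by linarith [a1.lt_δ]
  have hL : r' - r ≤ ε := by linarith [he.1]
  have bd := hKb e ε (by linarith) he
  refine core (K := 2 * K / c) (M := K) (κ := c' / K) hσ r0 b2 r1 (by positivity) ?_
    (by linarith) (fun τ hτ => bd _ (by simp) τ (r0.trans hτ.1) (hτ.2.trans r1))
    (DD.id.cmul c') (fun τ hτ => by
      simpa using hsg τ (r0.trans hτ.1.le) (hτ.2.le.trans r1)) (le_of_eq (by field_simp)) b4 b6 b7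
    ?_ (by linarith) ?_
  · filter_upwards [ae_small a0.left a1.right (c := c) (fun τ hτ => by
      linarith [(abs_le.1 (nb he [false] (by simp) hτ.1 hτ.2)).2, min_le_left c c']) hc0]
      with τ h hτ
    have x := h ⟨b1.trans hτ.1, hτ.2.trans b3⟩
    have y1 := r0.trans hτ.1.le
    have y2 := hτ.2.le.trans r1
    exact ⟨abs_small (e.m1 τ) hc0 x (bd _ (by simp) τ y1 y2) (bd _ (by simp) τ y1 y2),
      abs_small (e.m1 τ) hc0 x (bd _ (by simp) τ y1 y2) (bd _ (by simp) τ y1 y2)⟩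
  · calc 2 * K / c * (r' - r) ≤ 2 * K / c * (c / (4 * K)) :=
          mul_le_mul_of_nonneg_left (hL.trans e3) (by positivity)
      _ = 1 / 2 := by field_simp; norm_num
  · have : c' / K = 4 * (c' / (4 * K)) := by field_simp
    linarith

theorem few_four (hb : h₀ [false] < 0) (h1 : h₀ [true] = 0)
    (h4 : h₀ [true, true, true, true] ≠ 0) :
    ∃ ε > 0, ∀ e : Ext, e.Near h₀ ε → (e.Cnt e.DT).encard ≤ 3 := by
  obtain ⟨K, hK, hKb⟩ := exists_bound h₀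
  obtain ⟨σ, hσ, hσ'⟩ := exists_sign (h₀ [true, true, true, true])
  set c := -h₀ [false] / 2 with hc
  have hc0 : 0 < c := by linarith
  set c' := |h₀ [true, true, true, true]| / 4 with hc'
  have hc'0 : 0 < c' := by positivity
  obtain ⟨ε, hε, e1, e2, e3, e4⟩ := exists_small (lt_min hc0 hc'0) (a := min c c')
    (b := min (c / (4 * K)) (c' * c / (2 * K))) (c := min 1 (c' / (2 * K)) / 4) (by positivity)
    (by positivity)
  refine ⟨ε, hε, fun e he => Ext.few fun s t hst hlt => ?_⟩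
  obtain ⟨a0, d0⟩ := hst 0 (by norm_num)
  obtain ⟨a1, d1⟩ := hst 1 (by norm_num)
  obtain ⟨a2, d2⟩ := hst 2 (by norm_num)
  obtain ⟨a3, d3⟩ := hst 3 (by norm_num)
  have l0 : t 0 ≤ s 1 := hlt 0 (by norm_num)
  have l1 : t 1 ≤ s 2 := hlt 1 (by norm_num)
  have l2 : t 2 ≤ s 3 := hlt 2 (by norm_num)
  have bd := hKb e ε (by linarith) he
  have hae := ae_small a0.left a3.right (c := c) (fun τ hτ => by
    linarith [(abs_le.1 (nb he [false] (by simp) hτ.1 hτ.2)).2, min_le_left c c']) hc0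
  have p0 := a0.pos
  have p3 := a3.lt_δ
  have q0 := a0.lt
  have q1 := a1.lt
  have q2 := a2.lt
  have q3 := a3.lt
  -- the third bracket is strictly monotone
  have hmono : ∀ u v, s 0 ≤ u → u ≤ v → v ≤ t 3 →
      σ * e.h [true, true, true] u + c' * (v - u) ≤ σ * e.h [true, true, true] v := by
    intro u v x y z
    have key := ((DD.id.cmul c').sub
      (((e.dh [true, true, true]).mono (by linarith) y (by linarith)).cmul σ)).le_of_ae y (by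
      filter_upwards [hae] with τ h hτ
      have y1 : 0 ≤ τ := by linarith [hτ.1]
      have y2 : τ ≤ e.δ := by linarith [hτ.2]
      have x1 := abs_small (e.m1 τ) hc0 (h ⟨by linarith [hτ.1], by linarith [hτ.2]⟩)
        (bd [false, true, true, true] (by simp) τ y1 y2)
        (bd [true, true, true, true] (by simp) τ y1 y2)
      have x2 : |e.a τ| ≤ c' * c / (2 * K) := by
        have := nb he [true] (by simp) y1 y2
        rw [h1, sub_zero] at this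
        exact this.trans (e3.trans (min_le_right _ _))
      have x3 : 2 * K / c * |e.a τ| ≤ c' := by
        refine (mul_le_mul_of_nonneg_left x2 (by positivity)).trans (le_of_eq ?_)
        field_simp
      have x4 := (sign_le hσ (x1.trans x3)).1
      have x5 := nb_sign he _ (by simp) y1 y2 hσ hσ'
      have x6 := min_le_right c c'
      nlinarith)
    linarith
  have hlip : ∀ u v, 0 ≤ u → u ≤ e.δ → 0 ≤ v → v ≤ e.δ →
      |e.h [true, true, true] v - e.h [true, true, true] u| ≤ K * |v - u| := by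
    intro u v x y z w
    refine (e.dh [true, true, true]).abs_le ?_ ⟨x, y⟩ ⟨z, w⟩
    exact Eventually.of_forall fun τ hτ => conv_le (e.m0 τ) (e.m1 τ)
      (bd _ (by simp) τ hτ.1.le hτ.2.le) (bd _ (by simp) τ hτ.1.le hτ.2.le)
  have main : ∀ (σ' r r' p : ℝ) (Φ φ : ℝ → ℝ), |σ'| = 1 → s 0 < r → r < r' → r' < t 3 →
      p ∈ Icc r r' → 0 < σ' * e.h [true, true, true] p → DD e.m Φ φ φ r r' →
      (∀ τ ∈ Ioo r r', φ τ ≤ σ' * e.h [true, true, true] τ) →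
      Φ r' - Φ r = σ' * e.h [true, true, true] p * (r' - r) + c' * (r' - r) ^ 2 / 2 →
      e.a r = 0 → 0 ≤ σ' * e.α r → σ' * e.α r' ≤ 0 → False := by
    intro σ' r r' p Φ φ hσ1 b1 b2 b3 hp hpos hΦ hφ hI b4 b6 b7
    have r0 : 0 ≤ r := by linarith
    have r1 : r' ≤ e.δ := by linarith
    have hL : r' - r ≤ ε := by linarith [he.1]
    have hL0 : 0 < r' - r := by linarith
    set μ := σ' * e.h [true, true, true] p with hμ
    have hμa : |e.h [true, true, true] p| = μ := by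
      rw [← abs_of_pos hpos, hμ, abs_mul, hσ1, one_mul]
    refine core (K := 2 * K / c) (M := μ + K * (r' - r)) (κ := min 1 (c' / (2 * K))) hσ1 r0 b2 r1
      (by positivity) ?_ (by positivity) ?_ hΦ hφ ?_ b4 b6 b7 ?_ (by linarith) ?_
    · filter_upwards [hae] with τ h hτ
      have x := h ⟨b1.trans hτ.1, hτ.2.trans b3⟩
      have y1 := r0.trans hτ.1.le
      have y2 := hτ.2.le.trans r1
      exact ⟨abs_small (e.m1 τ) hc0 x (bd _ (by simp) τ y1 y2) (bd _ (by simp) τ y1 y2),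
        abs_small (e.m1 τ) hc0 x (bd _ (by simp) τ y1 y2) (bd _ (by simp) τ y1 y2)⟩
    · intro τ hτ
      have x1 := hlip p τ (r0.trans hp.1) (hp.2.trans r1) (r0.trans hτ.1) (hτ.2.trans r1)
      have x2 : |τ - p| ≤ r' - r := by
        rw [abs_le]; constructor <;> linarith [hp.1, hp.2, hτ.1, hτ.2]
      have x3 := mul_le_mul_of_nonneg_left x2 (by linarith : 0 ≤ K)
      have x4 := abs_sub_abs_le_abs_sub (e.h [true, true, true] τ) (e.h [true, true, true] p)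
      linarith
    · rw [hI]
      have x1 : min 1 (c' / (2 * K)) * (μ * (r' - r)) ≤ 1 * (μ * (r' - r)) :=
        mul_le_mul_of_nonneg_right (min_le_left _ _) (by positivity)
      have x2 : min 1 (c' / (2 * K)) * (K * (r' - r) ^ 2) ≤ c' / (2 * K) * (K * (r' - r) ^ 2) :=
        mul_le_mul_of_nonneg_right (min_le_right _ _) (by positivity)
      have x3 : c' / (2 * K) * (K * (r' - r) ^ 2) = c' * (r' - r) ^ 2 / 2 := by field_simp
      calc min 1 (c' / (2 * K)) * (r' - r) * (μ + K * (r' - r))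
          = min 1 (c' / (2 * K)) * (μ * (r' - r)) +
            min 1 (c' / (2 * K)) * (K * (r' - r) ^ 2) := by ring
        _ ≤ _ := by linarith
    · calc 2 * K / c * (r' - r) ≤ 2 * K / c * (c / (4 * K)) :=
            mul_le_mul_of_nonneg_left (hL.trans (e3.trans (min_le_left _ _))) (by positivity)
        _ = 1 / 2 := by field_simp; norm_num
    · have : 0 < min 1 (c' / (2 * K)) := by positivity
      linarith
  rcases le_or_gt (σ * e.h [true, true, true] (t 1)) 0 with hs | hs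
  · have hneg : ∀ τ, s 0 ≤ τ → τ < t 1 → 0 < -σ * e.h [true, true, true] τ := by
      intro τ x y
      have := hmono τ (t 1) x y.le (by linarith)
      have h2 := mul_pos hc'0 (sub_pos.2 y)
      linarith [neg_mul σ (e.h [true, true, true] τ)]
    obtain ⟨r, r', b1, b2, b3, b4, -, b6, b7⟩ := Ext.DT.pair a0 d0 a1 d1 l0
      (σ := -σ) fun τ hτ => hneg τ hτ.1.le hτ.2
    refine main (-σ) r r' r' _ _ (by rwa [abs_neg]) b1 b2 (by linarith) (right_mem_Icc.2 b2.le)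
      (hneg r' (by linarith) b3)
      (((DD.id.cmul (-σ * e.h [true, true, true] r')).sub
        ((((DD.const r').sub DD.id).mul ((DD.const r').sub DD.id)).cmul (c' / 2))).congr
        (Gp := fun τ => -σ * e.h [true, true, true] r' + c' * (r' - τ)) (fun _ _ => by ring)
        fun _ _ => by ring) (fun τ hτ => ?_) (by ring) b4 b6 b7
    have := hmono τ r' (by linarith [hτ.1]) hτ.2.le (by linarith)
    linarith [neg_mul σ (e.h [true, true, true] τ), neg_mul σ (e.h [true, true, true] r')]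
  · have hpos : ∀ τ, s 2 ≤ τ → τ ≤ t 3 → 0 < σ * e.h [true, true, true] τ := by
      intro τ x y
      have := hmono (t 1) τ (by linarith) (by linarith) y
      have h2 := mul_nonneg hc'0.le (by linarith : 0 ≤ τ - t 1)
      linarith
    obtain ⟨r, r', b1, b2, b3, b4, -, b6, b7⟩ := Ext.DT.pair a2 d2 a3 d3 l2
      (σ := σ) fun τ hτ => hpos τ hτ.1.le hτ.2.le
    refine main σ r r' r _ _ hσ (by linarith) b2 b3 (left_mem_Icc.2 b2.le)
      (hpos r b1.le (by linarith))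
      (((DD.id.cmul (σ * e.h [true, true, true] r)).add
        (((DD.id.sub (DD.const r)).mul (DD.id.sub (DD.const r))).cmul (c' / 2))).congr
        (Gp := fun τ => σ * e.h [true, true, true] r + c' * (τ - r)) (fun _ _ => by ring)
        fun _ _ => by ring) (fun τ hτ => ?_) (by ring) b4 b6 b7
    exact hmono r τ (by linarith) hτ.1.le (by linarith [hτ.2])

end UCaseB

open UCaseB

theorem no_DT (hα : h₀ [true, true] ≠ 0) :
    ∃ ε > 0, ∀ e : Ext, e.Near h₀ ε → ∀ s t, e.Arc s t → ¬e.DT s t := by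
  have h0 : 0 < |h₀ [true, true]| := abs_pos.2 hα
  refine ⟨|h₀ [true, true]| / 2, by positivity, fun e he s t ha hd => ?_⟩
  obtain ⟨r, ρ, r', b1, b2, b3, b4, -, b5, -⟩ := Ext.DT.zeros ha hd
  have := nb he [true, true] (by simp) (t := ρ) (by linarith [ha.pos]) (by linarith [ha.lt_δ])
  have h2 : e.h [true, true] ρ = 0 := b5
  rw [h2, zero_sub, abs_neg] at this
  linarith

theorem few_DT (hg : Gen h₀) (ha : h₀ [true] = 0) (hb : h₀ [false] = 0) :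
    ∃ ε > 0, ∀ e : Ext, e.Near h₀ ε → (e.Cnt e.DT).encard ≤ 3 := by
  by_cases hα : h₀ [true, true] = 0
  swap
  · obtain ⟨ε, hε, h⟩ := no_DT hα
    exact ⟨ε, hε, fun e he => cnt_empty (h e he)⟩
  have hβ : 0 < |h₀ [true, false]| := abs_pos.2 (hg.g3 true ha hb hα)
  have h3 : 0 < |h₀ [true, true, true]| := abs_pos.2 (hg.g4 true ha hb hα)
  obtain ⟨K, hK, hKb⟩ := exists_bound h₀
  obtain ⟨σ, hσ, hσ'⟩ := exists_sign (h₀ [true, true, true])
  obtain ⟨ρ, hρ, hρ'⟩ := exists_sign (h₀ [true, false])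
  set c := min |h₀ [true, false]| |h₀ [true, true, true]| / 2 with hc
  have hc0 : 0 < c := by positivity
  have hc1 := min_le_left |h₀ [true, false]| |h₀ [true, true, true]|
  have hc2 := min_le_right |h₀ [true, false]| |h₀ [true, true, true]|
  obtain ⟨ε, hε, e1, e2, e3, -⟩ := exists_small hc0 (b := c * c / (2 * ((c + K) * K))) (c := 1)
    (by positivity) one_pos
  refine ⟨ε, hε, fun e he => Ext.few fun s t hst hlt => ?_⟩
  obtain ⟨a0, d0⟩ := hst 0 (by norm_num)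
  obtain ⟨a1, d1⟩ := hst 1 (by norm_num)
  have hsg : ∀ τ, 0 ≤ τ → τ ≤ e.δ → c ≤ σ * e.h [true, true, true] τ := fun τ x y => by
    linarith [nb_sign he _ (by simp) x y hσ hσ']
  have hsb : ∀ τ, 0 ≤ τ → τ ≤ e.δ → c ≤ ρ * e.h [false, true] τ := fun τ x y => by
    rw [e.sym0]
    linarith [nb_sign he _ (by simp) x y hρ hρ']
  obtain ⟨r, r', b1, b2, b3, b4, b5, b6, b7⟩ := Ext.DT.pair a0 d0 a1 d1 (hlt 0 (by norm_num))
    (σ := σ) fun τ hτ => hc0.trans_le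
      (hsg τ (by linarith [a0.pos, hτ.1]) (by linarith [a1.lt_δ, hτ.2]))
  have r0 : 0 ≤ r := by linarith [a0.pos]
  have r1 : r' ≤ e.δ := by linarith [a1.lt_δ]
  have hL : r' - r ≤ ε := by linarith [he.1]
  have hL0 : 0 < r' - r := by linarith
  have bd := hKb e ε (by linarith) he
  have d2 := (e.dh [true, true]).mono r0 b2.le r1
  have d1 := (e.dh [true]).mono r0 b2.le r1
  have dz := e.dz.mono r0 b2.le r1
  have hα2 : ∀ τ ∈ Icc r r', |e.h [true, true] τ| ≤ K * (r' - r) := fun τ hτ =>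
    small_of_sign d2 b2.le (Eventually.of_forall fun u hu => conv_le (e.m0 u) (e.m1 u)
      (bd _ (by simp) u (r0.trans hu.1.le) (hu.2.le.trans r1))
      (bd _ (by simp) u (r0.trans hu.1.le) (hu.2.le.trans r1))) (by linarith) hσ b6 b7 hτ
  have hKL : 0 ≤ K * (r' - r) := by positivity
  have k1 := Ext.mono' (((d1.cmul ρ).sub (dz.cmul c)).add (DD.id.cmul (K * (r' - r)))) r0 b2.le r1
    (fun τ hτ => by linarith [(sign_le hρ (hα2 τ (Ioo_subset_Icc_self hτ))).1])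
    (fun τ hτ => by linarith [hsb τ (r0.trans hτ.1.le) (hτ.2.le.trans r1)])
  have k2 := Ext.mono' (((d2.cmul σ).sub (DD.id.cmul c)).add (dz.cmul (c + K))) r0 b2.le r1
    (fun τ hτ => by linarith [hsg τ (r0.trans hτ.1.le) (hτ.2.le.trans r1)])
    (fun τ hτ => by
      linarith [(sign_le hσ (bd [false, true, true] (by simp) τ (r0.trans hτ.1.le)
        (hτ.2.le.trans r1))).1])
  have b4' : e.h [true] r = 0 := b4
  have b5' : e.h [true] r' = 0 := b5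
  have b6' : 0 ≤ σ * e.h [true, true] r := b6
  have b7' : σ * e.h [true, true] r' ≤ 0 := b7
  rw [b4', b5'] at k1
  set Z := e.z r' - e.z r with hZ
  set L := r' - r with hLdef
  have x1 : c * Z ≤ K * L * L := by
    have : K * L * L = K * L * r' - K * L * r := by rw [hLdef]; ring
    linarith [mul_sub c (e.z r') (e.z r)]
  have x2 : c * L ≤ (c + K) * Z := by
    linarith [mul_sub c r' r, mul_sub (c + K) (e.z r') (e.z r)]
  have x3 : L * (2 * ((c + K) * K)) ≤ c * c := by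
    rw [← le_div_iff₀ (by positivity)]; linarith
  have x4 := mul_le_mul_of_nonneg_left x1 (by positivity : 0 ≤ c + K)
  have x5 := mul_le_mul_of_nonneg_left x2 hc0.le
  have x6 := mul_le_mul_of_nonneg_right x3 hL0.le
  have x7 : 0 < c * c * L := by positivity
  nlinarith

theorem caseB (hg : Gen h₀) (hb : h₀ [false] < 0) : Bdd h₀ := by
  have hfew : ∃ ε > 0, ∀ e : Ext, e.Near h₀ ε → (e.Cnt e.DT).encard ≤ 3 := by
    by_cases h1 : h₀ [true] = 0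
    swap
    · have h0 : 0 < |h₀ [true]| := abs_pos.2 h1
      refine ⟨|h₀ [true]| / 2, by positivity, fun e he => cnt_empty fun s t ha hd => ?_⟩
      obtain ⟨r, ρ, r', b1, b2, b3, b4, b5, -⟩ := Ext.DT.zeros ha hd
      have := nb he [true] (by simp) (t := r) (by linarith [ha.pos]) (by linarith [ha.lt_δ])
      have h2 : e.h [true] r = 0 := b5
      rw [h2, zero_sub, abs_neg] at this
      linarith
    by_cases h2 : h₀ [true, true] = 0
    swap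
    · obtain ⟨ε, hε, h⟩ := no_DT h2
      exact ⟨ε, hε, fun e he => cnt_empty (h e he)⟩
    by_cases h3 : h₀ [true, true, true] = 0
    swap
    · exact few_three hb h3
    refine few_four hb h1 ?_
    obtain ⟨j, hj, h⟩ := hg.g1 true
    interval_cases j
    · exact absurd h1 h
    · exact absurd h2 h
    · exact absurd h3 h
    · exact h
  obtain ⟨ε, hε, hfew⟩ := hfew
  refine ⟨min ε (-h₀ [false] / 2), lt_min hε (by linarith), (3 + 1) * 4, fun e he hG _ => ?_⟩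
  have hbn : ∀ τ, 0 ≤ τ → τ ≤ e.δ → e.b τ < 0 := fun τ x y => by
    linarith [(abs_le.1 (nb he [false] (by simp) x y)).2, min_le_right ε (-h₀ [false] / 2)]
  refine Ext.count hG.br_finite (n := 3) (k := 4) (hfew e (he.mono (min_le_left _ _))) ?_
  intro τ hτ
  have ty : ∀ s t, e.Arc s t → e.IsX s t ∨ e.IsS s t := by
    intro s t ha
    rcases ha.type hG with h | h | h
    · exact Or.inl h
    · exfalso
      refine hG.not_flat_Y ha.pos.le ha.lt ha.lt_δ.le h fun u hu => ?_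
      have x1 := Ext.cvx ha.pos ha.lt_δ (Ext.Br.φ0 ha.left) (Ext.Br.φ0 ha.right)
        (fun v hv => hbn v (by linarith [ha.pos, hv.1]) (by linarith [ha.lt_δ, hv.2])) u
        (Ioo_subset_Icc_self hu)
      have x2 := (Ext.swap_isX.2 h).φ_nonneg ha.pos.le ha.lt ha.lt_δ.le u (Ioo_subset_Icc_self hu)
      rw [Ext.swap_φ] at x2
      linarith
    · exact Or.inr h
  have nS : ∀ s t u, e.Arc s t → e.Arc t u → e.IsS s t → e.IsX t u := by
    intro s t u h1 h2 h3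
    refine (ty t u h2).resolve_right fun h4 => ?_
    exact (hbn t h2.pos.le h1.lt_δ.le).ne (h1.junction h2 h3 h4).2
  have nX : ∀ s t u, e.Arc s t → e.Arc t u → e.IsX s t → e.IsS t u := fun s t u h1 h2 h3 =>
    (ty t u h2).resolve_left fun h4 => h1.not_XX h2 h3 h4
  obtain ⟨a0, -⟩ := hτ 0 (by norm_num)
  obtain ⟨a1, n1⟩ := hτ 1 (by norm_num)
  obtain ⟨a2, n2⟩ := hτ 2 (by norm_num)
  obtain ⟨a3, -⟩ := hτ 3 (by norm_num)
  rcases ty _ _ a0 with h | h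
  · have x1 := nX _ _ _ a0 a1 h
    have x2 := nS _ _ _ a1 a2 x1
    exact n2 ⟨_, a2, a1.dt a2 a3 x1 x2 (nX _ _ _ a2 a3 x2)⟩
  · have x1 := nS _ _ _ a0 a1 h
    exact n1 ⟨_, a1, a0.dt a1 a2 h x1 (nX _ _ _ a1 a2 x1)⟩

end Pool.Agent.Lib.MP_f4f7c0_an
end

-- part Pool.Agent.Lib.MP_f4f7c0_an.ULong1
section

/-! Extremals that stay near an equilibrium with interior control. -/

namespace Pool.Agent.Lib.MP_f4f7c0_an

open Set Filter Topology MeasureTheory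

namespace ULong1
variable {e : Ext} {K η m₀ L ε : ℝ}

theorem lip {F Fp Fm : ℝ → ℝ} {B : ℝ} (h : DD e.m F Fp Fm 0 e.δ)
    (hB : ∀ τ ∈ Icc 0 e.δ, |Fp τ| ≤ B ∧ |Fm τ| ≤ B) {u v : ℝ} (hu : u ∈ Icc 0 e.δ)
    (hv : v ∈ Icc 0 e.δ) : |F v - F u| ≤ B * |v - u| := by
  refine h.abs_le (Eventually.of_forall fun τ hτ => ?_) hu hv
  obtain ⟨h1, h2⟩ := hB τ (Ioo_subset_Icc_self hτ)
  rw [abs_le] at h1 h2 ⊢
  have h3 := e.m0 τ
  have h4 := e.m1 τ
  constructor <;> nlinarith [h1.1, h1.2, h2.1, h2.2]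

/-- Bang intervals are short. -/
theorem bang_short (hm : m₀ ∈ Ioo (0 : ℝ) 1) (h0 : ε ≤ m₀ * L) (h1 : ε ≤ (1 - m₀) * L)
    (hx : ∀ s t, 0 ≤ s → s ≤ t → t ≤ e.δ → |e.x t - e.x s - m₀ * (t - s)| ≤ ε) {s t : ℝ}
    (hs : 0 ≤ s) (hst : s ≤ t) (ht : t ≤ e.δ) (h : e.IsX s t ∨ e.IsY s t) : t - s ≤ L := by
  have h2 := abs_le.1 (hx s t hs hst ht)
  rcases h with h | h
  · have h3 := h.x_sub hs hst ht
    have h4 : (1 - m₀) * (t - s) ≤ (1 - m₀) * L := by nlinarith [h2.2]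
    exact le_of_mul_le_mul_left h4 (by linarith [hm.2])
  · have h3 := (Ext.swap_isX.2 h).x_sub hs hst ht
    simp only [Ext.swap_x, Ext.z] at h3
    have h4 : m₀ * (t - s) ≤ m₀ * L := by nlinarith [h2.1]
    exact le_of_mul_le_mul_left h4 hm.1

/-- All bang intervals have length at most `L`. -/
def Short (e : Ext) (L : ℝ) : Prop :=
  ∀ s t, 0 ≤ s → s ≤ t → t ≤ e.δ → e.IsX s t ∨ e.IsY s t → t - s ≤ L

theorem zeroφ (h : Short e L) (hL : 0 < L) {s t : ℝ} (hs : 0 ≤ s) (ht : t ≤ e.δ)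
    (hst : L < t - s) : ∃ τ ∈ Ioo s t, e.φ τ = 0 := by
  by_contra hc
  have h1 := h s t hs (by linarith) ht (Ext.bang_of_ne hs ht fun τ hτ h0 => hc ⟨τ, hτ, h0⟩)
  linarith

theorem zeroW (h : Short e L) (hL : 0 < L) {s t : ℝ} (hs : 0 ≤ s) (ht : t ≤ e.δ)
    (hst : 2 * L < t - s) : ∃ τ ∈ Ioo s t, e.W τ = 0 := by
  obtain ⟨u, hu, hu0⟩ := zeroφ h hL (t := (s + t) / 2) hs (by linarith) (by linarith)
  obtain ⟨v, hv, hv0⟩ := zeroφ h hL (s := (s + t) / 2) (by linarith) ht (by linarith)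
  have huv : u < v := hu.2.trans hv.1
  obtain ⟨τ, hτ, h0⟩ := exists_hasDerivAt_eq_zero (f := e.φ) (f' := e.W) huv
    (e.contφ.mono (Icc_subset_Icc (by linarith [hu.1]) (by linarith [hv.2]))) (by rw [hu0, hv0])
    fun τ hτ => e.hasDeriv ⟨by linarith [hu.1, hτ.1], by linarith [hv.2, hτ.2]⟩
  exact ⟨τ, ⟨hu.1.trans hτ.1, hτ.2.trans hv.2⟩, h0⟩

theorem small {F Fp Fm : ℝ → ℝ} (hK : 0 < K) (hL : 0 < L) (hδ : 10 * L ≤ e.δ)
    (h : DD e.m F Fp Fm 0 e.δ) (hB : ∀ τ ∈ Icc 0 e.δ, |Fp τ| ≤ K ∧ |Fm τ| ≤ K)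
    (hz : ∀ s t, 0 ≤ s → t ≤ e.δ → 2 * L < t - s → ∃ τ ∈ Ioo s t, F τ = 0) {t : ℝ}
    (ht : t ∈ Icc 0 e.δ) : |F t| ≤ K * (3 * L) := by
  obtain ⟨u, hu, hu0, hd⟩ : ∃ u ∈ Icc 0 e.δ, F u = 0 ∧ |t - u| ≤ 3 * L := by
    rcases le_total t (e.δ / 2) with h1 | h1
    · obtain ⟨u, hu, hu0⟩ := hz t (t + 3 * L) ht.1 (by linarith) (by linarith)
      exact ⟨u, ⟨by linarith [hu.1, ht.1], by linarith [hu.2]⟩, hu0,
        abs_le.2 ⟨by linarith [hu.2], by linarith [hu.1]⟩⟩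
    · obtain ⟨u, hu, hu0⟩ := hz (t - 3 * L) t (by linarith) ht.2 (by linarith)
      exact ⟨u, ⟨by linarith [hu.1], by linarith [hu.2, ht.2]⟩, hu0,
        abs_le.2 ⟨by linarith [hu.2], by linarith [hu.1]⟩⟩
  have h1 := lip h hB hu ht
  rw [hu0, sub_zero] at h1
  exact h1.trans (mul_le_mul_of_nonneg_left hd hK.le)

/-- The averaged second bracket is small. -/
theorem mean (hK : 0 < K)
    (hh : ∀ w : List Bool, w.length ≤ 2 → ∀ t ∈ Icc 0 e.δ, |e.h w t| ≤ K) {B : ℝ}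
    (hW : ∀ t ∈ Icc 0 e.δ, |e.W t| ≤ B) (hx : |e.x e.δ - e.x 0 - m₀ * (e.δ - 0)| ≤ ε) {t : ℝ}
    (ht : t ∈ Icc 0 e.δ) :
    |m₀ * e.a t + (1 - m₀) * e.b t| * e.δ ≤ K * e.δ * e.δ + 2 * B + 2 * K * ε := by
  have hp := e.δpos
  have h0 : (0 : ℝ) ∈ Icc 0 e.δ := ⟨le_rfl, hp.le⟩
  have h1 : e.δ ∈ Icc 0 e.δ := ⟨hp.le, le_rfl⟩
  have key : ∀ c : Bool, ∀ τ ∈ Icc 0 e.δ, |e.h [c] τ - e.h [c] t| ≤ K * e.δ := fun c τ hτ =>
    (lip (e.dh [c]) (fun σ hσ => ⟨hh _ (by simp) σ hσ, hh _ (by simp) σ hσ⟩) ht hτ).trans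
      (mul_le_mul_of_nonneg_left
        (abs_le.2 ⟨by linarith [hτ.1, ht.2], by linarith [hτ.2, ht.1]⟩) hK.le)
  have h2 := lip (((e.dh []).sub (e.dx.cmul (e.a t))).sub (e.dz.cmul (e.b t))) (B := K * e.δ)
    (fun τ hτ => ⟨by simpa using key true τ hτ, by simpa using key false τ hτ⟩) h0 h1
  rw [e.x0] at hx
  simp only [Ext.z, e.x0, sub_zero, mul_zero, abs_of_pos hp] at h2 hx
  have h3 := abs_le.1 (hW 0 h0)
  have h4 := abs_le.1 (hW _ h1)
  have h5 : |(e.a t - e.b t) * (e.x e.δ - m₀ * e.δ)| ≤ 2 * K * ε := by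
    rw [abs_mul]
    refine mul_le_mul ?_ hx (abs_nonneg _) (by positivity)
    have h6 := abs_le.1 (hh [true] (by simp) t ht)
    have h7 := abs_le.1 (hh [false] (by simp) t ht)
    exact abs_le.2 ⟨by linarith [h6.1, h7.2], by linarith [h6.2, h7.1]⟩
  rw [← abs_of_pos hp, ← abs_mul, abs_of_pos hp]
  rw [abs_le] at h2 h5 ⊢
  constructor <;> nlinarith [h2.1, h2.2, h5.1, h5.2, h3.1, h3.2, h4.1, h4.2]

/-- The conclusion when the two brackets have opposite signs. -/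
theorem final (hK : 0 < K) (hη : 0 < η) (hL : 0 < L) (hδ : 10 * L ≤ e.δ) (hs : Short e L)
    (h3 : K * e.δ < η) (ha : ∀ t ∈ Icc 0 e.δ, |e.a t| ≤ K)
    (hab : ∀ t ∈ Icc 0 e.δ, e.a t * e.b t ≤ -η) (hF : e.Flat ∨ e.SI2 1) : e.δ / 2 ∉ e.Br := by
  intro hB
  have hp := e.δpos
  have hb0 : ∀ t ∈ Icc 0 e.δ, e.b t ≠ 0 := fun t ht h0 => by
    have := hab t ht
    rw [h0, mul_zero] at this
    linarith
  rcases hF with hF | hF
  · exact (hB.2 0 e.δ (by linarith) (by linarith)).2.2 fun τ hτ =>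
      ⟨hF τ (Ioo_subset_Icc_self hτ), Or.inr (hb0 τ (Ioo_subset_Icc_self hτ))⟩
  by_cases hpos : ∀ t ∈ Icc 0 e.δ, 0 < e.b t
  · refine hF.1.sa zero_le_one (v := fun i => i * (e.δ / 9)) (c := η / K) (by simp)
      (by push_cast; linarith) (fun i hi => ?_) (fun τ hτ => ?_) ?_
    · have hi0 : (0 : ℝ) ≤ i := Nat.cast_nonneg i
      have hi1 : (i : ℝ) + 1 ≤ 9 := by exact_mod_cast hi
      have h4 : ¬(e.IsX (i * (e.δ / 9)) ((i + 1 : ℕ) * (e.δ / 9)) ∨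
          e.IsY (i * (e.δ / 9)) ((i + 1 : ℕ) * (e.δ / 9))) := fun h => by
        have := hs _ _ (by positivity) (by push_cast; nlinarith) (by push_cast; nlinarith) h
        push_cast at this
        nlinarith
      exact ⟨by push_cast; nlinarith, fun h => h4 (Or.inl h), fun h => h4 (Or.inr h)⟩
    · have hτ' : τ ∈ Icc 0 e.δ := ⟨by simpa using hτ.1, hτ.2.trans (by push_cast; linarith)⟩
      rw [div_le_iff₀ hK]
      nlinarith [hab τ hτ', hpos τ hτ', (abs_le.1 (ha τ hτ')).1]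
    · rw [lt_div_iff₀ hK]
      push_cast
      linarith
  · have hneg : ∀ t ∈ Icc 0 e.δ, e.b t < 0 := by
      intro t ht
      by_contra hc
      push Not at hpos hc
      obtain ⟨s, hs, hs0⟩ := hpos
      obtain ⟨τ, hτ, h0⟩ := isPreconnected_Icc.intermediate_value hs ht (e.conth [false]) ⟨hs0, hc⟩
      exact hb0 τ hτ h0
    obtain ⟨u, hu, hu0⟩ := zeroφ hs hL (t := e.δ / 2) le_rfl (by linarith) (by linarith)
    obtain ⟨v, hv, hv0⟩ := zeroφ hs hL (s := e.δ / 2) (by linarith) le_rfl (by linarith)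
    have hsub : ∀ τ ∈ Ioo u v, τ ∈ Icc 0 e.δ := fun τ hτ =>
      ⟨by linarith [hu.1, hτ.1], by linarith [hv.2, hτ.2]⟩
    have h4 := Ext.cvx hu.1 hv.2 hu0 hv0 fun τ hτ => hneg τ (hsub τ hτ)
    have h5 := Ext.cvx (e := e.swap) hu.1 hv.2 (by simp [hu0]) (by simp [hv0]) fun τ hτ => by
      have h6 := hab τ (hsub τ hτ)
      have h7 := hneg τ (hsub τ hτ)
      rw [Ext.swap_b]
      by_contra hc
      nlinarith
    refine (hB.2 u v hu.2 hv.1).2.2 fun τ hτ => ⟨?_, Or.inr (hb0 τ (hsub τ hτ))⟩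
    have h6 := h4 τ (Ioo_subset_Icc_self hτ)
    have h7 := h5 τ (Ioo_subset_Icc_self hτ)
    rw [Ext.swap_φ] at h7
    linarith

theorem core (hK : 0 < K) (hη : 0 < η) (hm : m₀ ∈ Ioo (0 : ℝ) 1) (hL : 0 < L)
    (hδ : 10 * L ≤ e.δ) (h2 : 16 * K * L ≤ η * e.δ) (h3 : 4 * K * e.δ ≤ η) (h4 : e.δ ≤ 1)
    (h0 : ε ≤ m₀ * L) (h1 : ε ≤ (1 - m₀) * L)
    (hh : ∀ w : List Bool, w.length ≤ 2 → ∀ t ∈ Icc 0 e.δ, |e.h w t| ≤ K)
    (hx : ∀ s t, 0 ≤ s → s ≤ t → t ≤ e.δ → |e.x t - e.x s - m₀ * (t - s)| ≤ ε)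
    (hg : ∀ t ∈ Icc 0 e.δ, |e.φ t| ≤ η → |e.W t| ≤ η →
      η ≤ |m₀ * e.a t + (1 - m₀) * e.b t| ∨ e.a t * e.b t ≤ -η)
    (hF : e.Flat ∨ e.SI2 1) : e.δ / 2 ∉ e.Br := by
  have hp := e.δpos
  have hs : Short e L := fun s t hs hst ht h => bang_short hm h0 h1 hx hs hst ht h
  have hKL : 0 < K * L := mul_pos hK hL
  have hKδ : 0 < K * e.δ := mul_pos hK hp
  have hηδ : η * e.δ ≤ η := by nlinarith
  have hφ : ∀ t ∈ Icc 0 e.δ, |e.φ t| ≤ K * (3 * L) := fun t ht =>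
    small hK hL hδ e.dφ (fun τ hτ => ⟨hh _ (by simp) τ hτ, hh _ (by simp) τ hτ⟩)
      (fun s t hs' ht' hst => zeroφ hs hL hs' ht' (by linarith)) ht
  have hW : ∀ t ∈ Icc 0 e.δ, |e.W t| ≤ K * (3 * L) := fun t ht =>
    small hK hL hδ (e.dh []) (fun τ hτ => ⟨hh _ (by simp) τ hτ, hh _ (by simp) τ hτ⟩)
      (fun s t hs' ht' hst => zeroW hs hL hs' ht' hst) ht
  refine final hK hη hL hδ hs (by linarith) (hh [true] (by simp)) (fun t ht => ?_) hF
  refine (hg t ht ((hφ t ht).trans (by linarith)) ((hW t ht).trans (by linarith))).resolve_left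
    fun hc => ?_
  have h5 := mean hK hh hW (hx 0 e.δ le_rfl hp.le le_rfl) ht
  have h6 : η * e.δ ≤ |m₀ * e.a t + (1 - m₀) * e.b t| * e.δ := mul_le_mul_of_nonneg_right hc hp.le
  have h7 : K * ε ≤ K * L := mul_le_mul_of_nonneg_left (by nlinarith [hm.1, hm.2]) hK.le
  have h8 : 4 * K * e.δ * e.δ ≤ η * e.δ := mul_le_mul_of_nonneg_right h3 hp.le
  have h9 : 0 < η * e.δ := mul_pos hη hp
  linarith

end ULong1

theorem long1 {K η m₀ : ℝ} (hη : 0 < η) (hm : m₀ ∈ Ioo (0 : ℝ) 1) :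
    ∃ δ₀ > 0, ∀ δ₁ ∈ Ioc 0 δ₀, ∃ ε > 0, ∀ e : Ext, e.δ = δ₁ →
      (∀ w : List Bool, w.length ≤ 2 → ∀ t ∈ Icc 0 e.δ, |e.h w t| ≤ K) →
      (∀ s t, 0 ≤ s → s ≤ t → t ≤ e.δ → |e.x t - e.x s - m₀ * (t - s)| ≤ ε) →
      (∀ t ∈ Icc 0 e.δ, |e.φ t| ≤ η → |e.W t| ≤ η →
        η ≤ |m₀ * e.a t + (1 - m₀) * e.b t| ∨ e.a t * e.b t ≤ -η) →
      (e.Flat ∨ e.SI2 1) → e.δ / 2 ∉ e.Br := by
  have hK : 0 < max K 1 := lt_max_of_lt_right one_pos
  set K' := max K 1 with hK'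
  refine ⟨min 1 (η / (4 * K')), by positivity, fun δ₁ hδ => ?_⟩
  have hp := hδ.1
  have hm0 := hm.1
  have hm1 : 0 < 1 - m₀ := by linarith [hm.2]
  have hL : 0 < min (δ₁ / 10) (η * δ₁ / (16 * K')) := by positivity
  set L := min (δ₁ / 10) (η * δ₁ / (16 * K')) with hL'
  refine ⟨min (m₀ * L) ((1 - m₀) * L), by positivity, fun e he hh hx hg hF => ?_⟩
  subst he
  refine ULong1.core hK hη hm hL ?_ ?_ ?_ (hδ.2.trans (min_le_left _ _)) (min_le_left _ _)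
    (min_le_right _ _) (fun w hw t ht => (hh w hw t ht).trans (le_max_left _ _)) hx hg hF
  · have : L ≤ e.δ / 10 := min_le_left _ _
    linarith
  · have : L ≤ η * e.δ / (16 * K') := min_le_right _ _
    rw [le_div_iff₀ (by positivity)] at this
    linarith
  · have := hδ.2.trans (min_le_right _ _)
    rw [le_div_iff₀ (by positivity)] at this
    linarith

end Pool.Agent.Lib.MP_f4f7c0_an
end
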