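import Pool.Agent.Lib.MP_f4f7c0_an.UShort
import Pool.Agent.Lib.MP_f4f7c0_an.ULong1
import Pool.Agent.Lib.MP_f4f7c0_an.UGen
import Pool.Agent.Lib.MP_f4f7c0_an.UGlue

-- part Pool.Agent.Lib.MP_f4f7c0_an.ULoc1
section

/-! The bound near points that are not zeros of one of the fields. -/

namespace Pool.Agent.Lib.MP_f4f7c0_an

open Set Filter Topology MeasureTheory Metric
open scoped ContDiff

variable {X Y : E3 → E3} {q₀ : E3} {U : Set E3}

namespace ULoc1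

theorem dd {m : ℝ → ℝ} {q : ℝ → E3} {T : ℝ} (h : Traj X Y m q T) (l : E3 →L[ℝ] ℝ) :
    DD m (fun t => l (q t)) (fun t => l (X (q t))) (fun t => l (Y (q t))) 0 T := by
  obtain ⟨C, hC⟩ := h.lip
  refine ⟨LipschitzOnWith.absolutelyContinuousOnInterval (K := ‖l‖₊ * C) ?_, ?_⟩
  · rw [uIcc_of_le h.nonneg]
    exact l.lipschitz.comp_lipschitzOnWith hC
  · filter_upwards [h.ode] with τ h1 hτ
    exact (l.hasFDerivAt.comp_hasDerivAt τ (h1 hτ)).congr_deriv (by simp)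

theorem sub_le (l : E3 →L[ℝ] ℝ) {x y : E3} {r : ℝ} (hx : x ∈ ball q₀ r) (hy : y ∈ ball q₀ r) :
    |l x - l y| ≤ ‖l‖ * (2 * r) := by
  rw [← map_sub]
  refine (l.le_opNorm _).trans (mul_le_mul_of_nonneg_left ?_ (norm_nonneg _))
  rw [← dist_eq_norm]
  linarith [dist_triangle_right x y q₀, mem_ball.1 hx, mem_ball.1 hy]

theorem ev_small (a : ℝ) {b : ℝ} (hb : 0 < b) : ∀ᶠ r in 𝓝[>] (0 : ℝ), a * (2 * r) ≤ b :=
  nhdsWithin_le_nhds ((show Continuous fun r : ℝ => a * (2 * r) by fun_prop).continuousAt.eventually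
    (ge_mem_nhds (by simpa using hb)))

theorem ev_ball {P : E3 → Prop} (h : ∀ᶠ y in 𝓝 q₀, P y) :
    ∀ᶠ r in 𝓝[>] (0 : ℝ), ∀ y ∈ ball q₀ r, P y := by
  obtain ⟨r, hr, H⟩ := Metric.mem_nhds_iff.1 h
  filter_upwards [Ioo_mem_nhdsGT hr] with s hs y hy using H (ball_subset_ball hs.2.le hy)

theorem bound (hX : SC X) (hY : SC Y) (q₀ : E3) : ∃ K : ℝ, ∀ᶠ y in 𝓝 q₀, ∀ w : List Bool,
    w.length ≤ 2 → ‖br X Y w y‖ ≤ K := by
  obtain ⟨K, hK⟩ := ((List.finite_length_le Bool 2).image fun w => ‖br X Y w q₀‖).bddAbove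
  exact ⟨K + 1, (eventually_all_finite (List.finite_length_le Bool 2)).2 fun w hw =>
    (contDiff_br hX.sm hY.sm w).continuous.norm.continuousAt.eventually
      (ge_mem_nhds ((hK (mem_image_of_mem _ hw)).trans_lt (lt_add_one K)))⟩

theorem dicho (hX : SC X) (hY : SC Y) (hg : Good3 X Y q₀) {c : ℝ} (hc : c ∈ Ioo (0 : ℝ) 1)
    (h : c • X q₀ + (1 - c) • Y q₀ = 0) : ∃ η > 0, ∀ᶠ y in 𝓝 q₀, ∀ p : E3 →L[ℝ] ℝ,
      1 / 2 ≤ ‖p‖ → ‖p‖ ≤ 2 → |p (X y - Y y)| ≤ η → |p (br X Y [] y)| ≤ η →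
      η ≤ |c * p (br X Y [true] y) + (1 - c) * p (br X Y [false] y)| ∨
        p (br X Y [true] y) * p (br X Y [false] y) ≤ -η := by
  have c1 := hX.sm.continuous
  have c2 := hY.sm.continuous
  have c3 := fun w => (contDiff_br hX.sm hY.sm w).continuous
  have key : ∀ {F : (E3 × ℝ) × (E3 →L[ℝ] ℝ) → ℝ} {p}, Continuous F → 0 < F ((q₀, 0), p) →
      ∀ᶠ z in 𝓝 ((q₀, (0 : ℝ)), p), z.1.2 < F z := fun hF h =>
    (continuous_fst.snd.tendsto _).eventually_lt (hF.tendsto _) h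
  have H := ((isCompact_closedBall (0 : E3 →L[ℝ] ℝ) 2).diff
    (isOpen_ball (x := 0) (ε := 1 / 2))).eventually_forall_of_forall_eventually
    (x₀ := (q₀, (0 : ℝ))) (P := fun z p => |p (X z.1 - Y z.1)| ≤ z.2 →
      |p (br X Y [] z.1)| ≤ z.2 →
      z.2 ≤ |c * p (br X Y [true] z.1) + (1 - c) * p (br X Y [false] z.1)| ∨
        p (br X Y [true] z.1) * p (br X Y [false] z.1) ≤ -z.2) fun p hp => by
      by_cases h1 : p (X q₀ - Y q₀) = 0
      · by_cases h2 : p (br X Y [] q₀) = 0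
        · have h3 := hg.d2 c (Ioo_subset_Icc_self hc) h p (by
            rintro rfl
            exact hp.2 (mem_ball_self (by norm_num))) h1 h2
          by_cases h4 : c * p (br X Y [true] q₀) + (1 - c) * p (br X Y [false] q₀) = 0
          · refine (key (F := fun z => -(z.2 (br X Y [true] z.1.1) * z.2 (br X Y [false] z.1.1)))
              (by have := c3 [true]; have := c3 [false]; fun_prop) ?_).mono
              fun z hz _ _ => Or.inr (by linarith)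
            have h5 := hc.1
            have h6 := sub_pos.2 hc.2
            rcases h3 with h3 | h3
            · have := mul_pos h5 (mul_self_pos.2 h3)
              refine pos_of_mul_pos_left (b := 1 - c) ?_ h6.le
              linarith [congrArg (p (br X Y [true] q₀) * ·) h4]
            · have := mul_pos h6 (mul_self_pos.2 h3)
              refine pos_of_mul_pos_left (b := c) ?_ h5.le
              linarith [congrArg (p (br X Y [false] q₀) * ·) h4]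
          · exact (key (F := fun z => |c * z.2 (br X Y [true] z.1.1) +
              (1 - c) * z.2 (br X Y [false] z.1.1)|)
              (by have := c3 [true]; have := c3 [false]; fun_prop) (abs_pos.2 h4)).mono
              fun z hz _ _ => Or.inl hz.le
        · exact (key (F := fun z => |z.2 (br X Y [] z.1.1)|) (by have := c3 []; fun_prop)
            (abs_pos.2 h2)).mono fun z hz _ h => absurd h hz.not_ge
      · exact (key (F := fun z => |z.2 (X z.1.1 - Y z.1.1)|) (by fun_prop)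
          (abs_pos.2 h1)).mono fun z hz h => absurd h hz.not_ge
  obtain ⟨ρ, hρ, H⟩ := Metric.eventually_nhds_iff.1 H
  refine ⟨ρ / 2, half_pos hρ, ?_⟩
  filter_upwards [ball_mem_nhds q₀ hρ] with y hy p h1 h2
  refine H (y := (y, ρ / 2)) ?_ p ⟨by simpa using h2, by simpa using h1⟩
  rw [Prod.dist_eq, Real.dist_eq, sub_zero, abs_of_pos (half_pos hρ)]
  exact max_lt hy (half_lt_self hρ)

end ULoc1

open ULoc1

theorem local0 (hX : SC X) (hY : SC Y) (hg : Good3 X Y q₀) (hU : IsOpen U) (h₀ : q₀ ∈ U)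
    (h : ∀ c ∈ Icc (0 : ℝ) 1, c • X q₀ + (1 - c) • Y q₀ ≠ 0) : BoundAt X Y U q₀ := by
  obtain ⟨r, hr, δ, hδ, N, -, H⟩ := short hX hY hg hU h₀
  obtain ⟨l, u, h1, h2⟩ := geometric_hahn_banach_point_closed (x := (0 : E3))
    (convex_segment (X q₀) (Y q₀)) (by
      rw [segment_eq_image]
      exact (isCompact_Icc.image (by fun_prop)).isClosed) (by
      rintro ⟨a, b, ha, hb, hab, h1⟩
      exact h a ⟨ha, by linarith⟩ (by rwa [show 1 - a = b by linarith]))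
  rw [map_zero] at h1
  obtain ⟨ρ, hρ, a1, a2, a3⟩ := (Eventually.and (Ioo_mem_nhdsGT hr) ((ev_small ‖l‖ (mul_pos h1 hδ)).and
    ((ev_ball ((l.continuous.comp hX.sm.continuous).continuousAt.eventually
      (lt_mem_nhds (h2 _ (left_mem_segment ℝ _ _))))).and
    (ev_ball ((l.continuous.comp hY.sm.continuous).continuousAt.eventually
      (lt_mem_nhds (h2 _ (right_mem_segment ℝ _ _)))))))).exists
  refine ⟨ball q₀ ρ, ball_mem_nhds _ hρ.1, N, fun m q T ht hq opt => ?_⟩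
  have h3 := ((DD.id.cmul u).sub (dd ht l)).le_of_ae ht.nonneg (.of_forall fun τ hτ => by
    have b1 := a2 _ (hq (Ioo_subset_Icc_self hτ))
    have b2 := a3 _ (hq (Ioo_subset_Icc_self hτ))
    simp only [Function.comp] at b1 b2
    nlinarith [ht.m0 τ, ht.m1 τ])
  have h4 := (le_abs_self _).trans (sub_le l (hq (right_mem_Icc.2 ht.nonneg))
    (hq (left_mem_Icc.2 ht.nonneg)))
  have h5 := H m q T ht (hq.mono_right (ball_subset_ball hρ.2.le)) opt 0 T (by nlinarith)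
  rwa [inter_eq_left.2 fun t ht => ht.1] at h5

theorem local1 (hX : SC X) (hY : SC Y) (hg : Good3 X Y q₀) (hU : IsOpen U) (h₀ : q₀ ∈ U) {c : ℝ}
    (hc : c ∈ Ioo (0 : ℝ) 1) (h : c • X q₀ + (1 - c) • Y q₀ = 0) : BoundAt X Y U q₀ := by
  obtain ⟨r, hr, δ₀, hδ₀, N, hrU, H⟩ := short hX hY hg hU h₀
  obtain ⟨C, T₀, hC, hT₀, hCT, Hw⟩ := window hX hY
  obtain ⟨K, hK⟩ := bound hX hY q₀
  obtain ⟨η, hη, hd⟩ := dicho hX hY hg hc h
  obtain ⟨δ₁, hδ₁, HL⟩ := long1 (K := 2 * K) hη hc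
  obtain ⟨δ, hδ, d0, d1, d2⟩ : ∃ δ > 0, δ ≤ δ₀ ∧ δ ≤ δ₁ ∧ δ ≤ T₀ :=
    ⟨min δ₀ (min δ₁ T₀), by positivity, min_le_left _ _,
      (min_le_right _ _).trans (min_le_left _ _), (min_le_right _ _).trans (min_le_right _ _)⟩
  obtain ⟨ε, hε, HL⟩ := HL δ ⟨hδ, d1⟩
  have hG : X q₀ ≠ Y q₀ := fun h1 => by
    have h2 : Y q₀ = 0 := by rwa [h1, ← add_smul, add_sub_cancel, one_smul] at h
    exact hg.d1 h1 (by simp [br, VectorField.lieBracket, h1, h2])
  obtain ⟨l, -, hl⟩ := GenB.exists_cov (v := 0) (w := X q₀ - Y q₀) (by simpa using sub_ne_zero.2 hG)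
  have hl' := congrArg l h
  simp only [map_add, map_sub, map_smul, smul_eq_mul, map_zero] at hl hl'
  have hε' : 0 < ε / 2 / δ := by positivity
  have e1 : ∀ᶠ y in 𝓝 q₀, |l (X y) - 1 + c| ≤ ε / 2 / δ :=
    (show Continuous fun y => |l (X y) - 1 + c| by have := hX.sm.continuous; fun_prop
      ).continuousAt.eventually (ge_mem_nhds (by
        beta_reduce
        rwa [show l (X q₀) - 1 + c = 0 by linear_combination hl' + (1 - c) * hl, abs_zero]))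
  have e2 : ∀ᶠ y in 𝓝 q₀, |l (Y y) - 0 + c| ≤ ε / 2 / δ :=
    (show Continuous fun y => |l (Y y) - 0 + c| by have := hY.sm.continuous; fun_prop
      ).continuousAt.eventually (ge_mem_nhds (by
        beta_reduce
        rwa [show l (Y q₀) - 0 + c = 0 by linear_combination hl' - c * hl, abs_zero]))
  have e3 : ∀ᶠ y in 𝓝 q₀, X y ≠ Y y :=
    (isOpen_ne_fun hX.sm.continuous hY.sm.continuous).mem_nhds hG
  obtain ⟨ρ, hρ, a1, a2⟩ := (Eventually.and (Ioo_mem_nhdsGT hr) ((ev_small ‖l‖ (half_pos hε)).and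
    (ev_ball (hK.and (hd.and (e1.and (e2.and e3))))))).exists
  refine ⟨ball q₀ ρ, ball_mem_nhds _ hρ.1, N + N, fun m q T ht hq opt => ?_⟩
  have hq' := hq.mono_right (ball_subset_ball hρ.2.le)
  have key : sw q T ⊆ sw q T ∩ Icc 0 (δ / 2) ∪ sw q T ∩ Icc (T - δ / 2) T := by
    intro t h1
    by_contra h2
    have h3 : δ / 2 < t := not_le.1 fun h => h2 (Or.inl ⟨h1, h1.1.1, h⟩)
    have h4 : t < T - δ / 2 := not_le.1 fun h => h2 (Or.inr ⟨h1, h, h1.1.2⟩)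
    have s0 : 0 ≤ t - δ / 2 := by linarith
    have s1 : t - δ / 2 ≤ t + δ / 2 := by linarith
    have s2 : t + δ / 2 ≤ T := by linarith
    have h5 := sw_shift h1 s0 (by linarith) (by linarith) s2
    have h6 := ht.shift s0 s1 s2
    have h7 := opt _ _ s0 s1 s2
    rw [show t + δ / 2 - (t - δ / 2) = δ by ring] at h5 h6 h7
    rw [sub_sub_cancel] at h5
    have hm : δ / 2 ∈ Ioo 0 δ := ⟨half_pos hδ, half_lt_self hδ⟩
    have hb : ∀ τ ∈ Icc 0 δ, q (t - δ / 2 + τ) ∈ ball q₀ ρ := fun τ hτ =>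
      hq ⟨by linarith [hτ.1], by linarith [hτ.2]⟩
    obtain ⟨p, hp, p0, p1, p2⟩ := Hw _ _ δ U h6 ⟨hδ, le_rfl⟩ d2 hU
      (fun τ hτ => hrU (ball_subset_ball hρ.2.le (hb τ hτ))) h7 _ hm
      (not_bang_of_sw hX.sm hY.sm h6 h5 hm) (a2 _ (hb _ (Ioo_subset_Icc_self hm))).2.2.2.2
    have hCδ : C * δ ≤ 1 / 2 := (mul_le_mul_of_nonneg_left d2 hC.le).trans hCT
    have p3 : ∀ τ ∈ Icc 0 δ, 1 / 2 ≤ ‖p τ‖ ∧ ‖p τ‖ ≤ 2 := fun τ hτ => by
      have := abs_le.1 ((abs_norm_sub_norm_le _ _).trans (p1 τ hτ))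
      constructor <;> linarith [this.1, this.2]
    refine HL _ rfl (fun w hw τ hτ => (p τ).le_of_opNorm_le_of_le (p3 τ hτ).2
      ((a2 _ (hb τ hτ)).1 w hw)) (fun s s' b0 b1 b2 => ?_)
      (fun τ hτ => (a2 _ (hb τ hτ)).2.1 _ (p3 τ hτ).1 (p3 τ hτ).2)
      (p2.imp id fun h => h.mono (by linarith))
      (mem_Br_of_sw hX.sm hY.sm h6 ⟨hδ, le_rfl⟩ hp h5 hm)
    set e := Smooth.ext hX.sm hY.sm h6 ⟨hδ, le_rfl⟩ hp
    have hs : s ∈ Icc 0 δ := ⟨b0, b1.trans b2⟩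
    have hs' : s' ∈ Icc 0 δ := ⟨b0.trans b1, b2⟩
    have b3 := (((dd h6 l).sub e.dx).add (DD.id.cmul c)).abs_le (B := ε / 2 / δ)
      (.of_forall fun τ hτ => by
        have b4 := (a2 _ (hb τ (Ioo_subset_Icc_self hτ))).2.2
        simpa only [mul_one, smul_eq_mul, Real.norm_eq_abs] using
          Pmp.norm_mix (V := ℝ) (h6.m0 τ) (h6.m1 τ) b4.1 b4.2.1) hs hs'
    have b5 : ε / 2 / δ * |s' - s| ≤ ε / 2 := by
      rw [← le_div_iff₀' hε', div_div_cancel₀ (half_pos hε).ne']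
      exact Pmp.abs_sub_le_of_mem hs hs'
    have b6 := abs_le.1 ((sub_le l (hb s' hs') (hb s hs)).trans a1)
    have b7 := abs_le.1 (b3.trans b5)
    exact abs_le.2 ⟨by linarith [b6.1, b7.2], by linarith [b6.2, b7.1]⟩
  refine (encard_le_encard key).trans ((encard_union_le _ _).trans ?_)
  rw [Nat.cast_add]
  exact add_le_add (H m q T ht hq' opt _ _ (by linarith)) (H m q T ht hq' opt _ _ (by linarith))

end Pool.Agent.Lib.MP_f4f7c0_an
end

-- part Pool.Agent.Lib.MP_f4f7c0_an.ULoc2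
section

/-! The bound near a zero of the first field. -/

namespace Pool.Agent.Lib.MP_f4f7c0_an

open Set Filter Topology MeasureTheory Metric
open scoped ContDiff

namespace ULoc2

theorem tr3_eq (L : E3 →L[ℝ] E3) : tr3 L = LinearMap.trace ℝ E3 (L : E3 →ₗ[ℝ] E3) := by
  rw [LinearMap.trace_eq_matrix_trace ℝ (EuclideanSpace.basisFun (Fin 3) ℝ).toBasis]
  simp [tr3, Matrix.trace, LinearMap.toMatrix_apply]

/-- The coefficients of the characteristic relation of a cyclic vector. -/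
theorem coef {L : E3 →L[ℝ] E3} {G V A B : E3} (hV : V = -L G) (hA : A = -L V) (hB : B = -L A)
    (kal : ∀ p : E3 →L[ℝ] ℝ, p ≠ 0 → p G = 0 → p V = 0 → p A ≠ 0)
    (eig : ∀ p : E3 →L[ℝ] ℝ, p ≠ 0 → p.comp L ≠ (tr3 L / 3) • p) :
    G ≠ 0 ∧ ∃ c₀ c₁ c₂ : ℝ, B = c₂ • A + c₁ • V + c₀ • G ∧
      (c₂ / 3) ^ 3 - c₂ * (c₂ / 3) ^ 2 - c₁ * (c₂ / 3) - c₀ ≠ 0 := by
  have hs : ⊤ ≤ Submodule.span ℝ (range ![G, V, A]) := by
    by_contra hne
    obtain ⟨f, hf, hk⟩ := Submodule.exists_le_ker_of_lt_top _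
      (lt_top_iff_ne_top.2 fun h => hne h.ge)
    have h0 : ∀ i, f (![G, V, A] i) = 0 := fun i => hk (Submodule.subset_span ⟨i, rfl⟩)
    refine kal (LinearMap.toContinuousLinearMap f) (fun h => hf ?_) (h0 0) (h0 1) (h0 2)
    exact LinearMap.toContinuousLinearMap.map_eq_zero_iff.1 h
  let b := basisOfTopLeSpanOfCardEqFinrank ![G, V, A] hs (by simp)
  have b0 : b 0 = G := by simp [b]
  have b1 : b 1 = V := by simp [b]
  have b2 : b 2 = A := by simp [b]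
  have hG : L (b 0) = -b 1 := by rw [b0, b1, hV, neg_neg]
  have hV' : L (b 1) = -b 2 := by rw [b1, b2, hA, neg_neg]
  have hA' : L (b 2) = -B := by rw [b2, hB, neg_neg]
  have hr : B = b.repr B 2 • b 2 + b.repr B 1 • b 1 + b.repr B 0 • b 0 := by
    conv_lhs => rw [← b.sum_repr B]
    rw [Fin.sum_univ_three]
    abel
  have ht : tr3 L = -b.repr B 2 := by
    rw [tr3_eq, LinearMap.trace_eq_matrix_trace ℝ b]
    simp [Matrix.trace, LinearMap.toMatrix_apply, Fin.sum_univ_three, hG, hV', hA']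
  refine ⟨b0 ▸ b.ne_zero 0, b.repr B 0, b.repr B 1, b.repr B 2, by rwa [← b0, ← b1, ← b2], ?_⟩
  generalize b.repr B 0 = c₀, b.repr B 1 = c₁, b.repr B 2 = c₂ at hr ht
  intro hf
  let p := LinearMap.toContinuousLinearMap (b.constr ℝ ![1, c₂ / 3, (c₂ / 3) ^ 2])
  have p0 : p (b 0) = 1 := by simp [p]
  have p1 : p (b 1) = c₂ / 3 := by simp [p]
  have p2 : p (b 2) = (c₂ / 3) ^ 2 := by simp [p]
  refine eig p (fun h => by simp [h] at p0) ?_
  refine ContinuousLinearMap.coe_injective (b.ext fun i => ?_)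
  change p (L (b i)) = (tr3 L / 3) * p (b i)
  rw [ht]
  fin_cases i
  · change p (L (b 0)) = _ * p (b 0)
    rw [hG, map_neg, p0, p1]
    ring
  · change p (L (b 1)) = _ * p (b 1)
    rw [hV', map_neg, p1, p2]
    ring
  · change p (L (b 2)) = _ * p (b 2)
    rw [hA', map_neg, hr, map_add, map_add, map_smul, map_smul, map_smul, p0, p1, p2]
    simp only [smul_eq_mul]
    linear_combination hf

theorem cov_bound {G V A : E3} (kal : ∀ p : E3 →L[ℝ] ℝ, p ≠ 0 → p G = 0 → p V = 0 → p A ≠ 0) :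
    ∃ C : ℝ, 0 < C ∧ ∀ p : E3 →L[ℝ] ℝ, ‖p‖ ≤ C * (|p G| + |p V| + |p A|) := by
  let Φ : (E3 →L[ℝ] ℝ) →ₗ[ℝ] ℝ × ℝ × ℝ :=
    { toFun := fun p => (p G, p V, p A)
      map_add' := fun p q => by simp
      map_smul' := fun c p => by simp }
  obtain ⟨K, hK, h⟩ := Φ.exists_antilipschitzWith (LinearMap.ker_eq_bot'.2 fun p hp => by
    by_contra hne
    exact kal p hne (congrArg Prod.fst hp) (congrArg (fun z => z.2.1) hp)
      (congrArg (fun z => z.2.2) hp))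
  refine ⟨K, hK, fun p => (h.le_mul_norm (map_zero Φ) p).trans ?_⟩
  refine mul_le_mul_of_nonneg_left ?_ K.2
  change max ‖p G‖ (max ‖p V‖ ‖p A‖) ≤ _
  simp only [Real.norm_eq_abs]
  have := abs_nonneg (p G)
  have := abs_nonneg (p V)
  have := abs_nonneg (p A)
  exact max_le (by linarith) (max_le (by linarith) (by linarith))

/-- The three pairings control the norm of the covector near the base point. -/
theorem near_bound {G V A : E3 → E3} {q₀ : E3} (hG : Continuous G) (hV : Continuous V)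
    (hA : Continuous A)
    (kal : ∀ p : E3 →L[ℝ] ℝ, p ≠ 0 → p (G q₀) = 0 → p (V q₀) = 0 → p (A q₀) ≠ 0) :
    ∃ D : ℝ, 0 < D ∧ ∀ᶠ y in 𝓝 q₀, ∀ p : E3 →L[ℝ] ℝ,
      ‖p‖ ^ 2 ≤ D * (p (G y) ^ 2 + p (V y) ^ 2 + p (A y) ^ 2) := by
  obtain ⟨C, hC, h⟩ := cov_bound kal
  have hη : 0 < 1 / (6 * C) := by positivity
  have key : ∀ {F : E3 → E3}, Continuous F → ∀ᶠ y in 𝓝 q₀, ∀ p : E3 →L[ℝ] ℝ,
      |p (F q₀)| ≤ |p (F y)| + ‖p‖ * (1 / (6 * C)) := fun {F} hF => by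
    filter_upwards [(hF.tendsto q₀).eventually (ball_mem_nhds _ hη)] with y hy p
    have h1 : |p (F q₀ - F y)| ≤ ‖p‖ * ‖F q₀ - F y‖ := p.le_opNorm _
    have h2 : ‖F q₀ - F y‖ ≤ 1 / (6 * C) := by
      rw [norm_sub_rev, ← dist_eq_norm]
      exact (mem_ball.1 hy).le
    rw [map_sub] at h1
    have h3 := abs_sub_abs_le_abs_sub (p (F q₀)) (p (F y))
    have h4 := mul_le_mul_of_nonneg_left h2 (norm_nonneg p)
    linarith
  refine ⟨12 * C ^ 2, by positivity, ?_⟩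
  filter_upwards [key hG, key hV, key hA] with y h1 h2 h3 p
  have h4 : ‖p‖ ≤ C * (|p (G y)| + |p (V y)| + |p (A y)| + 3 * (‖p‖ * (1 / (6 * C)))) :=
    (h p).trans (mul_le_mul_of_nonneg_left (by linarith [h1 p, h2 p, h3 p]) hC.le)
  have h5 : C * (3 * (‖p‖ * (1 / (6 * C)))) = ‖p‖ / 2 := by
    field_simp
    ring
  rw [mul_add, h5] at h4
  rw [← sq_abs (p (G y)), ← sq_abs (p (V y)), ← sq_abs (p (A y))]
  generalize |p (G y)| = a, |p (V y)| = b, |p (A y)| = c at h4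
  have h6 : ‖p‖ ^ 2 ≤ (2 * (C * (a + b + c))) ^ 2 :=
    pow_le_pow_left₀ (norm_nonneg _) (by linarith) 2
  have h7 : (a + b + c) ^ 2 ≤ 3 * (a ^ 2 + b ^ 2 + c ^ 2) := by
    nlinarith [sq_nonneg (a - b), sq_nonneg (b - c), sq_nonneg (a - c)]
  nlinarith [mul_le_mul_of_nonneg_left h7 (sq_nonneg C)]

theorem sq_le {p : E3 →L[ℝ] ℝ} {v : E3} {D n R : ℝ} (hp : ‖p‖ ^ 2 ≤ D * n) (hn : 0 ≤ n)
    (hv : D * ‖v‖ ^ 2 ≤ R) : p v ^ 2 ≤ R * n := by
  have h1 : |p v| ≤ ‖p‖ * ‖v‖ := p.le_opNorm v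
  have h2 : |p v| ^ 2 ≤ (‖p‖ * ‖v‖) ^ 2 := pow_le_pow_left₀ (abs_nonneg _) h1 2
  rw [sq_abs, mul_pow] at h2
  nlinarith [mul_le_mul_of_nonneg_right hp (sq_nonneg ‖v‖), mul_le_mul_of_nonneg_right hv hn]

variable {X Y : E3 → E3} {m : ℝ → ℝ} {q : ℝ → E3} {T : ℝ}

theorem dd_cov (h : Traj X Y m q T) (l : E3 →L[ℝ] ℝ) :
    DD m (fun t => l (q t)) (fun t => l (X (q t))) (fun t => l (Y (q t))) 0 T := by
  obtain ⟨C, hC⟩ := h.lip
  refine ⟨LipschitzOnWith.absolutelyContinuousOnInterval (K := ‖l‖₊ * C) ?_, ?_⟩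
  · rw [uIcc_of_le h.nonneg]
    exact l.lipschitz.comp_lipschitzOnWith hC
  · filter_upwards [h.ode] with τ h1 hτ
    exact (l.hasFDerivAt.comp_hasDerivAt τ (h1 hτ)).congr_deriv (by simp)

/-- Little time is spent along the second field. -/
theorem z_bound {e : Ext} (h : Traj X Y e.m q e.δ) {l : E3 →L[ℝ] ℝ} {c ε : ℝ}
    (hb : ∀ t ∈ Icc 0 e.δ, |l (q t) - c| ≤ ε / 2 ∧ |l (X (q t))| ≤ ε ∧ |l (Y (q t)) - 1| ≤ ε) :
    ∀ s t, 0 ≤ s → s ≤ t → t ≤ e.δ → e.z t - e.z s ≤ ε * (1 + (t - s)) := by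
  intro s t hs hst ht
  have h1 := ((dd_cov h l).sub e.dz).abs_le (B := ε) (Eventually.of_forall fun τ hτ => by
    obtain ⟨-, h2, h3⟩ := hb τ (Ioo_subset_Icc_self hτ)
    have := Pmp.norm_mix (V := ℝ) (e.m0 τ) (e.m1 τ) h2 h3
    simpa using this) ⟨hs, hst.trans ht⟩ ⟨hs.trans hst, ht⟩
  rw [abs_of_nonneg (sub_nonneg.2 hst)] at h1
  have h2 := abs_le.1 (hb s ⟨hs, hst.trans ht⟩).1
  have h3 := abs_le.1 (hb t ⟨hs.trans hst, ht⟩).1
  have h4 := (abs_le.1 h1).1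
  linarith [h2.1, h3.2]

theorem cover {S : Set ℝ} {d s₀ : ℝ} {N : ℕ} (hd : 0 < d) (hS : S ⊆ Icc 0 T)
    (hN : ∀ s t, t - s ≤ 2 * d → (S ∩ Icc s t).encard ≤ N)
    (h : ∀ t ∈ S, d ≤ t → t + d ≤ T → t ∈ Icc (s₀ - d) (s₀ + d)) :
    S.encard ≤ (N + N + N : ℕ) := by
  have hsub : S ⊆ S ∩ Icc 0 d ∪ S ∩ Icc (T - d) T ∪ S ∩ Icc (s₀ - d) (s₀ + d) := fun t ht => by
    by_cases h1 : t ≤ d
    · exact Or.inl (Or.inl ⟨ht, (hS ht).1, h1⟩)
    · by_cases h2 : T - d ≤ t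
      · exact Or.inl (Or.inr ⟨ht, h2, (hS ht).2⟩)
      · exact Or.inr ⟨ht, h t ht (by linarith) (by linarith)⟩
  refine (encard_le_encard hsub).trans ((encard_union_le _ _).trans ?_)
  push_cast
  exact add_le_add ((encard_union_le _ _).trans (add_le_add (hN _ _ (by linarith))
    (hN _ _ (by linarith)))) (hN _ _ (by linarith))

end ULoc2

variable {X Y : E3 → E3} {q₀ : E3} {U : Set E3}

open ULoc2 in
theorem local2 (hX : SC X) (hY : SC Y) (hg : Good3 X Y q₀) (hU : IsOpen U) (h₀ : q₀ ∈ U)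
    (h : X q₀ = 0) : BoundAt X Y U q₀ := by
  obtain ⟨r, hr, δ₀, hδ₀, N, hrU, hN⟩ := short hX hY hg hU h₀
  have cX := hX.sm.continuous
  have cY := hY.sm.continuous
  have cb := fun w => (contDiff_br hX.sm hY.sm w).continuous
  have had : ∀ w, br X Y (true :: w) q₀ = -fderiv ℝ X q₀ (br X Y w q₀) := fun w => by
    simp [br, VectorField.lieBracket, h]
  obtain ⟨hG, c₀, c₁, c₂, hc, hf⟩ := coef (L := fderiv ℝ X q₀) (G := X q₀ - Y q₀)
    (V := br X Y [] q₀) (by simp [br, VectorField.lieBracket, h]) (had []) (had [true])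
    (hg.zx.kal h) (hg.zx.eig h)
  obtain ⟨D, hD, hp⟩ := near_bound (G := fun y => X y - Y y) (cX.sub cY) (cb []) (cb [true])
    (hg.zx.kal h)
  obtain ⟨l, -, hl⟩ := GenB.exists_cov (v := 0) (w := Y q₀) fun c hc => hG (by simp [h, hc])
  have hd : 0 < δ₀ / 2 := half_pos hδ₀
  obtain ⟨ε, hε, H⟩ := long2
    (K := D * ‖br X Y [false] q₀‖ ^ 2 + D * ‖br X Y [true, false] q₀‖ ^ 2 + 1) hf hd
  have ev : ∀ {F : E3 → ℝ} {R : ℝ}, Continuous F → F q₀ < R → ∀ᶠ y in 𝓝 q₀, F y ≤ R :=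
    fun hF hR => (hF.continuousAt.eventually (gt_mem_nhds hR)).mono fun _ h => h.le
  have e1 := ev (F := fun y => D * ‖br X Y [false] y‖ ^ 2)
    (R := D * ‖br X Y [false] q₀‖ ^ 2 + D * ‖br X Y [true, false] q₀‖ ^ 2 + 1)
    (continuous_const.mul ((cb _).norm.pow 2)) (by
      have : 0 ≤ D * ‖br X Y [true, false] q₀‖ ^ 2 := by positivity
      linarith)
  have e2 := ev (F := fun y => D * ‖br X Y [true, false] y‖ ^ 2)
    (R := D * ‖br X Y [false] q₀‖ ^ 2 + D * ‖br X Y [true, false] q₀‖ ^ 2 + 1)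
    (continuous_const.mul ((cb _).norm.pow 2)) (by
      have : 0 ≤ D * ‖br X Y [false] q₀‖ ^ 2 := by positivity
      linarith)
  have e3 := ev (F := fun y => D * ‖br X Y [true, true] y -
      (c₂ • br X Y [true] y + c₁ • br X Y [] y + c₀ • (X y - Y y))‖ ^ 2) (R := ε)
    (continuous_const.mul (((cb _).sub ((((cb _).const_smul c₂).add ((cb _).const_smul c₁)).add
      ((cX.sub cY).const_smul c₀))).norm.pow 2)) (by simpa [← hc] using hε)
  have e4 := ev (F := fun y => |l y - l q₀|) (R := ε / 2) (by fun_prop) (by simpa using hε)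
  have e5 := ev (F := fun y => |l (X y)|) (R := ε) (by fun_prop) (by simpa [h] using hε)
  have e6 := ev (F := fun y => |l (Y y) - 1|) (R := ε) (by fun_prop) (by simpa [hl] using hε)
  refine ⟨_, inter_mem (ball_mem_nhds q₀ hr)
    ((hp.and (e1.and (e2.and e3))).and (e4.and (e5.and e6))), N + N + N, fun m q T ht hq opt => ?_⟩
  have hw := hN m q T ht (fun t h => (hq h).1) opt
  have hw' : ∀ s t, t - s ≤ 2 * (δ₀ / 2) → (sw q T ∩ Icc s t).encard ≤ N :=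
    fun s t h => hw s t (by linarith)
  by_cases hs : ∃ s ∈ sw q T, δ₀ / 2 ≤ s ∧ s + δ₀ / 2 ≤ T
  swap
  · exact cover (s₀ := 0) hd (fun _ h => h.1) hw' fun t h1 h2 h3 => absurd ⟨t, h1, h2, h3⟩ hs
  obtain ⟨s₀, s1, s2, s3⟩ := hs
  have hT : T ∈ Ioc 0 T := ⟨by linarith, le_rfl⟩
  obtain ⟨p, hp⟩ := (pmpT hX hY hT.1 ht hU (fun t h => hrU (hq h).1)
    (by simpa using opt 0 T le_rfl hT.1.le le_rfl)).1
  have hz : ∀ t ∈ sw q T, δ₀ / 2 ≤ t → t + δ₀ / 2 ≤ T → p t (X (q t) - Y (q t)) = 0 :=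
    fun t h1 h2 h3 => hp.zero_of_not_bang hX.sm hY.sm ht ⟨by linarith, by linarith⟩
      (not_bang_of_sw hX.sm hY.sm ht h1 ⟨by linarith, by linarith⟩)
  have key := H (Smooth.ext hX.sm hY.sm ht hT hp) (fun t h => by
    obtain ⟨a0, a1, a2, a3⟩ := (hq h).2.1
    have n1 : ‖p t‖ ^ 2 ≤ D * (Smooth.ext hX.sm hY.sm ht hT hp).nn t := a0 (p t)
    have n0 : 0 < (Smooth.ext hX.sm hY.sm ht hT hp).nn t :=
      (mul_pos_iff_of_pos_left hD).1
        ((pow_pos (norm_pos_iff.2 (hp.ne_all hX hY ht t h)) 2).trans_le n1)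
    refine ⟨n0, sq_le n1 n0.le a1, sq_le n1 n0.le a2, le_of_eq_of_le ?_ (sq_le n1 n0.le a3)⟩
    rw [map_sub, map_add, map_add, map_smul, map_smul, map_smul, sub_sub, sub_sub, ← add_assoc]
    rfl) (z_bound (e := Smooth.ext hX.sm hY.sm ht hT hp) ht fun t h => (hq h).2.2)
  refine cover (s₀ := s₀) hd (fun _ h => h.1) hw' fun t h1 h2 h3 => ⟨?_, ?_⟩
  · by_contra h4
    exact key t s₀ h2 (by linarith [not_le.1 h4]) s3 (hz t h1 h2 h3) (hz s₀ s1 s2 s3)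
  · exact not_lt.1 fun h4 => key s₀ t s2 h4.le h3 (hz s₀ s1 s2 s3) (hz t h1 h2 h3)

end Pool.Agent.Lib.MP_f4f7c0_an
end

-- part Pool.Agent.Lib.MP_f4f7c0_an.UFinal
section

/-! Assembly of the uniform bound. -/

namespace Pool.Agent.Lib.MP_f4f7c0_an

open Set Filter Topology
open scoped Manifold ContDiff

theorem localBound : LocalBound := by
  intro X Y hX hY q₀ hg U hU h₀
  by_cases h : ∀ c ∈ Icc (0 : ℝ) 1, c • X q₀ + (1 - c) • Y q₀ ≠ 0
  · exact local0 hX hY hg hU h₀ h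
  push Not at h
  obtain ⟨c, hc, h⟩ := h
  rcases hc.1.eq_or_lt with rfl | h0
  · obtain ⟨U', hU', k, H⟩ := local2 hY hX (hg.swap hX.sm hY.sm) hU h₀ (by simpa using h)
    exact ⟨U', hU', k, fun m q T h1 h2 h3 =>
      H _ q T h1.swap h2 fun s t a b c => (h3 s t a b c).swap⟩
  rcases hc.2.eq_or_lt with rfl | h1
  · exact local2 hX hY hg hU h₀ (by simpa using h)
  · exact local1 hX hY hg hU h₀ ⟨h0, h1⟩ h

variable {M : Type*} [TopologicalSpace M] [ChartedSpace E3 M] [IsManifold (𝓡 3) ∞ M]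

theorem finalU [T2Space M] [SecondCountableTopology M] :
    ∀ᶠ fg in @residual (VF M × VF M) (@instTopologicalSpaceProd _ _ (whitneyTop M) (whitneyTop M)),
      ∀ q₀ : M, ∃ U ∈ 𝓝 q₀, ∃ k : ℕ, ∀ (q : ℝ → M) (T : ℝ), TimeOptimal fg.1 fg.2 q T →
        MapsTo q (Icc 0 T) U → (switchingTimes q T).encard ≤ k :=
  residual_goodM3.mono fun _ h => uniform_switching localBound h

end Pool.Agent.Lib.MP_f4f7c0_an
end
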