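import Pool.Agent.Lib.MP_f4f7c0_an.UGlue

-- part Pool.Agent.Lib.MP_f4f7c0_an.UOde
section

/-! Tools on intervals of arbitrary length, time reparametrization, Dines convexity. -/

namespace Pool.Agent.Lib.MP_f4f7c0_an

open Set Filter Topology MeasureTheory
open scoped ContDiff

namespace UOde

/-- The mean value inequality with a variable bound. -/
theorem mvt_var {V : Type*} [NormedAddCommGroup V] [NormedSpace ℝ V] {y : ℝ → V}
    {a b : ℝ} {β β' : ℝ → ℝ} (hab : a ≤ b)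
    (hy : ∃ C, LipschitzOnWith C y (Icc a b)) (hβ : ContDiff ℝ 1 β)
    (hβ' : ∀ t, HasDerivAt β (β' t) t)
    (h : ∀ᵐ t, t ∈ Ioo a b → ∃ y', HasDerivAt y y' t ∧ ‖y'‖ ≤ β' t) :
    ‖y b - y a‖ ≤ β b - β a := by
  obtain ⟨C, hC⟩ := hy
  obtain ⟨g, g1, g2⟩ := exists_dual_vector'' ℝ (y b - y a)
  have h1 : AC (fun t => g (y t) - β t) a b := by
    refine AbsolutelyContinuousOnInterval.sub (f := fun t => g (y t)) (g := β)
      (LipschitzOnWith.absolutelyContinuousOnInterval (K := ‖g‖₊ * C) ?_)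
      (ContDiffOn.absolutelyContinuousOnInterval hβ.contDiffOn)
    rw [uIcc_of_le hab]
    exact g.lipschitz.comp_lipschitzOnWith hC
  have h2 := AC.le_of_ae (F' := deriv fun t => g (y t) - β t) hab h1 (by
    filter_upwards [h] with t ht hm
    obtain ⟨y', h3, h4⟩ := ht hm
    have h5 : HasDerivAt (fun t => g (y t) - β t) (g y' - β' t) t :=
      (g.hasFDerivAt.comp_hasDerivAt t h3).sub (hβ' t)
    refine ⟨h5.differentiableAt.hasDerivAt, ?_⟩
    rw [h5.deriv]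
    have := (le_abs_self _).trans (g.le_opNorm y')
    nlinarith [norm_nonneg y'])
  rw [map_sub] at g2
  simp only [RCLike.ofReal_real_eq_id, id_eq] at g2
  linarith

theorem int_cosh (L a b : ℝ) :
    ∫ τ in a..b, L * Real.cosh (2 * L * (τ - a)) = Real.sinh (2 * L * (b - a)) / 2 := by
  have h : ∀ x ∈ uIcc a b, HasDerivAt (fun τ => Real.sinh (2 * L * (τ - a)) / 2)
      (L * Real.cosh (2 * L * (x - a))) x := fun x _ =>
    (((((hasDerivAt_id x).sub_const a).const_mul (2 * L)).sinh).div_const 2).congr_deriv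
      (by simp only [id_eq]; ring)
  rw [intervalIntegral.integral_eq_sub_of_hasDerivAt h
    (Continuous.intervalIntegrable (by fun_prop) _ _)]
  simp

theorem abs_sinh_le (x : ℝ) : |Real.sinh x| ≤ Real.cosh x := by
  rw [Real.abs_sinh, ← Real.cosh_abs]
  exact (Real.sinh_lt_cosh _).le

/-- A property that holds almost everywhere holds at almost every value of the inverse of a
Lipschitz map. -/
theorem ae_inv {σ τ : ℝ → ℝ} {K : NNReal} (hσ : LipschitzWith K σ) (h : ∀ s, σ (τ s) = s)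
    {P : ℝ → Prop} (hP : ∀ᵐ t, P t) : ∀ᵐ s, P (τ s) := by
  rw [ae_iff] at hP ⊢
  have h1 := hσ.hausdorffMeasure_image_le (d := 1) zero_le_one {t | ¬P t}
  rw [hausdorffMeasure_real, hP, mul_zero] at h1
  refine measure_mono_null (fun s hs => ?_) (nonpos_iff_eq_zero.1 h1)
  exact ⟨τ s, hs, h s⟩

theorem ii {n : ℝ → ℝ} (hn : Measurable n) {B : ℝ} (h : ∀ t, |n t| ≤ B) (a b : ℝ) :
    IntervalIntegrable n volume a b :=
  (intervalIntegrable_const (c := B)).mono_fun' hn.aestronglyMeasurable (Eventually.of_forall h)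

/-- The inverse of the primitive of a function between two positive constants. -/
theorem exists_inv {n : ℝ → ℝ} (hn : Measurable n) (lo : ∀ t, 1 / 4 ≤ n t) (hi : ∀ t, n t ≤ 2) :
    ∃ τ : ℝ → ℝ, StrictMono τ ∧ LipschitzWith 4 τ ∧ (∀ t, τ (∫ s in (0 : ℝ)..t, n s) = t) ∧
      (∀ s, ∫ u in (0 : ℝ)..τ s, n u = s) ∧
      LipschitzWith 2 fun t => ∫ s in (0 : ℝ)..t, n s := by
  have hb : ∀ t, |n t| ≤ 2 := fun t => abs_le.2 ⟨by linarith [lo t], hi t⟩
  have hI := ii hn hb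
  obtain ⟨σ, hσ⟩ : ∃ σ : ℝ → ℝ, σ = fun t => ∫ s in (0 : ℝ)..t, n s := ⟨_, rfl⟩
  have hsub : ∀ s t, σ t - σ s = ∫ u in s..t, n u := fun s t => by
    rw [hσ]
    exact intervalIntegral.integral_interval_sub_left (hI _ _) (hI _ _)
  have hlo : ∀ s t, s ≤ t → (t - s) / 4 ≤ σ t - σ s := fun s t hst => by
    have := intervalIntegral.integral_mono_on hst (intervalIntegrable_const (c := (1 / 4 : ℝ)))
      (hI s t) fun x _ => lo x
    rw [intervalIntegral.integral_const, smul_eq_mul] at this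
    rw [hsub]
    linarith
  have hlip : LipschitzWith 2 σ := LipschitzWith.of_dist_le_mul fun t s => by
    rw [Real.dist_eq, Real.dist_eq, hsub]
    exact intervalIntegral.norm_integral_le_of_norm_le_const (f := n) (C := 2) fun x _ => hb x
  have hmono : StrictMono σ := fun s t hst => by linarith [hlo s t hst.le]
  have hsurj : Function.Surjective σ := by
    refine hlip.continuous.surjective ?_ ?_
    · refine tendsto_atTop_mono' atTop (f₁ := fun t => t / 4 + σ 0) ?_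
        (tendsto_atTop_add_const_right _ _ (tendsto_id.atTop_div_const four_pos))
      filter_upwards [eventually_ge_atTop 0] with t ht
      linarith [hlo 0 t ht]
    · refine tendsto_atBot_mono' atBot (f₁ := fun t => t / 4 + σ 0) ?_
        (tendsto_atBot_add_const_right _ _ (tendsto_id.atBot_div_const four_pos))
      filter_upwards [eventually_le_atBot 0] with t ht
      linarith [hlo t 0 ht]
  let e := hmono.orderIsoOfSurjective σ hsurj
  have h1 : ∀ s, σ (e.symm s) = s := fun s => e.apply_symm_apply s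
  have h2 : ∀ t, e.symm (σ t) = t := fun t => e.symm_apply_apply t
  refine ⟨e.symm, e.symm.strictMono, ?_, by simpa only [hσ] using h2, by simpa only [hσ] using h1,
    hσ ▸ hlip⟩
  refine LipschitzWith.of_le_add_mul 4 fun a b => ?_
  rcases le_total a b with hab | hab
  · have := e.symm.monotone hab
    have h3 : (0 : ℝ) ≤ (4 : NNReal) * dist a b := by positivity
    linarith
  · have := hlo _ _ (e.symm.monotone hab)
    rw [h1, h1] at this
    rw [Real.dist_eq, abs_of_nonneg (sub_nonneg.2 hab)]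
    push_cast
    linarith

/-- The quadratic equation behind Dines' theorem. -/
theorem exists_st (b₁ b₂ : ℝ) : ∃ s t : ℝ, s ^ 2 + s * t * b₁ = 1 ∧ t ^ 2 + s * t * b₂ = 1 := by
  obtain ⟨r, hr, hr'⟩ : ∃ r : ℝ, r ^ 2 + (b₂ - b₁) * r = 1 ∧ 0 ≤ b₁ * r := by
    have h1 : 0 ≤ (b₂ - b₁) ^ 2 + 4 := by positivity
    have h2 := Real.sq_sqrt h1
    have h3 : |b₂ - b₁| ≤ √((b₂ - b₁) ^ 2 + 4) := Real.abs_le_sqrt (by linarith)
    rw [abs_le] at h3
    rcases le_total 0 b₁ with h | h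
    · exact ⟨(-(b₂ - b₁) + √((b₂ - b₁) ^ 2 + 4)) / 2, by linear_combination h2 / 4,
        mul_nonneg h (by linarith [h3.2])⟩
    · exact ⟨(-(b₂ - b₁) - √((b₂ - b₁) ^ 2 + 4)) / 2, by linear_combination h2 / 4,
        mul_nonneg_of_nonpos_of_nonpos h (by linarith [h3.1])⟩
  have h1 : 0 < 1 + b₁ * r := by linarith
  have h2 := Real.sq_sqrt (inv_pos.2 h1).le
  have h3 := mul_inv_cancel₀ h1.ne'
  refine ⟨√(1 + b₁ * r)⁻¹, r * √(1 + b₁ * r)⁻¹, ?_, ?_⟩
  · linear_combination (1 + b₁ * r) * h2 + h3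
  · linear_combination (r ^ 2 + b₂ * r) * h2 + h3 + (1 + b₁ * r)⁻¹ * hr

theorem bound2 {F : Type*} [NormedAddCommGroup F] [NormedSpace ℝ F] {f : E3 → F}
    (hf : ContDiff ℝ 2 f) (hc : HasCompactSupport f) : ∃ K₀, ∀ K, K₀ ≤ K →
      (∀ y, ‖fderiv ℝ f y‖ ≤ K) ∧ ∀ x y, ‖fderiv ℝ f y - fderiv ℝ f x‖ ≤ K * ‖y - x‖ := by
  have hD : ContDiff ℝ 1 (fderiv ℝ f) := hf.fderiv_right (by norm_cast)
  obtain ⟨C1, h1⟩ := (hc.fderiv ℝ).exists_bound_of_continuous hD.continuous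
  obtain ⟨C2, h2⟩ := ContDiff.lipschitzWith_of_hasCompactSupport (hc.fderiv ℝ) hD one_ne_zero
  refine ⟨max C1 C2, fun K hK => ⟨fun y => (h1 y).trans ((le_max_left _ _).trans hK),
    fun x y => ?_⟩⟩
  exact (h2.norm_sub_le y x).trans (mul_le_mul_of_nonneg_right
    ((le_max_right _ _).trans hK) (norm_nonneg _))

end UOde

namespace Pmp

section
variable {V : Type*} [NormedAddCommGroup V] [NormedSpace ℝ V]

theorem gronT {w : ℝ → V} {s T a b : ℝ} (h0 : w s = 0)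
    (hw : ∃ C, LipschitzOnWith C w (Icc s T)) (ha : 0 ≤ a) (hb : 0 ≤ b)
    (h : ∀ᵐ t, t ∈ Ioo s T → ∃ w', HasDerivAt w w' t ∧ ‖w'‖ ≤ a * ‖w t‖ + b) :
    ∀ t ∈ Icc s T, ‖w t‖ ≤ 2 * b * (T - s) * Real.exp (2 * a * (T - s)) := by
  intro t ht
  obtain ⟨C, hC⟩ := id hw
  obtain ⟨t1, ht1, hm⟩ := isCompact_Icc.exists_isMaxOn ⟨t, ht⟩
    (f := fun τ => ‖w τ‖ / Real.exp (2 * a * (τ - s)))
    (hC.continuousOn.norm.div (by fun_prop) fun τ _ => (Real.exp_pos _).ne')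
  obtain ⟨M, hM⟩ : ∃ M, M = ‖w t1‖ / Real.exp (2 * a * (t1 - s)) := ⟨_, rfl⟩
  have hM0 : 0 ≤ M := by rw [hM]; positivity
  have hle : ∀ τ ∈ Icc s T, ‖w τ‖ ≤ M * Real.exp (2 * a * (τ - s)) := fun τ hτ => by
    rw [← div_le_iff₀ (Real.exp_pos _), hM]
    exact hm hτ
  have heq : ‖w t1‖ = M * Real.exp (2 * a * (t1 - s)) := by
    rw [hM, div_mul_cancel₀ _ (Real.exp_pos _).ne']
  have h1 := UOde.mvt_var (β := fun τ => M * Real.exp (2 * a * (τ - s)) / 2 + b * τ)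
    (β' := fun τ => a * (M * Real.exp (2 * a * (τ - s))) + b) ht1.1
    ⟨C, hC.mono (Icc_subset_Icc_right ht1.2)⟩ (by fun_prop)
    (fun τ => ((((((hasDerivAt_id τ).sub_const s).const_mul (2 * a)).exp.const_mul M).div_const
      2).add ((hasDerivAt_id τ).const_mul b)).congr_deriv (by simp only [id_eq]; ring)) (by
      filter_upwards [h] with τ hτ hm
      obtain ⟨w', h2, h3⟩ := hτ ⟨hm.1, hm.2.trans_le ht1.2⟩
      refine ⟨w', h2, h3.trans ?_⟩
      have := hle τ ⟨hm.1.le, hm.2.le.trans ht1.2⟩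
      gcongr)
  rw [h0, sub_zero, heq, sub_self, mul_zero, Real.exp_zero] at h1
  have h2 : 1 ≤ Real.exp (2 * a * (t1 - s)) :=
    Real.one_le_exp (mul_nonneg (by linarith) (sub_nonneg.2 ht1.1))
  have h3 : M ≤ 2 * b * (T - s) := by
    have h4 : b * (t1 - s) ≤ b * (T - s) := by gcongr; exact ht1.2
    nlinarith
  refine (hle t ht).trans ?_
  have h5 : 0 ≤ 2 * b * (T - s) := hM0.trans h3
  gcongr
  exact ht.2

theorem exists_solT [CompleteSpace V] {F : ℝ → V → V} {T B L t0 : ℝ} (ht0 : t0 ∈ Icc 0 T) (y0 : V)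
    (hL : 0 ≤ L)
    (hm : ∀ y : ℝ → V, Continuous y → AEStronglyMeasurable (fun t => F t (y t)) volume)
    (h0 : ∀ t ∈ Icc 0 T, ‖F t 0‖ ≤ B)
    (hl : ∀ t ∈ Icc 0 T, ∀ v w, ‖F t v - F t w‖ ≤ L * ‖v - w‖) :
    ∃ y : ℝ → V, (∃ C, LipschitzWith C y) ∧ y t0 = y0 ∧
      ∀ᵐ t, t ∈ Ioo 0 T → HasDerivAt y (F t (y t)) t := by
  have hδ : 0 ≤ T := ht0.1.trans ht0.2
  let c : ℝ → ℝ := fun t => projIcc 0 T hδ t
  have hc : ∀ t, c t ∈ Icc 0 T := fun t => (projIcc 0 T hδ t).2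
  have hcl : ∀ s t, |c t - c s| ≤ |t - s| := fun s t => abs_projIcc_sub_projIcc hδ
  have hcm : ∀ t ∈ Icc 0 T, c t = t := fun t ht => by simp only [c, projIcc_of_mem hδ ht]
  have hcc : Continuous c := continuous_subtype_val.comp continuous_projIcc
  let ρ : ℝ → ℝ := fun t => Real.cosh (2 * L * (c t - t0))
  have hρc : Continuous ρ := by fun_prop
  have hρ1 : ∀ t, 1 ≤ ρ t := fun t => Real.one_le_cosh _
  have hρ0 : ∀ t, 0 < ρ t := fun t => one_pos.trans_le (hρ1 t)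
  obtain ⟨R, hR⟩ : ∃ R, ∀ t, ρ t ≤ R := by
    refine ⟨Real.cosh (2 * L * T), fun t => Real.cosh_le_cosh.2 ?_⟩
    rw [abs_mul, abs_mul (2 * L), abs_of_nonneg hδ]
    gcongr
    exact abs_sub_le_of_mem ht0 (hc t)
  have hR0 : 0 ≤ R := (hρ0 0).le.trans (hR 0)
  let Y : BoundedContinuousFunction ℝ V → ℝ → V := fun u t => ρ t • u t
  have hY : ∀ u, Continuous (Y u) := fun u => hρc.smul u.continuous
  have hb : ∀ u : BoundedContinuousFunction ℝ V, ∀ t ∈ Icc 0 T,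
      ‖F t (Y u t)‖ ≤ B + L * (R * ‖u‖) := by
    intro u t ht
    have h1 := hl t ht (Y u t) 0
    have h2 := h0 t ht
    have h3 := norm_sub_norm_le (F t (Y u t)) (F t 0)
    have h4 : L * ‖Y u t - 0‖ ≤ L * (R * ‖u‖) := by
      rw [sub_zero, norm_smul, Real.norm_of_nonneg (hρ0 t).le]
      gcongr
      · exact hR t
      · exact u.norm_coe_le_norm t
    linarith
  have hB : ∀ u : BoundedContinuousFunction ℝ V, 0 ≤ B + L * (R * ‖u‖) := fun u =>
    (norm_nonneg _).trans (hb u t0 ht0)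
  have hlip : ∀ u : BoundedContinuousFunction ℝ V, LipschitzWith ⟨_, hB u⟩
      fun t => y0 + ∫ τ in t0..c t, F τ (Y u τ) := by
    intro u
    refine LipschitzWith.of_dist_le_mul fun t s => ?_
    rw [dist_add_left, dist_eq_norm, Real.dist_eq]
    exact (prim_lip (hm _ (hY u)) (hb u) ht0 (hc s) (hc t)).trans
      (mul_le_mul_of_nonneg_left (hcl s t) (hB u))
  let Φ : BoundedContinuousFunction ℝ V → BoundedContinuousFunction ℝ V := fun u =>
    BoundedContinuousFunction.ofNormedAddCommGroup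
      (fun t => (ρ t)⁻¹ • (y0 + ∫ τ in t0..c t, F τ (Y u τ)))
      ((hρc.inv₀ fun t => (hρ0 t).ne').smul (hlip u).continuous)
      (‖y0‖ + (B + L * (R * ‖u‖)) * T) fun t => by
        rw [norm_smul, Real.norm_of_nonneg (inv_nonneg.2 (hρ0 t).le)]
        refine (mul_le_of_le_one_left (norm_nonneg _) (inv_le_one_of_one_le₀ (hρ1 t))).trans ?_
        refine (norm_add_le _ _).trans ?_
        have := prim_lip (hm _ (hY u)) (hb u) ht0 ht0 (hc t)
        rw [intervalIntegral.integral_same, sub_zero] at this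
        have h2 := mul_le_mul_of_nonneg_left (abs_sub_le_of_mem ht0 (hc t)) (hB u)
        linarith
  have hΦ : ContractingWith (1 / 2) Φ := by
    refine ⟨by norm_num, LipschitzWith.of_dist_le_mul fun u z => ?_⟩
    refine (BoundedContinuousFunction.dist_le (by positivity)).2 fun t => ?_
    change dist ((ρ t)⁻¹ • (y0 + _)) ((ρ t)⁻¹ • (y0 + _)) ≤ _
    rw [dist_smul₀, dist_add_left, dist_eq_norm, ← intervalIntegral.integral_sub
      (ii_of_bound (hm _ (hY u)) (hb u) ht0 (hc t))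
      (ii_of_bound (hm _ (hY z)) (hb z) ht0 (hc t)), Real.norm_of_nonneg (inv_nonneg.2 (hρ0 t).le),
      inv_mul_le_iff₀ (hρ0 t)]
    refine (intervalIntegral.norm_integral_le_abs_of_norm_le
      (g := fun τ => dist u z * (L * Real.cosh (2 * L * (τ - t0)))) ?_
      (Continuous.intervalIntegrable (by fun_prop) _ _)).trans ?_
    · refine (ae_restrict_iff' measurableSet_uIoc).2 (Eventually.of_forall fun x hx => ?_)
      have hx' := uIcc_subset_Icc ht0 (hc t) (uIoc_subset_uIcc hx)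
      refine (hl x hx' _ _).trans ?_
      have h1 : ‖Y u x - Y z x‖ = ρ x * dist (u x) (z x) := by
        rw [← smul_sub, norm_smul, Real.norm_of_nonneg (hρ0 x).le, dist_eq_norm]
      have h2 : ρ x = Real.cosh (2 * L * (x - t0)) := by simp only [ρ, hcm x hx']
      have h3 : dist (u x) (z x) ≤ dist u z := BoundedContinuousFunction.dist_coe_le_dist x
      rw [h1, ← h2]
      have h4 : 0 ≤ L * ρ x := mul_nonneg hL (hρ0 x).le
      nlinarith
    · rw [intervalIntegral.integral_const_mul, UOde.int_cosh, abs_mul, abs_of_nonneg dist_nonneg,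
        abs_div, abs_two]
      have h1 : |Real.sinh (2 * L * (c t - t0))| ≤ ρ t := UOde.abs_sinh_le _
      have h2 := dist_nonneg (x := u) (y := z)
      push_cast
      nlinarith
  obtain ⟨u, hu⟩ : ∃ u, Φ u = u := ⟨_, hΦ.fixedPoint_isFixedPt⟩
  have hy' : Y u = fun t => y0 + ∫ τ in t0..c t, F τ (Y u τ) := funext fun t => by
    have h1 : (ρ t)⁻¹ • (y0 + ∫ τ in t0..c t, F τ (Y u τ)) = u t := DFunLike.congr_fun hu t
    change ρ t • u t = _
    rw [← h1, smul_inv_smul₀ (hρ0 t).ne']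
  refine ⟨Y u, ⟨_, (congrArg (LipschitzWith _) hy').mpr (hlip u)⟩, ?_, ?_⟩
  · rw [congrFun hy' t0, hcm t0 ht0, intervalIntegral.integral_same, add_zero]
  · filter_upwards [prim_deriv (hm _ (hY u)) (hb u) ht0] with t ht hm
    refine ((ht hm).const_add y0).congr_of_eventuallyEq ?_
    filter_upwards [Icc_mem_nhds hm.1 hm.2] with s hs
    rw [congrFun hy' s, hcm s hs]

end

/-- A trajectory with a free time scale. -/
structure GTraj (X Y : E3 → E3) (n₁ n₂ : ℝ → ℝ) (z : ℝ → E3) (T : ℝ) : Prop where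
  nonneg : 0 ≤ T
  m1 : Measurable n₁
  m2 : Measurable n₂
  p1 : ∀ t, 0 ≤ n₁ t
  p2 : ∀ t, 0 ≤ n₂ t
  lo : ∀ t, 1 / 4 ≤ n₁ t + n₂ t
  hi : ∀ t, n₁ t + n₂ t ≤ 2
  lip : ∃ C, LipschitzOnWith C z (Icc 0 T)
  ode : ∀ᵐ t, t ∈ Ioo 0 T → HasDerivAt z (n₁ t • X (z t) + n₂ t • Y (z t)) t

theorem GTraj.reparam {X Y : E3 → E3} {n₁ n₂ : ℝ → ℝ} {z : ℝ → E3} {T T' : ℝ}
    (h : GTraj X Y n₁ n₂ z T) (hT : ∫ t in (0 : ℝ)..T, (n₁ t + n₂ t) = T') :
    ∃ m' z', Traj X Y m' z' T' ∧ z' 0 = z 0 ∧ z' T' = z T ∧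
      ∀ s ∈ Icc 0 T', ∃ t ∈ Icc 0 T, z' s = z t := by
  have hn : Measurable fun t => n₁ t + n₂ t := h.m1.add h.m2
  have hpos : ∀ t, 0 < n₁ t + n₂ t := fun t => by linarith [h.lo t]
  obtain ⟨τ, hm, hl, h1, h2, hσ⟩ := UOde.exists_inv hn h.lo h.hi
  have t0 : τ 0 = 0 := by simpa using h1 0
  have tT : τ T' = T := by rw [← hT, h1]
  have hIcc : MapsTo τ (Icc 0 T') (Icc 0 T) := fun s hs =>
    ⟨t0 ▸ hm.monotone hs.1, tT ▸ hm.monotone hs.2⟩
  have hIoo : MapsTo τ (Ioo 0 T') (Ioo 0 T) := fun s hs => ⟨t0 ▸ hm hs.1, tT ▸ hm hs.2⟩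
  obtain ⟨C, hC⟩ := h.lip
  refine ⟨fun s => n₁ (τ s) / (n₁ (τ s) + n₂ (τ s)), fun s => z (τ s), ⟨?_, ?_, fun s => ?_,
    fun s => ?_, ⟨_, hC.comp hl.lipschitzOnWith hIcc⟩, ?_⟩, congrArg z t0, congrArg z tT,
    fun s hs => ⟨τ s, hIcc hs, rfl⟩⟩
  · exact hm.le_iff_le.1 (by rw [t0, tT]; exact h.nonneg)
  · exact (h.m1.div hn).comp hl.continuous.measurable
  · exact div_nonneg (h.p1 _) (hpos _).le
  · exact (div_le_one (hpos _)).2 (by linarith [h.p2 (τ s)])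
  · have hd := prim_deriv (B := 2) hn.aestronglyMeasurable
      (fun t _ => abs_le.2 ⟨by linarith [hpos t], h.hi t⟩) (left_mem_Icc.2 h.nonneg)
    filter_upwards [UOde.ae_inv hσ h2 (hd.and h.ode)] with s hs hs'
    have h3 : HasDerivAt τ (n₁ (τ s) + n₂ (τ s))⁻¹ s :=
      HasDerivAt.of_local_left_inverse hl.continuous.continuousAt (hs.1 (hIoo hs')) (hpos _).ne'
        (Eventually.of_forall h2)
    refine ((hs.2 (hIoo hs')).scomp s h3).congr_deriv ?_
    have h4 := (hpos (τ s)).ne'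
    rw [smul_add, smul_smul, smul_smul]
    congr 2 <;> field_simp
    ring

/-- Global bounds up to order three. -/
structure Nice3 (X : E3 → E3) (K : ℝ) : Prop extends Nice X K where
  diff2 : Differentiable ℝ (fderiv ℝ X)
  c2 : ∀ y, ‖fderiv ℝ (fderiv ℝ X) y‖ ≤ K
  c3 : ∀ x y, ‖fderiv ℝ (fderiv ℝ X) y - fderiv ℝ (fderiv ℝ X) x‖ ≤ K * ‖y - x‖

theorem _root_.Pool.Agent.Lib.MP_f4f7c0_an.UOde.exists_nice3 {X : E3 → E3} (hX : SC X) :
    ∃ K₀, ∀ K, K₀ ≤ K → Nice3 X K := by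
  obtain ⟨C0, h0⟩ := exists_nice hX.sm hX.cs
  have hD : ContDiff ℝ 2 (fderiv ℝ X) := hX.sm.fderiv_right (by norm_cast)
  obtain ⟨C1, h1⟩ := UOde.bound2 hD (hX.cs.fderiv ℝ)
  refine ⟨max C0 C1, fun K hK => ?_⟩
  have h2 := h1 K ((le_max_right _ _).trans hK)
  exact ⟨h0.mono ((le_max_left _ _).trans hK), hD.differentiable two_ne_zero, h2.1, h2.2⟩

theorem exists_nice3 {X Y : E3 → E3} (hX : SC X) (hY : SC Y) :
    ∃ K, 0 < K ∧ Nice3 X K ∧ Nice3 Y K := by
  obtain ⟨K₁, h₁⟩ := UOde.exists_nice3 hX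
  obtain ⟨K₂, h₂⟩ := UOde.exists_nice3 hY
  exact ⟨max 1 (max K₁ K₂), one_pos.trans_le (le_max_left _ _),
    h₁ _ ((le_max_left _ _).trans (le_max_right _ _)),
    h₂ _ ((le_max_right _ _).trans (le_max_right _ _))⟩

theorem Nice3.taylor1 {X : E3 → E3} {K : ℝ} (h : Nice3 X K) (x y : E3) :
    ‖fderiv ℝ X y - fderiv ℝ X x - fderiv ℝ (fderiv ℝ X) x (y - x)‖ ≤ K * ‖y - x‖ ^ 2 := by
  rw [sq, ← mul_assoc]
  exact (convex_closedBall x ‖y - x‖).norm_image_sub_le_of_norm_fderiv_le' (fun z _ => h.diff2 z)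
    (fun z hz => (h.c3 x z).trans (mul_le_mul_of_nonneg_left (mem_closedBall_iff_norm.1 hz)
      h.toNice.nonneg)) (Metric.mem_closedBall_self (norm_nonneg _))
    (mem_closedBall_iff_norm.2 le_rfl)

theorem Nice3.taylor2 {X : E3 → E3} {K : ℝ} (h : Nice3 X K) (x y : E3) :
    ‖X y - X x - fderiv ℝ X x (y - x) -
      (1 / 2 : ℝ) • fderiv ℝ (fderiv ℝ X) x (y - x) (y - x)‖ ≤ K * ‖y - x‖ ^ 3 := by
  obtain ⟨v, rfl⟩ : ∃ v, y = x + v := ⟨y - x, by abel⟩
  rw [add_sub_cancel_left]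
  have hd : ∀ t : ℝ, HasDerivAt (fun t : ℝ => X (x + t • v) - t • fderiv ℝ X x v -
      (t ^ 2 / 2) • fderiv ℝ (fderiv ℝ X) x v v) ((fderiv ℝ X (x + t • v) - fderiv ℝ X x -
        fderiv ℝ (fderiv ℝ X) x (x + t • v - x)) v) t := fun t => by
    have h1 : HasDerivAt (fun t : ℝ => x + t • v) ((1 : ℝ) • v) t :=
      ((hasDerivAt_id t).smul_const v).const_add x
    refine ((((h.diff _).hasFDerivAt.comp_hasDerivAt t h1).sub
      ((hasDerivAt_id t).smul_const _)).sub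
        (((hasDerivAt_pow 2 t).div_const 2).smul_const _)).congr_deriv ?_
    simp
  have h2 := norm_image_sub_le_of_norm_deriv_le_segment_01' (C := K * ‖v‖ ^ 3)
    (fun t _ => (hd t).hasDerivWithinAt) fun t ht => by
      refine ((ContinuousLinearMap.le_opNorm _ _).trans
        (mul_le_mul_of_nonneg_right (h.taylor1 x (x + t • v)) (norm_nonneg _))).trans ?_
      rw [add_sub_cancel_left, norm_smul, Real.norm_of_nonneg ht.1]
      have h3 : t * ‖v‖ ≤ ‖v‖ := mul_le_of_le_one_left (norm_nonneg _) ht.2.le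
      have h4 := h.toNice.nonneg
      have h5 := mul_nonneg ht.1 (norm_nonneg v)
      calc K * (t * ‖v‖) ^ 2 * ‖v‖ ≤ K * ‖v‖ ^ 2 * ‖v‖ := by gcongr
        _ = K * ‖v‖ ^ 3 := by ring
  refine le_of_eq_of_le (congrArg norm ?_) h2
  simp only [one_smul, zero_smul, add_zero, one_pow]
  module

/-- Dines' theorem modulo a vector. -/
theorem dines {V : Type*} [AddCommGroup V] [Module ℝ V] {S : Set V}
    (hS : ∀ v ∈ S, ∀ w ∈ S, ∀ s t : ℝ, s • v + t • w ∈ S) {d : V → E3}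
    (hd : ∀ v ∈ S, ∀ w ∈ S, ∃ c, ∀ s t : ℝ,
      d (s • v + t • w) = s ^ 2 • d v + (s * t) • c + t ^ 2 • d w) {v₀ : E3} (h₀ : v₀ ≠ 0) :
    Convex ℝ {x | ∃ v ∈ S, ∃ s : ℝ, x = d v + s • v₀} := by
  have hcone : ∀ v ∈ S, ∀ a : ℝ, 0 ≤ a → ∃ w ∈ S, d w = a • d v := by
    intro v hv a ha
    obtain ⟨c, hc⟩ := hd v hv v hv
    exact ⟨_, hS v hv v hv √a 0, by rw [hc, Real.sq_sqrt ha]; simp⟩
  have hdep : ∀ v ∈ S, ∀ w ∈ S, ∀ l g : ℝ, d w = l • d v + g • v₀ →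
      ∃ u ∈ S, ∃ s : ℝ, d v + d w = d u + s • v₀ := by
    intro v hv w hw l g e
    rcases le_or_gt 0 (1 + l) with h | h
    · obtain ⟨u, hu, hu'⟩ := hcone v hv _ h
      exact ⟨u, hu, g, by rw [hu', e]; module⟩
    · have hl : l < 0 := by linarith
      obtain ⟨u, hu, hu'⟩ := hcone w hw ((1 + l) / l) (div_nonneg_of_nonpos h.le hl.le)
      refine ⟨u, hu, -g / l, ?_⟩
      rw [hu', e]
      have := hl.ne
      match_scalars
      · field_simp
      · field_simp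
        ring
  have hadd : ∀ v ∈ S, ∀ w ∈ S, ∃ u ∈ S, ∃ s : ℝ, d v + d w = d u + s • v₀ := by
    intro v hv w hw
    by_cases hi : LinearIndependent ℝ ![d v, d w, v₀]
    · obtain ⟨c, hc⟩ := hd v hv w hw
      have h1 : c ∈ Submodule.span ℝ (range ![d v, d w, v₀]) := by
        rw [hi.span_eq_top_of_card_eq_finrank (by simp)]
        trivial
      obtain ⟨b, hb⟩ := (Submodule.mem_span_range_iff_exists_fun ℝ).1 h1
      simp only [Fin.sum_univ_three, Matrix.cons_val_zero, Matrix.cons_val_one,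
        Matrix.cons_val] at hb
      obtain ⟨s, t, h2, h3⟩ := UOde.exists_st (b 0) (b 1)
      refine ⟨_, hS v hv w hw s t, -(s * t * b 2), ?_⟩
      rw [hc, ← hb]
      match_scalars
      · linear_combination -h2
      · linear_combination -h3
      · ring
    · obtain ⟨g, hg, i, hi⟩ := Fintype.not_linearIndependent_iff.1 hi
      simp only [Fin.sum_univ_three, Matrix.cons_val_zero, Matrix.cons_val_one,
        Matrix.cons_val] at hg
      by_cases h1 : g 1 = 0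
      · by_cases h2 : g 0 = 0
        · rw [h1, h2, zero_smul, zero_smul, zero_add, zero_add, smul_eq_zero] at hg
          have h3 : g 2 = 0 := hg.resolve_right h₀
          fin_cases i <;> contradiction
        · rw [add_comm]
          refine hdep w hw v hv (-g 1 / g 0) (-g 2 / g 0) (smul_right_injective E3 h2 ?_)
          have h3 : g 0 • d v = -(g 1 • d w + g 2 • v₀) := by
            rw [eq_neg_iff_add_eq_zero, ← hg]
            abel
          simp only [h3]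
          match_scalars <;> field_simp
      · refine hdep v hv w hw (-g 0 / g 1) (-g 2 / g 1) (smul_right_injective E3 h1 ?_)
        have h3 : g 1 • d w = -(g 0 • d v + g 2 • v₀) := by
          rw [eq_neg_iff_add_eq_zero, ← hg]
          abel
        simp only [h3]
        match_scalars <;> field_simp
  rintro _ ⟨v, hv, s, rfl⟩ _ ⟨w, hw, t, rfl⟩ a b ha hb -
  obtain ⟨v', hv', e1⟩ := hcone v hv a ha
  obtain ⟨w', hw', e2⟩ := hcone w hw b hb
  obtain ⟨u, hu, r, e3⟩ := hadd v' hv' w' hw'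
  refine ⟨u, hu, r + a * s + b * t, ?_⟩
  rw [e1, e2] at e3
  rw [add_smul, add_smul, ← add_assoc, ← add_assoc, ← e3]
  module

end Pmp

variable {X Y : E3 → E3} {m : ℝ → ℝ} {q : ℝ → E3} {T : ℝ} {p : ℝ → E3 →L[ℝ] ℝ}

theorem UOde.mix_swap {V : Type*} [AddCommGroup V] [Module ℝ V] (a : ℝ) (u v : V) :
    a • u + (1 - a) • v = (1 - a) • v + (1 - (1 - a)) • u := by module

theorem UOde.adj_bound {K : ℝ} (hX : Pmp.Nice X K) (hY : Pmp.Nice Y K) (h : Traj X Y m q T)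
    (l : E3 →L[ℝ] ℝ) (t : ℝ) :
    ‖l.comp (m t • fderiv ℝ X (q t) + (1 - m t) • fderiv ℝ Y (q t))‖ ≤ K * ‖l‖ := by
  rw [mul_comm]
  exact (l.opNorm_comp_le _).trans (mul_le_mul_of_nonneg_left
    (Pmp.norm_mix (h.m0 t) (h.m1 t) (hX.b1 _) (hY.b1 _)) (norm_nonneg _))

theorem Adjoint.ne_all (hX : SC X) (hY : SC Y) (h : Traj X Y m q T) (hp : Adjoint X Y m q p T) :
    ∀ t ∈ Icc 0 T, p t ≠ 0 := by
  intro t ht h0
  obtain ⟨K, hK, h1, h2⟩ := Pmp.exists_nice3 hX hY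
  obtain ⟨C, hC⟩ := hp.lip
  have h3 := Pmp.gronT (w := fun τ => p (t - τ)) (s := 0) (T := t) (a := K) (b := 0)
    (by simpa using h0) ⟨C, LipschitzOnWith.of_dist_le_mul fun a ha b hb => by
      have := hC.dist_le_mul (t - a) ⟨by linarith [ha.2], by linarith [ha.1, ht.2]⟩ (t - b)
        ⟨by linarith [hb.2], by linarith [hb.1, ht.2]⟩
      rwa [dist_sub_left] at this⟩ hK.le le_rfl (by
      filter_upwards [ae_rev hp.ode t] with τ hτ hm
      refine ⟨_, (hτ ⟨by linarith [hm.2], by linarith [hm.1, ht.2]⟩).scomp τ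
        ((hasDerivAt_id τ).const_sub t), ?_⟩
      rw [neg_smul, one_smul, neg_neg, add_zero]
      exact UOde.adj_bound h1.toNice h2.toNice h _ _) t ⟨ht.1, le_rfl⟩
  exact hp.ne (by simpa using h3)

theorem Adjoint.smul (hp : Adjoint X Y m q p T) {c : ℝ} (hc : 0 < c) :
    Adjoint X Y m q (fun t => c • p t) T := by
  obtain ⟨C, hC⟩ := hp.lip
  refine ⟨⟨_, (lipschitzWith_smul c).comp_lipschitzOnWith hC⟩, smul_ne_zero hc.ne' hp.ne, ?_, ?_,
    ?_⟩
  · filter_upwards [hp.ode] with t ht hm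
    refine ((ht hm).const_smul c).congr_deriv ?_
    rw [ContinuousLinearMap.smul_comp, smul_neg]
  · filter_upwards [hp.pos] with t ht hm h1 using ht hm (pos_of_mul_pos_right (a := c) h1 hc.le)
  · filter_upwards [hp.neg] with t ht hm h1 using ht hm (neg_of_mul_neg_right (a := c) h1 hc.le)

theorem Second.smul (h : Second X Y m q p T) {c : ℝ} (hc : 0 < c) :
    Second X Y m q (fun t => c • p t) T := fun u v r hr => by
  simp only [smul_apply, smul_eq_mul, intervalIntegral.integral_const_mul]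
  exact mul_nonpos_of_nonneg_of_nonpos hc.le (h u v r hr)

/-- Short time variation of the covector. -/
theorem Adjoint.near (hX : SC X) (hY : SC Y) : ∃ C, 0 < C ∧ ∀ m q T p, Traj X Y m q T →
    Adjoint X Y m q p T → C * T ≤ 1 → ∀ t ∈ Icc 0 T, ‖p t - p 0‖ ≤ C * T * ‖p 0‖ := by
  obtain ⟨K, hK, h1, h2⟩ := Pmp.exists_nice3 hX hY
  refine ⟨2 * K, by positivity, fun m q T p h hp hT t ht => ?_⟩
  obtain ⟨C, hC⟩ := hp.lip
  refine (Pmp.gron (w := fun τ => p τ - p 0) (a := K) (b := K * ‖p 0‖) (left_mem_Icc.2 h.nonneg)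
    (sub_self _) ⟨C, LipschitzOnWith.of_dist_le_mul fun a ha b hb => ?_⟩ hK.le (by positivity)
    (by linarith) ?_ t ht).trans_eq (by ring)
  · rw [dist_sub_right]
    exact hC.dist_le_mul a ha b hb
  · filter_upwards [hp.ode] with τ hτ hm
    refine ⟨_, (hτ hm).sub_const _, ?_⟩
    rw [norm_neg, ← mul_add]
    exact (UOde.adj_bound h1.toNice h2.toNice h _ _).trans
      (mul_le_mul_of_nonneg_left (norm_le_norm_sub_add _ _) hK.le)

theorem Traj.shift (h : Traj X Y m q T) {s t : ℝ} (hs : 0 ≤ s) (hst : s ≤ t) (ht : t ≤ T) :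
    Traj X Y (fun τ => m (s + τ)) (fun τ => q (s + τ)) (t - s) := by
  obtain ⟨C, hC⟩ := h.lip
  refine ⟨sub_nonneg.2 hst, h.meas.comp (measurable_const_add s), fun _ => h.m0 _, fun _ => h.m1 _,
    ⟨C, LipschitzOnWith.of_dist_le_mul fun a ha b hb => ?_⟩, ?_⟩
  · have := hC.dist_le_mul (s + a) ⟨by linarith [ha.1], by linarith [ha.2]⟩ (s + b)
      ⟨by linarith [hb.1], by linarith [hb.2]⟩
    rwa [dist_add_left] at this
  · filter_upwards [(measurePreserving_add_left volume s).quasiMeasurePreserving.ae h.ode]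
      with τ hτ hm
    exact (hτ ⟨by linarith [hm.1], by linarith [hm.2]⟩).comp_const_add s τ

theorem Traj.swap (h : Traj X Y m q T) : Traj Y X (fun t => 1 - m t) q T :=
  ⟨h.nonneg, measurable_const.sub h.meas, fun t => by linarith [h.m1 t],
    fun t => by linarith [h.m0 t], h.lip, by
      filter_upwards [h.ode] with t ht hm using (ht hm).congr_deriv (UOde.mix_swap _ _ _)⟩

theorem Adjoint.swap (hp : Adjoint X Y m q p T) : Adjoint Y X (fun t => 1 - m t) q p T := by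
  refine ⟨hp.lip, hp.ne, ?_, ?_, ?_⟩
  · filter_upwards [hp.ode] with t ht hm
    rw [sub_sub_cancel, add_comm]
    exact ht hm
  · filter_upwards [hp.neg] with t ht hm h1
    rw [ht hm (by rw [map_sub] at h1 ⊢; linarith), sub_zero]
  · filter_upwards [hp.pos] with t ht hm h1
    rw [ht hm (by rw [map_sub] at h1 ⊢; linarith), sub_self]

theorem Second.swap (h : Second X Y m q p T) : Second Y X (fun t => 1 - m t) q p T := by
  intro u v r hr
  have h1 : IsVar X Y m q T v u r := by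
    refine ⟨hr.mv, hr.mu, hr.bd.imp fun B hB t => (hB t).symm, hr.lip, hr.r0, hr.rT, ?_, ?_⟩
    · filter_upwards [hr.ode] with t ht hm
      refine (ht hm).congr_deriv ?_
      rw [sub_sub_cancel, add_comm (_ • Y (q t)), add_comm (_ • fderiv ℝ Y (q t))]
    · refine Eq.trans ?_ hr.tot
      congr 1
      funext t
      ring
  refine le_of_eq_of_le ?_ (h v u r h1)
  congr 1
  funext t
  congr 1
  simp only [secVec, sub_sub_cancel]
  module

theorem Opt.swap {U : Set E3} (h : Opt X Y U q T) : Opt Y X U q T :=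
  fun _ q' T' h' => h _ q' T' h'.swap

theorem UOde.ext_ext {e e' : Ext} (h1 : e.δ = e'.δ) (h2 : e.m = e'.m) (h3 : e.φ = e'.φ)
    (h4 : e.x = e'.x) (h5 : e.h = e'.h) : e = e' := by
  cases e
  cases e'
  simp only at h1 h2 h3 h4 h5
  subst h1 h2 h3 h4 h5
  rfl

theorem ext_swap (hX : ContDiff ℝ ∞ X) (hY : ContDiff ℝ ∞ Y) (h : Traj X Y m q T)
    (hT : T ∈ Ioc 0 T) (hp : Adjoint X Y m q p T) :
    Smooth.ext hY hX h.swap hT hp.swap = (Smooth.ext hX hY h hT hp).swap := by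
  refine UOde.ext_ext rfl rfl (funext fun t => ?_) (funext fun t => ?_)
    (funext fun w => funext fun t => ?_)
  · change p t (Y (q t) - X (q t)) = -p t (X (q t) - Y (q t))
    rw [← map_neg, neg_sub]
  · change ∫ τ in (0 : ℝ)..t, (1 - m τ) = t - ∫ τ in (0 : ℝ)..t, m τ
    rw [intervalIntegral.integral_sub intervalIntegrable_const (UOde.ii h.meas (B := 1)
      (fun τ => abs_le.2 ⟨by linarith [h.m0 τ], h.m1 τ⟩) 0 t)]
    simp
  · change p t (br Y X w (q t)) = -p t (br X Y (w.map not) (q t))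
    rw [br_swap, Pi.neg_apply, map_neg]

theorem Good3.swap {q : E3} (hX : ContDiff ℝ ∞ X) (hY : ContDiff ℝ ∞ Y) (h : Good3 X Y q) :
    Good3 Y X q := by
  refine ⟨h.good.swap hX hY, fun h1 => ?_, fun c hc h1 p hp h2 h3 => ?_, h.zy, h.zx⟩
  · simpa [br_swap (X := X)] using h.d1 h1.symm
  · have := h.d2 (1 - c) ⟨by linarith [hc.2], by linarith [hc.1]⟩
      (by rw [← UOde.mix_swap]; exact h1) p hp (by rw [map_sub] at h2 ⊢; linarith)
      (by simpa [br_swap (X := X)] using h3)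
    simpa [br_swap (X := X)] using this.symm

end Pool.Agent.Lib.MP_f4f7c0_an
end

-- part Pool.Agent.Lib.MP_f4f7c0_an.UGoh
section

/-! Evaluation of the second variation on test functions of the `Y` time. -/

namespace Pool.Agent.Lib.MP_f4f7c0_an

open Set Filter Topology MeasureTheory
open scoped ContDiff

namespace UGoh
open Pmp

section calc1
variable {m F Fp Fm G : ℝ → ℝ} {T : ℝ}

theorem dd_le (hm : Adm m) (h : DD m F Fp Fm 0 T) (hp : ∀ τ ∈ Ioo 0 T, Fp τ ≤ 0)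
    (hn : ∀ τ ∈ Ioo 0 T, Fm τ ≤ 0) {s t : ℝ} (hs : 0 ≤ s) (hst : s ≤ t) (ht : t ≤ T) :
    F t ≤ F s := by
  have h1 := h.mono hs hst ht
  refine AC.le_of_ae (F' := fun τ => m τ * Fp τ + (1 - m τ) * Fm τ) hst h1.1 ?_
  filter_upwards [h1.2] with τ h2 hτ
  have hτ' : τ ∈ Ioo 0 T := ⟨hs.trans_lt hτ.1, hτ.2.trans_le ht⟩
  refine ⟨h2 hτ, ?_⟩
  have := hp τ hτ'
  have := hn τ hτ'
  have := (hm.2 τ).1
  have := (hm.2 τ).2
  nlinarith

theorem ii_m (hm : Adm m) (a b : ℝ) : IntervalIntegrable m volume a b :=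
  (intervalIntegrable_const (c := (1 : ℝ))).mono_fun' hm.1.aestronglyMeasurable
    (Eventually.of_forall fun t => by
      simp only [Real.norm_eq_abs]; rw [abs_of_nonneg (hm.2 t).1]; exact (hm.2 t).2)

theorem ii_mix (hm : Adm m) (hT : 0 ≤ T) (hf : ContinuousOn Fp (Icc 0 T))
    (hg : ContinuousOn Fm (Icc 0 T)) (hG : ∀ τ, G τ = m τ * Fp τ + (1 - m τ) * Fm τ) :
    IntervalIntegrable G volume 0 T := by
  rw [funext hG]
  rw [← uIcc_of_le hT] at hf hg
  exact ((ii_m hm 0 T).mul_continuousOn hf).add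
    ((intervalIntegrable_const.sub (ii_m hm 0 T)).mul_continuousOn hg)

theorem dd_int (hm : Adm m) (hT : 0 ≤ T) (hf : ContinuousOn Fp (Icc 0 T))
    (hg : ContinuousOn Fm (Icc 0 T)) (hG : ∀ τ, G τ = m τ * Fp τ + (1 - m τ) * Fm τ) :
    DD m (fun t => ∫ τ in (0 : ℝ)..t, G τ) Fp Fm 0 T := by
  have hi := ii_mix hm hT hf hg hG
  refine ⟨hi.absolutelyContinuousOnInterval_intervalIntegral left_mem_uIcc, ?_⟩
  filter_upwards [hi.ae_hasDerivAt_integral] with τ hτ h1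
  exact (hτ (by rw [uIcc_of_le hT]; exact Ioo_subset_Icc_self h1) 0 left_mem_uIcc).congr_deriv
    (hG τ)

end calc1

/-- Vector valued derivative along a control. -/
def VD (m : ℝ → ℝ) (w wp wm : ℝ → E3) (T : ℝ) : Prop :=
  (∃ C, LipschitzOnWith C w (Icc 0 T)) ∧
    ∀ᵐ t, t ∈ Ioo 0 T → HasDerivAt w (m t • wp t + (1 - m t) • wm t) t

theorem VD.dual {m : ℝ → ℝ} {w wp wm : ℝ → E3} {T : ℝ} (h : VD m w wp wm T) (hT : 0 ≤ T)
    (g : E3 →L[ℝ] ℝ) :
    DD m (fun t => g (w t)) (fun t => g (wp t)) (fun t => g (wm t)) 0 T := by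
  obtain ⟨⟨C, hC⟩, h2⟩ := h
  refine ⟨LipschitzOnWith.absolutelyContinuousOnInterval (K := ‖g‖₊ * C) ?_, ?_⟩
  · rw [uIcc_of_le hT]
    exact g.lipschitz.comp_lipschitzOnWith hC
  · filter_upwards [h2] with t ht h1
    exact (g.hasFDerivAt.comp_hasDerivAt t (ht h1)).congr_deriv (by simp)

theorem VD.cont {m : ℝ → ℝ} {w wp wm : ℝ → E3} {T : ℝ} (h : VD m w wp wm T) :
    ContinuousOn w (Icc 0 T) := h.1.choose_spec.continuousOn

/-- The standing assumptions. -/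
structure Ctx (X Y : E3 → E3) (K : ℝ) (m : ℝ → ℝ) (q : ℝ → E3) (T : ℝ)
    (p : ℝ → E3 →L[ℝ] ℝ) : Prop where
  sX : ContDiff ℝ ∞ X
  sY : ContDiff ℝ ∞ Y
  nX : Nice3 X K
  nY : Nice3 Y K
  nV : Nice (br X Y []) K
  tr : Traj X Y m q T
  ad : Adjoint X Y m q p T
  hK : K * T ≤ 1 / 4
  pb : ∀ t ∈ Icc 0 T, ‖p t‖ ≤ 2

/-- Solutions of the linearised equation with source `y m V`. -/
def Sol (X Y : E3 → E3) (m : ℝ → ℝ) (q : ℝ → E3) (T : ℝ) (y : ℝ → ℝ) (ξ : ℝ → E3) : Prop :=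
  ξ 0 = 0 ∧ VD m ξ (fun t => fderiv ℝ X (q t) (ξ t) + y t • br X Y [] (q t))
    (fun t => fderiv ℝ Y (q t) (ξ t)) T

variable {X Y : E3 → E3} {K T : ℝ} {m : ℝ → ℝ} {q : ℝ → E3} {p : ℝ → E3 →L[ℝ] ℝ}

theorem Sol.add {y y' : ℝ → ℝ} {ξ ξ' : ℝ → E3} (h : Sol X Y m q T y ξ) (h' : Sol X Y m q T y' ξ') :
    Sol X Y m q T (fun t => y t + y' t) (fun t => ξ t + ξ' t) := by
  obtain ⟨a0, ⟨C, a1⟩, a2⟩ := h
  obtain ⟨b0, ⟨D, b1⟩, b2⟩ := h'
  refine ⟨by simp [a0, b0], ⟨_, a1.add b1⟩, ?_⟩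
  filter_upwards [a2, b2] with t h1 h2 ht
  refine ((h1 ht).add (h2 ht)).congr_deriv ?_
  simp only [map_add]
  module

theorem Sol.smul {y : ℝ → ℝ} {ξ : ℝ → E3} (h : Sol X Y m q T y ξ) (c : ℝ) :
    Sol X Y m q T (fun t => c * y t) (fun t => c • ξ t) := by
  obtain ⟨a0, ⟨C, a1⟩, a2⟩ := h
  refine ⟨by simp [a0], ⟨_, (lipschitzWith_smul c).comp_lipschitzOnWith a1⟩, ?_⟩
  filter_upwards [a2] with t h1 ht
  refine ((h1 ht).const_smul c).congr_deriv ?_
  simp only [map_smul]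
  module

/-- Projection to the interval. -/
def cl (T t : ℝ) : ℝ := max 0 (min t T)

theorem cl_mem (hT : 0 ≤ T) (t : ℝ) : cl T t ∈ Icc 0 T :=
  ⟨le_max_left _ _, max_le hT (min_le_right _ _)⟩

theorem cl_eq {t : ℝ} (ht : t ∈ Icc 0 T) : cl T t = t := by
  rw [cl, min_eq_left ht.2, max_eq_right ht.1]

theorem cl_cont (T : ℝ) : Continuous (cl T) := by unfold cl; fun_prop

theorem cont_cl {W : Type*} [TopologicalSpace W] {f : ℝ → W} (hT : 0 ≤ T)
    (hf : ContinuousOn f (Icc 0 T)) : Continuous fun t => f (cl T t) :=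
  hf.comp_continuous (cl_cont T) (cl_mem hT)

theorem fderiv_V (hX : ContDiff ℝ ∞ X) (hY : ContDiff ℝ ∞ Y) (x h : E3) :
    fderiv ℝ (br X Y []) x h = fderiv ℝ X x (fderiv ℝ Y x h) + fderiv ℝ (fderiv ℝ X) x h (Y x) -
      (fderiv ℝ Y x (fderiv ℝ X x h) + fderiv ℝ (fderiv ℝ Y) x h (X x)) := by
  have d1 := (hX.differentiable (by simp) x).hasFDerivAt
  have d2 := (hY.differentiable (by simp) x).hasFDerivAt
  have d3 := ((hX.fderiv_right (m := ∞) le_rfl).differentiable (by simp) x).hasFDerivAt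
  have d4 := ((hY.fderiv_right (m := ∞) le_rfl).differentiable (by simp) x).hasFDerivAt
  have := ((d3.clm_apply d2).sub (d4.clm_apply d1)).fderiv
  have e : br X Y [] = (fun y => fderiv ℝ X y (Y y)) - fun y => fderiv ℝ Y y (X y) := rfl
  rw [e, this]
  simp

theorem sym2 (hX : ContDiff ℝ ∞ X) (x v w : E3) :
    fderiv ℝ (fderiv ℝ X) x v w = fderiv ℝ (fderiv ℝ X) x w v :=
  (hX.contDiffAt.isSymmSndFDerivAt (by
    rw [minSmoothness_of_isRCLikeNormedField]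
    exact ENat.LEInfty.out)).eq v w

namespace Ctx
variable (c : Ctx X Y K m q T p)
include c

theorem adm : Adm m := ⟨c.tr.meas, fun t => ⟨c.tr.m0 t, c.tr.m1 t⟩⟩
theorem T0 : 0 ≤ T := c.tr.nonneg
theorem K0 : 0 ≤ K := c.nV.nonneg
theorem cq : ContinuousOn q (Icc 0 T) := c.tr.lip.choose_spec.continuousOn
theorem cp : ContinuousOn p (Icc 0 T) := c.ad.lip.choose_spec.continuousOn
theorem sV : ContDiff ℝ ∞ (br X Y []) := contDiff_br c.sX c.sY []

theorem exists_sol {y : ℝ → ℝ} (hy : ContinuousOn y (Icc 0 T)) : ∃ ξ, Sol X Y m q T y ξ := by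
  have hT := c.T0
  have hK := c.K0
  obtain ⟨B, hB⟩ := isCompact_Icc.exists_bound_of_continuousOn hy
  have hq := cont_cl hT c.cq
  have hy' := cont_cl hT hy
  have h1 := c.nX.toNice.cont1
  have h2 := c.nY.toNice.cont1
  have h3 := c.sV.continuous
  obtain ⟨ξ, ⟨C, hC⟩, h0, hd⟩ := Pmp.exists_sol (V := E3) (δ := T) (B := B * K) (L := K) (t0 := 0)
    (F := fun t w => m t • (fderiv ℝ X (q (cl T t)) w + y (cl T t) • br X Y [] (q (cl T t))) +
      (1 - m t) • fderiv ℝ Y (q (cl T t)) w) ⟨le_rfl, hT⟩ 0 hK (by linarith [c.hK])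
    (fun w hw => by
      have m1 := c.tr.meas.aestronglyMeasurable (μ := volume)
      refine (m1.smul (Continuous.aestronglyMeasurable ?_)).add
        ((aestronglyMeasurable_const.sub m1).smul (Continuous.aestronglyMeasurable ?_))
      · exact ((h1.comp hq).clm_apply hw).add (hy'.smul (h3.comp hq))
      · exact (h2.comp hq).clm_apply hw)
    (fun t ht => by
      have hB0 : 0 ≤ B := (norm_nonneg _).trans (hB t ht)
      refine norm_mix (c.tr.m0 t) (c.tr.m1 t) ?_ (by simp; positivity)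
      rw [map_zero, zero_add, norm_smul, cl_eq ht]
      exact mul_le_mul (hB t ht) (c.nV.b0 _) (norm_nonneg _) hB0)
    (fun t _ v w => by
      have e : m t • (fderiv ℝ X (q (cl T t)) v + y (cl T t) • br X Y [] (q (cl T t))) +
          (1 - m t) • fderiv ℝ Y (q (cl T t)) v -
          (m t • (fderiv ℝ X (q (cl T t)) w + y (cl T t) • br X Y [] (q (cl T t))) +
          (1 - m t) • fderiv ℝ Y (q (cl T t)) w) = m t • fderiv ℝ X (q (cl T t)) (v - w) +
          (1 - m t) • fderiv ℝ Y (q (cl T t)) (v - w) := by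
        simp only [map_sub]
        module
      rw [e]
      exact norm_mix (c.tr.m0 t) (c.tr.m1 t)
        (ContinuousLinearMap.le_of_opNorm_le _ (c.nX.b1 _) _)
        (ContinuousLinearMap.le_of_opNorm_le _ (c.nY.b1 _) _))
  refine ⟨ξ, h0, ⟨C, hC.lipschitzOnWith⟩, ?_⟩
  filter_upwards [hd] with t h ht
  have := h ht
  rwa [cl_eq (Ioo_subset_Icc_self ht)] at this

theorem vd_Y : VD m (fun t => Y (q t)) (fun t => fderiv ℝ Y (q t) (X (q t)))
    (fun t => fderiv ℝ Y (q t) (Y (q t))) T := by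
  obtain ⟨C, hC⟩ := c.tr.lip
  refine ⟨Smooth.lip_comp hC fun _ _ => (c.sY.of_le (by exact_mod_cast le_top)).contDiffAt, ?_⟩
  filter_upwards [c.tr.ode] with t h ht
  exact ((c.nY.diff (q t)).hasFDerivAt.comp_hasDerivAt t (h ht)).congr_deriv (by simp)

theorem dd_DY {ζ ζp ζm : ℝ → E3} (h : VD m ζ ζp ζm T) :
    DD m (fun t => p t (fderiv ℝ Y (q t) (ζ t)))
      (fun t => -p t (fderiv ℝ X (q t) (fderiv ℝ Y (q t) (ζ t))) +
        p t (fderiv ℝ (fderiv ℝ Y) (q t) (X (q t)) (ζ t)) + p t (fderiv ℝ Y (q t) (ζp t)))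
      (fun t => -p t (fderiv ℝ Y (q t) (fderiv ℝ Y (q t) (ζ t))) +
        p t (fderiv ℝ (fderiv ℝ Y) (q t) (Y (q t)) (ζ t)) + p t (fderiv ℝ Y (q t) (ζm t))) 0 T := by
  obtain ⟨C1, h1⟩ := c.tr.lip
  obtain ⟨C2, h2⟩ := c.ad.lip
  obtain ⟨⟨C3, h3⟩, h4⟩ := h
  have hY1 : ContDiff ℝ 1 (fderiv ℝ Y) :=
    (c.sY.fderiv_right (m := ∞) le_rfl).of_le (by exact_mod_cast le_top)
  obtain ⟨D, hD⟩ := Smooth.lip_comp
    (g := fun z : (E3 × (E3 →L[ℝ] ℝ)) × E3 => z.1.2 (fderiv ℝ Y z.1.1 z.2))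
    ((h1.prodMk h2).prodMk h3) fun τ _ =>
      ((contDiff_snd.comp contDiff_fst).clm_apply
        ((hY1.comp (contDiff_fst.comp contDiff_fst)).clm_apply contDiff_snd)).contDiffAt
  refine ⟨LipschitzOnWith.absolutelyContinuousOnInterval (K := D)
    (by rwa [uIcc_of_le c.T0]), ?_⟩
  filter_upwards [c.tr.ode, c.ad.ode, h4] with τ a1 a2 a3 hτ
  have a4 := (c.nY.diff2 (q τ)).hasFDerivAt.comp_hasDerivAt τ (a1 hτ)
  refine ((a2 hτ).clm_apply (a4.clm_apply (a3 hτ))).congr_deriv ?_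
  simp
  ring

theorem q_near {t : ℝ} (ht : t ∈ Icc 0 T) : ‖q t - q 0‖ ≤ K * T := by
  have := speed c.nX.toNice c.nY.toNice c.tr ⟨le_rfl, c.T0⟩ ht
  exact this.trans (mul_le_mul_of_nonneg_left (abs_sub_le_of_mem ⟨le_rfl, c.T0⟩ ht) c.K0)

theorem p_near {t : ℝ} (ht : t ∈ Icc 0 T) : ‖p t - p 0‖ ≤ 2 * K * T := by
  have := mvt (B := 2 * K) c.ad.lip (by
    filter_upwards [c.ad.ode] with τ h hτ
    refine ⟨_, h hτ, ?_⟩
    rw [norm_neg]
    refine (ContinuousLinearMap.opNorm_comp_le _ _).trans ?_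
    exact mul_le_mul (c.pb τ (Ioo_subset_Icc_self hτ))
      (norm_mix (c.tr.m0 τ) (c.tr.m1 τ) (c.nX.b1 _) (c.nY.b1 _)) (norm_nonneg _) (by norm_num))
    ⟨le_rfl, c.T0⟩ ht
  exact this.trans (mul_le_mul_of_nonneg_left (abs_sub_le_of_mem ⟨le_rfl, c.T0⟩ ht)
    (by linarith [c.K0]))

section bounds
variable {y : ℝ → ℝ} {ξ : ℝ → E3} (hy : ContinuousOn y (Icc 0 T)) (hs : Sol X Y m q T y ξ)
include hy

theorem ddL : DD m (fun t => ∫ τ in (0 : ℝ)..t, |y τ| * m τ) (fun t => |y t|) (fun _ => 0) 0 T :=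
  dd_int c.adm c.T0 hy.abs continuousOn_const fun τ => by ring

theorem ddη : DD m (fun t => ∫ τ in (0 : ℝ)..t, y τ * m τ) y (fun _ => 0) 0 T :=
  dd_int c.adm c.T0 hy continuousOn_const fun τ => by ring

theorem L_le {t : ℝ} (ht : t ∈ Icc 0 T) :
    ∫ τ in (0 : ℝ)..t, |y τ| * m τ ≤ ∫ τ in (0 : ℝ)..T, |y τ| * m τ := by
  have := dd_le c.adm (c.ddL hy).neg (fun τ _ => by simp) (fun τ _ => by simp) ht.1 ht.2 le_rfl
  linarith

theorem η_le {t : ℝ} (ht : t ∈ Icc 0 T) :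
    |∫ τ in (0 : ℝ)..t, y τ * m τ| ≤ ∫ τ in (0 : ℝ)..T, |y τ| * m τ := by
  have h1 := dd_le c.adm ((c.ddη hy).sub (c.ddL hy)) (fun τ _ => by linarith [le_abs_self (y τ)])
    (fun τ _ => by simp) le_rfl ht.1 ht.2
  have h2 := dd_le c.adm ((c.ddη hy).neg.sub (c.ddL hy))
    (fun τ _ => by linarith [neg_abs_le (y τ)]) (fun τ _ => by simp) le_rfl ht.1 ht.2
  have h3 := c.L_le hy ht
  simp only [intervalIntegral.integral_same] at h1 h2
  exact abs_le.2 ⟨by linarith, by linarith⟩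

theorem L_nonneg : 0 ≤ ∫ τ in (0 : ℝ)..T, |y τ| * m τ :=
  (abs_nonneg _).trans (c.η_le hy ⟨le_rfl, c.T0⟩)

include hs

theorem ξ_le {t : ℝ} (ht : t ∈ Icc 0 T) :
    ‖ξ t‖ ≤ 2 * K * ∫ τ in (0 : ℝ)..T, |y τ| * m τ := by
  have hK := c.K0
  obtain ⟨t1, ht1, hM⟩ := isCompact_Icc.exists_isMaxOn ⟨t, ht⟩ hs.2.cont.norm
  obtain ⟨g, g1, g2⟩ := exists_dual_vector'' ℝ (ξ t1)
  have hg : ∀ v : E3, g v ≤ ‖v‖ := fun v => by
    have := (le_abs_self _).trans (g.le_opNorm v)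
    nlinarith [norm_nonneg v]
  have hb : ∀ {Z : E3 → E3}, Nice3 Z K → ∀ τ ∈ Ioo 0 T,
      ‖fderiv ℝ Z (q τ) (ξ τ)‖ ≤ K * ‖ξ t1‖ := fun hZ τ hτ =>
    ContinuousLinearMap.le_of_opNorm_le_of_le _ (hZ.b1 _) (hM (Ioo_subset_Icc_self hτ))
  have h1 := dd_le c.adm (((hs.2.dual c.T0 g).sub (DD.id.cmul (K * ‖ξ t1‖))).sub
    ((c.ddL hy).cmul K)) (fun τ hτ => by
      have a1 := hg (fderiv ℝ X (q τ) (ξ τ) + y τ • br X Y [] (q τ))
      have a2 := norm_add_le (fderiv ℝ X (q τ) (ξ τ)) (y τ • br X Y [] (q τ))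
      have a3 := hb c.nX τ hτ
      have a4 : ‖y τ • br X Y [] (q τ)‖ ≤ K * |y τ| := by
        rw [norm_smul, mul_comm]
        exact mul_le_mul_of_nonneg_right (c.nV.b0 _) (norm_nonneg _)
      linarith) (fun τ hτ => by
      have a1 := hg (fderiv ℝ Y (q τ) (ξ τ))
      have a3 := hb c.nY τ hτ
      linarith) le_rfl ht1.1 ht1.2
  simp only [intervalIntegral.integral_same, hs.1, map_zero, RCLike.ofReal_real_eq_id,
    id_eq] at h1 g2
  have h2 := mul_le_mul_of_nonneg_left (c.L_le hy ht1) hK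
  have h3 : ‖ξ t‖ ≤ ‖ξ t1‖ := hM ht
  have h4 : K * t1 ≤ 1 / 4 := (mul_le_mul_of_nonneg_left ht1.2 hK).trans c.hK
  have h5 := mul_nonneg hK (c.L_nonneg hy)
  nlinarith [norm_nonneg (ξ t1)]

theorem ξ_near {t : ℝ} (ht : t ∈ Icc 0 T) :
    ‖ξ t - (∫ τ in (0 : ℝ)..t, y τ * m τ) • br X Y [] (q 0)‖ ≤
      3 * K ^ 2 * T * ∫ τ in (0 : ℝ)..T, |y τ| * m τ := by
  have hK := c.K0
  have hT := c.T0
  have hL := c.L_nonneg hy
  obtain ⟨g, g1, g2⟩ := exists_dual_vector'' ℝ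
    (ξ t - (∫ τ in (0 : ℝ)..t, y τ * m τ) • br X Y [] (q 0))
  have hg : ∀ v : E3, g v ≤ ‖v‖ := fun v => by
    have := (le_abs_self _).trans (g.le_opNorm v)
    nlinarith [norm_nonneg v]
  have hb : ∀ {Z : E3 → E3}, Nice3 Z K → ∀ τ ∈ Ioo 0 T,
      ‖fderiv ℝ Z (q τ) (ξ τ)‖ ≤ K * (2 * K * ∫ τ in (0 : ℝ)..T, |y τ| * m τ) := fun hZ τ hτ =>
    ContinuousLinearMap.le_of_opNorm_le_of_le _ (hZ.b1 _)
      (c.ξ_le hy hs (Ioo_subset_Icc_self hτ))
  have h1 := dd_le c.adm ((((hs.2.dual c.T0 g).sub ((c.ddη hy).cmul (g (br X Y [] (q 0))))).sub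
    (DD.id.cmul (K * (2 * K * ∫ τ in (0 : ℝ)..T, |y τ| * m τ)))).sub
    ((c.ddL hy).cmul (K * (K * T)))) (fun τ hτ => by
      have a1 := hg (fderiv ℝ X (q τ) (ξ τ) + y τ • (br X Y [] (q τ) - br X Y [] (q 0)))
      have a2 := norm_add_le (fderiv ℝ X (q τ) (ξ τ)) (y τ • (br X Y [] (q τ) - br X Y [] (q 0)))
      have a3 := hb c.nX τ hτ
      have a4 : ‖y τ • (br X Y [] (q τ) - br X Y [] (q 0))‖ ≤ K * (K * T) * |y τ| := by
        rw [norm_smul, mul_comm]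
        exact mul_le_mul_of_nonneg_right ((c.nV.lip _ _).trans
          (mul_le_mul_of_nonneg_left (c.q_near (Ioo_subset_Icc_self hτ)) hK)) (norm_nonneg _)
      simp only [map_add, map_smul, map_sub, smul_eq_mul] at a1 ⊢
      linarith) (fun τ hτ => by
      have a1 := hg (fderiv ℝ Y (q τ) (ξ τ))
      have a3 := hb c.nY τ hτ
      linarith) le_rfl ht.1 ht.2
  simp only [intervalIntegral.integral_same, hs.1, map_zero, RCLike.ofReal_real_eq_id,
    id_eq, map_sub, map_smul, smul_eq_mul] at h1 g2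
  have h2 := mul_le_mul_of_nonneg_left (c.L_le hy ht) (show 0 ≤ K * (K * T) by positivity)
  have h3 := mul_le_mul_of_nonneg_left ht.2
    (show 0 ≤ K * (2 * K * ∫ τ in (0 : ℝ)..T, |y τ| * m τ) by positivity)
  rw [← g2]
  linarith

theorem E_le {t : ℝ} (ht : t ∈ Icc 0 T) :
    |p t (fderiv ℝ (br X Y []) (q t) (ξ t)) -
      p 0 (fderiv ℝ (br X Y []) (q 0) (br X Y [] (q 0))) * ∫ τ in (0 : ℝ)..t, y τ * m τ| ≤
      14 * K ^ 3 * T * ∫ τ in (0 : ℝ)..T, |y τ| * m τ := by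
  have hK := c.K0
  have hT := c.T0
  have h1 := c.ξ_le hy hs ht
  have h2 := c.ξ_near hy hs ht
  have hL := c.L_nonneg hy
  generalize (∫ τ in (0 : ℝ)..T, |y τ| * m τ) = Λ at *
  generalize (∫ τ in (0 : ℝ)..t, y τ * m τ) = η at *
  have e : p t (fderiv ℝ (br X Y []) (q t) (ξ t)) -
      p 0 (fderiv ℝ (br X Y []) (q 0) (br X Y [] (q 0))) * η =
      (p t - p 0) (fderiv ℝ (br X Y []) (q t) (ξ t)) +
      p 0 ((fderiv ℝ (br X Y []) (q t) - fderiv ℝ (br X Y []) (q 0)) (ξ t)) +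
      p 0 (fderiv ℝ (br X Y []) (q 0) (ξ t - η • br X Y [] (q 0))) := by
    simp only [sub_apply, map_sub, map_smul, smul_eq_mul]
    ring
  have p0 := c.pb 0 ⟨le_rfl, hT⟩
  have a1 : ‖(p t - p 0) (fderiv ℝ (br X Y []) (q t) (ξ t))‖ ≤ 2 * K * T * (K * (2 * K * Λ)) :=
    ContinuousLinearMap.le_of_opNorm_le_of_le _ (c.p_near ht)
      (ContinuousLinearMap.le_of_opNorm_le_of_le _ (c.nV.b1 _) h1)
  have a2 : ‖p 0 ((fderiv ℝ (br X Y []) (q t) - fderiv ℝ (br X Y []) (q 0)) (ξ t))‖ ≤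
      2 * (K * (K * T) * (2 * K * Λ)) :=
    ContinuousLinearMap.le_of_opNorm_le_of_le _ p0
      (ContinuousLinearMap.le_of_opNorm_le_of_le _
        ((c.nV.b2 _ _).trans (mul_le_mul_of_nonneg_left (c.q_near ht) hK)) h1)
  have a3 : ‖p 0 (fderiv ℝ (br X Y []) (q 0) (ξ t - η • br X Y [] (q 0)))‖ ≤
      2 * (K * (3 * K ^ 2 * T * Λ)) :=
    ContinuousLinearMap.le_of_opNorm_le_of_le _ p0
      (ContinuousLinearMap.le_of_opNorm_le_of_le _ (c.nV.b1 _) h2)
  rw [e]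
  simp only [Real.norm_eq_abs, abs_le] at a1 a2 a3 ⊢
  constructor <;> linarith [a1.1, a1.2, a2.1, a2.2, a3.1, a3.2]

theorem Q_le {Z : E3 → E3} (hZ : Nice3 Z K) {t : ℝ} (ht : t ∈ Icc 0 T) :
    |p t (fderiv ℝ (fderiv ℝ Z) (q t) (ξ t) (ξ t))| ≤
      8 * K ^ 3 * (∫ τ in (0 : ℝ)..T, |y τ| * m τ) ^ 2 := by
  have h1 := c.ξ_le hy hs ht
  have a1 := ContinuousLinearMap.le_of_opNorm_le_of_le _ (c.pb t ht)
    (ContinuousLinearMap.le_of_opNorm_le_of_le _
      (ContinuousLinearMap.le_of_opNorm_le_of_le _ (hZ.c2 (q t)) h1) h1)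
  rw [Real.norm_eq_abs] at a1
  linarith

end bounds

theorem isVar {y v : ℝ → ℝ} {ξ : ℝ → E3} (hy : DD m y (fun _ => 0) v 0 T)
    (hl : ∃ C, LipschitzOnWith C y (Icc 0 T)) (hv : Continuous v) (hb : ∃ B, ∀ t, |v t| ≤ B)
    (y0 : y 0 = 0) (yT : y T = 0) (hs : Sol X Y m q T y ξ) (ξT : ξ T = 0) :
    IsVar X Y m q T (fun _ => 0) v (fun t => y t • Y (q t) + ξ t) := by
  obtain ⟨B, hB⟩ := hb
  obtain ⟨C1, h1⟩ := hl
  obtain ⟨C2, h2⟩ := c.vd_Y.1
  obtain ⟨C3, h3⟩ := hs.2.1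
  refine ⟨measurable_const, hv.measurable,
    ⟨B, fun t => ⟨by simpa using (abs_nonneg _).trans (hB t), hB t⟩⟩, ?_, by simp [y0, hs.1],
    by simp [yT, ξT], ?_, ?_⟩
  · obtain ⟨D, hD⟩ := Smooth.lip_comp (g := fun z : ℝ × E3 => z.1 • z.2) (h1.prodMk h2)
      fun τ _ => (contDiff_fst.smul contDiff_snd).contDiffAt
    exact ⟨_, hD.add h3⟩
  · filter_upwards [hy.2, c.vd_Y.2, hs.2.2] with t a1 a2 a3 ht
    refine (((a1 ht).smul (a2 ht)).add (a3 ht)).congr_deriv ?_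
    have e : br X Y [] (q t) = fderiv ℝ X (q t) (Y (q t)) - fderiv ℝ Y (q t) (X (q t)) := rfl
    simp only [e, add_apply, smul_apply, map_add,
      map_smul]
    module
  · have d := dd_int (G := fun t => m t * 0 + (1 - m t) * v t) c.adm c.T0
      (Fp := fun _ => 0) continuousOn_const hv.continuousOn fun _ => rfl
    have a1 := dd_le c.adm (d.sub hy) (fun _ _ => by simp) (fun _ _ => by simp) le_rfl c.T0 le_rfl
    have a2 := dd_le c.adm (hy.sub d) (fun _ _ => by simp) (fun _ _ => by simp) le_rfl c.T0 le_rfl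
    simp only [intervalIntegral.integral_same, y0, yT] at a1 a2
    linarith

theorem cb : ContinuousOn (fun t => p t (br X Y [false] (q t))) (Icc 0 T) :=
  c.cp.clm_apply ((contDiff_br c.sX c.sY [false]).continuous.comp_continuousOn c.cq)

theorem core (h2 : Second X Y m q p T) {y v : ℝ → ℝ} {ξ : ℝ → E3}
    (hy : DD m y (fun _ => 0) v 0 T)
    (hl : ∃ C, LipschitzOnWith C y (Icc 0 T)) (hv : Continuous v) (hb : ∃ B, ∀ t, |v t| ≤ B)
    (y0 : y 0 = 0) (yT : y T = 0) (hs : Sol X Y m q T y ξ) (ξT : ξ T = 0) :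
    ∫ τ in (0 : ℝ)..T, y τ ^ 2 * (m τ * p τ (br X Y [false] (q τ))) ≤
      42 * K ^ 3 * T * (∫ τ in (0 : ℝ)..T, |y τ| * m τ) ^ 2 := by
  have hK := c.K0
  have hT := c.T0
  have hyc := hy.cont hT
  have sec := h2 _ _ _ (c.isVar hy hl hv hb y0 yT hs ξT)
  have cr : ContinuousOn (fun t => y t • Y (q t) + ξ t) (Icc 0 T) :=
    (hyc.smul c.vd_Y.cont).add hs.2.cont
  have c2 : ∀ {Z : E3 → E3}, ContDiff ℝ ∞ Z → ContinuousOn (fun t => p t
      (fderiv ℝ (fderiv ℝ Z) (q t) (y t • Y (q t) + ξ t) (y t • Y (q t) + ξ t))) (Icc 0 T) :=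
    fun hZ => c.cp.clm_apply ((((((hZ.fderiv_right (m := ∞) le_rfl).fderiv_right (m := ∞)
      le_rfl).continuous.comp_continuousOn c.cq)).clm_apply cr).clm_apply cr)
  have c1 : ContinuousOn (fun t => p t (fderiv ℝ Y (q t) (y t • Y (q t) + ξ t))) (Icc 0 T) :=
    c.cp.clm_apply ((c.nY.toNice.cont1.comp_continuousOn c.cq).clm_apply cr)
  have dS := dd_int (G := fun t => p t (secVec X Y m q (fun _ => 0) v
      (fun t => y t • Y (q t) + ξ t) t)) c.adm hT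
    ((continuousOn_const (c := (1 / 2 : ℝ))).mul (c2 c.sX))
    (((continuousOn_const (c := (1 / 2 : ℝ))).mul (c2 c.sY)).add (hv.continuousOn.mul c1))
    fun τ => by
      simp only [secVec, map_add (p τ), map_smul (p τ), smul_eq_mul, Pi.mul_apply, Pi.add_apply]
      ring
  have dB := dd_int (G := fun τ => y τ ^ 2 * (m τ * p τ (br X Y [false] (q τ)))) c.adm hT
    ((hyc.pow 2).mul c.cb) (continuousOn_const (c := (0 : ℝ))) fun τ => by
      simp only [Pi.mul_apply, Pi.pow_apply]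
      ring
  have dN := (((hy.mul hy).cmul (1 / 2)).mul (c.dd_DY c.vd_Y)).add (hy.mul (c.dd_DY hs.2))
  have dη := ((c.ddη hyc).mul (c.ddη hyc)).cmul
    (p 0 (fderiv ℝ (br X Y []) (q 0) (br X Y [] (q 0))) / 2)
  have hE := fun t ht => c.E_le hyc hs (t := t) ht
  have hQX := fun t ht => c.Q_le hyc hs c.nX (t := t) ht
  have hQY := fun t ht => c.Q_le hyc hs c.nY (t := t) ht
  have hn := c.ξ_near hyc hs ⟨hT, le_rfl⟩
  have hη := c.η_le hyc ⟨hT, le_rfl⟩
  have hL := c.L_nonneg hyc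
  have dL := c.ddL hyc
  set Λ := ∫ τ in (0 : ℝ)..T, |y τ| * m τ with hΛ
  have key := dd_le c.adm ((((((dB.cmul (1 / 2)).add dN).add dη).sub dS).sub
    (dL.cmul (14 * K ^ 3 * T * Λ))).sub (DD.id.cmul (4 * K ^ 3 * Λ ^ 2))) (fun τ hτ => by
      have a1 := hE τ (Ioo_subset_Icc_self hτ)
      have a2 := abs_le.1 (hQX τ (Ioo_subset_Icc_self hτ))
      have a3 := mul_le_mul_of_nonneg_left a1 (abs_nonneg (y τ))
      rw [← abs_mul] at a3
      have a4 := (abs_le.1 a3).1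
      have e1 : br X Y [false] (q τ) = fderiv ℝ (br X Y []) (q τ) (Y (q τ)) -
        fderiv ℝ Y (q τ) (br X Y [] (q τ)) := rfl
      have e2 : br X Y [] (q τ) = fderiv ℝ X (q τ) (Y (q τ)) - fderiv ℝ Y (q τ) (X (q τ)) := rfl
      have s1 := sym2 c.sX (q τ) (ξ τ) (Y (q τ))
      have s2 := sym2 c.sY (q τ) (ξ τ) (X (q τ))
      have s3 := sym2 c.sY (q τ) (Y (q τ)) (X (q τ))
      rw [fderiv_V c.sX c.sY (q τ), s1, s2] at a4
      simp only [Pi.mul_apply, Pi.pow_apply, e1, fderiv_V c.sX c.sY (q τ), e2, s1, s3, map_add,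
        map_sub, map_smul, add_apply, smul_apply,
        smul_eq_mul] at a4 ⊢
      linarith [a2.1]) (fun τ hτ => by
      have a2 := abs_le.1 (hQY τ (Ioo_subset_Icc_self hτ))
      have s1 := sym2 c.sY (q τ) (ξ τ) (Y (q τ))
      simp only [Pi.mul_apply, Pi.add_apply, s1, map_add,
        map_smul, add_apply, smul_apply,
        smul_eq_mul]
      linarith [a2.1]) le_rfl hT le_rfl
  simp only [intervalIntegral.integral_same, y0, yT] at key
  rw [ξT, zero_sub, norm_neg, norm_smul, Real.norm_eq_abs] at hn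
  have a1 : ‖p 0 (fderiv ℝ (br X Y []) (q 0) (br X Y [] (q 0)))‖ ≤ 2 * (K * ‖br X Y [] (q 0)‖) :=
    ContinuousLinearMap.le_of_opNorm_le_of_le _ (c.pb 0 ⟨le_rfl, hT⟩)
      (ContinuousLinearMap.le_of_opNorm_le _ (c.nV.b1 _) _)
  rw [Real.norm_eq_abs] at a1
  generalize p 0 (fderiv ℝ (br X Y []) (q 0) (br X Y [] (q 0))) = c0 at *
  generalize (∫ τ in (0 : ℝ)..T, y τ * m τ) = η at *
  generalize ‖br X Y [] (q 0)‖ = ν at *
  have a2 : |c0 * (η * η)| ≤ 6 * K ^ 3 * T * Λ ^ 2 := by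
    rw [abs_mul, abs_mul]
    calc |c0| * (|η| * |η|) ≤ 2 * (K * ν) * (|η| * |η|) := by gcongr
      _ = 2 * K * (|η| * ν) * |η| := by ring
      _ ≤ 2 * K * (3 * K ^ 2 * T * Λ) * Λ := by gcongr
      _ = _ := by ring
  rw [← hΛ] at key
  linarith [(abs_le.1 a2).1]

end Ctx

theorem nice3_mono {K' : ℝ} (h : Nice3 X K) (hK : K ≤ K') : Nice3 X K' :=
  ⟨h.toNice.mono hK, h.diff2, fun y => (h.c2 y).trans hK, fun x y =>
    (h.c3 x y).trans (mul_le_mul_of_nonneg_right hK (norm_nonneg _))⟩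

theorem cs_V (hX : SC X) (hY : SC Y) : HasCompactSupport (br X Y []) := by
  refine HasCompactSupport.intro (hX.cs.isCompact.union hY.cs.isCompact) fun x hx => ?_
  rw [mem_union, not_or] at hx
  have e : br X Y [] x = fderiv ℝ X x (Y x) - fderiv ℝ Y x (X x) := rfl
  rw [e, image_eq_zero_of_notMem_tsupport hx.1, image_eq_zero_of_notMem_tsupport hx.2]
  simp

theorem exists_dep (w : Fin 4 → E3) : ∃ c : Fin 4 → ℝ, ∑ i, c i • w i = 0 ∧ ∃ i, c i ≠ 0 := by
  refine Fintype.not_linearIndependent_iff.1 fun h => ?_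
  have := h.fintype_card_le_finrank
  simp at this

end UGoh

open UGoh Pmp in
theorem goh {X Y : E3 → E3} (hX : SC X) (hY : SC Y) : ∃ C T₀, 0 < C ∧ 0 < T₀ ∧
    ∀ m q T p (h : Traj X Y m q T) (hT : T ∈ Ioc 0 T) (hp : Adjoint X Y m q p T), T ≤ T₀ →
      (∀ t ∈ Icc 0 T, ‖p t‖ ≤ 2) → Second X Y m q p T →
      (Smooth.ext hX.sm hY.sm h hT hp).SO (C * T) := by
  obtain ⟨K1, hK1, n1, n2⟩ := exists_nice3 hX hY
  obtain ⟨K2, n3⟩ := exists_nice (contDiff_br hX.sm hY.sm []) (cs_V hX hY)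
  have hK : 0 < max K1 K2 := lt_max_of_lt_left hK1
  set K := max K1 K2 with hKdef
  refine ⟨168 * K ^ 3, 1 / (4 * K), by positivity, by positivity, ?_⟩
  intro m q T p h hT hp hT0 hpb h2 ψ hψ hdis h0
  have c : Ctx X Y K m q T p := ⟨hX.sm, hY.sm, nice3_mono n1 (le_max_left _ _),
    nice3_mono n2 (le_max_left _ _), n3.mono (le_max_right _ _), h, hp, by
      rw [le_div_iff₀ (by positivity)] at hT0
      linarith, hpb⟩
  set e := Smooth.ext hX.sm hY.sm h hT hp with he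
  have dz : DD m e.z (fun _ => 0) (fun _ => 1) 0 T := e.dz
  have z0 : e.z 0 = 0 := e.z0
  have zc := dz.cont c.T0
  have zl : ∃ C, LipschitzOnWith C e.z (Icc 0 T) := by
    refine ⟨2, LipschitzOnWith.of_dist_le_mul fun s hs t ht => ?_⟩
    have a1 := prim_lip (f := m) (B := 1) h.meas.aestronglyMeasurable (fun t _ => by
      rw [Real.norm_eq_abs, abs_of_nonneg (h.m0 t)]; exact h.m1 t) ⟨le_rfl, c.T0⟩ ht hs
    change |(s - ∫ τ in (0 : ℝ)..s, m τ) - (t - ∫ τ in (0 : ℝ)..t, m τ)| ≤ (2 : ℝ) * |s - t|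
    rw [Real.norm_eq_abs, one_mul, abs_le] at a1
    have a2 := abs_le.1 (le_refl |s - t|)
    exact abs_le.2 ⟨by linarith [a1.2, a2.1], by linarith [a1.1, a2.2]⟩
  change ∃ i, ∫ τ in (0 : ℝ)..T, ψ i (e.z τ) ^ 2 * (m τ * p τ (br X Y [false] (q τ))) ≤
      168 * K ^ 3 * T * (∫ τ in (0 : ℝ)..T, |ψ i (e.z τ)| * m τ) ^ 2
  change ∀ i, ψ i 0 = 0 ∧ ψ i (e.z T) = 0 at h0
  generalize e.z = z at *
  have yc : ∀ i, ContinuousOn (fun t => ψ i (z t)) (Icc 0 T) := fun i =>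
    (hψ i).continuous.comp_continuousOn zc
  choose ξ hξ using fun i => c.exists_sol (yc i)
  obtain ⟨a, ha, i0, hi0⟩ := exists_dep fun i => ξ i T
  set Ψ : ℝ → ℝ := fun s => a 0 * ψ 0 s + a 1 * ψ 1 s + a 2 * ψ 2 s + a 3 * ψ 3 s with hΨ
  have sΨ : ContDiff ℝ 1 Ψ := (((contDiff_const.mul (hψ 0)).add (contDiff_const.mul (hψ 1))).add
    (contDiff_const.mul (hψ 2))).add (contDiff_const.mul (hψ 3))
  have hs : Sol X Y m q T (fun t => Ψ (z t))
      (fun t => a 0 • ξ 0 t + a 1 • ξ 1 t + a 2 • ξ 2 t + a 3 • ξ 3 t) :=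
    ((((hξ 0).smul (a 0)).add ((hξ 1).smul (a 1))).add ((hξ 2).smul (a 2))).add
      ((hξ 3).smul (a 3))
  have dc : Continuous (deriv Ψ) := sΨ.continuous_deriv le_rfl
  obtain ⟨B, hB⟩ := isCompact_Icc.exists_bound_of_continuousOn (dc.comp_continuousOn zc)
  obtain ⟨Cz, hCz⟩ := zl
  have main := c.core h2 (y := fun t => Ψ (z t)) (v := fun t => deriv Ψ (z (cl T t)))
    ((dz.comp c.T0 (U := univ) sΨ.contDiffOn
      (fun s _ => (sΨ.differentiable one_ne_zero s).hasDerivAt) fun _ _ => mem_univ _).congr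
      (fun _ _ => by ring) fun τ hτ => by rw [cl_eq (Ioo_subset_Icc_self hτ)]; ring)
    (Smooth.lip_comp hCz fun _ _ => sΨ.contDiffAt) (dc.comp (cont_cl c.T0 zc))
    ⟨B, fun t => hB _ (cl_mem c.T0 t)⟩ (by simp [hΨ, z0, h0]) (by simp [hΨ, h0]) hs
    (by simpa [Fin.sum_univ_four] using ha)
  have iB : ∀ i, IntervalIntegrable
      (fun τ => ψ i (z τ) ^ 2 * (m τ * p τ (br X Y [false] (q τ)))) volume 0 T := fun i =>
    ii_mix c.adm c.T0 (((yc i).pow 2).mul c.cb) (continuousOn_const (c := (0 : ℝ))) fun τ => by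
      simp only [Pi.mul_apply, Pi.pow_apply]
      ring
  have iL : ∀ {y : ℝ → ℝ}, ContinuousOn y (Icc 0 T) →
      IntervalIntegrable (fun τ => |y τ| * m τ) volume 0 T := fun hy =>
    ii_mix c.adm c.T0 hy.abs (continuousOn_const (c := (0 : ℝ))) fun τ => by ring
  have eB : ∫ τ in (0 : ℝ)..T, Ψ (z τ) ^ 2 * (m τ * p τ (br X Y [false] (q τ))) =
      ∑ i, a i ^ 2 * ∫ τ in (0 : ℝ)..T, ψ i (z τ) ^ 2 * (m τ * p τ (br X Y [false] (q τ))) := by
    simp only [← intervalIntegral.integral_const_mul]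
    rw [← intervalIntegral.integral_finsetSum fun i _ => (iB i).const_mul _]
    congr 1
    funext τ
    have h01 := hdis 0 1 (by decide) (z τ)
    have h02 := hdis 0 2 (by decide) (z τ)
    have h03 := hdis 0 3 (by decide) (z τ)
    have h12 := hdis 1 2 (by decide) (z τ)
    have h13 := hdis 1 3 (by decide) (z τ)
    have h23 := hdis 2 3 (by decide) (z τ)
    simp only [Fin.sum_univ_four, hΨ]
    generalize m τ * p τ (br X Y [false] (q τ)) = w
    linear_combination 2 * w * (a 0 * a 1 * h01 + a 0 * a 2 * h02 + a 0 * a 3 * h03 +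
      a 1 * a 2 * h12 + a 1 * a 3 * h13 + a 2 * a 3 * h23)
  have eL : ∫ τ in (0 : ℝ)..T, |Ψ (z τ)| * m τ ≤
      ∑ i, |a i| * ∫ τ in (0 : ℝ)..T, |ψ i (z τ)| * m τ := by
    simp only [← intervalIntegral.integral_const_mul]
    rw [← intervalIntegral.integral_finsetSum fun i _ => (iL (yc i)).const_mul _]
    refine intervalIntegral.integral_mono_on c.T0 (iL (sΨ.continuous.comp_continuousOn zc))
      ((IntervalIntegrable.sum Finset.univ fun i _ => (iL (yc i)).const_mul |a i|).congr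
        fun τ _ => by simp) fun τ _ => ?_
    simp only [Fin.sum_univ_four, hΨ, ← mul_assoc, ← abs_mul, ← add_mul]
    refine mul_le_mul_of_nonneg_right ?_ (h.m0 τ)
    refine (abs_add_le _ _).trans (add_le_add_left ?_ _)
    exact (abs_add_le _ _).trans (add_le_add_left (abs_add_le _ _) _)
  have hL := c.L_nonneg (sΨ.continuous.comp_continuousOn zc)
  by_contra hcon
  push Not at hcon
  have lt : ∑ i, a i ^ 2 * (168 * K ^ 3 * T * (∫ τ in (0 : ℝ)..T, |ψ i (z τ)| * m τ) ^ 2) <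
      ∑ i, a i ^ 2 * ∫ τ in (0 : ℝ)..T, ψ i (z τ) ^ 2 * (m τ * p τ (br X Y [false] (q τ))) :=
    Finset.sum_lt_sum (fun i _ => mul_le_mul_of_nonneg_left (hcon i).le (sq_nonneg _))
      ⟨i0, Finset.mem_univ _, mul_lt_mul_of_pos_left (hcon i0) (by positivity)⟩
  have sq : (∫ τ in (0 : ℝ)..T, |Ψ (z τ)| * m τ) ^ 2 ≤
      4 * ∑ i, a i ^ 2 * (∫ τ in (0 : ℝ)..T, |ψ i (z τ)| * m τ) ^ 2 := by
    refine (pow_le_pow_left₀ hL eL 2).trans ?_
    have := sq_sum_le_card_mul_sum_sq (s := Finset.univ)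
      (f := fun i => |a i| * ∫ τ in (0 : ℝ)..T, |ψ i (z τ)| * m τ)
    simpa [mul_pow] using this
  have hpos : 0 ≤ 42 * K ^ 3 * T := by have := c.T0; positivity
  have fin := mul_le_mul_of_nonneg_left sq hpos
  rw [eB] at main
  simp only [Fin.sum_univ_four] at lt fin main
  linarith

end Pool.Agent.Lib.MP_f4f7c0_an
end
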