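import Pool.Agent.Lib.MP_f4f7c0_an.UGoh

/-! The maximum principle on an arbitrary interval, with a second order condition. -/

namespace Pool.Agent.Lib.MP_f4f7c0_an

open Set Filter Topology MeasureTheory
open scoped ContDiff

namespace UPmp
open Pmp Metric

variable {X Y : E3 → E3} {K T M : ℝ} {m : ℝ → ℝ} {q : ℝ → E3} {P : ℝ → E3 →L[ℝ] E3}

theorem key2 (h : Nice X K) {x y : E3} {μ a n η C : ℝ} (hC : 1 ≤ C) (hη : 0 ≤ η) (hμ : |μ| ≤ 1)
    (ha : |a| ≤ C) (hn : |n - (μ + η * a)| ≤ C * η ^ 2) (hy : ‖y - x‖ ≤ C * η) :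
    ‖n • X y - μ • X x - μ • fderiv ℝ X x (y - x) - (η * a) • X x‖ ≤ 3 * K * C ^ 2 * η ^ 2 := by
  have hK := h.nonneg
  have e : n • X y - μ • X x - μ • fderiv ℝ X x (y - x) - (η * a) • X x =
      μ • (X y - X x - fderiv ℝ X x (y - x)) + (η * a) • (X y - X x) + (n - (μ + η * a)) • X y := by
    module
  have a1 : ‖μ • (X y - X x - fderiv ℝ X x (y - x))‖ ≤ 1 * (K * (C * η) * (C * η)) := by
    rw [norm_smul]
    exact mul_le_mul hμ ((h.taylor x y).trans (by gcongr)) (norm_nonneg _) zero_le_one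
  have a2 : ‖(η * a) • (X y - X x)‖ ≤ η * C * (K * (C * η)) := by
    rw [norm_smul, Real.norm_eq_abs, abs_mul, abs_of_nonneg hη]
    exact mul_le_mul (by gcongr) ((h.lip x y).trans (by gcongr)) (norm_nonneg _) (by positivity)
  have a3 : ‖(n - (μ + η * a)) • X y‖ ≤ C * η ^ 2 * K := by
    rw [norm_smul]
    exact mul_le_mul hn (h.b0 y) (norm_nonneg _) (by positivity)
  have a4 : C * η ^ 2 * K ≤ C ^ 2 * η ^ 2 * K := by gcongr; nlinarith
  rw [e]
  linarith [norm_add₃_le (a := μ • (X y - X x - fderiv ℝ X x (y - x))) (b := (η * a) • (X y - X x))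
    (c := (n - (μ + η * a)) • X y)]

theorem key3 (h : Nice3 X K) {x y r : E3} {μ a b n η C : ℝ} (hC : 1 ≤ C) (hη : 0 ≤ η)
    (hμ : |μ| ≤ 1) (ha : |a| ≤ C) (hb : |b| ≤ 1) (hn : |n - (μ + η * a + η ^ 2 * b)| ≤ C * η ^ 3)
    (hr : ‖r‖ ≤ C) (hy : ‖y - x‖ ≤ C * η) (he : ‖y - x - η • r‖ ≤ C * η ^ 2) :
    ‖n • X y - μ • X x - μ • fderiv ℝ X x (y - x) - (η * a) • X x - η ^ 2 •
      ((1 / 2 : ℝ) • μ • fderiv ℝ (fderiv ℝ X) x r r + a • fderiv ℝ X x r + b • X x)‖ ≤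
      6 * K * C ^ 3 * η ^ 3 := by
  have hK := h.toNice.nonneg
  set D := fderiv ℝ (fderiv ℝ X) x with hD
  set ε := y - x - η • r with hε
  have hyx : y - x = η • r + ε := by rw [hε]; abel
  have e : n • X y - μ • X x - μ • fderiv ℝ X x (y - x) - (η * a) • X x - η ^ 2 •
      ((1 / 2 : ℝ) • μ • D r r + a • fderiv ℝ X x r + b • X x) =
      (μ • (X y - X x - fderiv ℝ X x (y - x) - (1 / 2 : ℝ) • D (y - x) (y - x)) +
        (μ / 2) • (D ε (y - x) + η • D r ε) +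
        (η * a) • (X y - X x - fderiv ℝ X x (y - x) + fderiv ℝ X x ε)) +
      (η ^ 2 * b) • (X y - X x) + (n - (μ + η * a + η ^ 2 * b)) • X y := by
    rw [hyx]
    simp only [map_add, map_smul, add_apply, smul_apply]
    module
  have a1 : ‖μ • (X y - X x - fderiv ℝ X x (y - x) - (1 / 2 : ℝ) • D (y - x) (y - x))‖ ≤
      1 * (K * (C * η) ^ 3) := by
    rw [norm_smul]
    exact mul_le_mul hμ ((h.taylor2 x y).trans (by gcongr)) (norm_nonneg _) zero_le_one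
  have b1 : ‖D ε (y - x)‖ ≤ K * (C * η ^ 2) * (C * η) :=
    (D.le_opNorm₂ _ _).trans (by gcongr; exact h.c2 x)
  have b2 : ‖η • D r ε‖ ≤ η * (K * C * (C * η ^ 2)) := by
    rw [norm_smul, Real.norm_of_nonneg hη]
    exact mul_le_mul_of_nonneg_left ((D.le_opNorm₂ _ _).trans (by gcongr; exact h.c2 x)) hη
  have a2 : ‖(μ / 2) • (D ε (y - x) + η • D r ε)‖ ≤
      1 / 2 * (K * (C * η ^ 2) * (C * η) + η * (K * C * (C * η ^ 2))) := by
    rw [norm_smul, Real.norm_eq_abs, abs_div, abs_two]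
    exact mul_le_mul (by linarith) ((norm_add_le _ _).trans (add_le_add b1 b2)) (norm_nonneg _)
      (by norm_num)
  have b3 : ‖X y - X x - fderiv ℝ X x (y - x)‖ ≤ K * (C * η) * (C * η) :=
    (h.toNice.taylor x y).trans (by gcongr)
  have b4 : ‖fderiv ℝ X x ε‖ ≤ K * (C * η ^ 2) := (fderiv ℝ X x).le_of_opNorm_le_of_le (h.b1 x) he
  have a3 : ‖(η * a) • (X y - X x - fderiv ℝ X x (y - x) + fderiv ℝ X x ε)‖ ≤
      η * C * (K * (C * η) * (C * η) + K * (C * η ^ 2)) := by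
    rw [norm_smul, Real.norm_eq_abs, abs_mul, abs_of_nonneg hη]
    exact mul_le_mul (by gcongr) ((norm_add_le _ _).trans (add_le_add b3 b4)) (norm_nonneg _)
      (by positivity)
  have a4 : ‖(η ^ 2 * b) • (X y - X x)‖ ≤ η ^ 2 * 1 * (K * (C * η)) := by
    rw [norm_smul, Real.norm_eq_abs, abs_mul, abs_of_nonneg (sq_nonneg η)]
    exact mul_le_mul (by gcongr) ((h.toNice.lip x y).trans (by gcongr)) (norm_nonneg _)
      (by positivity)
  have a5 : ‖(n - (μ + η * a + η ^ 2 * b)) • X y‖ ≤ C * η ^ 3 * K := by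
    rw [norm_smul]
    exact mul_le_mul hn (h.b0 y) (norm_nonneg _) (by positivity)
  have c1 : C ≤ C ^ 2 := by nlinarith
  have c2 : C ^ 2 ≤ C ^ 3 := by nlinarith
  have c3 : K * η ^ 3 * C ≤ K * η ^ 3 * C ^ 3 := by gcongr; linarith
  have c4 : K * η ^ 3 * C ^ 2 ≤ K * η ^ 3 * C ^ 3 := by gcongr
  rw [e]
  refine norm_add₃_le.trans ((add_le_add (add_le_add
    (norm_add₃_le.trans (add_le_add (add_le_add a1 a2) a3)) a4) a5).trans ?_)
  nlinarith

theorem gron0 {w : ℝ → E3} {b : ℝ} (hK : 0 ≤ K) (h0 : w 0 = 0)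
    (hw : ∃ C, LipschitzOnWith C w (Icc 0 T)) (hb : 0 ≤ b)
    (h : ∀ᵐ t, t ∈ Ioo 0 T → ∃ w', HasDerivAt w w' t ∧ ‖w'‖ ≤ 2 * K * ‖w t‖ + b) :
    ∀ t ∈ Icc 0 T, ‖w t‖ ≤ b * (2 * T * Real.exp (4 * K * T)) := fun t ht => by
  refine (gronT h0 hw (by positivity) hb h t ht).trans (le_of_eq ?_)
  rw [sub_zero, show 2 * (2 * K) * T = 4 * K * T by ring]
  ring

theorem norm_mix2 {a b B : ℝ} {u v : E3} (ha : 0 ≤ a) (hb : 0 ≤ b) (h : a + b ≤ 2) (hu : ‖u‖ ≤ B)
    (hv : ‖v‖ ≤ B) : ‖a • u + b • v‖ ≤ 2 * B := by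
  refine (norm_add_le _ _).trans ?_
  rw [norm_smul, norm_smul, Real.norm_of_nonneg ha, Real.norm_of_nonneg hb]
  nlinarith [mul_le_mul_of_nonneg_left hu ha, mul_le_mul_of_nonneg_left hv hb,
    (norm_nonneg u).trans hu]

theorem closeT (hX : Nice X K) (hY : Nice Y K) {n₁ n₂ k₁ k₂ : ℝ → ℝ} {z z' : ℝ → E3}
    (hz : GTraj X Y n₁ n₂ z T) (hz' : GTraj X Y k₁ k₂ z' T) (h0 : z 0 = z' 0) {ρ : ℝ}
    (h1 : ∀ t, |n₁ t - k₁ t| ≤ ρ) (h2 : ∀ t, |n₂ t - k₂ t| ≤ ρ) :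
    ∀ t ∈ Icc 0 T, ‖z t - z' t‖ ≤ 2 * K * ρ * (2 * T * Real.exp (4 * K * T)) := by
  have hρ0 : 0 ≤ ρ := (abs_nonneg _).trans (h1 0)
  have hK := hX.nonneg
  obtain ⟨C, hC⟩ := hz.lip
  obtain ⟨C', hC'⟩ := hz'.lip
  refine gron0 (w := fun t => z t - z' t) hK (sub_eq_zero.2 h0) ⟨_, hC.sub hC'⟩ (by positivity) ?_
  filter_upwards [hz.ode, hz'.ode] with τ a1 a2 hm
  refine ⟨_, (a1 hm).sub (a2 hm), ?_⟩
  have h3 := norm_mix2 (hz.p1 τ) (hz.p2 τ) (hz.hi τ) (hX.lip (z' τ) (z τ)) (hY.lip (z' τ) (z τ))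
  have h4 : ‖(n₁ τ - k₁ τ) • X (z' τ)‖ ≤ ρ * K := by
    rw [norm_smul]
    exact mul_le_mul (h1 τ) (hX.b0 _) (norm_nonneg _) hρ0
  have h5 : ‖(n₂ τ - k₂ τ) • Y (z' τ)‖ ≤ ρ * K := by
    rw [norm_smul]
    exact mul_le_mul (h2 τ) (hY.b0 _) (norm_nonneg _) hρ0
  refine le_trans (le_of_eq ?_) (norm_add₃_le.trans ((add_le_add (add_le_add h3 h4) h5).trans
    (le_of_eq (by ring))))
  congr 1
  module

theorem exists_gtraj (hX : Nice X K) (hY : Nice Y K) (hT : 0 ≤ T) {n₁ n₂ : ℝ → ℝ}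
    (m1 : Measurable n₁) (m2 : Measurable n₂) (p1 : ∀ t, 0 ≤ n₁ t) (p2 : ∀ t, 0 ≤ n₂ t)
    (lo : ∀ t, 1 / 4 ≤ n₁ t + n₂ t) (hi : ∀ t, n₁ t + n₂ t ≤ 2) (y0 : E3) :
    ∃ z, GTraj X Y n₁ n₂ z T ∧ z 0 = y0 := by
  have hK := hX.nonneg
  refine (exists_solT (F := fun t y => n₁ t • X y + n₂ t • Y y) (B := 2 * K) (L := 2 * K)
    (left_mem_Icc.2 hT) y0 (by positivity) (fun y hy => ?_)
    (fun t _ => norm_mix2 (p1 t) (p2 t) (hi t) (hX.b0 _) (hY.b0 _)) fun t _ v w => ?_).imp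
    fun z h => ⟨⟨hT, m1, m2, p1, p2, lo, hi, h.1.imp fun _ h => h.lipschitzOnWith, h.2.2⟩, h.2.1⟩
  · exact (m1.aestronglyMeasurable.smul (hX.diff.continuous.comp hy).aestronglyMeasurable).add
      (m2.aestronglyMeasurable.smul (hY.diff.continuous.comp hy).aestronglyMeasurable)
  · have := norm_mix2 (p1 t) (p2 t) (hi t) (hX.lip w v) (hY.lip w v)
    refine le_trans (le_of_eq ?_) (this.trans (le_of_eq (by ring)))
    congr 1
    module

/-- The data of the variational argument. -/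
structure DataT (X Y : E3 → E3) (K T M : ℝ) (m : ℝ → ℝ) (q : ℝ → E3) (P : ℝ → E3 →L[ℝ] E3) :
    Prop where
  hX : Nice3 X K
  hY : Nice3 Y K
  pos : 0 < T
  traj : Traj X Y m q T
  cont : Continuous q
  lip : ∃ C, LipschitzWith C P
  fin : P T = ContinuousLinearMap.id ℝ E3
  ode : ∀ᵐ t, t ∈ Ioo 0 T → HasDerivAt P
    (-(P t).comp (m t • fderiv ℝ X (q t) + (1 - m t) • fderiv ℝ Y (q t))) t
  bound : ∀ t ∈ Icc 0 T, ‖P t‖ ≤ M

theorem exists_dataT (hX : Nice3 X K) (hY : Nice3 Y K) (hT : 0 < T) (h : Traj X Y m q T)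
    (hq : Continuous q) : ∃ M P, DataT X Y K T M m q P := by
  have hA : ∀ t, ‖m t • fderiv ℝ X (q t) + (1 - m t) • fderiv ℝ Y (q t)‖ ≤ K := fun t =>
    norm_mix (h.m0 t) (h.m1 t) (hX.b1 _) (hY.b1 _)
  obtain ⟨P, g1, g2, g3⟩ := exists_solT (F := fun t (P : E3 →L[ℝ] E3) =>
    -P.comp (m t • fderiv ℝ X (q t) + (1 - m t) • fderiv ℝ Y (q t)))
    (B := 0) (right_mem_Icc.2 h.nonneg) (ContinuousLinearMap.id ℝ E3) hX.toNice.nonneg
    (fun y hy => by
      refine AEStronglyMeasurable.neg ?_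
      exact (ContinuousLinearMap.compL ℝ E3 E3 E3).aestronglyMeasurable_comp₂
        hy.aestronglyMeasurable
        ((h.meas.aestronglyMeasurable.smul (hX.toNice.cont1.comp hq).aestronglyMeasurable).add
          ((measurable_const.sub h.meas).aestronglyMeasurable.smul
            (hY.toNice.cont1.comp hq).aestronglyMeasurable)))
    (fun t _ => by rw [ContinuousLinearMap.zero_comp, neg_zero, norm_zero])
    fun t _ v w => by
      rw [neg_sub_neg, ← ContinuousLinearMap.sub_comp, norm_sub_rev v, mul_comm]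
      exact (ContinuousLinearMap.opNorm_comp_le _ _).trans
        (mul_le_mul_of_nonneg_left (hA t) (norm_nonneg _))
  obtain ⟨C, hC⟩ := id g1
  obtain ⟨M, hM⟩ := (isCompact_Icc (a := 0) (b := T)).exists_bound_of_continuousOn
    hC.continuous.continuousOn
  exact ⟨M, P, hX, hY, hT, h, hq, g1, g2, g3, hM⟩

theorem cont2 (h : Nice3 X K) : Continuous (fderiv ℝ (fderiv ℝ X)) :=
  (LipschitzWith.of_dist_le' (f := fderiv ℝ (fderiv ℝ X)) (K := K) fun x y => by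
    rw [dist_eq_norm x y]
    exact (dist_eq_norm (fderiv ℝ (fderiv ℝ X) x) (fderiv ℝ (fderiv ℝ X) y)).trans_le
      (h.c3 y x)).continuous

/-- The first order variations of the end point. -/
def Kset (X Y : E3 → E3) (T : ℝ) (m : ℝ → ℝ) (q : ℝ → E3) (P : ℝ → E3 →L[ℝ] E3) : Set E3 :=
  {x | ∃ v, Adm v ∧ x = ∫ t in 0..T, (v t - m t) • P t (X (q t) - Y (q t))}

/-- The admissible triples. -/
def Var (X Y : E3 → E3) (T : ℝ) (m : ℝ → ℝ) (q : ℝ → E3) : Set ((ℝ → ℝ) × (ℝ → ℝ) × (ℝ → E3)) :=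
  {x | IsVar X Y m q T x.1 x.2.1 x.2.2 ∧ Continuous x.2.2}

/-- The second order variation of the end point. -/
noncomputable def dd (X Y : E3 → E3) (T : ℝ) (m : ℝ → ℝ) (q : ℝ → E3) (P : ℝ → E3 →L[ℝ] E3)
    (x : (ℝ → ℝ) × (ℝ → ℝ) × (ℝ → E3)) : E3 :=
  ∫ t in 0..T, P t (secVec X Y m q x.1 x.2.1 x.2.2 t)

theorem var_bd {x : (ℝ → ℝ) × (ℝ → ℝ) × (ℝ → E3)} (h : x ∈ Var X Y T m q) :
    ∃ C, 1 ≤ C ∧ (∀ t, |x.1 t| ≤ C ∧ |x.2.1 t| ≤ C) ∧ ∀ t ∈ Icc 0 T, ‖x.2.2 t‖ ≤ C := by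
  obtain ⟨B, hB⟩ := h.1.bd
  obtain ⟨C, hC⟩ := (isCompact_Icc (a := 0) (b := T)).exists_bound_of_continuousOn h.2.continuousOn
  exact ⟨max 1 (max B C), le_max_left _ _, fun t =>
    ⟨(hB t).1.trans ((le_max_left _ _).trans (le_max_right _ _)),
      (hB t).2.trans ((le_max_left _ _).trans (le_max_right _ _))⟩,
    fun t ht => (hC t ht).trans ((le_max_right _ _).trans (le_max_right _ _))⟩

namespace DataT
variable (D : DataT X Y K T M m q P) {x y : (ℝ → ℝ) × (ℝ → ℝ) × (ℝ → E3)}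
include D

theorem adm : Adm m := ⟨D.traj.meas, fun t => ⟨D.traj.m0 t, D.traj.m1 t⟩⟩

theorem l0 : (0 : ℝ) ∈ Icc 0 T := left_mem_Icc.2 D.pos.le

theorem lT : T ∈ Icc 0 T := right_mem_Icc.2 D.pos.le

theorem gtraj : GTraj X Y m (fun t => 1 - m t) q T :=
  ⟨D.pos.le, D.traj.meas, measurable_const.sub D.traj.meas, D.traj.m0,
    fun t => sub_nonneg.2 (D.traj.m1 t), fun t => by norm_num, fun t => by norm_num, D.traj.lip,
    D.traj.ode⟩

theorem contP : Continuous P := by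
  obtain ⟨C, hC⟩ := D.lip
  exact hC.continuous

theorem contH : Continuous fun t => P t (X (q t) - Y (q t)) :=
  D.contP.clm_apply ((D.hX.diff.continuous.comp D.cont).sub (D.hY.diff.continuous.comp D.cont))

theorem measH {v : ℝ → ℝ} (hv : Adm v) :
    AEStronglyMeasurable (fun t => (v t - m t) • P t (X (q t) - Y (q t))) volume :=
  (hv.1.sub D.traj.meas).aestronglyMeasurable.smul D.contH.aestronglyMeasurable

theorem boundH {v : ℝ → ℝ} (hv : Adm v) :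
    ∀ t ∈ Icc 0 T, ‖(v t - m t) • P t (X (q t) - Y (q t))‖ ≤ M * (2 * K) := by
  intro t ht
  rw [norm_smul]
  exact (mul_le_of_le_one_left (norm_nonneg _) (hv.abs_sub D.adm t)).trans
    ((P t).le_of_opNorm_le_of_le (D.bound t ht) (norm_diff D.hX.toNice D.hY.toNice _))

theorem iiH {v : ℝ → ℝ} (hv : Adm v) :
    IntervalIntegrable (fun t => (v t - m t) • P t (X (q t) - Y (q t))) volume 0 T :=
  ii_of_bound (D.measH hv) (D.boundH hv) D.l0 D.lT

theorem measS (h : x ∈ Var X Y T m q) :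
    AEStronglyMeasurable (fun t => P t (secVec X Y m q x.1 x.2.1 x.2.2 t)) volume := by
  have hm := D.traj.meas
  have hm' : Measurable fun t => 1 - m t := measurable_const.sub hm
  refine (ContinuousLinearMap.id ℝ (E3 →L[ℝ] E3)).aestronglyMeasurable_comp₂
    D.contP.aestronglyMeasurable ?_
  exact ((hm.aestronglyMeasurable.smul ((((cont2 D.hX).comp D.cont).clm_apply h.2).clm_apply
    h.2).aestronglyMeasurable).add (hm'.aestronglyMeasurable.smul
    ((((cont2 D.hY).comp D.cont).clm_apply h.2).clm_apply h.2).aestronglyMeasurable)).const_smul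
    (1 / 2 : ℝ) |>.add (((hm.mul h.1.mu).aestronglyMeasurable.smul
      ((D.hX.toNice.cont1.comp D.cont).clm_apply h.2).aestronglyMeasurable).add
      ((hm'.mul h.1.mv).aestronglyMeasurable.smul
        ((D.hY.toNice.cont1.comp D.cont).clm_apply h.2).aestronglyMeasurable))

theorem boundS (h : x ∈ Var X Y T m q) :
    ∃ B, ∀ t ∈ Icc 0 T, ‖P t (secVec X Y m q x.1 x.2.1 x.2.2 t)‖ ≤ B := by
  obtain ⟨C, hC, h1, h2⟩ := var_bd h
  have hK := D.hX.toNice.nonneg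
  refine ⟨M * (1 / 2 * (K * C * C) + C * (K * C)), fun t ht =>
    (P t).le_of_opNorm_le_of_le (D.bound t ht) ((norm_add_le _ _).trans (add_le_add ?_ ?_))⟩
  · have a : ∀ {Z : E3 → E3}, Nice3 Z K →
        ‖fderiv ℝ (fderiv ℝ Z) (q t) (x.2.2 t) (x.2.2 t)‖ ≤ K * C * C := fun hZ =>
      (ContinuousLinearMap.le_opNorm₂ _ _ _).trans (by
        have := h2 t ht
        gcongr
        exact hZ.c2 _)
    rw [norm_smul, Real.norm_of_nonneg (by norm_num)]
    exact mul_le_mul_of_nonneg_left (norm_mix (D.traj.m0 t) (D.traj.m1 t) (a D.hX) (a D.hY))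
      (by norm_num)
  · have a : ∀ {Z : E3 → E3} {c : ℝ}, Nice3 Z K → |c| ≤ C →
        ‖c • fderiv ℝ Z (q t) (x.2.2 t)‖ ≤ C * (K * C) := fun hZ hc => by
      rw [norm_smul]
      exact mul_le_mul hc (ContinuousLinearMap.le_of_opNorm_le_of_le _ (hZ.b1 _) (h2 t ht))
        (norm_nonneg _) (by linarith)
    rw [mul_smul, mul_smul]
    exact norm_mix (D.traj.m0 t) (D.traj.m1 t) (a D.hX (h1 t).1) (a D.hY (h1 t).2)

theorem iiS (h : x ∈ Var X Y T m q) :
    IntervalIntegrable (fun t => P t (secVec X Y m q x.1 x.2.1 x.2.2 t)) volume 0 T := by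
  obtain ⟨B, hB⟩ := D.boundS h
  exact ii_of_bound (D.measS h) hB D.l0 D.lT

theorem iiT (h : x ∈ Var X Y T m q) :
    IntervalIntegrable (fun t => m t * x.1 t + (1 - m t) * x.2.1 t) volume 0 T := by
  obtain ⟨C, -, h1, -⟩ := var_bd h
  exact ii_of_bound (B := C) ((D.traj.meas.mul h.1.mu).add
    ((measurable_const.sub D.traj.meas).mul h.1.mv)).aestronglyMeasurable
    (fun t _ => norm_mix (V := ℝ) (D.traj.m0 t) (D.traj.m1 t) (h1 t).1 (h1 t).2) D.l0 D.lT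

theorem var_lin (hx : x ∈ Var X Y T m q) (hy : y ∈ Var X Y T m q) (a b : ℝ) :
    a • x + b • y ∈ Var X Y T m q := by
  obtain ⟨C, -, h1, -⟩ := var_bd hx
  obtain ⟨C', -, h2, -⟩ := var_bd hy
  obtain ⟨L, hL⟩ := hx.1.lip
  obtain ⟨L', hL'⟩ := hy.1.lip
  have k : ∀ u v : ℝ, |u| ≤ C → |v| ≤ C' → |a * u + b * v| ≤ |a| * C + |b| * C' := fun u v hu hv =>
    (abs_add_le _ _).trans (by rw [abs_mul, abs_mul]; gcongr)
  refine ⟨⟨(hx.1.mu.const_smul a).add (hy.1.mu.const_smul b),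
    (hx.1.mv.const_smul a).add (hy.1.mv.const_smul b),
    ⟨_, fun t => ⟨k _ _ (h1 t).1 (h2 t).1, k _ _ (h1 t).2 (h2 t).2⟩⟩,
    ⟨_, ((lipschitzWith_smul a).comp_lipschitzOnWith hL).add
      ((lipschitzWith_smul b).comp_lipschitzOnWith hL')⟩, by simp [hx.1.r0, hy.1.r0],
    by simp [hx.1.rT, hy.1.rT], ?_, ?_⟩, (hx.2.const_smul a).add (hy.2.const_smul b)⟩
  · filter_upwards [hx.1.ode, hy.1.ode] with t a1 a2 hm
    refine (((a1 hm).const_smul a).add ((a2 hm).const_smul b)).congr_deriv ?_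
    simp only [Prod.fst_add, Prod.snd_add, Prod.smul_fst, Prod.smul_snd, Pi.add_apply,
      Pi.smul_apply, smul_eq_mul, map_add, map_smul]
    module
  · have := intervalIntegral.integral_add ((D.iiT hx).const_mul a) ((D.iiT hy).const_mul b)
    rw [intervalIntegral.integral_const_mul, intervalIntegral.integral_const_mul, hx.1.tot,
      hy.1.tot, mul_zero, mul_zero, add_zero] at this
    refine (intervalIntegral.integral_congr fun t _ => ?_).trans this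
    simp only [Prod.fst_add, Prod.snd_add, Prod.smul_fst, Prod.smul_snd, Pi.add_apply,
      Pi.smul_apply, smul_eq_mul]
    ring

omit D in
theorem var_zero : (0 : (ℝ → ℝ) × (ℝ → ℝ) × (ℝ → E3)) ∈ Var X Y T m q :=
  ⟨⟨measurable_const, measurable_const, ⟨0, fun t => by simp⟩,
    ⟨0, (LipschitzWith.const _).lipschitzOnWith⟩, rfl, rfl,
    Eventually.of_forall fun t _ => by simp, by simp⟩,
    continuous_const⟩

omit D in
theorem dd_zero : dd X Y T m q P 0 = 0 := by simp [dd, secVec]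

theorem dd_quad (hx : x ∈ Var X Y T m q) (hy : y ∈ Var X Y T m q) (a b : ℝ) :
    dd X Y T m q P (a • x + b • y) = a ^ 2 • dd X Y T m q P x +
      (a * b) • (dd X Y T m q P ((1 : ℝ) • x + (1 : ℝ) • y) - dd X Y T m q P x -
        dd X Y T m q P y) + b ^ 2 • dd X Y T m q P y := by
  have i1 := D.iiS hx
  have i2 := D.iiS hy
  have i3 := D.iiS (D.var_lin hx hy 1 1)
  have s : ∀ {f : ℝ → E3} (c : ℝ), IntervalIntegrable f volume 0 T →
      IntervalIntegrable (fun t => c • f t) volume 0 T := fun c h => h.smul c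
  unfold dd
  rw [← intervalIntegral.integral_sub i3 i1, ← intervalIntegral.integral_sub (i3.sub i1) i2,
    ← intervalIntegral.integral_smul, ← intervalIntegral.integral_smul,
    ← intervalIntegral.integral_smul,
    ← intervalIntegral.integral_add (s _ i1) (s _ ((i3.sub i1).sub i2)),
    ← intervalIntegral.integral_add ((s _ i1).add (s _ ((i3.sub i1).sub i2))) (s _ i2)]
  refine intervalIntegral.integral_congr fun t _ => ?_
  simp only [secVec, Prod.fst_add, Prod.snd_add, Prod.smul_fst, Prod.smul_snd, Pi.add_apply,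
    Pi.smul_apply, smul_eq_mul, map_add, map_smul, add_apply, smul_apply]
  module

theorem expand (hx : x ∈ Var X Y T m q) (R : ℝ) : ∃ C, 0 < C ∧ ∀ η, 0 ≤ η → η ≤ 1 →
    ∀ w n₁ n₂ z, Adm w → GTraj X Y n₁ n₂ z T → z 0 = q 0 →
    (∀ t, |n₁ t - (m t + η * (m t * x.1 t) + η ^ 2 * (w t - m t))| ≤ R * η ^ 3) →
    (∀ t, |n₂ t - (1 - m t + η * ((1 - m t) * x.2.1 t) + η ^ 2 * (m t - w t))| ≤ R * η ^ 3) →
    (∀ t ∈ Icc 0 T, ‖z t - q t‖ ≤ C * η) ∧ ‖z T - q T - η ^ 2 • (dd X Y T m q P x +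
      ∫ t in 0..T, (w t - m t) • P t (X (q t) - Y (q t)))‖ ≤ C * η ^ 3 := by
  obtain ⟨B, hB, h1, h2⟩ := var_bd hx
  obtain ⟨B', hB'⟩ := D.boundS hx
  have hK := D.hX.toNice.nonneg
  have hT := D.pos
  have hM : 0 ≤ M := (norm_nonneg _).trans (D.bound T D.lT)
  obtain ⟨E, hE, hE0⟩ : ∃ E, E = 2 * T * Real.exp (4 * K * T) ∧ 0 ≤ E := ⟨_, rfl, by positivity⟩
  obtain ⟨C₀, c01, c02⟩ : ∃ C₀, B ≤ C₀ ∧ R ≤ C₀ := ⟨_, le_max_left _ _, le_max_right _ _⟩
  obtain ⟨C₁, c11, c12⟩ : ∃ C₁, 3 * C₀ ≤ C₁ ∧ 2 * K * (3 * C₀) * E ≤ C₁ :=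
    ⟨_, le_max_left _ _, le_max_right _ _⟩
  obtain ⟨C₂, c21, c22⟩ : ∃ C₂, C₁ ≤ C₂ ∧ 6 * K * C₁ ^ 2 * E ≤ C₂ :=
    ⟨_, le_max_left _ _, le_max_right _ _⟩
  obtain ⟨C₃, c31, c32⟩ : ∃ C₃, C₂ ≤ C₃ ∧ M * (12 * K * C₂ ^ 3) * T ≤ C₃ :=
    ⟨_, le_max_left _ _, le_max_right _ _⟩
  refine ⟨C₃, by linarith, fun η η0 η1 w n₁ n₂ z hw hz h0 g1 g2 => ?_⟩
  have m1 : ∀ t, |m t| ≤ 1 := fun t => abs_le.2 ⟨by linarith [D.traj.m0 t], D.traj.m1 t⟩
  have m2 : ∀ t, |1 - m t| ≤ 1 := fun t =>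
    abs_le.2 ⟨by linarith [D.traj.m1 t], by linarith [D.traj.m0 t]⟩
  have u1 : ∀ t, |m t * x.1 t| ≤ C₀ := fun t => by
    rw [abs_mul]
    exact (mul_le_of_le_one_left (abs_nonneg _) (m1 t)).trans ((h1 t).1.trans c01)
  have u2 : ∀ t, |(1 - m t) * x.2.1 t| ≤ C₀ := fun t => by
    rw [abs_mul]
    exact (mul_le_of_le_one_left (abs_nonneg _) (m2 t)).trans ((h1 t).2.trans c01)
  have e2 : η ^ 2 ≤ η := by nlinarith
  have e3 : η ^ 3 ≤ η ^ 2 := by nlinarith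
  have k : ∀ n μ a b : ℝ, |a| ≤ C₀ → |b| ≤ 1 → |n - (μ + η * a + η ^ 2 * b)| ≤ R * η ^ 3 →
      |n - μ| ≤ 3 * C₀ * η ∧ |n - (μ + η * a)| ≤ C₁ * η ^ 2 ∧
        |n - (μ + η * a + η ^ 2 * b)| ≤ C₂ * η ^ 3 := by
    intro n μ a b ha hb hn
    have a1 : R * η ^ 3 ≤ C₀ * η ^ 3 := by gcongr
    have a2 : C₀ * η ^ 3 ≤ C₀ * η ^ 2 := by gcongr; linarith
    have a3 : C₀ * η ^ 2 ≤ C₀ * η := by gcongr; linarith
    have a4 : η ^ 2 ≤ C₀ * η ^ 2 := le_mul_of_one_le_left (sq_nonneg η) (by linarith)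
    have a5 : |η * a| ≤ η * C₀ := by rw [abs_mul, abs_of_nonneg η0]; gcongr
    have a6 : |η ^ 2 * b| ≤ η ^ 2 := by
      rw [abs_mul, abs_of_nonneg (sq_nonneg η)]
      exact mul_le_of_le_one_right (sq_nonneg η) hb
    have a7 : 3 * C₀ * η ^ 2 ≤ C₁ * η ^ 2 := by gcongr
    have a8 : C₀ * η ^ 3 ≤ C₂ * η ^ 3 := by gcongr; linarith
    have a9 : 0 ≤ C₀ * η ^ 2 := mul_nonneg (by linarith) (sq_nonneg η)
    rw [abs_le] at a5 a6 hn
    refine ⟨abs_le.2 ⟨?_, ?_⟩, abs_le.2 ⟨?_, ?_⟩, abs_le.2 ⟨?_, ?_⟩⟩ <;> linarith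
  have k1 := fun t => k _ _ _ _ (u1 t) (hw.abs_sub D.adm t) (g1 t)
  have k2 := fun t => k _ _ _ _ (u2 t) (D.adm.abs_sub hw t) (g2 t)
  have s1 : ∀ t ∈ Icc 0 T, ‖z t - q t‖ ≤ C₁ * η := fun t ht => by
    refine (closeT D.hX.toNice D.hY.toNice hz D.gtraj h0 (fun t => (k1 t).1) (fun t => (k2 t).1)
      t ht).trans ?_
    rw [← hE]
    nlinarith [mul_le_mul_of_nonneg_right c12 η0]
  obtain ⟨L1, l1⟩ := hz.lip
  obtain ⟨L2, l2⟩ := D.traj.lip
  obtain ⟨L3, l3⟩ := hx.1.lip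
  have l4 : ∃ C, LipschitzOnWith C (fun t => z t - q t - η • x.2.2 t) (Icc 0 T) :=
    ⟨_, (l1.sub l2).sub ((lipschitzWith_smul η).comp_lipschitzOnWith l3)⟩
  have s2 : ∀ t ∈ Icc 0 T, ‖z t - q t - η • x.2.2 t‖ ≤ C₂ * η ^ 2 := fun t ht => by
    refine (gron0 (b := 6 * K * C₁ ^ 2 * η ^ 2) hK (by simp [h0, hx.1.r0]) l4 (by positivity) ?_
      t ht).trans ?_
    · filter_upwards [hz.ode, D.traj.ode, hx.1.ode] with τ a1 a2 a3 hm
      refine ⟨_, ((a1 hm).sub (a2 hm)).sub ((a3 hm).const_smul η), ?_⟩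
      have hτ := Ioo_subset_Icc_self hm
      have b1 := key2 D.hX.toNice (by linarith) η0 (m1 τ) ((u1 τ).trans (by linarith)) (k1 τ).2.1
        (s1 τ hτ)
      have b2 := key2 D.hY.toNice (by linarith) η0 (m2 τ) ((u2 τ).trans (by linarith)) (k2 τ).2.1
        (s1 τ hτ)
      have b3 := (m τ • fderiv ℝ X (q τ) + (1 - m τ) • fderiv ℝ Y (q τ)).le_of_opNorm_le
        (norm_mix (D.traj.m0 τ) (D.traj.m1 τ) (D.hX.b1 _) (D.hY.b1 _)) (z τ - q τ - η • x.2.2 τ)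
      refine le_trans (le_of_eq ?_) (norm_add₃_le.trans ((add_le_add (add_le_add b1 b2) b3).trans
        ?_))
      · congr 1
        simp only [add_apply, smul_apply, map_sub, map_smul]
        module
      · nlinarith [mul_nonneg hK (norm_nonneg (z τ - q τ - η • x.2.2 τ))]
    · rw [← hE]
      nlinarith [mul_le_mul_of_nonneg_right c22 (sq_nonneg η)]
  obtain ⟨L5, l5⟩ := lip_apply (D.lip.imp fun _ h => h.lipschitzOnWith) l4 D.bound s2
  have pl : ∀ {f : ℝ → E3} {B : ℝ}, AEStronglyMeasurable f volume → (∀ t ∈ Icc 0 T, ‖f t‖ ≤ B) →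
      LipschitzOnWith (Real.toNNReal B) (fun t => ∫ τ in 0..t, f τ) (Icc 0 T) := fun hf hb =>
    LipschitzOnWith.of_dist_le' fun a ha b hb' => by
      rw [dist_eq_norm, Real.dist_eq]
      exact prim_lip hf hb D.l0 hb' ha
  have l6 := (lipschitzWith_smul (η ^ 2)).comp_lipschitzOnWith
    ((pl (D.measS hx) hB').add (pl (D.measH hw) (D.boundH hw)))
  have key := mvt (B := M * (12 * K * C₂ ^ 3 * η ^ 3)) ⟨_, l5.sub l6⟩ (by
    filter_upwards [hz.ode, D.traj.ode, hx.1.ode, D.ode, prim_deriv (D.measS hx) hB' D.l0,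
      prim_deriv (D.measH hw) (D.boundH hw) D.l0] with τ a1 a2 a3 a4 a5 a6 hm
    refine ⟨_, ((a4 hm).clm_apply (((a1 hm).sub (a2 hm)).sub ((a3 hm).const_smul η))).sub
      (((a5 hm).add (a6 hm)).const_smul (η ^ 2)), ?_⟩
    have hτ := Ioo_subset_Icc_self hm
    have b0 : ‖z τ - q τ‖ ≤ C₂ * η := (s1 τ hτ).trans (by gcongr)
    have b1 := key3 D.hX (by linarith) η0 (m1 τ) ((u1 τ).trans (by linarith)) (hw.abs_sub D.adm τ)
      (k1 τ).2.2 ((h2 τ hτ).trans (by linarith)) b0 (s2 τ hτ)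
    have b2 := key3 D.hY (by linarith) η0 (m2 τ) ((u2 τ).trans (by linarith)) (D.adm.abs_sub hw τ)
      (k2 τ).2.2 ((h2 τ hτ).trans (by linarith)) b0 (s2 τ hτ)
    refine le_trans (le_of_eq ?_) ((P τ).le_of_opNorm_le_of_le (D.bound τ hτ)
      ((norm_add_le _ _).trans ((add_le_add b1 b2).trans (le_of_eq (by ring)))))
    congr 1
    simp only [secVec, Pi.sub_apply, Pi.smul_apply, neg_apply, ContinuousLinearMap.comp_apply,
      add_apply, smul_apply, map_add, map_sub, map_smul]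
    module) D.l0 D.lT
  simp only [Function.comp, D.fin, h0, hx.1.r0, hx.1.rT, sub_self, map_zero,
    intervalIntegral.integral_same, smul_zero, sub_zero, add_zero, ContinuousLinearMap.id_apply,
    abs_of_nonneg hT.le] at key
  refine ⟨fun t ht => (s1 t ht).trans (by gcongr; linarith), key.trans ?_⟩
  nlinarith [mul_le_mul_of_nonneg_right c32 (pow_nonneg η0 3)]

theorem sum_int {ι : Type} [Fintype ι] {v : ι → ℝ → ℝ} (hv : ∀ i, Adm (v i)) {a : ι → ℝ}
    (h0 : ∀ i, 0 ≤ a i) (h1 : ∑ i, a i = 1) : Adm (fun t => ∑ i, a i * v i t) ∧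
    ∫ t in 0..T, (∑ i, a i * v i t - m t) • P t (X (q t) - Y (q t)) =
      ∑ i, a i • ∫ t in 0..T, (v i t - m t) • P t (X (q t) - Y (q t)) := by
  refine ⟨⟨Finset.measurable_sum _ fun i _ => measurable_const.mul (hv i).1, fun t =>
    ⟨Finset.sum_nonneg fun i _ => mul_nonneg (h0 i) ((hv i).2 t).1, h1 ▸ Finset.sum_le_sum
      fun i _ => mul_le_of_le_one_right (h0 i) ((hv i).2 t).2⟩⟩, ?_⟩
  simp only [← intervalIntegral.integral_smul]
  refine Eq.trans ?_ (intervalIntegral.integral_finsetSum fun i _ => (D.iiH (hv i)).smul (a i))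
  congr 1
  funext t
  simp only [smul_smul, ← Finset.sum_smul, mul_sub, Finset.sum_sub_distrib,
    ← Finset.sum_mul, h1, one_mul]

theorem convex : Convex ℝ (Kset X Y T m q P) := fun x hx y hy a b ha hb hab => by
  obtain ⟨v, hv, rfl⟩ := hx
  obtain ⟨w, hw, rfl⟩ := hy
  have := D.sum_int (v := fun i : Bool => bif i then v else w) (by rintro (_ | _) <;> assumption)
    (a := fun i : Bool => bif i then a else b) (by rintro (_ | _) <;> assumption)
    (by simpa using hab)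
  exact ⟨_, this.1, by simpa using this.2.symm⟩

theorem zero_mem : (0 : E3) ∈ Kset X Y T m q P := ⟨m, D.adm, by simp⟩

theorem family {c : E3} (hi : c ∈ interior (Kset X Y T m q P)) :
    ∃ ε > 0, ∃ w : E3 → ℝ → ℝ, (∀ s ∈ closedBall (0 : E3) 1, Adm (w s) ∧
      ∫ t in 0..T, (w s t - m t) • P t (X (q t) - Y (q t)) = c + (ε / 3 : ℝ) • s) ∧
      ∀ s s' t, |w s t - w s' t| ≤ ‖s - s'‖ := by
  obtain ⟨ε, hε, hb⟩ := Metric.nhds_basis_closedBall.mem_iff.1 (mem_interior_iff_mem_nhds.1 hi)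
  have h1 : ∀ i : Fin 3 × Bool, ∃ v, Adm v ∧ c + EuclideanSpace.single i.1 (bif i.2 then ε else -ε) =
      ∫ t in 0..T, (v t - m t) • P t (X (q t) - Y (q t)) := fun i =>
    hb (by rcases i with ⟨i, _ | _⟩ <;> simp [abs_of_pos hε])
  choose v hv hk using h1
  let a : E3 → Fin 3 × Bool → ℝ := fun s i => (1 + bif i.2 then s i.1 else -s i.1) / 6
  have a1 : ∀ s, ∑ i, a s i = 1 := fun s => by
    simp only [a, Fintype.sum_prod_type, Fintype.sum_bool, Fin.sum_univ_three, cond_true,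
      cond_false]
    ring
  have a0 : ∀ s ∈ closedBall (0 : E3) 1, ∀ i, 0 ≤ a s i := by
    rintro s hs ⟨i, b⟩
    have := abs_le.1 ((PiLp.norm_apply_le s i).trans (mem_closedBall_zero_iff.1 hs))
    cases b <;> simp only [a, cond_true, cond_false] <;> linarith [this.1, this.2]
  have a2 : ∀ s, ∑ i, a s i • EuclideanSpace.single i.1 (bif i.2 then ε else -ε) =
      (ε / 3) • s := fun s => by
    ext j
    fin_cases j <;>
      simp [a, Fintype.sum_prod_type, Fin.sum_univ_three] <;> ring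
  refine ⟨ε, hε, fun s t => ∑ i, a s i * v i t, fun s hs => ?_, fun s s' t => ?_⟩
  · have h3 := D.sum_int hv (a0 s hs) (a1 s)
    refine ⟨h3.1, h3.2.trans ?_⟩
    simp only [← hk, smul_add, Finset.sum_add_distrib, a2, ← Finset.sum_smul, a1, one_smul]
  · rw [← Finset.sum_sub_distrib]
    refine (Finset.abs_sum_le_sum_abs _ _).trans ((Finset.sum_le_sum (g := fun _ => ‖s - s'‖ / 6)
      fun i _ => ?_).trans (by simp; linarith))
    rw [← sub_mul, abs_mul, abs_of_nonneg ((hv i).2 t).1]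
    refine (mul_le_of_le_one_right (abs_nonneg _) ((hv i).2 t).2).trans ?_
    have := abs_le.1 (PiLp.norm_apply_le (s - s') i.1)
    rw [PiLp.sub_apply] at this
    rcases i with ⟨i, _ | _⟩ <;> simp only [a, cond_true, cond_false] <;>
      exact abs_le.2 ⟨by linarith [this.1, this.2], by linarith [this.1, this.2]⟩

omit D in
theorem ctrl {μ u w η B : ℝ} (m0 : 0 ≤ μ) (m1 : μ ≤ 1) (w0 : 0 ≤ w) (w1 : w ≤ 1) (hu : |u| ≤ B)
    (η0 : 0 ≤ η) (η1 : η ≤ 1 / 2) (hB : η * B ≤ 1 / 2) :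
    0 ≤ (1 - η ^ 3) * ((1 - η ^ 2) * (μ * (1 + η * u)) + η ^ 2 * w) ∧
    |(1 - η ^ 3) * ((1 - η ^ 2) * (μ * (1 + η * u)) + η ^ 2 * w) -
      (μ + η * (μ * u) + η ^ 2 * (w - μ))| ≤ (B + 2) * η ^ 3 := by
  have a1 : |η * u| ≤ 1 / 2 := by
    rw [abs_mul, abs_of_nonneg η0]
    exact (mul_le_mul_of_nonneg_left hu η0).trans hB
  have a2 : |μ * u| ≤ B := by
    rw [abs_mul, abs_of_nonneg m0]
    exact (mul_le_of_le_one_left (abs_nonneg _) m1).trans hu
  rw [abs_le] at a1 a2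
  have e2 : η ^ 2 ≤ 1 / 4 := by nlinarith
  have e3 : η ^ 3 ≤ 1 := pow_le_one₀ η0 (by linarith)
  have b1 : 0 ≤ μ * (1 + η * u) := mul_nonneg m0 (by linarith)
  have b2 : μ * (1 + η * u) ≤ 3 / 2 := by nlinarith
  have b3 : 0 ≤ (1 - η ^ 2) * (μ * (1 + η * u)) + η ^ 2 * w :=
    add_nonneg (mul_nonneg (by linarith) b1) (mul_nonneg (sq_nonneg η) w0)
  have b4 : (1 - η ^ 2) * (μ * (1 + η * u)) + η ^ 2 * w ≤ 2 := by nlinarith [sq_nonneg η]
  refine ⟨mul_nonneg (by linarith) b3, ?_⟩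
  have e : (1 - η ^ 3) * ((1 - η ^ 2) * (μ * (1 + η * u)) + η ^ 2 * w) -
      (μ + η * (μ * u) + η ^ 2 * (w - μ)) =
      -(μ * u + ((1 - η ^ 2) * (μ * (1 + η * u)) + η ^ 2 * w)) * η ^ 3 := by ring
  rw [e, abs_mul, abs_neg, abs_of_nonneg (pow_nonneg η0 3)]
  exact mul_le_mul_of_nonneg_right (abs_le.2 ⟨by linarith, by linarith⟩) (pow_nonneg η0 3)

variable {U : Set E3}

theorem notInt (hU : IsOpen U) (hq : MapsTo q (Icc 0 T) U) (opt : Opt X Y U q T)
    (hx : x ∈ Var X Y T m q) : -dd X Y T m q P x ∉ interior (Kset X Y T m q P) := by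
  intro hi
  obtain ⟨ε, hε, w, hw, hw'⟩ := D.family hi
  obtain ⟨B, hB, h1, -⟩ := var_bd hx
  obtain ⟨C, hC, H⟩ := D.expand hx (B + 2)
  obtain ⟨δ, hδ, hth⟩ := ((isCompact_Icc (a := 0) (b := T)).image D.cont
    ).exists_thickening_subset_open hU hq.image_subset
  have hT := D.pos
  have hK := D.hX.toNice.nonneg
  obtain ⟨η, η0, η1, η2, η3, η4⟩ : ∃ η > 0, η ≤ 1 / 2 ∧ η ≤ 1 / 2 / B ∧ η ≤ δ / 2 / C ∧
      η ≤ ε / 3 / C := ⟨min (1 / 2) (min (1 / 2 / B) (min (δ / 2 / C) (ε / 3 / C))), by positivity,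
    min_le_left _ _, (min_le_right _ _).trans (min_le_left _ _),
    (min_le_right _ _).trans ((min_le_right _ _).trans (min_le_left _ _)),
    (min_le_right _ _).trans ((min_le_right _ _).trans (min_le_right _ _))⟩
  rw [le_div_iff₀ (by positivity)] at η2 η3 η4
  let n₁ : E3 → ℝ → ℝ := fun s t =>
    (1 - η ^ 3) * ((1 - η ^ 2) * (m t * (1 + η * x.1 t)) + η ^ 2 * w s t)
  let n₂ : E3 → ℝ → ℝ := fun s t =>
    (1 - η ^ 3) * ((1 - η ^ 2) * ((1 - m t) * (1 + η * x.2.1 t)) + η ^ 2 * (1 - w s t))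
  have hn : ∀ s t, n₁ s t + n₂ s t =
      (1 - η ^ 3) + (1 - η ^ 3) * (1 - η ^ 2) * η * (m t * x.1 t + (1 - m t) * x.2.1 t) :=
    fun s t => by simp only [n₁, n₂]; ring
  have e2 : η ^ 2 ≤ 1 / 4 := by nlinarith
  have e3 : η ^ 3 ≤ 1 / 8 := by nlinarith
  have e4 : 0 < η ^ 3 := by positivity
  have c1 := fun s hs t => ctrl (D.traj.m0 t) (D.traj.m1 t) ((hw s hs).1.2 t).1 ((hw s hs).1.2 t).2
    (h1 t).1 η0.le η1 η2
  have c2 := fun s hs t => ctrl (μ := 1 - m t) (w := 1 - w s t) (sub_nonneg.2 (D.traj.m1 t))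
    (sub_le_self _ (D.traj.m0 t)) (sub_nonneg.2 ((hw s hs).1.2 t).2)
    (sub_le_self _ ((hw s hs).1.2 t).1) (h1 t).2 η0.le η1 η2
  have h2 : ∀ s : E3, ∃ z, s ∈ closedBall (0 : E3) 1 → GTraj X Y (n₁ s) (n₂ s) z T ∧ z 0 = q 0 := by
    intro s
    by_cases hs : s ∈ closedBall (0 : E3) 1
    · have hm := D.traj.meas
      have hu := hx.1.mu
      have hv := hx.1.mv
      have hws := (hw s hs).1.1
      have k : ∀ t, |(1 - η ^ 3) * (1 - η ^ 2) * η * (m t * x.1 t + (1 - m t) * x.2.1 t)| ≤ 1 / 2 := by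
        intro t
        have a1 : |m t * x.1 t + (1 - m t) * x.2.1 t| ≤ B :=
          norm_mix (V := ℝ) (D.traj.m0 t) (D.traj.m1 t) (h1 t).1 (h1 t).2
        have a2 : (1 - η ^ 3) * (1 - η ^ 2) ≤ 1 :=
          mul_le_one₀ (by linarith) (by linarith) (by linarith [sq_nonneg η])
        have a3 : 0 ≤ (1 - η ^ 3) * (1 - η ^ 2) := mul_nonneg (by linarith) (by linarith)
        rw [mul_assoc _ η, abs_mul, abs_mul η, abs_of_nonneg a3, abs_of_pos η0]
        exact (mul_le_of_le_one_left (by positivity) a2).trans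
          ((mul_le_mul_of_nonneg_left a1 η0.le).trans η2)
      refine (exists_gtraj D.hX.toNice D.hY.toNice hT.le (n₁ := n₁ s) (n₂ := n₂ s)
        (by simp only [n₁]; fun_prop) (by simp only [n₂]; fun_prop) (fun t => (c1 s hs t).1)
        (fun t => (c2 s hs t).1) (fun t => ?_) (fun t => ?_) (q 0)).imp fun z hz _ => hz
      · rw [hn]; linarith [(abs_le.1 (k t)).1]
      · rw [hn]; linarith [(abs_le.1 (k t)).2]
    · exact ⟨0, fun h => absurd h hs⟩
  choose z hz using h2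
  have hE := fun s hs => H η η0.le (by linarith) (w s) _ _ (z s) (hw s hs).1 (hz s hs).1 (hz s hs).2
    (fun t => (c1 s hs t).2) fun t => by
      have := (c2 s hs t).2
      rwa [show 1 - w s t - (1 - m t) = m t - w s t by ring] at this
  have hc : 0 < 3 / (ε * η ^ 2) := by positivity
  obtain ⟨s, hs, hfix⟩ := Pool.Agent.Shared.Brouwer.brouwer one_pos
    (fun s => s - (3 / (ε * η ^ 2)) • (z s T - q T)) (by
      suffices G : LipschitzOnWith (Real.toNNReal (2 * K * (2 * T * Real.exp (4 * K * T))))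
          (fun s => z s T) (closedBall 0 1) from
        continuousOn_id.sub ((G.continuousOn.sub continuousOn_const).const_smul (3 / (ε * η ^ 2)))
      refine LipschitzOnWith.of_dist_le' fun s hs s' hs' => ?_
      rw [dist_eq_norm, dist_eq_norm]
      have k : ∀ t, |(1 - η ^ 3) * η ^ 2 * (w s t - w s' t)| ≤ ‖s - s'‖ := fun t => by
        have a1 : 0 ≤ (1 - η ^ 3) * η ^ 2 := mul_nonneg (by linarith) (sq_nonneg η)
        rw [abs_mul, abs_of_nonneg a1]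
        exact (mul_le_of_le_one_left (abs_nonneg _)
          (mul_le_one₀ (by linarith) (sq_nonneg η) (by linarith))).trans (hw' s s' t)
      refine (closeT D.hX.toNice D.hY.toNice (hz s hs).1 (hz s' hs').1
        ((hz s hs).2.trans (hz s' hs').2.symm) (ρ := ‖s - s'‖) (fun t => ?_) (fun t => ?_) T
        D.lT).trans (le_of_eq (by ring))
      · refine le_trans (le_of_eq ?_) (k t)
        congr 1
        simp only [n₁]
        ring
      · refine le_trans (le_of_eq ?_) (k t)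
        rw [← abs_neg]
        congr 1
        simp only [n₂]
        ring) (by
      intro s hs
      have h4 := (hE s hs).2
      rw [(hw s hs).2, add_neg_cancel_left] at h4
      have e : s - (3 / (ε * η ^ 2)) • (z s T - q T) =
          -((3 / (ε * η ^ 2)) • (z s T - q T - η ^ 2 • (ε / 3) • s)) := by
        have : 3 / (ε * η ^ 2) * (η ^ 2 * (ε / 3)) = 1 := by field_simp
        rw [smul_smul, smul_sub _ (z s T - q T), smul_smul, this]
        module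
      beta_reduce
      rw [mem_closedBall_zero_iff, e, norm_neg, norm_smul, Real.norm_of_nonneg hc.le]
      refine (mul_le_mul_of_nonneg_left h4 hc.le).trans ?_
      rw [div_mul_eq_mul_div, div_le_one (by positivity)]
      nlinarith [mul_le_mul_of_nonneg_right η4 (sq_nonneg η)])
  have h7 : z s T = q T := by
    have := sub_eq_self.1 hfix
    rwa [smul_eq_zero, or_iff_right hc.ne', sub_eq_zero] at this
  obtain ⟨m', z', t1, t2, t3, t4⟩ := (hz s hs).1.reparam (T' := (1 - η ^ 3) * T) (by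
    simp only [hn]
    rw [intervalIntegral.integral_add (by simp) ((D.iiT hx).const_mul _),
      intervalIntegral.integral_const_mul, hx.1.tot]
    simp only [intervalIntegral.integral_const, sub_zero, smul_eq_mul, mul_zero, add_zero]
    ring)
  have := opt m' z' _ t1 (fun τ hτ => by
    obtain ⟨t, ht, h8⟩ := t4 τ hτ
    rw [h8]
    refine hth (mem_thickening_iff.2 ⟨q t, ⟨t, ht, rfl⟩, ?_⟩)
    rw [dist_eq_norm]
    linarith [(hE s hs).1 t ht]) (t2.trans (hz s hs).2) (t3.trans h7)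
  nlinarith

theorem dcomp (l : E3 →L[ℝ] ℝ) : (∃ C, LipschitzWith C fun t => l.comp (P t)) ∧
    ∀ᵐ t, t ∈ Ioo 0 T → HasDerivAt (fun t => l.comp (P t))
      (-(l.comp (P t)).comp (m t • fderiv ℝ X (q t) + (1 - m t) • fderiv ℝ Y (q t))) t := by
  obtain ⟨C, hC⟩ := D.lip
  refine ⟨⟨_, (ContinuousLinearMap.compL ℝ E3 E3 ℝ l).lipschitz.comp hC⟩, ?_⟩
  filter_upwards [D.ode] with t ht hm
  have := (ContinuousLinearMap.compL ℝ E3 E3 ℝ l).hasFDerivAt.comp_hasDerivAt t (ht hm)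
  refine HasDerivAt.congr_deriv this ?_
  ext
  simp

theorem inj {l : E3 →L[ℝ] ℝ} {t₀ : ℝ} (ht : t₀ ∈ Icc 0 T) (h : l.comp (P t₀) = 0) : l = 0 := by
  obtain ⟨⟨C, hC⟩, h2⟩ := D.dcomp l
  have := gronT (w := fun t => l.comp (P t)) (T := T) (a := K) (b := 0) h ⟨C, hC.lipschitzOnWith⟩
    D.hX.toNice.nonneg le_rfl (by
      filter_upwards [h2] with t h3 hm
      refine ⟨_, h3 ⟨ht.1.trans_lt hm.1, hm.2⟩, ?_⟩
      rw [norm_neg, add_zero, mul_comm]
      exact (ContinuousLinearMap.opNorm_comp_le _ _).trans (mul_le_mul_of_nonneg_left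
        (norm_mix (D.traj.m0 t) (D.traj.m1 t) (D.hX.b1 _) (D.hY.b1 _)) (norm_nonneg _)))
    T (right_mem_Icc.2 ht.2)
  simpa [D.fin] using this

theorem inj' {t₀ : ℝ} (ht : t₀ ∈ Icc 0 T) {v : E3} (hv : v ≠ 0) : P t₀ v ≠ 0 := by
  intro h
  have h1 : LinearMap.range (P t₀ : E3 →ₗ[ℝ] E3) < ⊤ := by
    refine lt_top_iff_ne_top.2 fun h2 => hv ?_
    exact LinearMap.injective_iff_surjective.2 (LinearMap.range_eq_top.1 h2)
      (h.trans (map_zero _).symm)
  obtain ⟨f, hf, hk⟩ := Submodule.exists_le_ker_of_lt_top _ h1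
  have := D.inj (l := LinearMap.toContinuousLinearMap f) ht
    (ContinuousLinearMap.ext fun y => hk ⟨y, rfl⟩)
  exact hf (by simpa using this)

theorem adjoint {l : E3 →L[ℝ] ℝ} (hl : l ≠ 0) (hK : ∀ k ∈ Kset X Y T m q P, l k ≤ 0) :
    Adjoint X Y m q (fun t => l.comp (P t)) T := by
  have hφ : Continuous fun t => l (P t (X (q t) - Y (q t))) := l.continuous.comp D.contH
  have hv : Adm fun t => if 0 < l (P t (X (q t) - Y (q t))) then 1 else 0 :=
    ⟨Measurable.ite (measurableSet_lt measurable_const hφ.measurable) measurable_const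
      measurable_const, fun t => by beta_reduce; split_ifs <;> norm_num⟩
  have h1 := hK _ ⟨_, hv, rfl⟩
  rw [← l.intervalIntegral_comp_comm (D.iiH hv)] at h1
  have h2 : ∀ t, 0 ≤ l (((if 0 < l (P t (X (q t) - Y (q t))) then 1 else 0) - m t) •
      P t (X (q t) - Y (q t))) := by
    intro t
    rw [map_smul, smul_eq_mul]
    have := D.adm.2 t
    split_ifs <;> nlinarith
  have h3 := (intervalIntegral.integral_eq_zero_iff_of_le_of_nonneg_ae D.pos.le
    (Eventually.of_forall h2) ⟨l.integrable_comp (D.iiH hv).1, l.integrable_comp (D.iiH hv).2⟩).1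
    (le_antisymm h1 (intervalIntegral.integral_nonneg D.pos.le fun t _ => h2 t))
  have h4 := (ae_restrict_iff' measurableSet_Ioc).1 h3
  refine ⟨(D.dcomp l).1.imp fun _ h => h.lipschitzOnWith, fun h => hl (D.inj D.l0 h),
    (D.dcomp l).2, ?_, ?_⟩
  · filter_upwards [h4] with t ht hm hp
    have := ht (Ioo_subset_Ioc_self hm)
    rw [ContinuousLinearMap.comp_apply] at hp
    simp only [map_smul, smul_eq_mul, if_pos hp, Pi.zero_apply, mul_eq_zero, hp.ne', or_false]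
      at this
    linarith
  · filter_upwards [h4] with t ht hm hp
    have := ht (Ioo_subset_Ioc_self hm)
    rw [ContinuousLinearMap.comp_apply] at hp
    simp only [map_smul, smul_eq_mul, if_neg hp.not_gt, Pi.zero_apply, mul_eq_zero, hp.ne, or_false]
      at this
    linarith

theorem flat (hi : ¬(interior (Kset X Y T m q P)).Nonempty) :
    ∃ p, Adjoint X Y m q p T ∧ ∀ t ∈ Icc 0 T, p t (X (q t) - Y (q t)) = 0 := by
  rw [D.convex.interior_nonempty_iff_affineSpan_eq_top] at hi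
  have h1 : Submodule.span ℝ (Kset X Y T m q P) < ⊤ := by
    refine lt_top_iff_ne_top.2 fun h2 => hi ?_
    have h3 := affineSpan_insert_zero (k := ℝ) (Kset X Y T m q P)
    rw [insert_eq_of_mem D.zero_mem, h2] at h3
    exact SetLike.coe_injective h3
  obtain ⟨f, hf, hk⟩ := Submodule.exists_le_ker_of_lt_top _ h1
  obtain ⟨l, hl, h0⟩ : ∃ l : E3 →L[ℝ] ℝ, l ≠ 0 ∧ ∀ k ∈ Kset X Y T m q P, l k = 0 :=
    ⟨LinearMap.toContinuousLinearMap f, fun h2 => hf (by simpa using h2),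
      fun x hx => hk (Submodule.subset_span hx)⟩
  have a1 := D.adjoint hl fun k hk => (h0 k hk).le
  have a2 := D.adjoint (neg_ne_zero.2 hl) fun k hk => by simp [h0 k hk]
  refine ⟨_, a1, ?_⟩
  have hφ : Continuous fun t => l (P t (X (q t) - Y (q t))) := l.continuous.comp D.contH
  have h5 : EqOn (fun t => l (P t (X (q t) - Y (q t)))) (fun _ => 0) (Ioo 0 T) := by
    refine Measure.eqOn_Ioo_of_ae_eq volume ((ae_restrict_iff' measurableSet_Ioo).2 ?_)
      hφ.continuousOn continuousOn_const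
    filter_upwards [a1.pos, a1.neg, a2.pos, a2.neg] with t b1 b2 b3 b4 hm
    simp only [ContinuousLinearMap.comp_apply, neg_apply, Left.neg_pos_iff, Left.neg_neg_iff]
      at b1 b2 b3 b4
    rcases lt_trichotomy (l (P t (X (q t) - Y (q t)))) 0 with h | h | h
    · linarith [b2 hm h, b3 hm h]
    · exact h
    · linarith [b1 hm h, b4 hm h]
  have h6 := h5.closure hφ continuous_const
  rwa [closure_Ioo D.pos.ne] at h6

open scoped Pointwise in
theorem second (hU : IsOpen U) (hq : MapsTo q (Icc 0 T) U) (opt : Opt X Y U q T) {v₀ k₀ : E3}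
    (h0 : v₀ ≠ 0) (hv : ∀ l : E3 →L[ℝ] ℝ, l ≠ 0 → (∀ k ∈ Kset X Y T m q P, l k ≤ 0) → l v₀ = 0)
    (hk : k₀ ∈ interior (Kset X Y T m q P)) :
    ∃ l : E3 →L[ℝ] ℝ, l ≠ 0 ∧ (∀ k ∈ Kset X Y T m q P, l k ≤ 0) ∧
      ∀ x ∈ Var X Y T m q, l (dd X Y T m q P x) ≤ 0 := by
  have hc := (dines (S := Var X Y T m q) (fun v hv w hw s t => D.var_lin hv hw s t)
    (d := dd X Y T m q P) (fun v hv w hw => ⟨_, D.dd_quad hv hw⟩) h0).add D.convex
  have m0 : ∀ x ∈ Var X Y T m q, ∀ k ∈ Kset X Y T m q P, dd X Y T m q P x + k ∈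
      {x | ∃ v ∈ Var X Y T m q, ∃ s : ℝ, x = dd X Y T m q P v + s • v₀} + Kset X Y T m q P :=
    fun x hx k hk => Set.add_mem_add ⟨x, hx, 0, by simp⟩ hk
  obtain ⟨l, hl, h1⟩ := exists_sep hc (by simpa [dd_zero] using m0 0 var_zero 0 D.zero_mem) (by
    intro hi
    have h2 : Tendsto (fun ε : ℝ => -ε • k₀) (𝓝[>] 0) (𝓝 0) := by
      refine tendsto_nhdsWithin_of_tendsto_nhds ?_
      have : Continuous fun ε : ℝ => -ε • k₀ := by fun_prop
      simpa using this.tendsto 0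
    obtain ⟨ε, ⟨_, ⟨x, hx, s, rfl⟩, k, hk', h3⟩, hε⟩ :=
      ((h2.eventually (mem_interior_iff_mem_nhds.1 hi)).and self_mem_nhdsWithin).exists
    have hε' : 0 < ε := hε
    obtain ⟨f, u, f1, f2⟩ := geometric_hahn_banach_open D.convex.interior isOpen_interior
      (t := (fun t : ℝ => t • -dd X Y T m q P x) '' Ici 0)
      ((convex_Ici 0).is_linear_image (IsLinearMap.isLinearMap_smul' _)) (by
        rw [Set.disjoint_right]
        rintro _ ⟨t, ht, rfl⟩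
        have h4 := D.notInt hU hq opt (D.var_lin hx hx (√t) 0)
        rw [D.dd_quad hx hx, Real.sq_sqrt ht] at h4
        simpa using h4)
    have g0 : u ≤ 0 := by simpa using f2 _ ⟨0, mem_Ici.2 le_rfl, rfl⟩
    have g1 : f k₀ < 0 := (f1 _ hk).trans_le g0
    have g2 : ∀ k ∈ Kset X Y T m q P, f k ≤ 0 := fun k hk' => by
      by_contra h5
      have h6 : 0 < f k := not_le.1 h5
      have h7 : 0 < f k - f k₀ := by linarith
      have h8 := f1 _ (D.convex.combo_self_interior_mem_interior hk' hk (a := -f k₀ / (f k - f k₀))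
        (b := f k / (f k - f k₀)) (div_nonneg (by linarith) h7.le) (div_pos h6 h7)
        (by field_simp; ring))
      rw [map_add, map_smul, map_smul, smul_eq_mul, smul_eq_mul] at h8
      have h9 : -f k₀ / (f k - f k₀) * f k + f k / (f k - f k₀) * f k₀ = 0 := by ring
      linarith
    have g3 := hv f (fun h => by simp [h] at g1) g2
    have g4 : f (-dd X Y T m q P x) < 0 := by
      have h5 := congrArg f h3
      simp only [map_add, map_smul, map_neg, g3, smul_eq_mul, mul_zero, add_zero] at h5 ⊢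
      nlinarith [g2 k hk']
    have g5 := f2 _ ⟨(u - 1) / f (-dd X Y T m q P x),
      div_nonneg_of_nonpos (by linarith) g4.le, rfl⟩
    rw [map_smul, smul_eq_mul, div_mul_cancel₀ _ g4.ne] at g5
    linarith)
  exact ⟨l, hl, fun k hk => by simpa [dd_zero] using h1 _ (m0 0 var_zero k hk),
    fun x hx => by simpa using h1 _ (m0 x hx 0 D.zero_mem)⟩

theorem main (hU : IsOpen U) (hq : MapsTo q (Icc 0 T) U) (opt : Opt X Y U q T) :
    (∃ p, Adjoint X Y m q p T) ∧ ∀ t₀ ∈ Icc 0 T, X (q t₀) ≠ Y (q t₀) →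
      (∀ p, Adjoint X Y m q p T → p t₀ (X (q t₀) - Y (q t₀)) = 0) →
      ∃ p, Adjoint X Y m q p T ∧ ((∀ t ∈ Icc 0 T, p t (X (q t) - Y (q t)) = 0) ∨
        ∀ x ∈ Var X Y T m q, ∫ t in (0 : ℝ)..T, p t (secVec X Y m q x.1 x.2.1 x.2.2 t) ≤ 0) := by
  refine ⟨?_, fun t₀ ht hne H => ?_⟩
  · obtain ⟨l, hl, h⟩ := exists_sep D.convex D.zero_mem
      (by simpa [dd_zero] using D.notInt hU hq opt var_zero)
    exact ⟨_, D.adjoint hl h⟩
  · by_cases hi : (interior (Kset X Y T m q P)).Nonempty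
    · obtain ⟨k₀, hk⟩ := hi
      obtain ⟨l, hl, h1, h2⟩ := D.second hU hq opt (D.inj' ht (sub_ne_zero.2 hne))
        (fun l hl h => H _ (D.adjoint hl h)) hk
      refine ⟨_, D.adjoint hl h1, Or.inr fun x hx => ?_⟩
      have := h2 x hx
      rwa [dd, ← l.intervalIntegral_comp_comm (D.iiS hx)] at this
    · exact (D.flat hi).imp fun p h => ⟨h.1, Or.inl h.2⟩

end DataT

theorem adjoint_congr {Q : ℝ → E3} {p : ℝ → E3 →L[ℝ] ℝ} (h : ∀ t ∈ Icc 0 T, Q t = q t)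
    (hp : Adjoint X Y m Q p T) : Adjoint X Y m q p T := by
  refine ⟨hp.lip, hp.ne, ?_, ?_, ?_⟩
  · filter_upwards [hp.ode] with t ht hm
    simpa only [h t (Ioo_subset_Icc_self hm)] using ht hm
  · filter_upwards [hp.pos] with t ht hm
    simpa only [h t (Ioo_subset_Icc_self hm)] using ht hm
  · filter_upwards [hp.neg] with t ht hm
    simpa only [h t (Ioo_subset_Icc_self hm)] using ht hm

theorem clamp {r : ℝ → E3} (hT : 0 ≤ T) (h : ∃ C, LipschitzOnWith C r (Icc 0 T)) :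
    ∃ R : ℝ → E3, Continuous R ∧ (∀ t ∈ Icc 0 T, R t = r t) ∧
      (∃ C, LipschitzOnWith C R (Icc 0 T)) ∧
      ∀ t ∈ Ioo 0 T, ∀ v, HasDerivAt r v t → HasDerivAt R v t := by
  obtain ⟨C, hC⟩ := h
  have hQ : ∀ t ∈ Icc 0 T, r (projIcc 0 T hT t) = r t := fun t ht => by
    simp only [projIcc_of_mem hT ht]
  refine ⟨fun t => r (projIcc 0 T hT t), hC.continuousOn.comp_continuous
    (continuous_subtype_val.comp continuous_projIcc) fun t => (projIcc 0 T hT t).2, hQ,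
    ⟨C, fun x hx y hy => ?_⟩, fun t hm v hv => hv.congr_of_eventuallyEq ?_⟩
  · beta_reduce
    rw [hQ x hx, hQ y hy]
    exact hC hx hy
  · filter_upwards [Icc_mem_nhds hm.1 hm.2] with s hs using hQ s hs

end UPmp

theorem pmpT {X Y : E3 → E3} (hX : SC X) (hY : SC Y) {m : ℝ → ℝ} {q : ℝ → E3} {T : ℝ}
    {U : Set E3} (hT : 0 < T) (h : Traj X Y m q T) (hU : IsOpen U) (hq : MapsTo q (Icc 0 T) U)
    (opt : Opt X Y U q T) :
    (∃ p, Adjoint X Y m q p T) ∧ ∀ t₀ ∈ Icc 0 T, X (q t₀) ≠ Y (q t₀) →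
      (∀ p, Adjoint X Y m q p T → p t₀ (X (q t₀) - Y (q t₀)) = 0) →
      ∃ p, Adjoint X Y m q p T ∧
        ((∀ t ∈ Icc 0 T, p t (X (q t) - Y (q t)) = 0) ∨ Second X Y m q p T) := by
  obtain ⟨K, -, k1, k2⟩ := Pmp.exists_nice3 hX hY
  obtain ⟨Q, q1, q2, q3, q4⟩ := UPmp.clamp hT.le h.lip
  have l0 := left_mem_Icc.2 hT.le
  have lT := right_mem_Icc.2 hT.le
  have hQ : Traj X Y m Q T := ⟨h.nonneg, h.meas, h.m0, h.m1, q3, by
    filter_upwards [h.ode] with t ht hm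
    rw [q2 t (Ioo_subset_Icc_self hm)]
    exact q4 t hm _ (ht hm)⟩
  obtain ⟨M, P, D⟩ := UPmp.exists_dataT k1 k2 hT hQ q1
  obtain ⟨⟨p, hp⟩, H⟩ := D.main hU (fun t ht => q2 t ht ▸ hq ht) fun m' z T' a b c d =>
    opt m' z T' a b (c.trans (q2 0 l0)) (d.trans (q2 T lT))
  refine ⟨⟨p, UPmp.adjoint_congr q2 hp⟩, fun t₀ ht hne H' => ?_⟩
  obtain ⟨p, hp, h2⟩ := H t₀ ht (by rwa [q2 t₀ ht]) fun p hp => by
    rw [q2 t₀ ht]
    exact H' p (UPmp.adjoint_congr q2 hp)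
  refine ⟨p, UPmp.adjoint_congr q2 hp, h2.imp (fun h3 t ht => q2 t ht ▸ h3 t ht)
    fun h3 u v r hr => ?_⟩
  obtain ⟨R, r1, r2, r3, r4⟩ := UPmp.clamp hT.le hr.lip
  refine le_trans (le_of_eq (intervalIntegral.integral_congr fun t ht => ?_))
    (h3 (u, v, R) ⟨⟨hr.mu, hr.mv, hr.bd, r3, (r2 0 l0).trans hr.r0, (r2 T lT).trans hr.rT, ?_,
      hr.tot⟩, r1⟩)
  · rw [uIcc_of_le hT.le] at ht
    simp only [secVec, q2 t ht, r2 t ht]
  · filter_upwards [hr.ode] with t ht hm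
    have ht' := Ioo_subset_Icc_self hm
    simp only [q2 t ht', r2 t ht']
    exact r4 t hm _ (ht hm)

end Pool.Agent.Lib.MP_f4f7c0_an
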