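import Pool.Agent.Lib.MP_f4f7c0_an.ULong1
import Pool.Agent.Lib.MP_f4f7c0_an.UPmp
import Pool.Agent.Lib.MP_f4f7c0_an.UGoh

-- part Pool.Agent.Lib.MP_f4f7c0_an.UJunc
section

/-! Junctions of singular arcs. -/

namespace Pool.Agent.Lib.MP_f4f7c0_an

open Set Filter Topology MeasureTheory

variable {h₀ : List Bool → ℝ}

namespace UJunc

theorem tricho_pos {α β γ : ℝ} (hβ : 0 < β) :
    (∃ θ₁ θ₂ : ℝ, 0 < θ₁ ∧ 0 < θ₂ ∧ ((0 < θ₁ * α + θ₂ * β ∧ 0 < θ₁ * β + θ₂ * γ) ∨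
      (θ₁ * α + θ₂ * β < 0 ∧ θ₁ * β + θ₂ * γ < 0))) ∨
    ∃ P ∈ Ioo (0 : ℝ) 1, P * α + (1 - P) * β = 0 ∧ P * β + (1 - P) * γ = 0 := by
  rcases le_or_gt 0 α with ha | ha
  · refine Or.inl ⟨|γ| + 1, β, by positivity, hβ, Or.inl ⟨by positivity, ?_⟩⟩
    nlinarith [neg_abs_le γ]
  rcases le_or_gt 0 γ with hc | hc
  · refine Or.inl ⟨β, |α| + 1, hβ, by positivity, Or.inl ⟨?_, by positivity⟩⟩
    nlinarith [neg_abs_le α]
  rcases lt_trichotomy (β ^ 2 - α * γ) 0 with h | h | h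
  · exact Or.inl ⟨β - γ, β - α, by linarith, by linarith, Or.inr ⟨by nlinarith, by nlinarith⟩⟩
  · have hd : 0 < 2 * β - α - γ := by linarith
    have hP := div_mul_cancel₀ (β - γ) hd.ne'
    refine Or.inr ⟨(β - γ) / (2 * β - α - γ), ⟨div_pos (by linarith) hd, ?_⟩, ?_, ?_⟩
    · rw [div_lt_one hd]; linarith
    · refine mul_right_cancel₀ hd.ne' ?_
      linear_combination (α - β) * hP + h
    · refine mul_right_cancel₀ hd.ne' ?_
      linear_combination (β - γ) * hP + h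
  · exact Or.inl ⟨β - γ, β - α, by linarith, by linarith, Or.inl ⟨by nlinarith, by nlinarith⟩⟩

/-- Absolutely continuous with a given derivative almost everywhere. -/
def D1 (F G : ℝ → ℝ) (s t : ℝ) : Prop :=
  AC F s t ∧ ∀ᵐ τ, τ ∈ Ioo s t → HasDerivAt F (G τ) τ

namespace D1
variable {m F G F' G' Fp Fm : ℝ → ℝ} {s t : ℝ}

theorem of_dd (h : DD m F Fp Fm s t) : D1 F (fun τ => m τ * Fp τ + (1 - m τ) * Fm τ) s t := h

theorem dd (h : D1 F F' s t) : DD (fun _ => 1) F F' F' s t :=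
  ⟨h.1, by filter_upwards [h.2] with τ h1 hm using (h1 hm).congr_deriv (by ring)⟩

theorem congr (h : D1 F F' s t) (e : ∀ᵐ τ, τ ∈ Ioo s t → F' τ = G' τ) : D1 F G' s t :=
  ⟨h.1, by filter_upwards [h.2, e] with τ h1 h2 hm using (h1 hm).congr_deriv (h2 hm)⟩

theorem congr' (h : D1 F F' s t) (e : ∀ τ, F' τ = G' τ) : D1 F G' s t :=
  h.congr (Eventually.of_forall fun τ _ => e τ)

theorem add (h : D1 F F' s t) (g : D1 G G' s t) :
    D1 (fun τ => F τ + G τ) (fun τ => F' τ + G' τ) s t :=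
  (of_dd (h.dd.add g.dd)).congr' fun _ => by ring

theorem sub (h : D1 F F' s t) (g : D1 G G' s t) :
    D1 (fun τ => F τ - G τ) (fun τ => F' τ - G' τ) s t :=
  (of_dd (h.dd.sub g.dd)).congr' fun _ => by ring

theorem mul (h : D1 F F' s t) (g : D1 G G' s t) :
    D1 (fun τ => F τ * G τ) (fun τ => F' τ * G τ + F τ * G' τ) s t :=
  (of_dd (h.dd.mul g.dd)).congr' fun _ => by ring

theorem cmul (c : ℝ) (h : D1 F F' s t) : D1 (fun τ => c * F τ) (fun τ => c * F' τ) s t :=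
  (of_dd (h.dd.cmul c)).congr' fun _ => by ring

theorem const (c : ℝ) : D1 (fun _ => c) (fun _ => 0) s t :=
  (of_dd (DD.const (m := fun _ => 1) c)).congr' fun _ => by ring

theorem sig : D1 (fun τ => τ - s) (fun _ => 1) s t :=
  (of_dd ((DD.id (m := fun _ => 1)).sub (DD.const s))).congr' fun _ => by ring

theorem lip (h : D1 F F' s t) {B : ℝ} (hB0 : 0 ≤ B) (hB : ∀ τ ∈ Ioo s t, |F' τ| ≤ B) :
    ∀ τ ∈ Icc s t, |F τ - F s| ≤ B * (t - s) := by
  intro τ hτ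
  have h1 := h.dd.abs_le (B := B) (Eventually.of_forall fun y hy => by
    have : (1 : ℝ) * F' y + (1 - 1) * F' y = F' y := by ring
    rw [this]
    exact hB y hy) (left_mem_Icc.2 (hτ.1.trans hτ.2)) hτ
  refine h1.trans (mul_le_mul_of_nonneg_left ?_ hB0)
  rw [abs_of_nonneg (by linarith [hτ.1])]
  linarith [hτ.2]

theorem bd (h : D1 F F' s t) (h0 : F s = 0) {B : ℝ} (hB0 : 0 ≤ B)
    (hB : ∀ τ ∈ Ioo s t, |F' τ| ≤ B) : ∀ τ ∈ Icc s t, |F τ| ≤ B * (t - s) := by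
  intro τ hτ
  have := h.lip hB0 hB τ hτ
  rwa [h0, sub_zero] at this

end D1

theorem am {x y A B : ℝ} (h : |x| ≤ A) (g : |y| ≤ B) : |x * y| ≤ A * B := by
  rw [abs_mul]
  exact mul_le_mul h g (abs_nonneg _) ((abs_nonneg _).trans h)

theorem aa {x y A B : ℝ} (h : |x| ≤ A) (g : |y| ≤ B) : |x + y| ≤ A + B :=
  (abs_add_le _ _).trans (add_le_add h g)

theorem as {x y A B : ℝ} (h : |x| ≤ A) (g : |y| ≤ B) : |x - y| ≤ A + B :=
  (abs_sub _ _).trans (add_le_add h g)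

/-- First part of the estimates. -/
theorem core1 {μ D S κ E E' G c C : ℝ → ℝ} {s t K l : ℝ} (hK : 1 ≤ K) (l0 : 0 < l) (l1 : l ≤ 1)
    (hL : t - s = l ^ 2) (hμ : ∀ τ ∈ Ioo s t, |μ τ| ≤ K)
    (dD : D1 D (fun τ => -E τ - G τ * μ τ) s t) (dS : D1 S (fun τ => κ τ + μ τ * E τ) s t)
    (dκ : D1 κ (fun τ => c τ + μ τ * C τ) s t) (dE : D1 E E' s t)
    (hsing : ∀ᵐ τ, τ ∈ Ioo s t → μ τ * D τ = S τ)
    (hE' : ∀ τ ∈ Ioo s t, |E' τ| ≤ K) (hG : ∀ τ ∈ Icc s t, |G τ| ≤ K)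
    (hc : ∀ τ ∈ Icc s t, |c τ| ≤ K) (hC : ∀ τ ∈ Icc s t, |C τ| ≤ K)
    (E0 : E s = 0) (D0 : D s = 0) (S0 : S s = 0) (S1 : S t = 0) :
    (∀ τ ∈ Icc s t, |E τ| ≤ K * l ^ 2) ∧ (∀ τ ∈ Icc s t, |S τ| ≤ 6 * K ^ 2 * l ^ 4) ∧
      ∀ τ ∈ Icc s t, |D τ| ≤ 4 * K ^ 2 * l ^ 3 := by
  have hst : s ≤ t := by nlinarith
  have io : ∀ τ ∈ Ioo s t, τ ∈ Icc s t := fun τ h => Ioo_subset_Icc_self h
  have K0 : 0 < K := by linarith
  have K2 : K ≤ K ^ 2 := by nlinarith
  have l2 : l ^ 2 ≤ 1 := pow_le_one₀ l0.le l1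
  have bE := dE.bd E0 K0.le hE'
  rw [hL] at bE
  have b1 := dκ.lip (B := 2 * K ^ 2) (by positivity) fun τ h =>
    (aa (hc τ (io τ h)) (am (hμ τ h) (hC τ (io τ h)))).trans (by nlinarith)
  rw [hL] at b1
  have b2 := ((dS.sub (D1.sig.cmul (κ s))).congr' (G' := fun τ => κ τ - κ s + μ τ * E τ)
    fun _ => by ring).bd (by simp [S0]) (B := 3 * K ^ 2 * l ^ 2) (by positivity)
    (fun τ h => (aa (b1 τ (io τ h)) (am (hμ τ h) (bE τ (io τ h)))).trans (le_of_eq (by ring)))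
    t (right_mem_Icc.2 hst)
  have b3 : |κ s| ≤ 3 * K ^ 2 * l ^ 2 := by
    simp only [S1, hL, zero_sub, abs_neg] at b2
    rw [abs_mul, abs_of_pos (by positivity : 0 < l ^ 2)] at b2
    exact le_of_mul_le_mul_right b2 (by positivity)
  have b4 : ∀ τ ∈ Icc s t, |κ τ| ≤ 5 * K ^ 2 * l ^ 2 := fun τ h => by
    have := aa (b1 τ h) b3
    rw [sub_add_cancel] at this
    linarith
  have bS := dS.bd S0 (B := 6 * K ^ 2 * l ^ 2) (by positivity) fun τ h =>
    (aa (b4 τ (io τ h)) (am (hμ τ h) (bE τ (io τ h)))).trans (le_of_eq (by ring))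
  rw [hL] at bS
  have b5 := dD.bd D0 (B := 2 * K ^ 2) (by positivity) fun τ h => by
    have h1 : |-E τ| ≤ K * l ^ 2 := by rw [abs_neg]; exact bE τ (io τ h)
    refine (as h1 (am (hG τ (io τ h)) (hμ τ h))).trans ?_
    nlinarith
  rw [hL] at b5
  have b6 := ((dD.mul dD).congr (G' := fun τ => -2 * (E τ * D τ + G τ * S τ)) (by
    filter_upwards [hsing] with τ h1 h2
    rw [← h1 h2]
    ring)).bd (by simp [D0]) (B := 16 * K ^ 3 * l ^ 4) (by positivity) fun τ h =>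
      (am (by norm_num : |(-2 : ℝ)| ≤ 2) (aa (am (bE τ (io τ h)) (b5 τ (io τ h)))
        (am (hG τ (io τ h)) (bS τ (io τ h))))).trans (le_of_eq (by ring))
  rw [hL] at b6
  refine ⟨bE, fun τ h => (bS τ h).trans (le_of_eq (by ring)), fun τ h => ?_⟩
  refine abs_le_of_sq_le_sq' ?_ (by positivity) |> abs_le.2
  have h1 := (le_abs_self _).trans (b6 τ h)
  have h2 : K ^ 3 * l ^ 6 ≤ K ^ 4 * l ^ 6 :=
    mul_le_mul_of_nonneg_right (pow_le_pow_right₀ hK (by norm_num)) (by positivity)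
  nlinarith

/-- The main estimate. -/
theorem core {μ D S κ E E' G c C : ℝ → ℝ} {s t K l : ℝ} (hK : 1 ≤ K) (l0 : 0 < l) (l1 : l ≤ 1)
    (hL : t - s = l ^ 2) (hμ : ∀ τ ∈ Ioo s t, |μ τ| ≤ K)
    (dD : D1 D (fun τ => -E τ - G τ * μ τ) s t) (dS : D1 S (fun τ => κ τ + μ τ * E τ) s t)
    (dκ : D1 κ (fun τ => c τ + μ τ * C τ) s t) (dE : D1 E E' s t)
    (hsing : ∀ᵐ τ, τ ∈ Ioo s t → μ τ * D τ = S τ)
    (hE' : ∀ τ ∈ Ioo s t, |E' τ| ≤ K) (hG : ∀ τ ∈ Icc s t, |G τ| ≤ K)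
    (hc : ∀ τ ∈ Icc s t, |c τ| ≤ K) (hC : ∀ τ ∈ Icc s t, |C τ| ≤ K)
    (lG : ∀ τ ∈ Icc s t, |G τ - G s| ≤ K * l ^ 2) (lc : ∀ τ ∈ Icc s t, |c τ - c s| ≤ K * l ^ 2)
    (lC : ∀ τ ∈ Icc s t, |C τ - C s| ≤ K * l ^ 2)
    (E0 : E s = 0) (D0 : D s = 0) (D1' : D t = 0) (S0 : S s = 0) (S1 : S t = 0) :
    |G s * c s| ≤ 444 * K ^ 3 * l := by
  obtain ⟨bE, bS, bD⟩ := core1 hK l0 l1 hL hμ dD dS dκ dE hsing hE' hG hc hC E0 D0 S0 S1
  have hst : s ≤ t := by nlinarith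
  have io : ∀ τ ∈ Ioo s t, τ ∈ Icc s t := fun τ h => Ioo_subset_Icc_self h
  have hs : s ∈ Icc s t := left_mem_Icc.2 hst
  have ht : t ∈ Icc s t := right_mem_Icc.2 hst
  have K0 : 0 < K := by linarith
  have K3 : K ^ 2 ≤ K ^ 3 := pow_le_pow_right₀ hK (by norm_num)
  have p1 : K ^ 2 * l ^ 2 ≤ K ^ 3 * l ^ 2 := mul_le_mul_of_nonneg_right K3 (by positivity)
  have p2 : K ^ 3 * l ^ 4 ≤ K ^ 3 * l ^ 3 :=
    mul_le_mul_of_nonneg_left (pow_le_pow_of_le_one l0.le l1 (by norm_num)) (by positivity)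
  have p3 : K ^ 2 * l ^ 4 ≤ K ^ 3 * l ^ 4 := mul_le_mul_of_nonneg_right K3 (by positivity)
  have p4 : K ^ 3 * l ^ 6 ≤ K ^ 3 * l ^ 5 :=
    mul_le_mul_of_nonneg_left (pow_le_pow_of_le_one l0.le l1 (by norm_num)) (by positivity)
  have lG' : ∀ τ ∈ Icc s t, |G s - G τ| ≤ K * l ^ 2 := fun τ h => by
    rw [abs_sub_comm]; exact lG τ h
  have b1 := (((((dκ.sub (D1.const (κ s))).sub (D1.sig.cmul (c s))).cmul (G s)).add
    (dD.cmul (C s))).congr' (G' := fun τ => G s * (c τ - c s) + G s * (μ τ * (C τ - C s)) +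
      C s * (μ τ * (G s - G τ)) - C s * E τ) fun _ => by ring).bd (by simp [D0])
    (B := 4 * K ^ 3 * l ^ 2) (by positivity) fun τ h =>
      (as (aa (aa (am (hG s hs) (lc τ (io τ h))) (am (hG s hs) (am (hμ τ h) (lC τ (io τ h)))))
        (am (hC s hs) (am (hμ τ h) (lG' τ (io τ h))))) (am (hC s hs) (bE τ (io τ h)))).trans
        (by nlinarith)
  rw [hL] at b1
  have b2 : ∀ τ ∈ Icc s t, |G s * (κ τ - κ s - c s * (τ - s))| ≤ 8 * K ^ 3 * l ^ 3 := fun τ h => by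
    have := as (b1 τ h) (am (hC s hs) (bD τ h))
    rw [add_sub_cancel_right] at this
    nlinarith
  have b3 := (((((dS.sub (D1.sig.cmul (κ s))).sub ((D1.sig.mul D1.sig).cmul (c s / 2))).cmul
    (G s)).add (dD.mul dE)).congr' (G' := fun τ => G s * (κ τ - κ s - c s * (τ - s)) +
      μ τ * E τ * (G s - G τ) - E τ * E τ + D τ * E' τ) fun _ => by ring).bd (by simp [S0, D0])
    (B := 14 * K ^ 3 * l ^ 3) (by positivity) fun τ h =>
      (aa (as (aa (b2 τ (io τ h)) (am (am (hμ τ h) (bE τ (io τ h))) (lG' τ (io τ h))))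
        (am (bE τ (io τ h)) (bE τ (io τ h)))) (am (bD τ (io τ h)) (hE' τ h))).trans
        (by nlinarith)
  rw [hL] at b3
  have b4 : ∀ τ ∈ Icc s t, |G s * (S τ - κ s * (τ - s) - c s / 2 * ((τ - s) * (τ - s)))| ≤
      18 * K ^ 3 * l ^ 5 := fun τ h => by
    have := as (b3 τ h) (am (bD τ h) (bE τ h))
    rw [add_sub_cancel_right] at this
    exact this.trans (le_of_eq (by ring))
  have b5 := ((((dD.mul dD).cmul (1 / 2)).add ((((D1.sig.mul D1.sig).cmul (κ s / 2)).add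
    (((D1.sig.mul D1.sig).mul D1.sig).cmul (c s / 6))).cmul (G s))).congr
    (G' := fun τ => (G s - G τ) * S τ - E τ * D τ -
      G s * (S τ - κ s * (τ - s) - c s / 2 * ((τ - s) * (τ - s)))) (by
      filter_upwards [hsing] with τ h1 h2
      rw [← h1 h2]
      ring)).bd (by simp [D0]) (B := 28 * K ^ 3 * l ^ 5) (by positivity) (fun τ h =>
      (as (as (am (lG' τ (io τ h)) (bS τ (io τ h))) (am (bE τ (io τ h)) (bD τ (io τ h))))
        (b4 τ (io τ h))).trans (by nlinarith)) t ht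
  have b6 := b4 t ht
  simp only [D1', S1, hL] at b5 b6
  have b7 := aa (am (by rw [abs_of_nonneg (by positivity)] : |l ^ 2 / 2| ≤ l ^ 2 / 2) b6) b5
  have e1 : l ^ 2 / 2 * (G s * (0 - κ s * l ^ 2 - c s / 2 * (l ^ 2 * l ^ 2))) +
      (1 / 2 * (0 * 0) + G s * (κ s / 2 * (l ^ 2 * l ^ 2) + c s / 6 * (l ^ 2 * l ^ 2 * l ^ 2))) =
      -(G s * c s) * (l ^ 6 / 12) := by ring
  rw [e1, abs_mul, abs_neg, abs_of_pos (by positivity : 0 < l ^ 6 / 12)] at b7
  refine le_of_mul_le_mul_right (b7.trans (le_of_eq ?_)) (by positivity : 0 < l ^ 6 / 12)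
  ring

theorem cb1 {p q A x1 x2 x3 x4 x5 x6 : ℝ} (hp : |p| ≤ 2) (hq : |q| ≤ 3) (h1 : |x1| ≤ A)
    (h2 : |x2| ≤ A) (h3 : |x3| ≤ A) (h4 : |x4| ≤ A) (h5 : |x5| ≤ A) (h6 : |x6| ≤ A) :
    |p * p * (p * x1 + q * x2) + 2 * (p * q) * (p * x3 + q * x4) + q * q * (p * x5 + q * x6)| ≤
      125 * A :=
  (aa (aa (am (am hp hp) (aa (am hp h1) (am hq h2)))
    (am (am (by norm_num : |(2 : ℝ)| ≤ 2) (am hp hq)) (aa (am hp h3) (am hq h4))))
    (am (am hq hq) (aa (am hp h5) (am hq h6)))).trans (le_of_eq (by ring))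

theorem cb2 {p q A x1 x2 x3 x4 x5 x6 : ℝ} (hp : |p| ≤ 2) (hq : |q| ≤ 3) (h1 : |x1| ≤ A)
    (h2 : |x2| ≤ A) (h3 : |x3| ≤ A) (h4 : |x4| ≤ A) (h5 : |x5| ≤ A) (h6 : |x6| ≤ A) :
    |p * p * (x1 - x2) + 2 * (p * q) * (x3 - x4) + q * q * (x5 - x6)| ≤ 125 * A := by
  have := (aa (aa (am (am hp hp) (as h1 h2))
    (am (am (by norm_num : |(2 : ℝ)| ≤ 2) (am hp hq)) (as h3 h4))) (am (am hq hq) (as h5 h6)))
  linarith [(abs_nonneg _).trans h1]

/-- The estimate along an extremal. -/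
theorem ext_bound (e : Ext) {B s t l P : ℝ} (hB : 1 ≤ B)
    (hb : ∀ w : List Bool, w.length ≤ 4 → ∀ τ ∈ Icc 0 e.δ, |e.h w τ| ≤ B)
    (hs : 0 ≤ s) (ht : t ≤ e.δ) (l0 : 0 < l) (l1 : l ≤ 1) (hL : t - s = l ^ 2)
    (hφ : ∀ τ ∈ Ioo s t, e.φ τ = 0) (a0 : e.a s = 0) (b0 : e.b s = 0) (a1 : e.a t = 0)
    (b1 : e.b t = 0) (hP : |P| ≤ 2)
    (E0 : P * (e.α s - e.β s) + (1 - P) * (e.β s - e.γ s) = 0) :
    |(e.α s - 2 * e.β s + e.γ s) * cub (fun w => e.h w s) P (1 - P)| ≤ 444 * (125 * B) ^ 3 * l := by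
  have hst : s < t := by nlinarith
  have hQ : |1 - P| ≤ 3 := (as (by norm_num : |(1 : ℝ)| ≤ 1) hP).trans (by norm_num)
  have sub : ∀ τ ∈ Icc s t, τ ∈ Icc 0 e.δ := fun τ h => ⟨hs.trans h.1, h.2.trans ht⟩
  have io : ∀ τ ∈ Ioo s t, τ ∈ Icc s t := fun τ h => Ioo_subset_Icc_self h
  have dw : ∀ w : List Bool, D1 (e.h w)
      (fun τ => e.m τ * e.h (true :: w) τ + (1 - e.m τ) * e.h (false :: w) τ) s t :=
    fun w => D1.of_dd ((e.dh w).mono hs hst.le ht)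
  have bw : ∀ w : List Bool, w.length ≤ 3 → ∀ τ ∈ Ioo s t,
      |e.m τ * e.h (true :: w) τ + (1 - e.m τ) * e.h (false :: w) τ| ≤ B := by
    intro w hw τ h
    have h1 := hb (true :: w) (by simp only [List.length_cons]; omega) τ (sub τ (io τ h))
    have h2 := hb (false :: w) (by simp only [List.length_cons]; omega) τ (sub τ (io τ h))
    have h3 : |e.m τ| ≤ e.m τ := (abs_of_nonneg (e.m0 τ)).le
    have h4 : |1 - e.m τ| ≤ 1 - e.m τ := (abs_of_nonneg (by linarith [e.m1 τ])).le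
    exact (aa (am h3 h1) (am h4 h2)).trans (le_of_eq (by ring))
  have lw : ∀ w : List Bool, w.length ≤ 3 → ∀ τ ∈ Icc s t, |e.h w τ - e.h w s| ≤ B * l ^ 2 :=
    fun w hw => hL ▸ (dw w).lip (by linarith) (bw w hw)
  have hb' : ∀ w : List Bool, w.length ≤ 4 → ∀ τ ∈ Icc s t, |e.h w τ| ≤ B :=
    fun w hw τ h => hb w hw τ (sub τ h)
  have key := core (μ := fun τ => e.m τ - P) (D := fun τ => e.b τ - e.a τ)
    (S := fun τ => P * e.a τ + (1 - P) * e.b τ)
    (κ := fun τ => P * P * e.α τ + 2 * (P * (1 - P)) * e.β τ + (1 - P) * (1 - P) * e.γ τ)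
    (E := fun τ => P * (e.α τ - e.β τ) + (1 - P) * (e.β τ - e.γ τ))
    (G := fun τ => e.α τ - 2 * e.β τ + e.γ τ)
    (c := fun τ => P * P * (P * e.h [true, true, true] τ + (1 - P) * e.h [false, true, true] τ) +
      2 * (P * (1 - P)) * (P * e.h [true, true, false] τ + (1 - P) * e.h [false, true, false] τ) +
      (1 - P) * (1 - P) * (P * e.h [true, false, false] τ + (1 - P) * e.h [false, false, false] τ))
    (C := fun τ => P * P * (e.h [true, true, true] τ - e.h [false, true, true] τ) +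
      2 * (P * (1 - P)) * (e.h [true, true, false] τ - e.h [false, true, false] τ) +
      (1 - P) * (1 - P) * (e.h [true, false, false] τ - e.h [false, false, false] τ))
    (K := 125 * B) (by linarith) l0 l1 hL
    (fun τ _ => by
      have h3 : |e.m τ| ≤ 1 := by rw [abs_of_nonneg (e.m0 τ)]; exact e.m1 τ
      linarith [as h3 hP])
    (((dw [false]).sub (dw [true])).congr' fun τ => by simp only [e.sym0]; ring)
    ((((dw [true]).cmul P).add ((dw [false]).cmul (1 - P))).congr' fun τ => by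
      simp only [e.sym0]; ring)
    (((((dw [true, true]).cmul (P * P)).add ((dw [true, false]).cmul (2 * (P * (1 - P))))).add
      ((dw [false, false]).cmul ((1 - P) * (1 - P)))).congr' fun τ => by ring)
    ((((dw [true, true]).sub (dw [true, false])).cmul P).add
      (((dw [true, false]).sub (dw [false, false])).cmul (1 - P)))
    (by
      filter_upwards [(Ext.flat_W hs hst ht hφ).2] with τ h1 h2
      linarith [h1 h2])
    (fun τ h => by
      have := aa (am hP (as (bw [true, true] (by simp) τ h) (bw [true, false] (by simp) τ h)))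
        (am hQ (as (bw [true, false] (by simp) τ h) (bw [false, false] (by simp) τ h)))
      linarith)
    (fun τ h => by
      have := aa (as (hb' [true, true] (by simp) τ h)
        (am (by norm_num : |(2 : ℝ)| ≤ 2) (hb' [true, false] (by simp) τ h)))
        (hb' [false, false] (by simp) τ h)
      linarith)
    (fun τ h => cb1 hP hQ (hb' _ (by simp) τ h) (hb' _ (by simp) τ h) (hb' _ (by simp) τ h)
      (hb' _ (by simp) τ h) (hb' _ (by simp) τ h) (hb' _ (by simp) τ h))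
    (fun τ h => cb2 hP hQ (hb' _ (by simp) τ h) (hb' _ (by simp) τ h) (hb' _ (by simp) τ h)
      (hb' _ (by simp) τ h) (hb' _ (by simp) τ h) (hb' _ (by simp) τ h))
    (fun τ h => by
      have := aa (as (lw [true, true] (by simp) τ h)
        (am (by norm_num : |(2 : ℝ)| ≤ 2) (lw [true, false] (by simp) τ h)))
        (lw [false, false] (by simp) τ h)
      have h0 : 0 ≤ B * l ^ 2 := by positivity
      refine le_trans (le_of_eq ?_) (this.trans (by linarith))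
      congr 1
      ring)
    (fun τ h => by
      have := cb1 hP hQ (lw [true, true, true] (by simp) τ h) (lw [false, true, true] (by simp) τ h)
        (lw [true, true, false] (by simp) τ h) (lw [false, true, false] (by simp) τ h)
        (lw [true, false, false] (by simp) τ h) (lw [false, false, false] (by simp) τ h)
      refine le_trans (le_of_eq ?_) (this.trans (le_of_eq (by ring)))
      congr 1
      ring)
    (fun τ h => by
      have := cb2 hP hQ (lw [true, true, true] (by simp) τ h) (lw [false, true, true] (by simp) τ h)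
        (lw [true, true, false] (by simp) τ h) (lw [false, true, false] (by simp) τ h)
        (lw [true, false, false] (by simp) τ h) (lw [false, false, false] (by simp) τ h)
      refine le_trans (le_of_eq ?_) (this.trans (le_of_eq (by ring)))
      congr 1
      ring)
    E0 (by simp [a0, b0]) (by simp [a1, b1]) (by simp [a0, b0]) (by simp [a1, b1])
  have s1 : e.h [true, false, true] s = e.h [true, true, false] s := (congrFun (e.sym [true]) s).symm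
  have s2 : e.h [false, false, true] s = e.h [false, true, false] s :=
    (congrFun (e.sym [false]) s).symm
  refine le_trans (le_of_eq ?_) key
  simp only [cub, s1, s2]
  congr 1
  ring

/-- The case of a strictly monotone combination. -/
theorem mono_case {θ₁ θ₂ : ℝ} (h1 : 0 < θ₁ * h₀ [true, true] + θ₂ * h₀ [true, false])
    (h2 : 0 < θ₁ * h₀ [true, false] + θ₂ * h₀ [false, false]) :
    ∃ ε > 0, ∀ e : Ext, e.Near h₀ ε → ∀ s t, 0 ≤ s → s < t → t ≤ e.δ →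
      e.a s = 0 → e.b s = 0 → e.a t = 0 → e.b t = 0 → False := by
  obtain ⟨c, c0, c1, c2⟩ : ∃ c : ℝ, 0 < c ∧ c < θ₁ * h₀ [true, true] + θ₂ * h₀ [true, false] ∧
      c < θ₁ * h₀ [true, false] + θ₂ * h₀ [false, false] := by
    obtain ⟨c, hc0, hc⟩ := exists_between (lt_min h1 h2)
    exact ⟨c, hc0, (lt_min_iff.1 hc).1, (lt_min_iff.1 hc).2⟩
  have e1 : ∀ᶠ h in 𝓝 h₀, c < θ₁ * h [true, true] + θ₂ * h [true, false] :=
    ContinuousAt.eventually_lt (f := fun _ => c)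
      (g := fun h : List Bool → ℝ => θ₁ * h [true, true] + θ₂ * h [true, false])
      continuousAt_const (by fun_prop) c1
  have e2 : ∀ᶠ h in 𝓝 h₀, c < θ₁ * h [true, false] + θ₂ * h [false, false] :=
    ContinuousAt.eventually_lt (f := fun _ => c)
      (g := fun h : List Bool → ℝ => θ₁ * h [true, false] + θ₂ * h [false, false])
      continuousAt_const (by fun_prop) c2
  obtain ⟨ε, hε, H⟩ := exists_eps (h₀ := h₀) (Q := fun h =>
      c < θ₁ * h [true, true] + θ₂ * h [true, false] ∧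
      c < θ₁ * h [true, false] + θ₂ * h [false, false]) (e1.and e2)
  refine ⟨ε, hε, fun e he s t hs hst ht a0 b0 a1 b1 => ?_⟩
  have d := ((DD.id.cmul c).sub (((e.dh [true]).cmul θ₁).add ((e.dh [false]).cmul θ₂))).mono
    hs hst.le ht
  have := d.le_of_ae hst.le (Eventually.of_forall fun τ hτ => by
    have h := H (fun w => e.h w τ) fun w hw => he.2 w hw τ ⟨by linarith [hτ.1], by linarith [hτ.2]⟩
    simp only [List.length_cons, List.length_nil, zero_add, Nat.reduceAdd, Nat.reduceLeDiff,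
      if_true] at h
    rw [e.sym0]
    nlinarith [e.m0 τ, e.m1 τ, h.1, h.2, mul_nonneg (e.m0 τ) (sub_pos.2 h.1).le,
      mul_nonneg (sub_nonneg.2 (e.m1 τ)) (sub_pos.2 h.2).le])
  simp only [show e.h [true] s = 0 from a0, show e.h [false] s = 0 from b0,
    show e.h [true] t = 0 from a1, show e.h [false] t = 0 from b1] at this
  nlinarith

theorem exists_bound (h₀ : List Bool → ℝ) :
    ∃ B : ℝ, 1 ≤ B ∧ ∀ w : List Bool, w.length ≤ 4 → |h₀ w| + 1 ≤ B := by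
  obtain ⟨B, hB⟩ := ((List.finite_length_le Bool 4).image fun w => |h₀ w| + 1).bddAbove
  refine ⟨B, ?_, fun w hw => hB ⟨w, hw, rfl⟩⟩
  have := hB ⟨[], by simp, rfl⟩
  linarith [abs_nonneg (h₀ [])]

/-- The degenerate case. -/
theorem deg_case {P : ℝ} (hP : P ∈ Ioo (0 : ℝ) 1)
    (hG : h₀ [true, true] - 2 * h₀ [true, false] + h₀ [false, false] ≠ 0)
    (hE : P * (h₀ [true, true] - 2 * h₀ [true, false] + h₀ [false, false]) =
      h₀ [false, false] - h₀ [true, false]) (hc : cub h₀ P (1 - P) ≠ 0) :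
    ∃ ε > 0, ∀ e : Ext, e.Near h₀ ε → ∀ s t, 0 ≤ s → s < t → t ≤ e.δ →
      (∀ τ ∈ Ioo s t, e.φ τ = 0) → e.a s = 0 → e.b s = 0 → e.a t = 0 → e.b t = 0 → False := by
  obtain ⟨B, hB, hb⟩ := exists_bound h₀
  obtain ⟨G, hGd⟩ : ∃ G : (List Bool → ℝ) → ℝ,
    G = fun h => h [true, true] - 2 * h [true, false] + h [false, false] := ⟨_, rfl⟩
  obtain ⟨p, hpd⟩ : ∃ p : (List Bool → ℝ) → ℝ,
    p = fun h => (h [false, false] - h [true, false]) / G h := ⟨_, rfl⟩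
  have G0 : G h₀ = h₀ [true, true] - 2 * h₀ [true, false] + h₀ [false, false] := by rw [hGd]
  have hG' : G h₀ ≠ 0 := G0 ▸ hG
  have p0 : p h₀ = P := by
    simp only [hpd]
    rw [div_eq_iff hG', G0, hE]
  have cG : ContinuousAt G h₀ := by rw [hGd]; fun_prop
  have cp : ContinuousAt p h₀ := by
    rw [hpd]; exact ContinuousAt.div (by fun_prop) cG hG'
  have cc : ContinuousAt (fun h => |G h * cub h (p h) (1 - p h)|) h₀ := by
    unfold cub
    have ca : ∀ w : List Bool, ContinuousAt (fun h : List Bool → ℝ => h w) h₀ :=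
      fun w => continuousAt_apply w h₀
    have cq : ContinuousAt (fun h => 1 - p h) h₀ := continuousAt_const.sub cp
    exact (cG.mul (((((cp.pow 3).mul (ca _)).add (((cp.pow 2).mul cq).mul
      (((ca _).add (ca _)).add (ca _)))).add ((cp.mul (cq.pow 2)).mul
      (((ca _).add (ca _)).add (ca _)))).add ((cq.pow 3).mul (ca _)))).abs
  obtain ⟨g, g0, g1⟩ := exists_between (abs_pos.2 (mul_ne_zero hG hc))
  have e2 : ∀ᶠ h in 𝓝 h₀, |p h| < 2 :=
    ContinuousAt.eventually_lt (f := fun h => |p h|) (g := fun _ => (2 : ℝ)) cp.abs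
      continuousAt_const (by
        show |p h₀| < 2
        rw [p0, abs_of_pos hP.1]; linarith [hP.2])
  have e3 : ∀ᶠ h in 𝓝 h₀, g < |G h * cub h (p h) (1 - p h)| :=
    ContinuousAt.eventually_lt (f := fun _ => g) (g := fun h => |G h * cub h (p h) (1 - p h)|)
      continuousAt_const cc (by
        show g < |G h₀ * cub h₀ (p h₀) (1 - p h₀)|
        rw [p0, G0]; exact g1)
  obtain ⟨ε, hε, H⟩ := exists_eps (h₀ := h₀) (Q := fun h =>
      G h ≠ 0 ∧ |p h| < 2 ∧ g < |G h * cub h (p h) (1 - p h)|)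
    ((cG.eventually_ne hG').and (e2.and e3))
  obtain ⟨r, r0, r1, r2⟩ : ∃ r : ℝ, 0 < r ∧ r ≤ 1 ∧ 444 * (125 * B) ^ 3 * r ≤ g := by
    refine ⟨min 1 (g / (444 * (125 * B) ^ 3)), by positivity, min_le_left _ _, ?_⟩
    have := min_le_right 1 (g / (444 * (125 * B) ^ 3))
    rw [le_div_iff₀ (by positivity)] at this
    linarith
  refine ⟨min ε (r ^ 2), by positivity, fun e he s t hs hst ht hφ a0 b0 a1 b1 => ?_⟩
  have r3 : r ^ 2 ≤ 1 := pow_le_one₀ r0.le r1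
  have h := H (fun w => e.h w s) fun w hw =>
    (he.2 w hw s ⟨hs, by linarith⟩).trans (min_le_left _ _)
  simp only [hpd, hGd, cub, List.length_cons, List.length_nil, zero_add, Nat.reduceAdd,
    Nat.reduceLeDiff, if_true] at h
  obtain ⟨k1, k2, k3⟩ := h
  have lr : √(t - s) ≤ r := by
    rw [Real.sqrt_le_iff]
    exact ⟨r0.le, by linarith [he.1, min_le_right ε (r ^ 2)]⟩
  have key := ext_bound e (s := s) (t := t) (l := √(t - s)) hB (fun w hw τ hτ => by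
      have h1 := (he.2 w hw τ hτ).trans (min_le_right _ _)
      have h2 := aa h1 (le_refl |h₀ w|)
      rw [sub_add_cancel] at h2
      linarith [hb w hw]) hs ht (Real.sqrt_pos.2 (by linarith)) (lr.trans r1)
    (Real.sq_sqrt (by linarith)).symm hφ a0 b0 a1 b1 k2.le (by
      simp only [Ext.α, Ext.β, Ext.γ]
      linear_combination div_mul_cancel₀
        (e.h [false, false] s - e.h [true, false] s) k1)
  have k4 : 444 * (125 * B) ^ 3 * √(t - s) ≤ 444 * (125 * B) ^ 3 * r :=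
    mul_le_mul_of_nonneg_left lr (by positivity)
  simp only [cub, Ext.α, Ext.β, Ext.γ] at key
  linarith

end UJunc

theorem tricho {α β γ : ℝ} (h1 : α = 0 → β ≠ 0) (h2 : γ = 0 → β ≠ 0) :
    (∃ θ₁ θ₂ : ℝ, 0 < θ₁ ∧ 0 < θ₂ ∧ ((0 < θ₁ * α + θ₂ * β ∧ 0 < θ₁ * β + θ₂ * γ) ∨
      (θ₁ * α + θ₂ * β < 0 ∧ θ₁ * β + θ₂ * γ < 0))) ∨ (β = 0 ∧ α * γ < 0) ∨
    ∃ P ∈ Ioo (0 : ℝ) 1, P * α + (1 - P) * β = 0 ∧ P * β + (1 - P) * γ = 0 := by
  rcases lt_trichotomy β 0 with h | h | h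
  · rcases UJunc.tricho_pos (α := -α) (β := -β) (γ := -γ) (by linarith) with
      ⟨a, b, ha, hb, h'⟩ | ⟨P, hP, e1, e2⟩
    · refine Or.inl ⟨a, b, ha, hb, ?_⟩
      rcases h' with h' | h'
      · exact Or.inr ⟨by linarith [h'.1], by linarith [h'.2]⟩
      · exact Or.inl ⟨by linarith [h'.1], by linarith [h'.2]⟩
    · exact Or.inr (Or.inr ⟨P, hP, by linarith, by linarith⟩)
  · have ha : α ≠ 0 := fun e => h1 e h
    have hc : γ ≠ 0 := fun e => h2 e h
    rcases lt_or_gt_of_ne ha with ha | ha <;> rcases lt_or_gt_of_ne hc with hc | hc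
    · exact Or.inl ⟨1, 1, one_pos, one_pos, Or.inr ⟨by linarith, by linarith⟩⟩
    · exact Or.inr (Or.inl ⟨h, mul_neg_of_neg_of_pos ha hc⟩)
    · exact Or.inr (Or.inl ⟨h, mul_neg_of_pos_of_neg ha hc⟩)
    · exact Or.inl ⟨1, 1, one_pos, one_pos, Or.inl ⟨by linarith, by linarith⟩⟩
  · rcases UJunc.tricho_pos (α := α) (γ := γ) h with h' | h'
    · exact Or.inl h'
    · exact Or.inr (Or.inr h')

theorem junctions (hg : Gen h₀) (ha : h₀ [true] = 0) (hb : h₀ [false] = 0) :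
    ∃ ε > 0, ∀ e : Ext, e.Near h₀ ε → ∀ s t, 0 ≤ s → s < t → t ≤ e.δ →
      (∀ τ ∈ Ioo s t, e.φ τ = 0) → e.a s = 0 → e.b s = 0 → e.a t = 0 → e.b t = 0 → False := by
  have key : ∀ θ₁ θ₂ : ℝ, 0 < θ₁ * h₀ [true, true] + θ₂ * h₀ [true, false] →
      0 < θ₁ * h₀ [true, false] + θ₂ * h₀ [false, false] →
      ∃ ε > 0, ∀ e : Ext, e.Near h₀ ε → ∀ s t, 0 ≤ s → s < t → t ≤ e.δ →
      (∀ τ ∈ Ioo s t, e.φ τ = 0) → e.a s = 0 → e.b s = 0 → e.a t = 0 → e.b t = 0 → False := by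
    intro θ₁ θ₂ h1 h2
    obtain ⟨ε, hε, H⟩ := UJunc.mono_case h1 h2
    exact ⟨ε, hε, fun e he s t hs hst ht _ => H e he s t hs hst ht⟩
  rcases tricho (hg.g3 true ha hb) (hg.g3 false ha hb) with
    ⟨θ₁, θ₂, -, -, h | h⟩ | ⟨h1, h2⟩ | ⟨P, hP, e1, e2⟩
  · exact key θ₁ θ₂ h.1 h.2
  · exact key (-θ₁) (-θ₂) (by linarith [h.1]) (by linarith [h.2])
  · refine key (h₀ [true, true]) (h₀ [false, false]) ?_ ?_
    · have : h₀ [true, true] ≠ 0 := fun e => by simp [e] at h2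
      rw [h1, mul_zero, add_zero]
      exact mul_self_pos.2 this
    · have : h₀ [false, false] ≠ 0 := fun e => by simp [e] at h2
      rw [h1, mul_zero, zero_add]
      exact mul_self_pos.2 this
  · have hE : P * (h₀ [true, true] - 2 * h₀ [true, false] + h₀ [false, false]) =
        h₀ [false, false] - h₀ [true, false] := by linarith
    refine UJunc.deg_case hP (fun h => ?_) hE (hg.g5 ha hb P (Ioo_subset_Icc_self hP) e1 e2)
    rw [h, mul_zero] at hE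
    have h3 : h₀ [false, false] = h₀ [true, false] := by linarith
    rw [h3] at e2
    have h4 : h₀ [true, false] = 0 := by linarith
    exact hg.g3 false ha hb (h3.trans h4) h4

theorem flat_bdd (hg : Gen h₀) :
    ∃ ε > 0, ∀ e : Ext, e.Near h₀ ε → e.Flat → e.Br.encard ≤ 1 := by
  have key : ∀ i : Bool, h₀ [i] ≠ 0 →
      ∃ ε > 0, ∀ e : Ext, e.Near h₀ ε → e.Flat → e.Br.encard ≤ 1 := by
    intro i hi
    have h0 := abs_pos.2 hi
    refine ⟨|h₀ [i]| / 2, by positivity, fun e he hf => ?_⟩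
    rw [Set.encard_le_one_iff]
    intro t _ ht _
    have h1 := he.2 [i] (by simp) t (Ioo_subset_Icc_self ht.1)
    have h2 : e.h [i] t = 0 := by
      cases i
      · exact (hf.junction ht).2
      · exact (hf.junction ht).1
    rw [h2, zero_sub, abs_neg] at h1
    linarith
  by_cases ha : h₀ [true] = 0
  · by_cases hb : h₀ [false] = 0
    · obtain ⟨ε, hε, H⟩ := junctions hg ha hb
      refine ⟨ε, hε, fun e he hf => ?_⟩
      have k : ∀ s ∈ e.Br, ∀ t ∈ e.Br, ¬s < t := fun s hs t ht hst =>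
        H e he s t hs.1.1.le hst ht.1.2.le
          (fun τ hτ => hf τ ⟨by linarith [hs.1.1, hτ.1], by linarith [ht.1.2, hτ.2]⟩)
          (hf.junction hs).1 (hf.junction hs).2 (hf.junction ht).1 (hf.junction ht).2
      rw [Set.encard_le_one_iff]
      exact fun s t hs ht => le_antisymm (not_lt.1 (k t ht s hs)) (not_lt.1 (k s hs t ht))
    · exact key false hb
  · exact key true ha

end Pool.Agent.Lib.MP_f4f7c0_an
end

-- part Pool.Agent.Lib.MP_f4f7c0_an.UCaseE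
section

/-! The remaining cases and the bound for short extremals. -/

namespace Pool.Agent.Lib.MP_f4f7c0_an

open Set Filter Topology MeasureTheory

variable {h₀ : List Bool → ℝ}

namespace UCaseE
open Ext
variable {e : Ext} {s t u v ε : ℝ}

theorem bd (h : e.Near h₀ ε) (w : List Bool) (hw : w.length ≤ 4) {τ : ℝ} (h0 : 0 ≤ τ)
    (h1 : τ ≤ e.δ) : h₀ w - ε ≤ e.h w τ ∧ e.h w τ ≤ h₀ w + ε := by
  have := abs_le.1 (h.2 w hw τ ⟨h0, h1⟩)
  exact ⟨by linarith [this.1], by linarith [this.2]⟩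

theorem bdA (h : e.Near h₀ ε) (w : List Bool) (hw : w.length ≤ 4) (ha : e.Arc s t) :
    ∀ τ ∈ Ioo s t, h₀ w - ε ≤ e.h w τ ∧ e.h w τ ≤ h₀ w + ε := fun _ hτ =>
  bd h w hw (ha.pos.trans hτ.1).le (hτ.2.trans ha.lt_δ).le

theorem dA {F Fp Fm : ℝ → ℝ} (h : DD e.m F Fp Fm 0 e.δ) (ha : e.Arc s t) : DD e.m F Fp Fm s t :=
  h.mono ha.pos.le ha.lt.le ha.lt_δ.le

theorem enc {A B : Set ℝ} {m n : ℕ} (hA : A.encard ≤ m) (hB : B.encard ≤ n) :
    (A ∪ B).encard ≤ (m + n : ℕ) := by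
  push_cast
  exact (encard_union_le A B).trans (add_le_add hA hB)

theorem gen_swap (hg : Gen h₀) (hs : h₀ [true, false] = h₀ [false, true]) :
    Gen fun w => -h₀ (w.map not) :=
  (hg.swap hs).congr (c := -1) (d := 1) (by norm_num) one_ne_zero fun w _ => by simp

theorem gen_rev (hg : Gen h₀) : Gen fun w => (-1) ^ (w.length + 1) * h₀ w :=
  hg.congr (c := -1) (d := -1) (by norm_num) (by norm_num) fun w _ => by ring

/-- The combination `p a + q b`. -/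
def Sg (e : Ext) (p q τ : ℝ) : ℝ := p * e.a τ + q * e.b τ

theorem swap_Sg (p q τ : ℝ) : Sg e.swap q p τ = -Sg e p q τ := by
  simp only [Sg, swap_a, swap_b]; ring

theorem dSg (e : Ext) (p q : ℝ) : DD e.m (Sg e p q) (fun τ => p * e.α τ + q * e.β τ)
    (fun τ => p * e.β τ + q * e.γ τ) 0 e.δ :=
  (((e.dh [true]).cmul p).add ((e.dh [false]).cmul q)).congr (fun _ _ => rfl) fun τ _ => by
    rw [e.sym0]

/-- Taylor bounds for `p W + q IB` on an `X` arc. -/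
theorem tay (ha : e.Arc s t) (hX : e.IsX s t) (p q : ℝ) {l r : ℝ}
    (hH : ∀ τ ∈ Ioo s t, l ≤ p * e.α τ + q * e.β τ ∧ p * e.α τ + q * e.β τ ≤ r) :
    Sg e p q s * (t - s) + l * (t - s) ^ 2 / 2 ≤ p * (e.W t - e.W s) + q * (e.IB t - e.IB s) ∧
    Sg e p q t * (t - s) - r * (t - s) ^ 2 / 2 ≤ p * (e.W t - e.W s) + q * (e.IB t - e.IB s) := by
  have := hX.taylor ha.lt.le (dA (((e.dh []).cmul p).add (e.dIB.cmul q)) ha) (dA (dSg e p q) ha) hH
  unfold Sg
  exact ⟨by linarith [this.1.1], by linarith [this.2.1]⟩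

theorem good (hX : e.IsX s t) (hb : ¬e.BadX ε s t) : e.IB t - e.IB s ≤ ε * (t - s) ^ 2 :=
  not_lt.1 fun h => hb ⟨hX, h⟩

/-- Four arcs without `X` arc, junction and doubly tangential `Y` arc do not exist. -/
theorem run4 (hG : e.GenAll) {τ : ℕ → ℝ} (ha : ∀ i < 4, e.Arc (τ i) (τ (i + 1)))
    (hX : ∀ i < 4, ¬e.IsX (τ i) (τ (i + 1)))
    (hJ : ∀ i < 3, ¬(e.a (τ (i + 1)) = 0 ∧ e.b (τ (i + 1)) = 0))
    (hD : ∀ i < 4, ¬e.swap.DT (τ i) (τ (i + 1))) : False := by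
  have ty : ∀ i < 4, e.IsY (τ i) (τ (i + 1)) ∨ e.IsS (τ i) (τ (i + 1)) := fun i hi =>
    ((ha i hi).type hG).resolve_left (hX i hi)
  have YS : ∀ i < 3, e.IsY (τ i) (τ (i + 1)) → e.IsS (τ (i + 1)) (τ (i + 1 + 1)) := fun i hi h =>
    (ty (i + 1) (by omega)).resolve_left ((ha i (by omega)).not_YY (ha (i + 1) (by omega)) h)
  have SY : ∀ i < 3, e.IsS (τ i) (τ (i + 1)) → e.IsY (τ (i + 1)) (τ (i + 1 + 1)) := fun i hi h =>
    (ty (i + 1) (by omega)).resolve_right fun h' =>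
      hJ i hi ((ha i (by omega)).junction (ha (i + 1) (by omega)) h h')
  have key : ∀ i < 2, ¬e.IsS (τ i) (τ (i + 1)) := fun i hi h =>
    hD (i + 1) (by omega) (Arc.dt (swap_arc.2 (ha i (by omega))) (swap_arc.2 (ha (i + 1) (by omega)))
      (swap_arc.2 (ha (i + 1 + 1) (by omega))) (swap_isS.2 h) (swap_isX.2 (SY i (by omega) h))
      (swap_isS.2 (YS (i + 1) (by omega) (SY i (by omega) h))))
  exact key 1 (by omega) (YS 0 (by omega) ((ty 0 (by omega)).resolve_right (key 0 (by omega))))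

theorem sq_pos' (ha : e.Arc s t) : 0 < (t - s) ^ 2 := pow_pos (sub_pos.2 ha.lt) 2

/-- The end slope of `W` on an `X` arc is negative when `α` is. -/
theorem a_neg (h : e.Near h₀ ε) (hα : h₀ [true, true] + ε < 0) (ha : e.Arc s t) (hX : e.IsX s t) :
    e.a t < 0 := by
  have h1 := (hX.taylor ha.lt.le (dA (e.dh []) ha) (dA (e.dh [true]) ha)
    (bdA h [true, true] (by simp) ha)).2.1
  have h2 := ha.W_sign hX
  have h3 := mul_neg_of_neg_of_pos hα (sq_pos' ha)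
  have h4 : e.h [true] t * (t - s) < 0 := by linarith [h2.1, h2.2]
  exact neg_of_mul_neg_left h4 (sub_pos.2 ha.lt).le

theorem not_XYX (h : e.Near h₀ ε) (hε : 0 < ε) (hα : h₀ [true, true] ≤ -10 * ε)
    (hβ : h₀ [true, false] = 0) (hγ : 10 * ε ≤ h₀ [false, false]) (h1 : e.Arc s t)
    (h2 : e.Arc t u) (h3 : e.Arc u v) (x1 : e.IsX s t) (x2 : e.IsY t u) (x3 : e.IsX u v)
    (hb : ¬e.BadX ε u v) : False := by
  have l2 := sub_pos.2 h2.lt
  have l3 := sub_pos.2 h3.lt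
  have a1 := a_neg h (by linarith) h1 x1
  have a2 : e.a u ≤ ε * (u - t) := by
    have := (swap_isX.2 x2).anti ((dA (e.dh [true]) h2).sub ((DD.id.cmul ε))).swap h2.lt.le
      fun τ hτ => by
        have := (bdA h [true, false] (by simp) h2 τ hτ).2
        rw [e.sym0]
        linarith
    linarith
  have b1 := (x3.slopes h3.pos.le h3.lt h3.lt_δ.le (Br.φ0 h3.left) (Br.φ0 h3.right)
    (bdA h [true, true] (by simp) h3)).1
  have b2 := (x3.taylor h3.lt.le (dA (e.dh []) h3) (dA (e.dh [true]) h3)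
    (bdA h [true, true] (by simp) h3)).1.2
  have b3 := (x3.taylor h3.lt.le (dA e.dIB h3) (dA (e.dh [false]) h3)
    (bdA h [true, false] (by simp) h3)).1.1
  have b4 := good x3 hb
  have b5 : e.b u ≤ 3 / 2 * ε * (v - u) := by
    refine le_of_mul_le_mul_right ?_ l3
    rw [hβ] at b3
    linarith
  have h2' := swap_arc.2 h2
  have c1 := ((swap_isX.2 x2).slopes h2'.pos.le h2'.lt h2'.lt_δ.le (Br.φ0 h2'.left)
    (Br.φ0 h2'.right) (bdA h.swap [true, true] (by simp) h2')).1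
  have c2 := ((swap_isX.2 x2).taylor h2.lt.le (dA (e.swap.dh []) h2') (dA (e.swap.dh [true]) h2')
    (bdA h.swap [true, true] (by simp) h2')).2.1
  simp only [swap_h, List.map_cons, List.map_nil, Bool.not_true] at c1 c2
  have d1 := mul_le_mul_of_nonneg_right a2 l3.le
  have d2 := mul_le_mul_of_nonneg_right b5 l2.le
  have d3 := mul_le_mul_of_nonneg_right hα (sq_nonneg (v - u))
  have d4 := mul_le_mul_of_nonneg_right hγ (sq_nonneg (u - t))
  have d5 := mul_nonneg hε.le (sq_nonneg (v - u - (u - t)))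
  have d6 := mul_pos hε (sq_pos' h3)
  have d7 := mul_pos hε (sq_pos' h2)
  nlinarith

/-- The sign of `P a + (1 - P) b` at the ends of a good `X` arc in the degenerate case. -/
theorem sg_neg (h : e.Near h₀ ε) (hε : 0 < ε) {p q : ℝ} (hp : 0 < p) (hq : 0 < q)
    (hpq : p + q = 1) (h1 : p * h₀ [true, true] + q * h₀ [true, false] = 0)
    (hα : 12 * ε ≤ p * |h₀ [true, true]|) (ha : e.Arc s t) (hX : e.IsX s t)
    (hb : ¬e.BadX ε s t) : Sg e p q s < 0 ∧ Sg e p q t < 0 := by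
  have l0 := sub_pos.2 ha.lt
  have l2 := sq_pos' ha
  have a1 := tay ha hX p q (l := -ε) (r := ε) fun τ hτ => by
    have b1 := bdA h [true, true] (by simp) ha τ hτ
    have b2 := bdA h [true, false] (by simp) ha τ hτ
    have c1 := mul_le_mul_of_nonneg_left b1.1 hp.le
    have c2 := mul_le_mul_of_nonneg_left b1.2 hp.le
    have c3 := mul_le_mul_of_nonneg_left b2.1 hq.le
    have c4 := mul_le_mul_of_nonneg_left b2.2 hq.le
    have c5 : p * ε + q * ε = ε := by rw [← add_mul, hpq, one_mul]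
    exact ⟨by linarith, by linarith⟩
  have a2 := hX.slopes ha.pos.le ha.lt ha.lt_δ.le (Br.φ0 ha.left) (Br.φ0 ha.right)
    (bdA h [true, true] (by simp) ha)
  have a3 := ha.W_sign hX
  have a4 : e.W t - e.W s ≤ -((|h₀ [true, true]| - ε) * (t - s) ^ 2 / 6) := by
    rcases abs_cases (h₀ [true, true]) with b | b
    · rw [b.1]; linarith [a2.1, a3.2]
    · rw [b.1]; linarith [a2.2, a3.1]
  have a5 := mul_le_mul_of_nonneg_left a4 hp.le
  have a6 := mul_le_mul_of_nonneg_left (good hX hb) hq.le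
  have a7 := mul_le_mul_of_nonneg_right hα l2.le
  have a8 := mul_pos hε l2
  have a9 : p * (ε * (t - s) ^ 2) ≤ ε * (t - s) ^ 2 := mul_le_of_le_one_left a8.le (by linarith)
  have a10 : q * (ε * (t - s) ^ 2) ≤ ε * (t - s) ^ 2 := mul_le_of_le_one_left a8.le (by linarith)
  exact ⟨neg_of_mul_neg_left (by linarith [a1.1]) l0.le,
    neg_of_mul_neg_left (by linarith [a1.2]) l0.le⟩

theorem not_SSS {ε' : ℝ} (hj : ∀ e : Ext, e.Near h₀ ε' → ∀ s t, 0 ≤ s → s < t → t ≤ e.δ →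
      (∀ τ ∈ Ioo s t, e.φ τ = 0) → e.a s = 0 → e.b s = 0 → e.a t = 0 → e.b t = 0 → False)
    (h : e.Near h₀ ε') (h1 : e.Arc s t) (h2 : e.Arc t u) (h3 : e.Arc u v) (x1 : e.IsS s t)
    (x2 : e.IsS t u) (x3 : e.IsS u v) : False :=
  hj e h t u h2.pos.le h2.lt h2.lt_δ.le (fun τ hτ => (x2 τ hτ).1) (h1.junction h2 x1 x2).1
    (h1.junction h2 x1 x2).2 (h2.junction h3 x2 x3).1 (h2.junction h3 x2 x3).2

end UCaseE

open Ext UCaseE

theorem caseA (hb : 0 < h₀ [false]) : Bdd h₀ := by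
  refine ⟨min (h₀ [false] / 3) 1, by positivity, 18, fun e hN _ hS => ?_⟩
  have e1 := min_le_left (h₀ [false] / 3) 1
  have e2 := min_le_right (h₀ [false] / 3) 1
  have e0 : 0 < min (h₀ [false] / 3) 1 := by positivity
  generalize min (h₀ [false] / 3) 1 = ε at *
  by_contra hn
  obtain ⟨τ, h1, h2⟩ := exists_seq hn
  have p0 := (h1 0 (by omega)).1.1
  have p9 := (h1 18 le_rfl).1.2
  refine hS.1.sa e0.le (v := fun i => τ (2 * i)) (c := h₀ [false] - ε) p0.le p9.le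
    (fun i hi => ?_) (fun t ht => (bd hN [false] (by simp) (p0.le.trans ht.1)
      (ht.2.trans p9.le)).1) ?_
  · have a1 := h2 (2 * i) (by omega)
    have a2 := h2 (2 * i + 1) (by omega)
    have a3 := (h1 (2 * i + 1) (by omega)).2 _ _ a1 a2
    exact ⟨a1.trans a2, a3.1, a3.2.1⟩
  · have a1 : τ (2 * 9) - τ (2 * 0) ≤ 1 := by
      have := hN.1
      show τ 18 - τ 0 ≤ 1
      linarith
    have a2 := mul_le_of_le_one_right e0.le a1
    linarith

theorem caseE1 (hg : Gen h₀) (hs : h₀ [true, false] = h₀ [false, true]) (ha : h₀ [true] = 0)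
    (hb : h₀ [false] = 0) {θ₁ θ₂ : ℝ} (h1 : 0 < θ₁) (h2 : 0 < θ₂)
    (h3 : 0 < θ₁ * h₀ [true, true] + θ₂ * h₀ [true, false])
    (h4 : 0 < θ₁ * h₀ [true, false] + θ₂ * h₀ [false, false]) : Bdd h₀ := by
  obtain ⟨ε₁, p1, d1⟩ := few_DT hg ha hb
  obtain ⟨ε₂, p2, d2⟩ := few_DT (gen_swap hg hs) (by simpa using hb) (by simpa using ha)
  obtain ⟨c, c0, c1, c2⟩ : ∃ c : ℝ, 0 < c ∧ 2 * c ≤ θ₁ * h₀ [true, true] + θ₂ * h₀ [true, false] ∧
      2 * c ≤ θ₁ * h₀ [true, false] + θ₂ * h₀ [false, false] := by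
    obtain ⟨c, c0, c1, c2⟩ : ∃ c : ℝ, 0 < c ∧ c ≤ _ ∧ c ≤ _ :=
      ⟨_, lt_min h3 h4, min_le_left _ _, min_le_right _ _⟩
    exact ⟨c / 2, by positivity, by linarith, by linarith⟩
  obtain ⟨ε, e0, e1, e2, e3⟩ : ∃ ε : ℝ, 0 < ε ∧ ε ≤ ε₁ ∧ ε ≤ ε₂ ∧ θ₁ * ε + θ₂ * ε ≤ c / 2 := by
    refine ⟨min (min ε₁ ε₂) (c / 2 / (θ₁ + θ₂)), by positivity,
      (min_le_left _ _).trans (min_le_left _ _), (min_le_left _ _).trans (min_le_right _ _), ?_⟩
    have := min_le_right (min ε₁ ε₂) (c / 2 / (θ₁ + θ₂))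
    rw [le_div_iff₀ (by positivity)] at this
    linarith
  have t1 := mul_pos h1 e0
  have t2 := mul_pos h2 e0
  refine ⟨ε, e0, _, fun e hN hG hS => count hG.br_finite (n := 3 + 3 + 3 + 3 + 3) (k := 4)
    (B := e.Cnt (e.BadX ε) ∪ e.swap.Cnt (e.swap.BadX ε) ∪ e.Cnt e.DT ∪ e.swap.Cnt e.swap.DT ∪
      e.Cnt fun s t => Sg e θ₁ θ₂ s ≤ 0 ∧ 0 ≤ Sg e θ₁ θ₂ t) ?_ ?_⟩
  all_goals
    have hX : ∀ τ, 0 ≤ τ → τ ≤ e.δ → c ≤ θ₁ * e.α τ + θ₂ * e.β τ ∧
        θ₁ * e.α τ + θ₂ * e.β τ ≤ θ₁ * h₀ [true, true] + θ₂ * h₀ [true, false] + c := by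
      intro τ a0 a1
      have b1 := bd hN [true, true] (by simp) a0 a1
      have b2 := bd hN [true, false] (by simp) a0 a1
      have f1 := mul_le_mul_of_nonneg_left b1.1 h1.le
      have f2 := mul_le_mul_of_nonneg_left b1.2 h1.le
      have f3 := mul_le_mul_of_nonneg_left b2.1 h2.le
      have f4 := mul_le_mul_of_nonneg_left b2.2 h2.le
      exact ⟨by linarith, by linarith⟩
    have hY : ∀ τ, 0 ≤ τ → τ ≤ e.δ → c ≤ θ₁ * e.β τ + θ₂ * e.γ τ ∧
        θ₁ * e.β τ + θ₂ * e.γ τ ≤ θ₁ * h₀ [true, false] + θ₂ * h₀ [false, false] + c := by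
      intro τ a0 a1
      have b1 := bd hN [true, false] (by simp) a0 a1
      have b2 := bd hN [false, false] (by simp) a0 a1
      have f1 := mul_le_mul_of_nonneg_left b1.1 h1.le
      have f2 := mul_le_mul_of_nonneg_left b1.2 h1.le
      have f3 := mul_le_mul_of_nonneg_left b2.1 h2.le
      have f4 := mul_le_mul_of_nonneg_left b2.2 h2.le
      exact ⟨by linarith, by linarith⟩
    have mo : ∀ s t, 0 ≤ s → s < t → t ≤ e.δ → Sg e θ₁ θ₂ s < Sg e θ₁ θ₂ t := by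
      intro s t a0 a1 a2
      have := mono' (((dSg e θ₁ θ₂).mono a0 a1.le a2).sub (DD.id.cmul c)) a0 a1.le a2
        (fun τ hτ => by linarith [(hX τ (a0.trans hτ.1.le) (hτ.2.le.trans a2)).1])
        fun τ hτ => by linarith [(hY τ (a0.trans hτ.1.le) (hτ.2.le.trans a2)).1]
      have := mul_pos c0 (sub_pos.2 a1)
      linarith
  · refine enc (enc (enc (enc (few_badX hS.1) (few_badX hS.2)) (d1 e (hN.mono e1)))
      (d2 _ (hN.swap.mono e2))) (few fun s t a1 a2 => ?_)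
    have b0 := a1 0 (by omega)
    have b1 := a1 1 (by omega)
    have b2 := a1 2 (by omega)
    have := mo (t 0) (s 2) (b0.1.pos.trans b0.1.lt).le
      ((a2 0 (by omega)).trans_lt (b1.1.lt.trans_le (a2 1 (by omega))))
      (b2.1.lt.trans b2.1.lt_δ).le
    linarith [b0.2.2, b2.2.1]
  · intro τ hτ
    have ar : ∀ i < 4, e.Arc (τ i) (τ (i + 1)) := fun i hi => (hτ i hi).1
    have nb : ∀ i < 4, ¬e.BadX ε (τ i) (τ (i + 1)) ∧ ¬e.swap.BadX ε (τ i) (τ (i + 1)) ∧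
        ¬e.DT (τ i) (τ (i + 1)) ∧ ¬e.swap.DT (τ i) (τ (i + 1)) ∧
        (Sg e θ₁ θ₂ (τ i) ≤ 0 → Sg e θ₁ θ₂ (τ (i + 1)) < 0) := fun i hi => by
      have := (hτ i hi).2
      simp only [mem_union, not_or] at this
      exact ⟨fun h => this.1.1.1.1 ⟨_, ar i hi, h⟩, fun h => this.1.1.1.2 ⟨_, swap_arc.2 (ar i hi), h⟩,
        fun h => this.1.1.2 ⟨_, ar i hi, h⟩, fun h => this.1.2 ⟨_, swap_arc.2 (ar i hi), h⟩,
        fun h => not_le.1 fun h' => this.2 ⟨_, ar i hi, h, h'⟩⟩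
    have st : ∀ i < 4, Sg e θ₁ θ₂ (τ i) < Sg e θ₁ θ₂ (τ (i + 1)) := fun i hi =>
      mo _ _ (ar i hi).pos.le (ar i hi).lt (ar i hi).lt_δ.le
    have zj : ∀ t, e.a t = 0 ∧ e.b t = 0 → Sg e θ₁ θ₂ t = 0 := fun t h => by simp [Sg, h.1, h.2]
    rcases lt_or_ge 0 (Sg e θ₁ θ₂ (τ 0)) with s0 | s0
    · have sp : ∀ i < 4, 0 < Sg e θ₁ θ₂ (τ i) := by
        intro i hi
        induction i with
        | zero => exact s0
        | succ i ih => exact (ih (by omega)).trans (st i (by omega))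
      refine run4 hG ar (fun i hi x => ?_) (fun i hi h => (sp (i + 1) (by omega)).ne' (zj _ h))
        fun i hi => (nb i hi).2.2.2.1
      have a := ar i hi
      have b1 := (tay a x θ₁ θ₂ fun t ht =>
        hX t (a.pos.trans ht.1).le (ht.2.trans a.lt_δ).le).1
      have b2 := mul_le_mul_of_nonneg_left (good x (nb i hi).1) h2.le
      have b3 := a.W_sign x
      have b4 := mul_nonpos_of_nonneg_of_nonpos h1.le
        (show e.W (τ (i + 1)) - e.W (τ i) ≤ 0 by linarith [b3.1, b3.2])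
      have b5 := mul_pos (sp i hi) (sub_pos.2 a.lt)
      have b6 := mul_le_mul_of_nonneg_right (show θ₂ * ε ≤ c / 2 by linarith) (sq_pos' a).le
      linarith
    · have sn : ∀ i < 4, Sg e θ₁ θ₂ (τ (i + 1)) < 0 := by
        intro i hi
        induction i with
        | zero => exact (nb 0 hi).2.2.2.2 s0
        | succ i ih => exact (nb (i + 1) hi).2.2.2.2 (ih (by omega)).le
      refine run4 hG.swap (fun i hi => swap_arc.2 (ar i hi)) (fun i hi x => ?_)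
        (fun i hi h => (sn i (by omega)).ne (zj _ ⟨by simpa using h.2, by simpa using h.1⟩))
        fun i hi => by rw [swap_swap]; exact (nb i hi).2.2.1
      have a := swap_arc.2 (ar i hi)
      have b1 := (tay a x θ₂ θ₁
        (l := -(θ₁ * h₀ [true, false] + θ₂ * h₀ [false, false] + c)) (r := -c) fun t ht => by
          have := hY t (a.pos.trans ht.1).le (ht.2.trans a.lt_δ).le
          rw [swap_α, swap_β]
          exact ⟨by linarith [this.2], by linarith [this.1]⟩).2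
      have b2 := mul_le_mul_of_nonneg_left (good x (nb i hi).2.1) h1.le
      have b3 := a.W_sign x
      have b4 := mul_nonpos_of_nonneg_of_nonpos h2.le
        (show e.swap.W (τ (i + 1)) - e.swap.W (τ i) ≤ 0 by linarith [b3.1, b3.2])
      have b5 := mul_neg_of_neg_of_pos (sn i hi) (sub_pos.2 a.lt)
      have b6 := mul_le_mul_of_nonneg_right (show θ₁ * ε ≤ c / 2 by linarith) (sq_pos' a).le
      rw [swap_Sg] at b1
      linarith

theorem caseE2 (hg : Gen h₀) (ha : h₀ [true] = 0) (hb : h₀ [false] = 0)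
    (hα : h₀ [true, true] < 0) (hβ : h₀ [true, false] = 0) (hγ : 0 < h₀ [false, false]) :
    Bdd h₀ := by
  obtain ⟨ε₁, p1, hj⟩ := junctions hg ha hb
  obtain ⟨ε, e0, e1, e2, e3⟩ : ∃ ε : ℝ, 0 < ε ∧ ε ≤ ε₁ ∧ h₀ [true, true] ≤ -10 * ε ∧
      10 * ε ≤ h₀ [false, false] := by
    have a1 := min_le_left (-h₀ [true, true] / 10) (h₀ [false, false] / 10)
    have a2 := min_le_right (-h₀ [true, true] / 10) (h₀ [false, false] / 10)
    have a3 := min_le_right ε₁ (min (-h₀ [true, true] / 10) (h₀ [false, false] / 10))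
    exact ⟨min ε₁ (min (-h₀ [true, true] / 10) (h₀ [false, false] / 10)),
      lt_min p1 (lt_min (by linarith) (by linarith)), min_le_left _ _, by linarith, by linarith⟩
  refine ⟨ε, e0, _, fun e hN hG hS => count hG.br_finite (n := 3) (k := 6) (few_badX hS.1)
    fun τ hτ => ?_⟩
  have ar : ∀ i < 6, e.Arc (τ i) (τ (i + 1)) := fun i hi => (hτ i hi).1
  have nb : ∀ i < 6, ¬e.BadX ε (τ i) (τ (i + 1)) := fun i hi h => (hτ i hi).2 ⟨_, ar i hi, h⟩
  have lg : ∀ i < 6, e.IsS (τ i) (τ (i + 1)) → 0 ≤ e.a (τ i) ∧ e.b (τ i) ≤ 0 := fun i hi h =>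
    legendre hG hS e0.le (ar i hi).pos.le (ar i hi).lt (ar i hi).lt_δ.le h _
      ⟨le_rfl, (ar i hi).lt.le⟩
  have XY : ∀ i < 5, e.IsX (τ i) (τ (i + 1)) → e.IsY (τ (i + 1)) (τ (i + 1 + 1)) := by
    intro i hi h
    rcases (ar (i + 1) (by omega)).type hG with x | x | x
    · exact ((ar i (by omega)).not_XX (ar (i + 1) (by omega)) h x).elim
    · exact x
    · exact absurd (lg (i + 1) (by omega) x).1
        (a_neg hN (by linarith) (ar i (by omega)) h).not_ge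
  have YX : ∀ i < 5, e.IsY (τ i) (τ (i + 1)) → e.IsX (τ (i + 1)) (τ (i + 1 + 1)) := by
    intro i hi h
    rcases (ar (i + 1) (by omega)).type hG with x | x | x
    · exact x
    · exact ((ar i (by omega)).not_YY (ar (i + 1) (by omega)) h x).elim
    · have a1 := a_neg hN.swap (by
        simp only [List.map_cons, List.map_nil, Bool.not_true]; linarith)
        (swap_arc.2 (ar i (by omega))) (swap_isX.2 h)
      rw [swap_a] at a1
      linarith [(lg (i + 1) (by omega) x).2]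
  have nX : ∀ i < 4, ¬e.IsX (τ i) (τ (i + 1)) := fun i hi h =>
    not_XYX hN e0 e2 hβ e3 (ar i (by omega)) (ar (i + 1) (by omega)) (ar (i + 1 + 1) (by omega)) h
      (XY i (by omega) h) (YX (i + 1) (by omega) (XY i (by omega) h)) (nb (i + 1 + 1) (by omega))
  have sS : ∀ i < 3, e.IsS (τ i) (τ (i + 1)) := fun i hi =>
    (((ar i (by omega)).type hG).resolve_left (nX i (by omega))).resolve_left fun h =>
      nX (i + 1) (by omega) (YX i (by omega) h)
  exact not_SSS hj (hN.mono e1) (ar 0 (by omega)) (ar 1 (by omega)) (ar 2 (by omega))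
    (sS 0 (by omega)) (sS 1 (by omega)) (sS 2 (by omega))

theorem caseE3 (hg : Gen h₀) (ha : h₀ [true] = 0) (hb : h₀ [false] = 0) {P : ℝ}
    (hP : P ∈ Ioo (0 : ℝ) 1) (h1 : P * h₀ [true, true] + (1 - P) * h₀ [true, false] = 0)
    (h2 : P * h₀ [true, false] + (1 - P) * h₀ [false, false] = 0) : Bdd h₀ := by
  have P0 := hP.1
  have P1 := sub_pos.2 hP.2
  have hα : h₀ [true, true] ≠ 0 := fun h => hg.g3 true ha hb h (by
    rw [h, mul_zero, zero_add] at h1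
    exact (mul_eq_zero.1 h1).resolve_left P1.ne')
  have hγ : h₀ [false, false] ≠ 0 := fun h => hg.g3 false ha hb h (by
    rw [h, mul_zero, add_zero] at h2
    exact (mul_eq_zero.1 h2).resolve_left P0.ne')
  obtain ⟨ε₁, p1, hj⟩ := junctions hg ha hb
  obtain ⟨ε₂, p2, d2⟩ := no_DT hα
  obtain ⟨ε₃, p3, d3⟩ := no_DT (h₀ := fun w => -h₀ (w.map not)) (by simpa using hγ)
  have q1 := mul_pos P0 (abs_pos.2 hα)
  have q2 := mul_pos P1 (abs_pos.2 hγ)
  obtain ⟨ε, e0, e1, e2, e3, e4, e5⟩ : ∃ ε : ℝ, 0 < ε ∧ ε ≤ ε₁ ∧ ε ≤ ε₂ ∧ ε ≤ ε₃ ∧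
      12 * ε ≤ P * |h₀ [true, true]| ∧ 12 * ε ≤ (1 - P) * |h₀ [false, false]| := by
    have a1 := min_le_left (P * |h₀ [true, true]| / 12) ((1 - P) * |h₀ [false, false]| / 12)
    have a2 := min_le_right (P * |h₀ [true, true]| / 12) ((1 - P) * |h₀ [false, false]| / 12)
    have a3 := min_le_right (min ε₁ (min ε₂ ε₃))
      (min (P * |h₀ [true, true]| / 12) ((1 - P) * |h₀ [false, false]| / 12))
    exact ⟨min (min ε₁ (min ε₂ ε₃))
      (min (P * |h₀ [true, true]| / 12) ((1 - P) * |h₀ [false, false]| / 12)), by positivity,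
      (min_le_left _ _).trans (min_le_left _ _),
      (min_le_left _ _).trans ((min_le_right _ _).trans (min_le_left _ _)),
      (min_le_left _ _).trans ((min_le_right _ _).trans (min_le_right _ _)),
      by linarith, by linarith⟩
  refine ⟨ε, e0, _, fun e hN hG hS => count hG.br_finite (n := 3 + 3) (k := 5)
    (enc (few_badX hS.1) (few_badX hS.2)) fun τ hτ => ?_⟩
  have ar : ∀ i < 5, e.Arc (τ i) (τ (i + 1)) := fun i hi => (hτ i hi).1
  have sX : ∀ i < 5, e.IsX (τ i) (τ (i + 1)) →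
      Sg e P (1 - P) (τ i) < 0 ∧ Sg e P (1 - P) (τ (i + 1)) < 0 := fun i hi x =>
    sg_neg hN e0 P0 P1 (by ring) h1 e4 (ar i hi) x fun h => (hτ i hi).2 (Or.inl ⟨_, ar i hi, h⟩)
  have sY : ∀ i < 5, e.IsY (τ i) (τ (i + 1)) →
      0 < Sg e P (1 - P) (τ i) ∧ 0 < Sg e P (1 - P) (τ (i + 1)) := fun i hi x => by
    have hN' : e.swap.Near (fun w => if w = [true, false] then -h₀ [true, false] else
        -h₀ (w.map not)) ε := ⟨hN.1, fun w hw t ht => by
      beta_reduce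
      split_ifs with h
      · have := hN.2 [true, false] (by simp) t ht
        rw [h, show e.swap.h [true, false] t = -e.β t from swap_β t, ← abs_neg]
        convert this using 2
        ring
      · exact hN.swap.2 w hw t ht⟩
    have := sg_neg hN' e0 P1 P0 (by ring) (by simp; linarith) (by simpa using e5)
      (swap_arc.2 (ar i hi)) (swap_isX.2 x)
      fun h => (hτ i hi).2 (Or.inr ⟨_, swap_arc.2 (ar i hi), h⟩)
    rw [swap_Sg, swap_Sg] at this
    exact ⟨by linarith [this.1], by linarith [this.2]⟩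
  have nx : ∀ i < 4, (e.IsX (τ i) (τ (i + 1)) ∨ e.IsY (τ i) (τ (i + 1))) →
      (e.IsX (τ (i + 1)) (τ (i + 1 + 1)) ∨ e.IsY (τ (i + 1)) (τ (i + 1 + 1))) → False := by
    rintro i hi (x | x) (y | y)
    · exact (ar i (by omega)).not_XX (ar (i + 1) (by omega)) x y
    · linarith [(sX i (by omega) x).2, (sY (i + 1) (by omega) y).1]
    · linarith [(sY i (by omega) x).2, (sX (i + 1) (by omega) y).1]
    · exact (ar i (by omega)).not_YY (ar (i + 1) (by omega)) x y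
  have ty : ∀ i < 5, (e.IsX (τ i) (τ (i + 1)) ∨ e.IsY (τ i) (τ (i + 1))) ∨
      e.IsS (τ i) (τ (i + 1)) := fun i hi => or_assoc.2 ((ar i hi).type hG)
  have sS : ∀ i < 3, e.IsS (τ (i + 1)) (τ (i + 1 + 1)) := fun i hi =>
    (ty (i + 1) (by omega)).resolve_left fun x => by
      have s1 := (ty i (by omega)).resolve_left fun y => nx i (by omega) y x
      have s2 := (ty (i + 1 + 1) (by omega)).resolve_left (nx (i + 1) (by omega) x)
      have a0 := ar i (by omega)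
      have a1 := ar (i + 1) (by omega)
      have a2 := ar (i + 1 + 1) (by omega)
      rcases x with x | x
      · exact d2 e (hN.mono e2) _ _ a1 (a0.dt a1 a2 s1 x s2)
      · exact d3 _ (hN.swap.mono e3) _ _ (swap_arc.2 a1) ((swap_arc.2 a0).dt (swap_arc.2 a1)
          (swap_arc.2 a2) (swap_isS.2 s1) (swap_isX.2 x) (swap_isS.2 s2))
  exact not_SSS hj (hN.mono e1) (ar 1 (by omega)) (ar 2 (by omega)) (ar 3 (by omega))
    (sS 0 (by omega)) (sS 1 (by omega)) (sS 2 (by omega))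

theorem bdd_of_gen (hg : Gen h₀) (hs : h₀ [true, false] = h₀ [false, true]) : Bdd h₀ := by
  have key : ∀ h : List Bool → ℝ, Gen h → h [false] ≠ 0 → Bdd h := fun h g n =>
    (lt_or_gt_of_ne n).elim (caseB g) caseA
  by_cases hb : h₀ [false] = 0
  swap
  · exact key _ hg hb
  by_cases ha : h₀ [true] = 0
  swap
  · exact Bdd.of_swap (key _ (gen_swap hg hs) (by simpa using ha))
  rcases tricho (hg.g3 true ha hb) (hg.g3 false ha hb) with ⟨θ₁, θ₂, t1, t2, h | h⟩ | h | ⟨P, hP, h⟩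
  · exact caseE1 hg hs ha hb t1 t2 h.1 h.2
  · refine Bdd.of_rev (caseE1 (gen_rev hg) (by simp [hs]) (by simp [ha]) (by simp [hb]) t1 t2 ?_ ?_)
    · norm_num
      linarith [h.1]
    · norm_num
      linarith [h.2]
  · rcases mul_neg_iff.1 h.2 with k | k
    · refine Bdd.of_rev (caseE2 (gen_rev hg) (by simp [ha]) (by simp [hb]) ?_ (by simp [h.1]) ?_)
      · norm_num
        exact k.1
      · norm_num
        exact k.2
    · exact caseE2 hg ha hb k.1 h.1 k.2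
  · exact caseE3 hg ha hb hP h.1 h.2

theorem shortExt {φ₀ : ℝ} (hs : h₀ [true, false] = h₀ [false, true])
    (hg : φ₀ = 0 → h₀ [] = 0 → Gen h₀) : ∃ ε > 0, ∃ N : ℕ, ∀ e : Ext, e.Near h₀ ε →
      (∀ t ∈ Icc 0 e.δ, |e.φ t - φ₀| ≤ ε) → (e.Flat ∨ e.SI2 ε) → e.Br.encard ≤ N := by
  by_cases h1 : φ₀ = 0
  swap
  · have p := abs_pos.2 h1
    refine ⟨|φ₀| / 2, by positivity, 0, fun e _ hφ _ => ?_⟩
    have : e.Br = ∅ := eq_empty_of_forall_notMem fun t ht => by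
      have a := hφ t ⟨ht.1.1.le, ht.1.2.le⟩
      rw [Br.φ0 ht, zero_sub, abs_neg] at a
      linarith
    simp [this]
  by_cases h2 : h₀ [] = 0
  swap
  · have p := abs_pos.2 h2
    refine ⟨|h₀ []| / 2, by positivity, 1, fun e hN _ _ => ?_⟩
    have key : ∀ s ∈ e.Br, ∀ t ∈ e.Br, ¬s < t := fun s hs t ht hst => by
      obtain ⟨c, hc, hc'⟩ := exists_hasDerivAt_eq_zero hst
        (e.contφ.mono (Icc_subset_Icc hs.1.1.le ht.1.2.le)) ((Br.φ0 hs).trans (Br.φ0 ht).symm)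
        fun τ hτ => e.hasDeriv ⟨hs.1.1.trans hτ.1, hτ.2.trans ht.1.2⟩
      have a := hN.2 [] (by simp) c ⟨(hs.1.1.trans hc.1).le, (hc.2.trans ht.1.2).le⟩
      rw [show e.h [] c = 0 from hc', zero_sub, abs_neg] at a
      linarith
    exact_mod_cast encard_le_one_iff.2 fun s t hs ht =>
      le_antisymm (not_lt.1 (key t ht s hs)) (not_lt.1 (key s hs t ht))
  obtain ⟨ε₁, p1, g1⟩ := exists_genAll (hg h1 h2)
  obtain ⟨ε₂, p2, g2⟩ := flat_bdd (hg h1 h2)
  obtain ⟨ε₃, p3, N, g3⟩ := bdd_of_gen (hg h1 h2) hs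
  have e1 : min ε₁ (min ε₂ ε₃) ≤ ε₁ := min_le_left _ _
  have e2 : min ε₁ (min ε₂ ε₃) ≤ ε₂ := (min_le_right _ _).trans (min_le_left _ _)
  have e3 : min ε₁ (min ε₂ ε₃) ≤ ε₃ := (min_le_right _ _).trans (min_le_right _ _)
  refine ⟨min ε₁ (min ε₂ ε₃), by positivity, N + 1, fun e hN _ h => ?_⟩
  push_cast
  rcases h with h | h
  · exact (g2 e (hN.mono e2) h).trans le_add_self
  · exact (g3 e (hN.mono e3) (g1 e (hN.mono e1)) (h.mono e3)).trans le_self_add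

end Pool.Agent.Lib.MP_f4f7c0_an
end

-- part Pool.Agent.Lib.MP_f4f7c0_an.UShort
section

/-! The bound on short windows of optimal trajectories. -/

namespace Pool.Agent.Lib.MP_f4f7c0_an

open Set Filter Topology MeasureTheory Metric
open scoped ContDiff

variable {X Y : E3 → E3} {m : ℝ → ℝ} {q : ℝ → E3} {T t : ℝ} {p : ℝ → E3 →L[ℝ] ℝ}

namespace UShort

theorem not_smooth (ht : t ∈ sw q T) {s u : ℝ} (hs : s < t) (hu : t < u)
    (h : ContDiffOn ℝ ∞ q (Ioo s u)) : False :=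
  ht.2 ⟨_, mem_nhdsWithin_of_mem_nhds (Ioo_mem_nhds hs hu), h⟩

theorem smooth_const (hX : ContDiff ℝ ∞ X) (hY : ContDiff ℝ ∞ Y) (h : Traj X Y m q T)
    {s u c : ℝ} (hs : 0 ≤ s) (hu : u ≤ T) (hm : ∀ᵐ τ, τ ∈ Ioo s u → m τ = c) :
    ContDiffOn ℝ ∞ q (Ioo s u) := by
  obtain ⟨C, hC⟩ := h.lip
  refine Smooth.ode_smooth (V := fun y => c • X y + (1 - c) • Y y) (O := univ)
    (((hX.const_smul c).add (hY.const_smul (1 - c))).contDiffOn)
    (hC.mono (Icc_subset_Icc hs hu)) (mapsTo_univ _ _) ?_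
  filter_upwards [h.ode, hm] with τ h1 h2 hτ
  rw [← h2 hτ]
  exact h1 ⟨hs.trans_lt hτ.1, hτ.2.trans_le hu⟩

theorem smooth_sing (hX : ContDiff ℝ ∞ X) (hY : ContDiff ℝ ∞ Y) (h : Traj X Y m q T)
    (hT : T ∈ Ioc 0 T) (hp : Adjoint X Y m q p T) {s u : ℝ} (hs : 0 ≤ s) (hu : u ≤ T)
    (hS : (Smooth.ext hX hY h hT hp).IsS s u) : ContDiffOn ℝ ∞ q (Ioo s u) := by
  obtain ⟨h1, h2⟩ := hS.control hs hu
  obtain ⟨C, hC⟩ := Smooth.lip_pair h hT hp
  let a : E3 × (E3 →L[ℝ] ℝ) → ℝ := fun z => z.2 (br X Y [true] z.1)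
  let b : E3 × (E3 →L[ℝ] ℝ) → ℝ := fun z => z.2 (br X Y [false] z.1)
  have ha : ContDiff ℝ ∞ a := contDiff_snd.clm_apply ((contDiff_br hX hY _).comp contDiff_fst)
  have hb : ContDiff ℝ ∞ b := contDiff_snd.clm_apply ((contDiff_br hX hY _).comp contDiff_fst)
  let μ : E3 × (E3 →L[ℝ] ℝ) → ℝ := fun z => b z / (b z - a z)
  have hμ : ContDiffOn ℝ ∞ μ {z | b z - a z ≠ 0} :=
    hb.contDiffOn.div (hb.sub ha).contDiffOn fun _ hz => hz
  have hμ' : ContDiffOn ℝ ∞ (fun z => 1 - μ z) {z | b z - a z ≠ 0} := contDiffOn_const.sub hμ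
  have d1 : ContDiff ℝ ∞ (fderiv ℝ X) := hX.fderiv_right le_rfl
  have d2 : ContDiff ℝ ∞ (fderiv ℝ Y) := hY.fderiv_right le_rfl
  have key := Smooth.ode_smooth (O := {z | b z - a z ≠ 0})
    (V := fun z : E3 × (E3 →L[ℝ] ℝ) => (μ z • X z.1 + (1 - μ z) • Y z.1,
      -z.2.comp (μ z • fderiv ℝ X z.1 + (1 - μ z) • fderiv ℝ Y z.1)))
    (((hμ.smul (hX.comp contDiff_fst).contDiffOn).add
      (hμ'.smul (hY.comp contDiff_fst).contDiffOn)).prodMk
      (contDiffOn_snd.clm_comp ((hμ.smul (d1.comp contDiff_fst).contDiffOn).add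
      (hμ'.smul (d2.comp contDiff_fst).contDiffOn))).neg)
    (hC.mono (Icc_subset_Icc hs hu)) (fun τ hτ => h1 τ hτ) (by
      filter_upwards [h2, h.ode, hp.ode] with τ h3 h4 h5 hτ
      have h6 : μ (q τ, p τ) = m τ := (h3 hτ).symm
      have h7 : τ ∈ Ioo 0 T := ⟨hs.trans_lt hτ.1, hτ.2.trans_le hu⟩
      rw [h6]
      exact (h4 h7).prodMk (h5 h7))
  exact key.fst

end UShort

open UShort

theorem not_bang_of_sw (hX : ContDiff ℝ ∞ X) (hY : ContDiff ℝ ∞ Y) (h : Traj X Y m q T)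
    (ht : t ∈ sw q T) (ht' : t ∈ Ioo 0 T) : ¬Bang m t := by
  rintro ⟨s, u, hs, hu, hm⟩
  obtain ⟨c, hc⟩ : ∃ c : ℝ, ∀ᵐ τ, τ ∈ Ioo s u → m τ = c := hm.elim (fun h => ⟨_, h⟩) fun h => ⟨_, h⟩
  refine not_smooth ht (max_lt hs ht'.1) (lt_min hu ht'.2)
    (smooth_const hX hY h (le_max_right _ _) (min_le_right _ _) (c := c) ?_)
  filter_upwards [hc] with τ h1 hτ
  exact h1 ⟨(le_max_left _ _).trans_lt hτ.1, hτ.2.trans_le (min_le_left _ _)⟩

theorem mem_Br_of_sw (hX : ContDiff ℝ ∞ X) (hY : ContDiff ℝ ∞ Y) (h : Traj X Y m q T)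
    (hT : T ∈ Ioc 0 T) (hp : Adjoint X Y m q p T) (ht : t ∈ sw q T) (ht' : t ∈ Ioo 0 T) :
    t ∈ (Smooth.ext hX hY h hT hp).Br := by
  have hb := not_bang_of_sw hX hY h ht ht'
  refine ⟨ht', fun s u hs hu => ⟨fun h1 => hb ⟨s, u, hs, hu, Or.inl h1⟩,
    fun h1 => hb ⟨s, u, hs, hu, Or.inr h1⟩, fun h1 => ?_⟩⟩
  exact not_smooth ht (max_lt hs ht'.1) (lt_min hu ht'.2)
    (smooth_sing hX hY h hT hp (le_max_right _ _) (min_le_right _ _)
      (h1.mono (le_max_left _ _) (min_le_left _ _)))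

theorem Adjoint.zero_of_not_bang (hX : ContDiff ℝ ∞ X) (hY : ContDiff ℝ ∞ Y) (h : Traj X Y m q T)
    (hp : Adjoint X Y m q p T) (ht : t ∈ Ioo 0 T) (hb : ¬Bang m t) :
    p t (X (q t) - Y (q t)) = 0 := by
  by_contra hne
  have hT : T ∈ Ioc 0 T := ⟨ht.1.trans ht.2, le_rfl⟩
  set e := Smooth.ext hX hY h hT hp with he
  have hc : ContinuousAt e.φ t := e.contφ.continuousAt (Icc_mem_nhds ht.1 ht.2)
  have h1 : ∀ᶠ τ in 𝓝 t, e.φ τ ≠ 0 ∧ τ ∈ Ioo 0 T :=
    (hc.eventually_ne hne).and (Ioo_mem_nhds ht.1 ht.2)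
  obtain ⟨s, u, ⟨hs, hu⟩, hsub⟩ := mem_nhds_iff_exists_Ioo_subset.1 h1
  have h2 := Ext.bang_of_ne (e := e) (s := max s 0) (t := min u T) (le_max_right _ _)
    (min_le_right _ _) fun τ hτ =>
      (hsub ⟨(le_max_left _ _).trans_lt hτ.1, hτ.2.trans_le (min_le_left _ _)⟩).1
  exact hb ⟨_, _, max_lt hs ht.1, lt_min hu ht.2, h2⟩

theorem sw_shift {s u : ℝ} (ht : t ∈ sw q T) (hs : 0 ≤ s) (hst : s < t) (htu : t < u) (hu : u ≤ T) :
    t - s ∈ sw (fun τ => q (s + τ)) (u - s) := by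
  refine ⟨⟨by linarith, by linarith⟩, ?_⟩
  rintro ⟨S, hS, hq⟩
  rw [nhdsWithin_eq_nhds.2 (Icc_mem_nhds (by linarith) (by linarith))] at hS
  have hc : ContinuousAt (fun τ : ℝ => τ - s) t := by fun_prop
  refine ht.2 ⟨(fun τ => τ - s) ⁻¹' S, mem_nhdsWithin_of_mem_nhds (hc hS), ?_⟩
  have := hq.comp (f := fun τ : ℝ => τ - s) (s := (fun τ => τ - s) ⁻¹' S)
    (by fun_prop) fun _ h => h
  exact this.congr fun τ _ => by simp

theorem window (hX : SC X) (hY : SC Y) : ∃ C T₀, 0 < C ∧ 0 < T₀ ∧ C * T₀ ≤ 1 / 2 ∧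
    ∀ m q T U (h : Traj X Y m q T) (hT : T ∈ Ioc 0 T), T ≤ T₀ → IsOpen U →
      MapsTo q (Icc 0 T) U → Opt X Y U q T → ∀ t₀ ∈ Ioo 0 T, ¬Bang m t₀ → X (q t₀) ≠ Y (q t₀) →
      ∃ p, ∃ hp : Adjoint X Y m q p T, ‖p 0‖ = 1 ∧ (∀ t ∈ Icc 0 T, ‖p t - p 0‖ ≤ C * T) ∧
        ((Smooth.ext hX.sm hY.sm h hT hp).Flat ∨
          (Smooth.ext hX.sm hY.sm h hT hp).SI2 (C * T)) := by
  obtain ⟨C1, hC1, H1⟩ := Adjoint.near hX hY
  obtain ⟨C2, T2, hC2, hT2, H2⟩ := goh hX hY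
  obtain ⟨C3, T3, hC3, hT3, H3⟩ := goh hY hX
  obtain ⟨T₀, h0, t1, t2, t3⟩ : ∃ T₀ > 0, T₀ ≤ 1 / 2 / (C1 + C2 + C3) ∧ T₀ ≤ T2 ∧ T₀ ≤ T3 :=
    ⟨min (1 / 2 / (C1 + C2 + C3)) (min T2 T3), by positivity, min_le_left _ _,
      (min_le_right _ _).trans (min_le_left _ _), (min_le_right _ _).trans (min_le_right _ _)⟩
  rw [le_div_iff₀ (by positivity), mul_comm] at t1
  refine ⟨C1 + C2 + C3, T₀, by positivity, h0, t1, fun m q T U h hT hT0 hU hq opt t₀ ht₀ hb hne => ?_⟩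
  obtain ⟨p, hp, hp2⟩ := (pmpT hX hY hT.1 h hU hq opt).2 t₀ (Ioo_subset_Icc_self ht₀) hne
    fun p hp => hp.zero_of_not_bang hX.sm hY.sm h ht₀ hb
  have hc : 0 < ‖p 0‖⁻¹ := inv_pos.2 (norm_pos_iff.2 hp.ne)
  have hn : ‖‖p 0‖⁻¹ • p 0‖ = 1 := norm_smul_inv_norm (𝕜 := ℝ) hp.ne
  have hT1 := hT.1
  have hCT : (C1 + C2 + C3) * T ≤ 1 / 2 :=
    (mul_le_mul_of_nonneg_left hT0 (by positivity)).trans t1
  have e1 : C1 * T ≤ (C1 + C2 + C3) * T := mul_le_mul_of_nonneg_right (by linarith) hT1.le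
  have e2 : C2 * T ≤ (C1 + C2 + C3) * T := mul_le_mul_of_nonneg_right (by linarith) hT1.le
  have e3 : C3 * T ≤ (C1 + C2 + C3) * T := mul_le_mul_of_nonneg_right (by linarith) hT1.le
  have hnear : ∀ t ∈ Icc 0 T, ‖‖p 0‖⁻¹ • p t - ‖p 0‖⁻¹ • p 0‖ ≤ (C1 + C2 + C3) * T := by
    intro t ht
    have := H1 m q T _ h (hp.smul hc) (by linarith) t ht
    rw [hn, mul_one] at this
    exact this.trans e1
  have hb2 : ∀ t ∈ Icc 0 T, ‖‖p 0‖⁻¹ • p t‖ ≤ 2 := by
    intro t ht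
    have h1 := hnear t ht
    have h2 := norm_sub_norm_le (‖p 0‖⁻¹ • p t) (‖p 0‖⁻¹ • p 0)
    linarith
  refine ⟨_, hp.smul hc, hn, hnear, hp2.imp (fun h1 t ht => ?_) fun h1 => ⟨?_, ?_⟩⟩
  · change (‖p 0‖⁻¹ • p t) (X (q t) - Y (q t)) = 0
    rw [smul_apply, h1 t ht, smul_zero]
  · exact (H2 m q T _ h hT (hp.smul hc) (hT0.trans t2) hb2 (h1.smul hc)).si.mono e2
  · have := (H3 _ q T _ h.swap hT (hp.smul hc).swap (hT0.trans t3) hb2 (h1.smul hc).swap).si.mono e3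
    rwa [ext_swap hX.sm hY.sm h hT (hp.smul hc)] at this

namespace UShort

/-- Near a good point a trajectory meets the set `X = Y` at most once. -/
theorem once (hX : ContDiff ℝ ∞ X) (hY : ContDiff ℝ ∞ Y) {q₀ : E3}
    (hd : X q₀ = Y q₀ → br X Y [] q₀ ≠ 0) : ∃ r > 0, ∀ m q T, Traj X Y m q T →
      MapsTo q (Icc 0 T) (ball q₀ r) → {t ∈ Icc 0 T | X (q t) = Y (q t)}.Subsingleton := by
  by_cases h0 : X q₀ = Y q₀
  · obtain ⟨l, -, hl⟩ := exists_dual_vector ℝ _ (norm_ne_zero_iff.2 (hd h0))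
    have hV := norm_pos_iff.2 (hd h0)
    have dX := fun y => hX.differentiable (by simp) y
    have dY := fun y => hY.differentiable (by simp) y
    have c1 : Continuous (fderiv ℝ X) := hX.continuous_fderiv (by simp)
    have c2 : Continuous (fderiv ℝ Y) := hY.continuous_fderiv (by simp)
    have cX := hX.continuous
    have cY := hY.continuous
    have k1 : Continuous fun y => l ((fderiv ℝ X y - fderiv ℝ Y y) (X y)) := by fun_prop
    have k2 : Continuous fun y => l ((fderiv ℝ X y - fderiv ℝ Y y) (Y y)) := by fun_prop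
    have v1 : l ((fderiv ℝ X q₀ - fderiv ℝ Y q₀) (X q₀)) = ‖br X Y [] q₀‖ := by
      refine Eq.trans ?_ hl
      simp [br, VectorField.lieBracket, h0]
    have v2 : l ((fderiv ℝ X q₀ - fderiv ℝ Y q₀) (Y q₀)) = ‖br X Y [] q₀‖ := by rw [← h0, v1]
    have hlt : ‖br X Y [] q₀‖ / 2 < ‖br X Y [] q₀‖ := by linarith
    have ev := (k1.continuousAt.eventually (lt_mem_nhds (hlt.trans_eq v1.symm))).and
      (k2.continuousAt.eventually (lt_mem_nhds (hlt.trans_eq v2.symm)))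
    obtain ⟨r, hr, H⟩ := Metric.eventually_nhds_iff_ball.1 ev
    refine ⟨r, hr, fun m q T h hq => ?_⟩
    have key : ∀ s ∈ Icc 0 T, ∀ t ∈ Icc 0 T, s < t → X (q s) = Y (q s) → X (q t) = Y (q t) →
        False := by
      intro s hs t ht hst e1 e2
      obtain ⟨C, hC⟩ := h.lip
      have hG : ContDiff ℝ 1 fun y => l (X y - Y y) :=
        l.contDiff.comp ((hX.sub hY).of_le (by exact_mod_cast le_top))
      obtain ⟨K, hK⟩ := Smooth.lip_comp (g := fun y => l (X y - Y y))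
        (hC.mono (Icc_subset_Icc hs.1 ht.2)) fun _ _ => hG.contDiffAt
      have hD : DD m (fun τ => l (X (q τ) - Y (q τ)))
          (fun τ => l ((fderiv ℝ X (q τ) - fderiv ℝ Y (q τ)) (X (q τ))))
          (fun τ => l ((fderiv ℝ X (q τ) - fderiv ℝ Y (q τ)) (Y (q τ)))) s t := by
        refine ⟨LipschitzOnWith.absolutelyContinuousOnInterval (K := K)
          (by rwa [uIcc_of_le hst.le]), ?_⟩
        filter_upwards [h.ode] with τ h1 hτ
        have h2 := h1 ⟨hs.1.trans_lt hτ.1, hτ.2.trans_le ht.2⟩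
        have h3 := l.hasFDerivAt.comp_hasDerivAt τ
          (((dX (q τ)).hasFDerivAt.sub (dY (q τ)).hasFDerivAt).comp_hasDerivAt τ h2)
        refine HasDerivAt.congr_deriv h3 ?_
        simp only [map_add, map_smul, smul_eq_mul]
      have h4 := ((DD.id.cmul (‖br X Y [] q₀‖ / 2)).sub hD).le_of_ae hst.le (by
        refine Eventually.of_forall fun τ hτ => ?_
        have h5 := H _ (hq ⟨hs.1.trans hτ.1.le, hτ.2.le.trans ht.2⟩)
        have h6 := mul_nonneg (h.m0 τ) (sub_nonneg.2 h5.1.le)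
        have h7 := mul_nonneg (sub_nonneg.2 (h.m1 τ)) (sub_nonneg.2 h5.2.le)
        linarith)
      simp only [e1, e2, sub_self, map_zero, sub_zero] at h4
      nlinarith
    intro s hs t ht
    by_contra hne
    rcases lt_or_gt_of_ne hne with h1 | h1
    · exact key s hs.1 t ht.1 h1 hs.2 ht.2
    · exact key t ht.1 s hs.1 h1 ht.2 hs.2
  · have ev : ∀ᶠ y in 𝓝 q₀, X y ≠ Y y :=
      (isOpen_ne_fun hX.continuous hY.continuous).mem_nhds h0
    obtain ⟨r, hr, H⟩ := Metric.eventually_nhds_iff_ball.1 ev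
    exact ⟨r, hr, fun m q T _ hq s hs => (H _ (hq hs.1) hs.2).elim⟩

/-- The bound for short extremals whose initial covector lies in `S`. -/
def Loc (hX : ContDiff ℝ ∞ X) (hY : ContDiff ℝ ∞ Y) (q₀ : E3) (C : ℝ) (S : Set (E3 →L[ℝ] ℝ)) :
    Prop :=
  ∃ r > 0, ∃ δ > 0, ∃ N : ℕ, ∀ m q T p (h : Traj X Y m q T) (hT : T ∈ Ioc 0 T)
    (hp : Adjoint X Y m q p T), T ≤ δ → MapsTo q (Icc 0 T) (ball q₀ r) → p 0 ∈ S →
    (∀ t ∈ Icc 0 T, ‖p t - p 0‖ ≤ C * T) →
    ((Smooth.ext hX hY h hT hp).Flat ∨ (Smooth.ext hX hY h hT hp).SI2 (C * T)) →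
    (Smooth.ext hX hY h hT hp).Br.encard ≤ N

theorem loc_at (hX : ContDiff ℝ ∞ X) (hY : ContDiff ℝ ∞ Y) {q₀ : E3} (hg : Good X Y q₀) {C : ℝ}
    (hC : 0 < C) {p₀ : E3 →L[ℝ] ℝ} (h₀ : p₀ ≠ 0) : ∃ S ∈ 𝓝 p₀, Loc hX hY q₀ C S := by
  obtain ⟨ε, hε, N, H⟩ := shortExt (h₀ := fun w => p₀ (br X Y w q₀)) (φ₀ := p₀ (X q₀ - Y q₀))
    (by simpa using congrArg p₀ (congrFun (br_sym hX hY []) q₀)) (hg p₀ h₀)
  have near : ∀ {V : E3 → E3}, Continuous V →
      ∀ᶠ z : (E3 →L[ℝ] ℝ) × E3 in 𝓝 (p₀, q₀), |z.1 (V z.2) - p₀ (V q₀)| ≤ ε := by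
    intro V hV
    have hc : Continuous fun z : (E3 →L[ℝ] ℝ) × E3 => |z.1 (V z.2) - p₀ (V q₀)| := by fun_prop
    exact (hc.continuousAt.eventually (gt_mem_nhds (by simpa using hε))).mono fun _ h => h.le
  have ev := (near (hX.continuous.sub hY.continuous)).and
    ((eventually_all_finite (List.finite_length_le Bool 4)).2 fun w _ =>
      near (contDiff_br hX hY w).continuous)
  obtain ⟨ρ, hρ, Hρ⟩ := Metric.eventually_nhds_iff.1 ev
  obtain ⟨δ, hδ, d1, d2, d3⟩ : ∃ δ > 0, δ ≤ ε ∧ δ ≤ ε / C ∧ δ ≤ ρ / 2 / C :=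
    ⟨min ε (min (ε / C) (ρ / 2 / C)), by positivity, min_le_left _ _,
      (min_le_right _ _).trans (min_le_left _ _), (min_le_right _ _).trans (min_le_right _ _)⟩
  rw [le_div_iff₀ hC] at d2 d3
  refine ⟨ball p₀ (ρ / 2), ball_mem_nhds _ (by positivity), ρ, hρ, δ, hδ, N,
    fun m q T p h hT hp hTδ hq hp0 hpt hS => ?_⟩
  have hCT : C * T ≤ δ * C := by rw [mul_comm]; exact mul_le_mul_of_nonneg_right hTδ hC.le
  have hz : ∀ t ∈ Icc 0 T, dist (p t, q t) (p₀, q₀) < ρ := by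
    intro t ht
    rw [Prod.dist_eq]
    refine max_lt ?_ (hq ht)
    have h1 := dist_triangle (p t) (p 0) p₀
    have h2 := hpt t ht
    rw [← dist_eq_norm] at h2
    have h3 : dist (p 0) p₀ < ρ / 2 := hp0
    change dist (p t) p₀ < ρ
    linarith
  exact H _ ⟨hTδ.trans d1, fun w hw t ht => (Hρ (hz t ht)).2 w hw⟩ (fun t ht => (Hρ (hz t ht)).1)
    (hS.imp id fun h1 => h1.mono (hCT.trans d2))

theorem loc_sphere (hX : ContDiff ℝ ∞ X) (hY : ContDiff ℝ ∞ Y) {q₀ : E3} (hg : Good X Y q₀)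
    {C : ℝ} (hC : 0 < C) : Loc hX hY q₀ C (sphere 0 1) := by
  refine (isCompact_sphere (0 : E3 →L[ℝ] ℝ) 1).induction_on (p := Loc hX hY q₀ C)
    ⟨1, one_pos, 1, one_pos, 0, fun _ _ _ _ _ _ _ _ _ h => h.elim⟩ ?_ ?_ ?_
  · rintro S S' hS ⟨r, hr, δ, hδ, N, H⟩
    exact ⟨r, hr, δ, hδ, N, fun m q T p h hT hp h1 h2 h3 => H m q T p h hT hp h1 h2 (hS h3)⟩
  · rintro S S' ⟨r, hr, δ, hδ, N, H⟩ ⟨r', hr', δ', hδ', N', H'⟩
    refine ⟨min r r', lt_min hr hr', min δ δ', lt_min hδ hδ', max N N',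
      fun m q T p h hT hp h1 h2 h3 h4 h5 => ?_⟩
    rcases h3 with h3 | h3
    · exact (H m q T p h hT hp (h1.trans (min_le_left _ _))
        (h2.mono_right (ball_subset_ball (min_le_left _ _))) h3 h4 h5).trans
        (by exact_mod_cast le_max_left N N')
    · exact (H' m q T p h hT hp (h1.trans (min_le_right _ _))
        (h2.mono_right (ball_subset_ball (min_le_right _ _))) h3 h4 h5).trans
        (by exact_mod_cast le_max_right N N')
  · intro p₀ hp₀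
    obtain ⟨S, hS, H⟩ := loc_at hX hY hg hC (p₀ := p₀) (by
      rintro rfl
      simp at hp₀)
    exact ⟨S, mem_nhdsWithin_of_mem_nhds hS, H⟩

/-- The bound on a whole short window. -/
theorem short0 (hX : SC X) (hY : SC Y) {q₀ : E3} (hg : Good3 X Y q₀) {U : Set E3} (hU : IsOpen U)
    (h₀ : q₀ ∈ U) : ∃ r > 0, ∃ δ₀ > 0, ∃ N : ℕ, ball q₀ r ⊆ U ∧
      ∀ m q T, Traj X Y m q T → MapsTo q (Icc 0 T) (ball q₀ r) → Opt X Y U q T → T ≤ δ₀ →
        (sw q T ∩ Ioo 0 T).encard ≤ N := by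
  obtain ⟨C, T₀, hC, hT₀, -, H⟩ := window hX hY
  obtain ⟨r1, hr1, δ, hδ, N, H1⟩ := loc_sphere hX.sm hY.sm hg.good hC
  obtain ⟨r2, hr2, H2⟩ := once hX.sm hY.sm hg.d1
  obtain ⟨r3, hr3, H3⟩ := Metric.isOpen_iff.1 hU q₀ h₀
  obtain ⟨r, hr, s1, s2, s3⟩ : ∃ r > 0, r ≤ r1 ∧ r ≤ r2 ∧ r ≤ r3 :=
    ⟨min r1 (min r2 r3), by positivity, min_le_left _ _,
      (min_le_right _ _).trans (min_le_left _ _), (min_le_right _ _).trans (min_le_right _ _)⟩
  have hU' : ball q₀ r ⊆ U := (ball_subset_ball s3).trans H3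
  refine ⟨r, hr, min δ T₀, lt_min hδ hT₀, max N 1, hU', fun m q T h hq opt hT => ?_⟩
  by_cases hA : ∀ t ∈ sw q T ∩ Ioo 0 T, X (q t) = Y (q t)
  · refine (encard_le_one_iff_subsingleton.2 ((H2 m q T h
      (hq.mono_right (ball_subset_ball s2))).anti fun t ht => ⟨ht.1.1, hA t ht⟩)).trans ?_
    exact_mod_cast le_max_right N 1
  · push Not at hA
    obtain ⟨t₀, ht₀, hne⟩ := hA
    have hT' : T ∈ Ioc 0 T := ⟨ht₀.2.1.trans ht₀.2.2, le_rfl⟩
    obtain ⟨p, hp, h1, h2, h3⟩ := H m q T U h hT' (hT.trans (min_le_right _ _)) hU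
      (hq.mono_right hU') opt t₀ ht₀.2 (not_bang_of_sw hX.sm hY.sm h ht₀.1 ht₀.2) hne
    refine (encard_le_encard fun t ht => mem_Br_of_sw hX.sm hY.sm h hT' hp ht.1 ht.2).trans
      ((H1 m q T p h hT' hp (hT.trans (min_le_left _ _)) (hq.mono_right (ball_subset_ball s1))
        (by simpa using h1) h2 h3).trans ?_)
    exact_mod_cast le_max_left N 1

end UShort

theorem short (hX : SC X) (hY : SC Y) {q₀ : E3} (hg : Good3 X Y q₀) {U : Set E3} (hU : IsOpen U)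
    (h₀ : q₀ ∈ U) : ∃ r > 0, ∃ δ₀ > 0, ∃ N : ℕ, ball q₀ r ⊆ U ∧
      ∀ m q T, Traj X Y m q T → MapsTo q (Icc 0 T) (ball q₀ r) → Opt2 X Y U q T →
        ∀ s t, t - s ≤ δ₀ → (sw q T ∩ Icc s t).encard ≤ N := by
  obtain ⟨r, hr, δ, hδ, N, hU', H⟩ := short0 hX hY hg hU h₀
  refine ⟨r, hr, δ, hδ, 2 + N, hU', fun m q T h hq opt s t hst => ?_⟩
  have hs : 0 ≤ max s 0 := le_max_right _ _
  have ht : min t T ≤ T := min_le_right _ _
  have hs' : s ≤ max s 0 := le_max_left _ _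
  have ht' : min t T ≤ t := min_le_left _ _
  have hx : ∀ x ∈ sw q T ∩ Icc s t, max s 0 ≤ x ∧ x ≤ min t T := fun x hx =>
    ⟨max_le hx.2.1 hx.1.1.1, le_min hx.2.2 hx.1.1.2⟩
  generalize max s 0 = a at *
  generalize min t T = b at *
  have h2 : ({a, b} : Set ℝ).encard ≤ 2 := by
    refine (encard_insert_le _ _).trans ?_
    rw [encard_singleton]
    exact le_of_eq one_add_one_eq_two
  by_cases hab : a ≤ b
  · have h1 := H _ _ _ (h.shift hs hab ht) (fun τ hτ => hq ⟨by linarith [hτ.1], by linarith [hτ.2]⟩)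
      (opt a b hs hab ht) (by linarith)
    have hsub : sw q T ∩ Icc s t ⊆ {a, b} ∪
        (fun τ => a + τ) '' (sw (fun τ => q (a + τ)) (b - a) ∩ Ioo 0 (b - a)) := by
      intro x hx'
      obtain ⟨x1, x2⟩ := hx x hx'
      rcases x1.eq_or_lt with rfl | x1
      · exact Or.inl (Or.inl rfl)
      rcases x2.eq_or_lt with rfl | x2
      · exact Or.inl (Or.inr rfl)
      exact Or.inr ⟨x - a, ⟨sw_shift hx'.1 hs x1 x2 ht, by linarith, by linarith⟩, by simp⟩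
    refine (encard_le_encard hsub).trans ((encard_union_le _ _).trans ?_)
    push_cast
    exact add_le_add h2 ((encard_image_le _ _).trans h1)
  · have : sw q T ∩ Icc s t = ∅ := eq_empty_of_forall_notMem fun x hx' =>
      hab ((hx x hx').1.trans (hx x hx').2)
    simp [this]

/-- The bound near `q₀`. -/
def BoundAt (X Y : E3 → E3) (U : Set E3) (q₀ : E3) : Prop :=
  ∃ U' ∈ 𝓝 q₀, ∃ k : ℕ, ∀ m q T, Traj X Y m q T → MapsTo q (Icc 0 T) U' → Opt2 X Y U q T →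
    (sw q T).encard ≤ k

end Pool.Agent.Lib.MP_f4f7c0_an
end
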